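import Pool.Agent.W_06f097_h43.SV1

/-! MP_06f097_an blueprint, block SV: locally uniform limits of holomorphic functions. -/

open scoped Topology ContDiff
open MeasureTheory Set Filter Metric

noncomputable section

namespace HR

variable {E F : Type*} [NormedAddCommGroup E] [NormedSpace ℂ E] [FiniteDimensional ℂ E]
  [NormedAddCommGroup F] [NormedSpace ℂ F] [CompleteSpace F]

private theorem sv2_cauchy {ι : Type*} {p : Filter ι} {U : Set E} (hU : IsOpen U)
    {f : ι → E → F} {g : E → F} (hf : ∀ᶠ i in p, DifferentiableOn ℂ (f i) U)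
    (h : TendstoLocallyUniformlyOn f g p U) {x : E} (hx : x ∈ U) :
    ∃ r > 0, ball x r ⊆ U ∧ UniformCauchySeqOn (fun i => fderiv ℂ (f i)) p (ball x r) := by
  have hprop : ProperSpace E := FiniteDimensional.proper ℂ E
  obtain ⟨R, hR, hRU⟩ := Metric.isOpen_iff.1 hU x hx
  obtain ⟨r, hrd⟩ : ∃ r, r = R / 3 := ⟨_, rfl⟩
  have hr : 0 < r := by
    rw [hrd]
    positivity
  have hsub : closedBall x (2 * r) ⊆ U := by
    refine (closedBall_subset_ball ?_).trans hRU
    rw [hrd]
    linarith
  refine ⟨r, hr, (ball_subset_closedBall.trans (closedBall_subset_closedBall (by linarith))).trans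
    hsub, ?_⟩
  have h1 : TendstoUniformlyOn f g p (closedBall x (2 * r)) :=
    (tendstoLocallyUniformlyOn_iff_forall_isCompact hU).1 h _ hsub (isCompact_closedBall x (2 * r))
  have h2 := h1.uniformCauchySeqOn
  intro u hu
  obtain ⟨ε, hε, hu'⟩ := Metric.mem_uniformity_dist.1 hu
  have h3 := h2 _ (Metric.dist_mem_uniformity (show 0 < ε * r / 2 by positivity))
  filter_upwards [h3, hf.prod_mk hf] with q hq hd y hy
  apply hu'
  have hyU : closedBall y r ⊆ closedBall x (2 * r) := by
    refine closedBall_subset_closedBall' ?_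
    have := mem_ball.1 hy
    linarith
  have hyU' : ball y r ⊆ closedBall x (2 * r) := ball_subset_closedBall.trans hyU
  have hyy : U ∈ 𝓝 y := hU.mem_nhds (hsub (hyU (mem_closedBall_self hr.le)))
  have d1 : DifferentiableAt ℂ (f q.1) y := hd.1.differentiableAt hyy
  have d2 : DifferentiableAt ℂ (f q.2) y := hd.2.differentiableAt hyy
  rw [dist_eq_norm, ← fderiv_fun_sub d1 d2]
  have h4 : ‖fderiv ℂ (fun z => f q.1 z - f q.2 z) y‖ ≤ (ε * r / 2) / r := by
    refine norm_fderiv_le_of_ball hr (by positivity) ?_ ?_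
    · exact (hd.1.sub hd.2).mono (hyU'.trans hsub)
    · intro z hz
      have h5 := hq z (hyU' hz)
      rw [dist_eq_norm] at h5
      exact h5.le
  refine h4.trans_lt ?_
  rw [div_lt_iff₀ hr]
  have : 0 < ε * r := by positivity
  linarith

/-- Locally uniform limits of holomorphic functions are holomorphic and the derivatives converge
locally uniformly. Proof: by the Cauchy estimate `norm_fderiv_le_of_ball` applied to differences
the derivatives are uniformly Cauchy on small balls; their limit is the derivative of `g` by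
`hasFDerivAt_of_tendstoLocallyUniformlyOn`. -/
theorem holo_limit {ι : Type*} {p : Filter ι} [NeBot p] {U : Set E} (hU : IsOpen U)
    {f : ι → E → F} {g : E → F} (hf : ∀ᶠ i in p, DifferentiableOn ℂ (f i) U)
    (h : TendstoLocallyUniformlyOn f g p U) :
    DifferentiableOn ℂ g U ∧
      TendstoLocallyUniformlyOn (fun i => fderiv ℂ (f i)) (fderiv ℂ g) p U := by
  have h1 : ∀ x ∈ U, ∃ L : E →L[ℂ] F, Tendsto (fun i => fderiv ℂ (f i) x) p (𝓝 L) := by
    intro x hx
    obtain ⟨r, hr, hrU, hc⟩ := sv2_cauchy hU hf h hx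
    have h2 := hc.cauchy_map (mem_ball_self hr)
    exact CompleteSpace.complete h2
  choose! g' hg' using h1
  have h2 : ∀ x ∈ U, ∃ r > 0, ball x r ⊆ U ∧
      TendstoUniformlyOn (fun i => fderiv ℂ (f i)) g' p (ball x r) := by
    intro x hx
    obtain ⟨r, hr, hrU, hc⟩ := sv2_cauchy hU hf h hx
    exact ⟨r, hr, hrU, hc.tendstoUniformlyOn_of_tendsto fun y hy => hg' y (hrU hy)⟩
  have h3 : ∀ x ∈ U, HasFDerivAt g (g' x) x := by
    intro x hx
    obtain ⟨r, hr, hrU, hc⟩ := h2 x hx
    refine hasFDerivAt_of_tendstoUniformlyOnFilter (l := p) (f := f)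
      (f' := fun i => fderiv ℂ (f i)) ?_ ?_ ?_
    · exact hc.tendstoUniformlyOnFilter.mono_right (le_principal_iff.2 (ball_mem_nhds x hr))
    · have h4 : ∀ᶠ n : ι × E in p ×ˢ 𝓝 x, DifferentiableOn ℂ (f n.1) U ∧ n.2 ∈ U :=
        hf.prod_mk (hU.mem_nhds hx)
      filter_upwards [h4] with n hn
      exact (hn.1.differentiableAt (hU.mem_nhds hn.2)).hasFDerivAt
    · filter_upwards [hU.mem_nhds hx] with y hy
      exact h.tendsto_at hy
  have h4 : ∀ x ∈ U, fderiv ℂ g x = g' x := fun x hx => (h3 x hx).fderiv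
  refine ⟨fun x hx => (h3 x hx).differentiableAt.differentiableWithinAt, ?_⟩
  intro u hu x hx
  obtain ⟨r, hr, hrU, hc⟩ := h2 x hx
  refine ⟨ball x r, mem_nhdsWithin_of_mem_nhds (ball_mem_nhds x hr), ?_⟩
  filter_upwards [hc u hu] with n hn y hy
  rw [h4 y (hrU hy)]
  exact hn y hy

end HR
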