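import Pool.Agent.W_06f097_h43.CA3
import Pool.Agent.W_06f097_h43.SV2

/-! MP_06f097_an blueprint, block CA: holomorphic functions. -/

open scoped Topology ContDiff
open MeasureTheory Set Filter Metric

noncomputable section

namespace HR

namespace CLG

variable {n : ℕ} {G : Type*} [Group G] [TopologicalSpace G] [IsTopologicalGroup G] (C : CLG n G)

private theorem ca5_ev {F : Type*} (f : G → F) (x : G) {φ : En n → G} {z₀ : En n}
    (hc : ContinuousAt φ z₀) (h1 : φ z₀ = 1) :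
    (fun z => f (x * φ z)) =ᶠ[𝓝 z₀] fun z => f (x * C.ψ (C.ψ.symm (φ z))) := by
  have h0 : (0 : En n) ∈ C.ψ.source := C.ball_sub (mem_ball_self C.r_pos)
  have ht : C.ψ.target ∈ 𝓝 (φ z₀) := by
    rw [h1, ← C.map_zero]
    exact C.ψ.open_target.mem_nhds (C.ψ.map_source h0)
  filter_upwards [hc.preimage_mem_nhds ht] with z hz
  rw [C.ψ.right_inv hz]

private theorem ca5_one : C.ψ.symm 1 = 0 := by
  rw [← C.map_zero]
  exact C.ψ.left_inv (C.ball_sub (mem_ball_self C.r_pos))

private theorem ca5_hol {f : G → ℂ} (hf : C.Hol f) (x : G) {φ : En n → G} {z₀ : En n}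
    (hc : ContinuousAt φ z₀) (h1 : φ z₀ = 1)
    (hs : ContDiffAt ℂ ∞ (fun z => C.ψ.symm (φ z)) z₀) :
    DifferentiableAt ℂ (fun z => f (x * φ z)) z₀ := by
  refine DifferentiableAt.congr_of_eventuallyEq ?_ (C.ca5_ev f x hc h1)
  have hf' : DifferentiableAt ℂ (C.co f x) (C.ψ.symm (φ z₀)) := by
    rw [h1, C.ca5_one]; exact hf x
  exact DifferentiableAt.comp (g := C.co f x) z₀ hf' (hs.differentiableAt (by simp))

private theorem ca5_sm {F : Type*} [NormedAddCommGroup F] [NormedSpace ℝ F] {f : G → F}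
    (hf : C.Sm f) (x : G) {φ : En n → G} {z₀ : En n}
    (hc : ContinuousAt φ z₀) (h1 : φ z₀ = 1)
    (hs : ContDiffAt ℂ ∞ (fun z => C.ψ.symm (φ z)) z₀) :
    ContDiffAt ℝ ∞ (fun z => f (x * φ z)) z₀ := by
  refine ContDiffAt.congr_of_eventuallyEq ?_ (C.ca5_ev f x hc h1)
  have hf' : ContDiffAt ℝ ∞ (C.co f x) (C.ψ.symm (φ z₀)) := by
    rw [h1, C.ca5_one]; exact hf x
  exact ContDiffAt.comp (g := C.co f x) z₀ hf' (hs.restrict_scalars ℝ)

private theorem ca5_psi : ContinuousAt C.ψ (0 : En n) :=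
  C.ψ.continuousAt (C.ball_sub (mem_ball_self C.r_pos))

private theorem ca5_conj_cont (b : G) : ContinuousAt (fun z => b⁻¹ * C.ψ z * b) (0 : En n) :=
  (continuousAt_const.mul C.ca5_psi).mul continuousAt_const

private theorem ca5_inv_cont (x : G) : ContinuousAt (fun z => x * (C.ψ z)⁻¹ * x⁻¹) (0 : En n) :=
  (continuousAt_const.mul C.ca5_psi.inv).mul continuousAt_const

private theorem ca5_inv_smooth (x : G) :
    ContDiffAt ℂ ∞ (fun z => C.ψ.symm (x * (C.ψ z)⁻¹ * x⁻¹)) 0 := by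
  have hc : ContinuousAt (fun z => (C.ψ z)⁻¹) (0 : En n) := C.ca5_psi.inv
  have h1 : (fun z => (C.ψ z)⁻¹) (0 : En n) = 1 := by
    simp only [C.map_zero, inv_one]
  have he := C.ca5_ev (fun y => C.ψ.symm (x * y * x⁻¹)) 1 hc h1
  simp only [one_mul] at he
  refine ContDiffAt.congr_of_eventuallyEq ?_ he
  have hg : ContDiffAt ℂ ∞ (fun w => C.ψ.symm (x * C.ψ w * x⁻¹)) (C.ψ.symm (C.ψ 0)⁻¹) := by
    rw [C.map_zero, inv_one, C.ca5_one]
    have := C.conj_smooth x⁻¹
    rw [inv_inv] at this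
    exact this
  exact ContDiffAt.comp (g := fun w => C.ψ.symm (x * C.ψ w * x⁻¹)) (0 : En n) hg C.inv_smooth

private theorem ca5_lim {ι : Type*} {p : Filter ι} {f : ι → G → ℂ} {g : G → ℂ}
    (h : TendstoLocallyUniformly f g p) (x : G) :
    TendstoLocallyUniformlyOn (fun i => C.co (f i) x) (C.co g x) p (ball 0 C.r) := by
  have h1 : TendstoLocallyUniformlyOn f g p univ := tendstoLocallyUniformlyOn_univ.2 h
  have hc : ContinuousOn (fun z => x * C.ψ z) (ball (0 : En n) C.r) :=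
    continuousOn_const.mul (C.ψ.continuousOn.mono C.ball_sub)
  exact h1.comp (fun z => x * C.ψ z) (fun _ _ => mem_univ _) hc

/-- Cauchy-Riemann: `D f x` is complex linear if all `Xb k f x` vanish (`D_eq`). -/
theorem hol_of_Xb {f : G → ℂ} (hf : C.Sm f) (h : ∀ k x, C.Xb k f x = 0) : C.Hol f := by
  intro x
  have hd : HasFDerivAt (C.co f x) (C.D f x) 0 :=
    ((hf x).differentiableAt (by simp)).hasFDerivAt
  have hD : (∑ j, (C.X j f x) • (ContinuousLinearMap.proj j : En n →L[ℂ] ℂ)).restrictScalars ℝ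
      = C.D f x := by
    ext v
    rw [C.D_eq f x v]
    simp only [h, mul_zero, add_zero]
    simp [mul_comm]
  exact (hasFDerivAt_of_restrictScalars ℝ hd hD).differentiableAt

/-- right translations are holomorphic: `x ψ(z) y = (x y) (y⁻¹ ψ(z) y)` and `conj_smooth` -/
theorem hol_right {f : G → ℂ} (hf : C.Hol f) (y : G) : C.Hol (fun x => f (x * y)) := by
  intro x
  have h1 : (fun z => y⁻¹ * C.ψ z * y) (0 : En n) = 1 := by simp [C.map_zero]
  have := C.ca5_hol hf (x * y) (C.ca5_conj_cont y) h1 (C.conj_smooth y)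
  have e : (fun z => f (x * C.ψ z * y)) = fun z => f (x * y * (y⁻¹ * C.ψ z * y)) := by
    funext z; congr 1; group
  simp only [e]
  exact this

/-- `(x ψ(z))⁻¹ = ψ(z)⁻¹ x⁻¹ = x⁻¹ (x ψ(z)⁻¹ x⁻¹)`; `inv_smooth`, `conj_smooth` -/
theorem hol_inv {f : G → ℂ} (hf : C.Hol f) : C.Hol (fun x => f x⁻¹) := by
  intro x
  have h1 : (fun z => x * (C.ψ z)⁻¹ * x⁻¹) (0 : En n) = 1 := by simp [C.map_zero]
  have := C.ca5_hol hf x⁻¹ (C.ca5_inv_cont x) h1 (C.ca5_inv_smooth x)
  have e : (fun z => f (x * C.ψ z)⁻¹) = fun z => f (x⁻¹ * (x * (C.ψ z)⁻¹ * x⁻¹)) := by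
    funext z; congr 1; group
  simp only [e]
  exact this

theorem sm_right {F : Type*} [NormedAddCommGroup F] [NormedSpace ℝ F] {f : G → F} (hf : C.Sm f)
    (y : G) : C.Sm (fun x => f (x * y)) := by
  intro x
  have h1 : (fun z => y⁻¹ * C.ψ z * y) (0 : En n) = 1 := by simp [C.map_zero]
  have := C.ca5_sm hf (x * y) (C.ca5_conj_cont y) h1 (C.conj_smooth y)
  have e : C.co (fun x => f (x * y)) x = fun z => f (x * y * (y⁻¹ * C.ψ z * y)) := by
    funext z; simp only [co]; congr 1; group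
  rw [e]
  exact this

theorem sm_invFun {F : Type*} [NormedAddCommGroup F] [NormedSpace ℝ F] {f : G → F} (hf : C.Sm f) :
    C.Sm (fun x => f x⁻¹) := by
  intro x
  have h1 : (fun z => x * (C.ψ z)⁻¹ * x⁻¹) (0 : En n) = 1 := by simp [C.map_zero]
  have := C.ca5_sm hf x⁻¹ (C.ca5_inv_cont x) h1 (C.ca5_inv_smooth x)
  have e : C.co (fun x => f x⁻¹) x = fun z => f (x⁻¹ * (x * (C.ψ z)⁻¹ * x⁻¹)) := by
    funext z; simp only [co]; congr 1; group
  rw [e]
  exact this

/-- locally uniform limits (from `holo_limit` in the charts) -/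
theorem hol_limit {ι : Type*} {p : Filter ι} [NeBot p] {f : ι → G → ℂ} {g : G → ℂ}
    (hf : ∀ i, C.Hol (f i)) (h : TendstoLocallyUniformly f g p) : C.Hol g := by
  intro x
  have h1 := holo_limit isOpen_ball
    (Filter.Eventually.of_forall fun i => C.hol_differentiableOn (hf i) x) (C.ca5_lim h x)
  exact h1.1.differentiableAt (ball_mem_nhds (0 : En n) C.r_pos)

/-- the derivatives converge too -/
theorem X_limit {ι : Type*} {p : Filter ι} [NeBot p] {f : ι → G → ℂ} {g : G → ℂ}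
    (hf : ∀ i, C.Hol (f i)) (h : TendstoLocallyUniformly f g p) (j : Fin n) :
    TendstoLocallyUniformly (fun i => C.X j (f i)) (C.X j g) p := by
  have hg : C.Hol g := C.hol_limit hf h
  rw [Metric.tendstoLocallyUniformly_iff]
  intro ε hε x
  have hr := C.r_pos
  -- a neighbourhood of `x` and a radius such that the translated balls stay in it
  have key : ∀ V ∈ 𝓝 x, ∃ V' ∈ 𝓝 x, ∃ ρ > 0, ρ ≤ C.r ∧ ∀ y ∈ V', ∀ z ∈ ball (0 : En n) ρ,
      y * C.ψ z ∈ V := by
    intro V hV
    have hc : ContinuousAt (fun q : G × En n => q.1 * C.ψ q.2) (x, (0 : En n)) := by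
      refine ContinuousAt.mul continuousAt_fst ?_
      exact ContinuousAt.comp (f := fun q : G × En n => q.2) (g := C.ψ) C.ca5_psi
        continuousAt_snd
    have hV' : V ∈ 𝓝 ((fun q : G × En n => q.1 * C.ψ q.2) (x, (0 : En n))) := by
      simpa [C.map_zero] using hV
    have h2 := hc.preimage_mem_nhds hV'
    rw [nhds_prod_eq, Filter.mem_prod_iff] at h2
    obtain ⟨V', hV'1, B, hB, hsub⟩ := h2
    obtain ⟨ρ, hρ, hρB⟩ := Metric.mem_nhds_iff.1 hB
    refine ⟨V', hV'1, min ρ C.r, lt_min hρ C.r_pos, min_le_right _ _, fun y hy z hz => ?_⟩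
    have : (y, z) ∈ V' ×ˢ B :=
      ⟨hy, hρB (ball_subset_ball (min_le_left _ _) hz)⟩
    exact hsub this
  have hV : (fun z => x * C.ψ z) '' ball (0 : En n) (C.r / 2) ∈ 𝓝 x := by
    rw [← C.map_nhds x]
    exact Filter.image_mem_map (ball_mem_nhds _ (by linarith))
  obtain ⟨V', hV', ρ, hρ, hρr, hball⟩ := key _ hV
  have hu : TendstoUniformlyOn (fun i => C.co (f i) x) (C.co g x) p
      (closedBall (0 : En n) (C.r / 2)) :=
    (tendstoLocallyUniformlyOn_iff_forall_isCompact isOpen_ball).1 (C.ca5_lim h x) _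
      (closedBall_subset_ball (by linarith)) (isCompact_closedBall _ _)
  rw [Metric.tendstoUniformlyOn_iff] at hu
  refine ⟨V', hV', ?_⟩
  filter_upwards [hu (ε * ρ / 2) (by positivity)] with i hi y hy
  have d1 : DifferentiableOn ℂ (C.co g y) (ball 0 ρ) :=
    (C.hol_differentiableOn hg y).mono (ball_subset_ball hρr)
  have d2 : DifferentiableOn ℂ (C.co (f i) y) (ball 0 ρ) :=
    (C.hol_differentiableOn (hf i) y).mono (ball_subset_ball hρr)
  have hb : ∀ z ∈ ball (0 : En n) ρ, ‖C.co g y z - C.co (f i) y z‖ ≤ ε * ρ / 2 := by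
    intro z hz
    obtain ⟨w, hw, hwe⟩ := hball y hy z hz
    have := hi w (ball_subset_closedBall hw)
    rw [dist_eq_norm] at this
    simp only [co] at this ⊢
    simp only at hwe
    rw [hwe] at this
    exact this.le
  have h4 := norm_fderiv_le_of_ball (f := fun z => C.co g y z - C.co (f i) y z) hρ
    (by positivity) (d1.sub d2) hb
  have hm : ball (0 : En n) ρ ∈ 𝓝 (0 : En n) := ball_mem_nhds _ hρ
  rw [fderiv_fun_sub (d1.differentiableAt hm) (d2.differentiableAt hm)] at h4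
  rw [C.X_hol hg, C.X_hol (hf i), dist_eq_norm, ← ContinuousLinearMap.sub_apply]
  have h5 : ‖(Pi.single j (1 : ℂ) : En n)‖ = 1 := by
    rw [Pi.norm_single]; simp
  calc ‖(fderiv ℂ (C.co g y) 0 - fderiv ℂ (C.co (f i) y) 0) (Pi.single j 1)‖
      ≤ ‖fderiv ℂ (C.co g y) 0 - fderiv ℂ (C.co (f i) y) 0‖ * ‖(Pi.single j (1 : ℂ) : En n)‖ :=
        ContinuousLinearMap.le_opNorm _ _
    _ ≤ ε * ρ / 2 / ρ := by rw [h5, mul_one]; exact h4
    _ < ε := by
        rw [div_lt_iff₀ hρ]
        have : 0 < ε * ρ := by positivity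
        linarith

/-- identity theorem is not needed; only: a holomorphic function which vanishes near a point and
the group is arbitrary, so nothing is claimed. Uniform convergence on compact sets version. -/
theorem hol_limit' [LocallyCompactSpace G] {f : ℕ → G → ℂ} {g : G → ℂ}
    (hf : ∀ i, C.Hol (f i)) (h : ∀ K : Set G, IsCompact K → TendstoUniformlyOn f g atTop K) :
    C.Hol g := by
  exact C.hol_limit hf (tendstoLocallyUniformly_iff_forall_isCompact.2 h)

end CLG

end HR
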