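import Pool.Agent.W_06f097_h43.CA2

/-! MP_06f097_an blueprint, block CA: smooth bumps near the unit. -/

open scoped Topology ContDiff
open MeasureTheory Set Filter Metric

noncomputable section

namespace HR

namespace CLG

variable {n : ℕ} {G : Type*} [Group G] [TopologicalSpace G] [IsTopologicalGroup G] [T2Space G]
  (C : CLG n G)

/-- Transport of a function on `En n` with compact support in the ball: `b (ψ z) = β z`, `b = 0`
outside `ψ (ball)`. It is smooth: at points of `ψ '' ball 0 r` because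
`co b (ψ z₀) w = β (ψ.symm (ψ z₀ * ψ w))` near `0`; outside the compact set `ψ '' tsupport β`, which
is closed in `G`, it vanishes locally. -/
theorem exists_transport {β : En n → ℝ} (hβ : ContDiff ℝ ∞ β) (hc : HasCompactSupport β)
    (hs : tsupport β ⊆ ball (0 : En n) C.r) :
    ∃ b : G → ℝ, C.Sm b ∧ HasCompactSupport b ∧ tsupport b = C.ψ '' tsupport β ∧
      (∀ z ∈ ball (0 : En n) C.r, b (C.ψ z) = β z) ∧
      ∀ x, x ∉ C.ψ '' tsupport β → b x = 0 := by
  classical
  have hsrc : tsupport β ⊆ C.ψ.source := hs.trans C.ball_sub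
  have hK : IsCompact (tsupport β) := hc
  have hK' : IsCompact (C.ψ '' tsupport β) := hK.image_of_continuousOn
    (C.ψ.continuousOn.mono hsrc)
  have hcl : IsClosed (C.ψ '' tsupport β) := hK'.isClosed
  obtain ⟨b, hb⟩ : ∃ b : G → ℝ, b = fun x => if x ∈ C.ψ '' tsupport β then
    β (C.ψ.symm x) else 0 := ⟨_, rfl⟩
  have hb0 : ∀ x, x ∉ C.ψ '' tsupport β → b x = 0 := fun x hx => by
    rw [hb]
    exact if_neg hx
  have hbt : ∀ x ∈ C.ψ.target, b x = β (C.ψ.symm x) := by
    intro x hx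
    by_cases h : x ∈ C.ψ '' tsupport β
    · rw [hb]
      exact if_pos h
    · rw [hb0 x h]
      refine (image_eq_zero_of_notMem_tsupport fun h2 => h ?_).symm
      exact ⟨C.ψ.symm x, h2, C.ψ.right_inv hx⟩
  have hbz : ∀ z ∈ ball (0 : En n) C.r, b (C.ψ z) = β z := by
    intro z hz
    have hz' := C.ball_sub hz
    rw [hbt _ (C.ψ.map_source hz'), C.ψ.left_inv hz']
  have hsupp : Function.support b = C.ψ '' Function.support β := by
    ext x
    constructor
    · intro hx
      rw [Function.mem_support] at hx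
      have h1 : x ∈ C.ψ '' tsupport β := by
        by_contra h
        exact hx (hb0 x h)
      obtain ⟨z, hz, rfl⟩ := h1
      refine ⟨z, ?_, rfl⟩
      rw [Function.mem_support, ← hbz z (hs hz)]
      exact hx
    · rintro ⟨z, hz, rfl⟩
      rw [Function.mem_support, hbz z (hs (subset_tsupport β hz))]
      exact hz
  have hts : tsupport b = C.ψ '' tsupport β := by
    apply subset_antisymm
    · refine closure_minimal ?_ hcl
      rw [hsupp]
      exact image_mono (subset_tsupport β)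
    · have h1 : ContinuousOn C.ψ (closure (Function.support β)) := C.ψ.continuousOn.mono hsrc
      have h2 := h1.image_closure
      rw [← hsupp] at h2
      exact h2
  have h0s : (0 : En n) ∈ C.ψ.source := C.ball_sub (mem_ball_self C.r_pos)
  refine ⟨b, ?_, ?_, hts, hbz, hb0⟩
  · intro x
    by_cases hx : x ∈ C.ψ '' tsupport β
    · obtain ⟨z₀, hz₀, rfl⟩ := hx
      have hz₀' := hs hz₀
      have h1 : ContDiffAt ℂ ∞ (fun p : En n × En n => C.ψ.symm (C.ψ p.1 * C.ψ p.2)) (z₀, 0) :=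
        C.mul_smooth.contDiffAt ((isOpen_ball.prod isOpen_ball).mem_nhds
          ⟨hz₀', mem_ball_self C.r_pos⟩)
      have h2 : ContDiffAt ℂ ∞ (fun w : En n => C.ψ.symm (C.ψ z₀ * C.ψ w)) 0 :=
        h1.comp (0 : En n) (contDiffAt_const.prodMk contDiffAt_id)
      have h3 : ContDiffAt ℝ ∞ (fun w : En n => β (C.ψ.symm (C.ψ z₀ * C.ψ w))) 0 :=
        hβ.contDiffAt.comp (0 : En n) (h2.restrict_scalars ℝ)
      refine h3.congr_of_eventuallyEq ?_
      filter_upwards [ball_mem_nhds (0 : En n) C.r_pos] with w hw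
      exact hbt _ (C.mul_mem z₀ hz₀' w hw)
    · have h1 : ContDiffAt ℝ ∞ (fun _ : En n => (0 : ℝ)) 0 := contDiffAt_const
      refine h1.congr_of_eventuallyEq ?_
      have h2 : ContinuousAt (fun w : En n => x * C.ψ w) 0 :=
        continuousAt_const.mul (C.ψ.continuousAt h0s)
      have h3 : (C.ψ '' tsupport β)ᶜ ∈ 𝓝 (x * C.ψ 0) := by
        rw [C.map_zero, mul_one]
        exact hcl.isOpen_compl.mem_nhds hx
      filter_upwards [h2.preimage_mem_nhds h3] with w hw
      exact hb0 _ hw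
  · show IsCompact (tsupport b)
    rw [hts]
    exact hK'

/-- from `exists_transport` and `ContDiffBump` -/
theorem exists_bump {U : Set G} (hU : U ∈ 𝓝 (1 : G)) :
    ∃ b : G → ℝ, C.Sm b ∧ HasCompactSupport b ∧ tsupport b ⊆ U ∧ (∀ x, 0 ≤ b x) ∧ 0 < b 1 := by
  have h0s : (0 : En n) ∈ C.ψ.source := C.ball_sub (mem_ball_self C.r_pos)
  have h1 : C.ψ ⁻¹' U ∈ 𝓝 (0 : En n) := by
    refine (C.ψ.continuousAt h0s).preimage_mem_nhds ?_
    rw [C.map_zero]
    exact hU
  obtain ⟨ε, hε, hεU⟩ := Metric.mem_nhds_iff.1 h1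
  have hr := C.r_pos
  obtain ⟨ρ, hρd⟩ : ∃ ρ, ρ = min ε C.r / 2 := ⟨_, rfl⟩
  have hmin : 0 < min ε C.r := lt_min hε hr
  have hρ : 0 < ρ := by
    rw [hρd]
    positivity
  have hρ1 : ρ < ε := by
    have := min_le_left ε C.r
    rw [hρd]
    linarith
  have hρ2 : ρ < C.r := by
    have := min_le_right ε C.r
    rw [hρd]
    linarith
  obtain ⟨β, hβ1, hβ2⟩ : ∃ β : ContDiffBump (0 : En n), β.rIn = ρ / 2 ∧ β.rOut = ρ :=
    ⟨⟨ρ / 2, ρ, by positivity, by linarith⟩, rfl, rfl⟩
  have hts : tsupport β = closedBall (0 : En n) ρ := by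
    rw [β.tsupport_eq, hβ2]
  obtain ⟨b, b1, b2, b3, b4, b5⟩ := C.exists_transport (β := β) β.contDiff
    β.hasCompactSupport (by rw [hts]; exact closedBall_subset_ball hρ2)
  refine ⟨b, b1, b2, ?_, ?_, ?_⟩
  · rw [b3, hts]
    rintro _ ⟨z, hz, rfl⟩
    exact hεU (closedBall_subset_ball hρ1 hz)
  · intro x
    by_cases hx : x ∈ C.ψ '' tsupport β
    · obtain ⟨z, hz, rfl⟩ := hx
      rw [hts] at hz
      rw [b4 z (closedBall_subset_ball hρ2 hz)]
      exact β.nonneg
    · rw [b5 x hx]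
  · have h2 := b4 0 (mem_ball_self hr)
    rw [C.map_zero] at h2
    rw [h2]
    exact β.pos_of_mem_ball (mem_ball_self β.rOut_pos)

end CLG

end HR
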