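import Pool.Agent.W_06f097_h43.CA3

/-! MP_06f097_an blueprint, block CA: second order calculus. -/

open scoped Topology ContDiff
open MeasureTheory Set Filter Metric

noncomputable section

namespace HR

namespace CLG

variable {n : ℕ} {G : Type*} [Group G] [TopologicalSpace G] [IsTopologicalGroup G] (C : CLG n G)
variable {F : Type*} [NormedAddCommGroup F] [NormedSpace ℝ F]

/-- multiplication in the chart -/
def CA4_mu (p : En n × En n) : En n := C.ψ.symm (C.ψ p.1 * C.ψ p.2)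

theorem CA4_mu_smooth : ContDiffOn ℂ ∞ C.CA4_mu (ball 0 C.r ×ˢ ball 0 C.r) := C.mul_smooth

theorem CA4_open : IsOpen (ball (0 : En n) C.r ×ˢ ball (0 : En n) C.r) := isOpen_ball.prod isOpen_ball

theorem CA4_zero_mem : (0 : En n) ∈ ball (0 : En n) C.r := mem_ball_self C.r_pos

theorem CA4_mu_at {p : En n × En n} (h : p ∈ ball (0 : En n) C.r ×ˢ ball (0 : En n) C.r) :
    ContDiffAt ℂ ∞ C.CA4_mu p :=
  C.CA4_mu_smooth.contDiffAt (C.CA4_open.mem_nhds h)

theorem CA4_mu_left {z : En n} (hz : z ∈ ball (0 : En n) C.r) : C.CA4_mu (z, 0) = z := by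
  simp only [CA4_mu, C.map_zero, mul_one]
  exact C.ψ.left_inv (C.ball_sub hz)

theorem CA4_mu_right {w : En n} (hw : w ∈ ball (0 : En n) C.r) : C.CA4_mu (0, w) = w := by
  simp only [CA4_mu, C.map_zero, one_mul]
  exact C.ψ.left_inv (C.ball_sub hw)

theorem CA4_slice {z : En n} (hz : z ∈ ball (0 : En n) C.r) :
    HasFDerivAt (fun w => C.CA4_mu (z, w))
      ((fderiv ℂ C.CA4_mu (z, 0)).comp (ContinuousLinearMap.inr ℂ (En n) (En n))) 0 := by
  have h1 : DifferentiableAt ℂ C.CA4_mu (z, 0) :=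
    (C.CA4_mu_at (p := (z, 0)) ⟨hz, C.CA4_zero_mem⟩).differentiableAt (by simp)
  have h2 : HasFDerivAt (fun w : En n => ((z, w) : En n × En n))
      (ContinuousLinearMap.inr ℂ (En n) (En n)) 0 := by
    have := (hasFDerivAt_const (𝕜 := ℂ) z (0 : En n)).prodMk (hasFDerivAt_id (𝕜 := ℂ) (0 : En n))
    exact this
  exact HasFDerivAt.comp (0 : En n) h1.hasFDerivAt h2

/-- the vector `fderiv (m (z, ·)) 0 v` -/
def CA4_vec (z v : En n) : En n := fderiv ℂ C.CA4_mu (z, 0) (0, v)

theorem CA4_vec_zero (v : En n) : C.CA4_vec 0 v = v := by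
  have h1 := C.CA4_slice C.CA4_zero_mem
  have h2 : (fun w => C.CA4_mu ((0 : En n), w)) =ᶠ[𝓝 0] fun w => w := by
    filter_upwards [ball_mem_nhds (0 : En n) C.r_pos] with w hw
    exact C.CA4_mu_right hw
  have h3 := h1.congr_of_eventuallyEq h2.symm
  have h4 := h3.unique (hasFDerivAt_id (𝕜 := ℂ) (0 : En n))
  have h5 := congrArg (fun T => T v) h4
  simpa [CA4_vec] using h5

theorem CA4_vec_smooth (v : En n) : ContDiffAt ℂ ∞ (fun z => C.CA4_vec z v) 0 := by
  have h1 : ContDiffAt ℂ ∞ (fderiv ℂ C.CA4_mu) ((0 : En n), (0 : En n)) :=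
    (C.CA4_mu_at (p := ((0 : En n), (0 : En n))) ⟨C.CA4_zero_mem, C.CA4_zero_mem⟩).fderiv_right
      (m := ∞) (by simp)
  have h2 : ContDiffAt ℂ ∞ (fun z : En n => ((z, 0) : En n × En n)) 0 :=
    contDiffAt_id.prodMk contDiffAt_const
  have h3 : ContDiffAt ℂ ∞ (fun z : En n => fderiv ℂ C.CA4_mu (z, 0)) 0 :=
    ContDiffAt.comp (0 : En n) h1 h2
  exact h3.clm_apply contDiffAt_const

/-- the mixed second derivative -/
def CA4_b (u v : En n) : En n :=
  fderiv ℂ (fderiv ℂ C.CA4_mu) ((0 : En n), (0 : En n)) (u, 0) (0, v)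

theorem CA4_vec_deriv (v : En n) : HasFDerivAt (fun z => C.CA4_vec z v)
    (((ContinuousLinearMap.apply ℂ (En n) ((0, v) : En n × En n)).comp
      (fderiv ℂ (fderiv ℂ C.CA4_mu) ((0 : En n), (0 : En n)))).comp
        (ContinuousLinearMap.inl ℂ (En n) (En n))) 0 := by
  have h1 : ContDiffAt ℂ ∞ (fderiv ℂ C.CA4_mu) ((0 : En n), (0 : En n)) :=
    (C.CA4_mu_at (p := ((0 : En n), (0 : En n))) ⟨C.CA4_zero_mem, C.CA4_zero_mem⟩).fderiv_right
      (m := ∞) (by simp)
  have h2 : HasFDerivAt (fun z : En n => ((z, 0) : En n × En n))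
      (ContinuousLinearMap.inl ℂ (En n) (En n)) 0 := by
    have := (hasFDerivAt_id (𝕜 := ℂ) (0 : En n)).prodMk (hasFDerivAt_const (𝕜 := ℂ) (0 : En n) (0 : En n))
    exact this
  have h3 : HasFDerivAt (fun z : En n => fderiv ℂ C.CA4_mu (z, 0))
      ((fderiv ℂ (fderiv ℂ C.CA4_mu) ((0 : En n), (0 : En n))).comp
        (ContinuousLinearMap.inl ℂ (En n) (En n))) 0 :=
    HasFDerivAt.comp (0 : En n) (h1.differentiableAt (by simp)).hasFDerivAt h2
  exact ((ContinuousLinearMap.apply ℂ (En n) ((0, v) : En n × En n)).hasFDerivAt.comp (0 : En n) h3)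

/-- the basic formula -/
theorem CA4_D_eq {f : G → F} (hf : C.Sm f) (x : G) {z : En n} (hz : z ∈ ball (0 : En n) C.r)
    (v : En n) : C.D f (x * C.ψ z) v = fderiv ℝ (C.co f x) z (C.CA4_vec z v) := by
  have h0 := C.co_base' f x hz
  have h1 : HasFDerivAt (C.co f x) (fderiv ℝ (C.co f x) z) (C.CA4_mu (z, 0)) := by
    rw [C.CA4_mu_left hz]
    exact (((C.sm_contDiffOn hf x).contDiffAt (isOpen_ball.mem_nhds hz)).differentiableAt
      (by simp)).hasFDerivAt
  have h2 := (C.CA4_slice hz).restrictScalars ℝ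
  have h3 := HasFDerivAt.comp (0 : En n) h1 h2
  have h4 : HasFDerivAt (C.co f (x * C.ψ z)) _ 0 := h3.congr_of_eventuallyEq h0
  rw [D, h4.fderiv]
  rfl

theorem CA4_D_eq_hol {f : G → ℂ} (hf : C.Hol f) (x : G) {z : En n} (hz : z ∈ ball (0 : En n) C.r)
    (v : En n) : fderiv ℂ (C.co f (x * C.ψ z)) 0 v = fderiv ℂ (C.co f x) z (C.CA4_vec z v) := by
  have h0 := C.co_base' f x hz
  have h1 : HasFDerivAt (C.co f x) (fderiv ℂ (C.co f x) z) (C.CA4_mu (z, 0)) := by
    rw [C.CA4_mu_left hz]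
    exact (((C.hol_contDiffOn hf x).contDiffAt (isOpen_ball.mem_nhds hz)).differentiableAt
      (by simp)).hasFDerivAt
  have h3 := HasFDerivAt.comp (0 : En n) h1 (C.CA4_slice hz)
  have h4 : HasFDerivAt (C.co f (x * C.ψ z)) _ 0 := h3.congr_of_eventuallyEq h0
  rw [h4.fderiv]
  rfl

theorem CA4_co_D {f : G → F} (hf : C.Sm f) (x : G) (v : En n) :
    C.co (fun y => C.D f y v) x =ᶠ[𝓝 0] fun z => fderiv ℝ (C.co f x) z (C.CA4_vec z v) := by
  filter_upwards [ball_mem_nhds (0 : En n) C.r_pos] with z hz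
  exact C.CA4_D_eq hf x hz v

theorem CA4_fderiv_smooth {f : G → F} (hf : C.Sm f) (x : G) :
    ContDiffAt ℝ ∞ (fderiv ℝ (C.co f x)) 0 :=
  ((C.sm_contDiffOn hf x).contDiffAt (isOpen_ball.mem_nhds C.CA4_zero_mem)).fderiv_right
    (m := ∞) (by simp)

/-- Let `m (z, w) = ψ.symm (ψ z * ψ w)` (smooth near `(0, 0)`, `m (z, 0) = z`, `m (0, w) = w`).
Near `z = 0`: `(D f (x * ψ z)) v = fderiv (co f x) z (fderiv (m (z, ·)) 0 v)`, since
`f (x * ψ z * ψ w) = co f x (m (z, w))` for small `z`, `w`. Hence smoothness. -/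
theorem sm_D {f : G → F} (hf : C.Sm f) (v : En n) : C.Sm (fun x => C.D f x v) := by
  intro x
  apply ContDiffAt.congr_of_eventuallyEq _ (C.CA4_co_D hf x v)
  exact (C.CA4_fderiv_smooth hf x).clm_apply ((C.CA4_vec_smooth v).restrict_scalars ℝ)

theorem sm_X {f : G → ℂ} (hf : C.Sm f) (j : Fin n) : C.Sm (C.X j f) := by
  have h1 := C.sm_D hf (Pi.single j 1)
  have h2 := C.sm_D hf (Pi.single j Complex.I)
  have h3 := C.sm_mul (C.sm_const (1 / 2 : ℂ))
    (C.sm_sub h1 (C.sm_mul (C.sm_const Complex.I) h2))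
  have h4 : C.X j f = fun x => (1 / 2 : ℂ) * (C.D f x (Pi.single j 1) -
      Complex.I * C.D f x (Pi.single j Complex.I)) := by
    funext x
    rw [X]; ring
  rw [h4]
  exact h3

theorem sm_Xb {f : G → ℂ} (hf : C.Sm f) (j : Fin n) : C.Sm (C.Xb j f) := by
  have h1 := C.sm_D hf (Pi.single j 1)
  have h2 := C.sm_D hf (Pi.single j Complex.I)
  have h3 := C.sm_mul (C.sm_const (1 / 2 : ℂ))
    (C.sm_add h1 (C.sm_mul (C.sm_const Complex.I) h2))
  have h4 : C.Xb j f = fun x => (1 / 2 : ℂ) * (C.D f x (Pi.single j 1) +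
      Complex.I * C.D f x (Pi.single j Complex.I)) := by
    funext x
    rw [Xb]; ring
  rw [h4]
  exact h3

/-- the complex version of `sm_D` -/
theorem hol_X {f : G → ℂ} (hf : C.Hol f) (j : Fin n) : C.Hol (C.X j f) := by
  intro x
  have h1 : (fun z => C.X j f (x * C.ψ z)) =ᶠ[𝓝 0]
      fun z => fderiv ℂ (C.co f x) z (C.CA4_vec z (Pi.single j 1)) := by
    filter_upwards [ball_mem_nhds (0 : En n) C.r_pos] with z hz
    rw [C.X_hol hf, C.CA4_D_eq_hol hf x hz]
  apply DifferentiableAt.congr_of_eventuallyEq _ h1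
  have h2 : ContDiffAt ℂ ∞ (fderiv ℂ (C.co f x)) 0 :=
    ((C.hol_contDiffOn hf x).contDiffAt (isOpen_ball.mem_nhds C.CA4_zero_mem)).fderiv_right
      (m := ∞) (by simp)
  exact (h2.differentiableAt (by simp)).clm_apply ((C.CA4_vec_smooth _).differentiableAt (by simp))

/-- the second derivative `D_u (D_v f)` -/
theorem CA4_second {f : G → F} (hf : C.Sm f) (u v : En n) (x : G) :
    C.D (fun y => C.D f y v) x u = fderiv ℝ (fderiv ℝ (C.co f x)) 0 u v +
      C.D f x (C.CA4_b u v) := by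
  have h1 : HasFDerivAt (fderiv ℝ (C.co f x)) (fderiv ℝ (fderiv ℝ (C.co f x)) 0) 0 :=
    ((C.CA4_fderiv_smooth hf x).differentiableAt (by simp)).hasFDerivAt
  have h2 := (C.CA4_vec_deriv v).restrictScalars ℝ
  have h3 := (h1.clm_apply h2).congr_of_eventuallyEq (C.CA4_co_D hf x v)
  rw [D, h3.fderiv]
  simp only [add_apply, ContinuousLinearMap.comp_apply,
    ContinuousLinearMap.flip_apply, C.CA4_vec_zero]
  rw [add_comm]
  rfl

theorem CA4_bracket_aux : ∃ br : En n →ₗ[ℂ] En n →ₗ[ℂ] En n, ∀ u v : En n,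
    br u v = C.CA4_b u v - C.CA4_b v u := by
  refine ⟨LinearMap.mk₂ ℂ (fun u v => C.CA4_b u v - C.CA4_b v u) ?_ ?_ ?_ ?_, fun u v => rfl⟩
  · intro u u' v
    have e1 : ((u + u', 0) : En n × En n) = (u, 0) + (u', 0) := by simp
    have e2 : ((0, u + u') : En n × En n) = (0, u) + (0, u') := by simp
    simp only [CA4_b, e1, e2, map_add, add_apply]
    abel
  · intro c u v
    have e1 : ((c • u, 0) : En n × En n) = c • (u, 0) := by simp
    have e2 : ((0, c • u) : En n × En n) = c • (0, u) := by simp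
    simp only [CA4_b, e1, e2, map_smul, smul_apply, smul_sub]
  · intro u v v'
    have e1 : ((v + v', 0) : En n × En n) = (v, 0) + (v', 0) := by simp
    have e2 : ((0, v + v') : En n × En n) = (0, v) + (0, v') := by simp
    simp only [CA4_b, e1, e2, map_add, add_apply]
    abel
  · intro c u v
    have e1 : ((c • v, 0) : En n × En n) = c • (v, 0) := by simp
    have e2 : ((0, c • v) : En n × En n) = c • (0, v) := by simp
    simp only [CA4_b, e1, e2, map_smul, smul_apply, smul_sub]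

/-- Second derivatives: with `b (u, v)` the mixed second derivative of `m` at `(0, 0)` (complex
bilinear), `D_u (D_v f) x = D² (co f x) 0 (u, v) + D (co f x) 0 (b (u, v))`. So the commutator is
`D_u D_v f - D_v D_u f = D_{b(u,v) - b(v,u)} f`. -/
theorem exists_bracket : ∃ br : En n →ₗ[ℂ] En n →ₗ[ℂ] En n, ∀ (f : G → F), C.Sm f →
    ∀ (u v : En n) (x : G), C.D (fun y => C.D f y v) x u - C.D (fun y => C.D f y u) x v =
      C.D f x (br u v) := by
  obtain ⟨br, hbr⟩ := C.CA4_bracket_aux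
  refine ⟨br, fun f hf u v x => ?_⟩
  rw [C.CA4_second hf u v x, C.CA4_second hf v u x, hbr, map_sub]
  have hsym : IsSymmSndFDerivAt ℝ (C.co f x) 0 := by
    apply ContDiffAt.isSymmSndFDerivAt (n := ∞) (hf x)
    rw [minSmoothness_of_isRCLikeNormedField]
    exact WithTop.coe_le_coe.2 le_top
  have := hsym.eq u v
  rw [this]
  abel

theorem CA4_lin {g h : G → ℂ} (hg : C.Sm g) (hh : C.Sm h) (c : ℂ) (x : G) (u : En n) :
    C.D (fun y => (g y + c * h y) / 2) x u = (C.D g x u + c * C.D h x u) / 2 := by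
  have h1 : HasFDerivAt (C.co g x) (C.D g x) 0 := ((hg x).differentiableAt (by simp)).hasFDerivAt
  have h2 : HasFDerivAt (C.co h x) (C.D h x) 0 := ((hh x).differentiableAt (by simp)).hasFDerivAt
  have h3 := ((h1.add (h2.const_mul c)).const_mul (1 / 2 : ℂ))
  have h4 : C.co (fun y => (g y + c * h y) / 2) x =
      fun z => (1 / 2 : ℂ) * (C.co g x z + c * C.co h x z) := by
    funext z
    simp only [co]
    ring
  rw [D, h4]
  have h5 : HasFDerivAt (fun z => (1 / 2 : ℂ) * (C.co g x z + c * C.co h x z)) _ 0 := h3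
  rw [h5.fderiv]
  simp only [add_apply, smul_apply, smul_eq_mul]
  ring

theorem CA4_Xb_D {f : G → ℂ} (hf : C.Sm f) (k : Fin n) (x : G) (u : En n) :
    C.D (C.Xb k f) x u = (C.D (fun y => C.D f y (Pi.single k 1)) x u +
      Complex.I * C.D (fun y => C.D f y (Pi.single k Complex.I)) x u) / 2 :=
  C.CA4_lin (C.sm_D hf _) (C.sm_D hf _) Complex.I x u

theorem CA4_X_D {f : G → ℂ} (hf : C.Sm f) (k : Fin n) (x : G) (u : En n) :
    C.D (C.X k f) x u = (C.D (fun y => C.D f y (Pi.single k 1)) x u +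
      (-Complex.I) * C.D (fun y => C.D f y (Pi.single k Complex.I)) x u) / 2 := by
  rw [← C.CA4_lin (C.sm_D hf _) (C.sm_D hf _) (-Complex.I) x u]
  congr 2
  funext y
  rw [X]
  ring

theorem CA4_single (j : Fin n) : (Pi.single j Complex.I : En n) =
    Complex.I • (Pi.single j (1 : ℂ) : En n) := by
  rw [← Pi.single_smul]
  simp

/-- from `exists_bracket` (`br` is complex bilinear) -/
theorem X_Xb_comm {f : G → ℂ} (hf : C.Sm f) (j k : Fin n) (x : G) :
    C.X j (C.Xb k f) x = C.Xb k (C.X j f) x := by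
  obtain ⟨br, hbr⟩ := C.exists_bracket (F := ℂ)
  have e1 : C.X j (C.Xb k f) x = (C.D (C.Xb k f) x (Pi.single j 1) -
    Complex.I * C.D (C.Xb k f) x (Pi.single j Complex.I)) / 2 := rfl
  have e2 : C.Xb k (C.X j f) x = (C.D (C.X j f) x (Pi.single k 1) +
    Complex.I * C.D (C.X j f) x (Pi.single k Complex.I)) / 2 := rfl
  rw [e1, e2, C.CA4_Xb_D hf, C.CA4_Xb_D hf, C.CA4_X_D hf, C.CA4_X_D hf]
  have b1 := hbr f hf (Pi.single j 1) (Pi.single k 1) x
  have b2 := hbr f hf (Pi.single j 1) (Pi.single k Complex.I) x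
  have b3 := hbr f hf (Pi.single j Complex.I) (Pi.single k 1) x
  have b4 := hbr f hf (Pi.single j Complex.I) (Pi.single k Complex.I) x
  set B := br (Pi.single j 1) (Pi.single k 1) with hB
  have c2 : br (Pi.single j 1) (Pi.single k Complex.I) = Complex.I • B := by
    rw [CA4_single k, map_smul]
  have c3 : br (Pi.single j Complex.I) (Pi.single k 1) = Complex.I • B := by
    rw [CA4_single j, map_smul, LinearMap.smul_apply]
  have c4 : br (Pi.single j Complex.I) (Pi.single k Complex.I) = -B := by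
    rw [CA4_single j, CA4_single k, map_smul, map_smul, LinearMap.smul_apply, smul_smul,
      Complex.I_mul_I, neg_smul, one_smul]
  rw [c2] at b2
  rw [c3] at b3
  rw [c4, map_neg] at b4
  have hI := Complex.I_mul_I
  linear_combination (1 / 4 : ℂ) * b1 + (Complex.I / 4) * b2 - (Complex.I / 4) * b3 +
    (1 / 4 : ℂ) * b4 -
    (1 / 4 : ℂ) * (C.D (fun y => C.D f y (Pi.single k Complex.I)) x (Pi.single j Complex.I) -
      C.D (fun y => C.D f y (Pi.single j Complex.I)) x (Pi.single k Complex.I)) * hI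

/-- structure constants: from `exists_bracket` -/
theorem exists_struct : ∃ cc : Fin n → Fin n → Fin n → ℂ, ∀ (f : G → ℂ), C.Sm f →
    ∀ (l k : Fin n) (x : G), C.Xb l (C.Xb k f) x - C.Xb k (C.Xb l f) x =
      ∑ m, cc l k m * C.Xb m f x := by
  obtain ⟨br, hbr⟩ := C.exists_bracket (F := ℂ)
  refine ⟨fun l k m => (starRingEnd ℂ) (br (Pi.single l 1) (Pi.single k 1) m), ?_⟩
  intro f hf l k x
  have e1 : C.Xb l (C.Xb k f) x = (C.D (C.Xb k f) x (Pi.single l 1) +
    Complex.I * C.D (C.Xb k f) x (Pi.single l Complex.I)) / 2 := rfl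
  have e2 : C.Xb k (C.Xb l f) x = (C.D (C.Xb l f) x (Pi.single k 1) +
    Complex.I * C.D (C.Xb l f) x (Pi.single k Complex.I)) / 2 := rfl
  rw [e1, e2, C.CA4_Xb_D hf, C.CA4_Xb_D hf, C.CA4_Xb_D hf, C.CA4_Xb_D hf]
  have b1 := hbr f hf (Pi.single l 1) (Pi.single k 1) x
  have b2 := hbr f hf (Pi.single l 1) (Pi.single k Complex.I) x
  have b3 := hbr f hf (Pi.single l Complex.I) (Pi.single k 1) x
  have b4 := hbr f hf (Pi.single l Complex.I) (Pi.single k Complex.I) x
  set B := br (Pi.single l 1) (Pi.single k 1) with hB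
  have c2 : br (Pi.single l 1) (Pi.single k Complex.I) = Complex.I • B := by
    rw [CA4_single k, map_smul]
  have c3 : br (Pi.single l Complex.I) (Pi.single k 1) = Complex.I • B := by
    rw [CA4_single l, map_smul, LinearMap.smul_apply]
  have c4 : br (Pi.single l Complex.I) (Pi.single k Complex.I) = -B := by
    rw [CA4_single l, CA4_single k, map_smul, map_smul, LinearMap.smul_apply, smul_smul,
      Complex.I_mul_I, neg_smul, one_smul]
  rw [c2] at b2
  rw [c3] at b3
  rw [c4, map_neg] at b4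
  have hI := Complex.I_mul_I
  have key : C.D f x B + Complex.I * C.D f x (Complex.I • B) =
      2 * ∑ m, (starRingEnd ℂ) (B m) * C.Xb m f x := by
    rw [C.D_eq f x B, C.D_eq f x (Complex.I • B), Finset.mul_sum, Finset.mul_sum,
      ← Finset.sum_add_distrib]
    apply Finset.sum_congr rfl
    intro m _
    simp only [Pi.smul_apply, smul_eq_mul, map_mul, Complex.conj_I]
    linear_combination (B m * C.X m f x - (starRingEnd ℂ) (B m) * C.Xb m f x) * hI
  linear_combination (1 / 4 : ℂ) * b1 + (Complex.I / 4) * b2 + (Complex.I / 4) * b3 -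
    (1 / 4 : ℂ) * b4 + (1 / 2 : ℂ) * key +
    (1 / 4 : ℂ) * (C.D (fun y => C.D f y (Pi.single k Complex.I)) x (Pi.single l Complex.I) -
      C.D (fun y => C.D f y (Pi.single l Complex.I)) x (Pi.single k Complex.I)) * hI

end CLG

end HR
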