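import Pool.Agent.W_06f097_h43.Defs2
import Pool.Agent.W_06f097_h43.CA4
import Pool.Agent.W_06f097_h43.CA6

/-! MP_06f097_an blueprint, block ME: elementary properties of the left convolution `Mol`. -/

open scoped Topology ContDiff Pointwise
open MeasureTheory Set Filter Metric

set_option linter.unusedSectionVars false

noncomputable section

namespace HR

namespace CLG

variable {n : ℕ} {G : Type*} [Group G] [TopologicalSpace G] [IsTopologicalGroup G] [T2Space G]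
  [LocallyCompactSpace G] [SecondCountableTopology G] [MeasurableSpace G] [BorelSpace G]
  (C : CLG n G) (μ : Measure G) [μ.IsHaarMeasure]

/-- support -/
theorem mol_support {ρ : G → ℝ} {u : G → ℂ} {K L : Set G} (hK : ∀ x, x ∉ K → ρ x = 0)
    (hL : ∀ x, x ∉ L → u x = 0) : ∀ x, x ∉ K * L → Mol μ ρ u x = 0 := by
  intro x hx
  have h : ∀ y, (ρ y : ℂ) * u (y⁻¹ * x) = 0 := by
    intro y
    by_cases hy : y ∈ K
    · have h2 : y⁻¹ * x ∉ L := by
        intro h3
        exact hx ⟨y, hy, y⁻¹ * x, h3, by simp⟩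
      rw [hL _ h2, mul_zero]
    · rw [hK y hy]
      simp
  simp [Mol, h]

/-- a measure theoretic form of the compatibility of the inverse with Haar measure -/
theorem ME4_inv {K : Set G} (hK : IsCompact K) : ∃ c : ENNReal, c ≠ ⊤ ∧
    ∀ f : G → ENNReal, AEMeasurable f μ → ∫⁻ x in K, f x⁻¹ ∂μ ≤ c * ∫⁻ x, f x ∂μ := by
  obtain ⟨V, hVc, hV⟩ : ∃ V : Set G, IsCompact V ∧ V ∈ 𝓝 (1 : G) := by
    obtain ⟨V, h1, h2⟩ := exists_compact_mem_nhds (1 : G)
    exact ⟨V, h1, h2⟩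
  have hs : IsCompact (V * K) := hVc.mul hK
  have hV0 : μ V ≠ 0 := (Measure.measure_pos_of_mem_nhds μ hV).ne'
  have hV1 : μ V ≠ ⊤ := hVc.measure_lt_top.ne
  refine ⟨(μ V)⁻¹ * μ (V * K), ENNReal.mul_ne_top (ENNReal.inv_ne_top.2 hV0)
    hs.measure_lt_top.ne, ?_⟩
  have main : ∀ f : G → ENNReal, Measurable f →
      ∫⁻ x in K, f x⁻¹ ∂μ ≤ (μ V)⁻¹ * μ (V * K) * ∫⁻ x, f x ∂μ := by
    intro f hf
    have h1 := measure_mul_lintegral_eq μ μ hs.measurableSet f hf
    have h2 : μ V * ∫⁻ x in K, f x⁻¹ ∂μ ≤ μ (V * K) * ∫⁻ x, f x ∂μ := by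
      rw [h1, ← lintegral_const_mul' _ _ hV1, ← lintegral_indicator hK.measurableSet]
      apply lintegral_mono
      intro x
      by_cases hx : x ∈ K
      · simp only [indicator_of_mem hx]
        gcongr
        intro z hz
        exact ⟨z, hz, x, hx, rfl⟩
      · simp [indicator_of_notMem hx]
    calc ∫⁻ x in K, f x⁻¹ ∂μ = (μ V)⁻¹ * (μ V * ∫⁻ x in K, f x⁻¹ ∂μ) := by
          rw [← mul_assoc, ENNReal.inv_mul_cancel hV0 hV1, one_mul]
      _ ≤ (μ V)⁻¹ * (μ (V * K) * ∫⁻ x, f x ∂μ) := by gcongr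
      _ = _ := by rw [mul_assoc]
  intro f hf
  obtain ⟨g, hg, hfg⟩ := hf
  have h1 : (fun x => f x⁻¹) =ᵐ[μ] fun x => g x⁻¹ :=
    (quasiMeasurePreserving_inv μ).ae_eq_comp hfg
  rw [lintegral_congr_ae (ae_restrict_of_ae h1), lintegral_congr_ae hfg]
  exact main g hg

theorem ME4_inv' {K : Set G} (hK : IsCompact K) : ∃ c : ENNReal, c ≠ ⊤ ∧
    ∀ f : G → ENNReal, AEMeasurable f μ → ∫⁻ x in K, f x⁻¹ ∂μ ≤ c * ∫⁻ x in K⁻¹, f x ∂μ := by
  obtain ⟨c, hc, h⟩ := ME4_inv μ hK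
  refine ⟨c, hc, fun f hf => ?_⟩
  have hK' : MeasurableSet (K⁻¹) := hK.inv.measurableSet
  have h1 := h (K⁻¹.indicator f) (hf.indicator hK')
  rw [lintegral_indicator hK'] at h1
  refine le_trans (le_of_eq ?_) h1
  apply setLIntegral_congr_fun hK.measurableSet
  intro x hx
  have : x⁻¹ ∈ K⁻¹ := by simpa using hx
  simp only [indicator_of_mem this]

/-- integrability of the integrand of `Mol` -/
theorem ME4_integrable {ρ : G → ℝ} (hρ : Continuous ρ) (hc : HasCompactSupport ρ) {u : G → ℂ}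
    (hu : LocallyIntegrable u μ) (x : G) :
    Integrable (fun y => (ρ y : ℂ) * u (y⁻¹ * x)) μ := by
  have key : ∀ ρ : G → ℝ, Continuous ρ → HasCompactSupport ρ →
      Integrable (fun y => (ρ y : ℂ) * u y⁻¹) μ := by
    intro ρ hρ hc
    have hm : AEStronglyMeasurable u μ := hu.aestronglyMeasurable
    have hm' : AEStronglyMeasurable (fun y => u y⁻¹) μ :=
      hm.comp_quasiMeasurePreserving (quasiMeasurePreserving_inv μ)
    have hρm : AEStronglyMeasurable (fun y => (ρ y : ℂ)) μ :=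
      (Complex.continuous_ofReal.comp hρ).aestronglyMeasurable
    have hsupp : Function.support (fun y => (ρ y : ℂ) * u y⁻¹) ⊆ tsupport ρ := by
      intro y hy
      apply subset_tsupport
      intro h0
      apply hy
      simp [h0]
    rw [← integrableOn_iff_integrable_of_support_subset hsupp]
    obtain ⟨M, hM⟩ := hρ.bounded_above_of_compact_support hc
    have h1 : IntegrableOn (fun y => u y⁻¹) (tsupport ρ) μ := by
      refine ⟨hm'.restrict, ?_⟩
      obtain ⟨c, hc1, hc2⟩ := ME4_inv' μ hc.isCompact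
      have h2 := hc2 (fun y => ‖u y‖ₑ) hm.enorm
      refine lt_of_le_of_lt h2 ?_
      have h3 : IntegrableOn u (tsupport ρ)⁻¹ μ := hu.integrableOn_isCompact hc.isCompact.inv
      exact ENNReal.mul_lt_top (lt_top_iff_ne_top.2 hc1) h3.2
    refine Integrable.bdd_mul (c := M) h1 hρm.restrict ?_
    filter_upwards with y
    rw [Complex.norm_real]
    exact hM y
  have h1 := key (fun y => ρ (x * y)) (hρ.comp (continuous_const_mul x))
    (hc.comp_homeomorph (Homeomorph.mulLeft x))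
  have h2 := h1.comp_mul_left x⁻¹
  refine h2.congr (Eventually.of_forall fun y => ?_)
  simp only [mul_inv_cancel_left, mul_inv_rev, inv_inv]

/-- linearity in `u` -/
theorem mol_sub {ρ : G → ℝ} (hρ : Continuous ρ) (hc : HasCompactSupport ρ) {u v : G → ℂ}
    (hu : LocallyIntegrable u μ) (hv : LocallyIntegrable v μ) (x : G) :
    Mol μ ρ (fun y => u y - v y) x = Mol μ ρ u x - Mol μ ρ v x := by
  unfold Mol
  rw [← integral_sub (ME4_integrable μ hρ hc hu x) (ME4_integrable μ hρ hc hv x)]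
  congr 1
  funext y
  ring

/-- the local estimate: for `u` smooth and `w₀`, near `w₀` the functions `co u w` are
differentiable on a fixed ball with uniformly bounded derivatives -/
theorem ME4_local {u : G → ℂ} (hu : C.Sm u) (w₀ : G) : ∃ δ : ℝ, 0 < δ ∧ ∃ M : ℝ,
    ∀ᶠ w in 𝓝 w₀, ∀ z ∈ ball (0 : En n) δ, DifferentiableAt ℝ (C.co u w) z ∧
      ‖fderiv ℝ (C.co u w) z‖ ≤ M := by
  have h0 : ContDiffAt ℝ ∞ (C.co u w₀) (C.CA4_mu ((0 : En n), (0 : En n))) := by
    rw [C.CA4_mu_left C.CA4_zero_mem]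
    exact hu w₀
  have h1 : ContDiffAt ℝ ∞ C.CA4_mu ((0 : En n), (0 : En n)) :=
    (C.CA4_mu_at (p := ((0 : En n), (0 : En n))) ⟨C.CA4_zero_mem, C.CA4_zero_mem⟩).restrict_scalars ℝ
  set Φ : En n × En n → ℂ := fun p => C.co u w₀ (C.CA4_mu p) with hΦ
  have h2 : ContDiffAt ℝ ∞ Φ ((0 : En n), (0 : En n)) := h0.comp _ h1
  have h2' : ∀ᶠ p in 𝓝 ((0 : En n), (0 : En n)), ContDiffAt ℝ 1 Φ p :=
    (h2.of_le (by exact_mod_cast le_top)).eventually (by simp)
  have h3 : ContinuousAt (fderiv ℝ Φ) ((0 : En n), (0 : En n)) :=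
    (h2.fderiv_right (m := 0) (by simp)).continuousAt
  set M := ‖fderiv ℝ Φ ((0 : En n), (0 : En n))‖ + 1 with hM
  have h4 : ∀ᶠ p in 𝓝 ((0 : En n), (0 : En n)), ‖fderiv ℝ Φ p‖ < M :=
    h3.norm.eventually_lt continuousAt_const (by simp [hM])
  have h5 : ∀ᶠ p : En n × En n in 𝓝 ((0 : En n), (0 : En n)),
      p ∈ ball (0 : En n) C.r ×ˢ ball (0 : En n) C.r :=
    C.CA4_open.mem_nhds ⟨C.CA4_zero_mem, C.CA4_zero_mem⟩
  have h6 := h2'.and (h4.and h5)
  rw [nhds_prod_eq] at h6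
  obtain ⟨pa, hpa, pb, hpb, hab⟩ := Filter.eventually_prod_iff.1 h6
  obtain ⟨δ, hδ, hδ'⟩ := Metric.eventually_nhds_iff_ball.1 hpb
  refine ⟨δ, hδ, M, ?_⟩
  rw [← C.map_nhds w₀, Filter.eventually_map]
  filter_upwards [hpa] with a ha z hz
  obtain ⟨q1, q2, q3⟩ := hab ha (hδ' z hz)
  have q4 : C.co u (w₀ * C.ψ a) =ᶠ[𝓝 z] fun w => Φ (a, w) := by
    filter_upwards [isOpen_ball.mem_nhds hz] with w hw
    obtain ⟨_, _, r3⟩ := hab ha (hδ' w hw)
    simp only [hΦ, co, CA4_mu]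
    rw [C.ψ.right_inv (C.mul_mem a r3.1 w r3.2), mul_assoc]
  have q5 : HasFDerivAt (fun w : En n => ((a, w) : En n × En n))
      (ContinuousLinearMap.inr ℝ (En n) (En n)) z := by
    simpa [ContinuousLinearMap.inr] using
      (hasFDerivAt_prodMk_right (𝕜 := ℝ) a z)
  have q6 : HasFDerivAt Φ (fderiv ℝ Φ (a, z)) (a, z) :=
    (q1.differentiableAt (by simp)).hasFDerivAt
  have q7 := (q6.comp z q5).congr_of_eventuallyEq q4
  refine ⟨q7.differentiableAt, ?_⟩
  rw [q7.fderiv]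
  calc ‖(fderiv ℝ Φ (a, z)).comp (ContinuousLinearMap.inr ℝ (En n) (En n))‖
      ≤ ‖fderiv ℝ Φ (a, z)‖ * ‖ContinuousLinearMap.inr ℝ (En n) (En n)‖ :=
        ContinuousLinearMap.opNorm_comp_le _ _
    _ ≤ ‖fderiv ℝ Φ (a, z)‖ * 1 := by
        gcongr
        apply ContinuousLinearMap.opNorm_le_bound _ zero_le_one
        intro w
        simp [Prod.norm_def]
    _ ≤ M := by rw [mul_one]; exact q2.le

theorem ME4_local' {u : G → ℂ} (hu : C.Sm u) {L : Set G} (hL : IsCompact L) :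
    ∃ δ : ℝ, 0 < δ ∧ ∃ M : ℝ, ∀ w ∈ L, ∀ z ∈ ball (0 : En n) δ,
      DifferentiableAt ℝ (C.co u w) z ∧ ‖fderiv ℝ (C.co u w) z‖ ≤ M := by
  refine hL.induction_on (p := fun S => ∃ δ : ℝ, 0 < δ ∧ ∃ M : ℝ, ∀ w ∈ S,
    ∀ z ∈ ball (0 : En n) δ, DifferentiableAt ℝ (C.co u w) z ∧ ‖fderiv ℝ (C.co u w) z‖ ≤ M)
    ⟨1, one_pos, 0, by simp⟩ ?_ ?_ ?_
  · rintro S T hST ⟨δ, h1, M, h2⟩
    exact ⟨δ, h1, M, fun w hw => h2 w (hST hw)⟩
  · rintro S T ⟨δ, h1, M, h2⟩ ⟨δ', h1', M', h2'⟩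
    refine ⟨min δ δ', lt_min h1 h1', max M M', fun w hw z hz => ?_⟩
    rcases hw with hw | hw
    · obtain ⟨a, b⟩ := h2 w hw z (ball_subset_ball (min_le_left _ _) hz)
      exact ⟨a, b.trans (le_max_left _ _)⟩
    · obtain ⟨a, b⟩ := h2' w hw z (ball_subset_ball (min_le_right _ _) hz)
      exact ⟨a, b.trans (le_max_right _ _)⟩
  · intro w₀ _
    obtain ⟨δ, h1, M, h2⟩ := C.ME4_local hu w₀
    exact ⟨_, mem_nhdsWithin_of_mem_nhds h2, δ, h1, M, fun w hw => hw⟩

/-- left invariant derivatives commute with left convolution (differentiation under the integral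
sign for smooth `u`; `ρ` continuous with compact support) -/
theorem mol_D {ρ : G → ℝ} (hρ : Continuous ρ) (hc : HasCompactSupport ρ) {u : G → ℂ}
    (hu : C.Sm u) (v : En n) (x : G) :
    C.D (Mol μ ρ u) x v = Mol μ ρ (fun y => C.D u y v) x := by
  have hL : IsCompact ((fun y => y⁻¹ * x) '' tsupport ρ) :=
    hc.isCompact.image (by fun_prop)
  obtain ⟨δ, hδ, M, hM⟩ := C.ME4_local' hu hL
  have huc : Continuous u := C.sm_continuous hu
  have hDc : Continuous (fun y => C.D u y) := by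
    rw [continuous_clm_apply]
    intro w
    exact C.sm_continuous (C.sm_D hu w)
  have hρc : Continuous (fun y => (ρ y : ℂ)) := Complex.continuous_ofReal.comp hρ
  have hbd : Integrable (fun y => |ρ y| * M) μ :=
    (hρ.integrable_of_hasCompactSupport hc).abs.mul_const M
  have hFx : Continuous (fun y => (ρ y : ℂ) • C.D u (y⁻¹ * x)) :=
    hρc.smul (hDc.comp (by fun_prop))
  have hzero : ∀ y, y ∉ tsupport ρ → ρ y = 0 := fun y hy => image_eq_zero_of_notMem_tsupport hy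
  have key : HasFDerivAt (fun z => ∫ y, (ρ y : ℂ) * C.co u (y⁻¹ * x) z ∂μ)
      (∫ y, (ρ y : ℂ) • C.D u (y⁻¹ * x) ∂μ) (0 : En n) := by
    refine hasFDerivAt_integral_of_dominated_of_fderiv_le (𝕜 := ℝ)
      (F' := fun z y => (ρ y : ℂ) • fderiv ℝ (C.co u (y⁻¹ * x)) z)
      (bound := fun y => |ρ y| * M) (ball_mem_nhds (0 : En n) hδ) ?_ ?_ ?_ ?_ hbd ?_
    · filter_upwards with z
      have : Continuous (fun y => (ρ y : ℂ) * C.co u (y⁻¹ * x) z) := by
        unfold co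
        exact hρc.mul (huc.comp (by fun_prop))
      exact this.aestronglyMeasurable
    · have h1 := ME4_integrable μ hρ hc (huc.locallyIntegrable (μ := μ)) x
      refine h1.congr (Eventually.of_forall fun y => ?_)
      simp [co, C.map_zero]
    · exact hFx.aestronglyMeasurable
    · filter_upwards with y z hz
      by_cases hy : y ∈ tsupport ρ
      · obtain ⟨a, b⟩ := hM (y⁻¹ * x) ⟨y, hy, rfl⟩ z hz
        rw [norm_smul, Complex.norm_real, Real.norm_eq_abs]
        gcongr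
      · simp [hzero y hy]
    · filter_upwards with y z hz
      by_cases hy : y ∈ tsupport ρ
      · obtain ⟨a, b⟩ := hM (y⁻¹ * x) ⟨y, hy, rfl⟩ z hz
        exact a.hasFDerivAt.const_mul (ρ y : ℂ)
      · have e : (ρ y : ℂ) = 0 := by rw [hzero y hy]; simp
        simp only [e, zero_mul]
        rw [zero_smul ℂ (fderiv ℝ (C.co u (y⁻¹ * x)) z)]
        exact hasFDerivAt_const (𝕜 := ℝ) (0 : ℂ) z
  have e1 : C.co (Mol μ ρ u) x = fun z => ∫ y, (ρ y : ℂ) * C.co u (y⁻¹ * x) z ∂μ := by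
    funext z
    simp only [co, Mol]
    congr 1
    funext y
    rw [mul_assoc]
  have hint : Integrable (fun y => (ρ y : ℂ) • C.D u (y⁻¹ * x)) μ := by
    apply hFx.integrable_of_hasCompactSupport
    refine hc.mono' ?_
    intro y hy
    by_contra h
    exact hy (by simp [hzero y h])
  unfold D
  rw [e1, key.fderiv, ContinuousLinearMap.integral_apply hint]
  rfl

/-- transposition: `∫ (ρ * u) τ = ∫ u(x) (∫ ρ(y) τ(y x) dμ(y)) dμ(x)` -/
theorem mol_transpose {ρ : G → ℝ} (hρ : Continuous ρ) (hc : HasCompactSupport ρ) {u τ : G → ℂ}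
    (hu : LocallyIntegrable u μ) (hτ : Continuous τ) (hτc : HasCompactSupport τ) :
    ∫ x, Mol μ ρ u x * τ x ∂μ = ∫ x, u x * (∫ y, (ρ y : ℂ) * τ (y * x) ∂μ) ∂μ := by
  set H : G × G → ℂ := fun p => (ρ p.1 : ℂ) * u p.2 * τ (p.1 * p.2) with hHdef
  set F : G × G → ℂ := fun p => (ρ p.1 : ℂ) * u (p.1⁻¹ * p.2) * τ p.2 with hFdef
  have hH : Integrable H (μ.prod μ) := by
    have hK : MeasurableSet (tsupport ρ) := hc.isCompact.measurableSet
    have h1 : Integrable ((tsupport ρ).indicator (fun _ => (1 : ℂ))) μ :=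
      (integrableOn_const (hs := hc.isCompact.measure_lt_top.ne)).integrable_indicator hK
    have hL : IsCompact ((tsupport ρ)⁻¹ * tsupport τ) := hc.isCompact.inv.mul hτc.isCompact
    have h2 : Integrable (((tsupport ρ)⁻¹ * tsupport τ).indicator u) μ :=
      (hu.integrableOn_isCompact hL).integrable_indicator hL.measurableSet
    have h3 := h1.mul_prod h2
    obtain ⟨M1, hM1⟩ := hρ.bounded_above_of_compact_support hc
    obtain ⟨M2, hM2⟩ := hτ.bounded_above_of_compact_support hτc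
    have hcont : Continuous (fun p : G × G => (ρ p.1 : ℂ) * τ (p.1 * p.2)) :=
      (Complex.continuous_ofReal.comp (hρ.comp continuous_fst)).mul
        (hτ.comp (continuous_fst.mul continuous_snd))
    have h4 := h3.bdd_mul (c := M1 * M2) hcont.aestronglyMeasurable
      (Eventually.of_forall fun p => by
        rw [norm_mul, Complex.norm_real]
        have := (norm_nonneg _).trans (hM1 p.1)
        exact mul_le_mul (hM1 _) (hM2 _) (norm_nonneg _) this)
    refine h4.congr (Eventually.of_forall fun p => ?_)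
    simp only [hHdef]
    by_cases h5 : p.1 ∈ tsupport ρ
    · by_cases h6 : p.1 * p.2 ∈ tsupport τ
      · have h7 : p.2 ∈ (tsupport ρ)⁻¹ * tsupport τ :=
          ⟨p.1⁻¹, by simpa using h5, p.1 * p.2, h6, by simp⟩
        rw [indicator_of_mem h5, indicator_of_mem h7]
        ring
      · rw [image_eq_zero_of_notMem_tsupport h6]
        simp
    · rw [image_eq_zero_of_notMem_tsupport h5]
      simp
  have hmp := measurePreserving_prod_mul μ μ
  have hemb : MeasurableEmbedding (fun z : G × G => (z.1, z.1 * z.2)) :=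
    (MeasurableEquiv.shearMulRight G).measurableEmbedding
  have hFH : F ∘ (fun z => (z.1, z.1 * z.2)) = H := by
    funext p
    simp [hFdef, hHdef]
  have hF : Integrable F (μ.prod μ) := (hmp.integrable_comp_emb hemb).1 (by rw [hFH]; exact hH)
  have e : ∫ p, H p ∂(μ.prod μ) = ∫ p, F p ∂(μ.prod μ) := by
    rw [← hmp.integral_comp hemb F]
    congr 1
    exact hFH.symm
  rw [integral_prod_symm _ hF, integral_prod_symm _ hH] at e
  calc ∫ x, Mol μ ρ u x * τ x ∂μ = ∫ x, ∫ y, F (y, x) ∂μ ∂μ := by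
        congr 1
        funext x
        rw [Mol, ← integral_mul_const]
    _ = ∫ x, ∫ y, H (y, x) ∂μ ∂μ := e.symm
    _ = _ := by
        congr 1
        funext x
        rw [← integral_const_mul]
        congr 1
        funext y
        simp only [hHdef]
        ring

/-- a sequence of mollifiers: supports shrink to `1`, total mass `1`; all supports in one compact
set. (From `exists_bump`, `1` has a countable neighbourhood basis.) -/
theorem exists_mollifiers : ∃ ρ : ℕ → G → ℝ, (∀ k, C.Sm (ρ k)) ∧ (∀ k x, 0 ≤ ρ k x) ∧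
    (∀ k, ∫ x, ρ k x ∂μ = 1) ∧ (∃ K : Set G, IsCompact K ∧ ∀ k, tsupport (ρ k) ⊆ K) ∧
    ∀ U ∈ 𝓝 (1 : G), ∀ᶠ k in atTop, tsupport (ρ k) ⊆ U := by
  obtain ⟨K, hKc, hK⟩ := exists_compact_mem_nhds (1 : G)
  obtain ⟨U, hU⟩ := (𝓝 (1 : G)).exists_antitone_basis
  have h1 : ∀ k, ∃ b : G → ℝ, C.Sm b ∧ HasCompactSupport b ∧ tsupport b ⊆ U k ∩ K ∧
      (∀ x, 0 ≤ b x) ∧ 0 < b 1 := fun k =>
    C.exists_bump (inter_mem (hU.1.mem_of_mem trivial) hK)
  choose b hb1 hb2 hb3 hb4 hb5 using h1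
  have hI : ∀ k, 0 < ∫ x, b k x ∂μ := fun k =>
    (C.sm_continuous (hb1 k)).integral_pos_of_hasCompactSupport_nonneg_nonzero (hb2 k)
      (fun x => hb4 k x) (hb5 k).ne'
  have hsup : ∀ k, tsupport (fun x => (∫ x, b k x ∂μ)⁻¹ * b k x) ⊆ tsupport (b k) := fun k =>
    closure_mono (Function.support_mul_subset_right _ _)
  refine ⟨fun k x => (∫ x, b k x ∂μ)⁻¹ * b k x, ?_, ?_, ?_, ⟨K, hKc, ?_⟩, ?_⟩
  · intro k
    exact C.sm_comp (g := fun t : ℝ => (∫ x, b k x ∂μ)⁻¹ * t) (hb1 k)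
      (fun x => contDiffAt_const.mul contDiffAt_id)
  · intro k x
    exact mul_nonneg (inv_nonneg.2 (hI k).le) (hb4 k x)
  · intro k
    rw [integral_const_mul, inv_mul_cancel₀ (hI k).ne']
  · intro k
    exact (hsup k).trans ((hb3 k).trans inter_subset_right)
  · intro V hV
    obtain ⟨N, hN⟩ := hU.mem_iff.1 hV
    filter_upwards [eventually_ge_atTop N] with k hk
    exact (hsup k).trans ((hb3 k).trans (inter_subset_left.trans ((hU.2 hk).trans hN)))

theorem ME4_cs {I w m : ℝ} (h : ∀ t : ℝ, 0 ≤ I * (t * t) + (-2 * m) * t + w) :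
    m ^ 2 ≤ I * w := by
  have := discrim_le_zero h
  unfold discrim at this
  nlinarith

theorem ME4_aesm {ρ : G → ℝ} (hρ : Continuous ρ)
    {u : G → ℂ} (hm : AEStronglyMeasurable u μ) : AEStronglyMeasurable (Mol μ ρ u) μ := by
  have hmp := measurePreserving_prod_inv_mul μ μ
  have hρm : AEStronglyMeasurable (fun y => (ρ y : ℂ)) μ :=
    (Complex.continuous_ofReal.comp hρ).aestronglyMeasurable
  have hF0 : AEStronglyMeasurable (fun p : G × G => (ρ p.1 : ℂ) * u p.2) (μ.prod μ) :=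
    (hρm.comp_fst).mul (hm.comp_snd)
  have hF : AEStronglyMeasurable (fun p : G × G => (ρ p.1 : ℂ) * u (p.1⁻¹ * p.2)) (μ.prod μ) :=
    hF0.comp_measurePreserving hmp
  exact hF.prod_swap.integral_prod_right'

/-- `L²` bound: `|Mol ρ u|² ≤ (∫ ρ) ∫ ρ(y) |u(y⁻¹x)|² dμ(y)` and left invariance -/
theorem mol_L2 {ρ : G → ℝ} (hρ : Continuous ρ) (hc : HasCompactSupport ρ) (h0 : ∀ x, 0 ≤ ρ x)
    {u : G → ℂ} (hm : AEStronglyMeasurable u μ) (hu : Integrable (fun x => ‖u x‖ ^ 2) μ) :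
    Integrable (fun x => ‖Mol μ ρ u x‖ ^ 2) μ ∧
      ∫ x, ‖Mol μ ρ u x‖ ^ 2 ∂μ ≤ (∫ x, ρ x ∂μ) ^ 2 * ∫ x, ‖u x‖ ^ 2 ∂μ := by
  have hρi : Integrable ρ μ := hρ.integrable_of_hasCompactSupport hc
  set I := ∫ x, ρ x ∂μ with hIdef
  have hI : 0 ≤ I := integral_nonneg h0
  have hmp := measurePreserving_prod_inv_mul μ μ
  have hemb : MeasurableEmbedding (fun z : G × G => (z.1, z.1⁻¹ * z.2)) :=
    (MeasurableEquiv.shearMulRight G).symm.measurableEmbedding
  have hG0 : Integrable (fun p : G × G => ρ p.1 * ‖u p.2‖ ^ 2) (μ.prod μ) := hρi.mul_prod hu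
  have hG : Integrable (fun p : G × G => ρ p.1 * ‖u (p.1⁻¹ * p.2)‖ ^ 2) (μ.prod μ) :=
    (hmp.integrable_comp_emb hemb).2 hG0
  have hGe : ∫ p, ρ p.1 * ‖u (p.1⁻¹ * p.2)‖ ^ 2 ∂(μ.prod μ) = I * ∫ x, ‖u x‖ ^ 2 ∂μ := by
    have := hmp.integral_comp hemb (fun p : G × G => ρ p.1 * ‖u p.2‖ ^ 2)
    rw [this, ← integral_prod_mul]
  have hMm : AEStronglyMeasurable (Mol μ ρ u) μ := ME4_aesm μ hρ hm
  set w : G → ℝ := fun x => ∫ y, ρ y * ‖u (y⁻¹ * x)‖ ^ 2 ∂μ with hwdef
  have hw : Integrable w μ := hG.integral_prod_right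
  have hwe : ∫ x, w x ∂μ = I * ∫ x, ‖u x‖ ^ 2 ∂μ := by
    rw [← hGe, integral_prod_symm _ hG]
  have hae : ∀ᵐ x ∂μ, ‖Mol μ ρ u x‖ ^ 2 ≤ I * w x := by
    filter_upwards [hG.prod_left_ae] with x h1
    have hux : AEStronglyMeasurable (fun y => u (y⁻¹ * x)) μ :=
      (hm.comp_quasiMeasurePreserving (quasiMeasurePreserving_mul_right μ x)).comp_quasiMeasurePreserving
        (quasiMeasurePreserving_inv μ)
    have h2 : Integrable (fun y => ρ y * ‖u (y⁻¹ * x)‖) μ := by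
      refine (hρi.add h1).mono' (hρ.aestronglyMeasurable.mul hux.norm)
        (Eventually.of_forall fun y => ?_)
      rw [Real.norm_eq_abs, abs_of_nonneg (mul_nonneg (h0 y) (norm_nonneg _))]
      simp only [Pi.add_apply]
      nlinarith [h0 y, sq_nonneg (‖u (y⁻¹ * x)‖ - 1), norm_nonneg (u (y⁻¹ * x)),
        mul_nonneg (h0 y) (sq_nonneg (‖u (y⁻¹ * x)‖ - 1)),
        mul_nonneg (h0 y) (sq_nonneg (‖u (y⁻¹ * x)‖))]
    set m := ∫ y, ρ y * ‖u (y⁻¹ * x)‖ ∂μ with hmdef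
    have h3 : ‖Mol μ ρ u x‖ ≤ m := by
      refine (norm_integral_le_integral_norm _).trans (le_of_eq ?_)
      congr 1
      funext y
      rw [norm_mul, Complex.norm_real, Real.norm_eq_abs, abs_of_nonneg (h0 y)]
    have h4 : m ^ 2 ≤ I * w x := by
      apply ME4_cs
      intro t
      have h5 : 0 ≤ ∫ y, ρ y * (‖u (y⁻¹ * x)‖ - t) ^ 2 ∂μ :=
        integral_nonneg fun y => mul_nonneg (h0 y) (sq_nonneg _)
      have h6 : ∫ y, ρ y * (‖u (y⁻¹ * x)‖ - t) ^ 2 ∂μ = I * (t * t) + (-2 * m) * t + w x := by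
        have e1 : (fun y => ρ y * (‖u (y⁻¹ * x)‖ - t) ^ 2) = fun y =>
            (ρ y * (t * t) + ρ y * ‖u (y⁻¹ * x)‖ * (-2 * t)) + ρ y * ‖u (y⁻¹ * x)‖ ^ 2 := by
          funext y
          ring
        have hA : Integrable (fun y => ρ y * (t * t) + ρ y * ‖u (y⁻¹ * x)‖ * (-2 * t)) μ :=
          (hρi.mul_const _).add (h2.mul_const _)
        rw [e1, integral_add hA h1,
          integral_add (hρi.mul_const _) (h2.mul_const _), integral_mul_const, integral_mul_const]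
        simp only [hwdef, ← hmdef, ← hIdef]
        ring
      rw [← h6]
      exact h5
    calc ‖Mol μ ρ u x‖ ^ 2 ≤ m ^ 2 := by gcongr
      _ ≤ _ := h4
  have hint : Integrable (fun x => ‖Mol μ ρ u x‖ ^ 2) μ := by
    refine (hw.const_mul I).mono' (hMm.norm.pow 2) ?_
    filter_upwards [hae] with x hx
    rw [Real.norm_eq_abs, abs_of_nonneg (by positivity)]
    exact hx
  refine ⟨hint, ?_⟩
  calc ∫ x, ‖Mol μ ρ u x‖ ^ 2 ∂μ ≤ ∫ x, I * w x ∂μ :=
        integral_mono_ae hint (hw.const_mul I) hae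
    _ = I ^ 2 * ∫ x, ‖u x‖ ^ 2 ∂μ := by
        rw [integral_const_mul, hwe]
        ring

theorem ME4_unif {g : G → ℂ} (hg : Continuous g) {L : Set G} (hL : IsCompact L) {η : ℝ}
    (hη : 0 < η) : ∀ᶠ y in 𝓝 (1 : G), ∀ x ∈ L, ‖g (y⁻¹ * x) - g x‖ < η := by
  apply hL.eventually_forall_of_forall_eventually
  intro x _
  have h1 : Continuous (fun z : G × G => ‖g (z.1⁻¹ * z.2) - g z.2‖) := by fun_prop
  have h2 := h1.tendsto ((1 : G), x)
  simp only [inv_one, one_mul, sub_self, norm_zero] at h2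
  exact h2.eventually (gt_mem_nhds hη)

theorem ME4_cont {ρ : ℕ → G → ℝ} (h1 : ∀ k, Continuous (ρ k)) (h2 : ∀ k x, 0 ≤ ρ k x)
    (h3 : ∀ k, ∫ x, ρ k x ∂μ = 1) {K : Set G} (hK : IsCompact K) (h4 : ∀ k, tsupport (ρ k) ⊆ K)
    (h5 : ∀ U ∈ 𝓝 (1 : G), ∀ᶠ k in atTop, tsupport (ρ k) ⊆ U)
    {g : G → ℂ} (hg : Continuous g) (hgc : HasCompactSupport g) {ε : ℝ} (hε : 0 < ε) :
    ∀ᶠ k in atTop, Integrable (fun x => ‖Mol μ (ρ k) g x - g x‖ ^ 2) μ ∧
      ∫ x, ‖Mol μ (ρ k) g x - g x‖ ^ 2 ∂μ ≤ ε := by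
  have hρc : ∀ k, HasCompactSupport (ρ k) := fun k =>
    hK.of_isClosed_subset (isClosed_tsupport _) (h4 k)
  set L : Set G := K * tsupport g ∪ tsupport g with hLdef
  have hL : IsCompact L := (hK.mul hgc.isCompact).union hgc.isCompact
  set V : ℝ := (μ L).toReal + 1 with hVdef
  have hV : 0 < V := by positivity
  set η : ℝ := Real.sqrt (ε / V) with hηdef
  have hη : 0 < η := Real.sqrt_pos.2 (by positivity)
  have hη2 : η ^ 2 = ε / V := Real.sq_sqrt (by positivity)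
  filter_upwards [h5 _ (ME4_unif hg hL hη)] with k hk
  have hzero : ∀ x, x ∉ L → Mol μ (ρ k) g x - g x = 0 := by
    intro x hx
    have e1 : Mol μ (ρ k) g x = 0 :=
      mol_support μ (K := K) (L := tsupport g)
        (fun y hy => image_eq_zero_of_notMem_tsupport (fun h => hy (h4 k h)))
        (fun y hy => image_eq_zero_of_notMem_tsupport hy) x (fun h => hx (Or.inl h))
    rw [e1, image_eq_zero_of_notMem_tsupport (fun h => hx (Or.inr h)), sub_zero]
  have hbd : ∀ x, ‖Mol μ (ρ k) g x - g x‖ ≤ η := by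
    intro x
    by_cases hx : x ∈ L
    · have e1 : Mol μ (ρ k) g x - g x = ∫ y, (ρ k y : ℂ) * (g (y⁻¹ * x) - g x) ∂μ := by
        have e2 : g x = ∫ y, (ρ k y : ℂ) * g x ∂μ := by
          rw [integral_mul_const, integral_complex_ofReal, h3 k]
          simp
        have e3 : Integrable (fun y => (ρ k y : ℂ) * g x) μ :=
          (((h1 k).integrable_of_hasCompactSupport (hρc k)).ofReal).mul_const _
        conv_lhs => rw [e2]
        rw [Mol, ← integral_sub (ME4_integrable μ (h1 k) (hρc k)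
          (hg.locallyIntegrable (μ := μ)) x) e3]
        congr 1
        funext y
        ring
      rw [e1]
      calc ‖∫ y, (ρ k y : ℂ) * (g (y⁻¹ * x) - g x) ∂μ‖ ≤ ∫ y, ρ k y * η ∂μ := by
            apply norm_integral_le_of_norm_le
            · exact ((h1 k).integrable_of_hasCompactSupport (hρc k)).mul_const _
            · filter_upwards with y
              rw [norm_mul, Complex.norm_real, Real.norm_eq_abs, abs_of_nonneg (h2 k y)]
              by_cases hy : y ∈ tsupport (ρ k)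
              · exact mul_le_mul_of_nonneg_left (hk hy x hx).le (h2 k y)
              · rw [image_eq_zero_of_notMem_tsupport hy]
                simp
        _ = η := by rw [integral_mul_const, h3 k, one_mul]
    · rw [hzero x hx]
      simpa using hη.le
  have hind : Integrable (L.indicator (fun _ => η ^ 2)) μ :=
    (integrableOn_const (hs := hL.measure_lt_top.ne)).integrable_indicator hL.measurableSet
  have hbd2 : ∀ x, ‖Mol μ (ρ k) g x - g x‖ ^ 2 ≤ L.indicator (fun _ => η ^ 2) x := by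
    intro x
    by_cases hx : x ∈ L
    · rw [indicator_of_mem hx]
      have := hbd x
      gcongr
    · rw [hzero x hx, indicator_of_notMem hx]
      simp
  have hmeas : AEStronglyMeasurable (fun x => ‖Mol μ (ρ k) g x - g x‖ ^ 2) μ :=
    (((ME4_aesm μ (h1 k) hg.aestronglyMeasurable).sub hg.aestronglyMeasurable).norm.pow 2)
  have hint : Integrable (fun x => ‖Mol μ (ρ k) g x - g x‖ ^ 2) μ :=
    hind.mono' hmeas (Eventually.of_forall fun x => by
      rw [Real.norm_eq_abs, abs_of_nonneg (by positivity)]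
      exact hbd2 x)
  refine ⟨hint, ?_⟩
  calc ∫ x, ‖Mol μ (ρ k) g x - g x‖ ^ 2 ∂μ ≤ ∫ x, L.indicator (fun _ => η ^ 2) x ∂μ :=
        integral_mono hint hind hbd2
    _ = (μ L).toReal * η ^ 2 := by
        rw [integral_indicator hL.measurableSet, setIntegral_const]
        simp [Measure.real]
    _ ≤ V * η ^ 2 := by
        have : (μ L).toReal ≤ V := by simp [hVdef]
        gcongr
    _ = ε := by rw [hη2]; field_simp

/-- `L²` convergence: density of continuous functions with compact support in `L²` and `mol_L2`;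
for a continuous function with compact support uniform convergence on a fixed compact set. -/
theorem mol_tendsto {ρ : ℕ → G → ℝ} (h1 : ∀ k, Continuous (ρ k)) (h2 : ∀ k x, 0 ≤ ρ k x)
    (h3 : ∀ k, ∫ x, ρ k x ∂μ = 1) {K : Set G} (hK : IsCompact K) (h4 : ∀ k, tsupport (ρ k) ⊆ K)
    (h5 : ∀ U ∈ 𝓝 (1 : G), ∀ᶠ k in atTop, tsupport (ρ k) ⊆ U)
    {u : G → ℂ} (hm : AEStronglyMeasurable u μ) (hu : Integrable (fun x => ‖u x‖ ^ 2) μ) :
    Tendsto (fun k => ∫ x, ‖Mol μ (ρ k) u x - u x‖ ^ 2 ∂μ) atTop (𝓝 0) := by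
  have hρc : ∀ k, HasCompactSupport (ρ k) := fun k =>
    hK.of_isClosed_subset (isClosed_tsupport _) (h4 k)
  have hu2 : MemLp u 2 μ := (memLp_two_iff_integrable_sq_norm hm).2 hu
  rw [Metric.tendsto_nhds]
  intro ε hε
  obtain ⟨g, hg1, hg2, hg3, hg4⟩ := MemLp.exists_hasCompactSupport_integral_rpow_sub_le
    (p := 2) (μ := μ) (f := u) (by norm_num) (by simpa using hu2) (ε := ε / 12) (by positivity)
  have hg4' : MemLp g 2 μ := by simpa using hg4
  have hug : MemLp (fun x => u x - g x) 2 μ := hu2.sub hg4'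
  have hugi : Integrable (fun x => ‖u x - g x‖ ^ 2) μ :=
    (memLp_two_iff_integrable_sq_norm hug.1).1 hug
  have hug2 : ∫ x, ‖u x - g x‖ ^ 2 ∂μ ≤ ε / 12 := by
    refine le_trans (le_of_eq ?_) hg2
    congr 1
    funext x
    rw [Real.rpow_two]
  filter_upwards [ME4_cont μ h1 h2 h3 hK h4 h5 hg3 hg1 (ε := ε / 12) (by positivity)] with k hk
  obtain ⟨hk1, hk2⟩ := hk
  obtain ⟨hL1, hL2⟩ := mol_L2 μ (h1 k) (hρc k) (h2 k) hug.1 hugi
  rw [h3 k, one_pow, one_mul] at hL2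
  have hloc : LocallyIntegrable u μ := hu2.locallyIntegrable (by norm_num)
  have hlocg : LocallyIntegrable g μ := hg3.locallyIntegrable
  have hpt : ∀ x, ‖Mol μ (ρ k) u x - u x‖ ^ 2 ≤ 3 * ‖Mol μ (ρ k) (fun y => u y - g y) x‖ ^ 2 +
      3 * ‖Mol μ (ρ k) g x - g x‖ ^ 2 + 3 * ‖u x - g x‖ ^ 2 := by
    intro x
    have e1 : Mol μ (ρ k) u x - u x = Mol μ (ρ k) (fun y => u y - g y) x +
        (Mol μ (ρ k) g x - g x) - (u x - g x) := by
      rw [mol_sub μ (h1 k) (hρc k) hloc hlocg]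
      ring
    have e2 : ‖Mol μ (ρ k) u x - u x‖ ≤ ‖Mol μ (ρ k) (fun y => u y - g y) x‖ +
        ‖Mol μ (ρ k) g x - g x‖ + ‖u x - g x‖ := by
      rw [e1]
      exact (norm_sub_le _ _).trans (by gcongr; exact norm_add_le _ _)
    set A := ‖Mol μ (ρ k) (fun y => u y - g y) x‖
    set B := ‖Mol μ (ρ k) g x - g x‖
    set E := ‖u x - g x‖
    have e3 : ‖Mol μ (ρ k) u x - u x‖ ^ 2 ≤ (A + B + E) ^ 2 := by
      have := norm_nonneg (Mol μ (ρ k) u x - u x)
      gcongr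
    nlinarith [sq_nonneg (A - B), sq_nonneg (B - E), sq_nonneg (A - E)]
  have hbi : Integrable (fun x => 3 * ‖Mol μ (ρ k) (fun y => u y - g y) x‖ ^ 2 +
      3 * ‖Mol μ (ρ k) g x - g x‖ ^ 2) μ := (hL1.const_mul 3).add (hk1.const_mul 3)
  have hbi2 : Integrable (fun x => 3 * ‖Mol μ (ρ k) (fun y => u y - g y) x‖ ^ 2 +
      3 * ‖Mol μ (ρ k) g x - g x‖ ^ 2 + 3 * ‖u x - g x‖ ^ 2) μ := hbi.add (hugi.const_mul 3)
  have hmain : Integrable (fun x => ‖Mol μ (ρ k) u x - u x‖ ^ 2) μ :=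
    hbi2.mono' (((ME4_aesm μ (h1 k) hm).sub hm).norm.pow 2) (Eventually.of_forall fun x => by
      rw [Real.norm_eq_abs, abs_of_nonneg (by positivity)]
      exact hpt x)
  have hfin : ∫ x, ‖Mol μ (ρ k) u x - u x‖ ^ 2 ∂μ ≤ 3 * (ε / 12) + 3 * (ε / 12) + 3 * (ε / 12) := by
    calc ∫ x, ‖Mol μ (ρ k) u x - u x‖ ^ 2 ∂μ ≤ ∫ x, (3 * ‖Mol μ (ρ k) (fun y => u y - g y) x‖ ^ 2 +
          3 * ‖Mol μ (ρ k) g x - g x‖ ^ 2 + 3 * ‖u x - g x‖ ^ 2) ∂μ :=
          integral_mono hmain hbi2 hpt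
      _ = 3 * ∫ x, ‖Mol μ (ρ k) (fun y => u y - g y) x‖ ^ 2 ∂μ +
          3 * ∫ x, ‖Mol μ (ρ k) g x - g x‖ ^ 2 ∂μ + 3 * ∫ x, ‖u x - g x‖ ^ 2 ∂μ := by
          rw [integral_add hbi (hugi.const_mul 3), integral_add (hL1.const_mul 3) (hk1.const_mul 3),
            integral_const_mul, integral_const_mul, integral_const_mul]
      _ ≤ _ := by
          have := hL2.trans hug2
          gcongr
  have hnn : 0 ≤ ∫ x, ‖Mol μ (ρ k) u x - u x‖ ^ 2 ∂μ := integral_nonneg fun x => by positivity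
  rw [Real.dist_eq, sub_zero, abs_of_nonneg hnn]
  linarith

end CLG

end HR
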