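import Pool.Agent.W_06f097_h43.HP1

/-! MP_06f097_an blueprint, block HP: orthonormal sequences. -/

open scoped Topology ContDiff
open MeasureTheory Set Filter Metric

noncomputable section

namespace HR

/-- a sequence which is orthonormal up to zeros and complete, in a separable Hilbert space -/
private theorem HP2_seq (V : Type*) [NormedAddCommGroup V] [InnerProductSpace ℂ V]
    [CompleteSpace V] [TopologicalSpace.SeparableSpace V] : ∃ e : ℕ → V,
      (∀ i j, i ≠ j → inner ℂ (e i) (e j) = 0) ∧ (∀ i, ‖e i‖ ≤ 1) ∧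
      ∀ v, HasSum (fun j => inner ℂ (e j) v • e j) v := by
  classical
  obtain ⟨w, b, -⟩ := exists_hilbertBasis ℂ V
  have hb := b.orthonormal
  have hdist : ∀ i j : w, i ≠ j → 1 ≤ dist (b i) (b j) := by
    intro i j hij
    have h1 : ‖b i - b j‖ ^ 2 = 2 := by
      have h2 := @norm_sub_sq ℂ V _ _ _ (b i) (b j)
      rw [hb.2 hij, hb.1, hb.1] at h2
      rw [h2]
      norm_num
    rw [dist_eq_norm]
    nlinarith [norm_nonneg (b i - b j)]
  have hcount : (univ : Set w).Countable := by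
    refine Set.PairwiseDisjoint.countable_of_isOpen (s := fun i : w => ball (b i) (1 / 2)) ?_
      (fun i _ => isOpen_ball) (fun i _ => ⟨b i, mem_ball_self (by norm_num)⟩)
    intro i _ j _ hij
    refine ball_disjoint_ball ?_
    have := hdist i j hij
    linarith
  have : Countable w := countable_univ_iff.1 hcount
  obtain ⟨f, hf⟩ := exists_injective_nat w
  refine ⟨fun j => if h : ∃ i, f i = j then b h.choose else 0, ?_, ?_, ?_⟩
  · intro i j hij
    by_cases hi : ∃ a, f a = i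
    · by_cases hj : ∃ a, f a = j
      · simp only [dif_pos hi, dif_pos hj]
        refine hb.2 fun h => hij ?_
        rw [← hi.choose_spec, ← hj.choose_spec, h]
      · simp only [dif_neg hj, inner_zero_right]
    · simp only [dif_neg hi, inner_zero_left]
  · intro i
    by_cases hi : ∃ a, f a = i
    · simp only [dif_pos hi]
      exact (hb.1 _).le
    · simp only [dif_neg hi, norm_zero]
      exact zero_le_one
  · intro v
    rw [← hf.hasSum_iff]
    · have h1 : ((fun j => inner ℂ (if h : ∃ i, f i = j then b h.choose else 0) v •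
          (if h : ∃ i, f i = j then b h.choose else 0)) ∘ f) = fun i => b.repr v i • b i := by
        funext i
        have hi : ∃ a, f a = f i := ⟨i, rfl⟩
        have hc : hi.choose = i := hf hi.choose_spec
        simp only [Function.comp_apply, dif_pos hi, hc, b.repr_apply_apply]
      rw [h1]
      exact b.hasSum_repr v
    · intro j hj
      have hj' : ¬ ∃ i, f i = j := fun ⟨i, hi⟩ => hj ⟨i, hi⟩
      simp only [dif_neg hj', smul_zero]

private theorem HP2_norm_sum {V : Type*} [NormedAddCommGroup V] [InnerProductSpace ℂ V]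
    {e : ℕ → V} (h0 : ∀ i j, i ≠ j → inner ℂ (e i) (e j) = 0) (h1 : ∀ i, ‖e i‖ ≤ 1) (J : ℕ)
    (a : ℕ → ℂ) : ‖∑ j ∈ Finset.range J, a j • e j‖ ^ 2 ≤ ∑ j ∈ Finset.range J, ‖a j‖ ^ 2 := by
  induction J with
  | zero => simp
  | succ J ih =>
    rw [Finset.sum_range_succ, Finset.sum_range_succ]
    have ho : inner ℂ (∑ j ∈ Finset.range J, a j • e j) (a J • e J) = 0 := by
      rw [sum_inner]
      refine Finset.sum_eq_zero fun j hj => ?_
      rw [inner_smul_left, inner_smul_right, h0 j J (Finset.mem_range.1 hj).ne, mul_zero,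
        mul_zero]
    have h2 := @norm_add_sq ℂ V _ _ _ (∑ j ∈ Finset.range J, a j • e j) (a J • e J)
    rw [ho] at h2
    rw [h2, norm_smul]
    have h3 : (‖a J‖ * ‖e J‖) ^ 2 ≤ ‖a J‖ ^ 2 := by
      have : ‖a J‖ * ‖e J‖ ≤ ‖a J‖ := mul_le_of_le_one_right (norm_nonneg _) (h1 J)
      exact pow_le_pow_left₀ (by positivity) this 2
    simp only [map_zero, mul_zero, add_zero]
    linarith

private theorem HP2_parseval {V : Type*} [NormedAddCommGroup V] [InnerProductSpace ℂ V]
    {e : ℕ → V} {v : V} (h : HasSum (fun j => inner ℂ (e j) v • e j) v) :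
    HasSum (fun j => ‖inner ℂ (e j) v‖ ^ 2) (‖v‖ ^ 2) := by
  have h1 := h.mapL (innerSL ℂ v)
  simp only [innerSL_apply_apply, inner_smul_right] at h1
  have h2 := h1.mapL Complex.reCLM
  simp only [Complex.reCLM_apply] at h2
  convert h2 using 1
  · funext j
    rw [← inner_conj_symm v (e j), Complex.mul_conj, Complex.ofReal_re, Complex.normSq_eq_norm_sq]
  · rw [inner_self_eq_norm_sq_to_K]
    norm_cast

namespace CLG

variable {n : ℕ} {G : Type*} [Group G] [TopologicalSpace G] [IsTopologicalGroup G] [T2Space G]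
  [LocallyCompactSpace G] [SecondCountableTopology G] [MeasurableSpace G] [BorelSpace G]
  (C : CLG n G) (μ : Measure G) [μ.IsHaarMeasure]

omit [Group G] [TopologicalSpace G] [IsTopologicalGroup G] [T2Space G]
  [LocallyCompactSpace G] [SecondCountableTopology G] [BorelSpace G] [μ.IsHaarMeasure] in
private theorem HP2_memLp {W : G → ℝ} (hWm : Measurable W) (hWp : ∀ x, 0 < W x) {f : G → ℂ}
    (hfm : AEStronglyMeasurable f μ) (hf : Integrable (fun x => ‖f x‖ ^ 2 / W x) μ) :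
    MemLp (fun x => f x / ((Real.sqrt (W x) : ℝ) : ℂ)) 2 μ := by
  have hm : AEStronglyMeasurable (fun x => f x / ((Real.sqrt (W x) : ℝ) : ℂ)) μ := by
    simp only [div_eq_mul_inv]
    refine hfm.mul ?_
    exact (Complex.measurable_ofReal.comp hWm.sqrt).inv.aestronglyMeasurable
  rw [memLp_two_iff_integrable_sq_norm hm]
  refine hf.congr (Eventually.of_forall fun x => ?_)
  simp only
  rw [norm_div, div_pow, Complex.norm_real, Real.norm_of_nonneg (Real.sqrt_nonneg _),
    Real.sq_sqrt (hWp x).le]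

omit [Group G] [TopologicalSpace G] [IsTopologicalGroup G] [T2Space G]
  [LocallyCompactSpace G] [SecondCountableTopology G] [BorelSpace G] [μ.IsHaarMeasure] in
private theorem HP2_inner {W : G → ℝ} (hWp : ∀ x, 0 < W x) {f g : G → ℂ}
    (hf : MemLp (fun x => f x / ((Real.sqrt (W x) : ℝ) : ℂ)) 2 μ)
    (hg : MemLp (fun x => g x / ((Real.sqrt (W x) : ℝ) : ℂ)) 2 μ) :
    inner ℂ hf.toLp hg.toLp = ∫ x, g x * (starRingEnd ℂ) (f x) / (W x : ℂ) ∂μ := by
  rw [L2.inner_def]
  refine integral_congr_ae ?_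
  filter_upwards [hf.coeFn_toLp, hg.coeFn_toLp] with x h1 h2
  rw [h1, h2, RCLike.inner_apply, map_div₀, Complex.conj_ofReal]
  have h3 : ((Real.sqrt (W x) : ℝ) : ℂ) * ((Real.sqrt (W x) : ℝ) : ℂ) = (W x : ℂ) := by
    rw [← Complex.ofReal_mul, Real.mul_self_sqrt (hWp x).le]
  rw [← h3]
  have h4 : ((Real.sqrt (W x) : ℝ) : ℂ) ≠ 0 := by
    exact_mod_cast (Real.sqrt_pos.2 (hWp x)).ne'
  field_simp

omit [Group G] [TopologicalSpace G] [IsTopologicalGroup G] [T2Space G]
  [LocallyCompactSpace G] [SecondCountableTopology G] [BorelSpace G] [μ.IsHaarMeasure] in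
private theorem HP2_norm {W : G → ℝ} (hWp : ∀ x, 0 < W x) {f : G → ℂ}
    (hf : MemLp (fun x => f x / ((Real.sqrt (W x) : ℝ) : ℂ)) 2 μ) :
    ‖hf.toLp‖ ^ 2 = nH μ W f := by
  have h1 := HP2_inner μ hWp hf hf
  have h2 : ∫ x, f x * (starRingEnd ℂ) (f x) / (W x : ℂ) ∂μ = ((nH μ W f : ℝ) : ℂ) := by
    rw [nH, ← integral_complex_ofReal]
    refine integral_congr_ae (Eventually.of_forall fun x => ?_)
    simp only
    rw [Complex.mul_conj, Complex.normSq_eq_norm_sq]
    push_cast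
    rfl
  rw [h2, inner_self_eq_norm_sq_to_K] at h1
  apply Complex.ofReal_injective
  rw [← h1]
  norm_cast

/-- Let `S` be a closed linear subspace of the space of holomorphic functions with `nH μ W` finite.
There is a sequence `e` in `S`, orthonormal up to zero entries (`honb`), with the Parseval expansion
(`hexp`) and the two sided description of the kernel function `Σ |e_j(x)|²`.
Proof: `S` is a separable Hilbert space (closed in `L²`, second countable `G`); take a Hilbert basis,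
which is countable, and fill up with zeros. Evaluation at `x` is a bounded functional
(`memH_eval`), so `g x = Σ a_j e_j x` with `a_j = ∫ g conj(e_j) / W`, and `Σ |e_j x|²` is the square
of its norm. -/
theorem exists_onb {W : G → ℝ} (hW : AdmW W) (S : Set (G → ℂ)) (hS : ∀ g ∈ S, C.MemH μ W g)
    (h0 : (fun _ => 0) ∈ S) (hadd : ∀ f ∈ S, ∀ g ∈ S, (fun x => f x + g x) ∈ S)
    (hsmul : ∀ (t : ℂ), ∀ f ∈ S, (fun x => t * f x) ∈ S)
    (hcl : ∀ (u : ℕ → G → ℂ) (g : G → ℂ), (∀ k, u k ∈ S) → C.MemH μ W g →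
      Tendsto (fun k => nH μ W (fun x => u k x - g x)) atTop (𝓝 0) → g ∈ S) :
    ∃ e : ℕ → G → ℂ, (∀ j, e j ∈ S) ∧
      (∀ (J : ℕ) (a : ℕ → ℂ), nH μ W (fun x => ∑ j ∈ Finset.range J, a j * e j x) ≤
        ∑ j ∈ Finset.range J, ‖a j‖ ^ 2) ∧
      (∀ g ∈ S, Summable (fun j => ‖∫ x, g x * (starRingEnd ℂ) (e j x) / (W x : ℂ) ∂μ‖ ^ 2) ∧
        ∑' j, ‖∫ x, g x * (starRingEnd ℂ) (e j x) / (W x : ℂ) ∂μ‖ ^ 2 = nH μ W g ∧
        Tendsto (fun J => nH μ W (fun y => g y - ∑ j ∈ Finset.range J,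
          (∫ x, g x * (starRingEnd ℂ) (e j x) / (W x : ℂ) ∂μ) * e j y)) atTop (𝓝 0)) ∧
      (∀ x, Summable (fun j => ‖e j x‖ ^ 2)) ∧
      (∀ x, ∀ g ∈ S, ‖g x‖ ^ 2 ≤ (∑' j, ‖e j x‖ ^ 2) * nH μ W g) ∧
      (∀ x (c : ℝ), 0 ≤ c → (∀ g ∈ S, ‖g x‖ ^ 2 ≤ c * nH μ W g) → ∑' j, ‖e j x‖ ^ 2 ≤ c) := by
  classical
  -- the submodule and the embedding in `L²`
  let S' : Submodule ℂ (G → ℂ) :=
    { carrier := S
      add_mem' := fun {f g} hf hg => hadd f hf g hg
      zero_mem' := h0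
      smul_mem' := fun t f hf => hsmul t f hf }
  have hmeas : ∀ g ∈ S, AEStronglyMeasurable g μ := fun g hg =>
    (C.hol_continuous (hS g hg).1).aestronglyMeasurable
  have hmem : ∀ g ∈ S, MemLp (fun x => g x / ((Real.sqrt (W x) : ℝ) : ℂ)) 2 μ := fun g hg =>
    HP2_memLp μ hW.meas hW.pos (hmeas g hg) (hS g hg).2
  let E : S' →ₗ[ℂ] Lp ℂ 2 μ :=
    { toFun := fun g => (hmem g.1 g.2).toLp
      map_add' := by
        intro f g
        rw [← MemLp.toLp_add]
        refine MemLp.toLp_congr _ _ (Eventually.of_forall fun x => ?_)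
        simp only [Submodule.coe_add, Pi.add_apply, add_div]
      map_smul' := by
        intro t f
        rw [RingHom.id_apply, ← MemLp.toLp_const_smul]
        refine MemLp.toLp_congr _ _ (Eventually.of_forall fun x => ?_)
        simp only [Submodule.coe_smul, Pi.smul_apply, smul_eq_mul, mul_div_assoc] }
  have hE : ∀ g : S', E g = (hmem g.1 g.2).toLp := fun g => rfl
  have hEn : ∀ g : S', ‖E g‖ ^ 2 = nH μ W g.1 := fun g => HP2_norm μ hW.pos (hmem g.1 g.2)
  have hEi : ∀ f g : S', inner ℂ (E f) (E g) =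
      ∫ x, g.1 x * (starRingEnd ℂ) (f.1 x) / (W x : ℂ) ∂μ := fun f g =>
    HP2_inner μ hW.pos (hmem f.1 f.2) (hmem g.1 g.2)
  have hsub : ∀ f g : S', nH μ W (fun x => f.1 x - g.1 x) = ‖E f - E g‖ ^ 2 := by
    intro f g
    rw [← map_sub, hEn]
    rfl
  have hclosed : IsClosed (LinearMap.range E : Set (Lp ℂ 2 μ)) := by
    refine IsSeqClosed.isClosed ?_
    intro v a hv hva
    choose u hu using hv
    have hC : ∀ ε : ℝ, 0 < ε → ∃ N, ∀ k, N ≤ k → ∀ m, N ≤ m →
        nH μ W (fun x => (u k).1 x - (u m).1 x) < ε := by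
      intro ε hε
      obtain ⟨N, hN⟩ := Metric.cauchySeq_iff.1 hva.cauchySeq (Real.sqrt ε) (Real.sqrt_pos.2 hε)
      refine ⟨N, fun k hk m hm => ?_⟩
      rw [hsub, hu, hu, ← dist_eq_norm]
      have h1 := hN k hk m hm
      calc dist (v k) (v m) ^ 2 < Real.sqrt ε ^ 2 := by
            exact pow_lt_pow_left₀ h1 dist_nonneg two_ne_zero
        _ = ε := Real.sq_sqrt hε.le
    obtain ⟨g, hg, hlim, -⟩ := C.memH_complete μ hW (u := fun k => (u k).1)
      (fun k => hS _ (u k).2) hC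
    have hgS : g ∈ S := hcl (fun k => (u k).1) g (fun k => (u k).2) hg hlim
    refine ⟨⟨g, hgS⟩, ?_⟩
    refine tendsto_nhds_unique (f := v) (l := atTop) ?_ hva
    rw [tendsto_iff_norm_sub_tendsto_zero]
    have h2 : Tendsto (fun k => ‖v k - E ⟨g, hgS⟩‖ ^ 2) atTop (𝓝 0) := by
      refine hlim.congr fun k => ?_
      have := hsub (u k) ⟨g, hgS⟩
      rw [hu] at this
      exact this
    have h3 := h2.sqrt
    rw [Real.sqrt_zero] at h3
    refine h3.congr fun k => ?_
    rw [Real.sqrt_sq (norm_nonneg _)]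
  have : CompleteSpace (LinearMap.range E) := hclosed.completeSpace_coe
  have hfact : Fact ((2 : ENNReal) ≠ ⊤) := ⟨by norm_num⟩
  have hsep : SecondCountableTopology (Lp ℂ 2 μ) := Lp.SecondCountableTopology
  have hsep' : SecondCountableTopology (LinearMap.range E) :=
    TopologicalSpace.Subtype.secondCountableTopology _
  have hsep'' : TopologicalSpace.SeparableSpace (LinearMap.range E) :=
    TopologicalSpace.SecondCountableTopology.to_separableSpace
  obtain ⟨e', he0, he1, hes⟩ := HP2_seq (LinearMap.range E)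
  have hchoice : ∀ j, ∃ g : S', E g = (e' j : Lp ℂ 2 μ) := fun j => (e' j).2
  choose g hg using hchoice
  have hsumE : ∀ (J : ℕ) (a : ℕ → ℂ), E (∑ j ∈ Finset.range J, a j • g j) =
      ((∑ j ∈ Finset.range J, a j • e' j : LinearMap.range E) : Lp ℂ 2 μ) := by
    intro J a
    rw [map_sum, Submodule.coe_sum]
    refine Finset.sum_congr rfl fun j _ => ?_
    rw [map_smul, hg, Submodule.coe_smul]
  have hsumf : ∀ (J : ℕ) (a : ℕ → ℂ) (x : G), (∑ j ∈ Finset.range J, a j • g j : S').1 x =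
      ∑ j ∈ Finset.range J, a j * (g j).1 x := by
    intro J a x
    rw [Submodule.coe_sum, Finset.sum_apply]
    rfl
  have h2 : ∀ (J : ℕ) (a : ℕ → ℂ), nH μ W (fun x => ∑ j ∈ Finset.range J, a j * (g j).1 x) ≤
      ∑ j ∈ Finset.range J, ‖a j‖ ^ 2 := by
    intro J a
    have h3 : (fun x => ∑ j ∈ Finset.range J, a j * (g j).1 x) =
        (∑ j ∈ Finset.range J, a j • g j : S').1 := funext fun x => (hsumf J a x).symm
    rw [h3, ← hEn, hsumE]
    exact HP2_norm_sum he0 he1 J a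
  have hco : ∀ (f : S') (j : ℕ), inner ℂ (e' j) (⟨E f, f, rfl⟩ : LinearMap.range E) =
      ∫ x, f.1 x * (starRingEnd ℂ) ((g j).1 x) / (W x : ℂ) ∂μ := by
    intro f j
    rw [← hEi, hg]
    rfl
  have h3 : ∀ f ∈ S, Summable (fun j => ‖∫ x, f x * (starRingEnd ℂ) ((g j).1 x) / (W x : ℂ) ∂μ‖ ^ 2) ∧
      ∑' j, ‖∫ x, f x * (starRingEnd ℂ) ((g j).1 x) / (W x : ℂ) ∂μ‖ ^ 2 = nH μ W f ∧
      Tendsto (fun J => nH μ W (fun y => f y - ∑ j ∈ Finset.range J,
        (∫ x, f x * (starRingEnd ℂ) ((g j).1 x) / (W x : ℂ) ∂μ) * (g j).1 y)) atTop (𝓝 0) := by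
    intro f hf
    have hs := hes (⟨E ⟨f, hf⟩, ⟨f, hf⟩, rfl⟩ : LinearMap.range E)
    have hp := HP2_parseval hs
    simp only [hco ⟨f, hf⟩] at hs hp
    have hn : ‖(⟨E ⟨f, hf⟩, ⟨f, hf⟩, rfl⟩ : LinearMap.range E)‖ ^ 2 = nH μ W f := hEn ⟨f, hf⟩
    rw [hn] at hp
    refine ⟨hp.summable, hp.tsum_eq, ?_⟩
    have ht := hs.tendsto_sum_nat
    rw [tendsto_iff_norm_sub_tendsto_zero] at ht
    have ht2 := ht.pow 2
    rw [zero_pow two_ne_zero] at ht2
    refine ht2.congr fun J => ?_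
    have e1 : (fun y => f y - ∑ j ∈ Finset.range J,
        (∫ x, f x * (starRingEnd ℂ) ((g j).1 x) / (W x : ℂ) ∂μ) * (g j).1 y) =
        fun y => (⟨f, hf⟩ : S').1 y - (∑ j ∈ Finset.range J,
        (∫ x, f x * (starRingEnd ℂ) ((g j).1 x) / (W x : ℂ) ∂μ) • g j : S').1 y := by
      funext y
      rw [hsumf]
    rw [e1, hsub, hsumE, norm_sub_rev]
    rfl
  -- evaluations
  have hbd : ∀ x (c : ℝ), 0 ≤ c → (∀ f ∈ S, ‖f x‖ ^ 2 ≤ c * nH μ W f) → ∀ J : ℕ,
      ∑ j ∈ Finset.range J, ‖(g j).1 x‖ ^ 2 ≤ c := by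
    intro x c hc hf J
    have e1 := hf _ (∑ j ∈ Finset.range J, ((starRingEnd ℂ) ((g j).1 x)) • g j : S').2
    have e2 := h2 J (fun j => (starRingEnd ℂ) ((g j).1 x))
    have e3 : (fun y => ∑ j ∈ Finset.range J, (starRingEnd ℂ) ((g j).1 x) * (g j).1 y) =
        (∑ j ∈ Finset.range J, ((starRingEnd ℂ) ((g j).1 x)) • g j : S').1 :=
      funext fun y => (hsumf J _ y).symm
    rw [e3] at e2
    have e4 : (∑ j ∈ Finset.range J, ((starRingEnd ℂ) ((g j).1 x)) • g j : S').1 x =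
        ((∑ j ∈ Finset.range J, ‖(g j).1 x‖ ^ 2 : ℝ) : ℂ) := by
      rw [hsumf, Complex.ofReal_sum]
      refine Finset.sum_congr rfl fun j _ => ?_
      rw [mul_comm, Complex.mul_conj, Complex.normSq_eq_norm_sq]
    have e5 : ∀ j, ‖(starRingEnd ℂ) ((g j).1 x)‖ = ‖(g j).1 x‖ := fun j => RCLike.norm_conj _
    simp only [e5] at e2
    have hs0 : 0 ≤ ∑ j ∈ Finset.range J, ‖(g j).1 x‖ ^ 2 :=
      Finset.sum_nonneg fun j _ => by positivity
    rw [e4, Complex.norm_real, Real.norm_of_nonneg hs0] at e1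
    have e6 := e1.trans (mul_le_mul_of_nonneg_left e2 hc)
    by_contra hcon
    rw [not_le] at hcon
    nlinarith
  have hsumm : ∀ x, Summable (fun j => ‖(g j).1 x‖ ^ 2) := by
    intro x
    obtain ⟨c, hc, hc'⟩ := C.memH_eval μ hW (isCompact_singleton (x := x))
    refine summable_of_sum_range_le (c := c) (fun j => by positivity) fun J => ?_
    exact hbd x c hc.le (fun f hf => hc' f (hS f hf) x rfl) J
  refine ⟨fun j => (g j).1, fun j => (g j).2, h2, h3, hsumm, ?_, ?_⟩
  · intro x f hf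
    obtain ⟨c, hc, hc'⟩ := C.memH_eval μ hW (isCompact_singleton (x := x))
    obtain ⟨k1, k2, k3⟩ := h3 f hf
    obtain ⟨a, ha⟩ : ∃ a : ℕ → ℂ, a = fun j =>
        ∫ x, f x * (starRingEnd ℂ) ((g j).1 x) / (W x : ℂ) ∂μ := ⟨_, rfl⟩
    have ha' : ∀ j, ∫ x, f x * (starRingEnd ℂ) ((g j).1 x) / (W x : ℂ) ∂μ = a j := fun j => by
      rw [ha]
    simp only [ha'] at k1 k2 k3
    have hlim : Tendsto (fun J => ∑ j ∈ Finset.range J, a j * (g j).1 x) atTop (𝓝 (f x)) := by
      rw [tendsto_iff_norm_sub_tendsto_zero]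
      have h4 : ∀ J, ‖∑ j ∈ Finset.range J, a j * (g j).1 x - f x‖ ^ 2 ≤
          c * nH μ W (fun y => f y - ∑ j ∈ Finset.range J, a j * (g j).1 y) := by
        intro J
        have hmS : (fun y => f y - ∑ j ∈ Finset.range J, a j * (g j).1 y) ∈ S := by
          have h5 : (fun y => f y - ∑ j ∈ Finset.range J, a j * (g j).1 y) =
              ((⟨f, hf⟩ : S') - ∑ j ∈ Finset.range J, a j • g j : S').1 := by
            funext y
            rw [Submodule.coe_sub, Pi.sub_apply, hsumf]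
          rw [h5]
          exact ((⟨f, hf⟩ : S') - ∑ j ∈ Finset.range J, a j • g j : S').2
        have h6 := hc' _ (hS _ hmS) x rfl
        rw [norm_sub_rev]
        exact h6
      have h7 : Tendsto (fun J => ‖∑ j ∈ Finset.range J, a j * (g j).1 x - f x‖ ^ 2) atTop
          (𝓝 0) := by
        refine squeeze_zero (fun J => by positivity) h4 ?_
        have := k3.const_mul c
        rwa [mul_zero] at this
      have h8 := h7.sqrt
      rw [Real.sqrt_zero] at h8
      refine h8.congr fun J => ?_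
      rw [Real.sqrt_sq (norm_nonneg _)]
    have hle : ∀ J, ‖∑ j ∈ Finset.range J, a j * (g j).1 x‖ ^ 2 ≤
        (∑' j, ‖(g j).1 x‖ ^ 2) * nH μ W f := by
      intro J
      have h9 : ‖∑ j ∈ Finset.range J, a j * (g j).1 x‖ ≤
          ∑ j ∈ Finset.range J, ‖a j‖ * ‖(g j).1 x‖ := by
        refine (norm_sum_le _ _).trans (le_of_eq (Finset.sum_congr rfl fun j _ => norm_mul _ _))
      have h10 := Finset.sum_mul_sq_le_sq_mul_sq (Finset.range J) (fun j => ‖a j‖)
        (fun j => ‖(g j).1 x‖)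
      have h11 : ∑ j ∈ Finset.range J, ‖a j‖ ^ 2 ≤ nH μ W f := by
        rw [← k2]
        exact k1.sum_le_tsum _ (fun j _ => by positivity)
      have h12 : ∑ j ∈ Finset.range J, ‖(g j).1 x‖ ^ 2 ≤ ∑' j, ‖(g j).1 x‖ ^ 2 :=
        (hsumm x).sum_le_tsum _ (fun j _ => by positivity)
      calc ‖∑ j ∈ Finset.range J, a j * (g j).1 x‖ ^ 2
          ≤ (∑ j ∈ Finset.range J, ‖a j‖ * ‖(g j).1 x‖) ^ 2 :=
            pow_le_pow_left₀ (norm_nonneg _) h9 2
        _ ≤ _ := h10
        _ ≤ nH μ W f * ∑' j, ‖(g j).1 x‖ ^ 2 :=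
            mul_le_mul h11 h12 (Finset.sum_nonneg fun j _ => by positivity)
              ((Finset.sum_nonneg fun j _ => by positivity).trans h11)
        _ = _ := mul_comm _ _
    exact le_of_tendsto (hlim.norm.pow 2) (Eventually.of_forall hle)
  · intro x c hc hf
    exact (hsumm x).tsum_le_of_sum_range_le (hbd x c hc hf)

end CLG

end HR
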