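import Mathlib

/-! MP_06f097_an blueprint, block SV: sub-mean value inequality on polydiscs. -/

open scoped Topology ContDiff
open MeasureTheory Set Filter Metric

noncomputable section

namespace HR

/-- rotation of all coordinates preserves the volume -/
private theorem SV3_mp (n : ℕ) (θ : ℝ) :
    MeasurePreserving (fun z : Fin n → ℂ => (circleMap 0 1 θ) • z) volume volume := by
  have h1 : MeasurePreserving (fun w : ℂ => (circleMap 0 1 θ) * w) volume volume := by
    have h2 := (rotation (Circle.exp θ)).measurePreserving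
    have h3 : (⇑(rotation (Circle.exp θ)) : ℂ → ℂ) = fun w : ℂ => (circleMap 0 1 θ) * w := by
      funext w
      rw [rotation_apply, Circle.coe_exp]
      simp [circleMap]
    rw [h3] at h2
    exact h2
  exact volume_preserving_pi (fun _ => h1)

private theorem SV3_mean (n : ℕ) (g : (Fin n → ℂ) → ℂ) (R R' : ℝ) (hR : 0 < R) (hRR : R < R')
    (hg : DifferentiableOn ℂ g (ball 0 R')) :
    ((volume (ball (0 : Fin n → ℂ) R)).toReal : ℂ) * g 0 = ∫ z in ball (0 : Fin n → ℂ) R, g z := by
  have hnorm : ∀ (θ : ℝ) (z : Fin n → ℂ), ‖(circleMap 0 1 θ) • z‖ = ‖z‖ := by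
    intro θ z
    rw [norm_smul]
    simp
  -- one variable mean value property
  have h1 : ∀ z ∈ ball (0 : Fin n → ℂ) R,
      ∫ θ in (0 : ℝ)..2 * Real.pi, g ((circleMap 0 1 θ) • z) = (2 * Real.pi : ℝ) • g 0 := by
    intro z hz
    rw [mem_ball_zero_iff] at hz
    have hd : DifferentiableOn ℂ (fun ζ : ℂ => g (ζ • z)) (closedBall 0 1) := by
      refine hg.comp (differentiable_id.smul_const z).differentiableOn ?_
      intro ζ hζ
      rw [mem_closedBall_zero_iff] at hζ
      rw [mem_ball_zero_iff, norm_smul]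
      calc ‖ζ‖ * ‖z‖ ≤ 1 * ‖z‖ := by gcongr
        _ < R' := by linarith
    have hc : DiffContOnCl ℂ (fun ζ : ℂ => g (ζ • z)) (ball 0 |1|) := by
      refine DifferentiableOn.diffContOnCl ?_
      rw [abs_one, closure_ball _ one_ne_zero]
      exact hd
    have h2 := hc.circleAverage
    rw [Real.circleAverage_def, zero_smul] at h2
    rw [← h2, smul_smul, mul_inv_cancel₀ (by positivity), one_smul]
  -- rotation invariance
  have h3 : ∀ θ : ℝ, ∫ z in ball (0 : Fin n → ℂ) R, g ((circleMap 0 1 θ) • z) =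
      ∫ z in ball (0 : Fin n → ℂ) R, g z := by
    intro θ
    have hne : (circleMap 0 1 θ) ≠ 0 := circleMap_ne_center one_ne_zero
    have hpre : (fun z : Fin n → ℂ => (circleMap 0 1 θ) • z) ⁻¹' (ball (0 : Fin n → ℂ) R) =
        ball (0 : Fin n → ℂ) R := by
      ext z
      rw [mem_preimage, mem_ball_zero_iff, mem_ball_zero_iff, hnorm]
    have h4 := (SV3_mp n θ).setIntegral_preimage_emb
      (Homeomorph.smulOfNeZero (circleMap 0 1 θ) hne).measurableEmbedding g (ball 0 R)
    rw [hpre] at h4
    exact h4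
  -- continuity on the compact set
  have hcont : ContinuousOn (fun p : ℝ × (Fin n → ℂ) => g ((circleMap 0 1 p.1) • p.2))
      (Icc 0 (2 * Real.pi) ×ˢ closedBall 0 R) := by
    refine hg.continuousOn.comp ?_ ?_
    · exact (((continuous_circleMap 0 1).comp continuous_fst).smul continuous_snd).continuousOn
    · rintro ⟨θ, z⟩ ⟨-, hz⟩
      rw [mem_closedBall_zero_iff] at hz
      rw [mem_ball_zero_iff, hnorm]
      exact lt_of_le_of_lt hz hRR
  have hint : IntegrableOn (fun p : ℝ × (Fin n → ℂ) => g ((circleMap 0 1 p.1) • p.2))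
      (Icc 0 (2 * Real.pi) ×ˢ closedBall 0 R) (volume.prod volume) :=
    hcont.integrableOn_compact (isCompact_Icc.prod (isCompact_closedBall 0 R))
  have hint2 : Integrable (fun p : ℝ × (Fin n → ℂ) => g ((circleMap 0 1 p.1) • p.2))
      ((volume.restrict (uIoc 0 (2 * Real.pi))).prod (volume.restrict (ball 0 R))) := by
    rw [Measure.prod_restrict]
    refine hint.mono_set ?_
    rw [uIoc_of_le (by positivity)]
    exact prod_mono Ioc_subset_Icc_self ball_subset_closedBall
  have h5 := intervalIntegral_integral_swap (μ := volume.restrict (ball (0 : Fin n → ℂ) R))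
    (f := fun θ z => g ((circleMap 0 1 θ) • z)) hint2
  simp only [h3] at h5
  rw [intervalIntegral.integral_const, sub_zero] at h5
  have h6 : ∫ z in ball (0 : Fin n → ℂ) R, ∫ θ in (0 : ℝ)..2 * Real.pi,
      g ((circleMap 0 1 θ) • z) = ∫ z in ball (0 : Fin n → ℂ) R, (2 * Real.pi : ℝ) • g 0 :=
    setIntegral_congr_fun measurableSet_ball h1
  rw [h6, setIntegral_const] at h5
  have h7 : (2 * Real.pi : ℝ) • ∫ z in ball (0 : Fin n → ℂ) R, g z =
      (2 * Real.pi : ℝ) • ((volume (ball (0 : Fin n → ℂ) R)).toReal • g 0) := by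
    rw [h5, smul_comm]
    rfl
  have h8 := smul_right_injective ℂ (show (2 * Real.pi : ℝ) ≠ 0 by positivity) h7
  rw [h8, Complex.real_smul]

/-- Proof: for `z` in the ball the one variable mean value property of `ζ ↦ f (ζ • z)` on the unit
circle gives `f 0 = (2π)⁻¹ ∫ θ in 0..2π, f (exp(iθ) • z)` (`circleAverage` of a holomorphic
function, or `Complex.circleIntegral_sub_inv_smul_of_differentiable_on...`). Integrate over
`z ∈ ball 0 R`, Fubini, and use that `z ↦ exp(iθ) • z` preserves the volume of `Fin n → ℂ` and the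
ball (`MeasureTheory.volume_preserving_pi` of the rotation of `ℂ`, or
`LinearIsometryEquiv`/`Measure.addHaar_image_linearMap`). So
`‖f 0‖ vol(ball) ≤ ∫ ‖f‖`, then Cauchy-Schwarz. `n = 0` is allowed (trivial). -/
theorem smv_ball (n : ℕ) (f : (Fin n → ℂ) → ℂ) (R R' : ℝ) (hR : 0 < R) (hRR : R < R')
    (hf : DifferentiableOn ℂ f (ball 0 R')) :
    ‖f 0‖ ^ 2 * (volume (ball (0 : Fin n → ℂ) R)).toReal ≤
      ∫ z in ball (0 : Fin n → ℂ) R, ‖f z‖ ^ 2 := by
  have h := SV3_mean n (fun z => f z ^ 2) R R' hR hRR (hf.pow 2)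
  have h2 := norm_integral_le_integral_norm (μ := volume.restrict (ball (0 : Fin n → ℂ) R))
    (fun z => f z ^ 2)
  rw [← h, norm_mul, norm_pow, Complex.norm_real, Real.norm_of_nonneg ENNReal.toReal_nonneg] at h2
  simp only [norm_pow] at h2
  rw [mul_comm]
  exact h2

end HR
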