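import Pool.Agent.W_06f097_h43.CA5
import Pool.Agent.W_06f097_h43.SV3

/-! MP_06f097_an blueprint, block ME: comparison of the Haar measure with Lebesgue measure in the
chart, submean value inequality. -/

open scoped Topology ContDiff ENNReal
open MeasureTheory Set Filter Metric

set_option linter.unusedSectionVars false

noncomputable section

namespace HR

namespace CLG

variable {n : ℕ} {G : Type*} [Group G] [TopologicalSpace G] [IsTopologicalGroup G] [T2Space G]
  [LocallyCompactSpace G] [SecondCountableTopology G] [MeasurableSpace G] [BorelSpace G]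
  (C : CLG n G) (μ : Measure G) [μ.IsHaarMeasure]

/-- multiplication in coordinates -/
def ME2_m (w z : En n) : En n := C.ψ.symm (C.ψ z * C.ψ w)

theorem ME2_jac : ∃ r₁ : ℝ, 0 < r₁ ∧ r₁ < C.r ∧ ∀ w ∈ ball (0 : En n) r₁, ∀ A : Set (En n),
    MeasurableSet A → A ⊆ ball (0 : En n) r₁ →
      volume (C.ME2_m w '' A) ≤ 2 * volume A ∧ volume A ≤ 2 * volume (C.ME2_m w '' A) := by
  set m : En n × En n → En n := fun p => C.ψ.symm (C.ψ p.1 * C.ψ p.2) with hm
  have hopen : IsOpen (ball (0 : En n) C.r ×ˢ ball (0 : En n) C.r) := isOpen_ball.prod isOpen_ball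
  have h0 : (0 : En n) ∈ ball (0 : En n) C.r := mem_ball_self C.r_pos
  have hsm : ∀ p ∈ ball (0 : En n) C.r ×ˢ ball (0 : En n) C.r, ContDiffAt ℝ ∞ m p := fun p hp =>
    (C.mul_smooth.contDiffAt (hopen.mem_nhds hp)).restrict_scalars ℝ
  set Φ : En n × En n → ℝ := fun p =>
    |((fderiv ℝ m p).comp (ContinuousLinearMap.inl ℝ (En n) (En n))).det| with hΦ
  have hslice : ∀ z ∈ ball (0 : En n) C.r, ∀ w ∈ ball (0 : En n) C.r,
      HasFDerivAt (C.ME2_m w) ((fderiv ℝ m (z, w)).comp
        (ContinuousLinearMap.inl ℝ (En n) (En n))) z := by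
    intro z hz w hw
    have q6 : HasFDerivAt m (fderiv ℝ m (z, w)) (z, w) :=
      ((hsm (z, w) ⟨hz, hw⟩).differentiableAt (by simp)).hasFDerivAt
    have q5 : HasFDerivAt (fun z : En n => ((z, w) : En n × En n))
        (ContinuousLinearMap.inl ℝ (En n) (En n)) z := by
      simpa [ContinuousLinearMap.inl] using (hasFDerivAt_prodMk_left (𝕜 := ℝ) z w)
    exact q6.comp z q5
  have hΦ0 : Φ (0, 0) = 1 := by
    have h1 := hslice 0 h0 0 h0
    have h2 : C.ME2_m 0 =ᶠ[𝓝 0] fun z => z := by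
      filter_upwards [ball_mem_nhds (0 : En n) C.r_pos] with z hz
      simp only [ME2_m, C.map_zero, mul_one]
      exact C.ψ.left_inv (C.ball_sub hz)
    have h3 := h1.congr_of_eventuallyEq h2.symm
    have h4 := h3.unique (hasFDerivAt_id (𝕜 := ℝ) (0 : En n))
    simp only [hΦ]
    rw [h4]
    simp [ContinuousLinearMap.det]
  have hcont : ContinuousAt Φ (0, 0) := by
    have h1 : ContinuousAt (fderiv ℝ m) ((0 : En n), (0 : En n)) :=
      ((hsm (0, 0) ⟨h0, h0⟩).fderiv_right (m := 0) (by simp)).continuousAt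
    have h2 : ContinuousAt (fun p => (fderiv ℝ m p).comp
        (ContinuousLinearMap.inl ℝ (En n) (En n))) ((0 : En n), (0 : En n)) :=
      h1.clm_comp continuousAt_const
    exact (ContinuousLinearMap.continuous_det.continuousAt.comp h2).abs
  have hev : ∀ᶠ p in 𝓝 ((0 : En n), (0 : En n)), Φ p ∈ Ioo (1 / 2 : ℝ) 2 :=
    hcont.eventually (by rw [hΦ0]; exact Ioo_mem_nhds (by norm_num) (by norm_num))
  obtain ⟨ε, hε, hε'⟩ := Metric.eventually_nhds_iff_ball.1 hev
  refine ⟨min ε (C.r / 2), lt_min hε (by have := C.r_pos; positivity),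
    (min_le_right _ _).trans_lt (by have := C.r_pos; linarith), ?_⟩
  intro w hw A hA hAs
  have hr : ball (0 : En n) (min ε (C.r / 2)) ⊆ ball 0 C.r := ball_subset_ball
    ((min_le_right _ _).trans (by have := C.r_pos; linarith))
  have hwr := hr hw
  have hder : ∀ z ∈ A, HasFDerivWithinAt (C.ME2_m w) ((fderiv ℝ m (z, w)).comp
        (ContinuousLinearMap.inl ℝ (En n) (En n))) A z := fun z hz =>
    (hslice z (hr (hAs hz)) w hwr).hasFDerivWithinAt
  have hinj : InjOn (C.ME2_m w) A := by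
    intro z hz z' hz' h
    have e1 := C.ψ.symm.injOn (C.mul_mem z (hr (hAs hz)) w hwr)
      (C.mul_mem z' (hr (hAs hz')) w hwr) h
    exact C.ψ.injOn (C.ball_sub (hr (hAs hz))) (C.ball_sub (hr (hAs hz'))) (mul_right_cancel e1)
  have hJ := lintegral_abs_det_fderiv_eq_addHaar_image volume hA hder hinj
  have hΦb : ∀ z ∈ A, Φ (z, w) ∈ Ioo (1 / 2 : ℝ) 2 := by
    intro z hz
    apply hε'
    rw [← ball_prod_same]
    exact ⟨ball_subset_ball (min_le_left _ _) (hAs hz), ball_subset_ball (min_le_left _ _) hw⟩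
  constructor
  · rw [← hJ]
    calc ∫⁻ z in A, ENNReal.ofReal |((fderiv ℝ m (z, w)).comp
          (ContinuousLinearMap.inl ℝ (En n) (En n))).det| ≤ ∫⁻ z in A, 2 := by
          apply setLIntegral_mono' hA
          intro z hz
          have := (hΦb z hz).2.le
          calc ENNReal.ofReal |((fderiv ℝ m (z, w)).comp
            (ContinuousLinearMap.inl ℝ (En n) (En n))).det| ≤ ENNReal.ofReal 2 :=
                ENNReal.ofReal_le_ofReal this
            _ = 2 := by simp
      _ = 2 * volume A := by rw [setLIntegral_const]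
  · rw [← hJ, ← lintegral_const_mul' _ _ (by simp)]
    calc volume A = ∫⁻ z in A, 1 := by rw [setLIntegral_const, one_mul]
      _ ≤ _ := by
          apply setLIntegral_mono' hA
          intro z hz
          have h1 := (hΦb z hz).1.le
          have h2 : ENNReal.ofReal (1 / 2) ≤ ENNReal.ofReal (Φ (z, w)) :=
            ENNReal.ofReal_le_ofReal h1
          calc (1 : ℝ≥0∞) = 2 * ENNReal.ofReal (1 / 2) := by
                rw [ENNReal.ofReal_div_of_pos (by norm_num)]
                simp [ENNReal.mul_inv_cancel]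
            _ ≤ 2 * ENNReal.ofReal (Φ (z, w)) := by gcongr

/-- a measurable modification of the coordinates -/
def ME2_psi : En n → G := by
  classical
  exact (ball (0 : En n) C.r).piecewise C.ψ (fun _ => 1)

theorem ME2_psi_meas : Measurable C.ME2_psi := by
  classical
  have h1 : ContinuousOn C.ψ (ball (0 : En n) C.r) := C.ψ.continuousOn.mono C.ball_sub
  have h2 := h1.measurable_piecewise (continuousOn_const (c := (1 : G)))
    (measurableSet_ball (x := (0 : En n)) (ε := C.r))
  unfold ME2_psi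
  convert h2

theorem ME2_psi_eq {z : En n} (hz : z ∈ ball (0 : En n) C.r) : C.ME2_psi z = C.ψ z := by
  simp only [ME2_psi, piecewise, if_pos hz]

theorem ME2_tonelli {W : Set (En n)} (hW : MeasurableSet W) (hWs : W ⊆ ball (0 : En n) C.r)
    {T : Set G} (hT : MeasurableSet T) :
    (∀ y, MeasurableSet {z | z ∈ W ∧ C.ψ z * y ∈ T}) ∧
    volume W * μ T = ∫⁻ y, volume {z | z ∈ W ∧ C.ψ z * y ∈ T} ∂μ := by
  have e1 : ∀ y, {z | z ∈ W ∧ C.ψ z * y ∈ T} = W ∩ {z | C.ME2_psi z * y ∈ T} := by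
    intro y
    ext z
    simp only [mem_ofPred_eq, mem_inter_iff]
    refine and_congr_right fun hz => ?_
    rw [C.ME2_psi_eq (hWs hz)]
  have hE : MeasurableSet {p : En n × G | C.ME2_psi p.1 * p.2 ∈ T} :=
    ((C.ME2_psi_meas.comp measurable_fst).mul measurable_snd) hT
  refine ⟨fun y => ?_, ?_⟩
  · rw [e1]
    exact hW.inter ((C.ME2_psi_meas.mul_const y) hT)
  · have h1 := Measure.prod_apply (μ := volume.restrict W) (ν := μ) hE
    have h2 := Measure.prod_apply_symm (μ := volume.restrict W) (ν := μ) hE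
    have h3 : ∫⁻ z in W, μ (Prod.mk z ⁻¹' {p : En n × G | C.ME2_psi p.1 * p.2 ∈ T}) =
        volume W * μ T := by
      have : ∀ z, μ (Prod.mk z ⁻¹' {p : En n × G | C.ME2_psi p.1 * p.2 ∈ T}) = μ T := by
        intro z
        exact measure_preimage_mul μ (C.ME2_psi z) T
      simp only [this, lintegral_const, Measure.restrict_apply_univ]
      rw [mul_comm]
    rw [← h3, ← h1, h2]
    congr 1
    funext y
    rw [e1, Measure.restrict_apply' hW, inter_comm]
    rfl

/-- Proof (Fubini). Let `λ` be the image of Lebesgue measure on a small ball under `ψ`. Right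
translations by `y` near `1` are, in the chart, diffeomorphisms with Jacobians in `[1/2, 2]` (the map
`(z, w) ↦ ψ.symm (ψ z * ψ w)` is `C¹` with derivative in `z` the identity at `w = 0`), so
`λ(S) / 2 ≤ λ(S y⁻¹) ≤ 2 λ(S)` for `S` in a small ball and `y` small. For `W` a small ball (image),
`λ(W) μ(S) = ∫_{x ∈ W} ∫_y 1_S(x y) dμ(y) dλ(x)` (left invariance of `μ`)
`= ∫_y λ(W ∩ S y⁻¹) dμ(y)`. The right side is `≥ ∫_{y ∈ W'} λ(S)/2 dμ(y)` if `S W'⁻¹ ⊆ W`, and
`≤ 2 λ(S) μ(W⁻¹ S)`. -/
theorem haar_comparison : ∃ δ : ℝ, 0 < δ ∧ δ ≤ C.r ∧ ∃ K : ℝ≥0∞, K ≠ ⊤ ∧ K ≠ 0 ∧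
    ∀ S : Set (En n), MeasurableSet S → S ⊆ ball 0 δ →
      volume S ≤ K * μ (C.ψ '' S) ∧ μ (C.ψ '' S) ≤ K * volume S := by
  obtain ⟨r₁, hr₁, hr₁', hjac⟩ := C.ME2_jac
  have h0 : (0 : En n) ∈ ball (0 : En n) C.r := mem_ball_self C.r_pos
  have hψ0 : ContinuousAt C.ψ (0 : En n) := C.ψ.continuousAt (C.ball_sub h0)
  -- the image of the ball
  have hB : IsOpen (C.ψ '' ball (0 : En n) r₁) :=
    C.ψ.isOpen_image_of_subset_source isOpen_ball
      ((ball_subset_ball hr₁'.le).trans C.ball_sub)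
  have hB1 : (1 : G) ∈ C.ψ '' ball (0 : En n) r₁ := ⟨0, mem_ball_self hr₁, C.map_zero⟩
  have hnhds := hB.mem_nhds hB1
  have ha1 : ContinuousAt (fun p : En n × En n => C.ψ p.1) ((0 : En n), (0 : En n)) :=
    ContinuousAt.comp (x := ((0 : En n), (0 : En n))) (g := C.ψ) hψ0 continuousAt_fst
  have ha2 : ContinuousAt (fun p : En n × En n => C.ψ p.2) ((0 : En n), (0 : En n)) :=
    ContinuousAt.comp (x := ((0 : En n), (0 : En n))) (g := C.ψ) hψ0 continuousAt_snd
  have hev1 : ∀ᶠ p : En n × En n in 𝓝 ((0 : En n), (0 : En n)),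
      (C.ψ p.1)⁻¹ * C.ψ p.2 ∈ C.ψ '' ball (0 : En n) r₁ := by
    have hc : ContinuousAt (fun p : En n × En n => (C.ψ p.1)⁻¹ * C.ψ p.2)
        ((0 : En n), (0 : En n)) := ha1.inv.mul ha2
    refine hc.eventually (p := fun y => y ∈ C.ψ '' ball (0 : En n) r₁) ?_
    simp only [C.map_zero, inv_one, one_mul]
    exact hnhds
  have hev2 : ∀ᶠ p : En n × En n in 𝓝 ((0 : En n), (0 : En n)),
      C.ψ p.1 * (C.ψ p.2)⁻¹ ∈ C.ψ '' ball (0 : En n) r₁ := by
    have hc : ContinuousAt (fun p : En n × En n => C.ψ p.1 * (C.ψ p.2)⁻¹)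
        ((0 : En n), (0 : En n)) := ha1.mul ha2.inv
    refine hc.eventually (p := fun y => y ∈ C.ψ '' ball (0 : En n) r₁) ?_
    simp only [C.map_zero, inv_one, one_mul]
    exact hnhds
  obtain ⟨ε, hε, hε'⟩ := Metric.eventually_nhds_iff_ball.1 (hev1.and hev2)
  set δ := min ε r₁ with hδ
  have hδ0 : 0 < δ := lt_min hε hr₁
  have hδr : ball (0 : En n) δ ⊆ ball 0 r₁ := ball_subset_ball (min_le_right _ _)
  have hδ' : ∀ z ∈ ball (0 : En n) δ, ∀ s ∈ ball (0 : En n) δ,
      (C.ψ z)⁻¹ * C.ψ s ∈ C.ψ '' ball (0 : En n) r₁ ∧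
      C.ψ z * (C.ψ s)⁻¹ ∈ C.ψ '' ball (0 : En n) r₁ := by
    intro z hz s hs
    apply hε' (z, s)
    rw [← ball_prod_same]
    exact ⟨ball_subset_ball (min_le_left _ _) hz, ball_subset_ball (min_le_left _ _) hs⟩
  have hrr : ball (0 : En n) r₁ ⊆ ball 0 C.r := ball_subset_ball hr₁'.le
  have hBδ : IsOpen (C.ψ '' ball (0 : En n) δ) :=
    C.ψ.isOpen_image_of_subset_source isOpen_ball ((hδr.trans hrr).trans C.ball_sub)
  have hμδ : μ (C.ψ '' ball (0 : En n) δ) ≠ 0 :=
    (hBδ.measure_pos μ ⟨1, 0, mem_ball_self hδ0, C.map_zero⟩).ne'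
  have hμr : μ (C.ψ '' ball (0 : En n) r₁) ≠ ⊤ := by
    have hcpt : IsCompact (C.ψ '' closedBall (0 : En n) r₁) := by
      apply (isCompact_closedBall (0 : En n) r₁).image_of_continuousOn
      exact C.ψ.continuousOn.mono ((closedBall_subset_ball hr₁').trans C.ball_sub)
    exact ((measure_mono (image_mono ball_subset_closedBall)).trans_lt hcpt.measure_lt_top).ne
  have hv1 : volume (ball (0 : En n) r₁) ≠ ⊤ := measure_ball_lt_top.ne
  have hv0 : volume (ball (0 : En n) δ) ≠ 0 := (measure_ball_pos _ _ hδ0).ne'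
  have hv0' : volume (ball (0 : En n) δ) ≠ ⊤ := measure_ball_lt_top.ne
  -- key set inclusions
  have himg : ∀ S ⊆ ball (0 : En n) δ, ∀ w ∈ ball (0 : En n) r₁,
      ∀ W : Set (En n), C.ME2_m w '' {z | z ∈ W ∧ C.ψ z * C.ψ w ∈ C.ψ '' S} ⊆ S := by
    rintro S hS w hw W _ ⟨z, ⟨hz, s, hs, hzs⟩, rfl⟩
    rw [ME2_m, ← hzs, C.ψ.left_inv (C.ball_sub (hrr (hδr (hS hs))))]
    exact hs
  refine ⟨δ, hδ0, (min_le_right _ _).trans hr₁'.le,
    2 * volume (ball (0 : En n) r₁) / μ (C.ψ '' ball (0 : En n) δ) +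
    2 * μ (C.ψ '' ball (0 : En n) r₁) / volume (ball (0 : En n) δ) + 1, ?_, ?_, ?_⟩
  · refine ENNReal.add_ne_top.2 ⟨ENNReal.add_ne_top.2 ⟨?_, ?_⟩, by simp⟩
    · exact ENNReal.div_ne_top (ENNReal.mul_ne_top (by simp) hv1) hμδ
    · exact ENNReal.div_ne_top (ENNReal.mul_ne_top (by simp) hμr) hv0
  · simp
  · intro S hS hSδ
    have hT : MeasurableSet (C.ψ '' S) := by
      apply hS.image_of_continuousOn_injOn
      · exact C.ψ.continuousOn.mono (((hSδ.trans hδr).trans hrr).trans C.ball_sub)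
      · exact C.ψ.injOn.mono (((hSδ.trans hδr).trans hrr).trans C.ball_sub)
    constructor
    · -- lower bound of the Haar measure
      obtain ⟨hm1, hm2⟩ := C.ME2_tonelli μ (measurableSet_ball (x := (0 : En n)) (ε := r₁)) hrr hT
      have h1 : μ (C.ψ '' ball (0 : En n) δ) * volume S ≤
          2 * (volume (ball (0 : En n) r₁) * μ (C.ψ '' S)) := by
        rw [hm2, ← lintegral_const_mul' _ _ (by simp)]
        calc μ (C.ψ '' ball (0 : En n) δ) * volume S
            = ∫⁻ y in C.ψ '' ball (0 : En n) δ, volume S ∂μ := by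
              rw [setLIntegral_const, mul_comm]
          _ ≤ ∫⁻ y in C.ψ '' ball (0 : En n) δ,
              2 * volume {z | z ∈ ball (0 : En n) r₁ ∧ C.ψ z * y ∈ C.ψ '' S} ∂μ := by
              apply setLIntegral_mono' hBδ.measurableSet
              rintro _ ⟨w, hw, rfl⟩
              have h2 := (hjac w (hδr hw) _ (hm1 (C.ψ w)) (fun z hz => hz.1)).1
              refine le_trans (measure_mono ?_) h2
              intro s hs
              obtain ⟨z, hz, hzs⟩ := (hδ' s (hSδ hs) w hw).2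
              have h3 : C.ψ z * C.ψ w = C.ψ s := by rw [hzs]; group
              refine ⟨z, ⟨hz, s, hs, h3.symm⟩, ?_⟩
              rw [ME2_m, h3, C.ψ.left_inv (C.ball_sub (hrr (hδr (hSδ hs))))]
          _ ≤ _ := setLIntegral_le_lintegral _ _
      calc volume S ≤ 2 * (volume (ball (0 : En n) r₁) * μ (C.ψ '' S)) /
            μ (C.ψ '' ball (0 : En n) δ) := by
            rw [ENNReal.le_div_iff_mul_le (Or.inl hμδ) (Or.inl (ne_top_of_le_ne_top hμr
              (measure_mono (image_mono hδr)))), mul_comm]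
            exact h1
        _ = 2 * volume (ball (0 : En n) r₁) / μ (C.ψ '' ball (0 : En n) δ) * μ (C.ψ '' S) := by
            simp only [div_eq_mul_inv]
            ring
        _ ≤ _ := by
            gcongr
            rw [add_assoc]
            exact le_self_add
    · -- upper bound
      obtain ⟨hm1, hm2⟩ := C.ME2_tonelli μ (measurableSet_ball (x := (0 : En n)) (ε := δ))
        (hδr.trans hrr) hT
      have h1 : volume (ball (0 : En n) δ) * μ (C.ψ '' S) ≤
          2 * μ (C.ψ '' ball (0 : En n) r₁) * volume S := by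
        rw [hm2]
        calc ∫⁻ y, volume {z | z ∈ ball (0 : En n) δ ∧ C.ψ z * y ∈ C.ψ '' S} ∂μ
            ≤ ∫⁻ y, (C.ψ '' ball (0 : En n) r₁).indicator (fun _ => 2 * volume S) y ∂μ := by
              apply lintegral_mono
              intro y
              show volume {z | z ∈ ball (0 : En n) δ ∧ C.ψ z * y ∈ C.ψ '' S} ≤ _
              by_cases hy : y ∈ C.ψ '' ball (0 : En n) r₁
              · rw [indicator_of_mem hy]
                obtain ⟨w, hw, rfl⟩ := hy
                have h2 := (hjac w hw _ (hm1 (C.ψ w)) (fun z hz => hδr hz.1)).2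
                refine h2.trans ?_
                gcongr
                exact himg S hSδ w hw _
              · rw [indicator_of_notMem hy]
                have : {z | z ∈ ball (0 : En n) δ ∧ C.ψ z * y ∈ C.ψ '' S} = ∅ := by
                  rw [eq_empty_iff_forall_notMem]
                  rintro z ⟨hz, s, hs, hzs⟩
                  apply hy
                  have h3 : y = (C.ψ z)⁻¹ * C.ψ s := by rw [hzs]; group
                  rw [h3]
                  exact (hδ' z hz s (hSδ hs)).1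
                rw [this]
                simp
          _ = _ := by
              rw [lintegral_indicator hB.measurableSet, setLIntegral_const]
              ring
      calc μ (C.ψ '' S) ≤ 2 * μ (C.ψ '' ball (0 : En n) r₁) * volume S /
            volume (ball (0 : En n) δ) := by
            rw [ENNReal.le_div_iff_mul_le (Or.inl hv0) (Or.inl hv0'), mul_comm]
            exact h1
        _ = 2 * μ (C.ψ '' ball (0 : En n) r₁) / volume (ball (0 : En n) δ) * volume S := by
            simp only [div_eq_mul_inv]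
            ring
        _ ≤ _ := by
            gcongr
            exact le_add_right le_add_self

/-- Submean value inequality. Proof: choose a small ball `B` with `ψ '' closedBall ⊆ V`; by
`smv_ball` for `z ↦ f (x * ψ z)`, `‖f x‖² ≤ c ∫_B ‖f (x * ψ z)‖² dz`, and by `haar_comparison`
`∫_B ‖f (x * ψ z)‖² dz ≤ K ∫_{ψ '' B} ‖f (x * y)‖² dμ(y)`. -/
theorem smv {V : Set G} (hV : V ∈ 𝓝 (1 : G)) (hVc : IsCompact V) :
    ∃ c : ℝ, 0 < c ∧ ∀ f : G → ℂ, C.Hol f → ∀ x,
      ‖f x‖ ^ 2 ≤ c * ∫ y in V, ‖f (x * y)‖ ^ 2 ∂μ := by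
  obtain ⟨δ, hδ, hδr, K, hK1, hK0, hK⟩ := C.haar_comparison μ
  have h0 : (0 : En n) ∈ ball (0 : En n) C.r := mem_ball_self C.r_pos
  have hψ0 : ContinuousAt C.ψ (0 : En n) := C.ψ.continuousAt (C.ball_sub h0)
  have hev : ∀ᶠ z in 𝓝 (0 : En n), C.ψ z ∈ V :=
    hψ0.eventually (p := fun y => y ∈ V) (by rw [C.map_zero]; exact hV)
  obtain ⟨ε, hε, hε'⟩ := Metric.eventually_nhds_iff_ball.1 hev
  set R := min ε (δ / 2) with hR
  have hR0 : 0 < R := lt_min hε (by positivity)
  have hRδ : R < δ := (min_le_right _ _).trans_lt (by linarith)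
  have hBδ : ball (0 : En n) R ⊆ ball 0 δ := ball_subset_ball hRδ.le
  have hBr : ball (0 : En n) R ⊆ ball 0 C.r := hBδ.trans (ball_subset_ball hδr)
  have hBV : C.ψ '' ball (0 : En n) R ⊆ V := by
    rintro _ ⟨z, hz, rfl⟩
    exact hε' z (ball_subset_ball (min_le_left _ _) hz)
  have hB : IsOpen (C.ψ '' ball (0 : En n) R) :=
    C.ψ.isOpen_image_of_subset_source isOpen_ball (hBr.trans C.ball_sub)
  have hv0 : 0 < (volume (ball (0 : En n) R)).toReal :=
    ENNReal.toReal_pos (measure_ball_pos _ _ hR0).ne' measure_ball_lt_top.ne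
  have hKr : 0 < K.toReal := ENNReal.toReal_pos hK0 hK1
  -- comparison of measures
  have hmeas : (volume.restrict (ball (0 : En n) R)).map C.ME2_psi ≤
      K • μ.restrict (C.ψ '' ball (0 : En n) R) := by
    rw [Measure.le_iff]
    intro T hT
    rw [Measure.map_apply C.ME2_psi_meas hT, Measure.restrict_apply (C.ME2_psi_meas hT),
      Measure.smul_apply, Measure.restrict_apply hT, smul_eq_mul]
    set S := C.ME2_psi ⁻¹' T ∩ ball (0 : En n) R with hS
    have hSm : MeasurableSet S := (C.ME2_psi_meas hT).inter measurableSet_ball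
    refine ((hK S hSm (inter_subset_right.trans hBδ)).1).trans ?_
    gcongr
    rintro _ ⟨z, ⟨hz1, hz2⟩, rfl⟩
    refine ⟨?_, z, hz2, rfl⟩
    rw [← C.ME2_psi_eq (hBr hz2)]
    exact hz1
  refine ⟨K.toReal / (volume (ball (0 : En n) R)).toReal, by positivity, ?_⟩
  intro f hf x
  have hfc : Continuous f := C.hol_continuous hf
  have hgc : Continuous (fun y => ‖f (x * y)‖ ^ 2) := by fun_prop
  have h1 := smv_ball n (C.co f x) R δ hR0 hRδ
    ((C.hol_differentiableOn hf x).mono (ball_subset_ball hδr))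
  have h2 : C.co f x 0 = f x := by simp [co, C.map_zero]
  rw [h2] at h1
  have hcoc : ContinuousOn (fun z => ‖C.co f x z‖ ^ 2) (ball (0 : En n) R) := by
    have : ContinuousOn C.ψ (ball (0 : En n) R) := C.ψ.continuousOn.mono (hBr.trans C.ball_sub)
    exact hgc.comp_continuousOn this
  have hV : IntegrableOn (fun y => ‖f (x * y)‖ ^ 2) V μ := hgc.continuousOn.integrableOn_compact hVc
  have h3 : ∫ z in ball (0 : En n) R, ‖C.co f x z‖ ^ 2 ≤
      K.toReal * ∫ y in C.ψ '' ball (0 : En n) R, ‖f (x * y)‖ ^ 2 ∂μ := by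
    have hlt : ∫⁻ z in ball (0 : En n) R, ENNReal.ofReal (‖C.co f x z‖ ^ 2) ≤
        K * ∫⁻ y in C.ψ '' ball (0 : En n) R, ENNReal.ofReal (‖f (x * y)‖ ^ 2) ∂μ := by
      calc ∫⁻ z in ball (0 : En n) R, ENNReal.ofReal (‖C.co f x z‖ ^ 2)
          = ∫⁻ z in ball (0 : En n) R, ENNReal.ofReal (‖f (x * C.ME2_psi z)‖ ^ 2) := by
            apply setLIntegral_congr_fun measurableSet_ball
            intro z hz
            simp only [co]
            rw [C.ME2_psi_eq (hBr hz)]
        _ = ∫⁻ y, ENNReal.ofReal (‖f (x * y)‖ ^ 2)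
              ∂((volume.restrict (ball (0 : En n) R)).map C.ME2_psi) := by
            rw [lintegral_map (by fun_prop) C.ME2_psi_meas]
        _ ≤ ∫⁻ y, ENNReal.ofReal (‖f (x * y)‖ ^ 2)
              ∂(K • μ.restrict (C.ψ '' ball (0 : En n) R)) := lintegral_mono' hmeas le_rfl
        _ = _ := by rw [lintegral_smul_measure, smul_eq_mul]
    rw [integral_eq_lintegral_of_nonneg_ae (Eventually.of_forall fun _ => by positivity)
      (hcoc.aestronglyMeasurable measurableSet_ball),
      integral_eq_lintegral_of_nonneg_ae (Eventually.of_forall fun _ => by positivity)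
      hgc.aestronglyMeasurable, ← ENNReal.toReal_mul]
    apply ENNReal.toReal_mono _ hlt
    apply ENNReal.mul_ne_top hK1
    have h4 : IntegrableOn (fun y => ‖f (x * y)‖ ^ 2) (C.ψ '' ball (0 : En n) R) μ :=
      hV.mono_set hBV
    have h5 := h4.lintegral_lt_top
    exact h5.ne
  have h4 : ∫ y in C.ψ '' ball (0 : En n) R, ‖f (x * y)‖ ^ 2 ∂μ ≤
      ∫ y in V, ‖f (x * y)‖ ^ 2 ∂μ :=
    setIntegral_mono_set hV (Eventually.of_forall fun _ => by positivity)
      (Eventually.of_forall hBV)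
  rw [div_mul_eq_mul_div, le_div_iff₀ hv0]
  calc ‖f x‖ ^ 2 * (volume (ball (0 : En n) R)).toReal ≤ _ := h1
    _ ≤ _ := h3
    _ ≤ _ := by gcongr

end CLG

end HR
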