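import Pool.Agent.W_06f097_h43.Defs

/-! MP_06f097_an blueprint, block HB: linear algebra. -/

open scoped Topology ContDiff
open MeasureTheory Set Filter

noncomputable section

namespace HR

open Matrix in
private theorem hb1_adj {n : ℕ} (M : Matrix (Fin n) (Fin n) ℂ) (v w : Fin n → ℂ) :
    star (M *ᵥ v) ⬝ᵥ w = star v ⬝ᵥ (Mᴴ *ᵥ w) := by
  rw [star_mulVec, dotProduct_mulVec]

open Matrix in
private theorem hb1_self {n : ℕ} (v : Fin n → ℂ) :
    star v ⬝ᵥ v = ((∑ k, ‖v k‖ ^ 2 : ℝ) : ℂ) := by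
  rw [Complex.ofReal_sum, dotProduct]
  refine Finset.sum_congr rfl fun k _ => ?_
  rw [Pi.star_apply, Complex.ofReal_pow]
  exact Complex.conj_mul' (v k)

open Matrix in
private theorem hb1_pair {n : ℕ} (a b : Fin n → ℂ) :
    ∑ k, a k * (starRingEnd ℂ) (b k) = star b ⬝ᵥ a := by
  rw [dotProduct]
  refine Finset.sum_congr rfl fun k _ => ?_
  rw [Pi.star_apply, mul_comm]
  rfl

open Matrix in
private theorem hb1_quad {n : ℕ} (g : Fin n → Fin n → ℂ) (b : Fin n → ℂ) :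
    ∑ j, ∑ k, b j * (starRingEnd ℂ) (b k) * g j k =
      star b ⬝ᵥ ((Matrix.of fun k j => g j k) *ᵥ b) := by
  rw [Finset.sum_comm, dotProduct]
  refine Finset.sum_congr rfl fun k _ => ?_
  rw [mulVec, dotProduct, Finset.mul_sum]
  refine Finset.sum_congr rfl fun j _ => ?_
  rw [Pi.star_apply, Matrix.of_apply, starRingEnd_apply]
  ring

open Matrix in
private theorem hb1_diag {n : ℕ} (g : Fin n → Fin n → ℂ)
    (hherm : ∀ j k, g j k = (starRingEnd ℂ) (g k j)) :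
    ∃ (E : Matrix (Fin n) (Fin n) ℂ) (μ : Fin n → ℝ), Eᴴ * E = 1 ∧ E * Eᴴ = 1 ∧
      (Matrix.of fun k j => g j k) = E * diagonal (fun m => (μ m : ℂ)) * Eᴴ := by
  have hH : (Matrix.of fun k j => g j k).IsHermitian := by
    ext k j
    rw [conjTranspose_apply, Matrix.of_apply, Matrix.of_apply]
    exact (hherm j k).symm
  refine ⟨(hH.eigenvectorUnitary : Matrix (Fin n) (Fin n) ℂ), hH.eigenvalues, ?_, ?_, ?_⟩
  · exact mem_unitaryGroup_iff'.1 hH.eigenvectorUnitary.2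
  · exact mem_unitaryGroup_iff.1 hH.eigenvectorUnitary.2
  · have h := hH.spectral_theorem
    rw [Unitary.conjStarAlgAut_apply] at h
    exact h

open Matrix in
private theorem hb1_unit {n : ℕ} {E : Matrix (Fin n) (Fin n) ℂ} (hE : E * Eᴴ = 1)
    (v w : Fin n → ℂ) : star (Eᴴ *ᵥ v) ⬝ᵥ (Eᴴ *ᵥ w) = star v ⬝ᵥ w := by
  rw [hb1_adj, conjTranspose_conjTranspose, mulVec_mulVec, hE, one_mulVec]

open Matrix in
private theorem hb1_unit' {n : ℕ} {E : Matrix (Fin n) (Fin n) ℂ} (hE : E * Eᴴ = 1)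
    (v : Fin n → ℂ) : ∑ m, ‖(Eᴴ *ᵥ v) m‖ ^ 2 = ∑ m, ‖v m‖ ^ 2 := by
  have h := hb1_unit hE v v
  rw [hb1_self, hb1_self] at h
  exact_mod_cast h

open Matrix in
private theorem hb1_quad' {n : ℕ} {g : Fin n → Fin n → ℂ} {E : Matrix (Fin n) (Fin n) ℂ}
    {μ : Fin n → ℝ}
    (h : (Matrix.of fun k j => g j k) = E * diagonal (fun m => (μ m : ℂ)) * Eᴴ)
    (b : Fin n → ℂ) : (∑ j, ∑ k, b j * (starRingEnd ℂ) (b k) * g j k).re =
      ∑ m, μ m * ‖(Eᴴ *ᵥ b) m‖ ^ 2 := by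
  rw [hb1_quad, h, ← mulVec_mulVec, ← mulVec_mulVec]
  have h1 : star b ⬝ᵥ (E *ᵥ (diagonal (fun m => (μ m : ℂ)) *ᵥ (Eᴴ *ᵥ b)))
      = star (Eᴴ *ᵥ b) ⬝ᵥ (diagonal (fun m => (μ m : ℂ)) *ᵥ (Eᴴ *ᵥ b)) := by
    rw [hb1_adj, conjTranspose_conjTranspose]
  rw [h1, dotProduct, Complex.re_sum]
  refine Finset.sum_congr rfl fun m _ => ?_
  rw [mulVec_diagonal, Pi.star_apply]
  have h2 : star ((Eᴴ *ᵥ b) m) * ((μ m : ℂ) * (Eᴴ *ᵥ b) m)
      = (μ m : ℂ) * (star ((Eᴴ *ᵥ b) m) * (Eᴴ *ᵥ b) m) := by ring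
  have h3 : star ((Eᴴ *ᵥ b) m) * (Eᴴ *ᵥ b) m = ((‖(Eᴴ *ᵥ b) m‖ ^ 2 : ℝ) : ℂ) := by
    rw [Complex.ofReal_pow]
    exact Complex.conj_mul' _
  rw [h2, h3, ← Complex.ofReal_mul, Complex.ofReal_re]

open Matrix in
private theorem hb1_single {n : ℕ} {E : Matrix (Fin n) (Fin n) ℂ} (hE : Eᴴ * E = 1)
    (m : Fin n) : Eᴴ *ᵥ (E *ᵥ Pi.single m 1) = Pi.single m 1 := by
  rw [mulVec_mulVec, hE, one_mulVec]

private theorem hb1_cs {ι : Type*} (s : Finset ι) (x y : ι → ℂ) :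
    ‖∑ i ∈ s, x i * y i‖ ^ 2 ≤ (∑ i ∈ s, ‖x i‖ ^ 2) * ∑ i ∈ s, ‖y i‖ ^ 2 := by
  have h1 : ‖∑ i ∈ s, x i * y i‖ ≤ ∑ i ∈ s, ‖x i‖ * ‖y i‖ :=
    (norm_sum_le _ _).trans (Finset.sum_le_sum fun i _ => (norm_mul _ _).le)
  calc ‖∑ i ∈ s, x i * y i‖ ^ 2 ≤ (∑ i ∈ s, ‖x i‖ * ‖y i‖) ^ 2 := by gcongr
    _ ≤ _ := Finset.sum_mul_sq_le_sq_mul_sq s (fun i => ‖x i‖) (fun i => ‖y i‖)

private theorem hb1_two (x y : ℂ) : ‖x + y‖ ^ 2 ≤ 2 * ‖x‖ ^ 2 + 2 * ‖y‖ ^ 2 := by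
  have h1 : ‖x + y‖ ≤ ‖x‖ + ‖y‖ := norm_add_le _ _
  have h2 : ‖x + y‖ ^ 2 ≤ (‖x‖ + ‖y‖) ^ 2 := by gcongr
  nlinarith [sq_nonneg (‖x‖ - ‖y‖)]

private theorem hb1_re (x y : ℂ) : -(1 / 4 * ‖x - y‖ ^ 2) ≤ (x * (starRingEnd ℂ) y).re := by
  rw [← Complex.normSq_eq_norm_sq, Complex.normSq_apply, Complex.mul_re, Complex.conj_re,
    Complex.conj_im, Complex.sub_re, Complex.sub_im]
  nlinarith [sq_nonneg (x.re + y.re), sq_nonneg (x.im + y.im)]

/-- Frobenius norm of `U * M` when `U` contracts -/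
private theorem hb1_frob {n : ℕ} {U : Matrix (Fin n) (Fin n) ℂ} {c : ℝ} (hc : 0 ≤ c)
    (hU : ∀ v : Fin n → ℂ, ∑ m, ‖(U.mulVec v) m‖ ^ 2 ≤ c * ∑ m, ‖v m‖ ^ 2)
    (M : Matrix (Fin n) (Fin n) ℂ) :
    ∑ k, ∑ l, ‖(U * M * U.transpose) k l‖ ^ 2 ≤ c ^ 2 * ∑ k, ∑ l, ‖M k l‖ ^ 2 := by
  have h1 : ∀ N : Matrix (Fin n) (Fin n) ℂ, ∑ k, ∑ l, ‖(N * U.transpose) k l‖ ^ 2 ≤
      c * ∑ k, ∑ l, ‖N k l‖ ^ 2 := by
    intro N
    rw [Finset.mul_sum]
    refine Finset.sum_le_sum fun k _ => ?_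
    have := hU (fun m => N k m)
    refine le_trans (le_of_eq ?_) this
    refine Finset.sum_congr rfl fun l _ => ?_
    congr 2
    rw [Matrix.mul_apply, Matrix.mulVec, dotProduct]
    exact Finset.sum_congr rfl fun m _ => by rw [Matrix.transpose_apply, mul_comm]
  have h2 : ∀ N : Matrix (Fin n) (Fin n) ℂ, ∑ k, ∑ l, ‖(U * N) k l‖ ^ 2 ≤
      c * ∑ k, ∑ l, ‖N k l‖ ^ 2 := by
    intro N
    rw [Finset.sum_comm, Finset.sum_comm (f := fun k l => ‖N k l‖ ^ 2), Finset.mul_sum]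
    refine Finset.sum_le_sum fun l _ => ?_
    exact hU (fun m => N m l)
  calc ∑ k, ∑ l, ‖(U * M * U.transpose) k l‖ ^ 2
      ≤ c * ∑ k, ∑ l, ‖(U * M) k l‖ ^ 2 := h1 _
    _ ≤ c * (c * ∑ k, ∑ l, ‖M k l‖ ^ 2) := mul_le_mul_of_nonneg_left (h2 M) hc
    _ = c ^ 2 * ∑ k, ∑ l, ‖M k l‖ ^ 2 := by ring

/-- Let `B k l = Σ_j g j k * A j l`, so `A = (gᵀ)⁻¹ B`. The sum `S = Σ A j k conj (A k j)` equals
`tr (P B Q conj(B))` with `P = (gᵀ)⁻¹`, `Q = g⁻¹`. Writing `B = Bs + Ba` (symmetric plus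
antisymmetric part), `conj Bs = Bs*`, `conj Ba = - Ba*`, the mixed terms cancel (transpose), so
`S = |Bs|² - |Ba|²` with `|B|² = tr (P B Q B*) ≥ 0`. Here `Ba = (a dᵀ - d aᵀ + E) / 2`,
`|a dᵀ|² = (aᵀ g⁻¹ conj a)(dᵀ g⁻¹ conj d) ≤ κ₁ κ₂` and `|E|² ≤ λ⁻² Σ |E k l|²`.
(Alternatively: choose a basis of `En n` orthonormal for the form `g` and compute in it.) -/
theorem mat_lower {n : ℕ} (g : Fin n → Fin n → ℂ) (lam κ₁ κ₂ : ℝ) (hlam : 0 < lam)
    (hκ₁ : 0 ≤ κ₁) (hκ₂ : 0 ≤ κ₂) (hherm : ∀ j k, g j k = (starRingEnd ℂ) (g k j))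
    (hpos : ∀ b : En n, lam * ∑ j, ‖b j‖ ^ 2 ≤
      (∑ j, ∑ k, b j * (starRingEnd ℂ) (b k) * g j k).re)
    (A : Fin n → Fin n → ℂ) (a d : En n) (E : Fin n → Fin n → ℂ)
    (ha : ∀ b : En n, ‖∑ k, a k * (starRingEnd ℂ) (b k)‖ ^ 2 ≤
      κ₁ * (∑ j, ∑ k, b j * (starRingEnd ℂ) (b k) * g j k).re)
    (hd : ∀ b : En n, ‖∑ k, d k * (starRingEnd ℂ) (b k)‖ ^ 2 ≤
      κ₂ * (∑ j, ∑ k, b j * (starRingEnd ℂ) (b k) * g j k).re)
    (hB : ∀ k l, (∑ j, g j k * A j l) - (∑ j, g j l * A j k) =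
      a k * d l - a l * d k + E k l) :
    -(2 * κ₁ * κ₂ + 1 / lam ^ 2 * ∑ k, ∑ l, ‖E k l‖ ^ 2) ≤
      (∑ j, ∑ k, A j k * (starRingEnd ℂ) (A k j)).re := by
  classical
  obtain ⟨E', μ, hE1, hE2, hH⟩ := hb1_diag g hherm
  have hμ : ∀ m, lam ≤ μ m := by
    intro m
    have h := hpos (E'.mulVec (Pi.single m 1))
    rw [hb1_quad' hH, ← hb1_unit' hE2, hb1_single hE1] at h
    have e1 : ∑ j, ‖(Pi.single m (1 : ℂ) : Fin n → ℂ) j‖ ^ 2 = 1 := by
      rw [Finset.sum_eq_single m]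
      · simp
      · intro j _ hj; simp [Pi.single_eq_of_ne hj]
      · simp
    have e2 : ∑ j, μ j * ‖(Pi.single m (1 : ℂ) : Fin n → ℂ) j‖ ^ 2 = μ m := by
      rw [Finset.sum_eq_single m]
      · simp
      · intro j _ hj; simp [Pi.single_eq_of_ne hj]
      · simp
    rw [e1, e2, mul_one] at h
    exact h
  have hμ0 : ∀ m, 0 < μ m := fun m => lt_of_lt_of_le hlam (hμ m)
  set s : Fin n → ℂ := fun m => ((Real.sqrt (μ m) : ℝ) : ℂ) with hs
  have hs0 : ∀ m, s m ≠ 0 := fun m => by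
    rw [hs]
    simp only [ne_eq]
    exact_mod_cast (Real.sqrt_pos.2 (hμ0 m)).ne'
  have hss : ∀ m, s m * s m = (μ m : ℂ) := fun m => by
    rw [hs]
    simp only
    rw [← Complex.ofReal_mul, Real.mul_self_sqrt (hμ0 m).le]
  have hstar : ∀ m, star (s m) = s m := fun m => Complex.conj_ofReal _
  set U : Matrix (Fin n) (Fin n) ℂ := Matrix.diagonal (fun m => (s m)⁻¹) * E'.conjTranspose with hU
  set W : Matrix (Fin n) (Fin n) ℂ := Matrix.diagonal s * E'.conjTranspose with hW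
  have hUc : U.conjTranspose = E' * Matrix.diagonal (fun m => (s m)⁻¹) := by
    rw [hU, Matrix.conjTranspose_mul, Matrix.conjTranspose_conjTranspose,
      Matrix.diagonal_conjTranspose]
    congr 2
    funext m
    rw [Pi.star_apply, star_inv₀, hstar]
  have hWc : W.conjTranspose = E' * Matrix.diagonal s := by
    rw [hW, Matrix.conjTranspose_mul, Matrix.conjTranspose_conjTranspose,
      Matrix.diagonal_conjTranspose]
    congr 2
    funext m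
    rw [Pi.star_apply, hstar]
  have hd1 : Matrix.diagonal (fun m => (s m)⁻¹) * Matrix.diagonal s = 1 := by
    rw [Matrix.diagonal_mul_diagonal, ← Matrix.diagonal_one]
    congr 1
    funext m
    exact inv_mul_cancel₀ (hs0 m)
  have hd2 : Matrix.diagonal s * Matrix.diagonal (fun m => (s m)⁻¹) = 1 := by
    rw [Matrix.diagonal_mul_diagonal, ← Matrix.diagonal_one]
    congr 1
    funext m
    exact mul_inv_cancel₀ (hs0 m)
  have hUW : U.conjTranspose * W = 1 := by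
    rw [hUc, hW, Matrix.mul_assoc, ← Matrix.mul_assoc (Matrix.diagonal _), hd1, Matrix.one_mul,
      hE2]
  have hWU : W.conjTranspose * U = 1 := by
    rw [hWc, hU, Matrix.mul_assoc, ← Matrix.mul_assoc (Matrix.diagonal _), hd2, Matrix.one_mul,
      hE2]
  -- the Hermitian matrix
  set H : Matrix (Fin n) (Fin n) ℂ := Matrix.of fun k j => g j k with hHd
  have hUH : U * H = W := by
    rw [hH, hU, hW]
    have : Matrix.diagonal (fun m => (s m)⁻¹) * Matrix.diagonal (fun m => (μ m : ℂ))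
        = Matrix.diagonal s := by
      rw [Matrix.diagonal_mul_diagonal]
      congr 1
      funext m
      rw [← hss m, ← mul_assoc, inv_mul_cancel₀ (hs0 m), one_mul]
    calc Matrix.diagonal (fun m => (s m)⁻¹) * E'.conjTranspose *
          (E' * Matrix.diagonal (fun m => (μ m : ℂ)) * E'.conjTranspose)
        = Matrix.diagonal (fun m => (s m)⁻¹) * ((E'.conjTranspose * E') *
          Matrix.diagonal (fun m => (μ m : ℂ)) * E'.conjTranspose) := by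
          simp only [Matrix.mul_assoc]
      _ = Matrix.diagonal s * E'.conjTranspose := by
          rw [hE1, Matrix.one_mul, ← Matrix.mul_assoc, this]
  have hUHU : U * H * U.conjTranspose = 1 := by
    rw [hUH]
    exact mul_eq_one_comm.1 hUW
  -- contraction
  have hUn : ∀ v : Fin n → ℂ, ∑ m, ‖(U.mulVec v) m‖ ^ 2 ≤ 1 / lam * ∑ m, ‖v m‖ ^ 2 := by
    intro v
    rw [← hb1_unit' hE2 v, Finset.mul_sum]
    refine Finset.sum_le_sum fun m _ => ?_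
    rw [hU, ← Matrix.mulVec_mulVec, Matrix.mulVec_diagonal, norm_mul, mul_pow]
    refine mul_le_mul_of_nonneg_right ?_ (sq_nonneg _)
    rw [norm_inv, hs]
    simp only
    rw [Complex.norm_real, Real.norm_of_nonneg (Real.sqrt_nonneg _), inv_pow,
      Real.sq_sqrt (hμ0 m).le, one_div]
    exact inv_anti₀ hlam (hμ m)
  -- the vectors
  have hvec : ∀ (c : En n) (κ : ℝ), 0 ≤ κ → (∀ b : En n, ‖∑ k, c k * (starRingEnd ℂ) (b k)‖ ^ 2 ≤
      κ * (∑ j, ∑ k, b j * (starRingEnd ℂ) (b k) * g j k).re) →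
      ∑ m, ‖(U.mulVec c) m‖ ^ 2 ≤ κ := by
    intro c κ hκ hc
    have q1 : ∀ y : Fin n → ℂ, star (U.conjTranspose.mulVec y) ⬝ᵥ c = star y ⬝ᵥ U.mulVec c := by
      intro y
      rw [hb1_adj U.conjTranspose y c, Matrix.conjTranspose_conjTranspose]
    have q2 : ∀ y : Fin n → ℂ, star (U.conjTranspose.mulVec y) ⬝ᵥ
        (H.mulVec (U.conjTranspose.mulVec y)) = star y ⬝ᵥ y := by
      intro y
      rw [hb1_adj U.conjTranspose y, Matrix.conjTranspose_conjTranspose,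
        Matrix.mulVec_mulVec y H, Matrix.mulVec_mulVec y U, ← Matrix.mul_assoc, hUHU,
        Matrix.one_mulVec]
    have h := hc (U.conjTranspose.mulVec (U.mulVec c))
    rw [hb1_pair, hb1_quad, ← hHd, q1, q2, hb1_self, Complex.norm_real, Complex.ofReal_re] at h
    set t : ℝ := ∑ m, ‖(U.mulVec c) m‖ ^ 2 with ht
    have t0 : 0 ≤ t := Finset.sum_nonneg fun _ _ => sq_nonneg _
    rw [Real.norm_of_nonneg t0] at h
    rcases eq_or_lt_of_le t0 with h0 | h0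
    · rw [← h0]; exact hκ
    · by_contra hlt
      rw [not_le] at hlt
      nlinarith
  have ha' := hvec a κ₁ hκ₁ ha
  have hd' := hvec d κ₂ hκ₂ hd
  set a' : Fin n → ℂ := U.mulVec a with ha'd
  set d' : Fin n → ℂ := U.mulVec d with hd'd
  set Am : Matrix (Fin n) (Fin n) ℂ := Matrix.of A with hAm
  set B : Matrix (Fin n) (Fin n) ℂ := H * Am with hBm
  set Cm : Matrix (Fin n) (Fin n) ℂ := U * B * U.transpose with hCm
  have hBapp : ∀ k l, B k l = ∑ j, g j k * A j l := by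
    intro k l
    rw [hBm, Matrix.mul_apply]
    rfl
  set Em : Matrix (Fin n) (Fin n) ℂ := Matrix.of E with hEm
  have hBd : B - B.transpose = Matrix.vecMulVec a d - Matrix.vecMulVec d a + Em := by
    ext k l
    rw [Matrix.sub_apply, Matrix.transpose_apply, hBapp, hBapp, hB k l, Matrix.add_apply,
      Matrix.sub_apply, Matrix.vecMulVec_apply, Matrix.vecMulVec_apply, hEm, Matrix.of_apply]
    ring
  have hCd : Cm - Cm.transpose = Matrix.vecMulVec a' d' - Matrix.vecMulVec d' a' +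
      U * Em * U.transpose := by
    have h1 : Cm.transpose = U * B.transpose * U.transpose := by
      rw [hCm, Matrix.transpose_mul (U * B) U.transpose, Matrix.transpose_mul U B,
        Matrix.transpose_transpose, ← Matrix.mul_assoc]
    have h2 : ∀ x y : Fin n → ℂ, U * Matrix.vecMulVec x y * U.transpose =
        Matrix.vecMulVec (U.mulVec x) (U.mulVec y) := by
      intro x y
      rw [Matrix.mul_vecMulVec, Matrix.vecMulVec_mul, Matrix.vecMul_transpose]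
    rw [h1, hCm, ← Matrix.sub_mul, ← Matrix.mul_sub, hBd, Matrix.mul_add, Matrix.mul_sub,
      Matrix.add_mul, Matrix.sub_mul, h2, h2]
  -- the trace
  have hS : ∑ j, ∑ k, A j k * (starRingEnd ℂ) (A k j) =
      ∑ j, ∑ k, Cm j k * (starRingEnd ℂ) (Cm k j) := by
    have htr : ∀ M : Matrix (Fin n) (Fin n) ℂ, ∑ j, ∑ k, M j k * (starRingEnd ℂ) (M k j) =
        Matrix.trace (M * M.map (starRingEnd ℂ)) := by
      intro M
      rw [Matrix.trace]
      refine Finset.sum_congr rfl fun j _ => ?_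
      rw [Matrix.diag_apply, Matrix.mul_apply]
      rfl
    have hC1 : Cm = W * Am * U.transpose := by
      rw [hCm, hBm, ← Matrix.mul_assoc U, hUH]
    have hC2 : Cm.map (starRingEnd ℂ) = (W.map (starRingEnd ℂ)) * (Am.map (starRingEnd ℂ)) *
        U.conjTranspose := by
      rw [hC1, Matrix.map_mul, Matrix.map_mul]
      rfl
    have h3 : U.transpose * W.map (starRingEnd ℂ) = 1 := by
      have := congrArg Matrix.transpose hWU
      rw [Matrix.transpose_mul, Matrix.transpose_one] at this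
      exact this
    have h4 : U.conjTranspose * W = 1 := hUW
    have hA : ∑ j, ∑ k, A j k * (starRingEnd ℂ) (A k j) =
        Matrix.trace (Am * Am.map (starRingEnd ℂ)) := htr Am
    rw [hA, htr, hC2]
    have h5 : Cm * (W.map (starRingEnd ℂ) * Am.map (starRingEnd ℂ) * U.conjTranspose) =
        W * ((Am * Am.map (starRingEnd ℂ)) * U.conjTranspose) := by
      rw [hC1]
      calc W * Am * U.transpose * (W.map (starRingEnd ℂ) * Am.map (starRingEnd ℂ) *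
            U.conjTranspose)
          = W * Am * ((U.transpose * W.map (starRingEnd ℂ)) * Am.map (starRingEnd ℂ)) *
            U.conjTranspose := by simp only [Matrix.mul_assoc]
        _ = W * ((Am * Am.map (starRingEnd ℂ)) * U.conjTranspose) := by
            rw [h3, Matrix.one_mul]; simp only [Matrix.mul_assoc]
    rw [h5, Matrix.trace_mul_comm W, Matrix.mul_assoc, h4, Matrix.mul_one]
  rw [hS, Complex.re_sum]
  simp_rw [Complex.re_sum]
  have hlow : ∑ j, ∑ k, -(1 / 4 * ‖Cm j k - Cm k j‖ ^ 2) ≤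
      ∑ j, ∑ k, (Cm j k * (starRingEnd ℂ) (Cm k j)).re :=
    Finset.sum_le_sum fun j _ => Finset.sum_le_sum fun k _ => hb1_re _ _
  refine le_trans ?_ hlow
  -- upper bound of the antisymmetric part
  set F : Matrix (Fin n) (Fin n) ℂ := U * Em * U.transpose with hF
  have hFn : ∑ k, ∑ l, ‖F k l‖ ^ 2 ≤ (1 / lam) ^ 2 * ∑ k, ∑ l, ‖E k l‖ ^ 2 := by
    have := hb1_frob (U := U) (c := 1 / lam) (by positivity) hUn Em
    exact this
  have hent : ∀ j k, ‖Cm j k - Cm k j‖ ^ 2 ≤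
      4 * (‖a' j‖ ^ 2 * ‖d' k‖ ^ 2) + 4 * (‖d' j‖ ^ 2 * ‖a' k‖ ^ 2) + 2 * ‖F j k‖ ^ 2 := by
    intro j k
    have h1 : Cm j k - Cm k j = (a' j * d' k + -(d' j * a' k)) + F j k := by
      have := congrFun (congrFun hCd j) k
      rw [Matrix.sub_apply, Matrix.transpose_apply, Matrix.add_apply, Matrix.sub_apply,
        Matrix.vecMulVec_apply, Matrix.vecMulVec_apply] at this
      rw [this]; ring
    rw [h1]
    have h2 := hb1_two (a' j * d' k + -(d' j * a' k)) (F j k)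
    have h3 := hb1_two (a' j * d' k) (-(d' j * a' k))
    rw [norm_neg, norm_mul, norm_mul, mul_pow, mul_pow] at h3
    linarith
  have hsum : ∑ j, ∑ k, ‖Cm j k - Cm k j‖ ^ 2 ≤ 8 * (κ₁ * κ₂) +
      2 * ((1 / lam) ^ 2 * ∑ k, ∑ l, ‖E k l‖ ^ 2) := by
    have h1 : ∑ j, ∑ k, ‖Cm j k - Cm k j‖ ^ 2 ≤ ∑ j, ∑ k,
        (4 * (‖a' j‖ ^ 2 * ‖d' k‖ ^ 2) + 4 * (‖d' j‖ ^ 2 * ‖a' k‖ ^ 2) + 2 * ‖F j k‖ ^ 2) :=
      Finset.sum_le_sum fun j _ => Finset.sum_le_sum fun k _ => hent j k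
    have h2 : ∑ j, ∑ k,
        (4 * (‖a' j‖ ^ 2 * ‖d' k‖ ^ 2) + 4 * (‖d' j‖ ^ 2 * ‖a' k‖ ^ 2) + 2 * ‖F j k‖ ^ 2) =
        4 * ((∑ j, ‖a' j‖ ^ 2) * ∑ k, ‖d' k‖ ^ 2) + 4 * ((∑ j, ‖d' j‖ ^ 2) * ∑ k, ‖a' k‖ ^ 2)
          + 2 * ∑ j, ∑ k, ‖F j k‖ ^ 2 := by
      simp only [Finset.sum_add_distrib, ← Finset.mul_sum, ← Finset.sum_mul]
    rw [h2] at h1
    have a0 : 0 ≤ ∑ j, ‖a' j‖ ^ 2 := Finset.sum_nonneg fun _ _ => sq_nonneg _
    have d0 : 0 ≤ ∑ j, ‖d' j‖ ^ 2 := Finset.sum_nonneg fun _ _ => sq_nonneg _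
    have h3 : (∑ j, ‖a' j‖ ^ 2) * ∑ k, ‖d' k‖ ^ 2 ≤ κ₁ * κ₂ := mul_le_mul ha' hd' d0 hκ₁
    have h4 : (∑ j, ‖d' j‖ ^ 2) * ∑ k, ‖a' k‖ ^ 2 ≤ κ₁ * κ₂ := by
      rw [mul_comm]; exact h3
    linarith
  have hneg : ∑ j, ∑ k, -(1 / 4 * ‖Cm j k - Cm k j‖ ^ 2) =
      -(1 / 4 * ∑ j, ∑ k, ‖Cm j k - Cm k j‖ ^ 2) := by
    simp only [Finset.sum_neg_distrib, Finset.mul_sum]
  rw [hneg]
  have hE0 : 0 ≤ (1 / lam) ^ 2 * ∑ k, ∑ l, ‖E k l‖ ^ 2 :=
    mul_nonneg (sq_nonneg _) (Finset.sum_nonneg fun _ _ => Finset.sum_nonneg fun _ _ =>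
      sq_nonneg _)
  have e1 : 1 / lam ^ 2 = (1 / lam) ^ 2 := by rw [div_pow, one_pow]
  rw [e1]
  linarith

/-- Inequality of Skoda (trace argument). `Λ` Hermitian positive semidefinite,
`Σ_i |<a_i, b>|² = q Λ(b, b)` for all `b`. Proof: in an orthonormal basis diagonalising `Λ`
(eigenvalues `λ_m`) the coordinates satisfy `Σ_i |a_{im}|² = q λ_m`; Cauchy-Schwarz in `i` and then
in `m` (`n` terms). -/
theorem skoda_ineq {N n : ℕ} (Λ : Fin n → Fin n → ℂ) (hherm : ∀ j k, Λ j k = (starRingEnd ℂ) (Λ k j))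
    (hpsd : ∀ b : En n, 0 ≤ (∑ j, ∑ k, b j * (starRingEnd ℂ) (b k) * Λ j k).re)
    (a : Fin N → En n) (q : ℝ) (hq : 0 ≤ q)
    (ha : ∀ b : En n, ∑ i, ‖∑ k, a i k * (starRingEnd ℂ) (b k)‖ ^ 2 =
      q * (∑ j, ∑ k, b j * (starRingEnd ℂ) (b k) * Λ j k).re) (b : Fin N → En n) :
    ‖∑ i, ∑ k, a i k * (starRingEnd ℂ) (b i k)‖ ^ 2 ≤
      n * q * ∑ i, (∑ j, ∑ k, b i j * (starRingEnd ℂ) (b i k) * Λ j k).re := by
  classical
  obtain ⟨E, μ, hE1, hE2, hH⟩ := hb1_diag Λ hherm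
  have e1 : ∀ m (f : Fin n → ℝ), ∑ j, f j * ‖(Pi.single m (1 : ℂ) : Fin n → ℂ) j‖ ^ 2 = f m := by
    intro m f
    rw [Finset.sum_eq_single m]
    · simp
    · intro j _ hj; simp [Pi.single_eq_of_ne hj]
    · simp
  have hμ : ∀ m, 0 ≤ μ m := by
    intro m
    have h := hpsd (E.mulVec (Pi.single m 1))
    rw [hb1_quad' hH, hb1_single hE1, e1] at h
    exact h
  have hcol : ∀ m, ∑ i, ‖(E.conjTranspose.mulVec (a i)) m‖ ^ 2 = q * μ m := by
    intro m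
    have h := ha (E.mulVec (Pi.single m 1))
    rw [hb1_quad' hH, hb1_single hE1, e1] at h
    rw [← h]
    refine Finset.sum_congr rfl fun i _ => ?_
    rw [hb1_pair, hb1_adj]
    congr 2
    rw [dotProduct, Finset.sum_eq_single m]
    · simp
    · intro j _ hj; simp [Pi.single_eq_of_ne hj]
    · simp
  have hpair : ∀ i, ∑ k, a i k * (starRingEnd ℂ) (b i k) =
      ∑ m, star ((E.conjTranspose.mulVec (b i)) m) * (E.conjTranspose.mulVec (a i)) m := by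
    intro i
    rw [hb1_pair, ← hb1_unit hE2, dotProduct]
    rfl
  simp_rw [hpair]
  rw [Finset.sum_comm]
  set x : Fin n → ℂ := fun m =>
    ∑ i, star ((E.conjTranspose.mulVec (b i)) m) * (E.conjTranspose.mulVec (a i)) m with hx
  have h1 : ‖∑ m, x m‖ ^ 2 ≤ n * ∑ m, ‖x m‖ ^ 2 := by
    have := hb1_cs (Finset.univ : Finset (Fin n)) (fun _ => 1) x
    simpa using this
  have h2 : ∀ m, ‖x m‖ ^ 2 ≤ (∑ i, ‖(E.conjTranspose.mulVec (b i)) m‖ ^ 2) * (q * μ m) := by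
    intro m
    rw [← hcol m, hx]
    have := hb1_cs (Finset.univ : Finset (Fin N))
      (fun i => star ((E.conjTranspose.mulVec (b i)) m))
      (fun i => (E.conjTranspose.mulVec (a i)) m)
    simpa using this
  calc ‖∑ m, x m‖ ^ 2 ≤ n * ∑ m, ‖x m‖ ^ 2 := h1
    _ ≤ n * ∑ m, (∑ i, ‖(E.conjTranspose.mulVec (b i)) m‖ ^ 2) * (q * μ m) := by
        gcongr with m _
        exact h2 m
    _ = n * q * ∑ i, (∑ j, ∑ k, b i j * (starRingEnd ℂ) (b i k) * Λ j k).re := by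
        simp_rw [hb1_quad' hH]
        rw [mul_assoc]
        congr 1
        rw [Finset.sum_comm, Finset.mul_sum]
        refine Finset.sum_congr rfl fun m _ => ?_
        rw [Finset.sum_mul, Finset.mul_sum]
        exact Finset.sum_congr rfl fun i _ => by ring

end HR
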