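import Pool.Agent.W_06f097_h43.HB3

/-! MP_06f097_an blueprint, block HB: cutoff functions with small gradient in the complete metric
of the potential `s + s² + φ`. -/

open scoped Topology ContDiff
open MeasureTheory Set Filter Metric

noncomputable section

namespace HR

namespace CLG

variable {n : ℕ} {G : Type*} [Group G] [TopologicalSpace G] [IsTopologicalGroup G] (C : CLG n G)

theorem HB4_sm_sq {s : G → ℝ} (hs : C.Sm s) : C.Sm (fun y => s y ^ 2) := fun x => (hs x).pow 2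

theorem pot_sm {s φ : G → ℝ} (hs : C.Kah s) (hφ : C.Psh φ) :
    C.Sm (fun y => s y + s y ^ 2 + φ y) := by
  have h1 : C.Sm s := C.sm_ofReal.1 hs.sm
  have h2 : C.Sm φ := C.sm_ofReal.1 hφ.1
  exact C.sm_add (C.sm_add h1 (C.HB4_sm_sq h1)) h2

theorem HB4_eq {s φ : G → ℝ} (hs : C.Kah s) (hφ : C.Psh φ) (x : G) (b : En n) :
    C.Lv (fun y => s y + s y ^ 2 + φ y) x b = C.Lv s x b + (2 * s x * C.Lv s x b +
      2 * ‖∑ j, b j * C.X j (fun y => (s y : ℂ)) x‖ ^ 2) + C.Lv φ x b := by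
  have h1 : C.Sm s := C.sm_ofReal.1 hs.sm
  have h2 : C.Sm φ := C.sm_ofReal.1 hφ.1
  rw [C.Lv_add (C.sm_add h1 (C.HB4_sm_sq h1)) h2, C.Lv_add h1 (C.HB4_sm_sq h1), C.Lv_sq h1]

theorem HB4_Lv_nonneg {s : G → ℝ} (hs : C.Kah s) (x : G) (b : En n) : 0 ≤ C.Lv s x b := by
  by_cases hb : b = 0
  · subst hb
    unfold Lv
    simp
  · exact (hs.pos x b hb).le

theorem pot_pos {s φ : G → ℝ} (hs : C.Kah s) (hφ : C.Psh φ) (x : G) (b : En n) (hb : b ≠ 0) :
    0 < C.Lv (fun y => s y + s y ^ 2 + φ y) x b := by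
  rw [C.HB4_eq hs hφ]
  have h1 := hs.pos x b hb
  have h2 := hφ.2 x b
  have h3 := mul_nonneg (hs.nonneg x) h1.le
  have h4 := sq_nonneg ‖∑ j, b j * C.X j (fun y => (s y : ℂ)) x‖
  linarith

theorem pot_ge {s φ : G → ℝ} (hs : C.Kah s) (hφ : C.Psh φ) (x : G) (b : En n) :
    C.Lv φ x b ≤ C.Lv (fun y => s y + s y ^ 2 + φ y) x b ∧
    2 * ‖∑ j, b j * C.X j (fun y => (s y : ℂ)) x‖ ^ 2 ≤
      C.Lv (fun y => s y + s y ^ 2 + φ y) x b := by
  rw [C.HB4_eq hs hφ]
  have h1 := C.HB4_Lv_nonneg hs x b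
  have h2 := hφ.2 x b
  have h3 := mul_nonneg (hs.nonneg x) h1
  have h4 := sq_nonneg ‖∑ j, b j * C.X j (fun y => (s y : ℂ)) x‖
  constructor <;> linarith

theorem HB4_bound : ∃ B : ℝ, 0 < B ∧ ∀ t, |deriv Real.smoothTransition t| ≤ B := by
  have hc : Continuous (deriv Real.smoothTransition) :=
    (Real.smoothTransition.contDiff (n := 1)).continuous_deriv le_rfl
  obtain ⟨B, hB⟩ := (isCompact_Icc (a := (0 : ℝ)) (b := 1)).exists_bound_of_continuousOn
    hc.continuousOn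
  refine ⟨|B| + 1, by positivity, fun t => ?_⟩
  by_cases ht : t ∈ Icc (0 : ℝ) 1
  · have h1 := hB t ht
    rw [Real.norm_eq_abs] at h1
    have h2 := le_abs_self B
    linarith
  · have h0 : deriv Real.smoothTransition t = 0 := by
      rcases lt_or_ge t 0 with h | h
      · have h1 : Real.smoothTransition =ᶠ[𝓝 t] fun _ => 0 := by
          filter_upwards [Iio_mem_nhds h] with y hy
          exact Real.smoothTransition.zero_of_nonpos (le_of_lt hy)
        rw [h1.deriv_eq, deriv_const]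
      · have h2 : 1 < t := by
          by_contra h3
          exact ht ⟨h, not_lt.1 h3⟩
        have h1 : Real.smoothTransition =ᶠ[𝓝 t] fun _ => 1 := by
          filter_upwards [Ioi_mem_nhds h2] with y hy
          exact Real.smoothTransition.one_of_one_le (le_of_lt hy)
        rw [h1.deriv_eq, deriv_const]
    rw [h0, abs_zero]
    positivity

/-- the cutoff profile `u (s / R)` -/
theorem HB4_profile {s : G → ℝ} (hsm : C.Sm s) {B : ℝ}
    (hB' : ∀ t, |deriv Real.smoothTransition t| ≤ B) {R : ℝ} (hR0 : 0 < R) :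
    C.Sm (fun x => Real.smoothTransition (2 - s x / R)) ∧ ∀ x (b : En n),
      ‖∑ k, C.Xb k (fun y => ((Real.smoothTransition (2 - s y / R) : ℝ) : ℂ)) x *
        (starRingEnd ℂ) (b k)‖ ^ 2 ≤
      B ^ 2 / R ^ 2 * ‖∑ k, b k * C.X k (fun y => (s y : ℂ)) x‖ ^ 2 := by
  let u : ℝ → ℝ := fun t => Real.smoothTransition (2 - t / R)
  have hu : ContDiff ℝ ∞ u :=
    Real.smoothTransition.contDiff.comp (contDiff_const.sub (contDiff_id.div_const R))
  have hud : ∀ t, HasDerivAt u (deriv Real.smoothTransition (2 - t / R) * (-(1 / R))) t := by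
    intro t
    have h1 : HasDerivAt (fun t : ℝ => 2 - t / R) (-(1 / R)) t := by
      simpa using ((hasDerivAt_id t).div_const R).const_sub 2
    have h2 : DifferentiableAt ℝ Real.smoothTransition (2 - t / R) :=
      (Real.smoothTransition.contDiff (n := 1)).differentiable (by simp) _
    exact h2.hasDerivAt.comp t h1
  have hs1 : C.Sm (fun x => u (s x)) := C.sm_comp hsm fun x => hu.contDiffAt
  refine ⟨hs1, ?_⟩
  intro x b
  have hXb : ∀ k, C.Xb k (fun y => ((u (s y) : ℝ) : ℂ)) x =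
      ((deriv u (s x) : ℝ) : ℂ) * (starRingEnd ℂ) (C.X k (fun y => (s y : ℂ)) x) := by
    intro k
    rw [C.Xb_comp hsm (hud (s x)).differentiableAt, ← C.Xb_conj]
    simp only [Complex.conj_ofReal]
  have hsum : ∑ k, C.Xb k (fun y => ((u (s y) : ℝ) : ℂ)) x * (starRingEnd ℂ) (b k) =
      ((deriv u (s x) : ℝ) : ℂ) *
        (starRingEnd ℂ) (∑ k, b k * C.X k (fun y => (s y : ℂ)) x) := by
    rw [map_sum, Finset.mul_sum]
    refine Finset.sum_congr rfl fun k _ => ?_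
    rw [hXb, map_mul]
    ring
  have h0 : ‖∑ k, C.Xb k (fun y => ((u (s y) : ℝ) : ℂ)) x * (starRingEnd ℂ) (b k)‖ ^ 2 ≤
      B ^ 2 / R ^ 2 * ‖∑ k, b k * C.X k (fun y => (s y : ℂ)) x‖ ^ 2 := by
    rw [hsum, norm_mul, mul_pow, Complex.norm_real, RCLike.norm_conj, (hud (s x)).deriv,
      Real.norm_eq_abs, sq_abs]
    have h2 := hB' (2 - s x / R)
    have h3 : (deriv Real.smoothTransition (2 - s x / R)) ^ 2 ≤ B ^ 2 := by
      rw [← sq_abs]
      exact pow_le_pow_left₀ (abs_nonneg _) h2 2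
    have h4 : (deriv Real.smoothTransition (2 - s x / R) * (-(1 / R))) ^ 2 ≤ B ^ 2 / R ^ 2 := by
      rw [mul_pow, neg_sq, one_div, inv_pow, ← div_eq_mul_inv]
      gcongr
    exact mul_le_mul_of_nonneg_right h4 (sq_nonneg _)
  exact h0

/-- `η = u (s / R) u (t / T)` with a smooth `u : ℝ → [0, 1]`, `u = 1` on `t ≤ 1`, `u = 0` on
`t ≥ 2`, `|u'| ≤ B` (an absolute constant `B` is produced by the theorem) and `T` large -/
theorem exists_cutoffs : ∃ B : ℝ, 0 < B ∧ ∀ {s φ : G → ℝ}, C.Kah s → C.Psh φ →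
    ∃ w : G → ℝ, ∀ R : ℝ, 1 ≤ R →
    ∃ η : G → ℝ, C.Sm η ∧ HasCompactSupport η ∧ (∀ x, 0 ≤ η x) ∧ (∀ x, η x ≤ 1) ∧
      (∀ x, w x ≤ R → η x = 1) ∧ ∀ x (b : En n),
        ‖∑ k, C.Xb k (fun y => (η y : ℂ)) x * (starRingEnd ℂ) (b k)‖ ^ 2 ≤
          B / R ^ 2 * C.Lv (fun y => s y + s y ^ 2 + φ y) x b := by
  obtain ⟨B, hB, hB'⟩ := HB4_bound
  refine ⟨3 * B ^ 2, by positivity, ?_⟩
  intro s φ hs hφ
  obtain ⟨t, htc, htp, htb⟩ := hs.len
  refine ⟨fun x => max (s x) (t x), fun R hR => ?_⟩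
  have hR0 : 0 < R := by linarith
  have hsm : C.Sm s := C.sm_ofReal.1 hs.sm
  have htm : C.Sm t := C.sm_ofReal.1 htc
  obtain ⟨A, hA, hAb⟩ := htb (2 * R)
  obtain ⟨T, hTd⟩ : ∃ T : ℝ, T = R * (1 + A) := ⟨_, rfl⟩
  have hRT : R ≤ T := by
    rw [hTd]
    nlinarith
  have hT0 : 0 < T := by linarith
  have hT2 : A * R ^ 2 ≤ T ^ 2 := by
    rw [hTd, mul_pow, mul_comm]
    refine mul_le_mul_of_nonneg_left ?_ (by positivity)
    nlinarith
  obtain ⟨hu1, hu2⟩ := C.HB4_profile hsm hB' hR0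
  obtain ⟨hv1, hv2⟩ := C.HB4_profile htm hB' hT0
  obtain ⟨u, hu⟩ : ∃ u : G → ℝ, u = fun x => Real.smoothTransition (2 - s x / R) := ⟨_, rfl⟩
  obtain ⟨v, hv⟩ : ∃ v : G → ℝ, v = fun x => Real.smoothTransition (2 - t x / T) := ⟨_, rfl⟩
  have hu0 : ∀ x, 0 ≤ u x := fun x => by rw [hu]; exact Real.smoothTransition.nonneg _
  have hu1' : ∀ x, u x ≤ 1 := fun x => by rw [hu]; exact Real.smoothTransition.le_one _
  have hv0 : ∀ x, 0 ≤ v x := fun x => by rw [hv]; exact Real.smoothTransition.nonneg _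
  have hv1' : ∀ x, v x ≤ 1 := fun x => by rw [hv]; exact Real.smoothTransition.le_one _
  have hus : C.Sm u := by rw [hu]; exact hu1
  have hvs : C.Sm v := by rw [hv]; exact hv1
  have huc : C.Sm (fun y => (u y : ℂ)) := C.sm_ofReal.2 hus
  have hvc : C.Sm (fun y => (v y : ℂ)) := C.sm_ofReal.2 hvs
  have hprod : C.Sm (fun y => ((u y * v y : ℝ) : ℂ)) := by
    have := C.sm_mul huc hvc
    simpa only [Complex.ofReal_mul] using this
  refine ⟨fun x => u x * v x, C.sm_ofReal.1 hprod, ?_,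
    fun x => mul_nonneg (hu0 x) (hv0 x), fun x => mul_le_one₀ (hu1' x) (hv0 x) (hv1' x), ?_, ?_⟩
  · have hclosed : IsClosed {x | t x ≤ 2 * T} :=
      isClosed_le (C.sm_continuous htm) continuous_const
    refine HasCompactSupport.intro' (htp (2 * T)) hclosed fun x hx => ?_
    have h1 : 2 * T < t x := not_le.1 hx
    have h2 : 2 ≤ t x / T := by
      rw [le_div_iff₀ hT0]
      exact h1.le
    have h3 : v x = 0 := by
      rw [hv]
      exact Real.smoothTransition.zero_of_nonpos (by linarith)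
    show u x * v x = 0
    rw [h3, mul_zero]
  · intro x hx
    have h1 : s x ≤ R := (le_max_left _ _).trans hx
    have h2 : t x ≤ T := ((le_max_right _ _).trans hx).trans hRT
    have h3 : u x = 1 := by
      rw [hu]
      refine Real.smoothTransition.one_of_one_le ?_
      have : s x / R ≤ 1 := by
        rw [div_le_one hR0]
        exact h1
      linarith
    have h4 : v x = 1 := by
      rw [hv]
      refine Real.smoothTransition.one_of_one_le ?_
      have : t x / T ≤ 1 := by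
        rw [div_le_one hT0]
        exact h2
      linarith
    show u x * v x = 1
    rw [h3, h4, mul_one]
  · intro x b
    have hge := (C.pot_ge hs hφ x b).2
    have hge1 : C.Lv s x b ≤ C.Lv (fun y => s y + s y ^ 2 + φ y) x b := by
      rw [C.HB4_eq hs hφ]
      have h2 := hφ.2 x b
      have h3 := mul_nonneg (hs.nonneg x) (C.HB4_Lv_nonneg hs x b)
      have h4 := sq_nonneg ‖∑ j, b j * C.X j (fun y => (s y : ℂ)) x‖
      linarith
    have hL0 : 0 ≤ C.Lv (fun y => s y + s y ^ 2 + φ y) x b :=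
      (C.HB4_Lv_nonneg hs x b).trans hge1
    obtain ⟨L, hL⟩ : ∃ L : ℝ, L = C.Lv (fun y => s y + s y ^ 2 + φ y) x b := ⟨_, rfl⟩
    rw [← hL] at hge hge1 hL0 ⊢
    obtain ⟨P, hP⟩ : ∃ P : ℂ, P = ∑ k, C.Xb k (fun y => (u y : ℂ)) x * (starRingEnd ℂ) (b k) :=
      ⟨_, rfl⟩
    obtain ⟨Q, hQ⟩ : ∃ Q : ℂ, Q = ∑ k, C.Xb k (fun y => (v y : ℂ)) x * (starRingEnd ℂ) (b k) :=
      ⟨_, rfl⟩
    have hP2 : ‖P‖ ^ 2 ≤ B ^ 2 / R ^ 2 * (L / 2) := by
      have h1 := hu2 x b
      rw [hP, hu]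
      refine h1.trans (mul_le_mul_of_nonneg_left (by linarith) (by positivity))
    have hQ2 : s x ≤ 2 * R → ‖Q‖ ^ 2 ≤ B ^ 2 / R ^ 2 * L := by
      intro hx
      have h1 := hv2 x b
      have h2 := hAb x hx b
      rw [hQ, hv]
      refine h1.trans ?_
      have h3 : B ^ 2 / T ^ 2 * ‖∑ k, b k * C.X k (fun y => (t y : ℂ)) x‖ ^ 2 ≤
          B ^ 2 / T ^ 2 * (A * L) := by
        refine mul_le_mul_of_nonneg_left (h2.trans (mul_le_mul_of_nonneg_left hge1 hA)) ?_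
        positivity
      refine h3.trans ?_
      have h4 : B ^ 2 / T ^ 2 * (A * L) = (B ^ 2 * L) * (A / T ^ 2) := by ring
      have h5 : B ^ 2 / R ^ 2 * L = (B ^ 2 * L) * (1 / R ^ 2) := by ring
      rw [h4, h5]
      refine mul_le_mul_of_nonneg_left ?_ (by positivity)
      rw [div_le_div_iff₀ (by positivity) (by positivity), one_mul]
      exact hT2
    have hsum : ∑ k, C.Xb k (fun y => ((u y * v y : ℝ) : ℂ)) x * (starRingEnd ℂ) (b k) =
        (u x : ℂ) * Q + (v x : ℂ) * P := by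
      rw [hP, hQ, Finset.mul_sum, Finset.mul_sum, ← Finset.sum_add_distrib]
      refine Finset.sum_congr rfl fun k _ => ?_
      have h1 : (fun y => ((u y * v y : ℝ) : ℂ)) = fun y => (u y : ℂ) * (v y : ℂ) := by
        funext y
        push_cast
        rfl
      rw [h1, C.Xb_mul huc hvc]
      ring
    rw [hsum]
    have hn1 : ‖(v x : ℂ) * P‖ ^ 2 ≤ B ^ 2 / R ^ 2 * (L / 2) := by
      refine le_trans (pow_le_pow_left₀ (norm_nonneg _) ?_ 2) hP2
      rw [norm_mul, Complex.norm_real, Real.norm_eq_abs, abs_of_nonneg (hv0 x)]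
      exact mul_le_of_le_one_left (norm_nonneg _) (hv1' x)
    have hn2 : ‖(u x : ℂ) * Q‖ ^ 2 ≤ B ^ 2 / R ^ 2 * L := by
      rcases le_or_gt (s x) (2 * R) with hx | hx
      · refine le_trans (pow_le_pow_left₀ (norm_nonneg _) ?_ 2) (hQ2 hx)
        rw [norm_mul, Complex.norm_real, Real.norm_eq_abs, abs_of_nonneg (hu0 x)]
        exact mul_le_of_le_one_left (norm_nonneg _) (hu1' x)
      · have h3 : u x = 0 := by
          rw [hu]
          refine Real.smoothTransition.zero_of_nonpos ?_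
          have : 2 ≤ s x / R := by
            rw [le_div_iff₀ hR0]
            exact hx.le
          linarith
        rw [h3]
        have : 0 ≤ B ^ 2 / R ^ 2 * L := by positivity
        simpa using this
    have hn3 : ‖(u x : ℂ) * Q + (v x : ℂ) * P‖ ^ 2 ≤
        2 * ‖(u x : ℂ) * Q‖ ^ 2 + 2 * ‖(v x : ℂ) * P‖ ^ 2 := by
      have h1 := norm_add_le ((u x : ℂ) * Q) ((v x : ℂ) * P)
      have h2 := pow_le_pow_left₀ (norm_nonneg _) h1 2
      nlinarith [sq_nonneg (‖(u x : ℂ) * Q‖ - ‖(v x : ℂ) * P‖)]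
    have e : 3 * B ^ 2 / R ^ 2 * L = 2 * (B ^ 2 / R ^ 2 * L) + 2 * (B ^ 2 / R ^ 2 * (L / 2)) := by
      ring
    rw [e]
    linarith

/-- exhaustion functions have the property -/
theorem kah_of_exh {s : G → ℝ} (hs : C.Exh s) : C.Kah s := by
  have hsm : C.Sm s := C.sm_ofReal.1 hs.sm
  refine ⟨hs.sm, hs.nonneg, hs.pos, s, hs.sm, hs.proper, fun R => ?_⟩
  obtain ⟨lam, hlam, hb⟩ := C.Lv_bounds hsm (hs.proper R) fun x _ b hb => hs.pos x b hb
  have hcont : Continuous fun x => ∑ k, ‖C.X k (fun y => (s y : ℂ)) x‖ ^ 2 :=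
    continuous_finsetSum _ fun k _ => ((C.sm_continuous (C.sm_X hs.sm k)).norm).pow 2
  obtain ⟨M, hM⟩ := (hs.proper R).exists_bound_of_continuousOn hcont.continuousOn
  refine ⟨|M| / lam, by positivity, fun x hx b => ?_⟩
  have h1 := (hb x hx b).1
  have h2 := hM x hx
  have h0 : 0 ≤ ∑ k, ‖C.X k (fun y => (s y : ℂ)) x‖ ^ 2 :=
    Finset.sum_nonneg fun k _ => sq_nonneg _
  have h0' : 0 ≤ ∑ k, ‖b k‖ ^ 2 := Finset.sum_nonneg fun k _ => sq_nonneg _
  rw [Real.norm_eq_abs, abs_of_nonneg h0] at h2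
  have h3 : ‖∑ k, b k * C.X k (fun y => (s y : ℂ)) x‖ ^ 2 ≤
      (∑ k, ‖b k‖ ^ 2) * ∑ k, ‖C.X k (fun y => (s y : ℂ)) x‖ ^ 2 := by
    refine le_trans (pow_le_pow_left₀ (norm_nonneg _) (norm_sum_le _ _) 2) ?_
    simp only [norm_mul]
    exact Finset.sum_mul_sq_le_sq_mul_sq _ _ _
  refine h3.trans ?_
  have h4 : (∑ k, ‖b k‖ ^ 2) * ∑ k, ‖C.X k (fun y => (s y : ℂ)) x‖ ^ 2 ≤
      (∑ k, ‖b k‖ ^ 2) * |M| :=
    mul_le_mul_of_nonneg_left (h2.trans (le_abs_self M)) h0'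
  refine h4.trans ?_
  have h5 : (∑ k, ‖b k‖ ^ 2) * |M| = |M| / lam * (lam * ∑ k, ‖b k‖ ^ 2) := by
    field_simp
  rw [h5]
  exact mul_le_mul_of_nonneg_left h1 (by positivity)

end CLG

end HR
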