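import Pool.Agent.W_06f097_h43.ME3
import Pool.Agent.W_06f097_h43.ME4

/-! MP_06f097_an blueprint, block ME: smooth cutoff functions. -/

open scoped Topology ContDiff Pointwise
open MeasureTheory Set Filter Metric

noncomputable section

namespace HR

namespace CLG

variable {n : ℕ} {G : Type*} [Group G] [TopologicalSpace G] [IsTopologicalGroup G] [T2Space G]
  [LocallyCompactSpace G] [SecondCountableTopology G] [MeasurableSpace G] [BorelSpace G]
  (C : CLG n G) (μ : Measure G) [μ.IsHaarMeasure]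

/-- Proof: `θ = ρ * 1_{K'}` with `K'` a compact neighbourhood of `K` in `U` and `ρ` a mollifier with
small support (`exists_mollifiers`, `mol_sm`, `mol_support`); real part of `Mol`. -/
theorem exists_cutoff {K U : Set G} (hK : IsCompact K) (hU : IsOpen U) (hKU : K ⊆ U) :
    ∃ θ : G → ℝ, C.Sm θ ∧ HasCompactSupport θ ∧ tsupport θ ⊆ U ∧ (∀ x, 0 ≤ θ x) ∧
      (∀ x, θ x ≤ 1) ∧ ∃ V : Set G, IsOpen V ∧ K ⊆ V ∧ ∀ x ∈ V, θ x = 1 := by
  obtain ⟨μ, hμ⟩ : ∃ μ : Measure G, μ.IsHaarMeasure := ⟨Measure.haar, inferInstance⟩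
  obtain ⟨K1, hK1, hKK1, hK1U⟩ := exists_compact_between hK hU hKU
  obtain ⟨K2, hK2, hKK2, hK21⟩ := exists_compact_between hK isOpen_interior hKK1
  obtain ⟨K3, hK3, hK13, hK3U⟩ := exists_compact_between hK1 hU hK1U
  obtain ⟨W1, hW1, hW1s⟩ := compact_open_separated_mul_left hK2 isOpen_interior hK21
  obtain ⟨W2, hW2, hW2s⟩ := compact_open_separated_mul_left hK1 isOpen_interior hK13
  obtain ⟨ρ, hsm, hnn, hint, ⟨L, hL, hLs⟩, hsmall⟩ := C.exists_mollifiers μ
  have hW : (W1⁻¹ ∩ W2 : Set G) ∈ 𝓝 (1 : G) := by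
    refine inter_mem ?_ hW2
    exact inv_mem_nhds_one G hW1
  obtain ⟨k, hk⟩ := (hsmall _ hW).exists
  have hcs : HasCompactSupport (ρ k) := hL.of_isClosed_subset isClosed_closure (hLs k)
  have hKm : MeasurableSet K1 := hK1.isClosed.measurableSet
  set u : G → ℂ := K1.indicator (fun _ => (1 : ℂ)) with hu
  have hui : Integrable u μ := by
    rw [hu, integrable_indicator_iff hKm]
    exact integrableOn_const hK1.measure_ne_top
  have hmol : ∀ x, Mol μ (ρ k) u x
      = ((∫ y, ρ k y * K1.indicator (fun _ => (1 : ℝ)) (y⁻¹ * x) ∂μ : ℝ) : ℂ) := by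
    intro x
    refine Eq.trans ?_ (integral_ofReal (𝕜 := ℂ) (μ := μ)
      (f := fun y => ρ k y * K1.indicator (fun _ => (1 : ℝ)) (y⁻¹ * x)))
    refine integral_congr_ae (Eventually.of_forall fun y => ?_)
    by_cases h : y⁻¹ * x ∈ K1
    · simp [hu, h]
    · simp [hu, h]
  have hρi : Integrable (ρ k) μ := by
    by_contra hcon
    have := integral_undef hcon
    rw [hint k] at this
    exact one_ne_zero this
  have hval : ∀ x, (Mol μ (ρ k) u x).re
      = ∫ y, ρ k y * K1.indicator (fun _ => (1 : ℝ)) (y⁻¹ * x) ∂μ := by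
    intro x
    rw [hmol x, Complex.ofReal_re]
  have hind : ∀ z : G, 0 ≤ K1.indicator (fun _ => (1 : ℝ)) z ∧
      K1.indicator (fun _ => (1 : ℝ)) z ≤ 1 := by
    intro z
    by_cases h : z ∈ K1
    · simp [h]
    · simp [h]
  have hzero : ∀ x, x ∉ K3 → Mol μ (ρ k) u x = 0 := by
    intro x hx
    refine mol_support μ (K := W1⁻¹ ∩ W2) (L := K1) ?_ ?_ x ?_
    · intro y hy
      by_contra h0
      exact hy (hk (subset_closure h0))
    · intro y hy
      simp [hu, hy]
    · intro hmem
      apply hx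
      apply interior_subset
      apply hW2s
      exact Set.mul_subset_mul_right inter_subset_right hmem
  have hts : tsupport (fun x => (Mol μ (ρ k) u x).re) ⊆ K3 := by
    refine closure_minimal ?_ hK3.isClosed
    intro x hx
    by_contra hx3
    apply hx
    simp [hzero x hx3]
  refine ⟨fun x => (Mol μ (ρ k) u x).re, ?_, ?_, ?_, ?_, ?_, interior K2, isOpen_interior, hKK2, ?_⟩
  · refine C.sm_comp (C.mol_sm μ (hsm k) hcs hui.locallyIntegrable) (g := fun z : ℂ => z.re) ?_
    intro x
    exact Complex.reCLM.contDiff.contDiffAt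
  · exact hK3.of_isClosed_subset isClosed_closure hts
  · exact hts.trans hK3U
  · intro x
    simp only [hval]
    exact integral_nonneg fun y => mul_nonneg (hnn k y) (hind _).1
  · intro x
    simp only [hval]
    refine (?_ : _ ≤ ∫ y, ρ k y ∂μ).trans_eq (hint k)
    refine integral_mono_of_nonneg (Eventually.of_forall fun y => ?_) hρi
      (Eventually.of_forall fun y => ?_)
    · exact mul_nonneg (hnn k y) (hind _).1
    · calc ρ k y * K1.indicator (fun _ => (1 : ℝ)) (y⁻¹ * x) ≤ ρ k y * 1 :=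
          mul_le_mul_of_nonneg_left (hind _).2 (hnn k y)
        _ = ρ k y := mul_one _
  · intro x hx
    simp only [hval]
    refine (?_ : _ = ∫ y, ρ k y ∂μ).trans (hint k)
    refine integral_congr_ae (Eventually.of_forall fun y => ?_)
    by_cases h0 : ρ k y = 0
    · simp [h0]
    · have hy : y ∈ W1⁻¹ ∩ W2 := hk (subset_closure h0)
      have hy2 : y⁻¹ * x ∈ K1 := by
        apply interior_subset
        apply hW1s
        exact Set.mul_mem_mul (Set.mem_inv.1 hy.1) (interior_subset hx)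
      simp [hy2]

end CLG

end HR
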