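import Pool.Agent.W_06f097_h43.ME7
import Pool.Agent.W_06f097_h43.ME5

/-! MP_06f097_an blueprint, block ME: the lemma of Friedrichs. -/

open scoped Topology ContDiff Pointwise
open MeasureTheory Set Filter Metric

noncomputable section

namespace HR

namespace CLG

variable {n : ℕ} {G : Type*} [Group G] [TopologicalSpace G] (C : CLG n G)
variable [IsTopologicalGroup G] [T2Space G]
  [LocallyCompactSpace G] [SecondCountableTopology G] [MeasurableSpace G] [BorelSpace G]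
  (μ : Measure G) [μ.IsHaarMeasure]

set_option linter.unusedSectionVars false

private theorem ME8_loc {u : G → ℂ} (hm : AEStronglyMeasurable u μ)
    (hu : Integrable (fun x => ‖u x‖ ^ 2) μ) : LocallyIntegrable u μ :=
  ((memLp_two_iff_integrable_sq_norm hm).2 hu).locallyIntegrable one_le_two

private theorem ME8_mulL2 {a : G → ℂ} (ha : Continuous a) {L : Set G} (hL : IsCompact L) :
    ∃ M : ℝ, 0 ≤ M ∧ ∀ u : G → ℂ, AEStronglyMeasurable u μ →
      Integrable (fun x => ‖u x‖ ^ 2) μ → (∀ x, x ∉ L → u x = 0) →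
      AEStronglyMeasurable (fun x => a x * u x) μ ∧
      Integrable (fun x => ‖a x * u x‖ ^ 2) μ ∧
      ∫ x, ‖a x * u x‖ ^ 2 ∂μ ≤ M * ∫ x, ‖u x‖ ^ 2 ∂μ := by
  obtain ⟨M, hM⟩ := hL.exists_bound_of_continuousOn ha.continuousOn
  refine ⟨M ^ 2, sq_nonneg M, fun u hm hu hs => ?_⟩
  have h1 : AEStronglyMeasurable (fun x => a x * u x) μ := ha.aestronglyMeasurable.mul hm
  have h2 : ∀ x, ‖a x * u x‖ ^ 2 ≤ M ^ 2 * ‖u x‖ ^ 2 := by
    intro x
    by_cases hx : x ∈ L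
    · rw [norm_mul, mul_pow]
      have h3 := hM x hx
      have h4 : ‖a x‖ ^ 2 ≤ M ^ 2 := by
        have := norm_nonneg (a x)
        gcongr
      exact mul_le_mul_of_nonneg_right h4 (sq_nonneg _)
    · rw [hs x hx, mul_zero, norm_zero]
      simp
  have h3 : Integrable (fun x => ‖a x * u x‖ ^ 2) μ := by
    refine Integrable.mono' (hu.const_mul (M ^ 2)) (h1.norm.pow 2)
      (Eventually.of_forall fun x => ?_)
    rw [Real.norm_of_nonneg (by positivity)]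
    exact h2 x
  refine ⟨h1, h3, ?_⟩
  rw [← integral_const_mul]
  exact integral_mono h3 (hu.const_mul _) h2

private theorem ME8_young {f g : G → ℂ} (hf : Integrable (fun x => ‖f x‖ ^ 2) μ)
    (hg : Integrable (fun x => ‖g x‖ ^ 2) μ) {δ : ℝ} (hδ : 0 < δ) :
    ‖∫ x, f x * g x ∂μ‖ ≤ δ / 2 * ∫ x, ‖f x‖ ^ 2 ∂μ + 1 / (2 * δ) * ∫ x, ‖g x‖ ^ 2 ∂μ := by
  refine (norm_integral_le_integral_norm _).trans ?_
  rw [← integral_const_mul, ← integral_const_mul, ← integral_add (hf.const_mul _) (hg.const_mul _)]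
  refine integral_mono_of_nonneg (Eventually.of_forall fun x => norm_nonneg _)
    ((hf.const_mul _).add (hg.const_mul _)) (Eventually.of_forall fun x => ?_)
  show ‖f x * g x‖ ≤ δ / 2 * ‖f x‖ ^ 2 + 1 / (2 * δ) * ‖g x‖ ^ 2
  rw [norm_mul]
  have h1 : δ / 2 * ‖f x‖ ^ 2 + 1 / (2 * δ) * ‖g x‖ ^ 2 - ‖f x‖ * ‖g x‖ =
      (δ * ‖f x‖ - ‖g x‖) ^ 2 / (2 * δ) := by
    field_simp
    ring
  have h2 : 0 ≤ (δ * ‖f x‖ - ‖g x‖) ^ 2 / (2 * δ) := by positivity
  linarith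

variable {μ} in
private theorem ME8_csq {g : G → ℂ} (hg : Continuous g) (hc : HasCompactSupport g) :
    Integrable (fun x => ‖g x‖ ^ 2) μ := by
  refine (hg.norm.pow 2).integrable_of_hasCompactSupport (HasCompactSupport.intro hc ?_)
  intro x hx
  have h1 : g x = 0 := image_eq_zero_of_notMem_tsupport hx
  show ‖g x‖ ^ 2 = 0
  rw [h1, norm_zero]
  norm_num

private theorem ME8_sq (a b : ℂ) : ‖a + b‖ ^ 2 ≤ 2 * ‖a‖ ^ 2 + 2 * ‖b‖ ^ 2 := by
  have h1 := norm_add_le a b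
  nlinarith [sq_nonneg (‖a‖ - ‖b‖), norm_nonneg a, norm_nonneg b, norm_nonneg (a + b)]

private theorem ME8_add2 {f g : G → ℂ} (hfm : AEStronglyMeasurable f μ)
    (hgm : AEStronglyMeasurable g μ) (hf : Integrable (fun x => ‖f x‖ ^ 2) μ)
    (hg : Integrable (fun x => ‖g x‖ ^ 2) μ) :
    Integrable (fun x => ‖f x + g x‖ ^ 2) μ ∧
      ∫ x, ‖f x + g x‖ ^ 2 ∂μ ≤ 2 * ∫ x, ‖f x‖ ^ 2 ∂μ + 2 * ∫ x, ‖g x‖ ^ 2 ∂μ := by
  have h1 : Integrable (fun x => ‖f x + g x‖ ^ 2) μ := by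
    refine Integrable.mono' ((hf.const_mul 2).add (hg.const_mul 2)) ((hfm.add hgm).norm.pow 2)
      (Eventually.of_forall fun x => ?_)
    rw [Real.norm_of_nonneg (by positivity)]
    exact ME8_sq _ _
  refine ⟨h1, ?_⟩
  rw [← integral_const_mul, ← integral_const_mul, ← integral_add (hf.const_mul _) (hg.const_mul _)]
  exact integral_mono h1 ((hf.const_mul _).add (hg.const_mul _)) fun x => ME8_sq _ _

private theorem ME8_fub {ρ : G → ℝ} (hρ : Continuous ρ) (hc : HasCompactSupport ρ) {u σ : G → ℂ}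
    (hu : LocallyIntegrable u μ) (hσ : Continuous σ) (hσc : HasCompactSupport σ) :
    Integrable (fun y => (ρ y : ℂ) * ∫ x, u x * σ (y * x) ∂μ) μ ∧
    ∫ x, Mol μ ρ u x * σ x ∂μ = ∫ y, (ρ y : ℂ) * ∫ x, u x * σ (y * x) ∂μ ∂μ := by
  rw [mol_transpose μ hρ hc hu hσ hσc]
  have e1 : ∀ x, u x * (∫ y, (ρ y : ℂ) * σ (y * x) ∂μ)
      = ∫ y, u x * ((ρ y : ℂ) * σ (y * x)) ∂μ := fun x => (integral_const_mul _ _).symm
  simp only [e1]
  have hLc : IsCompact ((tsupport ρ)⁻¹ * tsupport σ) :=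
    IsCompact.mul (IsCompact.inv hc) hσc
  obtain ⟨M, hM⟩ := hσ.bounded_above_of_compact_support hσc
  have hint : Integrable (Function.uncurry fun x y => u x * ((ρ y : ℂ) * σ (y * x)))
      (μ.prod μ) := by
    have hA : Integrable (((tsupport ρ)⁻¹ * tsupport σ).indicator fun x => ‖u x‖) μ := by
      rw [integrable_indicator_iff hLc.isClosed.measurableSet]
      exact (hu.integrableOn_isCompact hLc).norm
    have hB : Integrable (fun y => ‖ρ y‖ * M) μ :=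
      ((hρ.integrable_of_hasCompactSupport hc).norm).mul_const M
    refine Integrable.mono' (hA.mul_prod hB) ?_ (Eventually.of_forall fun p => ?_)
    · have h1 : AEStronglyMeasurable (fun p : G × G => u p.1) (μ.prod μ) :=
        hu.aestronglyMeasurable.comp_fst
      have h2 : Continuous (fun p : G × G => (ρ p.2 : ℂ) * σ (p.2 * p.1)) := by
        have a1 : Continuous (fun p : G × G => (ρ p.2 : ℂ)) :=
          Complex.continuous_ofReal.comp (hρ.comp continuous_snd)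
        have a2 : Continuous (fun p : G × G => σ (p.2 * p.1)) :=
          hσ.comp (continuous_snd.mul continuous_fst)
        exact a1.mul a2
      exact h1.mul h2.aestronglyMeasurable
    · obtain ⟨x, y⟩ := p
      show ‖u x * ((ρ y : ℂ) * σ (y * x))‖ ≤ _
      by_cases hz : ρ y * 1 = 0 ∨ σ (y * x) = 0
      · have hz' : (ρ y : ℂ) * σ (y * x) = 0 := by
          rcases hz with h | h
          · rw [mul_one] at h
            simp [h]
          · simp [h]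
        rw [hz', mul_zero, norm_zero]
        have hM0 : 0 ≤ M := (norm_nonneg _).trans (hM 1)
        refine mul_nonneg (indicator_nonneg (fun _ _ => norm_nonneg _) _) ?_
        exact mul_nonneg (norm_nonneg _) hM0
      · push Not at hz
        obtain ⟨z1, z2⟩ := hz
        rw [mul_one] at z1
        have hx : x ∈ (tsupport ρ)⁻¹ * tsupport σ := by
          refine ⟨y⁻¹, ?_, y * x, subset_closure z2, by simp⟩
          exact Set.inv_mem_inv.2 (subset_closure z1)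
        have e3 : ((tsupport ρ)⁻¹ * tsupport σ).indicator (fun x => ‖u x‖) x = ‖u x‖ :=
          indicator_of_mem hx _
        show _ ≤ ((tsupport ρ)⁻¹ * tsupport σ).indicator (fun x => ‖u x‖) x * (‖ρ y‖ * M)
        rw [e3, norm_mul, norm_mul, Complex.norm_real]
        gcongr
        exact hM _
  have e2 : ∀ y, ∫ x, u x * ((ρ y : ℂ) * σ (y * x)) ∂μ
      = (ρ y : ℂ) * ∫ x, u x * σ (y * x) ∂μ := by
    intro y
    have e4 : ∀ x, u x * ((ρ y : ℂ) * σ (y * x)) = (ρ y : ℂ) * (u x * σ (y * x)) :=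
      fun x => by ring
    simp only [e4]
    exact integral_const_mul _ _
  constructor
  · have h1 := hint.integral_prod_right
    have h2 : (fun y => ∫ x, Function.uncurry (fun x y => u x * ((ρ y : ℂ) * σ (y * x))) (x, y) ∂μ)
        = fun y => (ρ y : ℂ) * ∫ x, u x * σ (y * x) ∂μ := by
      funext y
      exact e2 y
    rw [← h2]
    exact h1
  · rw [integral_integral_swap hint]
    exact integral_congr_ae (Eventually.of_forall fun y => e2 y)

private theorem ME8_zero {g : G → ℂ} (hg : C.Sm g)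
    (h : ∀ τ : G → ℂ, C.Sm τ → HasCompactSupport τ → ∫ x, g x * τ x ∂μ = 0) (x₀ : G) :
    g x₀ = 0 := by
  by_contra hne
  obtain ⟨θ, h1, h2, -, h4, -, V, -, h7, h8⟩ := C.exists_cutoff (isCompact_singleton (x := x₀))
    isOpen_univ (subset_univ _)
  have hθ0 : θ x₀ = 1 := h8 _ (h7 rfl)
  have hgc := C.sm_continuous hg
  have hθc := C.sm_continuous h1
  have hτ := h (fun x => (θ x : ℂ) * (starRingEnd ℂ) (g x))
    (C.sm_mul (C.sm_ofReal.2 h1) (C.sm_conj hg)) ?_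
  · have e1 : ∀ x, g x * ((θ x : ℂ) * (starRingEnd ℂ) (g x))
        = ((θ x * ‖g x‖ ^ 2 : ℝ) : ℂ) := by
      intro x
      have := Complex.mul_conj (g x)
      rw [Complex.normSq_eq_norm_sq] at this
      calc g x * ((θ x : ℂ) * (starRingEnd ℂ) (g x))
          = (θ x : ℂ) * (g x * (starRingEnd ℂ) (g x)) := by ring
        _ = _ := by rw [this]; push_cast; ring
    simp only [e1] at hτ
    have e2 : ∫ x, θ x * ‖g x‖ ^ 2 ∂μ = 0 := by
      have := integral_ofReal (𝕜 := ℂ) (μ := μ) (f := fun x => θ x * ‖g x‖ ^ 2)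
      have h9 := this.symm.trans hτ
      exact RCLike.ofReal_eq_zero.1 h9
    have e3 : 0 < ∫ x, θ x * ‖g x‖ ^ 2 ∂μ := by
      refine Continuous.integral_pos_of_hasCompactSupport_nonneg_nonzero (x := x₀)
        (hθc.mul (hgc.norm.pow 2)) (h2.mul_right) (fun x => ?_) ?_
      · exact mul_nonneg (h4 x) (by positivity)
      · rw [hθ0, one_mul]
        exact pow_ne_zero 2 (norm_ne_zero_iff.2 hne)
    exact absurd e2 e3.ne'
  · have h10 : HasCompactSupport (fun x => (θ x : ℂ)) :=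
      h2.comp_left (g := fun t : ℝ => (t : ℂ)) Complex.ofReal_zero
    exact h10.mul_right

/-- derivatives vanish off closed sets off which the function vanishes -/
private theorem ME8_Dzero {g : G → ℂ} {M : Set G} (hM : IsClosed M) (h : ∀ x, x ∉ M → g x = 0)
    (v : En n) : ∀ x, x ∉ M → C.D g x v = 0 := by
  intro x hx
  have h1 : g =ᶠ[𝓝 x] fun _ => (0 : ℂ) := by
    filter_upwards [hM.isOpen_compl.mem_nhds hx] with y hy
    exact h y hy
  rw [C.D_congr h1, C.CA3_D_const]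
  rfl

private theorem ME8_hcs {g : G → ℂ} {M : Set G} (hM : IsCompact M)
    (h : ∀ x, x ∉ M → g x = 0) : HasCompactSupport g := HasCompactSupport.intro hM h

private theorem ME8_DSupp {τ : G → ℂ} (hτc : HasCompactSupport τ) (v : En n) :
    HasCompactSupport (fun x => C.D τ x v) :=
  HasCompactSupport.intro hτc
    (C.ME8_Dzero (g := τ) (M := tsupport τ) (isClosed_tsupport τ)
      (fun _ hx => image_eq_zero_of_notMem_tsupport hx) v)

variable {μ} in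
/-- integration by parts -/
private theorem ME8_ibp {cR : En n →L[ℝ] ℝ} (hc : C.IsPartR μ cR) {h τ : G → ℂ} (hh : C.Sm h)
    (hτ : C.Sm τ) (hτc : HasCompactSupport τ) (v : En n) :
    ∫ x, C.D h x v * τ x ∂μ = -∫ x, h x * (C.D τ x v - (cR v : ℂ) * τ x) ∂μ := by
  have c1 := C.sm_continuous hh
  have c2 := C.sm_continuous hτ
  have c3 := C.sm_continuous (C.sm_D hh v)
  have c4 := C.sm_continuous (C.sm_D hτ v)
  have s4 := C.ME8_DSupp hτc v
  have h1 := hc (fun x => h x * τ x) (C.sm_mul hh hτ) hτc.mul_left v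
  simp only [C.CA3_D_mul hh hτ] at h1
  have i1 : Integrable (fun x => C.D h x v * τ x) μ :=
    (c3.mul c2).integrable_of_hasCompactSupport hτc.mul_left
  have i2 : Integrable (fun x => h x * C.D τ x v) μ :=
    (c1.mul c4).integrable_of_hasCompactSupport s4.mul_left
  have i3 : Integrable (fun x => h x * τ x) μ :=
    (c1.mul c2).integrable_of_hasCompactSupport hτc.mul_left
  rw [integral_add i1 i2] at h1
  have h5 : ∀ x, h x * (C.D τ x v - (cR v : ℂ) * τ x)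
      = h x * C.D τ x v - (cR v : ℂ) * (h x * τ x) := fun x => by ring
  simp only [h5]
  rw [integral_sub i2 (i3.const_mul _), integral_const_mul]
  linear_combination h1

/-- the commutator -/
def ME8_T (ρ : G → ℝ) (a : G → ℂ) (v : En n) (u : G → ℂ) (x : G) : ℂ :=
  a x * C.D (Mol μ ρ u) x v - C.D (Mol μ ρ (fun y => a y * u y)) x v +
    Mol μ ρ (fun y => C.D a y v * u y) x

private theorem ME8_approx {L : Set G} (hL : IsCompact L) :
    ∃ L' : Set G, IsCompact L' ∧ L ⊆ L' ∧ ∀ u : G → ℂ, AEStronglyMeasurable u μ →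
      Integrable (fun x => ‖u x‖ ^ 2) μ → (∀ x, x ∉ L → u x = 0) →
      ∃ w : ℕ → G → ℂ, (∀ k, C.Sm (w k)) ∧ (∀ k x, x ∉ L' → w k x = 0) ∧
      Tendsto (fun k => ∫ x, ‖w k x - u x‖ ^ 2 ∂μ) atTop (𝓝 0) := by
  obtain ⟨ρ, h1, h2, h3, ⟨K, hK, h4⟩, h5⟩ := C.exists_mollifiers μ
  refine ⟨K * L ∪ L, (hK.mul hL).union hL, subset_union_right, fun u hm hu hs => ?_⟩
  have hρc : ∀ k, HasCompactSupport (ρ k) := fun k =>
    hK.of_isClosed_subset isClosed_closure (h4 k)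
  refine ⟨fun k => Mol μ (ρ k) u, fun k => C.mol_sm μ (h1 k) (hρc k) (ME8_loc μ hm hu), ?_, ?_⟩
  · intro k x hx
    refine mol_support μ (K := K) (L := L) ?_ hs x fun h => hx (Or.inl h)
    intro y hy
    exact image_eq_zero_of_notMem_tsupport fun h => hy (h4 k h)
  · exact mol_tendsto μ (fun k => C.sm_continuous (h1 k)) h2 h3 hK h4 h5 hm hu

section T
variable {μ} {ρ : G → ℝ} (hρ : C.Sm ρ) (hρc : HasCompactSupport ρ) {a : G → ℂ} (ha : C.Sm a)
  (v : En n) {L : Set G} (hL : IsCompact L)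

include hρ hρc ha hL in
private theorem ME8_T_sm {u : G → ℂ} (hm : AEStronglyMeasurable u μ)
    (hu : Integrable (fun x => ‖u x‖ ^ 2) μ) (hs : ∀ x, x ∉ L → u x = 0) :
    C.Sm (C.ME8_T μ ρ a v u) := by
  obtain ⟨_, _, h1⟩ := ME8_mulL2 μ (C.sm_continuous ha) hL
  obtain ⟨_, _, h2⟩ := ME8_mulL2 μ (C.sm_continuous (C.sm_D ha v)) hL
  obtain ⟨p1, p2, -⟩ := h1 u hm hu hs
  obtain ⟨q1, q2, -⟩ := h2 u hm hu hs
  have s1 := C.mol_sm μ hρ hρc (ME8_loc μ hm hu)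
  have s2 := C.mol_sm μ hρ hρc (ME8_loc μ p1 p2)
  have s3 := C.mol_sm μ hρ hρc (ME8_loc μ q1 q2)
  exact C.sm_add (C.sm_sub (C.sm_mul ha (C.sm_D s1 v)) (C.sm_D s2 v)) s3

private theorem ME8_T_supp {K : Set G} (hK : IsCompact K) (hKρ : tsupport ρ ⊆ K)
    (hL : IsCompact L) {u : G → ℂ} (hs : ∀ x, x ∉ L → u x = 0) :
    ∀ x, x ∉ K * L → C.ME8_T μ ρ a v u x = 0 := by
  have hcl : IsClosed (K * L) := (hK.mul hL).isClosed
  have hρ0 : ∀ x, x ∉ K → ρ x = 0 := fun y hy =>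
    image_eq_zero_of_notMem_tsupport fun h => hy (hKρ h)
  intro x hx
  have h1 := C.ME8_Dzero hcl (mol_support μ hρ0 hs) v x hx
  have h2 := C.ME8_Dzero hcl (mol_support μ hρ0 (u := fun y => a y * u y) (L := L)
    (fun y hy => by simp only [hs y hy, mul_zero])) v x hx
  have h3 := mol_support μ hρ0 (u := fun y => C.D a y v * u y) (L := L)
    (fun y hy => by simp only [hs y hy, mul_zero]) x hx
  unfold ME8_T
  rw [h1, h2, h3]
  ring

include hρ hρc ha hL in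
private theorem ME8_T_sub {u u' : G → ℂ} (hm : AEStronglyMeasurable u μ)
    (hu : Integrable (fun x => ‖u x‖ ^ 2) μ) (hs : ∀ x, x ∉ L → u x = 0)
    (hm' : AEStronglyMeasurable u' μ)
    (hu' : Integrable (fun x => ‖u' x‖ ^ 2) μ) (hs' : ∀ x, x ∉ L → u' x = 0) (x : G) :
    C.ME8_T μ ρ a v (fun y => u y - u' y) x = C.ME8_T μ ρ a v u x - C.ME8_T μ ρ a v u' x := by
  obtain ⟨_, _, h1⟩ := ME8_mulL2 μ (C.sm_continuous ha) hL
  obtain ⟨_, _, h2⟩ := ME8_mulL2 μ (C.sm_continuous (C.sm_D ha v)) hL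
  obtain ⟨p1, p2, -⟩ := h1 u hm hu hs
  obtain ⟨q1, q2, -⟩ := h2 u hm hu hs
  obtain ⟨p1', p2', -⟩ := h1 u' hm' hu' hs'
  obtain ⟨q1', q2', -⟩ := h2 u' hm' hu' hs'
  have hρ' := C.sm_continuous hρ
  have e1 : Mol μ ρ (fun y => u y - u' y) = fun x => Mol μ ρ u x - Mol μ ρ u' x :=
    funext fun x => mol_sub μ hρ' hρc (ME8_loc μ hm hu) (ME8_loc μ hm' hu') x
  have e2 : Mol μ ρ (fun y => a y * (u y - u' y)) =
      fun x => Mol μ ρ (fun y => a y * u y) x - Mol μ ρ (fun y => a y * u' y) x := by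
    funext x
    rw [← mol_sub μ hρ' hρc (ME8_loc μ p1 p2) (ME8_loc μ p1' p2') x]
    congr 1
    funext y
    ring
  have e3 : Mol μ ρ (fun y => C.D a y v * (u y - u' y)) x =
      Mol μ ρ (fun y => C.D a y v * u y) x - Mol μ ρ (fun y => C.D a y v * u' y) x := by
    rw [← mol_sub μ hρ' hρc (ME8_loc μ q1 q2) (ME8_loc μ q1' q2') x]
    congr 1
    funext y
    ring
  have s1 := C.mol_sm μ hρ hρc (ME8_loc μ hm hu)
  have s2 := C.mol_sm μ hρ hρc (ME8_loc μ p1 p2)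
  have s1' := C.mol_sm μ hρ hρc (ME8_loc μ hm' hu')
  have s2' := C.mol_sm μ hρ hρc (ME8_loc μ p1' p2')
  unfold ME8_T
  rw [e1, e2, e3, C.CA3_D_sub s1 s1', C.CA3_D_sub s2 s2', sub_apply,
    sub_apply]
  ring

include hρ hρc ha in
private theorem ME8_T_smooth {u : G → ℂ} (hu : C.Sm u) (x : G) :
    C.ME8_T μ ρ a v u x =
      a x * C.D (Mol μ ρ u) x v - Mol μ ρ (fun y => a y * C.D u y v) x := by
  have hρ' := C.sm_continuous hρ
  have e1 := C.mol_D μ hρ' hρc (C.sm_mul ha hu) v x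
  have c1 := C.sm_continuous ha
  have c2 := C.sm_continuous hu
  have c3 := C.sm_continuous (C.sm_D ha v)
  have c4 := C.sm_continuous (C.sm_D hu v)
  have e2 : Mol μ ρ (fun y => C.D (fun y => a y * u y) y v) x -
      Mol μ ρ (fun y => C.D a y v * u y) x = Mol μ ρ (fun y => a y * C.D u y v) x := by
    have l1 : LocallyIntegrable (fun y => C.D (fun y => a y * u y) y v) μ :=
      (C.sm_continuous (C.sm_D (C.sm_mul ha hu) v)).locallyIntegrable
    have l2 : LocallyIntegrable (fun y => C.D a y v * u y) μ := (c3.mul c2).locallyIntegrable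
    rw [← mol_sub μ hρ' hρc l1 l2 x]
    congr 1
    funext y
    rw [C.CA3_D_mul ha hu]
    ring
  unfold ME8_T
  rw [e1, ← e2]
  ring

include hρ hρc ha hL in
private theorem ME8_T_weak {cR : En n →L[ℝ] ℝ} (hc : C.IsPartR μ cR) {u σ : G → ℂ}
    (hm : AEStronglyMeasurable u μ)
    (hu : Integrable (fun x => ‖u x‖ ^ 2) μ) (hs : ∀ x, x ∉ L → u x = 0) (hσ : C.Sm σ)
    (hσc : HasCompactSupport σ) :
    ∫ x, C.ME8_T μ ρ a v u x * σ x ∂μ =
      -∫ x, Mol μ ρ u x * (C.D (fun y => a y * σ y) x v - (cR v : ℂ) * (a x * σ x)) ∂μ +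
      ∫ x, Mol μ ρ (fun y => a y * u y) x * (C.D σ x v - (cR v : ℂ) * σ x) ∂μ +
      ∫ x, Mol μ ρ (fun y => C.D a y v * u y) x * σ x ∂μ := by
  obtain ⟨_, _, h1⟩ := ME8_mulL2 μ (C.sm_continuous ha) hL
  obtain ⟨_, _, h2⟩ := ME8_mulL2 μ (C.sm_continuous (C.sm_D ha v)) hL
  obtain ⟨p1, p2, -⟩ := h1 u hm hu hs
  obtain ⟨q1, q2, -⟩ := h2 u hm hu hs
  have s1 := C.mol_sm μ hρ hρc (ME8_loc μ hm hu)
  have s2 := C.mol_sm μ hρ hρc (ME8_loc μ p1 p2)
  have s3 := C.mol_sm μ hρ hρc (ME8_loc μ q1 q2)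
  have c0 := C.sm_continuous hσ
  have ca := C.sm_continuous ha
  have c1 := C.sm_continuous (C.sm_D s1 v)
  have c2 := C.sm_continuous (C.sm_D s2 v)
  have c3 := C.sm_continuous s3
  have hac : HasCompactSupport (fun x => a x * σ x) := hσc.mul_left
  have j1 := C.ME8_ibp hc s1 (C.sm_mul ha hσ) hac v
  have j2 := C.ME8_ibp hc s2 hσ hσc v
  have i1 : Integrable (fun x => C.D (Mol μ ρ u) x v * (a x * σ x)) μ :=
    (c1.mul (ca.mul c0)).integrable_of_hasCompactSupport hac.mul_left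
  have i2 : Integrable (fun x => C.D (Mol μ ρ (fun y => a y * u y)) x v * σ x) μ :=
    (c2.mul c0).integrable_of_hasCompactSupport hσc.mul_left
  have i3 : Integrable (fun x => Mol μ ρ (fun y => C.D a y v * u y) x * σ x) μ :=
    (c3.mul c0).integrable_of_hasCompactSupport hσc.mul_left
  have e1 : ∀ x, C.ME8_T μ ρ a v u x * σ x = C.D (Mol μ ρ u) x v * (a x * σ x) -
      C.D (Mol μ ρ (fun y => a y * u y)) x v * σ x +
      Mol μ ρ (fun y => C.D a y v * u y) x * σ x := by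
    intro x
    unfold ME8_T
    ring
  simp only [e1]
  have i12 : Integrable (fun x => C.D (Mol μ ρ u) x v * (a x * σ x) -
      C.D (Mol μ ρ (fun y => a y * u y)) x v * σ x) μ := i1.sub i2
  rw [integral_add i12 i3, integral_sub i1 i2, j1, j2]
  ring

include hρ hρc ha hL in
private theorem ME8_T_hcs {K : Set G} (hK : IsCompact K) (hKρ : tsupport ρ ⊆ K) {u : G → ℂ}
    (hm : AEStronglyMeasurable u μ)
    (hu : Integrable (fun x => ‖u x‖ ^ 2) μ) (hs : ∀ x, x ∉ L → u x = 0) :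
    HasCompactSupport (C.ME8_T μ ρ a v u) ∧ Continuous (C.ME8_T μ ρ a v u) ∧
      Integrable (fun x => ‖C.ME8_T μ ρ a v u x‖ ^ 2) μ := by
  have h1 : HasCompactSupport (C.ME8_T μ ρ a v u) :=
    HasCompactSupport.intro (hK.mul hL) (C.ME8_T_supp v hK hKρ hL hs)
  have h2 := C.sm_continuous (C.ME8_T_sm hρ hρc ha v hL hm hu hs)
  exact ⟨h1, h2, ME8_csq h2 h1⟩

end T

/-- the estimate against a test function -/
private theorem ME8_T_est {cR : En n →L[ℝ] ℝ} (hc : C.IsPartR μ cR) {a : G → ℂ} (ha : C.Sm a)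
    (v : En n) {L : Set G} (hL : IsCompact L) : ∃ C1 : ℝ, 0 ≤ C1 ∧ ∀ ρ : G → ℝ, C.Sm ρ →
      HasCompactSupport ρ → (∀ x, 0 ≤ ρ x) → ∫ x, ρ x ∂μ = 1 → ∀ σ : G → ℂ, C.Sm σ →
      HasCompactSupport σ → ∃ C2 : ℝ, 0 ≤ C2 ∧ ∀ u : G → ℂ, AEStronglyMeasurable u μ →
      Integrable (fun x => ‖u x‖ ^ 2) μ → (∀ x, x ∉ L → u x = 0) → ∀ δ : ℝ, 0 < δ →
      ‖∫ x, C.ME8_T μ ρ a v u x * σ x ∂μ‖ ≤ δ * C1 * ∫ x, ‖u x‖ ^ 2 ∂μ + C2 / δ := by
  obtain ⟨M1, hM1, h1⟩ := ME8_mulL2 μ (C.sm_continuous ha) hL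
  obtain ⟨M2, hM2, h2⟩ := ME8_mulL2 μ (C.sm_continuous (C.sm_D ha v)) hL
  refine ⟨(1 + M1 + M2) / 2, by positivity, fun ρ hρ hρc hρ0 hρ1 σ hσ hσc => ?_⟩
  obtain ⟨τ1, hτ1⟩ : ∃ τ1 : G → ℂ, τ1 = fun x => C.D (fun y => a y * σ y) x v -
    (cR v : ℂ) * (a x * σ x) := ⟨_, rfl⟩
  obtain ⟨τ2, hτ2⟩ : ∃ τ2 : G → ℂ, τ2 = fun x => C.D σ x v - (cR v : ℂ) * σ x := ⟨_, rfl⟩
  have c0 := C.sm_continuous hσ
  have ca := C.sm_continuous ha
  have hac : HasCompactSupport (fun x => a x * σ x) := hσc.mul_left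
  have c1 : Continuous τ1 := by
    rw [hτ1]
    exact (C.sm_continuous (C.sm_D (C.sm_mul ha hσ) v)).sub (continuous_const.mul (ca.mul c0))
  have c2 : Continuous τ2 := by
    rw [hτ2]
    exact (C.sm_continuous (C.sm_D hσ v)).sub (continuous_const.mul c0)
  have s1 : HasCompactSupport τ1 := by
    rw [hτ1]
    have := hac.mul_left (f := fun _ => (cR v : ℂ))
    exact (C.ME8_DSupp hac v).sub this
  have s2 : HasCompactSupport τ2 := by
    rw [hτ2]
    have := hσc.mul_left (f := fun _ => (cR v : ℂ))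
    exact (C.ME8_DSupp hσc v).sub this
  have i0 := ME8_csq (μ := μ) c0 hσc
  have i1 := ME8_csq (μ := μ) c1 s1
  have i2 := ME8_csq (μ := μ) c2 s2
  refine ⟨((∫ x, ‖τ1 x‖ ^ 2 ∂μ) + (∫ x, ‖τ2 x‖ ^ 2 ∂μ) + ∫ x, ‖σ x‖ ^ 2 ∂μ) / 2, ?_,
    fun u hm hu hs δ hδ => ?_⟩
  · have := integral_nonneg (μ := μ) (f := fun x => ‖τ1 x‖ ^ 2) fun x => sq_nonneg _
    have := integral_nonneg (μ := μ) (f := fun x => ‖τ2 x‖ ^ 2) fun x => sq_nonneg _
    have := integral_nonneg (μ := μ) (f := fun x => ‖σ x‖ ^ 2) fun x => sq_nonneg _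
    positivity
  · obtain ⟨p1, p2, p3⟩ := h1 u hm hu hs
    obtain ⟨q1, q2, q3⟩ := h2 u hm hu hs
    have hρ' := C.sm_continuous hρ
    obtain ⟨t1, t2⟩ := mol_L2 μ hρ' hρc hρ0 hm hu
    obtain ⟨t3, t4⟩ := mol_L2 μ hρ' hρc hρ0 p1 p2
    obtain ⟨t5, t6⟩ := mol_L2 μ hρ' hρc hρ0 q1 q2
    rw [hρ1, one_pow, one_mul] at t2 t4 t6
    rw [C.ME8_T_weak hρ hρc ha v hL hc hm hu hs hσ hσc]
    have y1 := ME8_young μ t1 i1 hδ
    have y2 := ME8_young μ t3 i2 hδ
    have y3 := ME8_young μ t5 i0 hδ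
    have e1 : (fun x => Mol μ ρ u x * (C.D (fun y => a y * σ y) x v -
        (cR v : ℂ) * (a x * σ x))) = fun x => Mol μ ρ u x * τ1 x := by rw [hτ1]
    have e2 : (fun x => Mol μ ρ (fun y => a y * u y) x * (C.D σ x v - (cR v : ℂ) * σ x)) =
        fun x => Mol μ ρ (fun y => a y * u y) x * τ2 x := by rw [hτ2]
    rw [e1, e2]
    refine (norm_add_le _ _).trans ?_
    refine (add_le_add_left (norm_add_le _ _) _).trans ?_
    rw [norm_neg]
    have hQ := integral_nonneg (μ := μ) (f := fun x => ‖u x‖ ^ 2) fun x => sq_nonneg _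
    obtain ⟨Q, hQd⟩ : ∃ Q, Q = ∫ x, ‖u x‖ ^ 2 ∂μ := ⟨_, rfl⟩
    obtain ⟨A, hA⟩ : ∃ A, A = ∫ x, ‖τ1 x‖ ^ 2 ∂μ := ⟨_, rfl⟩
    obtain ⟨B, hB⟩ : ∃ B, B = ∫ x, ‖τ2 x‖ ^ 2 ∂μ := ⟨_, rfl⟩
    obtain ⟨D, hD⟩ : ∃ D, D = ∫ x, ‖σ x‖ ^ 2 ∂μ := ⟨_, rfl⟩
    rw [← hQd] at t2 p3 q3 ⊢
    rw [← hA] at y1 ⊢
    rw [← hB] at y2 ⊢
    rw [← hD] at y3 ⊢
    have z1 := mul_le_mul_of_nonneg_left t2 (show 0 ≤ δ / 2 by positivity)
    have z2 := mul_le_mul_of_nonneg_left (t4.trans p3) (show 0 ≤ δ / 2 by positivity)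
    have z3 := mul_le_mul_of_nonneg_left (t6.trans q3) (show 0 ≤ δ / 2 by positivity)
    have e3 : (A + B + D) / 2 / δ = 1 / (2 * δ) * A + 1 / (2 * δ) * B + 1 / (2 * δ) * D := by
      field_simp
    rw [e3]
    linarith

/-- the bound for square integrable functions -/
private theorem ME8_bound {cR : En n →L[ℝ] ℝ} (hc : C.IsPartR μ cR) {ρ : ℕ → G → ℝ}
    (hρ : C.GoodMoll μ ρ) {a : G → ℂ} (ha : C.Sm a) (v : En n) {L : Set G} (hL : IsCompact L) :
    ∃ B : ℝ, 0 ≤ B ∧ ∀ k, ∀ u : G → ℂ, AEStronglyMeasurable u μ →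
      Integrable (fun x => ‖u x‖ ^ 2) μ → (∀ x, x ∉ L → u x = 0) →
      ∫ x, ‖C.ME8_T μ (ρ k) a v u x‖ ^ 2 ∂μ ≤ B * ∫ x, ‖u x‖ ^ 2 ∂μ := by
  obtain ⟨L', hL', hLL', happ⟩ := C.ME8_approx μ hL
  obtain ⟨B, hB, hfr⟩ := C.friedrichs_bound μ hρ ha v hL'
  obtain ⟨C1, hC1, hest⟩ := C.ME8_T_est μ hc ha v hL'
  obtain ⟨K, hK, -, hKρ⟩ := hρ.comp
  have hρc : ∀ k, HasCompactSupport (ρ k) := fun k =>
    hK.of_isClosed_subset isClosed_closure (hKρ k)
  refine ⟨2 * B, by positivity, fun k u hm hu hs => ?_⟩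
  have hs' : ∀ x, x ∉ L' → u x = 0 := fun x hx => hs x fun h => hx (hLL' h)
  obtain ⟨w, hw1, hw2, hw3⟩ := happ u hm hu hs
  obtain ⟨g, hg⟩ : ∃ g, g = C.ME8_T μ (ρ k) a v u := ⟨_, rfl⟩
  have hgs : C.Sm g := by
    rw [hg]
    exact C.ME8_T_sm (hρ.sm k) (hρc k) ha v hL' hm hu hs'
  obtain ⟨g1, g2, g3⟩ := C.ME8_T_hcs (hρ.sm k) (hρc k) ha v hL' hK (hKρ k) hm hu hs'
  rw [← hg] at g1 g2 g3 ⊢
  have hσ := C.sm_conj hgs
  have hσc : HasCompactSupport (fun x => (starRingEnd ℂ) (g x)) :=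
    g1.comp_left (g := fun z : ℂ => (starRingEnd ℂ) z) (by simp)
  obtain ⟨C2, hC2, h2⟩ := hest (ρ k) (hρ.sm k) (hρc k) (hρ.nonneg k) (hρ.mass k) _ hσ hσc
  obtain ⟨q, hq⟩ : ∃ q, q = ∫ x, ‖g x‖ ^ 2 ∂μ := ⟨_, rfl⟩
  obtain ⟨Q, hQ⟩ : ∃ Q, Q = ∫ x, ‖u x‖ ^ 2 ∂μ := ⟨_, rfl⟩
  have hcs : Continuous fun x => (starRingEnd ℂ) (g x) := C.sm_continuous hσ
  have hσi := ME8_csq (μ := μ) hcs hσc
  have hσq : ∫ x, ‖(starRingEnd ℂ) (g x)‖ ^ 2 ∂μ = q := by
    rw [hq]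
    simp only [RCLike.norm_conj]
  rw [← hq, ← hQ]
  -- the main inequality
  have key : ∀ j, ∀ δ : ℝ, 0 < δ → q / 2 ≤ B * Q + (B + δ * C1) * ∫ x, ‖w j x - u x‖ ^ 2 ∂μ +
      C2 / δ := by
    intro j δ hδ
    have wc := C.sm_continuous (hw1 j)
    have wcs : HasCompactSupport (w j) := HasCompactSupport.intro hL' (hw2 j)
    have wi := ME8_csq (μ := μ) wc wcs
    have wm : AEStronglyMeasurable (w j) μ := wc.aestronglyMeasurable
    have um : AEStronglyMeasurable (fun x => u x - w j x) μ := hm.sub wm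
    have uw : Integrable (fun x => ‖u x - w j x‖ ^ 2) μ ∧ ∫ x, ‖w j x‖ ^ 2 ∂μ ≤
        2 * ∫ x, ‖u x‖ ^ 2 ∂μ + 2 * ∫ x, ‖w j x - u x‖ ^ 2 ∂μ := by
      have a1 := ME8_add2 μ hm wm.neg hu (by simpa using wi)
      have a2 : Integrable (fun x => ‖u x - w j x‖ ^ 2) μ := by
        have := a1.1
        simpa [sub_eq_add_neg] using this
      have a3 : Integrable (fun x => ‖w j x - u x‖ ^ 2) μ := by
        refine a2.congr (Eventually.of_forall fun x => ?_)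
        show ‖u x - w j x‖ ^ 2 = ‖w j x - u x‖ ^ 2
        rw [norm_sub_rev]
      have a4 := ME8_add2 μ hm (wm.sub hm) hu a3
      refine ⟨a2, ?_⟩
      have a5 := a4.2
      simpa using a5
    obtain ⟨uw1, uw2⟩ := uw
    have usupp : ∀ x, x ∉ L' → u x - w j x = 0 := fun x hx => by rw [hs' x hx, hw2 j x hx, sub_zero]
    have b1 := h2 (fun x => u x - w j x) um uw1 usupp δ hδ
    obtain ⟨r1, r2, r3⟩ := C.ME8_T_hcs (hρ.sm k) (hρc k) ha v hL' hK (hKρ k) wm wi (hw2 j)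
    obtain ⟨o1, o2, o3⟩ := C.ME8_T_hcs (hρ.sm k) (hρc k) ha v hL' hK (hKρ k) um uw1 usupp
    have b2 := ME8_young μ r3 hσi one_pos
    rw [hσq] at b2
    have b3 : ∫ x, ‖C.ME8_T μ (ρ k) a v (w j) x‖ ^ 2 ∂μ ≤ B * ∫ x, ‖w j x‖ ^ 2 ∂μ := by
      have := hfr k (w j) (hw1 j) (hw2 j)
      refine le_trans (le_of_eq ?_) this
      refine integral_congr_ae (Eventually.of_forall fun x => ?_)
      show ‖_‖ ^ 2 = ‖_‖ ^ 2
      rw [C.ME8_T_smooth (hρ.sm k) (hρc k) ha v (hw1 j)]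
    have b4 : ((q : ℝ) : ℂ) = ∫ x, C.ME8_T μ (ρ k) a v (w j) x * (starRingEnd ℂ) (g x) ∂μ +
        ∫ x, C.ME8_T μ (ρ k) a v (fun x => u x - w j x) x * (starRingEnd ℂ) (g x) ∂μ := by
      have n1 : Integrable (fun x => C.ME8_T μ (ρ k) a v (w j) x * (starRingEnd ℂ) (g x)) μ :=
        (r2.mul hcs).integrable_of_hasCompactSupport hσc.mul_left
      have n2 : Integrable (fun x => C.ME8_T μ (ρ k) a v (fun x => u x - w j x) x *
          (starRingEnd ℂ) (g x)) μ :=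
        (o2.mul hcs).integrable_of_hasCompactSupport hσc.mul_left
      rw [← integral_add n1 n2, hq]
      refine (integral_ofReal (𝕜 := ℂ) (μ := μ) (f := fun x => ‖g x‖ ^ 2)).symm.trans ?_
      refine integral_congr_ae (Eventually.of_forall fun x => ?_)
      show ((‖g x‖ ^ 2 : ℝ) : ℂ) = C.ME8_T μ (ρ k) a v (w j) x * (starRingEnd ℂ) (g x) +
        C.ME8_T μ (ρ k) a v (fun x => u x - w j x) x * (starRingEnd ℂ) (g x)
      rw [C.ME8_T_sub (hρ.sm k) (hρc k) ha v hL' hm hu hs' wm wi (hw2 j), ← hg]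
      have := Complex.mul_conj (g x)
      rw [Complex.normSq_eq_norm_sq] at this
      rw [← this]
      ring
    have b5 : q ≤ ‖∫ x, C.ME8_T μ (ρ k) a v (w j) x * (starRingEnd ℂ) (g x) ∂μ‖ +
        ‖∫ x, C.ME8_T μ (ρ k) a v (fun x => u x - w j x) x * (starRingEnd ℂ) (g x) ∂μ‖ := by
      refine le_trans ?_ (norm_add_le _ _)
      rw [← b4, Complex.norm_real]
      exact le_abs_self q
    have b6 : ∫ x, ‖u x - w j x‖ ^ 2 ∂μ = ∫ x, ‖w j x - u x‖ ^ 2 ∂μ := by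
      refine integral_congr_ae (Eventually.of_forall fun x => ?_)
      show ‖u x - w j x‖ ^ 2 = ‖w j x - u x‖ ^ 2
      rw [norm_sub_rev]
    rw [b6] at b1
    rw [← hQ] at uw2
    have b7 := mul_le_mul_of_nonneg_left uw2 hB
    obtain ⟨R, hR⟩ : ∃ R, R = ∫ x, ‖w j x - u x‖ ^ 2 ∂μ := ⟨_, rfl⟩
    rw [← hR] at b1 b7 ⊢
    linarith
  have hfin : q / 2 ≤ B * Q := by
    refine le_of_forall_pos_le_add fun ε hε => ?_
    obtain ⟨δ, hδd⟩ : ∃ δ, δ = 2 * (C2 + 1) / ε := ⟨_, rfl⟩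
    have hδ : 0 < δ := by
      rw [hδd]
      positivity
    have h3 : C2 / δ ≤ ε / 2 := by
      rw [hδd, div_le_iff₀ (by positivity)]
      have : ε / 2 * (2 * (C2 + 1) / ε) = C2 + 1 := by
        field_simp
      rw [this]
      linarith
    have h4 : Tendsto (fun j => (B + δ * C1) * ∫ x, ‖w j x - u x‖ ^ 2 ∂μ) atTop
        (𝓝 ((B + δ * C1) * 0)) := hw3.const_mul _
    rw [mul_zero] at h4
    obtain ⟨j, hj⟩ := (h4.eventually (gt_mem_nhds (half_pos hε))).exists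
    have h5 := key j δ hδ
    linarith
  linarith

/-- convergence for smooth functions -/
private theorem ME8_small {ρ : ℕ → G → ℝ} (hρ : C.GoodMoll μ ρ) {a : G → ℂ} (ha : C.Sm a)
    (v : En n) {L : Set G} (hL : IsCompact L) {u : G → ℂ} (hu : C.Sm u)
    (hs : ∀ x, x ∉ L → u x = 0) :
    Tendsto (fun k => ∫ x, ‖C.ME8_T μ (ρ k) a v u x‖ ^ 2 ∂μ) atTop (𝓝 0) := by
  obtain ⟨K, hK, -, hKρ⟩ := hρ.comp
  have hρc : ∀ k, HasCompactSupport (ρ k) := fun k =>
    hK.of_isClosed_subset isClosed_closure (hKρ k)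
  have hKL : IsCompact (K * L ∪ L) := (hK.mul hL).union hL
  obtain ⟨M, hM, h1⟩ := ME8_mulL2 μ (C.sm_continuous ha) hKL
  obtain ⟨g, hg⟩ : ∃ g : G → ℂ, g = fun y => C.D u y v := ⟨_, rfl⟩
  have gs : C.Sm g := by
    rw [hg]
    exact C.sm_D hu v
  have gc := C.sm_continuous gs
  have ac := C.sm_continuous ha
  have gz : ∀ x, x ∉ L → g x = 0 := by
    rw [hg]
    exact C.ME8_Dzero hL.isClosed hs v
  have gcs : HasCompactSupport g := HasCompactSupport.intro hL gz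
  have ags := C.sm_mul ha gs
  have agc := C.sm_continuous ags
  have agcs : HasCompactSupport (fun x => a x * g x) := gcs.mul_left
  have gi := ME8_csq (μ := μ) gc gcs
  have agi := ME8_csq (μ := μ) agc agcs
  have t1 := mol_tendsto μ (fun k => C.sm_continuous (hρ.sm k)) hρ.nonneg hρ.mass hK hKρ
    hρ.shrink gc.aestronglyMeasurable gi
  have t2 := mol_tendsto μ (fun k => C.sm_continuous (hρ.sm k)) hρ.nonneg hρ.mass hK hKρ
    hρ.shrink agc.aestronglyMeasurable agi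
  have t3 := (t1.const_mul (2 * M)).add (t2.const_mul 2)
  rw [mul_zero, mul_zero, add_zero] at t3
  refine squeeze_zero (fun k => integral_nonneg fun x => by positivity) (fun k => ?_) t3
  have hρ0 : ∀ x, x ∉ K → ρ k x = 0 := fun y hy =>
    image_eq_zero_of_notMem_tsupport fun h => hy (hKρ k h)
  have m1 := C.sm_continuous (C.mol_sm μ (hρ.sm k) (hρc k) (ME8_loc μ gc.aestronglyMeasurable gi))
  have m2 := C.sm_continuous (C.mol_sm μ (hρ.sm k) (hρc k)
    (ME8_loc μ agc.aestronglyMeasurable agi))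
  have d1c : Continuous fun x => Mol μ (ρ k) g x - g x := m1.sub gc
  have d1z : ∀ x, x ∉ K * L ∪ L → Mol μ (ρ k) g x - g x = 0 := by
    intro x hx
    rw [mol_support μ hρ0 gz x fun h => hx (Or.inl h), gz x fun h => hx (Or.inr h), sub_zero]
  have d1 := ME8_csq (μ := μ) d1c (HasCompactSupport.intro hKL d1z)
  have d2c : Continuous fun x => Mol μ (ρ k) (fun x => a x * g x) x - a x * g x := m2.sub agc
  have agz : ∀ x, x ∉ L → a x * g x = 0 := fun x hx => by rw [gz x hx, mul_zero]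
  have d2z : ∀ x, x ∉ K * L ∪ L → Mol μ (ρ k) (fun x => a x * g x) x - a x * g x = 0 := by
    intro x hx
    rw [mol_support μ hρ0 agz x fun h => hx (Or.inl h), agz x fun h => hx (Or.inr h), sub_zero]
  have d2 := ME8_csq (μ := μ) d2c (HasCompactSupport.intro hKL d2z)
  obtain ⟨r1, r2, r3⟩ := h1 _ d1c.aestronglyMeasurable d1 d1z
  have d2' : Integrable (fun x => ‖-(Mol μ (ρ k) (fun x => a x * g x) x - a x * g x)‖ ^ 2) μ := by
    simpa only [norm_neg] using d2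
  have r4 := ME8_add2 μ r1 (f := fun x => a x * (Mol μ (ρ k) g x - g x))
    (g := fun x => -(Mol μ (ρ k) (fun x => a x * g x) x - a x * g x))
    d2c.neg.aestronglyMeasurable r2 d2'
  have e1 : ∀ x, C.ME8_T μ (ρ k) a v u x = a x * (Mol μ (ρ k) g x - g x) +
      -(Mol μ (ρ k) (fun x => a x * g x) x - a x * g x) := by
    intro x
    rw [C.ME8_T_smooth (hρ.sm k) (hρc k) ha v hu,
      C.mol_D μ (C.sm_continuous (hρ.sm k)) (hρc k) hu v x, ← hg]
    have e2 : (fun y => a y * C.D u y v) = fun y => a y * g y := by rw [hg]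
    rw [e2]
    ring
  simp only [e1]
  refine r4.2.trans ?_
  have e3 : ∫ x, ‖-(Mol μ (ρ k) (fun x => a x * g x) x - a x * g x)‖ ^ 2 ∂μ =
      ∫ x, ‖Mol μ (ρ k) (fun x => a x * g x) x - a x * g x‖ ^ 2 ∂μ := by
    simp only [norm_neg]
  rw [e3]
  linarith

private theorem ME8_conv {cR : En n →L[ℝ] ℝ} (hc : C.IsPartR μ cR) {ρ : ℕ → G → ℝ}
    (hρ : C.GoodMoll μ ρ) {a : G → ℂ} (ha : C.Sm a) (v : En n) {L : Set G} (hL : IsCompact L)
    {u : G → ℂ} (hm : AEStronglyMeasurable u μ) (hu : Integrable (fun x => ‖u x‖ ^ 2) μ)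
    (hs : ∀ x, x ∉ L → u x = 0) :
    Tendsto (fun k => ∫ x, ‖C.ME8_T μ (ρ k) a v u x‖ ^ 2 ∂μ) atTop (𝓝 0) := by
  obtain ⟨L', hL', hLL', happ⟩ := C.ME8_approx μ hL
  obtain ⟨B, hB, hbd⟩ := C.ME8_bound μ hc hρ ha v hL'
  obtain ⟨K, hK, -, hKρ⟩ := hρ.comp
  have hρc : ∀ k, HasCompactSupport (ρ k) := fun k =>
    hK.of_isClosed_subset isClosed_closure (hKρ k)
  have hs' : ∀ x, x ∉ L' → u x = 0 := fun x hx => hs x fun h => hx (hLL' h)
  obtain ⟨w, hw1, hw2, hw3⟩ := happ u hm hu hs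
  rw [Metric.tendsto_nhds]
  intro ε hε
  have h4 : Tendsto (fun j => (2 * B) * ∫ x, ‖w j x - u x‖ ^ 2 ∂μ) atTop
      (𝓝 ((2 * B) * 0)) := hw3.const_mul _
  rw [mul_zero] at h4
  obtain ⟨j, hj⟩ := (h4.eventually (gt_mem_nhds (half_pos hε))).exists
  have h5 := (C.ME8_small μ hρ ha v hL' (hw1 j) (hw2 j)).const_mul 2
  rw [mul_zero] at h5
  filter_upwards [h5.eventually (gt_mem_nhds (half_pos hε))] with k hk
  have wc := C.sm_continuous (hw1 j)
  have wcs : HasCompactSupport (w j) := HasCompactSupport.intro hL' (hw2 j)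
  have wi := ME8_csq (μ := μ) wc wcs
  have wm : AEStronglyMeasurable (w j) μ := wc.aestronglyMeasurable
  have um : AEStronglyMeasurable (fun x => u x - w j x) μ := hm.sub wm
  have uw1 : Integrable (fun x => ‖u x - w j x‖ ^ 2) μ := by
    have a1 := ME8_add2 μ hm wm.neg hu (by simpa using wi)
    have := a1.1
    simpa [sub_eq_add_neg] using this
  have usupp : ∀ x, x ∉ L' → u x - w j x = 0 := fun x hx => by rw [hs' x hx, hw2 j x hx, sub_zero]
  have b1 := hbd k (fun x => u x - w j x) um uw1 usupp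
  have b6 : ∫ x, ‖u x - w j x‖ ^ 2 ∂μ = ∫ x, ‖w j x - u x‖ ^ 2 ∂μ := by
    refine integral_congr_ae (Eventually.of_forall fun x => ?_)
    show ‖u x - w j x‖ ^ 2 = ‖w j x - u x‖ ^ 2
    rw [norm_sub_rev]
  rw [b6] at b1
  obtain ⟨r1, r2, r3⟩ := C.ME8_T_hcs (hρ.sm k) (hρc k) ha v hL' hK (hKρ k) wm wi (hw2 j)
  obtain ⟨o1, o2, o3⟩ := C.ME8_T_hcs (hρ.sm k) (hρc k) ha v hL' hK (hKρ k) um uw1 usupp
  have b7 := (ME8_add2 μ o2.aestronglyMeasurable r2.aestronglyMeasurable o3 r3).2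
  have b8 : ∫ x, ‖C.ME8_T μ (ρ k) a v u x‖ ^ 2 ∂μ =
      ∫ x, ‖C.ME8_T μ (ρ k) a v (fun x => u x - w j x) x +
        C.ME8_T μ (ρ k) a v (w j) x‖ ^ 2 ∂μ := by
    refine integral_congr_ae (Eventually.of_forall fun x => ?_)
    show ‖_‖ ^ 2 = ‖_‖ ^ 2
    rw [C.ME8_T_sub (hρ.sm k) (hρc k) ha v hL' hm hu hs' wm wi (hw2 j), sub_add_cancel]
  rw [Real.dist_eq, sub_zero, abs_of_nonneg (integral_nonneg fun x => by positivity), b8]
  refine b7.trans_lt ?_
  have b9 := mul_le_mul_of_nonneg_left b1 (show (0 : ℝ) ≤ 2 by norm_num)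
  linarith

/-- the mollified weak value -/
private theorem ME8_value {cR : En n →L[ℝ] ℝ} (hc : C.IsPartR μ cR) {ρ : G → ℝ} (hρ : C.Sm ρ)
    (hρc : HasCompactSupport ρ) {ι : Type*} [Fintype ι] {a : ι → G → ℂ} (ha : ∀ i, C.Sm (a i))
    (v : ι → En n) {u : ι → G → ℂ} (hum : ∀ i, AEStronglyMeasurable (u i) μ)
    (hu : ∀ i, Integrable (fun x => ‖u i x‖ ^ 2) μ) {L : Set G} (hL : IsCompact L)
    (hus : ∀ i x, x ∉ L → u i x = 0) {w : G → ℂ} (hwm : AEStronglyMeasurable w μ)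
    (hw : Integrable (fun x => ‖w x‖ ^ 2) μ)
    (hweak : ∀ τ : G → ℂ, C.Sm τ → HasCompactSupport τ → ∫ x, w x * τ x ∂μ =
      - ∑ i, ∫ x, u i x * (C.D (fun y => a i y * τ y) x (v i) -
        (cR (v i) : ℂ) * (a i x * τ x)) ∂μ) (x : G) :
    Mol μ ρ w x = ∑ i, (C.D (Mol μ ρ (fun y => a i y * u i y)) x (v i) -
      Mol μ ρ (fun y => C.D (a i) y (v i) * u i y) x) := by
  have h1 : ∀ i, LocallyIntegrable (fun y => a i y * u i y) μ := fun i => by
    obtain ⟨_, _, h1⟩ := ME8_mulL2 μ (C.sm_continuous (ha i)) hL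
    obtain ⟨p1, p2, -⟩ := h1 (u i) (hum i) (hu i) (hus i)
    exact ME8_loc μ p1 p2
  have h2 : ∀ i, LocallyIntegrable (fun y => C.D (a i) y (v i) * u i y) μ := fun i => by
    obtain ⟨_, _, h1⟩ := ME8_mulL2 μ (C.sm_continuous (C.sm_D (ha i) (v i))) hL
    obtain ⟨p1, p2, -⟩ := h1 (u i) (hum i) (hu i) (hus i)
    exact ME8_loc μ p1 p2
  have sw := C.mol_sm μ hρ hρc (ME8_loc μ hwm hw)
  have s1 := fun i => C.mol_sm μ hρ hρc (h1 i)
  have s2 := fun i => C.mol_sm μ hρ hρc (h2 i)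
  have s3 : ∀ i, C.Sm (fun x => C.D (Mol μ ρ (fun y => a i y * u i y)) x (v i) -
      Mol μ ρ (fun y => C.D (a i) y (v i) * u i y) x) := fun i =>
    C.sm_sub (C.sm_D (s1 i) (v i)) (s2 i)
  have hρ' := C.sm_continuous hρ
  rw [← sub_eq_zero]
  refine C.ME8_zero μ (g := fun x => Mol μ ρ w x -
    ∑ i, (C.D (Mol μ ρ (fun y => a i y * u i y)) x (v i) -
      Mol μ ρ (fun y => C.D (a i) y (v i) * u i y) x))
    (C.sm_sub sw (C.sm_sum Finset.univ fun i _ => s3 i)) (fun τ hτ hτc => ?_) x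
  have cτ := C.sm_continuous hτ
  have cw := C.sm_continuous sw
  have c1 := fun i => C.sm_continuous (C.sm_D (s1 i) (v i))
  have c2 := fun i => C.sm_continuous (s2 i)
  have i0 : Integrable (fun x => Mol μ ρ w x * τ x) μ :=
    (cw.mul cτ).integrable_of_hasCompactSupport hτc.mul_left
  have i1 : ∀ i, Integrable (fun x => C.D (Mol μ ρ (fun y => a i y * u i y)) x (v i) * τ x) μ :=
    fun i => ((c1 i).mul cτ).integrable_of_hasCompactSupport hτc.mul_left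
  have i2 : ∀ i, Integrable (fun x => Mol μ ρ (fun y => C.D (a i) y (v i) * u i y) x * τ x) μ :=
    fun i => ((c2 i).mul cτ).integrable_of_hasCompactSupport hτc.mul_left
  have e0 : ∀ x, (Mol μ ρ w x - ∑ i, (C.D (Mol μ ρ (fun y => a i y * u i y)) x (v i) -
      Mol μ ρ (fun y => C.D (a i) y (v i) * u i y) x)) * τ x = Mol μ ρ w x * τ x -
      ∑ i, (C.D (Mol μ ρ (fun y => a i y * u i y)) x (v i) * τ x -
        Mol μ ρ (fun y => C.D (a i) y (v i) * u i y) x * τ x) := by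
    intro x
    rw [sub_mul, Finset.sum_mul]
    congr 1
    refine Finset.sum_congr rfl fun i _ => ?_
    ring
  simp only [e0]
  have i3 : Integrable (fun x => ∑ i, (C.D (Mol μ ρ (fun y => a i y * u i y)) x (v i) * τ x -
        Mol μ ρ (fun y => C.D (a i) y (v i) * u i y) x * τ x)) μ :=
    integrable_finsetSum _ fun i _ => (i1 i).sub (i2 i)
  have i4 : ∀ i ∈ Finset.univ, Integrable (fun x =>
      C.D (Mol μ ρ (fun y => a i y * u i y)) x (v i) * τ x -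
        Mol μ ρ (fun y => C.D (a i) y (v i) * u i y) x * τ x) μ := fun i _ => (i1 i).sub (i2 i)
  rw [integral_sub i0 i3, integral_finsetSum _ i4, sub_eq_zero]
  -- the test functions
  obtain ⟨θ, hθ⟩ : ∃ θ : ι → G → ℂ, θ = fun i x => C.D τ x (v i) - (cR (v i) : ℂ) * τ x :=
    ⟨_, rfl⟩
  have cθ : ∀ i, Continuous (θ i) := fun i => by
    rw [hθ]
    exact (C.sm_continuous (C.sm_D hτ (v i))).sub (continuous_const.mul cτ)
  have sθ : ∀ i, HasCompactSupport (θ i) := fun i => by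
    rw [hθ]
    have := hτc.mul_left (f := fun _ => (cR (v i) : ℂ))
    exact (C.ME8_DSupp hτc (v i)).sub this
  have f0 := ME8_fub μ hρ' hρc (ME8_loc μ hwm hw) cτ hτc
  have f1 := fun i => ME8_fub μ hρ' hρc (h2 i) cτ hτc
  have f2 := fun i => ME8_fub μ hρ' hρc (h1 i) (cθ i) (sθ i)
  have hint : ∀ (g σ : G → ℂ), LocallyIntegrable g μ → Continuous σ → HasCompactSupport σ →
      ∀ y : G, Integrable (fun x => g x * σ (y * x)) μ := by
    intro g σ hg hσ hσc y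
    have j1 := hg.integrable_smul_left_of_hasCompactSupport
      (hσ.comp (continuous_const_mul y)) (hσc.comp_homeomorph (Homeomorph.mulLeft y))
    refine j1.congr (Eventually.of_forall fun x => ?_)
    show σ (y * x) * g x = g x * σ (y * x)
    ring
  have hy : ∀ y, ∫ x, w x * τ (y * x) ∂μ = -∑ i, ((∫ x, C.D (a i) x (v i) * u i x * τ (y * x) ∂μ) +
      ∫ x, a i x * u i x * θ i (y * x) ∂μ) := by
    intro y
    have j1 := hweak (fun x => τ (y * x)) (C.sm_left hτ y)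
      (hτc.comp_homeomorph (Homeomorph.mulLeft y))
    rw [j1]
    congr 1
    refine Finset.sum_congr rfl fun i _ => ?_
    rw [← integral_add (hint _ _ (h2 i) cτ hτc y) (hint _ _ (h1 i) (cθ i) (sθ i) y)]
    refine integral_congr_ae (Eventually.of_forall fun x => ?_)
    show u i x * (C.D (fun z => a i z * τ (y * z)) x (v i) -
      (cR (v i) : ℂ) * (a i x * τ (y * x))) = C.D (a i) x (v i) * u i x * τ (y * x) +
        a i x * u i x * θ i (y * x)
    rw [C.CA3_D_mul (ha i) (C.sm_left hτ y), C.D_left, hθ]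
    ring
  rw [f0.2]
  have e1 : ∀ y, (ρ y : ℂ) * ∫ x, w x * τ (y * x) ∂μ =
      -∑ i, ((ρ y : ℂ) * (∫ x, C.D (a i) x (v i) * u i x * τ (y * x) ∂μ) +
        (ρ y : ℂ) * ∫ x, a i x * u i x * θ i (y * x) ∂μ) := by
    intro y
    rw [hy y, mul_neg, Finset.mul_sum]
    congr 1
    refine Finset.sum_congr rfl fun i _ => ?_
    ring
  simp only [e1]
  have i5 : ∀ i ∈ Finset.univ, Integrable (fun y =>
      (ρ y : ℂ) * (∫ x, C.D (a i) x (v i) * u i x * τ (y * x) ∂μ) +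
        (ρ y : ℂ) * ∫ x, a i x * u i x * θ i (y * x) ∂μ) μ := fun i _ => (f1 i).1.add (f2 i).1
  rw [integral_neg, integral_finsetSum _ i5, ← Finset.sum_neg_distrib]
  refine Finset.sum_congr rfl fun i _ => ?_
  have g1 := C.ME8_ibp hc (s1 i) hτ hτc (v i)
  have g2 : ∫ x, Mol μ ρ (fun y => a i y * u i y) x * (C.D τ x (v i) - (cR (v i) : ℂ) * τ x) ∂μ =
      ∫ x, Mol μ ρ (fun y => a i y * u i y) x * θ i x ∂μ := by rw [hθ]
  rw [g2, (f2 i).2] at g1
  rw [integral_add (f1 i).1 (f2 i).1, integral_sub (i1 i) (i2 i), g1, (f1 i).2]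
  ring

/-- smooth functions with compact support are dense in `L²` (of functions supported in a compact
set): `Mol` of `u`. -/
theorem exists_smooth_approx {u : G → ℂ} (hm : AEStronglyMeasurable u μ)
    (hu : Integrable (fun x => ‖u x‖ ^ 2) μ) {L : Set G} (hL : IsCompact L)
    (hs : ∀ x, x ∉ L → u x = 0) :
    ∃ L' : Set G, IsCompact L' ∧ L ⊆ L' ∧ ∃ w : ℕ → G → ℂ, (∀ k, C.Sm (w k)) ∧
      (∀ k x, x ∉ L' → w k x = 0) ∧
      Tendsto (fun k => ∫ x, ‖w k x - u x‖ ^ 2 ∂μ) atTop (𝓝 0) := by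
  obtain ⟨L', h1, h2, h3⟩ := C.ME8_approx μ hL
  exact ⟨L', h1, h2, h3 u hm hu hs⟩

/-- Lemma of Friedrichs for a first order operator `u ↦ Σ a_i D_{v_i} u_i` (a finite sum).
`w` is the weak value of the operator. Proof. Let
`T_k(u) = Σ a_i D_{v_i}(Mol ρ_k u_i) - Mol ρ_k (Σ a_i D_{v_i} u_i)` for smooth `u`; by
`friedrichs_bound` it is bounded in `L²` uniformly in `k`, and `T_k(u) → 0` for smooth `u`
(`mol_D`, `mol_tendsto`; `a` is bounded on compact sets). Let `u^j → u` be smooth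
(`exists_smooth_approx`). For fixed `k` and a test function `τ`,
`∫ (Mol ρ_k w) τ = ∫ w τ'` with `τ' x = ∫ ρ_k(y) τ(yx)dμ(y)` (`mol_transpose`), which by the weak
relation is the limit of the same expressions for `u^j` (where it is
`∫ Mol ρ_k (Σ a_i D_{v_i} u^j_i) τ`); and `D_{v}(Mol ρ_k u^j_i) → D_v(Mol ρ_k u_i)` uniformly. So
`Σ a_i D_{v_i}(Mol ρ_k u_i) - Mol ρ_k w` is the weak limit of `T_k(u^j)`, hence its distance from
`T_k(u^j)` is at most `C ‖u - u^j‖`. Let `k → ∞`, then `j → ∞`; `Mol ρ_k w → w`. -/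
theorem friedrichs {cR : En n →L[ℝ] ℝ} (hc : C.IsPartR μ cR) {ρ : ℕ → G → ℝ}
    (hρ : C.GoodMoll μ ρ) {ι : Type*} [Fintype ι] {a : ι → G → ℂ} (ha : ∀ i, C.Sm (a i))
    (v : ι → En n) {u : ι → G → ℂ} (hum : ∀ i, AEStronglyMeasurable (u i) μ)
    (hu : ∀ i, Integrable (fun x => ‖u i x‖ ^ 2) μ) {L : Set G} (hL : IsCompact L)
    (hus : ∀ i x, x ∉ L → u i x = 0) {w : G → ℂ} (hwm : AEStronglyMeasurable w μ)
    (hw : Integrable (fun x => ‖w x‖ ^ 2) μ) (hws : ∀ x, x ∉ L → w x = 0)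
    (hweak : ∀ τ : G → ℂ, C.Sm τ → HasCompactSupport τ → ∫ x, w x * τ x ∂μ =
      - ∑ i, ∫ x, u i x * (C.D (fun y => a i y * τ y) x (v i) -
        (cR (v i) : ℂ) * (a i x * τ x)) ∂μ) :
    Tendsto (fun k => ∫ x, ‖(∑ i, a i x * C.D (Mol μ (ρ k) (u i)) x (v i)) - w x‖ ^ 2 ∂μ)
      atTop (𝓝 0) := by
  obtain ⟨K, hK, -, hKρ⟩ := hρ.comp
  have hρc : ∀ k, HasCompactSupport (ρ k) := fun k =>
    hK.of_isClosed_subset isClosed_closure (hKρ k)
  have t1 := mol_tendsto μ (fun k => C.sm_continuous (hρ.sm k)) hρ.nonneg hρ.mass hK hKρ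
    hρ.shrink hwm hw
  have t2 := tendsto_finset_sum Finset.univ fun i _ =>
    C.ME8_conv μ hc hρ (ha i) (v i) hL (hum i) (hu i) (hus i)
  rw [Finset.sum_const_zero] at t2
  have t3 := (t2.const_mul (2 * (Fintype.card ι : ℝ))).add (t1.const_mul 2)
  rw [mul_zero, mul_zero, add_zero] at t3
  refine squeeze_zero (fun k => integral_nonneg fun x => by positivity) (fun k => ?_) t3
  have hT := fun i => C.ME8_T_hcs (hρ.sm k) (hρc k) (ha i) (v i) hL hK (hKρ k) (hum i) (hu i)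
    (hus i)
  obtain ⟨S, hS⟩ : ∃ S : G → ℂ, S = fun x => ∑ i, C.ME8_T μ (ρ k) (a i) (v i) (u i) x :=
    ⟨_, rfl⟩
  have hSc : Continuous S := by
    rw [hS]
    exact continuous_finset_sum _ fun i _ => (hT i).2.1
  have hSz : ∀ x, x ∉ K * L → S x = 0 := by
    intro x hx
    rw [hS]
    exact Finset.sum_eq_zero fun i _ => C.ME8_T_supp (v i) hK (hKρ k) hL (hus i) x hx
  have hSi := ME8_csq (μ := μ) hSc (HasCompactSupport.intro (hK.mul hL) hSz)
  have m1 := C.sm_continuous (C.mol_sm μ (hρ.sm k) (hρc k) (ME8_loc μ hwm hw))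
  have m2 := (mol_L2 μ (C.sm_continuous (hρ.sm k)) (hρc k) (hρ.nonneg k) hwm hw).1
  have m3 : Integrable (fun x => ‖Mol μ (ρ k) w x - w x‖ ^ 2) μ := by
    have := (ME8_add2 μ m1.aestronglyMeasurable hwm.neg m2 (by simpa using hw)).1
    simpa [sub_eq_add_neg] using this
  have r1 := (ME8_add2 μ hSc.aestronglyMeasurable (m1.aestronglyMeasurable.sub hwm) hSi m3).2
  have e1 : ∀ x, (∑ i, a i x * C.D (Mol μ (ρ k) (u i)) x (v i)) - w x =
      S x + (Mol μ (ρ k) w x - w x) := by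
    intro x
    rw [C.ME8_value μ hc (hρ.sm k) (hρc k) ha v hum hu hL hus hwm hw hweak x, hS]
    simp only [ME8_T]
    rw [Finset.sum_sub_distrib, Finset.sum_add_distrib, Finset.sum_sub_distrib]
    ring
  simp only [e1]
  refine r1.trans ?_
  have r2 : ∫ x, ‖S x‖ ^ 2 ∂μ ≤
      Fintype.card ι * ∑ i, ∫ x, ‖C.ME8_T μ (ρ k) (a i) (v i) (u i) x‖ ^ 2 ∂μ := by
    rw [← integral_finsetSum _ fun i _ => (hT i).2.2, ← integral_const_mul]
    refine integral_mono hSi ((integrable_finsetSum _ fun i _ => (hT i).2.2).const_mul _)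
      fun x => ?_
    show ‖S x‖ ^ 2 ≤ (Fintype.card ι : ℝ) * ∑ i, ‖C.ME8_T μ (ρ k) (a i) (v i) (u i) x‖ ^ 2
    have h1 : ‖S x‖ ≤ ∑ i, ‖C.ME8_T μ (ρ k) (a i) (v i) (u i) x‖ := by
      rw [hS]
      exact norm_sum_le _ _
    have h2 := sq_sum_le_card_mul_sum_sq (s := Finset.univ)
      (f := fun i => ‖C.ME8_T μ (ρ k) (a i) (v i) (u i) x‖)
    rw [Finset.card_univ] at h2
    refine le_trans ?_ h2
    have := norm_nonneg (S x)
    gcongr
  have r3 := mul_le_mul_of_nonneg_left r2 (show (0 : ℝ) ≤ 2 by norm_num)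
  rw [← mul_assoc] at r3
  exact add_le_add_left r3 _

end CLG

end HR
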