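import Pool.Agent.W_06f097_h43.HB2
import Pool.Agent.W_06f097_h43.HB4
import Pool.Agent.W_06f097_h43.HB1
import Pool.Agent.W_06f097_h43.ME8

/-! MP_06f097_an blueprint, block HB: the basic inequality for weakly closed fields. -/

open scoped Topology ContDiff
open MeasureTheory Set Filter Metric

noncomputable section

namespace HR

namespace CLG

variable {n : ℕ} {G : Type*} [Group G] [TopologicalSpace G] [IsTopologicalGroup G] [T2Space G]
  [LocallyCompactSpace G] [SecondCountableTopology G] [MeasurableSpace G] [BorelSpace G]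
  (C : CLG n G) (μ : Measure G) [μ.IsHaarMeasure]

omit [T2Space G] [LocallyCompactSpace G] [SecondCountableTopology G] [MeasurableSpace G]
  [BorelSpace G] in
private lemma hb6_van {M : Set G} (hM : IsClosed M) {g : G → ℂ} (hg : ∀ x, x ∉ M → g x = 0)
    {x : G} (hx : x ∉ M) (j : Fin n) : C.X j g x = 0 ∧ C.Xb j g x = 0 := by
  have h : g =ᶠ[𝓝 x] fun _ => 0 := by
    filter_upwards [hM.isOpen_compl.mem_nhds hx] with y hy using hg y hy
  rw [C.X_congr h, C.Xb_congr h, C.X_const, C.Xb_const]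
  exact ⟨rfl, rfl⟩

omit [Group G] [TopologicalSpace G] [IsTopologicalGroup G] [T2Space G]
  [LocallyCompactSpace G] [SecondCountableTopology G] [MeasurableSpace G] [BorelSpace G] in
private lemma hb6_young0 {t : ℝ} (ht : 0 < t) (x y : ℝ) :
    (x + y) ^ 2 ≤ (1 + t) * x ^ 2 + (1 + 1 / t) * y ^ 2 := by
  have h1 : (1 + t) * x ^ 2 + (1 + 1 / t) * y ^ 2 - (x + y) ^ 2 = (t * x - y) ^ 2 / t := by
    field_simp
    ring
  have h2 : 0 ≤ (t * x - y) ^ 2 / t := by positivity
  linarith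

private lemma hb6_young {t : ℝ} (ht : 0 < t) (a b : ℂ) :
    ‖a‖ ^ 2 ≤ (1 + t) * ‖b‖ ^ 2 + (1 + 1 / t) * ‖a - b‖ ^ 2 := by
  have h1 : ‖a‖ ≤ ‖b‖ + ‖a - b‖ := by
    calc ‖a‖ = ‖b + (a - b)‖ := by rw [add_sub_cancel]
      _ ≤ _ := norm_add_le _ _
  have h2 : ‖a‖ ^ 2 ≤ (‖b‖ + ‖a - b‖) ^ 2 := pow_le_pow_left₀ (norm_nonneg _) h1 2
  exact h2.trans (hb6_young0 ht _ _)

omit [IsTopologicalGroup G] [T2Space G] [LocallyCompactSpace G] [SecondCountableTopology G]
  [MeasurableSpace G] [BorelSpace G] in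
private lemma hb6_lv {φ : G → ℝ} {x : G} (h : ∀ b, 0 ≤ C.Lv φ x b) {t : ℝ} (ht : 0 < t)
    (b d : En n) :
    C.Lv φ x b ≤ (1 + t) * C.Lv φ x d + (1 + 1 / t) * C.Lv φ x (fun j => b j - d j) := by
  obtain ⟨τ, hτ, rfl⟩ : ∃ τ : ℝ, 0 < τ ∧ τ ^ 2 = t :=
    ⟨Real.sqrt t, Real.sqrt_pos.2 ht, Real.sq_sqrt ht.le⟩
  have key : (1 + τ ^ 2) * C.Lv φ x d + (1 + 1 / τ ^ 2) * C.Lv φ x (fun j => b j - d j) -
      C.Lv φ x b = C.Lv φ x (fun j => (τ : ℂ) * d j - (τ⁻¹ : ℝ) * (b j - d j)) := by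
    have e : ∀ (r : ℝ) (z : ℂ), r * z.re = ((r : ℂ) * z).re := fun r z => by simp
    simp only [CLG.Lv, e]
    rw [← Complex.add_re, ← Complex.sub_re]
    congr 1
    simp only [Finset.mul_sum, ← Finset.sum_add_distrib, ← Finset.sum_sub_distrib]
    refine Finset.sum_congr rfl fun j _ => Finset.sum_congr rfl fun k _ => ?_
    simp only [map_sub, map_mul, Complex.conj_ofReal]
    have hτ' : (τ : ℂ) ≠ 0 := by exact_mod_cast hτ.ne'
    push_cast
    field_simp
    ring
  have := h (fun j => (τ : ℂ) * d j - (τ⁻¹ : ℝ) * (b j - d j))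
  linarith

/-- convergence to `0` in `L²` -/
private def HB6T (F : ℕ → G → ℂ) : Prop :=
  (∀ k, MemLp (F k) 2 μ) ∧ Tendsto (fun k => ∫ x, ‖F k x‖ ^ 2 ∂μ) atTop (𝓝 0)

omit [Group G] [TopologicalSpace G] [IsTopologicalGroup G] [T2Space G]
  [LocallyCompactSpace G] [SecondCountableTopology G] [BorelSpace G] in
private lemma hb6_int {f : G → ℂ} {μ : Measure G} (hf : MemLp f 2 μ) :
    Integrable (fun x => ‖f x‖ ^ 2) μ :=
  (memLp_two_iff_integrable_sq_norm hf.aestronglyMeasurable).1 hf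

omit [Group G] [TopologicalSpace G] [IsTopologicalGroup G] [T2Space G]
  [LocallyCompactSpace G] [SecondCountableTopology G] [BorelSpace G] in
private lemma hb6_T_le {μ : Measure G} {F : ℕ → G → ℂ} (hF : ∀ k, MemLp (F k) 2 μ) {b : ℕ → ℝ}
    (hb : Tendsto b atTop (𝓝 0)) (h : ∀ k, ∫ x, ‖F k x‖ ^ 2 ∂μ ≤ b k) : HB6T μ F :=
  ⟨hF, squeeze_zero (fun k => integral_nonneg fun x => by positivity) h hb⟩

omit [Group G] [TopologicalSpace G] [IsTopologicalGroup G] [T2Space G]
  [LocallyCompactSpace G] [SecondCountableTopology G] [BorelSpace G] in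
private lemma hb6_T_add {μ : Measure G} {F H : ℕ → G → ℂ} (hF : HB6T μ F) (hH : HB6T μ H) :
    HB6T μ fun k x => F k x + H k x := by
  refine hb6_T_le (fun k => (hF.1 k).add (hH.1 k))
    (b := fun k => 2 * ∫ x, ‖F k x‖ ^ 2 ∂μ + 2 * ∫ x, ‖H k x‖ ^ 2 ∂μ) ?_ fun k => ?_
  · simpa using (hF.2.const_mul 2).add (hH.2.const_mul 2)
  · have i1 := hb6_int (hF.1 k)
    have i2 := hb6_int (hH.1 k)
    rw [← integral_const_mul, ← integral_const_mul,
      ← integral_add (i1.const_mul 2) (i2.const_mul 2)]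
    refine integral_mono (hb6_int ((hF.1 k).add (hH.1 k)))
      ((i1.const_mul 2).add (i2.const_mul 2)) fun x => ?_
    have h1 : ‖F k x + H k x‖ ^ 2 ≤ (‖F k x‖ + ‖H k x‖) ^ 2 :=
      pow_le_pow_left₀ (norm_nonneg _) (norm_add_le _ _) 2
    have h2 : 0 ≤ (‖F k x‖ - ‖H k x‖) ^ 2 := sq_nonneg _
    simp only [Pi.add_apply]
    nlinarith

omit [Group G] [TopologicalSpace G] [IsTopologicalGroup G] [T2Space G]
  [LocallyCompactSpace G] [SecondCountableTopology G] [BorelSpace G] in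
private lemma hb6_T_sum {μ : Measure G} {ι : Type*} (s : Finset ι) {F : ι → ℕ → G → ℂ}
    (hF : ∀ i ∈ s, HB6T μ (F i)) : HB6T μ fun k x => ∑ i ∈ s, F i k x := by
  classical
  induction s using Finset.induction_on with
  | empty =>
    refine ⟨fun k => by simp, ?_⟩
    simp
  | insert a s ha ih =>
    have h1 := hb6_T_add (hF a (Finset.mem_insert_self _ _))
      (ih fun i hi => hF i (Finset.mem_insert_of_mem hi))
    simpa only [Finset.sum_insert ha] using h1

omit [Group G] [IsTopologicalGroup G] [T2Space G] [LocallyCompactSpace G] in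
/-- product with a continuous function, supports in a compact set -/
private lemma hb6_mul {μ : Measure G} {M : Set G} (hM : IsCompact M) {a u : G → ℂ}
    (ha : Continuous a) (hu : MemLp u 2 μ) (huM : ∀ x, x ∉ M → u x = 0) :
    MemLp (fun x => a x * u x) 2 μ := by
  obtain ⟨B, hB⟩ := hM.exists_bound_of_continuousOn ha.continuousOn
  refine hu.of_le_mul (c := B) (ha.aestronglyMeasurable.mul hu.aestronglyMeasurable)
    (Eventually.of_forall fun x => ?_)
  by_cases hx : x ∈ M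
  · rw [norm_mul]
    exact mul_le_mul_of_nonneg_right (hB x hx) (norm_nonneg _)
  · rw [huM x hx]
    simp

omit [Group G] [IsTopologicalGroup G] [T2Space G] [LocallyCompactSpace G] in
private lemma hb6_T_mul {μ : Measure G} {M : Set G} (hM : IsCompact M) {a : G → ℂ}
    (ha : Continuous a) {F : ℕ → G → ℂ} (hF : HB6T μ F) (hFM : ∀ k x, x ∉ M → F k x = 0) :
    HB6T μ fun k x => a x * F k x := by
  obtain ⟨B, hB⟩ := hM.exists_bound_of_continuousOn ha.continuousOn
  refine hb6_T_le (fun k => hb6_mul hM ha (hF.1 k) (hFM k))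
    (b := fun k => B ^ 2 * ∫ x, ‖F k x‖ ^ 2 ∂μ) (by simpa using hF.2.const_mul (B ^ 2))
    fun k => ?_
  rw [← integral_const_mul]
  refine integral_mono (hb6_int (hb6_mul hM ha (hF.1 k) (hFM k)))
    ((hb6_int (hF.1 k)).const_mul _) fun x => ?_
  by_cases hx : x ∈ M
  · simp only [norm_mul, mul_pow]
    exact mul_le_mul_of_nonneg_right (pow_le_pow_left₀ (norm_nonneg _) (hB x hx) 2)
      (by positivity)
  · simp [hFM k x hx]

omit [T2Space G] [LocallyCompactSpace G] in
private lemma hb6_cc {g : G → ℂ} (hg : Continuous g) (hc : HasCompactSupport g)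
    [IsFiniteMeasureOnCompacts μ] : MemLp g 2 μ :=
  hg.memLp_of_hasCompactSupport hc

omit [T2Space G] [LocallyCompactSpace G] [SecondCountableTopology G] [MeasurableSpace G]
  [BorelSpace G] [IsTopologicalGroup G] in
private lemma hb6_D_const {g : G → ℂ} (hg : C.Sm g) (p : ℂ) (x : G) (v : En n) :
    C.D (fun y => p * g y) x v = p * C.D g x v := by
  have h1 : C.co (fun y => p * g y) x = fun z => p * C.co g x z := rfl
  have h2 : DifferentiableAt ℝ (C.co g x) 0 := (hg x).differentiableAt (by simp)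
  rw [CLG.D, CLG.D, h1, fderiv_const_mul h2]
  simp

/-- complex form of the lemma of Friedrichs -/
private lemma hb6_fried {cR : En n →L[ℝ] ℝ} (hc : C.IsPartR μ cR) {ρ : ℕ → G → ℝ}
    (hρ : C.GoodMoll μ ρ) {ι : Type} [Fintype ι] {a : ι → G → ℂ} (ha : ∀ i, C.Sm (a i))
    (p q : ι → ℂ) (v v' : ι → En n) {u : ι → G → ℂ} (hu : ∀ i, MemLp (u i) 2 μ)
    {L : Set G} (hL : IsCompact L) (hus : ∀ i x, x ∉ L → u i x = 0) {w : G → ℂ}
    (hw : MemLp w 2 μ) (hws : ∀ x, x ∉ L → w x = 0)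
    (hweak : ∀ τ : G → ℂ, C.Sm τ → HasCompactSupport τ → ∫ x, w x * τ x ∂μ =
      - ∑ i, ∫ x, u i x * (p i * C.D (fun y => a i y * τ y) x (v i) +
        q i * C.D (fun y => a i y * τ y) x (v' i) -
        (p i * (cR (v i) : ℂ) + q i * (cR (v' i) : ℂ)) * (a i x * τ x)) ∂μ) :
    Tendsto (fun k => ∫ x, ‖(∑ i, a i x * (p i * C.D (Mol μ (ρ k) (u i)) x (v i) +
      q i * C.D (Mol μ (ρ k) (u i)) x (v' i))) - w x‖ ^ 2 ∂μ) atTop (𝓝 0) := by
  have hint : ∀ (i : ι) {g : G → ℂ}, Continuous g → HasCompactSupport g →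
      Integrable (fun x => u i x * g x) μ := fun i g hg hgc =>
    (hu i).integrable_mul (hb6_cc μ hg hgc)
  have hcs : ∀ (g : G → ℂ), C.Sm g → HasCompactSupport g → ∀ v : En n,
      Continuous (fun x => C.D g x v) ∧ HasCompactSupport fun x => C.D g x v := by
    intro g hg hgc v
    refine ⟨C.sm_continuous (C.sm_D hg v), HasCompactSupport.intro hgc fun x hx => ?_⟩
    have h1 : g =ᶠ[𝓝 x] fun _ => 0 := notMem_tsupport_iff_eventuallyEq.1 hx
    rw [C.D_congr h1]
    have h2 : C.co (fun _ : G => (0 : ℂ)) x = fun _ => 0 := rfl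
    simp [CLG.D, h2]
  have h := C.friedrichs μ hc hρ (ι := ι × Bool)
    (a := fun i => if i.2 then (fun x => q i.1 * a i.1 x) else fun x => p i.1 * a i.1 x)
    (fun i => by
      rcases i with ⟨i, b⟩
      cases b
      · exact C.sm_mul (C.sm_const _) (ha i)
      · exact C.sm_mul (C.sm_const _) (ha i))
    (fun i => if i.2 then v' i.1 else v i.1) (u := fun i => u i.1)
    (fun i => (hu i.1).aestronglyMeasurable) (fun i => hb6_int (hu i.1)) hL
    (fun i => hus i.1) hw.aestronglyMeasurable (hb6_int hw) hws (fun τ hτ hτc => by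
      rw [hweak τ hτ hτc, Fintype.sum_prod_type]
      congr 1
      refine Finset.sum_congr rfl fun i _ => ?_
      rw [Fintype.sum_bool]
      simp only [if_true, Bool.false_eq_true, if_false]
      have hat : C.Sm fun y => a i y * τ y := C.sm_mul (ha i) hτ
      have hatc : HasCompactSupport fun y => a i y * τ y := hτc.mul_left
      have e1 : ∀ r : ℂ, (fun y => r * a i y * τ y) = fun y => r * (a i y * τ y) := fun r => by
        funext y
        ring
      simp only [e1, C.hb6_D_const hat]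
      have c1 := hcs _ hat hatc (v i)
      have c2 := hcs _ hat hatc (v' i)
      have c3 : Continuous fun y => a i y * τ y := C.sm_continuous hat
      rw [← integral_add]
      · refine integral_congr_ae (Eventually.of_forall fun x => ?_)
        simp only
        ring
      · refine hint i (g := fun x => q i * C.D (fun y => a i y * τ y) x (v' i) -
          (cR (v' i) : ℂ) * (q i * a i x * τ x)) ?_ ?_
        · have : Continuous fun y => q i * a i y * τ y := by
            simp only [e1]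
            exact c3.const_mul _
          exact (c2.1.const_mul _).sub (this.const_mul _)
        · refine HasCompactSupport.sub (c2.2.mul_left) ?_
          exact hτc.mul_left.mul_left
      · refine hint i (g := fun x => p i * C.D (fun y => a i y * τ y) x (v i) -
          (cR (v i) : ℂ) * (p i * a i x * τ x)) ?_ ?_
        · have : Continuous fun y => p i * a i y * τ y := by
            simp only [e1]
            exact c3.const_mul _
          exact (c1.1.const_mul _).sub (this.const_mul _)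
        · refine HasCompactSupport.sub (c1.2.mul_left) ?_
          exact hτc.mul_left.mul_left)
  refine h.congr fun k => ?_
  refine integral_congr_ae (Eventually.of_forall fun x => ?_)
  simp only
  congr 3
  rw [Fintype.sum_prod_type]
  refine Finset.sum_congr rfl fun i _ => ?_
  rw [Fintype.sum_bool]
  simp only [if_true, Bool.false_eq_true, if_false]
  ring

/-- step A: the basic inequality for smooth fields with an error -/
private lemma hb6_A {c : Fin n → ℂ} (hc : C.IsPart μ c) {σ φ : G → ℝ} (hσ : C.Sm σ)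
    (hφ : C.Sm φ) (hnn : ∀ x b, 0 ≤ C.Lv σ x b) {β : Fin n → G → ℂ}
    (hβ : Integrable (fun x => C.Lv σ x (fun j => β j x) * Real.exp (-φ x)) μ)
    {M : Set G} (hM : IsCompact M) {lam : ℝ} (hlam : 0 < lam)
    (hlow : ∀ x ∈ M, ∀ b : En n, lam * ∑ j, ‖b j‖ ^ 2 ≤ C.Lv σ x b)
    {Ce : ℝ} (hCe : ∀ x ∈ M, Real.exp (-φ x) ≤ Ce)
    {κ : ℝ} (hκ : 0 ≤ κ) {a : Fin n → G → ℂ}
    (ha : ∀ x (b : En n), ‖∑ k, a k x * (starRingEnd ℂ) (b k)‖ ^ 2 ≤ κ * C.Lv σ x b)
    {γ : Fin n → G → ℂ} (hγ : ∀ j, C.Sm (γ j)) (hγM : ∀ j x, x ∉ M → γ j x = 0)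
    {E : Fin n → Fin n → G → ℂ}
    (hE : ∀ k l x, E k l x = ((∑ j, C.gm σ x j k * C.Xb l (γ j) x) -
      ∑ j, C.gm σ x j l * C.Xb k (γ j) x) -
      (a l x * C.lower σ β k x - a k x * C.lower σ β l x))
    (hE2 : ∀ k l, MemLp (E k l) 2 μ) (hEM : ∀ k l x, x ∉ M → E k l x = 0) :
    ∫ x, C.Lv φ x (fun j => γ j x) * Real.exp (-φ x) ∂μ ≤
      ∫ x, ‖C.dvg c φ γ x‖ ^ 2 * Real.exp (-φ x) ∂μ +
      2 * κ * ∫ x, C.Lv σ x (fun j => β j x) * Real.exp (-φ x) ∂μ +
      Ce / lam ^ 2 * ∑ k, ∑ l, ∫ x, ‖E k l x‖ ^ 2 ∂μ := by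
  have hφc : Continuous φ := C.sm_continuous hφ
  have hid := C.basic_identity μ hc hφ hγ fun j => HasCompactSupport.intro hM (hγM j)
  have hpt : ∀ x, -(2 * κ * (C.Lv σ x (fun j => β j x) * Real.exp (-φ x)) +
      Ce / lam ^ 2 * ∑ k, ∑ l, ‖E k l x‖ ^ 2) ≤
      (∑ j, ∑ k, C.Xb k (γ j) x * (starRingEnd ℂ) (C.Xb j (γ k) x)).re *
        Real.exp (-φ x) := by
    intro x
    have he : 0 < Real.exp (-φ x) := Real.exp_pos _
    have hE0 : 0 ≤ ∑ k, ∑ l, ‖E k l x‖ ^ 2 :=
      Finset.sum_nonneg fun k _ => Finset.sum_nonneg fun l _ => by positivity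
    by_cases hx : x ∈ M
    · have h1 := mat_lower (fun j k => C.gm σ x j k) lam κ (C.Lv σ x fun j => β j x) hlam hκ
        (hnn x _) (fun j k => C.gm_herm hσ x j k) (fun b => hlow x hx b)
        (fun j l => C.Xb l (γ j) x) (fun k => -a k x) (fun k => C.lower σ β k x)
        (fun k l => E k l x) (fun b => by
          have h2 : ∑ k, -a k x * (starRingEnd ℂ) (b k) =
              -∑ k, a k x * (starRingEnd ℂ) (b k) := by
            simp only [neg_mul, Finset.sum_neg_distrib]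
          rw [h2, norm_neg]
          exact ha x b) (fun b => by
          have h2 : ∑ k, C.lower σ β k x * (starRingEnd ℂ) (b k) =
              ∑ j, ∑ k, β j x * (starRingEnd ℂ) (b k) * C.gm σ x j k := by
            simp only [CLG.lower, Finset.sum_mul]
            rw [Finset.sum_comm]
            refine Finset.sum_congr rfl fun j _ => Finset.sum_congr rfl fun k _ => ?_
            ring
          rw [h2]
          exact C.Lv_cauchy hσ (hnn x) (fun j => β j x) b) (fun k l => by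
          rw [hE k l x]
          ring)
      have h3 : Real.exp (-φ x) * (1 / lam ^ 2 * ∑ k, ∑ l, ‖E k l x‖ ^ 2) ≤
          Ce / lam ^ 2 * ∑ k, ∑ l, ‖E k l x‖ ^ 2 := by
        have h4 := mul_le_mul_of_nonneg_right (hCe x hx)
          (mul_nonneg (by positivity : 0 ≤ 1 / lam ^ 2) hE0)
        calc _ ≤ Ce * (1 / lam ^ 2 * ∑ k, ∑ l, ‖E k l x‖ ^ 2) := h4
          _ = _ := by ring
      have h5 := mul_le_mul_of_nonneg_right h1 he.le
      linarith
    · have h1 : (∑ j, ∑ k, C.Xb k (γ j) x * (starRingEnd ℂ) (C.Xb j (γ k) x)) = 0 := by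
        refine Finset.sum_eq_zero fun j _ => Finset.sum_eq_zero fun k _ => ?_
        rw [(C.hb6_van hM.isClosed (hγM j) hx k).2, zero_mul]
      have h2 : ∑ k, ∑ l, ‖E k l x‖ ^ 2 = 0 :=
        Finset.sum_eq_zero fun k _ => Finset.sum_eq_zero fun l _ => by simp [hEM k l x hx]
      rw [h1, h2]
      have h3 := mul_nonneg (mul_nonneg (by norm_num : (0 : ℝ) ≤ 2) hκ)
        (mul_nonneg (hnn x fun j => β j x) he.le)
      simp only [mul_zero, add_zero, Complex.zero_re, zero_mul]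
      linarith
  have i1 : Integrable (fun x => (∑ j, ∑ k, C.Xb k (γ j) x *
      (starRingEnd ℂ) (C.Xb j (γ k) x)).re * Real.exp (-φ x)) μ := by
    refine Continuous.integrable_of_hasCompactSupport ?_ ?_
    · have h1 : ∀ j k, Continuous fun x => C.Xb k (γ j) x := fun j k =>
        C.sm_continuous (C.sm_Xb (hγ j) k)
      refine Continuous.mul ?_ (Real.continuous_exp.comp hφc.neg)
      refine Complex.continuous_re.comp (continuous_finsetSum _ fun j _ =>
        continuous_finsetSum _ fun k _ => (h1 j k).mul ?_)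
      exact Complex.continuous_conj.comp (h1 k j)
    · refine HasCompactSupport.intro hM fun x hx => ?_
      have h1 : (∑ j, ∑ k, C.Xb k (γ j) x * (starRingEnd ℂ) (C.Xb j (γ k) x)) = 0 := by
        refine Finset.sum_eq_zero fun j _ => Finset.sum_eq_zero fun k _ => ?_
        rw [(C.hb6_van hM.isClosed (hγM j) hx k).2, zero_mul]
      rw [h1]
      simp
  have i2 : Integrable (fun x => Ce / lam ^ 2 * ∑ k, ∑ l, ‖E k l x‖ ^ 2) μ :=
    (integrable_finsetSum _ fun k _ => integrable_finsetSum _ fun l _ =>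
      hb6_int (hE2 k l)).const_mul _
  have h1 := integral_mono ((hβ.const_mul (2 * κ)).add i2).neg i1 hpt
  have h2 : ∫ x, (-((fun x => 2 * κ * (C.Lv σ x (fun j => β j x) * Real.exp (-φ x))) +
      fun x => Ce / lam ^ 2 * ∑ k, ∑ l, ‖E k l x‖ ^ 2)) x ∂μ =
      -(2 * κ * ∫ x, C.Lv σ x (fun j => β j x) * Real.exp (-φ x) ∂μ +
      Ce / lam ^ 2 * ∑ k, ∑ l, ∫ x, ‖E k l x‖ ^ 2 ∂μ) := by
    have h3 : ∫ x, (2 * κ * (C.Lv σ x (fun j => β j x) * Real.exp (-φ x)) +
        Ce / lam ^ 2 * ∑ k, ∑ l, ‖E k l x‖ ^ 2) ∂μ =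
        2 * κ * ∫ x, C.Lv σ x (fun j => β j x) * Real.exp (-φ x) ∂μ +
        Ce / lam ^ 2 * ∑ k, ∑ l, ∫ x, ‖E k l x‖ ^ 2 ∂μ := by
      rw [integral_add (hβ.const_mul (2 * κ)) i2, integral_const_mul, integral_const_mul,
        integral_finsetSum _ fun k _ => integrable_finsetSum _ fun l _ => hb6_int (hE2 k l)]
      congr 2
      refine Finset.sum_congr rfl fun k _ => ?_
      rw [integral_finsetSum _ fun l _ => hb6_int (hE2 k l)]
    rw [← h3, ← integral_neg]
    rfl
  rw [h2] at h1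
  linarith

omit [Group G] [IsTopologicalGroup G] [T2Space G] [LocallyCompactSpace G] in
private lemma hb6_memη {μ : Measure G} {L : Set G} (hL : IsCompact L) {a b : G → ℂ}
    (ha : Continuous a) (haL : ∀ x, x ∉ L → a x = 0) (hb : MemLp (L.indicator b) 2 μ) :
    MemLp (fun x => a x * b x) 2 μ := by
  have e : (fun x => a x * b x) = fun x => a x * L.indicator b x := by
    funext x
    by_cases hx : x ∈ L
    · rw [indicator_of_mem hx]
    · rw [haL x hx]
      simp
  rw [e]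
  exact hb6_mul hL ha hb fun x hx => indicator_of_notMem hx _

omit [T2Space G] [LocallyCompactSpace G] [SecondCountableTopology G] [MeasurableSpace G]
  [BorelSpace G] [IsTopologicalGroup G] in
private lemma hb6_X (j : Fin n) (g : G → ℂ) (x : G) :
    1 / 2 * C.D g x (Pi.single j 1) + -Complex.I / 2 * C.D g x (Pi.single j Complex.I) =
      C.X j g x := by
  rw [CLG.X]
  ring

omit [T2Space G] [LocallyCompactSpace G] [SecondCountableTopology G] [MeasurableSpace G]
  [BorelSpace G] [IsTopologicalGroup G] in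
private lemma hb6_Xb (j : Fin n) (g : G → ℂ) (x : G) :
    1 / 2 * C.D g x (Pi.single j 1) + Complex.I / 2 * C.D g x (Pi.single j Complex.I) =
      C.Xb j g x := by
  rw [CLG.Xb]
  ring

private lemma hb6_c (cR : En n →L[ℝ] ℝ) (j : Fin n) :
    1 / 2 * (cR (Pi.single j 1) : ℂ) + -Complex.I / 2 * (cR (Pi.single j Complex.I) : ℂ) =
      cOf cR j := by
  rw [cOf]
  ring

private lemma hb6_cb (cR : En n →L[ℝ] ℝ) (j : Fin n) :
    1 / 2 * (cR (Pi.single j 1) : ℂ) + Complex.I / 2 * (cR (Pi.single j Complex.I) : ℂ) =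
      (starRingEnd ℂ) (cOf cR j) := by
  rw [cOf]
  simp only [map_div₀, map_sub, map_mul, Complex.conj_ofReal, Complex.conj_I, map_ofNat]
  ring

/-- the weak divergence of `η β` and its mollification -/
private lemma hb6_div {cR : En n →L[ℝ] ℝ} (hcR : C.IsPartR μ cR) {ρ : ℕ → G → ℝ}
    (hρ : C.GoodMoll μ ρ) {φ : G → ℝ} (hφ : C.Sm φ) {f : G → ℂ} (hf : C.Sm f)
    {β : Fin n → G → ℂ}
    (wd : ∀ τ : G → ℂ, C.Sm τ → HasCompactSupport τ →
        ∑ j, ∫ x, β j x * (starRingEnd ℂ) (C.Xb j τ x) * (Real.exp (-φ x) : ℂ) ∂μ =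
          - ∫ x, f x * (starRingEnd ℂ) (τ x) * (Real.exp (-φ x) : ℂ) ∂μ)
    {η : G → ℝ} (hη : C.Sm η) (hηc : HasCompactSupport η)
    (hβL : ∀ j, MemLp ((tsupport η).indicator (β j)) 2 μ) {u : Fin n → G → ℂ}
    (hu : u = fun j y => (η y : ℂ) * β j y) {w : G → ℂ}
    (hw : w = fun x => (∑ j, C.X j (fun y => (η y : ℂ)) x * β j x) + (η x : ℂ) * f x +
      ∑ j, (C.X j (fun y => (φ y : ℂ)) x + cOf cR j) * u j x) :
    MemLp w 2 μ ∧
    Tendsto (fun k => ∫ x, ‖(∑ j, C.X j (Mol μ (ρ k) (u j)) x) - w x‖ ^ 2 ∂μ) atTop (𝓝 0) := by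
  have hL : IsCompact (tsupport η) := hηc
  have hηC : C.Sm (fun y => (η y : ℂ)) := C.sm_ofReal.2 hη
  have hφC : C.Sm (fun y => (φ y : ℂ)) := C.sm_ofReal.2 hφ
  have hη0 : ∀ x, x ∉ tsupport η → (η x : ℂ) = 0 := fun x hx => by
    rw [image_eq_zero_of_notMem_tsupport hx, Complex.ofReal_zero]
  have hXη0 : ∀ j x, x ∉ tsupport η → C.X j (fun y => (η y : ℂ)) x = 0 := fun j x hx =>
    (C.hb6_van hL.isClosed hη0 hx j).1
  have hXηc : ∀ j, Continuous (C.X j fun y => (η y : ℂ)) := fun j =>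
    C.sm_continuous (C.sm_X hηC j)
  have hXφc : ∀ j, Continuous (C.X j fun y => (φ y : ℂ)) := fun j =>
    C.sm_continuous (C.sm_X hφC j)
  have hηc' : Continuous fun y => (η y : ℂ) := C.sm_continuous hηC
  have hfc : Continuous f := C.sm_continuous hf
  have hum : ∀ j, MemLp (u j) 2 μ := fun j => by
    rw [hu]
    exact hb6_memη hL hηc' hη0 (hβL j)
  have hu0 : ∀ j x, x ∉ tsupport η → u j x = 0 := fun j x hx => by
    rw [hu]
    simp only
    rw [hη0 x hx, zero_mul]
  have hcsη : HasCompactSupport fun y => (η y : ℂ) := HasCompactSupport.intro hL hη0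
  have hwm : MemLp w 2 μ := by
    rw [hw]
    refine MemLp.add (MemLp.add ?_ ?_) ?_
    · exact memLp_finsetSum _ fun j _ => hb6_memη hL (hXηc j) (hXη0 j) (hβL j)
    · exact hb6_cc μ (hηc'.mul hfc) hcsη.mul_right
    · exact memLp_finsetSum _ fun j _ => hb6_mul hL ((hXφc j).add continuous_const) (hum j)
        (hu0 j)
  refine ⟨hwm, ?_⟩
  have hw0 : ∀ x, x ∉ tsupport η → w x = 0 := fun x hx => by
    rw [hw]
    simp only
    rw [hη0 x hx, zero_mul, add_zero,
      Finset.sum_eq_zero fun j _ => by rw [hXη0 j x hx, zero_mul],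
      Finset.sum_eq_zero fun j _ => by rw [hu0 j x hx, mul_zero], add_zero]
  have h := C.hb6_fried μ hcR hρ (ι := Fin n) (a := fun _ _ => (1 : ℂ))
    (fun _ => C.sm_const _) (fun _ => 1 / 2) (fun _ => -Complex.I / 2)
    (fun j => Pi.single j 1) (fun j => Pi.single j Complex.I) hum hL hu0 hwm hw0
    (fun τ hτ hτc => by
      simp only [one_mul, C.hb6_X, hb6_c]
      -- the test field
      set τ' : G → ℂ := fun y => (η y : ℂ) * (starRingEnd ℂ) (τ y) * (Real.exp (φ y) : ℂ)
        with hτ'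
      have hexp : C.Sm fun y => ((Real.exp (φ y) : ℝ) : ℂ) := C.sm_ofReal.2 (C.sm_exp hφ)
      have hτ's : C.Sm τ' := C.sm_mul (C.sm_mul hηC (C.sm_conj hτ)) hexp
      have hτ'c : HasCompactSupport τ' := hcsη.mul_right.mul_right
      have key := wd τ' hτ's hτ'c
      have hητ : C.Sm fun y => (η y : ℂ) * τ y := C.sm_mul hηC hτ
      have e1 : ∀ j x, (starRingEnd ℂ) (C.Xb j τ' x) * (Real.exp (-φ x) : ℂ) =
          C.X j (fun y => (η y : ℂ)) x * τ x + (η x : ℂ) * C.X j τ x +
            (η x : ℂ) * τ x * C.X j (fun y => (φ y : ℂ)) x := by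
        intro j x
        have h1 : (fun y => (starRingEnd ℂ) (τ' y)) =
            fun y => (η y : ℂ) * τ y * ((Real.exp (φ y) : ℝ) : ℂ) := by
          funext y
          simp only [hτ', map_mul, Complex.conj_ofReal, Complex.conj_conj]
        rw [← C.X_conj τ' j x, h1, C.X_mul hητ hexp, C.X_mul hηC hτ,
          C.X_comp hφ Real.differentiableAt_exp, Real.deriv_exp]
        have h2 : ((Real.exp (φ x) : ℝ) : ℂ) * (Real.exp (-φ x) : ℂ) = 1 := by
          rw [← Complex.ofReal_mul, ← Real.exp_add, add_neg_cancel, Real.exp_zero,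
            Complex.ofReal_one]
        linear_combination (C.X j (fun y => (η y : ℂ)) x * τ x + (η x : ℂ) * C.X j τ x +
            (η x : ℂ) * τ x * C.X j (fun y => (φ y : ℂ)) x) * h2
      have e2 : ∀ x, (starRingEnd ℂ) (τ' x) * (Real.exp (-φ x) : ℂ) = (η x : ℂ) * τ x := by
        intro x
        have h2 : ((Real.exp (φ x) : ℝ) : ℂ) * (Real.exp (-φ x) : ℂ) = 1 := by
          rw [← Complex.ofReal_mul, ← Real.exp_add, add_neg_cancel, Real.exp_zero,
            Complex.ofReal_one]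
        simp only [hτ', map_mul, Complex.conj_ofReal, Complex.conj_conj]
        linear_combination ((η x : ℂ) * τ x) * h2
      have hXτc : ∀ j, Continuous (C.X j τ) := fun j => C.sm_continuous (C.sm_X hτ j)
      have hτcont : Continuous τ := C.sm_continuous hτ
      have hXτs : ∀ j, HasCompactSupport (C.X j τ) := fun j =>
        HasCompactSupport.intro hτc fun x hx =>
          (C.hb6_van hτc.isClosed (fun y hy => image_eq_zero_of_notMem_tsupport hy) hx j).1
      have i1 : ∀ j, Integrable (fun x => β j x * (C.X j (fun y => (η y : ℂ)) x * τ x +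
          (η x : ℂ) * C.X j τ x + (η x : ℂ) * τ x * C.X j (fun y => (φ y : ℂ)) x)) μ := by
        intro j
        have h1 : Continuous fun x => (C.X j (fun y => (η y : ℂ)) x * τ x +
          (η x : ℂ) * C.X j τ x + (η x : ℂ) * τ x * C.X j (fun y => (φ y : ℂ)) x) :=
          (((hXηc j).mul hτcont).add (hηc'.mul (hXτc j))).add
            ((hηc'.mul hτcont).mul (hXφc j))
        have h2 : ∀ x, x ∉ tsupport η → (C.X j (fun y => (η y : ℂ)) x * τ x +
          (η x : ℂ) * C.X j τ x + (η x : ℂ) * τ x * C.X j (fun y => (φ y : ℂ)) x) = 0 := by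
          intro x hx
          rw [hXη0 j x hx, hη0 x hx]
          ring
        have h3 := (hβL j).integrable_mul (hb6_cc μ h1 (HasCompactSupport.intro hL h2))
        refine h3.congr (Eventually.of_forall fun x => ?_)
        by_cases hx : x ∈ tsupport η
        · simp only [Pi.mul_apply, indicator_of_mem hx]
        · simp only [Pi.mul_apply, h2 x hx, mul_zero]
      have i2 : Integrable (fun x => f x * ((η x : ℂ) * τ x)) μ :=
        (hfc.mul (hηc'.mul hτcont)).integrable_of_hasCompactSupport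
          hcsη.mul_right.mul_left
      have i3 : Integrable (fun x => w x * τ x) μ := hwm.integrable_mul (hb6_cc μ hτcont hτc)
      have i4 : ∀ j, Integrable (fun x => u j x * (C.X j τ x - cOf cR j * τ x)) μ := fun j =>
        (hum j).integrable_mul (hb6_cc μ ((hXτc j).sub (hτcont.const_mul _))
          ((hXτs j).sub hτc.mul_left))
      have k1 : (∑ j, ∫ x, β j x * (C.X j (fun y => (η y : ℂ)) x * τ x +
          (η x : ℂ) * C.X j τ x + (η x : ℂ) * τ x * C.X j (fun y => (φ y : ℂ)) x) ∂μ) =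
          -∫ x, f x * ((η x : ℂ) * τ x) ∂μ := by
        have h1 : ∀ j, ∫ x, β j x * (starRingEnd ℂ) (C.Xb j τ' x) * (Real.exp (-φ x) : ℂ) ∂μ =
            ∫ x, β j x * (C.X j (fun y => (η y : ℂ)) x * τ x +
          (η x : ℂ) * C.X j τ x + (η x : ℂ) * τ x * C.X j (fun y => (φ y : ℂ)) x) ∂μ := by
          intro j
          refine integral_congr_ae (Eventually.of_forall fun x => ?_)
          simp only
          rw [mul_assoc, e1]
        have h2 : ∫ x, f x * (starRingEnd ℂ) (τ' x) * (Real.exp (-φ x) : ℂ) ∂μ =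
            ∫ x, f x * ((η x : ℂ) * τ x) ∂μ := by
          refine integral_congr_ae (Eventually.of_forall fun x => ?_)
          simp only
          rw [mul_assoc, e2]
        rw [← h2, ← key]
        exact Finset.sum_congr rfl fun j _ => (h1 j).symm
      have k2 : ∫ x, (w x * τ x + ∑ j, u j x * (C.X j τ x - cOf cR j * τ x)) ∂μ =
          ∫ x, ((∑ j, β j x * (C.X j (fun y => (η y : ℂ)) x * τ x +
          (η x : ℂ) * C.X j τ x + (η x : ℂ) * τ x * C.X j (fun y => (φ y : ℂ)) x)) +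
          f x * ((η x : ℂ) * τ x)) ∂μ := by
        refine integral_congr_ae (Eventually.of_forall fun x => ?_)
        simp only [hw, hu]
        rw [add_mul, add_mul, Finset.sum_mul, Finset.sum_mul]
        have : ∀ j, C.X j (fun y => (η y : ℂ)) x * β j x * τ x +
            (C.X j (fun y => (φ y : ℂ)) x + cOf cR j) * ((η x : ℂ) * β j x) * τ x +
            (η x : ℂ) * β j x * (C.X j τ x - cOf cR j * τ x) =
            β j x * (C.X j (fun y => (η y : ℂ)) x * τ x +
          (η x : ℂ) * C.X j τ x + (η x : ℂ) * τ x * C.X j (fun y => (φ y : ℂ)) x) := fun j => by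
          ring
        rw [← Finset.sum_congr rfl fun j _ => this j]
        simp only [Finset.sum_add_distrib]
        ring
      rw [integral_add i3 (integrable_finsetSum _ fun j _ => i4 j),
        integral_add (integrable_finsetSum _ fun j _ => i1 j) i2,
        integral_finsetSum _ fun j _ => i4 j, integral_finsetSum _ fun j _ => i1 j, k1] at k2
      linear_combination k2)
  simpa only [one_mul, C.hb6_X] using h

/-- the weak closedness of `η β` and its mollification -/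
private lemma hb6_curl {cR : En n →L[ℝ] ℝ} (hcR : C.IsPartR μ cR)
    {cc : Fin n → Fin n → Fin n → ℂ}
    (hcc : ∀ (f : G → ℂ), C.Sm f → ∀ (l k : Fin n) (x : G),
      C.Xb l (C.Xb k f) x - C.Xb k (C.Xb l f) x = ∑ m, cc l k m * C.Xb m f x)
    {ρ : ℕ → G → ℝ} (hρ : C.GoodMoll μ ρ) {σ : G → ℝ} (hσ : C.Sm σ) {β : Fin n → G → ℂ}
    (wc : ∀ τ : G → ℂ, C.Sm τ → HasCompactSupport τ → ∀ k l : Fin n,
        ∫ x, (C.lower σ β k x * (C.Xb l τ x - (starRingEnd ℂ) (cOf cR l) * τ x) -
          C.lower σ β l x * (C.Xb k τ x - (starRingEnd ℂ) (cOf cR k) * τ x) +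
          ∑ m, cc l k m * C.lower σ β m x * τ x) ∂μ = 0)
    {η : G → ℝ} (hη : C.Sm η) (hηc : HasCompactSupport η)
    (hβL : ∀ j, MemLp ((tsupport η).indicator (β j)) 2 μ) {u : Fin n → G → ℂ}
    (hu : u = fun j y => (η y : ℂ) * β j y) (k l : Fin n) :
    MemLp (fun x => C.Xb l (fun y => (η y : ℂ)) x * C.lower σ β k x -
      C.Xb k (fun y => (η y : ℂ)) x * C.lower σ β l x) 2 μ ∧
    Tendsto (fun i => ∫ x, ‖((∑ j, C.gm σ x j k * C.Xb l (Mol μ (ρ i) (u j)) x) -
      ∑ j, C.gm σ x j l * C.Xb k (Mol μ (ρ i) (u j)) x) -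
      (C.Xb l (fun y => (η y : ℂ)) x * C.lower σ β k x -
      C.Xb k (fun y => (η y : ℂ)) x * C.lower σ β l x)‖ ^ 2 ∂μ) atTop (𝓝 0) := by
  have hL : IsCompact (tsupport η) := hηc
  have hηC : C.Sm (fun y => (η y : ℂ)) := C.sm_ofReal.2 hη
  have hη0 : ∀ x, x ∉ tsupport η → (η x : ℂ) = 0 := fun x hx => by
    rw [image_eq_zero_of_notMem_tsupport hx, Complex.ofReal_zero]
  have hXη0 : ∀ j x, x ∉ tsupport η → C.Xb j (fun y => (η y : ℂ)) x = 0 := fun j x hx =>
    (C.hb6_van hL.isClosed hη0 hx j).2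
  have hXηc : ∀ j, Continuous (C.Xb j fun y => (η y : ℂ)) := fun j =>
    C.sm_continuous (C.sm_Xb hηC j)
  have hηc' : Continuous fun y => (η y : ℂ) := C.sm_continuous hηC
  have hgs : ∀ j k, C.Sm fun x => C.gm σ x j k := C.sm_gm hσ
  have hgc : ∀ j k, Continuous fun x => C.gm σ x j k := fun j k => C.sm_continuous (hgs j k)
  have hum : ∀ j, MemLp (u j) 2 μ := fun j => by
    rw [hu]
    exact hb6_memη hL hηc' hη0 (hβL j)
  have hu0 : ∀ j x, x ∉ tsupport η → u j x = 0 := fun j x hx => by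
    rw [hu]
    simp only
    rw [hη0 x hx, zero_mul]
  have hlowm : ∀ i k, MemLp (fun x => C.Xb i (fun y => (η y : ℂ)) x * C.lower σ β k x) 2 μ := by
    intro i k
    have e : (fun x => C.Xb i (fun y => (η y : ℂ)) x * C.lower σ β k x) = fun x =>
        ∑ j, (C.Xb i (fun y => (η y : ℂ)) x * C.gm σ x j k) * β j x := by
      funext x
      simp only [CLG.lower, Finset.mul_sum]
      exact Finset.sum_congr rfl fun j _ => by ring
    rw [e]
    refine memLp_finsetSum _ fun j _ => hb6_memη hL ((hXηc i).mul (hgc j k)) ?_ (hβL j)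
    intro x hx
    rw [hXη0 i x hx, zero_mul]
  have hwm : MemLp (fun x => C.Xb l (fun y => (η y : ℂ)) x * C.lower σ β k x -
      C.Xb k (fun y => (η y : ℂ)) x * C.lower σ β l x) 2 μ := (hlowm l k).sub (hlowm k l)
  refine ⟨hwm, ?_⟩
  -- the torsion identity
  have htor : ∀ j x, C.Xb l (fun y => C.gm σ y j k) x - C.Xb k (fun y => C.gm σ y j l) x =
      ∑ m, cc l k m * C.gm σ x j m := by
    intro j x
    have h1 := C.lower_closed hcc hσ (γ := fun i _ => if i = j then (1 : ℂ) else 0)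
      (fun i => C.sm_const _) k l x
    have h2 : ∀ k, C.lower σ (fun i _ => if i = j then (1 : ℂ) else 0) k =
        fun x => C.gm σ x j k := by
      intro k
      funext x
      simp [CLG.lower]
    simp only [h2, C.Xb_const, mul_zero, Finset.sum_const_zero, sub_zero] at h1
    linear_combination h1
  have hneg : ∀ (g : G → ℂ) (x : G) (j : Fin n),
      -(1 / 2) * C.D g x (Pi.single j 1) + -(Complex.I / 2) * C.D g x (Pi.single j Complex.I) =
        -C.Xb j g x := by
    intro g x j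
    rw [← C.hb6_Xb]
    ring
  have hnegc : ∀ j : Fin n, -(1 / 2) * (cR (Pi.single j 1) : ℂ) +
      -(Complex.I / 2) * (cR (Pi.single j Complex.I) : ℂ) = -(starRingEnd ℂ) (cOf cR j) := by
    intro j
    rw [← hb6_cb]
    ring
  have h := C.hb6_fried μ hcR hρ (ι := Fin n × Bool)
    (a := fun i => if i.2 then (fun y => C.gm σ y i.1 l) else fun y => C.gm σ y i.1 k)
    (fun i => by
      rcases i with ⟨i, b⟩
      cases b
      · exact hgs i k
      · exact hgs i l)
    (fun i => if i.2 then -(1 / 2) else 1 / 2)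
    (fun i => if i.2 then -(Complex.I / 2) else Complex.I / 2)
    (fun i => if i.2 then Pi.single k 1 else Pi.single l 1)
    (fun i => if i.2 then Pi.single k Complex.I else Pi.single l Complex.I)
    (u := fun i => u i.1) (fun i => hum i.1) hL (fun i => hu0 i.1) hwm
    (fun x hx => by rw [hXη0 l x hx, hXη0 k x hx, zero_mul, zero_mul, sub_zero])
    (fun τ hτ hτc => by
      rw [Fintype.sum_prod_type]
      simp only [Fintype.sum_bool, if_true, Bool.false_eq_true, if_false, hneg, hnegc,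
        C.hb6_Xb, hb6_cb]
      have hητ : C.Sm fun y => (η y : ℂ) * τ y := C.sm_mul hηC hτ
      have hcsη : HasCompactSupport fun y => (η y : ℂ) := HasCompactSupport.intro hL hη0
      have key := wc _ hητ hcsη.mul_right k l
      have hτcont : Continuous τ := C.sm_continuous hτ
      have i3 : Integrable (fun x => (C.Xb l (fun y => (η y : ℂ)) x * C.lower σ β k x -
          C.Xb k (fun y => (η y : ℂ)) x * C.lower σ β l x) * τ x) μ :=
        hwm.integrable_mul (hb6_cc μ hτcont hτc)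
      have i4 : ∀ (j i m : Fin n) (r : ℂ), Integrable (fun x => u j x *
          (C.Xb i (fun y => C.gm σ y j m * τ y) x - r * (C.gm σ x j m * τ x))) μ := by
        intro j i m r
        have h1 : C.Sm fun y => C.gm σ y j m * τ y := C.sm_mul (hgs j m) hτ
        have h2 : HasCompactSupport fun y => C.gm σ y j m * τ y := hτc.mul_left
        refine (hum j).integrable_mul (hb6_cc μ ((C.sm_continuous (C.sm_Xb h1 i)).sub
          ((C.sm_continuous h1).const_mul _)) (HasCompactSupport.sub ?_ h2.mul_left))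
        exact HasCompactSupport.intro h2 fun x hx =>
          (C.hb6_van h2.isClosed (fun y hy => image_eq_zero_of_notMem_tsupport hy) hx i).2
      have i5 : ∀ j, Integrable (fun x => u j x * (-C.Xb k (fun y => C.gm σ y j l * τ y) x -
          -(starRingEnd ℂ) (cOf cR k) * (C.gm σ x j l * τ x))) μ := by
        intro j
        refine (i4 j k l ((starRingEnd ℂ) (cOf cR k))).neg.congr
          (Eventually.of_forall fun x => ?_)
        simp only [Pi.neg_apply]
        ring
      have k2 : ∫ x, ((C.Xb l (fun y => (η y : ℂ)) x * C.lower σ β k x -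
          C.Xb k (fun y => (η y : ℂ)) x * C.lower σ β l x) * τ x +
          ∑ j, (u j x * (-C.Xb k (fun y => C.gm σ y j l * τ y) x -
          -(starRingEnd ℂ) (cOf cR k) * (C.gm σ x j l * τ x)) +
          u j x * (C.Xb l (fun y => C.gm σ y j k * τ y) x -
            (starRingEnd ℂ) (cOf cR l) * (C.gm σ x j k * τ x)))) ∂μ = 0 := by
        rw [← key]
        refine integral_congr_ae (Eventually.of_forall fun x => ?_)
        simp only
        have hj : ∀ j, (u j x * (-C.Xb k (fun y => C.gm σ y j l * τ y) x -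
          -(starRingEnd ℂ) (cOf cR k) * (C.gm σ x j l * τ x)) +
          u j x * (C.Xb l (fun y => C.gm σ y j k * τ y) x -
            (starRingEnd ℂ) (cOf cR l) * (C.gm σ x j k * τ x))) =
          (η x : ℂ) * (C.Xb l τ x - (starRingEnd ℂ) (cOf cR l) * τ x) *
            (C.gm σ x j k * β j x) -
          (η x : ℂ) * (C.Xb k τ x - (starRingEnd ℂ) (cOf cR k) * τ x) *
            (C.gm σ x j l * β j x) +
          ∑ m, (η x : ℂ) * τ x * (cc l k m * (C.gm σ x j m * β j x)) := by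
          intro j
          have h1 : ∑ m, (η x : ℂ) * τ x * (cc l k m * (C.gm σ x j m * β j x)) =
              (η x : ℂ) * τ x * β j x * ∑ m, cc l k m * C.gm σ x j m := by
            rw [Finset.mul_sum]
            exact Finset.sum_congr rfl fun m _ => by ring
          rw [h1, ← htor j x, C.Xb_mul (hgs j l) hτ, C.Xb_mul (hgs j k) hτ]
          simp only [hu]
          ring
        rw [Finset.sum_congr rfl fun j _ => hj j, Finset.sum_add_distrib,
          Finset.sum_sub_distrib, ← Finset.mul_sum, ← Finset.mul_sum, Finset.sum_comm]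
        have h3 : ∀ m, ∑ j, (η x : ℂ) * τ x * (cc l k m * (C.gm σ x j m * β j x)) =
            cc l k m * C.lower σ β m x * ((η x : ℂ) * τ x) := by
          intro m
          simp only [CLG.lower, Finset.mul_sum, Finset.sum_mul]
          exact Finset.sum_congr rfl fun j _ => by ring
        rw [Finset.sum_congr rfl fun m _ => h3 m, C.Xb_mul hηC hτ, C.Xb_mul hηC hτ]
        have h4 : ∀ m, ∑ j, C.gm σ x j m * β j x = C.lower σ β m x := fun m => rfl
        rw [h4, h4]
        ring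
      have i6 : ∀ j, Integrable (fun x => (u j x * (-C.Xb k (fun y => C.gm σ y j l * τ y) x -
          -(starRingEnd ℂ) (cOf cR k) * (C.gm σ x j l * τ x)) +
          u j x * (C.Xb l (fun y => C.gm σ y j k * τ y) x -
            (starRingEnd ℂ) (cOf cR l) * (C.gm σ x j k * τ x)))) μ := fun j =>
        (i5 j).add (i4 j l k _)
      rw [integral_add i3 (integrable_finsetSum _ fun j _ => i6 j),
        integral_finsetSum _ fun j _ => i6 j] at k2
      have h5 : ∀ j, ∫ x, (u j x * (-C.Xb k (fun y => C.gm σ y j l * τ y) x -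
          -(starRingEnd ℂ) (cOf cR k) * (C.gm σ x j l * τ x)) +
          u j x * (C.Xb l (fun y => C.gm σ y j k * τ y) x -
            (starRingEnd ℂ) (cOf cR l) * (C.gm σ x j k * τ x))) ∂μ =
          ∫ x, u j x * (-C.Xb k (fun y => C.gm σ y j l * τ y) x -
          -(starRingEnd ℂ) (cOf cR k) * (C.gm σ x j l * τ x)) ∂μ +
          ∫ x, u j x * (C.Xb l (fun y => C.gm σ y j k * τ y) x -
            (starRingEnd ℂ) (cOf cR l) * (C.gm σ x j k * τ x)) ∂μ := fun j =>
        integral_add (i5 j) (i4 j l k _)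
      rw [Finset.sum_congr rfl fun j _ => h5 j] at k2
      linear_combination k2)
  refine h.congr fun i => ?_
  refine integral_congr_ae (Eventually.of_forall fun x => ?_)
  simp only
  congr 3
  rw [Fintype.sum_prod_type]
  simp only [Fintype.sum_bool, if_true, Bool.false_eq_true, if_false, hneg, C.hb6_Xb]
  rw [Finset.sum_add_distrib]
  simp only [mul_neg, Finset.sum_neg_distrib]
  ring

private lemma hb6_limt {I H P : ℝ} (h : ∀ t : ℝ, 0 < t → I ≤ (1 + t) * ((1 + t) * H + P)) :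
    I ≤ H + P := by
  have h1 : Tendsto (fun t : ℝ => (1 + t) * ((1 + t) * H + P)) (𝓝[>] 0) (𝓝 (H + P)) := by
    have h2 : Continuous fun t : ℝ => (1 + t) * ((1 + t) * H + P) := by fun_prop
    have h3 := h2.tendsto 0
    simp only [add_zero, one_mul] at h3
    exact h3.mono_left nhdsWithin_le_nhds
  exact ge_of_tendsto h1 (eventually_mem_nhdsWithin.mono fun t ht => h t ht)

omit [Group G] [IsTopologicalGroup G] [T2Space G] [LocallyCompactSpace G] in
private lemma hb6_we {μ : Measure G} {M : Set G} {g : G → ℂ} (hg : MemLp g 2 μ)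
    (hgM : ∀ x, x ∉ M → g x = 0) {φ : G → ℝ} (hφ : Continuous φ) {Ce : ℝ}
    (hCe : ∀ x ∈ M, Real.exp (-φ x) ≤ Ce) :
    Integrable (fun x => ‖g x‖ ^ 2 * Real.exp (-φ x)) μ ∧
      ∫ x, ‖g x‖ ^ 2 * Real.exp (-φ x) ∂μ ≤ Ce * ∫ x, ‖g x‖ ^ 2 ∂μ := by
  have hpt : ∀ x, ‖g x‖ ^ 2 * Real.exp (-φ x) ≤ Ce * ‖g x‖ ^ 2 := by
    intro x
    by_cases hx : x ∈ M
    · rw [mul_comm]
      exact mul_le_mul_of_nonneg_right (hCe x hx) (by positivity)
    · simp [hgM x hx]
  have hi := hb6_int hg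
  have h1 : Integrable (fun x => ‖g x‖ ^ 2 * Real.exp (-φ x)) μ := by
    refine Integrable.mono' (hi.const_mul Ce) (hi.aestronglyMeasurable.mul
      (Real.continuous_exp.comp hφ.neg).aestronglyMeasurable) (Eventually.of_forall fun x => ?_)
    rw [Real.norm_eq_abs, abs_of_nonneg (mul_nonneg (by positivity) (Real.exp_pos _).le)]
    exact hpt x
  refine ⟨h1, ?_⟩
  rw [← integral_const_mul]
  exact integral_mono h1 (hi.const_mul Ce) hpt

omit [Group G] [IsTopologicalGroup G] [T2Space G] [LocallyCompactSpace G] in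
private lemma hb6_V {μ : Measure G} {M : Set G} {a h : G → ℂ} (ha : MemLp a 2 μ)
    (haM : ∀ x, x ∉ M → a x = 0) (hh : MemLp h 2 μ) (hhM : ∀ x, x ∉ M → h x = 0)
    {φ : G → ℝ} (hφ : Continuous φ) {Ce : ℝ} (hCe : ∀ x ∈ M, Real.exp (-φ x) ≤ Ce)
    {t : ℝ} (ht : 0 < t) :
    ∫ x, ‖a x‖ ^ 2 * Real.exp (-φ x) ∂μ ≤ (1 + t) * ∫ x, ‖h x‖ ^ 2 * Real.exp (-φ x) ∂μ +
      (1 + 1 / t) * (Ce * ∫ x, ‖a x - h x‖ ^ 2 ∂μ) := by
  have i1 := (hb6_we ha haM hφ hCe).1
  have i2 := (hb6_we hh hhM hφ hCe).1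
  obtain ⟨i3, i4⟩ := hb6_we (g := fun x => a x - h x) (ha.sub hh)
    (fun x hx => by simp only [haM x hx, hhM x hx, sub_zero]) hφ hCe
  have h1 : ∫ x, ‖a x‖ ^ 2 * Real.exp (-φ x) ∂μ ≤
      ∫ x, ((1 + t) * (‖h x‖ ^ 2 * Real.exp (-φ x)) +
        (1 + 1 / t) * (‖a x - h x‖ ^ 2 * Real.exp (-φ x))) ∂μ := by
    refine integral_mono i1 ((i2.const_mul _).add (i3.const_mul _)) fun x => ?_
    have h2 := mul_le_mul_of_nonneg_right (hb6_young ht (a x) (h x)) (Real.exp_pos (-φ x)).le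
    simp only
    linarith
  rw [integral_add (i2.const_mul _) (i3.const_mul _), integral_const_mul,
    integral_const_mul] at h1
  have h3 : 0 ≤ 1 + 1 / t := by positivity
  linarith [mul_le_mul_of_nonneg_left i4 h3]

private lemma hb6_I {M : Set G} (hM : IsCompact M) {σ φ : G → ℝ} (hφs : C.Sm φ)
    (hφnn : ∀ x b, 0 ≤ C.Lv φ x b) (hle : ∀ x b, C.Lv φ x b ≤ C.Lv σ x b) {lam : ℝ}
    (hbd : ∀ x ∈ M, ∀ b : En n, C.Lv σ x b ≤ 1 / lam * ∑ j, ‖b j‖ ^ 2) {Ce : ℝ}
    (hCe : ∀ x ∈ M, Real.exp (-φ x) ≤ Ce) {u γ : Fin n → G → ℂ}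
    (hγ : ∀ j, Continuous (γ j)) (hγM : ∀ j x, x ∉ M → γ j x = 0)
    (hu : ∀ j, MemLp (u j) 2 μ) (huM : ∀ j x, x ∉ M → u j x = 0) {t : ℝ} (ht : 0 < t) :
    ∫ x, C.Lv φ x (fun j => u j x) * Real.exp (-φ x) ∂μ ≤
      (1 + t) * ∫ x, C.Lv φ x (fun j => γ j x) * Real.exp (-φ x) ∂μ +
      (1 + 1 / t) * (1 / lam * (Ce * ∑ j, ∫ x, ‖γ j x - u j x‖ ^ 2 ∂μ)) := by
  have ht' : 0 ≤ 1 + 1 / t := by positivity
  have hφc : Continuous φ := C.sm_continuous hφs
  have hLv0 : ∀ x, C.Lv φ x (fun _ => 0) = 0 := fun x => by simp [CLG.Lv]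
  have hγm : ∀ j, MemLp (γ j) 2 μ := fun j =>
    hb6_cc μ (hγ j) (HasCompactSupport.intro hM (hγM j))
  have hpt : ∀ x, C.Lv φ x (fun j => u j x) * Real.exp (-φ x) ≤
      (1 + t) * (C.Lv φ x (fun j => γ j x) * Real.exp (-φ x)) +
      (1 + 1 / t) * (1 / lam * (Ce * ∑ j, ‖γ j x - u j x‖ ^ 2)) := by
    intro x
    have he : 0 < Real.exp (-φ x) := Real.exp_pos _
    by_cases hx : x ∈ M
    · have h1 := C.hb6_lv (hφnn x) ht (fun j => u j x) (fun j => γ j x)
      have h2 := hφnn x (fun j => u j x - γ j x)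
      have h3 := (hle x (fun j => u j x - γ j x)).trans (hbd x hx _)
      have h4 : (∑ j, ‖u j x - γ j x‖ ^ 2) = ∑ j, ‖γ j x - u j x‖ ^ 2 :=
        Finset.sum_congr rfl fun j _ => by rw [norm_sub_rev]
      rw [h4] at h3
      have h5 : C.Lv φ x (fun j => u j x - γ j x) * Real.exp (-φ x) ≤
          1 / lam * (Ce * ∑ j, ‖γ j x - u j x‖ ^ 2) := by
        calc _ ≤ (1 / lam * ∑ j, ‖γ j x - u j x‖ ^ 2) * Real.exp (-φ x) :=
              mul_le_mul_of_nonneg_right h3 he.le
          _ ≤ (1 / lam * ∑ j, ‖γ j x - u j x‖ ^ 2) * Ce :=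
              mul_le_mul_of_nonneg_left (hCe x hx) (h2.trans h3)
          _ = _ := by ring
      have h6 := mul_le_mul_of_nonneg_right h1 he.le
      have h7 := mul_le_mul_of_nonneg_left h5 ht'
      linarith
    · simp only [huM _ x hx, hγM _ x hx, hLv0]
      simp
  have i1 : Integrable (fun x => C.Lv φ x (fun j => γ j x) * Real.exp (-φ x)) μ := by
    refine Continuous.integrable_of_hasCompactSupport ?_ (HasCompactSupport.intro hM
      fun x hx => ?_)
    · exact (C.Lv_continuous hφs (continuous_pi fun j => hγ j)).mul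
        (Real.continuous_exp.comp hφc.neg)
    · simp only [hγM _ x hx, hLv0, zero_mul]
  have i2 : ∀ j, Integrable (fun x => ‖γ j x - u j x‖ ^ 2) μ := fun j =>
    hb6_int ((hγm j).sub (hu j))
  have i3 : Integrable (fun x => ∑ j, ‖γ j x - u j x‖ ^ 2) μ :=
    integrable_finsetSum _ fun j _ => i2 j
  have i4 : Integrable (fun x => (1 + 1 / t) * (1 / lam * (Ce * ∑ j, ‖γ j x - u j x‖ ^ 2))) μ :=
    ((i3.const_mul _).const_mul _).const_mul _
  have h1 := integral_mono_of_nonneg (μ := μ)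
    (Eventually.of_forall fun x => mul_nonneg (hφnn x fun j => u j x) (Real.exp_pos _).le)
    ((i1.const_mul (1 + t)).add i4) (Eventually.of_forall hpt)
  refine h1.trans (le_of_eq ?_)
  have h2 : ∀ x, ((fun x => (1 + t) * (C.Lv φ x (fun j => γ j x) * Real.exp (-φ x))) +
      fun x => (1 + 1 / t) * (1 / lam * (Ce * ∑ j, ‖γ j x - u j x‖ ^ 2))) x =
      (1 + t) * (C.Lv φ x (fun j => γ j x) * Real.exp (-φ x)) +
      (1 + 1 / t) * (1 / lam * (Ce * ∑ j, ‖γ j x - u j x‖ ^ 2)) := fun x => rfl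
  simp only [h2]
  rw [integral_add (i1.const_mul _) i4, integral_const_mul, integral_const_mul,
    integral_const_mul, integral_const_mul, integral_finsetSum _ fun j _ => i2 j]

open scoped Pointwise in
/-- the estimate with a fixed cutoff -/
private lemma hb6_R {cR : En n →L[ℝ] ℝ} (hcR : C.IsPartR μ cR)
    {cc : Fin n → Fin n → Fin n → ℂ}
    (hcc : ∀ (f : G → ℂ), C.Sm f → ∀ (l k : Fin n) (x : G),
      C.Xb l (C.Xb k f) x - C.Xb k (C.Xb l f) x = ∑ m, cc l k m * C.Xb m f x)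
    {s φ : G → ℝ} (hs : C.Kah s) (hφ : C.Psh φ) {f : G → ℂ} (hf : C.Sm f)
    {β : Fin n → G → ℂ} (hβm : ∀ j, Measurable (β j))
    (hβ : Integrable (fun x => C.Lv (fun y => s y + s y ^ 2 + φ y) x (fun j => β j x) *
        Real.exp (-φ x)) μ)
    (wd : ∀ τ : G → ℂ, C.Sm τ → HasCompactSupport τ →
        ∑ j, ∫ x, β j x * (starRingEnd ℂ) (C.Xb j τ x) * (Real.exp (-φ x) : ℂ) ∂μ =
          - ∫ x, f x * (starRingEnd ℂ) (τ x) * (Real.exp (-φ x) : ℂ) ∂μ)
    (wc : ∀ τ : G → ℂ, C.Sm τ → HasCompactSupport τ → ∀ k l : Fin n,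
        ∫ x, (C.lower (fun y => s y + s y ^ 2 + φ y) β k x *
            (C.Xb l τ x - (starRingEnd ℂ) (cOf cR l) * τ x) -
          C.lower (fun y => s y + s y ^ 2 + φ y) β l x *
            (C.Xb k τ x - (starRingEnd ℂ) (cOf cR k) * τ x) +
          ∑ m, cc l k m * C.lower (fun y => s y + s y ^ 2 + φ y) β m x * τ x) ∂μ = 0)
    {κ : ℝ} (hκ : 0 ≤ κ) {η : G → ℝ} (hη : C.Sm η) (hηc : HasCompactSupport η)
    (hηκ : ∀ x (b : En n), ‖∑ k, C.Xb k (fun y => (η y : ℂ)) x * (starRingEnd ℂ) (b k)‖ ^ 2 ≤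
      κ * C.Lv (fun y => s y + s y ^ 2 + φ y) x b) :
    ∫ x, C.Lv φ x (fun j => (η x : ℂ) * β j x) * Real.exp (-φ x) ∂μ ≤
      ∫ x, ‖(η x : ℂ) * f x + ∑ j, C.X j (fun y => (η y : ℂ)) x * β j x‖ ^ 2 *
        Real.exp (-φ x) ∂μ +
      2 * κ * ∫ x, C.Lv (fun y => s y + s y ^ 2 + φ y) x (fun j => β j x) *
        Real.exp (-φ x) ∂μ := by
  have hσ : C.Sm (fun y => s y + s y ^ 2 + φ y) := C.pot_sm hs hφ
  have hpos := fun x b hb => C.pot_pos hs hφ x b hb
  have hle := fun x b => (C.pot_ge hs hφ x b).1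
  generalize (fun y => s y + s y ^ 2 + φ y) = σ at hβ wc hηκ hσ hpos hle ⊢
  have hφs : C.Sm φ := C.sm_ofReal.1 hφ.1
  have hφc : Continuous φ := C.sm_continuous hφs
  have hφnn : ∀ x b, 0 ≤ C.Lv φ x b := hφ.2
  have hnn : ∀ x b, 0 ≤ C.Lv σ x b := fun x b => (hφnn x b).trans (hle x b)
  have hLv0 : ∀ (θ : G → ℝ) x, C.Lv θ x (fun _ => 0) = 0 := fun θ x => by simp [CLG.Lv]
  have hc : C.IsPart μ (cOf cR) := C.isPart_of_partR hcR
  obtain ⟨ρ, hρ⟩ := C.exists_good μ
  obtain ⟨K, hK, -, hKs⟩ := hρ.comp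
  have hL : IsCompact (tsupport η) := hηc
  have hKL : IsCompact (K * tsupport η) := hK.mul hL
  have hM : IsCompact (K * tsupport η ∪ tsupport η) := hKL.union hL
  set M := K * tsupport η ∪ tsupport η with hMdef
  obtain ⟨lam, hlam, hbd⟩ := C.Lv_bounds hσ hM fun x _ b hb => hpos x b hb
  obtain ⟨Ce, hCe'⟩ := hM.exists_bound_of_continuousOn
    (f := fun x => Real.exp (-φ x)) (Real.continuous_exp.comp hφc.neg).continuousOn
  have hCe : ∀ x ∈ M, Real.exp (-φ x) ≤ Ce := fun x hx =>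
    (le_abs_self _).trans ((Real.norm_eq_abs _) ▸ hCe' x hx)
  obtain ⟨Cφ', hCφ'⟩ := hL.exists_bound_of_continuousOn
    (f := fun x => Real.exp (φ x)) (Real.continuous_exp.comp hφc).continuousOn
  obtain ⟨Cφ, hCφ0, hCφ⟩ : ∃ Cφ : ℝ, 0 ≤ Cφ ∧ ∀ x ∈ tsupport η, Real.exp (φ x) ≤ Cφ :=
    ⟨max Cφ' 0, le_max_right _ _, fun x hx => ((le_abs_self _).trans
      ((Real.norm_eq_abs _) ▸ hCφ' x hx)).trans (le_max_left _ _)⟩
  -- `β` is square integrable on the support of `η`
  have hβL : ∀ j, MemLp ((tsupport η).indicator (β j)) 2 μ := by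
    intro j
    have hm : Measurable ((tsupport η).indicator (β j)) :=
      (hβm j).indicator hL.isClosed.measurableSet
    rw [memLp_two_iff_integrable_sq_norm hm.aestronglyMeasurable]
    refine Integrable.mono' (hβ.const_mul (Cφ / lam)) (by fun_prop)
      (Eventually.of_forall fun x => ?_)
    rw [norm_pow, norm_norm]
    by_cases hx : x ∈ tsupport η
    · rw [indicator_of_mem hx]
      have h1 := (hbd x (Or.inr hx) fun j => β j x).1
      have h2 : ‖β j x‖ ^ 2 ≤ ∑ i, ‖β i x‖ ^ 2 :=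
        Finset.single_le_sum (f := fun i => ‖β i x‖ ^ 2) (fun i _ => by positivity)
          (Finset.mem_univ j)
      have h3 : lam * ‖β j x‖ ^ 2 ≤ C.Lv σ x fun j => β j x :=
        (mul_le_mul_of_nonneg_left h2 hlam.le).trans h1
      have h4 : Real.exp (φ x) * Real.exp (-φ x) = 1 := by
        rw [← Real.exp_add, add_neg_cancel, Real.exp_zero]
      have h5 : C.Lv σ x (fun j => β j x) =
          Real.exp (φ x) * (C.Lv σ x (fun j => β j x) * Real.exp (-φ x)) := by
        linear_combination (-(C.Lv σ x (fun j => β j x))) * h4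
      have h6 : Real.exp (φ x) * (C.Lv σ x (fun j => β j x) * Real.exp (-φ x)) ≤
          Cφ * (C.Lv σ x (fun j => β j x) * Real.exp (-φ x)) :=
        mul_le_mul_of_nonneg_right (hCφ x hx) (mul_nonneg (hnn x _) (Real.exp_pos _).le)
      rw [div_mul_eq_mul_div, le_div_iff₀ hlam]
      linarith
    · rw [indicator_of_notMem hx, norm_zero]
      have h2 := mul_nonneg (div_nonneg hCφ0 hlam.le)
        (mul_nonneg (hnn x fun j => β j x) (Real.exp_pos (-φ x)).le)
      simpa using h2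
  -- the mollified field
  obtain ⟨u, hu⟩ : ∃ u : Fin n → G → ℂ, u = fun j y => (η y : ℂ) * β j y := ⟨_, rfl⟩
  have hηC : C.Sm (fun y => (η y : ℂ)) := C.sm_ofReal.2 hη
  have hηc' : Continuous fun y => (η y : ℂ) := C.sm_continuous hηC
  have hη0 : ∀ x, x ∉ tsupport η → (η x : ℂ) = 0 := fun x hx => by
    rw [image_eq_zero_of_notMem_tsupport hx, Complex.ofReal_zero]
  have hum : ∀ j, MemLp (u j) 2 μ := fun j => by
    rw [hu]
    exact hb6_memη hL hηc' hη0 (hβL j)
  have hu0 : ∀ j x, x ∉ tsupport η → u j x = 0 := fun j x hx => by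
    rw [hu]
    simp only
    rw [hη0 x hx, zero_mul]
  have huM : ∀ j x, x ∉ M → u j x = 0 := fun j x hx => hu0 j x fun h => hx (Or.inr h)
  obtain ⟨w, hwe⟩ : ∃ w : G → ℂ, w = fun x => (∑ j, C.X j (fun y => (η y : ℂ)) x * β j x) +
      (η x : ℂ) * f x + ∑ j, (C.X j (fun y => (φ y : ℂ)) x + cOf cR j) * u j x := ⟨_, rfl⟩
  obtain ⟨hwm, hw⟩ := C.hb6_div μ hcR hρ hφs hf wd hη hηc hβL hu hwe
  have hcurl := fun k l => C.hb6_curl μ hcR hcc hρ hσ wc hη hηc hβL hu k l
  obtain ⟨γ, hγ⟩ : ∃ γ : ℕ → Fin n → G → ℂ, γ = fun i j => Mol μ (ρ i) (u j) := ⟨_, rfl⟩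
  have hγe : ∀ i j, Mol μ (ρ i) (u j) = γ i j := fun i j => by rw [hγ]
  simp only [hγe] at hw hcurl
  have hγs : ∀ i j, C.Sm (γ i j) := fun i j => by
    rw [← hγe]
    exact C.mol_sm μ (hρ.sm i) (hK.of_isClosed_subset isClosed_closure (hKs i))
      ((hum j).locallyIntegrable one_le_two)
  have hγM : ∀ i j x, x ∉ M → γ i j x = 0 := fun i j x hx => by
    rw [← hγe]
    exact mol_support μ (fun y hy => image_eq_zero_of_notMem_tsupport fun h => hy (hKs i h))
      (hu0 j) x fun h => hx (Or.inl h)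
  have hγc : ∀ i j, Continuous (γ i j) := fun i j => C.sm_continuous (hγs i j)
  have hγm : ∀ i j, MemLp (γ i j) 2 μ := fun i j =>
    hb6_cc μ (hγc i j) (HasCompactSupport.intro hM (hγM i j))
  have hN : ∀ j, HB6T μ fun i x => γ i j x - u j x := fun j =>
    ⟨fun i => (hγm i j).sub (hum j), by
      have := mol_tendsto μ (fun k => C.sm_continuous (hρ.sm k)) hρ.nonneg hρ.mass hK hKs
        hρ.shrink (hum j).aestronglyMeasurable (hb6_int (hum j))
      simpa only [hγe] using this⟩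
  have hXφc : ∀ j, Continuous (C.X j fun y => (φ y : ℂ)) := fun j =>
    C.sm_continuous (C.sm_X hφ.1 j)
  have hXγm : ∀ i j, MemLp (C.X j (γ i j)) 2 μ := fun i j =>
    hb6_cc μ (C.sm_continuous (C.sm_X (hγs i j) j)) (HasCompactSupport.intro hM fun x hx =>
      (C.hb6_van hM.isClosed (hγM i j) hx j).1)
  obtain ⟨h, hh⟩ : ∃ h : G → ℂ, h = fun x => (η x : ℂ) * f x +
      ∑ j, C.X j (fun y => (η y : ℂ)) x * β j x := ⟨_, rfl⟩
  have hD : HB6T μ fun i x => C.dvg (cOf cR) φ (γ i) x - h x := by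
    have h1 : HB6T μ fun i x => (∑ j, C.X j (γ i j) x) - w x :=
      ⟨fun i => (memLp_finsetSum _ fun j _ => hXγm i j).sub hwm, hw⟩
    have h2 : HB6T μ fun i x => ∑ j, -(C.X j (fun y => (φ y : ℂ)) x + cOf cR j) *
        (γ i j x - u j x) := hb6_T_sum _ fun j _ =>
      hb6_T_mul hM ((hXφc j).add continuous_const).neg (hN j)
        (fun k x hx => by rw [hγM _ _ _ hx, huM _ _ hx, sub_zero])
    have h3 := hb6_T_add h1 h2
    have e : (fun (i : ℕ) (x : G) => C.dvg (cOf cR) φ (γ i) x - h x) =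
        fun i x => ((∑ j, C.X j (γ i j) x) - w x) +
          ∑ j, -(C.X j (fun y => (φ y : ℂ)) x + cOf cR j) * (γ i j x - u j x) := by
      funext i x
      rw [hh, hwe]
      simp only [CLG.dvg, CLG.dv]
      have h4 : ∑ j, -(C.X j (fun y => (φ y : ℂ)) x + cOf cR j) * (γ i j x - u j x) =
          ∑ j, (C.X j (fun y => (φ y : ℂ)) x + cOf cR j) * u j x -
          ∑ j, (C.X j (fun y => (φ y : ℂ)) x + cOf cR j) * γ i j x := by
        rw [← Finset.sum_sub_distrib]
        exact Finset.sum_congr rfl fun j _ => by ring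
      rw [h4, Finset.sum_sub_distrib]
      ring
    rw [e]
    exact h3
  have hdM : ∀ i x, x ∉ M → C.dvg (cOf cR) φ (γ i) x = 0 := fun i x hx => by
    simp only [CLG.dvg, CLG.dv]
    exact Finset.sum_eq_zero fun j _ => by
      rw [(C.hb6_van hM.isClosed (hγM i j) hx j).1, hγM i j x hx, mul_zero, sub_zero]
  have hdm : ∀ i, MemLp (C.dvg (cOf cR) φ (γ i)) 2 μ := fun i =>
    hb6_cc μ (continuous_finsetSum _ fun j _ =>
      C.sm_continuous (C.sm_dv hφs (hγs i j) j)) (HasCompactSupport.intro hM (hdM i))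
  have hhm : MemLp h 2 μ := by
    have h1 := (hdm 0).sub (hD.1 0)
    refine (memLp_congr_ae (Eventually.of_forall fun x => ?_)).1 h1
    simp
  have hhM : ∀ x, x ∉ M → h x = 0 := fun x hx => by
    have hx' : x ∉ tsupport η := fun h => hx (Or.inr h)
    rw [hh]
    simp only
    rw [hη0 x hx', zero_mul, zero_add]
    exact Finset.sum_eq_zero fun j _ => by
      rw [(C.hb6_van hL.isClosed hη0 hx' j).1, zero_mul]
  -- the error of the curl
  obtain ⟨E, hE⟩ : ∃ E : ℕ → Fin n → Fin n → G → ℂ, E = fun i k l x =>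
      ((∑ j, C.gm σ x j k * C.Xb l (γ i j) x) - ∑ j, C.gm σ x j l * C.Xb k (γ i j) x) -
      (C.Xb l (fun y => (η y : ℂ)) x * C.lower σ β k x -
      C.Xb k (fun y => (η y : ℂ)) x * C.lower σ β l x) := ⟨_, rfl⟩
  have hEM : ∀ i k l x, x ∉ M → E i k l x = 0 := fun i k l x hx => by
    have hx' : x ∉ tsupport η := fun h => hx (Or.inr h)
    rw [hE]
    simp only
    rw [(C.hb6_van hL.isClosed hη0 hx' l).2, (C.hb6_van hL.isClosed hη0 hx' k).2,
      Finset.sum_eq_zero fun j _ => by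
        rw [(C.hb6_van hM.isClosed (hγM i j) hx l).2, mul_zero],
      Finset.sum_eq_zero fun j _ => by
        rw [(C.hb6_van hM.isClosed (hγM i j) hx k).2, mul_zero]]
    ring
  have hE2 : ∀ k l, HB6T μ fun i => E i k l := fun k l => by
    have hg : ∀ i a b c, MemLp (fun x => C.gm σ x a b * C.Xb c (γ i a) x) 2 μ :=
      fun i a b c => hb6_cc μ ((C.sm_continuous (C.sm_gm hσ a b)).mul
        (C.sm_continuous (C.sm_Xb (hγs i a) c))) (HasCompactSupport.intro hM fun x hx => by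
          rw [(C.hb6_van hM.isClosed (hγM i a) hx c).2, mul_zero])
    refine ⟨fun i => ?_, ?_⟩
    · rw [hE]
      exact ((memLp_finsetSum _ fun j _ => hg i j k l).sub
        (memLp_finsetSum _ fun j _ => hg i j l k)).sub (hcurl k l).1
    · rw [hE]
      exact (hcurl k l).2
  -- the estimate for the mollified field
  have hA := fun i => C.hb6_A μ hc hσ hφs hnn hβ hM hlam (fun x hx b => (hbd x hx b).1) hCe hκ
    (a := fun k x => C.Xb k (fun y => (η y : ℂ)) x) hηκ (hγs i) (hγM i) (E := E i)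
    (fun k l x => by rw [hE]) (fun k l => (hE2 k l).1 i) (hEM i)
  have hI := fun i (t : ℝ) (ht : 0 < t) => C.hb6_I μ hM hφs hφnn hle
    (fun x hx b => (hbd x hx b).2) hCe (hγc i) (hγM i) hum huM ht
  have hV := fun i (t : ℝ) (ht : 0 < t) => hb6_V (hdm i) (hdM i) hhm hhM hφc hCe ht
  have hgoal : ∫ x, C.Lv φ x (fun j => (η x : ℂ) * β j x) * Real.exp (-φ x) ∂μ =
      ∫ x, C.Lv φ x (fun j => u j x) * Real.exp (-φ x) ∂μ := by rw [hu]
  have hgoal2 : ∫ x, ‖(η x : ℂ) * f x + ∑ j, C.X j (fun y => (η y : ℂ)) x * β j x‖ ^ 2 *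
      Real.exp (-φ x) ∂μ = ∫ x, ‖h x‖ ^ 2 * Real.exp (-φ x) ∂μ := by rw [hh]
  rw [hgoal, hgoal2]
  refine hb6_limt fun t ht => ?_
  have hlim : Tendsto (fun i => (1 + t) * (((1 + t) * ∫ x, ‖h x‖ ^ 2 * Real.exp (-φ x) ∂μ +
      (1 + 1 / t) * (Ce * ∫ x, ‖C.dvg (cOf cR) φ (γ i) x - h x‖ ^ 2 ∂μ)) +
      2 * κ * ∫ x, C.Lv σ x (fun j => β j x) * Real.exp (-φ x) ∂μ +
      Ce / lam ^ 2 * ∑ k, ∑ l, ∫ x, ‖E i k l x‖ ^ 2 ∂μ) +
      (1 + 1 / t) * (1 / lam * (Ce * ∑ j, ∫ x, ‖γ i j x - u j x‖ ^ 2 ∂μ))) atTop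
      (𝓝 ((1 + t) * (((1 + t) * ∫ x, ‖h x‖ ^ 2 * Real.exp (-φ x) ∂μ +
      (1 + 1 / t) * (Ce * 0)) +
      2 * κ * ∫ x, C.Lv σ x (fun j => β j x) * Real.exp (-φ x) ∂μ +
      Ce / lam ^ 2 * ∑ _k : Fin n, ∑ _l : Fin n, 0) +
      (1 + 1 / t) * (1 / lam * (Ce * ∑ _j : Fin n, 0)))) := by
    refine Tendsto.add (Tendsto.const_mul _ (Tendsto.add (Tendsto.add (Tendsto.add
      tendsto_const_nhds (Tendsto.const_mul _ (Tendsto.const_mul _ hD.2))) tendsto_const_nhds)
      (Tendsto.const_mul _ (tendsto_finsetSum _ fun k _ => tendsto_finsetSum _ fun l _ =>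
        (hE2 k l).2)))) (Tendsto.const_mul _ (Tendsto.const_mul _ (Tendsto.const_mul _
        (tendsto_finsetSum _ fun j _ => (hN j).2))))
  simp only [Finset.sum_const_zero, mul_zero, add_zero] at hlim
  refine ge_of_tendsto' hlim fun i => ?_
  have h1 := hI i t ht
  have h2 := hA i
  have h3 := hV i t ht
  have h4 : (0 : ℝ) ≤ 1 + t := by positivity
  have h5 := mul_le_mul_of_nonneg_left (h2.trans (add_le_add_left (add_le_add_left h3 _) _)) h4
  linarith

/-- A field `β` with finite energy in the metric of `σ = s + s² + φ`, whose lowered form is weakly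
`∂bar`-closed (`wc`) and whose weighted divergence is weakly the smooth function `f` (`wd`),
satisfies the basic inequality.
Proof. Fix a cutoff `η = η_R` (`exists_cutoffs`) and good mollifiers `ρ_k`. Let `u_j = η β_j`
(`L²`, compact support), `γ^k_j = Mol ρ_k u_j` (smooth, compact support: `mol_sm`, `mol_support`).
`basic_identity` for `γ^k`: `∫ Lv φ(γ^k) e = ∫ |dvg γ^k|² e - ∫ Re(Σ Xb_k γ_j conj(Xb_j γ_k)) e`.
By `friedrichs` (real directions; `Xb_j`, `X_j` are complex combinations of `D`),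
`dvg γ^k → η f + Σ_j (X_j η) β_j` in `L²`, and, with
`E^k_{kl} = Σ_j g_{jk} Xb_l γ^k_j - Σ_j g_{jl} Xb_k γ^k_j`,
`E^k_{kl} → Xb_l η α_k - Xb_k η α_l` in `L²`, `α = lower σ β` (the weak relation for `u`
follows from `wc` with the test function `η τ`, the product rule and
`Xb_l g_{jk} - Xb_k g_{jl} = Σ cc g_{jm}`, cf. `lower_closed`). The pointwise inequality
`mat_lower` with `a = ∂bar η`, `d = α`, `κ₁ = B/R²`, `κ₂ = Lv σ(β)`, `E` = the error, gives in the
limit `∫ η² Lv φ(β) e ≤ ∫ |η f + Σ (X_j η) β_j|² e + (2 B / R²) ∫ Lv σ(β) e` and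
`|Σ (X_j η) β_j|² ≤ (B/R²) Lv σ(β)`. Let `R → ∞` (monotone convergence, `η_R → 1`). -/
theorem weak_basic {cR : En n →L[ℝ] ℝ} (hcR : C.IsPartR μ cR)
    {cc : Fin n → Fin n → Fin n → ℂ}
    (hcc : ∀ (f : G → ℂ), C.Sm f → ∀ (l k : Fin n) (x : G),
      C.Xb l (C.Xb k f) x - C.Xb k (C.Xb l f) x = ∑ m, cc l k m * C.Xb m f x)
    {s φ : G → ℝ} (hs : C.Kah s) (hφ : C.Psh φ) {f : G → ℂ} (hf : C.Sm f)
    (hfc : HasCompactSupport f) {β : Fin n → G → ℂ} (hβm : ∀ j, Measurable (β j))
    (hβ : Integrable (fun x => C.Lv (fun y => s y + s y ^ 2 + φ y) x (fun j => β j x) *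
        Real.exp (-φ x)) μ)
    (wd : ∀ τ : G → ℂ, C.Sm τ → HasCompactSupport τ →
        ∑ j, ∫ x, β j x * (starRingEnd ℂ) (C.Xb j τ x) * (Real.exp (-φ x) : ℂ) ∂μ =
          - ∫ x, f x * (starRingEnd ℂ) (τ x) * (Real.exp (-φ x) : ℂ) ∂μ)
    (wc : ∀ τ : G → ℂ, C.Sm τ → HasCompactSupport τ → ∀ k l : Fin n,
        ∫ x, (C.lower (fun y => s y + s y ^ 2 + φ y) β k x *
            (C.Xb l τ x - (starRingEnd ℂ) (cOf cR l) * τ x) -
          C.lower (fun y => s y + s y ^ 2 + φ y) β l x *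
            (C.Xb k τ x - (starRingEnd ℂ) (cOf cR k) * τ x) +
          ∑ m, cc l k m * C.lower (fun y => s y + s y ^ 2 + φ y) β m x * τ x) ∂μ = 0) :
    Integrable (fun x => C.Lv φ x (fun j => β j x) * Real.exp (-φ x)) μ ∧
      ∫ x, C.Lv φ x (fun j => β j x) * Real.exp (-φ x) ∂μ ≤
        ∫ x, ‖f x‖ ^ 2 * Real.exp (-φ x) ∂μ := by
  have hφs : C.Sm φ := C.sm_ofReal.1 hφ.1
  have hφc : Continuous φ := C.sm_continuous hφs
  have hφnn : ∀ x b, 0 ≤ C.Lv φ x b := hφ.2
  have hle := fun x b => (C.pot_ge hs hφ x b).1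
  have hec : Continuous fun x => Real.exp (-φ x) := Real.continuous_exp.comp hφc.neg
  obtain ⟨B, hB, hcut0⟩ := C.exists_cutoffs
  obtain ⟨w, hcut⟩ := hcut0 hs hφ
  have hR1 : ∀ m : ℕ, (1 : ℝ) ≤ (m : ℝ) + 1 := fun m => by
    have : (0 : ℝ) ≤ m := Nat.cast_nonneg m
    linarith
  choose η hηs hηc hη0 hη1 hηe hηκ using fun m : ℕ => hcut ((m : ℝ) + 1) (hR1 m)
  -- integrability
  have hmeas : Measurable fun x => C.Lv φ x (fun j => β j x) := by
    have hg : ∀ j k, Measurable fun x => C.gm φ x j k := fun j k =>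
      (C.sm_continuous (C.sm_gm hφs j k)).measurable
    have h1 : Measurable fun x => ∑ j, ∑ k, β j x * (starRingEnd ℂ) (β k x) * C.gm φ x j k := by
      refine Finset.measurable_sum _ fun j _ => Finset.measurable_sum _ fun k _ => ?_
      exact ((hβm j).mul (Complex.continuous_conj.measurable.comp (hβm k))).mul (hg j k)
    exact Complex.measurable_re.comp h1
  have hI : Integrable (fun x => C.Lv φ x (fun j => β j x) * Real.exp (-φ x)) μ := by
    refine Integrable.mono' hβ (hmeas.mul hec.measurable).aestronglyMeasurable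
      (Eventually.of_forall fun x => ?_)
    rw [Real.norm_eq_abs, abs_of_nonneg (mul_nonneg (hφnn x _) (Real.exp_pos _).le)]
    exact mul_le_mul_of_nonneg_right (hle x _) (Real.exp_pos _).le
  refine ⟨hI, ?_⟩
  have hfi : Integrable (fun x => ‖f x‖ ^ 2 * Real.exp (-φ x)) μ := by
    refine Continuous.integrable_of_hasCompactSupport
      (((C.sm_continuous hf).norm.pow 2).mul hec) (HasCompactSupport.intro hfc fun x hx => ?_)
    rw [image_eq_zero_of_notMem_tsupport hx]
    simp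
  set J := ∫ x, C.Lv (fun y => s y + s y ^ 2 + φ y) x (fun j => β j x) * Real.exp (-φ x) ∂μ
    with hJ
  set F := ∫ x, ‖f x‖ ^ 2 * Real.exp (-φ x) ∂μ with hF
  have hF0 : 0 ≤ F := integral_nonneg fun x => mul_nonneg (by positivity) (Real.exp_pos _).le
  have hLvη : ∀ m x, C.Lv φ x (fun j => (η m x : ℂ) * β j x) =
      η m x ^ 2 * C.Lv φ x (fun j => β j x) := by
    intro m x
    have e : ∀ (r : ℝ) (z : ℂ), r * z.re = ((r : ℂ) * z).re := fun r z => by simp
    rw [CLG.Lv, CLG.Lv, e]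
    congr 1
    rw [Finset.mul_sum]
    refine Finset.sum_congr rfl fun j _ => ?_
    rw [Finset.mul_sum]
    refine Finset.sum_congr rfl fun k _ => ?_
    rw [map_mul, Complex.conj_ofReal]
    push_cast
    ring
  have hmain : ∀ t : ℝ, 0 < t → ∀ m : ℕ,
      ∫ x, η m x ^ 2 * (C.Lv φ x (fun j => β j x) * Real.exp (-φ x)) ∂μ ≤
        (1 + t) * F + (1 + 1 / t) * (B / ((m : ℝ) + 1) ^ 2 * J) +
          2 * (B / ((m : ℝ) + 1) ^ 2) * J := by
    intro t ht m
    have hκ0 : 0 ≤ B / ((m : ℝ) + 1) ^ 2 := by positivity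
    have h1 := C.hb6_R μ hcR hcc hs hφ hf hβm hβ wd wc hκ0 (hηs m) (hηc m) (hηκ m)
    have h2 : ∫ x, C.Lv φ x (fun j => (η m x : ℂ) * β j x) * Real.exp (-φ x) ∂μ =
        ∫ x, η m x ^ 2 * (C.Lv φ x (fun j => β j x) * Real.exp (-φ x)) ∂μ := by
      refine integral_congr_ae (Eventually.of_forall fun x => ?_)
      simp only
      rw [hLvη, mul_assoc]
    have h3 : ∫ x, ‖(η m x : ℂ) * f x + ∑ j, C.X j (fun y => (η m y : ℂ)) x * β j x‖ ^ 2 *
        Real.exp (-φ x) ∂μ ≤ (1 + t) * F + (1 + 1 / t) * (B / ((m : ℝ) + 1) ^ 2 * J) := by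
      have i2 := (hβ.const_mul (B / ((m : ℝ) + 1) ^ 2)).const_mul (1 + 1 / t)
      have h4 := integral_mono_of_nonneg (μ := μ)
        (f := fun x => ‖(η m x : ℂ) * f x + ∑ j, C.X j (fun y => (η m y : ℂ)) x * β j x‖ ^ 2 *
          Real.exp (-φ x))
        (g := fun x => (1 + t) * (‖f x‖ ^ 2 * Real.exp (-φ x)) +
          (1 + 1 / t) * (B / ((m : ℝ) + 1) ^ 2 *
            (C.Lv (fun y => s y + s y ^ 2 + φ y) x (fun j => β j x) * Real.exp (-φ x))))
        (Eventually.of_forall fun x => mul_nonneg (by positivity) (Real.exp_pos _).le)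
        ((hfi.const_mul (1 + t)).add i2) (Eventually.of_forall fun x => ?_)
      · rw [integral_add (hfi.const_mul _) i2, integral_const_mul, integral_const_mul,
          integral_const_mul] at h4
        exact h4
      · simp only
        have h5 := hb6_young ht ((η m x : ℂ) * f x +
          ∑ j, C.X j (fun y => (η m y : ℂ)) x * β j x) ((η m x : ℂ) * f x)
        rw [add_sub_cancel_left] at h5
        have h6 : ‖(η m x : ℂ) * f x‖ ^ 2 ≤ ‖f x‖ ^ 2 := by
          refine pow_le_pow_left₀ (norm_nonneg _) ?_ 2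
          rw [norm_mul, Complex.norm_real, Real.norm_eq_abs, abs_of_nonneg (hη0 m x)]
          exact mul_le_of_le_one_left (norm_nonneg _) (hη1 m x)
        have h7 : ‖∑ j, C.X j (fun y => (η m y : ℂ)) x * β j x‖ ^ 2 ≤
            B / ((m : ℝ) + 1) ^ 2 *
              C.Lv (fun y => s y + s y ^ 2 + φ y) x (fun j => β j x) := by
          have h8 : ∑ j, C.X j (fun y => (η m y : ℂ)) x * β j x = (starRingEnd ℂ)
              (∑ k, C.Xb k (fun y => (η m y : ℂ)) x * (starRingEnd ℂ) (β k x)) := by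
            rw [map_sum]
            refine Finset.sum_congr rfl fun j _ => ?_
            rw [map_mul, Complex.conj_conj, ← C.X_conj]
            congr 2
            funext y
            rw [Complex.conj_ofReal]
          rw [h8, RCLike.norm_conj]
          exact hηκ m x fun j => β j x
        have ht' : 0 ≤ 1 + 1 / t := by positivity
        have ht1 : 0 ≤ 1 + t := by positivity
        have h9 := h5.trans (add_le_add (mul_le_mul_of_nonneg_left h6 ht1)
          (mul_le_mul_of_nonneg_left h7 ht'))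
        have h10 := mul_le_mul_of_nonneg_right h9 (Real.exp_pos (-φ x)).le
        linarith
    rw [h2] at h1
    linarith
  -- the limit `m → ∞`
  have hlim1 : Tendsto (fun m : ℕ => ∫ x, η m x ^ 2 *
      (C.Lv φ x (fun j => β j x) * Real.exp (-φ x)) ∂μ) atTop
      (𝓝 (∫ x, C.Lv φ x (fun j => β j x) * Real.exp (-φ x) ∂μ)) := by
    refine tendsto_integral_of_dominated_convergence
      (fun x => C.Lv φ x (fun j => β j x) * Real.exp (-φ x)) (fun m => ?_) hI (fun m => ?_) ?_
    · exact ((C.sm_continuous (hηs m)).pow 2).aestronglyMeasurable.mul hI.aestronglyMeasurable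
    · refine Eventually.of_forall fun x => ?_
      have h1 : 0 ≤ C.Lv φ x (fun j => β j x) * Real.exp (-φ x) :=
        mul_nonneg (hφnn x _) (Real.exp_pos _).le
      rw [Real.norm_eq_abs, abs_of_nonneg (mul_nonneg (by positivity) h1)]
      exact mul_le_of_le_one_left h1 (pow_le_one₀ (hη0 m x) (hη1 m x))
    · refine Eventually.of_forall fun x => ?_
      refine tendsto_const_nhds.congr' ?_
      filter_upwards [eventually_ge_atTop ⌈w x⌉₊] with m hm
      rw [hηe m x, one_pow, one_mul]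
      have h1 : w x ≤ ⌈w x⌉₊ := Nat.le_ceil _
      have h2 : ((⌈w x⌉₊ : ℕ) : ℝ) ≤ m := by exact_mod_cast hm
      linarith
  have hκt : Tendsto (fun m : ℕ => B / ((m : ℝ) + 1) ^ 2) atTop (𝓝 0) := by
    refine Tendsto.div_atTop tendsto_const_nhds ?_
    refine (tendsto_pow_atTop two_ne_zero).comp ?_
    exact tendsto_atTop_add_const_right _ _ tendsto_natCast_atTop_atTop
  have hfin : ∀ t : ℝ, 0 < t → ∫ x, C.Lv φ x (fun j => β j x) * Real.exp (-φ x) ∂μ ≤
      (1 + t) * F := by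
    intro t ht
    refine le_of_tendsto_of_tendsto' hlim1 ?_ (hmain t ht)
    have h1 : Tendsto (fun m : ℕ => (1 + t) * F + (1 + 1 / t) * (B / ((m : ℝ) + 1) ^ 2 * J) +
          2 * (B / ((m : ℝ) + 1) ^ 2) * J) atTop
          (𝓝 ((1 + t) * F + (1 + 1 / t) * (0 * J) + 2 * 0 * J)) :=
      ((tendsto_const_nhds.add ((hκt.mul_const _).const_mul _))).add
        ((hκt.const_mul _).mul_const _)
    simpa only [zero_mul, mul_zero, add_zero] using h1
  have hz := hb6_limt (I := ∫ x, C.Lv φ x (fun j => β j x) * Real.exp (-φ x) ∂μ) (H := F)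
    (P := 0) fun t ht => by
      have h1 := hfin t ht
      have h2 : 0 ≤ t * ((1 + t) * F) := by positivity
      linarith
  simpa using hz

end CLG

end HR
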