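import Pool.Agent.W_06f097_h43.Defs2
import Pool.Agent.W_06f097_h43.CA4
import Pool.Agent.W_06f097_h43.CA5

/-! MP_06f097_an blueprint, block ME: left convolution gives smooth functions. -/

open scoped Topology ContDiff Pointwise
open MeasureTheory Set Filter Metric

noncomputable section

namespace HR

namespace CLG

variable {n : ℕ} {G : Type*} [Group G] [TopologicalSpace G] [IsTopologicalGroup G] [T2Space G]
  [LocallyCompactSpace G] [SecondCountableTopology G] [MeasurableSpace G] [BorelSpace G]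
  (C : CLG n G) (μ : Measure G) [μ.IsHaarMeasure]

omit [IsTopologicalGroup G] [T2Space G] [LocallyCompactSpace G] [SecondCountableTopology G]
  [MeasurableSpace G] [BorelSpace G] in
private theorem ME3_src : (0 : En n) ∈ C.ψ.source :=
  C.ball_sub (mem_ball_self C.r_pos)

omit [IsTopologicalGroup G] [T2Space G] [LocallyCompactSpace G] [SecondCountableTopology G]
  [MeasurableSpace G] [BorelSpace G] in
private theorem ME3_one_mem : (1 : G) ∈ C.ψ.target := by
  rw [← C.map_zero]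
  exact C.ψ.map_source C.ME3_src

omit [IsTopologicalGroup G] [T2Space G] [LocallyCompactSpace G] [SecondCountableTopology G]
  [MeasurableSpace G] [BorelSpace G] in
private theorem ME3_symm_one : C.ψ.symm (1 : G) = 0 := by
  rw [← C.map_zero]
  exact C.ψ.left_inv C.ME3_src

omit [T2Space G] [LocallyCompactSpace G] [SecondCountableTopology G]
  [MeasurableSpace G] [BorelSpace G] in
/-- joint smoothness in the parameter and in the variable of integration -/
private theorem ME3_joint {ρ : G → ℝ} (hρ : C.Sm ρ) (x y₁ : G) :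
    ContDiffAt ℝ ∞ (fun p : En n × En n => ρ (x * C.ψ p.1 * (y₁ * C.ψ p.2))) (0, 0) := by
  have hc := C.conj_smooth y₁
  have hc0 : C.ψ.symm (y₁⁻¹ * C.ψ 0 * y₁) = 0 := by
    rw [C.map_zero, mul_one, inv_mul_cancel]
    exact C.ME3_symm_one
  have hm : ContDiffAt ℂ ∞ (fun p : En n × En n => C.ψ.symm (C.ψ p.1 * C.ψ p.2)) (0, 0) :=
    C.mul_smooth.contDiffAt ((isOpen_ball.prod isOpen_ball).mem_nhds
      ⟨mem_ball_self C.r_pos, mem_ball_self C.r_pos⟩)
  have hm0 : C.ψ.symm (C.ψ 0 * C.ψ 0) = 0 := by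
    rw [C.map_zero, mul_one]
    exact C.ME3_symm_one
  have hcp : ContDiffAt ℂ ∞ (fun p : En n × En n =>
      (C.ψ.symm (y₁⁻¹ * C.ψ p.1 * y₁), p.2)) (0, 0) := by
    refine ContDiffAt.prodMk ?_ contDiffAt_snd
    exact ContDiffAt.comp (0, 0) (g := fun z => C.ψ.symm (y₁⁻¹ * C.ψ z * y₁)) hc contDiffAt_fst
  have hmc : ContDiffAt ℂ ∞ (fun p : En n × En n =>
      C.ψ.symm (C.ψ (C.ψ.symm (y₁⁻¹ * C.ψ p.1 * y₁)) * C.ψ p.2)) (0, 0) := by
    have hm' : ContDiffAt ℂ ∞ (fun p : En n × En n => C.ψ.symm (C.ψ p.1 * C.ψ p.2))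
        (C.ψ.symm (y₁⁻¹ * C.ψ (0, (0 : En n)).1 * y₁), (0, (0 : En n)).2) := by
      simp only [hc0]
      exact hm
    exact ContDiffAt.comp (0, 0) (g := fun p : En n × En n => C.ψ.symm (C.ψ p.1 * C.ψ p.2))
      (f := fun p : En n × En n => (C.ψ.symm (y₁⁻¹ * C.ψ p.1 * y₁), p.2)) hm' hcp
  have hfin : ContDiffAt ℝ ∞ (fun p : En n × En n => C.co ρ (x * y₁)
      (C.ψ.symm (C.ψ (C.ψ.symm (y₁⁻¹ * C.ψ p.1 * y₁)) * C.ψ p.2))) (0, 0) := by
    have h1 : ContDiffAt ℝ ∞ (C.co ρ (x * y₁))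
        (C.ψ.symm (C.ψ (C.ψ.symm (y₁⁻¹ * C.ψ (0, (0 : En n)).1 * y₁)) * C.ψ (0, (0 : En n)).2)) := by
      simp only [hc0, hm0]
      exact hρ (x * y₁)
    exact ContDiffAt.comp (0, 0) (g := C.co ρ (x * y₁)) (f := fun p : En n × En n =>
      C.ψ.symm (C.ψ (C.ψ.symm (y₁⁻¹ * C.ψ p.1 * y₁)) * C.ψ p.2)) h1 (hmc.restrict_scalars ℝ)
  refine hfin.congr_of_eventuallyEq ?_
  have hψ : ContinuousAt C.ψ 0 := C.ψ.continuousAt C.ME3_src
  have e1 : ∀ᶠ p : En n × En n in 𝓝 (0, 0), y₁⁻¹ * C.ψ p.1 * y₁ ∈ C.ψ.target := by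
    have hcont : ContinuousAt (fun p : En n × En n => y₁⁻¹ * C.ψ p.1 * y₁) (0, 0) := by
      have : ContinuousAt (fun p : En n × En n => C.ψ p.1) (0, 0) :=
        ContinuousAt.comp (x := (0, 0)) (g := C.ψ) hψ continuousAt_fst
      exact (continuousAt_const.mul this).mul continuousAt_const
    apply hcont.eventually_mem
    simp only [C.map_zero, mul_one, inv_mul_cancel]
    exact C.ψ.open_target.mem_nhds C.ME3_one_mem
  have e2 : ∀ᶠ p : En n × En n in 𝓝 (0, 0),
      C.ψ.symm (y₁⁻¹ * C.ψ p.1 * y₁) ∈ ball (0 : En n) C.r := by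
    have h1 : ContinuousAt (fun p : En n × En n => C.ψ.symm (y₁⁻¹ * C.ψ p.1 * y₁)) (0, 0) :=
      ContinuousAt.comp (x := (0, 0)) (g := fun z => C.ψ.symm (y₁⁻¹ * C.ψ z * y₁))
        hc.continuousAt continuousAt_fst
    apply h1.eventually_mem
    simp only [hc0]
    exact ball_mem_nhds _ C.r_pos
  have e3 : ∀ᶠ p : En n × En n in 𝓝 (0, 0), p.2 ∈ ball (0 : En n) C.r :=
    continuousAt_snd.eventually_mem (ball_mem_nhds _ C.r_pos)
  filter_upwards [e1, e2, e3] with p h1 h2 h3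
  rw [co, C.ψ.right_inv (C.mul_mem _ h2 _ h3), C.ψ.right_inv h1]
  congr 1
  group

omit [Group G] [TopologicalSpace G] [IsTopologicalGroup G] [T2Space G] [LocallyCompactSpace G]
  [SecondCountableTopology G] [MeasurableSpace G] [BorelSpace G] in
/-- parametric integrals against an integrable function on the model space -/
private theorem ME3_conv {ν : Measure (En n)} {f : En n → ℂ} (hf : Integrable f ν) {N : ℕ}
    {g : En n → En n → ℂ} {δ R : ℝ} (hδ : 0 < δ)
    (hgs : ∀ z w : En n, z ∈ ball (0 : En n) δ → w ∉ closedBall (0 : En n) R → g z w = 0)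
    (hg : ContDiffOn ℝ N (Function.uncurry g) (ball (0 : En n) δ ×ˢ univ)) :
    ContDiffAt ℝ N (fun z => ∫ w, f w * g z w ∂ν) 0 := by
  have hgs' : ∀ z w : En n, z ∈ ball (0 : En n) δ → w ∉ closedBall (0 : En n) R →
      g z (-w) = 0 := by
    intro z w hz hw
    refine hgs z _ hz ?_
    simpa [mem_closedBall, dist_eq_norm] using hw
  have hg' : ContDiffOn ℝ N (Function.uncurry fun z w => g z (-w))
      (ball (0 : En n) δ ×ˢ univ) := by
    refine hg.comp (f := fun p : En n × En n => (p.1, -p.2))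
      (contDiff_fst.prodMk contDiff_snd.neg).contDiffOn ?_
    rintro ⟨z, w⟩ ⟨hz, -⟩
    exact ⟨hz, mem_univ _⟩
  have hconv := contDiffOn_convolution_right_with_param_comp (𝕜 := ℝ) (n := (N : ℕ∞)) (μ := ν)
    (ContinuousLinearMap.mul ℝ ℂ) (s := ball (0 : En n) δ) (v := fun _ => (0 : En n))
    contDiffOn_const (f := f) (g := fun z w => g z (-w)) isOpen_ball
    (isCompact_closedBall (0 : En n) R) hgs' hf.locallyIntegrable hg'
  have hconv' := hconv.contDiffAt (isOpen_ball.mem_nhds (mem_ball_self hδ))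
  refine hconv'.congr_of_eventuallyEq (Eventually.of_forall fun z => ?_)
  simp only [convolution_def, ContinuousLinearMap.mul_apply', zero_sub, neg_neg]

omit [T2Space G] [LocallyCompactSpace G] in
/-- the local step in the patch -/
private theorem ME3_patch {k : En n → G → ℂ} {N : ℕ} {y₁ : G} {δ : ℝ} (hδ : 0 < δ)
    (hδr : δ ≤ C.r)
    (hk : ContDiffOn ℝ N (fun p : En n × En n => k p.1 (y₁ * C.ψ p.2)) (ball 0 δ ×ˢ ball 0 δ)) :
    ∃ S : Set G, IsOpen S ∧ y₁ ∈ S ∧ ∀ h : G → ℂ, Integrable h μ → (∀ y, y ∉ S → h y = 0) →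
      ContDiffAt ℝ N (fun z => ∫ y, k z y * h y ∂μ) 0 := by
  classical
  -- the cutoff function
  let χ : ContDiffBump (0 : En n) := ⟨δ / 3, δ / 2, by positivity, by linarith⟩
  have hχ1 : ∀ w : En n, w ∈ ball (0 : En n) (δ / 3) → χ w = 1 := fun w hw =>
    χ.one_of_mem_closedBall (ball_subset_closedBall hw)
  have hχ0 : ∀ w : En n, w ∉ closedBall (0 : En n) (δ / 2) → χ w = 0 := fun w hw =>
    χ.zero_of_le_dist (by
      rw [mem_closedBall, not_le] at hw
      exact hw.le)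
  obtain ⟨g, hgdef⟩ : ∃ g : En n → En n → ℂ, g = fun z w => (χ w : ℂ) * k z (y₁ * C.ψ w) :=
    ⟨_, rfl⟩
  have hgs : ∀ z w : En n, z ∈ ball (0 : En n) δ → w ∉ closedBall (0 : En n) (δ / 2) →
      g z w = 0 := by
    intro z w _ hw
    simp only [hgdef, hχ0 _ hw, Complex.ofReal_zero, zero_mul]
  have hg : ContDiffOn ℝ N (Function.uncurry g) (ball (0 : En n) δ ×ˢ univ) := by
    rintro ⟨z, w⟩ ⟨hz, -⟩
    apply ContDiffAt.contDiffWithinAt
    by_cases hw : w ∈ ball (0 : En n) δ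
    · have h1 : ContDiffAt ℝ N (fun p : En n × En n => k p.1 (y₁ * C.ψ p.2)) (z, w) :=
        hk.contDiffAt ((isOpen_ball.prod isOpen_ball).mem_nhds ⟨hz, hw⟩)
      have h4 : ContDiffAt ℝ N (fun p : En n × En n => (χ p.2 : ℂ)) (z, w) := by
        have h5 : ContDiff ℝ N (fun p : En n × En n => χ p.2) := χ.contDiff.comp contDiff_snd
        exact (Complex.ofRealCLM.contDiff.comp h5).contDiffAt
      rw [hgdef]
      exact h4.mul h1
    · have h1 : Function.uncurry g =ᶠ[𝓝 (z, w)] fun _ => 0 := by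
        have h2 : ∀ᶠ p : En n × En n in 𝓝 (z, w), p.1 ∈ ball (0 : En n) δ :=
          continuousAt_fst.eventually_mem (isOpen_ball.mem_nhds hz)
        have h3 : ∀ᶠ p : En n × En n in 𝓝 (z, w), p.2 ∈ (closedBall (0 : En n) (δ / 2))ᶜ := by
          refine continuousAt_snd.eventually_mem (isClosed_closedBall.isOpen_compl.mem_nhds ?_)
          intro h
          rw [mem_ball_zero_iff] at hw
          rw [mem_closedBall_zero_iff] at h
          linarith
        filter_upwards [h2, h3] with p h4 h5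
        exact hgs p.1 p.2 h4 h5
      exact contDiffAt_const.congr_of_eventuallyEq h1
  -- the patch
  have hT : IsOpen (C.ψ.target ∩ C.ψ.symm ⁻¹' ball (0 : En n) (δ / 3)) :=
    C.ψ.isOpen_inter_preimage_symm isOpen_ball
  let S : Set G := (fun y => y₁⁻¹ * y) ⁻¹' (C.ψ.target ∩ C.ψ.symm ⁻¹' ball (0 : En n) (δ / 3))
  have hS : IsOpen S := hT.preimage (continuous_const.mul continuous_id)
  have hy₁ : y₁ ∈ S := by
    simp only [S, mem_preimage, inv_mul_cancel]
    refine ⟨C.ME3_one_mem, ?_⟩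
    rw [mem_preimage, C.ME3_symm_one]
    exact mem_ball_self (by positivity)
  refine ⟨S, hS, hy₁, fun h hh hh0 => ?_⟩
  let θ : G → En n := fun y => C.ψ.symm (y₁⁻¹ * y)
  have hθc : ContinuousOn θ S :=
    C.ψ.symm.continuousOn.comp (continuous_const.mul continuous_id).continuousOn
      (fun y hy => hy.1)
  have hθm : AEMeasurable θ (μ.restrict S) := hθc.aemeasurable hS.measurableSet
  let ψ' : En n → G := (ball (0 : En n) C.r).piecewise (fun w => y₁ * C.ψ w) (fun _ => 1)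
  have hψ' : Measurable ψ' := by
    refine ContinuousOn.measurable_piecewise ?_ continuousOn_const isOpen_ball.measurableSet
    exact continuousOn_const.mul (C.ψ.continuousOn.mono C.ball_sub)
  obtain ⟨h', hh'm, hh'⟩ := hh.1
  have hθψ : ∀ y ∈ S, y₁ * C.ψ (θ y) = y := by
    intro y hy
    rw [C.ψ.right_inv hy.1]
    group
  have hθψ' : ∀ y ∈ S, ψ' (θ y) = y := by
    intro y hy
    have h1 : θ y ∈ ball (0 : En n) C.r := ball_subset_ball (by linarith) hy.2
    have h2 : ψ' (θ y) = y₁ * C.ψ (θ y) := piecewise_eq_of_mem _ _ _ h1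
    rw [h2, hθψ y hy]
  have hfm : StronglyMeasurable (fun w => h' (ψ' w)) := hh'm.comp_measurable hψ'
  have hfi : Integrable (fun w => h' (ψ' w)) ((μ.restrict S).map θ) := by
    rw [integrable_map_measure hfm.aestronglyMeasurable hθm]
    have h1 : Integrable h' (μ.restrict S) := (hh.congr hh').restrict
    refine h1.congr ?_
    filter_upwards [ae_restrict_mem hS.measurableSet] with y hy
    simp only [Function.comp_apply, hθψ' y hy]
  refine (ME3_conv hfi hδ hgs hg).congr_of_eventuallyEq ?_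
  filter_upwards [isOpen_ball.mem_nhds (mem_ball_self hδ)] with z hz
  have hgz : Continuous (fun w : En n => g z w) :=
    hg.continuousOn.comp_continuous (f := fun w : En n => (z, w))
      (continuous_const.prodMk continuous_id) (fun w => ⟨hz, mem_univ _⟩)
  rw [integral_map (f := fun w => h' (ψ' w) * g z w) hθm
      (hfm.aestronglyMeasurable.mul hgz.aestronglyMeasurable),
    ← setIntegral_eq_integral_of_forall_compl_eq_zero (s := S)
      (fun y hy => by rw [hh0 y hy, mul_zero])]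
  refine integral_congr_ae ?_
  filter_upwards [ae_restrict_mem hS.measurableSet, ae_restrict_of_ae hh'] with y hy hy'
  have h1 : χ (θ y) = 1 := hχ1 _ hy.2
  simp only [hgdef, hθψ y hy, hθψ' y hy]
  rw [h1, Complex.ofReal_one, one_mul, hy', mul_comm]

omit [T2Space G] [LocallyCompactSpace G] in
/-- the local step: integrable functions supported near `y₁` -/
private theorem ME3_local {ρ : G → ℝ} (hρ : C.Sm ρ) (N : ℕ) (x y₁ : G) :
    ∃ S : Set G, IsOpen S ∧ y₁ ∈ S ∧ ∀ h : G → ℂ, Integrable h μ → (∀ y, y ∉ S → h y = 0) →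
      ContDiffAt ℝ N (fun z => ∫ y, (ρ (x * C.ψ z * y) : ℂ) * h y ∂μ) 0 := by
  have hΦ : ContDiffAt ℝ N (fun p : En n × En n => (ρ (x * C.ψ p.1 * (y₁ * C.ψ p.2)) : ℂ))
      (0, 0) := by
    have h1 : ContDiffAt ℝ N (fun p : En n × En n => ρ (x * C.ψ p.1 * (y₁ * C.ψ p.2))) (0, 0) :=
      (C.ME3_joint hρ x y₁).of_le (mod_cast le_top)
    exact Complex.ofRealCLM.contDiff.contDiffAt.comp (0, 0) h1
  obtain ⟨U, hU, hΦU⟩ := hΦ.contDiffOn le_rfl (by simp)
  obtain ⟨δ₀, hδ₀, hball⟩ := Metric.mem_nhds_iff.1 hU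
  obtain ⟨δ, hδ, hδr, hδδ⟩ : ∃ δ : ℝ, 0 < δ ∧ δ ≤ C.r ∧ δ ≤ δ₀ :=
    ⟨min C.r δ₀, lt_min C.r_pos hδ₀, min_le_left _ _, min_le_right _ _⟩
  have hΦb : ContDiffOn ℝ N (fun p : En n × En n => (ρ (x * C.ψ p.1 * (y₁ * C.ψ p.2)) : ℂ))
      (ball 0 δ ×ˢ ball 0 δ) := by
    refine hΦU.mono fun p hp => hball ?_
    rw [mem_ball, Prod.dist_eq]
    exact (max_lt (mem_ball.1 hp.1) (mem_ball.1 hp.2)).trans_le hδδ
  exact C.ME3_patch μ (k := fun z y => (ρ (x * C.ψ z * y) : ℂ)) hδ hδr hΦb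

omit [T2Space G] [LocallyCompactSpace G] in
/-- integrable functions supported in a compact set -/
private theorem ME3_compact {ρ : G → ℝ} (hρ : C.Sm ρ) (hc : HasCompactSupport ρ) (N : ℕ) (x : G)
    {K : Set G} (hK : IsCompact K) : ∃ S : Set G, MeasurableSet S ∧ K ⊆ S ∧
      ∀ h : G → ℂ, Integrable h μ → (∀ y, y ∉ S → h y = 0) →
      ContDiffAt ℝ N (fun z => ∫ y, (ρ (x * C.ψ z * y) : ℂ) * h y ∂μ) 0 := by
  have hρc : Continuous ρ := C.sm_continuous hρ
  obtain ⟨M, hM⟩ := hρc.bounded_above_of_compact_support hc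
  have hint : ∀ (h : G → ℂ), Integrable h μ → ∀ g : G,
      Integrable (fun y => (ρ (g * y) : ℂ) * h y) μ := by
    intro h hh g
    refine hh.bdd_mul (c := M) ?_ ?_
    · exact (Complex.continuous_ofReal.comp
        (hρc.comp (continuous_const.mul continuous_id))).aestronglyMeasurable
    · exact Eventually.of_forall fun y => by
        rw [Complex.norm_real]
        exact hM _
  refine hK.induction_on (p := fun K => ∃ S : Set G, MeasurableSet S ∧ K ⊆ S ∧
      ∀ h : G → ℂ, Integrable h μ → (∀ y, y ∉ S → h y = 0) →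
      ContDiffAt ℝ N (fun z => ∫ y, (ρ (x * C.ψ z * y) : ℂ) * h y ∂μ) 0) ?_ ?_ ?_ ?_
  · refine ⟨∅, MeasurableSet.empty, Subset.rfl, fun h _ hh0 => ?_⟩
    have h1 : h = 0 := funext fun y => hh0 y (notMem_empty y)
    simp only [h1, Pi.zero_apply, mul_zero, integral_zero]
    exact contDiffAt_const
  · rintro s t hst ⟨S, h1, h2, h3⟩
    exact ⟨S, h1, hst.trans h2, h3⟩
  · rintro s t ⟨S, h1, h2, h3⟩ ⟨T, k1, k2, k3⟩
    refine ⟨S ∪ T, h1.union k1, union_subset_union h2 k2, fun h hh hh0 => ?_⟩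
    have e1 := h3 (S.indicator h) (hh.indicator h1) (fun y hy => indicator_of_notMem hy h)
    have e2 := k3 (Sᶜ.indicator h) (hh.indicator h1.compl) (fun y hy => by
      by_cases hyS : y ∈ S
      · exact indicator_of_notMem (fun hn : y ∈ Sᶜ => hn hyS) h
      · rw [indicator_of_mem (show y ∈ Sᶜ from hyS)]
        exact hh0 y (fun hn => hn.elim hyS hy))
    refine (e1.add e2).congr_of_eventuallyEq (Eventually.of_forall fun z => ?_)
    simp only
    rw [← integral_add (hint _ (hh.indicator h1) _) (hint _ (hh.indicator h1.compl) _)]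
    refine integral_congr_ae (Eventually.of_forall fun y => ?_)
    simp only
    rw [← mul_add]
    congr 1
    exact (congrFun (indicator_self_add_compl S h) y).symm
  · intro y _
    obtain ⟨S, h1, h2, h3⟩ := C.ME3_local μ hρ N x y
    exact ⟨S, mem_nhdsWithin_of_mem_nhds (h1.mem_nhds h2), S, h1.measurableSet, Subset.rfl, h3⟩

omit C in
/-- inversion preserves local integrability -/
private theorem ME3_inv_int {u : G → ℂ} (hu : LocallyIntegrable u μ) {K : Set G}
    (hK : IsCompact K) : IntegrableOn (fun y => u y⁻¹) K μ := by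
  obtain ⟨V, hV, hV1⟩ := exists_compact_mem_nhds (1 : G)
  have hVpos : μ V ≠ 0 := (Measure.measure_pos_of_mem_nhds μ hV1).ne'
  have hs : IsCompact (V * K) := hV.mul hK
  have hum : AEStronglyMeasurable u μ := hu.aestronglyMeasurable
  obtain ⟨u', hu'm, hu'⟩ := hum
  have hqi := quasiMeasurePreserving_inv μ
  have hKi : IsCompact K⁻¹ := hK.inv
  have hf : Measurable ((K⁻¹).indicator (fun y => ‖u' y‖ₑ)) :=
    hu'm.enorm.indicator hKi.measurableSet
  have key := measure_mul_lintegral_eq μ μ hs.measurableSet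
    ((K⁻¹).indicator (fun y => ‖u' y‖ₑ)) hf
  have hfin : ∫⁻ y, (K⁻¹).indicator (fun y => ‖u' y‖ₑ) y ∂μ < ⊤ := by
    rw [lintegral_indicator hKi.measurableSet]
    have h1 : ∫⁻ y in K⁻¹, ‖u' y‖ₑ ∂μ = ∫⁻ y in K⁻¹, ‖u y‖ₑ ∂μ := by
      refine lintegral_congr_ae ?_
      filter_upwards [ae_restrict_of_ae hu'] with y hy
      rw [hy]
    rw [h1]
    exact (hu.integrableOn_isCompact hKi).2
  have hlt : μ (V * K) * ∫⁻ y, (K⁻¹).indicator (fun y => ‖u' y‖ₑ) y ∂μ < ⊤ :=
    ENNReal.mul_lt_top hs.measure_lt_top hfin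
  rw [key] at hlt
  have hle : μ V * ∫⁻ y in K, ‖u' y⁻¹‖ₑ ∂μ ≤ ∫⁻ x, μ ((fun z => z * x) ⁻¹' (V * K)) *
      (K⁻¹).indicator (fun y => ‖u' y‖ₑ) x⁻¹ ∂μ := by
    rw [← lintegral_const_mul' _ _ hV.measure_lt_top.ne, ← lintegral_indicator hK.measurableSet]
    refine lintegral_mono fun x => ?_
    by_cases hx : x ∈ K
    · rw [indicator_of_mem hx, indicator_of_mem (inv_mem_inv.2 hx)]
      gcongr
      intro z hz
      exact mul_mem_mul hz hx
    · rw [indicator_of_notMem hx]
      exact zero_le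
  refine ⟨(hu.aestronglyMeasurable.comp_quasiMeasurePreserving hqi).restrict, ?_⟩
  have h2 : ∫⁻ y in K, ‖u y⁻¹‖ₑ ∂μ = ∫⁻ y in K, ‖u' y⁻¹‖ₑ ∂μ := by
    refine lintegral_congr_ae ?_
    have h3 := hqi.ae_eq_comp hu'
    filter_upwards [ae_restrict_of_ae h3] with y hy
    have h4 : u y⁻¹ = u' y⁻¹ := hy
    rw [h4]
  rw [HasFiniteIntegral, h2]
  by_contra hc
  rw [not_lt, top_le_iff] at hc
  rw [hc, ENNReal.mul_top hVpos] at hle
  exact (hle.trans_lt hlt).ne rfl

/-- `Mol μ ρ u x = ∫ ρ(x y) u(y⁻¹) dμ(y)` (left invariance). In the chart at `x`: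
`z ↦ ∫ ρ(x ψ(z) y) u(y⁻¹) dμ(y)`, and for `y` near `y₀ = y₁ ψ(w₀)` the function
`(z, w) ↦ ρ(x ψ(z) y₁ ψ(w))` is jointly smooth (`conj_smooth`, `mul_smooth`), with supports in `y` in
a fixed compact set for `z` in a small ball. A parametric integral of a family `k (z, y)` all of
whose `z`-derivatives are jointly continuous and which is supported in `y` in a fixed compact set is
smooth: prove by induction on the order with `hasFDerivAt_integral_of_dominated_of_fderiv_le`.
`u` only needs to be locally integrable. -/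
theorem mol_sm {ρ : G → ℝ} (hρ : C.Sm ρ) (hc : HasCompactSupport ρ) {u : G → ℂ}
    (hu : LocallyIntegrable u μ) : C.Sm (Mol μ ρ u) := by
  intro x
  have hρc : Continuous ρ := C.sm_continuous hρ
  -- left invariance
  have hMol : ∀ g : G, Mol μ ρ u g = ∫ y, (ρ (g * y) : ℂ) * u y⁻¹ ∂μ := by
    intro g
    rw [Mol, ← integral_mul_left_eq_self (μ := μ) (fun y => (ρ y : ℂ) * u (y⁻¹ * g)) g]
    refine integral_congr_ae (Eventually.of_forall fun y => ?_)
    simp only [mul_inv_rev, mul_assoc, inv_mul_cancel, mul_one]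
  -- the compact set
  have hB : IsCompact (closedBall (0 : En n) (C.r / 2)) := isCompact_closedBall _ _
  have hBs : closedBall (0 : En n) (C.r / 2) ⊆ C.ψ.source :=
    (closedBall_subset_ball (by linarith [C.r_pos])).trans C.ball_sub
  have hB' : IsCompact ((fun z => (x * C.ψ z)⁻¹) '' closedBall (0 : En n) (C.r / 2)) :=
    hB.image_of_continuousOn ((continuousOn_const.mul (C.ψ.continuousOn.mono hBs)).inv)
  have hK := hB'.mul hc
  obtain ⟨K, hKdef⟩ : ∃ K, K = ((fun z => (x * C.ψ z)⁻¹) '' closedBall (0 : En n) (C.r / 2)) *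
      tsupport ρ := ⟨_, rfl⟩
  have hKc : IsCompact K := by
    rw [hKdef]
    exact hK
  have hint : Integrable (K.indicator fun y => u y⁻¹) μ :=
    (integrable_indicator_iff hKc.measurableSet).2 (ME3_inv_int μ hu hKc)
  rw [contDiffAt_infty]
  intro N
  obtain ⟨S, -, hKS, hS⟩ := C.ME3_compact μ hρ hc N x hKc
  have h1 := hS _ hint (fun y hy => indicator_of_notMem (fun h => hy (hKS h)) _)
  refine h1.congr_of_eventuallyEq ?_
  filter_upwards [closedBall_mem_nhds (0 : En n) (half_pos C.r_pos)] with z hz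
  rw [co, hMol]
  refine integral_congr_ae (Eventually.of_forall fun y => ?_)
  simp only
  by_cases hy : y ∈ K
  · rw [indicator_of_mem hy]
  · rw [indicator_of_notMem hy, mul_zero]
    have h2 : ρ (x * C.ψ z * y) = 0 := by
      by_contra h3
      apply hy
      rw [hKdef]
      refine mem_mul.2 ⟨(x * C.ψ z)⁻¹, ⟨z, hz, rfl⟩, x * C.ψ z * y, subset_tsupport _ h3, ?_⟩
      group
    rw [h2, Complex.ofReal_zero, zero_mul]

end CLG

end HR
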