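import Pool.Agent.W_06f097_h43.ME1
import Pool.Agent.W_06f097_h43.ME2
import Pool.Agent.W_06f097_h43.ME3
import Pool.Agent.W_06f097_h43.ME4
import Pool.Agent.W_06f097_h43.ME5

/-! MP_06f097_an blueprint, block ME: weakly holomorphic functions are holomorphic. -/

open scoped Topology ContDiff Pointwise
open MeasureTheory Set Filter Metric

noncomputable section

namespace HR

namespace CLG

variable {n : ℕ} {G : Type*} [Group G] [TopologicalSpace G] [IsTopologicalGroup G] [T2Space G]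
  [LocallyCompactSpace G] [SecondCountableTopology G] [MeasurableSpace G] [BorelSpace G]
  (C : CLG n G) (μ : Measure G) [μ.IsHaarMeasure]

variable {μ} in
private theorem ME6_locInt {u : G → ℂ} (hm : AEStronglyMeasurable u μ)
    (hu : ∀ K : Set G, IsCompact K → IntegrableOn (fun x => ‖u x‖ ^ 2) K μ) :
    LocallyIntegrable u μ := by
  rw [locallyIntegrable_iff]
  intro K hK
  have h1 := hu K hK
  have h2 : IntegrableOn (fun x => (1 : ℝ) + ‖u x‖ ^ 2) K μ :=
    (integrableOn_const hK.measure_ne_top).add h1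
  refine Integrable.mono' h2 hm.restrict (Eventually.of_forall fun x => ?_)
  show ‖u x‖ ≤ 1 + ‖u x‖ ^ 2
  nlinarith [sq_nonneg (‖u x‖ - 1), norm_nonneg (u x)]

private theorem ME6_pair {ρ : G → ℝ} (hρ : Continuous ρ) (hc : HasCompactSupport ρ) {u σ : G → ℂ}
    (hu : LocallyIntegrable u μ) (hσ : Continuous σ) (hσc : HasCompactSupport σ)
    (h0 : ∀ y, ∫ x, u x * σ (y * x) ∂μ = 0) :
    ∫ x, Mol μ ρ u x * σ x ∂μ = 0 := by
  rw [mol_transpose μ hρ hc hu hσ hσc]
  have e1 : ∀ x, u x * (∫ y, (ρ y : ℂ) * σ (y * x) ∂μ)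
      = ∫ y, u x * ((ρ y : ℂ) * σ (y * x)) ∂μ := fun x => (integral_const_mul _ _).symm
  simp only [e1]
  have hLc : IsCompact ((tsupport ρ)⁻¹ * tsupport σ) :=
    IsCompact.mul (IsCompact.inv hc) hσc
  obtain ⟨M, hM⟩ := hσ.bounded_above_of_compact_support hσc
  have hint : Integrable (Function.uncurry fun x y => u x * ((ρ y : ℂ) * σ (y * x)))
      (μ.prod μ) := by
    have hA : Integrable (((tsupport ρ)⁻¹ * tsupport σ).indicator fun x => ‖u x‖) μ := by
      rw [integrable_indicator_iff hLc.isClosed.measurableSet]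
      exact (hu.integrableOn_isCompact hLc).norm
    have hB : Integrable (fun y => ‖ρ y‖ * M) μ :=
      ((hρ.integrable_of_hasCompactSupport hc).norm).mul_const M
    refine Integrable.mono' (hA.mul_prod hB) ?_ (Eventually.of_forall fun p => ?_)
    · have h1 : AEStronglyMeasurable (fun p : G × G => u p.1) (μ.prod μ) :=
        hu.aestronglyMeasurable.comp_fst
      have h2 : Continuous (fun p : G × G => (ρ p.2 : ℂ) * σ (p.2 * p.1)) := by
        have a1 : Continuous (fun p : G × G => (ρ p.2 : ℂ)) :=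
          Complex.continuous_ofReal.comp (hρ.comp continuous_snd)
        have a2 : Continuous (fun p : G × G => σ (p.2 * p.1)) :=
          hσ.comp (continuous_snd.mul continuous_fst)
        exact a1.mul a2
      exact h1.mul h2.aestronglyMeasurable
    · obtain ⟨x, y⟩ := p
      show ‖u x * ((ρ y : ℂ) * σ (y * x))‖ ≤ _
      by_cases hz : ρ y * 1 = 0 ∨ σ (y * x) = 0
      · have hz' : (ρ y : ℂ) * σ (y * x) = 0 := by
          rcases hz with h | h
          · rw [mul_one] at h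
            simp [h]
          · simp [h]
        rw [hz', mul_zero, norm_zero]
        have hM0 : 0 ≤ M := (norm_nonneg _).trans (hM 1)
        refine mul_nonneg (indicator_nonneg (fun _ _ => norm_nonneg _) _) ?_
        exact mul_nonneg (norm_nonneg _) hM0
      · push Not at hz
        obtain ⟨z1, z2⟩ := hz
        rw [mul_one] at z1
        have hx : x ∈ (tsupport ρ)⁻¹ * tsupport σ := by
          refine ⟨y⁻¹, ?_, y * x, subset_closure z2, by simp⟩
          exact Set.inv_mem_inv.2 (subset_closure z1)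
        have e3 : ((tsupport ρ)⁻¹ * tsupport σ).indicator (fun x => ‖u x‖) x = ‖u x‖ :=
          indicator_of_mem hx _
        show _ ≤ ((tsupport ρ)⁻¹ * tsupport σ).indicator (fun x => ‖u x‖) x * (‖ρ y‖ * M)
        rw [e3, norm_mul, norm_mul, Complex.norm_real]
        gcongr
        exact hM _
  rw [integral_integral_swap hint]
  have e2 : ∀ y, ∫ x, u x * ((ρ y : ℂ) * σ (y * x)) ∂μ = 0 := by
    intro y
    have e4 : ∀ x, u x * ((ρ y : ℂ) * σ (y * x)) = (ρ y : ℂ) * (u x * σ (y * x)) :=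
      fun x => by ring
    simp only [e4]
    rw [integral_const_mul, h0 y, mul_zero]
  simp only [e2, integral_zero]

private theorem ME6_zero {g : G → ℂ} (hg : C.Sm g)
    (h : ∀ τ : G → ℂ, C.Sm τ → HasCompactSupport τ → ∫ x, g x * τ x ∂μ = 0) (x₀ : G) :
    g x₀ = 0 := by
  by_contra hne
  obtain ⟨θ, h1, h2, -, h4, -, V, -, h7, h8⟩ := C.exists_cutoff (isCompact_singleton (x := x₀))
    isOpen_univ (subset_univ _)
  have hθ0 : θ x₀ = 1 := h8 _ (h7 rfl)
  have hgc := C.sm_continuous hg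
  have hθc := C.sm_continuous h1
  have hτ := h (fun x => (θ x : ℂ) * (starRingEnd ℂ) (g x))
    (C.sm_mul (C.sm_ofReal.2 h1) (C.sm_conj hg)) ?_
  · have e1 : ∀ x, g x * ((θ x : ℂ) * (starRingEnd ℂ) (g x))
        = ((θ x * ‖g x‖ ^ 2 : ℝ) : ℂ) := by
      intro x
      have := Complex.mul_conj (g x)
      rw [Complex.normSq_eq_norm_sq] at this
      calc g x * ((θ x : ℂ) * (starRingEnd ℂ) (g x))
          = (θ x : ℂ) * (g x * (starRingEnd ℂ) (g x)) := by ring
        _ = _ := by rw [this]; push_cast; ring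
    simp only [e1] at hτ
    have e2 : ∫ x, θ x * ‖g x‖ ^ 2 ∂μ = 0 := by
      have := integral_ofReal (𝕜 := ℂ) (μ := μ) (f := fun x => θ x * ‖g x‖ ^ 2)
      have h9 := this.symm.trans hτ
      exact RCLike.ofReal_eq_zero.1 h9
    have e3 : 0 < ∫ x, θ x * ‖g x‖ ^ 2 ∂μ := by
      refine Continuous.integral_pos_of_hasCompactSupport_nonneg_nonzero (x := x₀)
        (hθc.mul (hgc.norm.pow 2)) (h2.mul_right) (fun x => ?_) ?_
      · exact mul_nonneg (h4 x) (by positivity)
      · rw [hθ0, one_mul]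
        exact pow_ne_zero 2 (norm_ne_zero_iff.2 hne)
    exact absurd e2 e3.ne'
  · have h10 : HasCompactSupport (fun x => (θ x : ℂ)) :=
      h2.comp_left (g := fun t : ℝ => (t : ℂ)) Complex.ofReal_zero
    exact h10.mul_right

private theorem ME6_XbSupp {τ : G → ℂ} (hτc : HasCompactSupport τ) (m : Fin n) :
    HasCompactSupport (C.Xb m τ) := by
  refine hτc.of_isClosed_subset isClosed_closure (closure_minimal ?_ isClosed_closure)
  intro x hx
  by_contra hx2
  apply hx
  have h1 : τ =ᶠ[𝓝 x] fun _ => (0 : ℂ) := notMem_tsupport_iff_eventuallyEq.1 hx2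
  rw [C.Xb_congr h1 m, C.Xb_const]

variable {μ} in
private theorem ME6_hol {c : Fin n → ℂ} (hc : C.IsPart μ c) {u : G → ℂ}
    (hu : LocallyIntegrable u μ)
    (h : ∀ τ : G → ℂ, C.Sm τ → HasCompactSupport τ → ∀ m : Fin n,
      ∫ x, u x * (C.Xb m τ x - (starRingEnd ℂ) (c m) * τ x) ∂μ = 0)
    {ρ : G → ℝ} (hρ : C.Sm ρ) (hρc : HasCompactSupport ρ) : C.Hol (Mol μ ρ u) := by
  have hsm := C.mol_sm μ hρ hρc hu
  refine C.hol_of_Xb hsm fun m x₀ => ?_
  refine C.ME6_zero μ (C.sm_Xb hsm m) (fun τ hτ hτc => ?_) x₀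
  have cH := C.sm_continuous hsm
  have cτ := C.sm_continuous hτ
  have cX := C.sm_continuous (C.sm_Xb hτ m)
  have cG := C.sm_continuous (C.sm_Xb hsm m)
  have sX := C.ME6_XbSupp hτc m
  have h1 := (hc (fun x => Mol μ ρ u x * τ x) (C.sm_mul hsm hτ) hτc.mul_left m).2
  have h2 : ∀ x, C.Xb m (fun y => Mol μ ρ u y * τ y) x
      = C.Xb m (Mol μ ρ u) x * τ x + Mol μ ρ u x * C.Xb m τ x :=
    fun x => C.Xb_mul hsm hτ m x
  simp only [h2] at h1
  have i1 : Integrable (fun x => C.Xb m (Mol μ ρ u) x * τ x) μ :=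
    (cG.mul cτ).integrable_of_hasCompactSupport hτc.mul_left
  have i2 : Integrable (fun x => Mol μ ρ u x * C.Xb m τ x) μ :=
    (cH.mul cX).integrable_of_hasCompactSupport sX.mul_left
  have i3 : Integrable (fun x => Mol μ ρ u x * τ x) μ :=
    (cH.mul cτ).integrable_of_hasCompactSupport hτc.mul_left
  rw [integral_add i1 i2] at h1
  have h3 : ∫ x, Mol μ ρ u x * (C.Xb m τ x - (starRingEnd ℂ) (c m) * τ x) ∂μ = 0 := by
    refine ME6_pair μ (C.sm_continuous hρ) hρc hu (cX.sub (continuous_const.mul cτ)) ?_ ?_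
    · have := hτc.mul_left (f := fun _ => (starRingEnd ℂ) (c m))
      exact sX.sub this
    · intro y
      have h4 := h (fun x => τ (y * x)) (C.sm_left hτ y)
        (hτc.comp_homeomorph (Homeomorph.mulLeft y)) m
      simp only [C.Xb_left] at h4
      exact h4
  have h5 : ∀ x, Mol μ ρ u x * (C.Xb m τ x - (starRingEnd ℂ) (c m) * τ x)
      = Mol μ ρ u x * C.Xb m τ x - (starRingEnd ℂ) (c m) * (Mol μ ρ u x * τ x) :=
    fun x => by ring
  simp only [h5] at h3
  rw [integral_sub i2 (i3.const_mul _), integral_const_mul] at h3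
  linear_combination h1 - h3

private theorem ME6_sq (a b : ℂ) : ‖a - b‖ ^ 2 ≤ 2 * ‖a‖ ^ 2 + 2 * ‖b‖ ^ 2 := by
  have h1 := norm_sub_le a b
  nlinarith [sq_nonneg (‖a‖ - ‖b‖), norm_nonneg a, norm_nonneg b, norm_nonneg (a - b)]

variable {μ} in
private theorem ME6_intsub {u h : G → ℂ} (hm : AEStronglyMeasurable u μ) {K : Set G}
    (hK : IsCompact K) (hu : IntegrableOn (fun x => ‖u x‖ ^ 2) K μ) (hc : Continuous h) :
    IntegrableOn (fun x => ‖h x - u x‖ ^ 2) K μ := by
  have h1 : IntegrableOn (fun x => 2 * ‖h x‖ ^ 2 + 2 * ‖u x‖ ^ 2) K μ := by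
    refine Integrable.add ?_ (hu.const_mul 2)
    exact ((hc.norm.pow 2).continuousOn.integrableOn_compact hK).const_mul 2
  refine Integrable.mono' h1 ?_ (Eventually.of_forall fun x => ?_)
  · exact ((hc.aestronglyMeasurable.sub hm).norm.pow 2).restrict
  · rw [Real.norm_of_nonneg (by positivity)]
    exact ME6_sq _ _

variable {μ} in
private theorem ME6_conv {ρ : ℕ → G → ℝ} (h1 : ∀ k, C.Sm (ρ k)) (h2 : ∀ k x, 0 ≤ ρ k x)
    (h3 : ∀ k, ∫ x, ρ k x ∂μ = 1) {L : Set G} (hL : IsCompact L) (h4 : ∀ k, tsupport (ρ k) ⊆ L)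
    (h5 : ∀ U ∈ 𝓝 (1 : G), ∀ᶠ k in atTop, tsupport (ρ k) ⊆ U)
    {u : G → ℂ} (hm : AEStronglyMeasurable u μ)
    (hu : ∀ K : Set G, IsCompact K → IntegrableOn (fun x => ‖u x‖ ^ 2) K μ)
    {K : Set G} (hK : IsCompact K) :
    Tendsto (fun k => ∫ x in K, ‖Mol μ (ρ k) u x - u x‖ ^ 2 ∂μ) atTop (𝓝 0) := by
  have hK' : IsCompact (K ∪ L⁻¹ * K) := hK.union (hL.inv.mul hK)
  have hm' : AEStronglyMeasurable ((K ∪ L⁻¹ * K).indicator u) μ :=
    hm.indicator hK'.isClosed.measurableSet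
  have e0 : (fun x => ‖(K ∪ L⁻¹ * K).indicator u x‖ ^ 2)
      = (K ∪ L⁻¹ * K).indicator fun x => ‖u x‖ ^ 2 := by
    funext x
    by_cases hx : x ∈ K ∪ L⁻¹ * K
    · rw [indicator_of_mem hx, indicator_of_mem hx]
    · rw [indicator_of_notMem hx, indicator_of_notMem hx]
      simp
  have hu' : Integrable (fun x => ‖(K ∪ L⁻¹ * K).indicator u x‖ ^ 2) μ := by
    rw [e0, integrable_indicator_iff hK'.isClosed.measurableSet]
    exact hu _ hK'
  have hlim := mol_tendsto μ (fun k => C.sm_continuous (h1 k)) h2 h3 hL h4 h5 hm' hu'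
  have hloc' : LocallyIntegrable ((K ∪ L⁻¹ * K).indicator u) μ :=
    ME6_locInt hm' fun K₁ _ => hu'.integrableOn
  refine squeeze_zero (fun k => integral_nonneg fun x => by positivity) (fun k => ?_) hlim
  have hcs : HasCompactSupport (ρ k) := hL.of_isClosed_subset isClosed_closure (h4 k)
  have e1 : ∫ x in K, ‖Mol μ (ρ k) u x - u x‖ ^ 2 ∂μ
      = ∫ x in K, ‖Mol μ (ρ k) ((K ∪ L⁻¹ * K).indicator u) x
        - (K ∪ L⁻¹ * K).indicator u x‖ ^ 2 ∂μ := by
    refine setIntegral_congr_fun hK.isClosed.measurableSet fun x hx => ?_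
    have hx' : x ∈ K ∪ L⁻¹ * K := Or.inl hx
    have e2 : Mol μ (ρ k) ((K ∪ L⁻¹ * K).indicator u) x = Mol μ (ρ k) u x := by
      refine integral_congr_ae (Eventually.of_forall fun y => ?_)
      show (ρ k y : ℂ) * _ = (ρ k y : ℂ) * _
      by_cases hy : ρ k y = 0
      · simp [hy]
      · have hy' : y ∈ L := h4 k (subset_closure hy)
        have hyx : y⁻¹ * x ∈ K ∪ L⁻¹ * K :=
          Or.inr (Set.mul_mem_mul (Set.inv_mem_inv.2 hy') hx)
        rw [indicator_of_mem hyx]
    show ‖_‖ ^ 2 = ‖_‖ ^ 2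
    rw [e2, indicator_of_mem hx']
  rw [e1]
  have hcM : Continuous (Mol μ (ρ k) ((K ∪ L⁻¹ * K).indicator u)) :=
    C.sm_continuous (C.mol_sm μ (h1 k) hcs hloc')
  have i1 := (mol_L2 μ (C.sm_continuous (h1 k)) hcs (h2 k) hm' hu').1
  have i2 : Integrable (fun x => ‖Mol μ (ρ k) ((K ∪ L⁻¹ * K).indicator u) x
        - (K ∪ L⁻¹ * K).indicator u x‖ ^ 2) μ := by
    refine Integrable.mono' ((i1.const_mul 2).add (hu'.const_mul 2)) ?_
      (Eventually.of_forall fun x => ?_)
    · exact (hcM.aestronglyMeasurable.sub hm').norm.pow 2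
    · rw [Real.norm_of_nonneg (by positivity)]
      exact ME6_sq _ _
  exact setIntegral_le_integral i2 (Eventually.of_forall fun x => by positivity)

variable {μ} in
private theorem ME6_smv {V : Set G} {K : Set G} (hK : IsCompact K)
    (hVc : IsCompact V) {c : ℝ} (hc : 0 < c)
    (hs : ∀ f : G → ℂ, C.Hol f → ∀ x, ‖f x‖ ^ 2 ≤ c * ∫ y in V, ‖f (x * y)‖ ^ 2 ∂μ)
    {f : G → ℂ} (hf : C.Hol f) {x : G} (hx : x ∈ K) :
    ‖f x‖ ^ 2 ≤ c * ∫ y in K * V, ‖f y‖ ^ 2 ∂μ := by
  refine (hs f hf x).trans ?_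
  refine mul_le_mul_of_nonneg_left ?_ hc.le
  have hVm := hVc.isClosed.measurableSet
  have hKV : IsCompact (K * V) := hK.mul hVc
  have e1 : ∫ y in V, ‖f (x * y)‖ ^ 2 ∂μ
      = ∫ y, V.indicator (fun z => ‖f (x * z)‖ ^ 2) (x⁻¹ * y) ∂μ := by
    rw [integral_mul_left_eq_self (fun y => V.indicator (fun z => ‖f (x * z)‖ ^ 2) y) x⁻¹,
      integral_indicator hVm]
  rw [e1, ← integral_indicator hKV.isClosed.measurableSet]
  refine integral_mono_of_nonneg (Eventually.of_forall fun y => ?_) ?_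
    (Eventually.of_forall fun y => ?_)
  · exact indicator_nonneg (fun _ _ => by positivity) _
  · rw [integrable_indicator_iff hKV.isClosed.measurableSet]
    exact ((C.hol_continuous hf).norm.pow 2).continuousOn.integrableOn_compact hKV
  · show V.indicator (fun z => ‖f (x * z)‖ ^ 2) (x⁻¹ * y)
      ≤ (K * V).indicator (fun y => ‖f y‖ ^ 2) y
    by_cases hy : x⁻¹ * y ∈ V
    · have hy2 : y ∈ K * V := ⟨x, hx, x⁻¹ * y, hy, by simp⟩
      rw [indicator_of_mem hy, indicator_of_mem hy2]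
      simp
    · rw [indicator_of_notMem hy]
      exact indicator_nonneg (fun _ _ => by positivity) _

/-- Weyl lemma for `∂bar`. Proof: `h_k = Mol μ (ρ_k) u` is smooth (`mol_sm`). For a smooth `τ` with
compact support, `∫ h_k (Xb_m τ - conj(c_m) τ) = ∫ u (Xb_m τ' - conj(c_m) τ') = 0`,
`τ' x = ∫ ρ_k(y) τ(y x) dμ(y)` (smooth, compact support; `mol_transpose`, left invariance of `Xb_m`).
Integrating by parts (`IsPart`), `∫ (Xb_m h_k) τ = 0` for all `τ`, so `Xb_m h_k = 0` (continuous),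
and `h_k` is holomorphic (`hol_of_Xb`). On every compact set `h_k → u` in `L²` (`mol_tendsto` for `u`
times the indicator of a bigger compact set), so by the submean value inequality `smv` the
holomorphic `h_k` converge uniformly on compact sets to a function `h`, holomorphic by `hol_limit'`,
and `u = h` almost everywhere. -/
theorem weyl {c : Fin n → ℂ} (hc : C.IsPart μ c) {u : G → ℂ} (hm : AEStronglyMeasurable u μ)
    (hu : ∀ K : Set G, IsCompact K → IntegrableOn (fun x => ‖u x‖ ^ 2) K μ)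
    (h : ∀ τ : G → ℂ, C.Sm τ → HasCompactSupport τ → ∀ m : Fin n,
      ∫ x, u x * (C.Xb m τ x - (starRingEnd ℂ) (c m) * τ x) ∂μ = 0) :
    ∃ f : G → ℂ, C.Hol f ∧ u =ᵐ[μ] f := by
  have hloc := ME6_locInt hm hu
  obtain ⟨ρ, hsm, hnn, hint, ⟨L, hL, hLs⟩, hsmall⟩ := C.exists_mollifiers μ
  have hcs : ∀ k, HasCompactSupport (ρ k) :=
    fun k => hL.of_isClosed_subset isClosed_closure (hLs k)
  have hH : ∀ k, C.Hol (Mol μ (ρ k) u) := fun k => C.ME6_hol hc hloc h (hsm k) (hcs k)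
  have hHc : ∀ k, Continuous (Mol μ (ρ k) u) := fun k => C.hol_continuous (hH k)
  have hconv : ∀ K : Set G, IsCompact K →
      Tendsto (fun k => ∫ x in K, ‖Mol μ (ρ k) u x - u x‖ ^ 2 ∂μ) atTop (𝓝 0) :=
    fun K hK => C.ME6_conv hsm hnn hint hL hLs hsmall hm hu hK
  obtain ⟨V, hVc, hV⟩ := exists_compact_mem_nhds (1 : G)
  obtain ⟨b, hb, hs⟩ := C.smv μ hV hVc
  have hcau : ∀ K : Set G, IsCompact K →
      UniformCauchySeqOn (fun k => Mol μ (ρ k) u) atTop K := by
    intro K hK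
    rw [Metric.uniformCauchySeqOn_iff]
    intro ε hε
    have hKV : IsCompact (K * V) := hK.mul hVc
    have h1 : ∀ᶠ k in atTop, ∫ x in K * V, ‖Mol μ (ρ k) u x - u x‖ ^ 2 ∂μ
        < ε ^ 2 / (8 * b) := (hconv _ hKV).eventually_lt_const (by positivity)
    obtain ⟨N, hN⟩ := eventually_atTop.1 h1
    refine ⟨N, fun j hj k hk x hx => ?_⟩
    have h2 := C.ME6_smv hK hVc hb hs (f := fun x => Mol μ (ρ j) u x - Mol μ (ρ k) u x)
      (fun x => (hH j x).sub (hH k x)) hx
    have ij := ME6_intsub hm hKV (hu _ hKV) (hHc j)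
    have ik := ME6_intsub hm hKV (hu _ hKV) (hHc k)
    have h3 : ∫ y in K * V, ‖Mol μ (ρ j) u y - Mol μ (ρ k) u y‖ ^ 2 ∂μ
        ≤ 2 * ∫ y in K * V, ‖Mol μ (ρ j) u y - u y‖ ^ 2 ∂μ
          + 2 * ∫ y in K * V, ‖Mol μ (ρ k) u y - u y‖ ^ 2 ∂μ := by
      rw [← integral_const_mul, ← integral_const_mul, ← integral_add (ij.const_mul 2)
        (ik.const_mul 2)]
      refine integral_mono_of_nonneg (Eventually.of_forall fun y => by positivity)
        ((ij.const_mul 2).add (ik.const_mul 2)) (Eventually.of_forall fun y => ?_)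
      have := ME6_sq (Mol μ (ρ j) u y - u y) (Mol μ (ρ k) u y - u y)
      rwa [sub_sub_sub_cancel_right] at this
    have h4 := hN j hj
    have h5 := hN k hk
    have h6 : ‖Mol μ (ρ j) u x - Mol μ (ρ k) u x‖ ^ 2 < ε ^ 2 := by
      calc ‖Mol μ (ρ j) u x - Mol μ (ρ k) u x‖ ^ 2
          ≤ b * ∫ y in K * V, ‖Mol μ (ρ j) u y - Mol μ (ρ k) u y‖ ^ 2 ∂μ := h2
        _ ≤ b * (2 * (ε ^ 2 / (8 * b)) + 2 * (ε ^ 2 / (8 * b))) := by
            refine mul_le_mul_of_nonneg_left ?_ hb.le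
            linarith
        _ = ε ^ 2 / 2 := by field_simp; ring
        _ < ε ^ 2 := by have := sq_pos_of_pos hε; linarith
    rw [dist_eq_norm]
    exact lt_of_pow_lt_pow_left₀ 2 hε.le h6
  have hpt : ∀ x, ∃ z, Tendsto (fun k => Mol μ (ρ k) u x) atTop (𝓝 z) := fun x =>
    cauchySeq_tendsto_of_complete ((hcau {x} isCompact_singleton).cauchySeq rfl)
  choose f hf using hpt
  have hunif : ∀ K : Set G, IsCompact K →
      TendstoUniformlyOn (fun k => Mol μ (ρ k) u) f atTop K := fun K hK =>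
    (hcau K hK).tendstoUniformlyOn_of_tendsto fun x _ => hf x
  have hfH : C.Hol f := C.hol_limit' hH hunif
  have hfc := C.hol_continuous hfH
  refine ⟨f, hfH, ?_⟩
  have hzero : ∀ K : Set G, IsCompact K → ∫ x in K, ‖f x - u x‖ ^ 2 ∂μ = 0 := by
    intro K hK
    have hI := ME6_intsub hm hK (hu _ hK) hfc
    have hge : 0 ≤ ∫ x in K, ‖f x - u x‖ ^ 2 ∂μ := integral_nonneg fun x => by positivity
    by_contra hne
    have hpos : 0 < ∫ x in K, ‖f x - u x‖ ^ 2 ∂μ := lt_of_le_of_ne hge (Ne.symm hne)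
    set I := ∫ x in K, ‖f x - u x‖ ^ 2 ∂μ with hIdef
    have hM0 : 0 ≤ μ.real K := measureReal_nonneg
    set ε := Real.sqrt (I / (4 * (μ.real K + 1))) with hε
    have hε2 : ε ^ 2 = I / (4 * (μ.real K + 1)) := Real.sq_sqrt (by positivity)
    have hεpos : 0 < ε := Real.sqrt_pos.2 (by positivity)
    have h1 := Metric.tendstoUniformlyOn_iff.1 (hunif K hK) ε hεpos
    have h2 : ∀ᶠ k in atTop, ∫ x in K, ‖Mol μ (ρ k) u x - u x‖ ^ 2 ∂μ < I / 4 :=
      (hconv K hK).eventually_lt_const (by positivity)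
    obtain ⟨k, hk1, hk2⟩ := (h1.and h2).exists
    have ik := ME6_intsub hm hK (hu _ hK) (hHc k)
    have iconst : IntegrableOn (fun _ : G => ε ^ 2) K μ := integrableOn_const hK.measure_ne_top
    have h3 : I ≤ 2 * (ε ^ 2 * μ.real K) + 2 * ∫ x in K, ‖Mol μ (ρ k) u x - u x‖ ^ 2 ∂μ := by
      have e1 : ε ^ 2 * μ.real K = ∫ x in K, ε ^ 2 ∂μ := by
        rw [setIntegral_const, smul_eq_mul, mul_comm]
      rw [e1, ← integral_const_mul, ← integral_const_mul,
        ← integral_add (iconst.const_mul 2) (ik.const_mul 2)]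
      refine setIntegral_mono_on hI ((iconst.const_mul 2).add (ik.const_mul 2))
        hK.isClosed.measurableSet fun x hx => ?_
      have h4 := ME6_sq (f x - Mol μ (ρ k) u x) (u x - Mol μ (ρ k) u x)
      rw [sub_sub_sub_cancel_right] at h4
      have h5 : ‖f x - Mol μ (ρ k) u x‖ ^ 2 ≤ ε ^ 2 := by
        have := hk1 x hx
        rw [dist_eq_norm] at this
        exact pow_le_pow_left₀ (norm_nonneg _) this.le 2
      have h6 : ‖u x - Mol μ (ρ k) u x‖ = ‖Mol μ (ρ k) u x - u x‖ := norm_sub_rev _ _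
      rw [h6] at h4
      show ‖f x - u x‖ ^ 2 ≤ 2 * ε ^ 2 + 2 * ‖Mol μ (ρ k) u x - u x‖ ^ 2
      linarith
    have h7 : ε ^ 2 * μ.real K ≤ I / 4 := by
      rw [hε2, div_mul_eq_mul_div, div_le_div_iff₀ (by positivity) (by norm_num)]
      nlinarith
    linarith
  have hae : ∀ i : ℕ, ∀ᵐ x ∂μ.restrict (compactCovering G i), u x = f x := by
    intro i
    have hK := isCompact_compactCovering G i
    have hI := ME6_intsub hm hK (hu _ hK) hfc
    have h1 := (integral_eq_zero_iff_of_nonneg (fun x => by positivity) hI).1 (hzero _ hK)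
    filter_upwards [h1] with x hx
    have h2 : ‖f x - u x‖ ^ 2 = 0 := hx
    have h3 : ‖f x - u x‖ = 0 := by
      simpa using h2
    exact (sub_eq_zero.1 (norm_eq_zero.1 h3)).symm
  have h8 := (ae_restrict_iUnion_iff (μ := μ) (compactCovering G) (fun x => u x = f x)).2 hae
  rw [iUnion_compactCovering, Measure.restrict_univ] at h8
  exact h8

end CLG

end HR
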