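import Pool.Agent.W_06f097_h43.HB5
import Pool.Agent.W_06f097_h43.HB6
import Pool.Agent.W_06f097_h43.ME6

/-! MP_06f097_an blueprint, block HB: the estimate of Hoermander and Demailly for minimal solutions
of the `∂bar` equation on functions (a finite family of functions at once). -/

open scoped Topology ContDiff
open MeasureTheory Set Filter Metric

noncomputable section

namespace HR

/-- Cauchy-Schwarz for a function dominated by a geometric mean -/
private theorem HB7_cs {α : Type*} [MeasurableSpace α] {μ : Measure α} {F : α → ℂ} {A B : α → ℝ}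
    (hF : AEStronglyMeasurable F μ) (hA : Integrable A μ) (hB : Integrable B μ)
    (hA0 : ∀ x, 0 ≤ A x) (hB0 : ∀ x, 0 ≤ B x) (h : ∀ x, ‖F x‖ ^ 2 ≤ A x * B x) :
    Integrable F μ ∧ ‖∫ x, F x ∂μ‖ ^ 2 ≤ (∫ x, A x ∂μ) * ∫ x, B x ∂μ := by
  have key : ∀ t : ℝ, 0 < t → ∀ x, ‖F x‖ ≤ (t * A x + t⁻¹ * B x) / 2 := by
    intro t ht x
    have h1 : 0 ≤ t * A x + t⁻¹ * B x :=
      add_nonneg (mul_nonneg ht.le (hA0 x)) (mul_nonneg (inv_nonneg.2 ht.le) (hB0 x))
    refine abs_le_of_sq_le_sq' ?_ (by positivity) |>.2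
    have h2 : t * t⁻¹ = 1 := mul_inv_cancel₀ ht.ne'
    have h3 : (t * A x) * (t⁻¹ * B x) = A x * B x := by
      calc (t * A x) * (t⁻¹ * B x) = (t * t⁻¹) * (A x * B x) := by ring
        _ = _ := by rw [h2, one_mul]
    nlinarith [h x, sq_nonneg (t * A x - t⁻¹ * B x)]
  have hI : Integrable F μ := by
    refine Integrable.mono' (((hA.const_mul 1).add (hB.const_mul 1⁻¹)).div_const 2) hF
      (Eventually.of_forall fun x => ?_)
    exact key 1 one_pos x
  refine ⟨hI, ?_⟩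
  have ha : 0 ≤ ∫ x, A x ∂μ := integral_nonneg hA0
  have hb : 0 ≤ ∫ x, B x ∂μ := integral_nonneg hB0
  have k2 : ∀ t : ℝ, 0 < t → ‖∫ x, F x ∂μ‖ ≤ (t * (∫ x, A x ∂μ) + t⁻¹ * ∫ x, B x ∂μ) / 2 := by
    intro t ht
    refine (norm_integral_le_integral_norm _).trans ?_
    have e : (t * (∫ x, A x ∂μ) + t⁻¹ * ∫ x, B x ∂μ) / 2 =
        ∫ x, (t * A x + t⁻¹ * B x) / 2 ∂μ := by
      rw [integral_div, integral_add (hA.const_mul t) (hB.const_mul t⁻¹), integral_const_mul,
        integral_const_mul]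
    rw [e]
    exact integral_mono hI.norm (((hA.const_mul t).add (hB.const_mul t⁻¹)).div_const 2) (key t ht)
  set N := ‖∫ x, F x ∂μ‖
  set a := ∫ x, A x ∂μ
  set b := ∫ x, B x ∂μ
  by_contra hcon
  push Not at hcon
  have hN0 : 0 ≤ N := norm_nonneg _
  have hN : 0 < N := by
    rcases hN0.lt_or_eq with h1 | h1
    · exact h1
    · exfalso
      rw [← h1] at hcon
      nlinarith [mul_nonneg ha hb]
  rcases ha.lt_or_eq with h1 | h1
  · have h2 := k2 (N / a) (div_pos hN h1)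
    have h3 : N / a * a = N := div_mul_cancel₀ _ h1.ne'
    have h4 : (N / a)⁻¹ * b = a * b / N := by rw [inv_div]; ring
    rw [h3, h4] at h2
    have h5 : N ≤ a * b / N := by linarith
    rw [le_div_iff₀ hN] at h5
    nlinarith
  · have h2 := k2 ((b + 1) / N) (div_pos (by linarith) hN)
    rw [← h1, mul_zero, zero_add, inv_div] at h2
    have h3 : N / (b + 1) * b / 2 < N := by
      rw [div_mul_eq_mul_div, div_div, div_lt_iff₀ (by linarith)]
      nlinarith
    linarith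

namespace CLG

variable {n : ℕ} {G : Type*} [Group G] [TopologicalSpace G] [IsTopologicalGroup G] [T2Space G]
  [LocallyCompactSpace G] [SecondCountableTopology G] [MeasurableSpace G] [BorelSpace G]
  (C : CLG n G) (μ : Measure G) [μ.IsHaarMeasure]

private theorem HB7_Lv_zero (φ : G → ℝ) (x : G) : C.Lv φ x 0 = 0 := by
  simp [CLG.Lv]

private theorem HB7_supp_X {f : G → ℂ} (hf : HasCompactSupport f) (j : Fin n) :
    HasCompactSupport (C.X j f) := by
  refine HasCompactSupport.intro hf fun x hx => ?_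
  have h2 : f =ᶠ[𝓝 x] fun _ => 0 := notMem_tsupport_iff_eventuallyEq.1 hx
  rw [C.X_congr h2, C.X_const]

private theorem HB7_supp_dvg {c : Fin n → ℂ} {φ : G → ℝ} {γ : Fin n → G → ℂ}
    (hγ : ∀ j, HasCompactSupport (γ j)) : HasCompactSupport (C.dvg c φ γ) := by
  classical
  have h1 : IsCompact (⋃ j, tsupport (γ j)) := isCompact_iUnion fun j => hγ j
  refine HasCompactSupport.intro h1 fun x hx => ?_
  simp only [mem_iUnion, not_exists] at hx
  simp only [CLG.dvg]
  refine Finset.sum_eq_zero fun j _ => ?_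
  have h2 : γ j =ᶠ[𝓝 x] fun _ => 0 := notMem_tsupport_iff_eventuallyEq.1 (hx j)
  simp only [CLG.dv]
  rw [C.X_congr h2, C.X_const, h2.self_of_nhds]
  simp

private theorem HB7_sm_dvg {c : Fin n → ℂ} {φ : G → ℝ} (hφ : C.Sm φ) {γ : Fin n → G → ℂ}
    (hγ : ∀ j, C.Sm (γ j)) : C.Sm (C.dvg c φ γ) := by
  exact C.sm_sum Finset.univ fun j _ => C.sm_dv hφ (hγ j) j

/-- From `exists_field` (for every `γ_i`) and `weak_basic`:
`|Σ_i ∫ Σ_j Xb_j v_i conj(γ_ij) e| = |Σ_i ∫ Σ_j Xb_j v_i conj(β_ij) e|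
≤ ∫ (ρ Σ_i Lv φ(β_i))^(1/2) e ≤ (∫ ρ e)^(1/2) (Σ_i ∫ |dvg γ_i|² e)^(1/2)`. By `adj` the left
side is `|Σ_i ∫ v_i conj(dvg γ_i) e|`. (The hypothesis `hpt` with `b_i' = 0` for `i' ≠ i` gives the
condition of `exists_field` for each `v_i`.) -/
theorem dual_ineq {c : Fin n → ℂ} {cR : En n →L[ℝ] ℝ} (hcR : C.IsPartR μ cR) (hcc : c = cOf cR)
    {s φ : G → ℝ} (hs : C.Kah s) (hφ : C.Psh φ)
    {N : ℕ} {v : Fin N → G → ℂ} (hv : ∀ i, C.Sm (v i))
    (hvi : ∀ i, Integrable (fun x => ‖v i x‖ ^ 2 * Real.exp (-φ x)) μ)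
    {ρ : G → ℝ} (hρm : Measurable ρ) (hρ0 : ∀ x, 0 ≤ ρ x)
    (hρ : Integrable (fun x => ρ x * Real.exp (-φ x)) μ)
    (hpt : ∀ x (b : Fin N → En n), ‖∑ i, ∑ j, C.Xb j (v i) x * (starRingEnd ℂ) (b i j)‖ ^ 2 ≤
      ρ x * ∑ i, C.Lv φ x (b i))
    {γ : Fin N → Fin n → G → ℂ} (hγ : ∀ i j, C.Sm (γ i j))
    (hγc : ∀ i j, HasCompactSupport (γ i j)) :
    ‖∑ i, ∫ x, v i x * (starRingEnd ℂ) (C.dvg c φ (γ i) x) * (Real.exp (-φ x) : ℂ) ∂μ‖ ^ 2 ≤
      (∫ x, ρ x * Real.exp (-φ x) ∂μ) *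
        ∑ i, ∫ x, ‖C.dvg c φ (γ i) x‖ ^ 2 * Real.exp (-φ x) ∂μ := by
  classical
  subst hcc
  have hc : C.IsPart μ (cOf cR) := C.isPart_of_partR hcR
  have hφs : C.Sm φ := C.sm_ofReal.1 hφ.1
  obtain ⟨cc, hcc⟩ := C.exists_struct
  -- the pointwise condition for a single function
  have hpt1 : ∀ i x (b : En n), ‖∑ j, C.Xb j (v i) x * (starRingEnd ℂ) (b j)‖ ^ 2 ≤
      ρ x * C.Lv φ x b := by
    intro i x b
    have h1 := hpt x (fun i' => if i' = i then b else 0)
    have e1 : ∑ i', ∑ j, C.Xb j (v i') x *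
        (starRingEnd ℂ) ((fun i' => if i' = i then b else (0 : En n)) i' j) =
        ∑ j, C.Xb j (v i) x * (starRingEnd ℂ) (b j) := by
      rw [Finset.sum_eq_single i]
      · simp
      · intro i' _ hi'
        simp [hi']
      · intro h; exact absurd (Finset.mem_univ i) h
    have e2 : ∑ i', C.Lv φ x ((fun i' => if i' = i then b else (0 : En n)) i') =
        C.Lv φ x b := by
      rw [Finset.sum_eq_single i]
      · simp
      · intro i' _ hi'
        simp [hi', HB7_Lv_zero]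
      · intro h; exact absurd (Finset.mem_univ i) h
    rw [e1, e2] at h1
    exact h1
  choose β hβm hβi hwd hwc hpair using fun i =>
    C.exists_field μ hc hcc hs hφ (hγ i) (hγc i)
  have hwb := fun i => C.weak_basic μ hcR hcc hs hφ (HB7_sm_dvg C hφs (hγ i))
    (HB7_supp_dvg C (hγc i)) (hβm i) (hβi i) (hwd i) (hwc i)
  -- the left side
  have hsuppi : ∀ i j, Integrable (fun x => C.Xb j (v i) x * (starRingEnd ℂ) (γ i j x) *
      (Real.exp (-φ x) : ℂ)) μ := by
    intro i j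
    have h1 : Continuous (fun x => C.Xb j (v i) x * (starRingEnd ℂ) (γ i j x) *
        (Real.exp (-φ x) : ℂ)) := by
      have a1 := C.sm_continuous (C.sm_Xb (hv i) j)
      have a2 := C.sm_continuous (C.sm_conj (hγ i j))
      have a3 := C.sm_continuous hφs
      have a4 : Continuous fun x => ((Real.exp (-φ x) : ℝ) : ℂ) := by fun_prop
      exact (a1.mul a2).mul a4
    refine h1.integrable_of_hasCompactSupport ?_
    refine HasCompactSupport.intro (hγc i j) fun x hx => ?_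
    rw [image_eq_zero_of_notMem_tsupport hx]
    simp
  have hsuppi2 : ∀ i j, Integrable (fun x => v i x * (starRingEnd ℂ) (C.dv (cOf cR) φ j (γ i j) x) *
      (Real.exp (-φ x) : ℂ)) μ := by
    intro i j
    have h1 : Continuous (fun x => v i x * (starRingEnd ℂ) (C.dv (cOf cR) φ j (γ i j) x) *
        (Real.exp (-φ x) : ℂ)) := by
      have a1 := C.sm_continuous (hv i)
      have a2 := C.sm_continuous (C.sm_conj (C.sm_dv (c := cOf cR) hφs (hγ i j) j))
      have a3 := C.sm_continuous hφs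
      have a4 : Continuous fun x => ((Real.exp (-φ x) : ℝ) : ℂ) := by fun_prop
      exact (a1.mul a2).mul a4
    refine h1.integrable_of_hasCompactSupport ?_
    refine HasCompactSupport.intro (hγc i j) fun x hx => ?_
    have h2 : γ i j =ᶠ[𝓝 x] fun _ => 0 := notMem_tsupport_iff_eventuallyEq.1 hx
    simp only [CLG.dv]
    rw [C.X_congr h2, C.X_const, h2.self_of_nhds]
    simp
  have hleft : ∀ i, ∫ x, v i x * (starRingEnd ℂ) (C.dvg (cOf cR) φ (γ i) x) *
      (Real.exp (-φ x) : ℂ) ∂μ =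
      - ∫ x, (∑ j, C.Xb j (v i) x * (starRingEnd ℂ) (β i j x)) * (Real.exp (-φ x) : ℂ) ∂μ := by
    intro i
    rw [← hpair i (v i) ρ (hv i) (hvi i) hρm hρ0 hρ (hpt1 i)]
    have e1 : ∀ x, v i x * (starRingEnd ℂ) (C.dvg (cOf cR) φ (γ i) x) * (Real.exp (-φ x) : ℂ) =
        ∑ j, v i x * (starRingEnd ℂ) (C.dv (cOf cR) φ j (γ i j) x) * (Real.exp (-φ x) : ℂ) := by
      intro x
      rw [CLG.dvg, map_sum, Finset.mul_sum, Finset.sum_mul]
    have e2 : ∀ x, (∑ j, C.Xb j (v i) x * (starRingEnd ℂ) (γ i j x)) * (Real.exp (-φ x) : ℂ) =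
        ∑ j, C.Xb j (v i) x * (starRingEnd ℂ) (γ i j x) * (Real.exp (-φ x) : ℂ) := by
      intro x
      rw [Finset.sum_mul]
    simp only [e1, e2]
    rw [integral_finsetSum _ fun j _ => hsuppi2 i j, integral_finsetSum _ fun j _ => hsuppi i j,
      ← Finset.sum_neg_distrib]
    refine Finset.sum_congr rfl fun j _ => ?_
    rw [C.adj μ hc hφs (hv i) (hγ i j) (Or.inr (hγc i j)) j, neg_neg]
  -- integrability of the right side
  have hLm : ∀ i, Measurable fun x => C.Lv φ x (fun j => β i j x) := by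
    intro i
    simp only [CLG.Lv]
    refine Complex.measurable_re.comp ?_
    refine Finset.measurable_sum _ fun j _ => Finset.measurable_sum _ fun k _ => ?_
    refine ((hβm i j).mul ?_).mul ?_
    · exact Complex.continuous_conj.measurable.comp (hβm i k)
    · exact (C.sm_continuous (C.sm_X (C.sm_Xb hφ.1 k) j)).measurable
  have hFm : ∀ i, AEStronglyMeasurable (fun x => (∑ j, C.Xb j (v i) x *
      (starRingEnd ℂ) (β i j x)) * (Real.exp (-φ x) : ℂ)) μ := by
    intro i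
    refine (Measurable.mul ?_ ?_).aestronglyMeasurable
    · refine Finset.measurable_sum _ fun j _ => ?_
      refine Measurable.mul (C.sm_continuous (C.sm_Xb (hv i) j)).measurable ?_
      exact Complex.continuous_conj.measurable.comp (hβm i j)
    · have a3 := C.sm_continuous hφs
      have a4 : Continuous fun x => ((Real.exp (-φ x) : ℝ) : ℂ) := by fun_prop
      exact a4.measurable
  have hA0 : ∀ x, 0 ≤ ρ x * Real.exp (-φ x) := fun x => mul_nonneg (hρ0 x) (Real.exp_pos _).le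
  have hFi : ∀ i, Integrable (fun x => (∑ j, C.Xb j (v i) x *
      (starRingEnd ℂ) (β i j x)) * (Real.exp (-φ x) : ℂ)) μ := by
    intro i
    refine (HB7_cs (hFm i) hρ (hwb i).1 hA0 (fun x => mul_nonneg (hφ.2 x _) (Real.exp_pos _).le)
      fun x => ?_).1
    rw [norm_mul, mul_pow, Complex.norm_real, Real.norm_eq_abs, abs_of_pos (Real.exp_pos _)]
    have h1 := hpt1 i x (fun j => β i j x)
    calc _ ≤ (ρ x * C.Lv φ x fun j => β i j x) * Real.exp (-φ x) ^ 2 := by
          exact mul_le_mul_of_nonneg_right h1 (sq_nonneg _)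
      _ = _ := by ring
  have hmain := HB7_cs (μ := μ) (F := fun x => (∑ i, ∑ j, C.Xb j (v i) x *
      (starRingEnd ℂ) (β i j x)) * (Real.exp (-φ x) : ℂ))
      (A := fun x => ρ x * Real.exp (-φ x))
      (B := fun x => ∑ i, C.Lv φ x (fun j => β i j x) * Real.exp (-φ x)) ?_ hρ
      (integrable_finset_sum _ fun i _ => (hwb i).1) hA0 ?_ ?_
  · have hmain2 := hmain.2
    have e3 : ∑ i, ∫ x, v i x * (starRingEnd ℂ) (C.dvg (cOf cR) φ (γ i) x) *
        (Real.exp (-φ x) : ℂ) ∂μ = - ∫ x, (∑ i, ∑ j, C.Xb j (v i) x *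
      (starRingEnd ℂ) (β i j x)) * (Real.exp (-φ x) : ℂ) ∂μ := by
      simp only [hleft]
      rw [Finset.sum_neg_distrib, ← integral_finsetSum _ fun i _ => hFi i]
      congr 2
      funext x
      rw [Finset.sum_mul]
    rw [e3, norm_neg]
    refine hmain2.trans ?_
    refine mul_le_mul_of_nonneg_left ?_ (integral_nonneg hA0)
    rw [integral_finsetSum _ fun i _ => (hwb i).1]
    exact Finset.sum_le_sum fun i _ => (hwb i).2
  · have e4 : (fun x => (∑ i, ∑ j, C.Xb j (v i) x *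
      (starRingEnd ℂ) (β i j x)) * (Real.exp (-φ x) : ℂ)) = fun x => ∑ i, (∑ j, C.Xb j (v i) x *
      (starRingEnd ℂ) (β i j x)) * (Real.exp (-φ x) : ℂ) := by
      funext x
      rw [Finset.sum_mul]
    rw [e4]
    exact Finset.aestronglyMeasurable_fun_sum _ fun i _ => hFm i
  · exact fun x => Finset.sum_nonneg fun i _ => mul_nonneg (hφ.2 x _) (Real.exp_pos _).le
  · intro x
    rw [norm_mul, mul_pow, Complex.norm_real, Real.norm_eq_abs, abs_of_pos (Real.exp_pos _)]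
    have h1 := hpt x (fun i j => β i j x)
    rw [← Finset.sum_mul]
    calc _ ≤ (ρ x * ∑ i, C.Lv φ x fun j => β i j x) * Real.exp (-φ x) ^ 2 := by
          exact mul_le_mul_of_nonneg_right h1 (sq_nonneg _)
      _ = _ := by ring

/-- the divergence is additive -/
private theorem HB7_dvg_add {c : Fin n → ℂ} {φ : G → ℝ} {γ δ : Fin n → G → ℂ}
    (hγ : ∀ j, C.Sm (γ j)) (hδ : ∀ j, C.Sm (δ j)) (x : G) :
    C.dvg c φ (fun j y => γ j y + δ j y) x = C.dvg c φ γ x + C.dvg c φ δ x := by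
  simp only [CLG.dvg, CLG.dv]
  rw [← Finset.sum_add_distrib]
  refine Finset.sum_congr rfl fun j _ => ?_
  rw [C.X_add (hγ j) (hδ j)]
  ring

private theorem HB7_dvg_smul {c : Fin n → ℂ} {φ : G → ℝ} {γ : Fin n → G → ℂ}
    (hγ : ∀ j, C.Sm (γ j)) (a : ℂ) (x : G) :
    C.dvg c φ (fun j y => a * γ j y) x = a * C.dvg c φ γ x := by
  simp only [CLG.dvg, CLG.dv]
  rw [Finset.mul_sum]
  refine Finset.sum_congr rfl fun j _ => ?_
  rw [C.X_mul (C.sm_const a) (hγ j), C.X_const]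
  ring

/-- the divergence of a field with one component -/
private theorem HB7_dvg_single {c : Fin n → ℂ} {φ : G → ℝ} (hφ : C.Sm φ) {τ : G → ℂ}
    (hτ : C.Sm τ) (m : Fin n) (x : G) :
    (starRingEnd ℂ) (C.dvg c φ (fun j y => if j = m then (starRingEnd ℂ) (τ y) *
      ((Real.exp (φ y) : ℝ) : ℂ) else 0) x) * ((Real.exp (-φ x) : ℝ) : ℂ) =
      C.Xb m τ x - (starRingEnd ℂ) (c m) * τ x := by
  classical
  have hX : C.X m (fun y => (starRingEnd ℂ) (τ y) * ((Real.exp (φ y) : ℝ) : ℂ)) x =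
      (starRingEnd ℂ) (C.Xb m τ x) * ((Real.exp (φ x) : ℝ) : ℂ) +
      (starRingEnd ℂ) (τ x) * (((Real.exp (φ x) : ℝ) : ℂ) * C.X m (fun y => (φ y : ℂ)) x) := by
    rw [C.X_mul (C.sm_conj hτ) (C.sm_ofReal.2 (C.sm_exp hφ)), C.X_conj,
      C.X_comp hφ (u := Real.exp) Real.differentiableAt_exp, Real.deriv_exp]
  have h1 : C.dvg c φ (fun j y => if j = m then (starRingEnd ℂ) (τ y) *
      ((Real.exp (φ y) : ℝ) : ℂ) else 0) x =
      ((starRingEnd ℂ) (C.Xb m τ x) - c m * (starRingEnd ℂ) (τ x)) *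
        ((Real.exp (φ x) : ℝ) : ℂ) := by
    rw [CLG.dvg, Finset.sum_eq_single m]
    · simp only [CLG.dv, if_true]
      rw [hX]
      ring
    · intro j _ hj
      simp only [CLG.dv, if_neg hj]
      rw [C.X_const]
      ring
    · intro h; exact absurd (Finset.mem_univ m) h
  rw [h1, map_mul, map_sub, map_mul, Complex.conj_conj, Complex.conj_conj, Complex.conj_ofReal,
    mul_assoc, ← Complex.ofReal_mul, ← Real.exp_add, add_neg_cancel, Real.exp_zero,
    Complex.ofReal_one, mul_one]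

/-- The divergences of compactly supported smooth fields are dense in the orthogonal complement of
the holomorphic functions in `L²(exp(-φ) μ)`: the orthogonal complement of the divergences consists
of weakly holomorphic functions (take `γ` with one component `conj(τ) exp φ`; then
`conj(dv γ) exp(-φ) = Xb_m τ - conj(c_m) τ`), holomorphic by `weyl`. -/
theorem dense_div {c : Fin n → ℂ} (hc : C.IsPart μ c) {φ : G → ℝ} (hφ : C.Sm φ) {v : G → ℂ}
    (hv : AEStronglyMeasurable v μ) (hvi : Integrable (fun x => ‖v x‖ ^ 2 * Real.exp (-φ x)) μ)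
    (horth : ∀ h : G → ℂ, C.Hol h → Integrable (fun x => ‖h x‖ ^ 2 * Real.exp (-φ x)) μ →
      ∫ x, v x * (starRingEnd ℂ) (h x) * (Real.exp (-φ x) : ℂ) ∂μ = 0) :
    ∃ γ : ℕ → Fin n → G → ℂ, (∀ k j, C.Sm (γ k j)) ∧ (∀ k j, HasCompactSupport (γ k j)) ∧
      Tendsto (fun k => ∫ x, ‖v x - C.dvg c φ (γ k) x‖ ^ 2 * Real.exp (-φ x) ∂μ) atTop (𝓝 0) := by
  classical
  have hφc : Continuous φ := C.sm_continuous hφ
  set E : G → ℂ := fun x => ((Real.exp (-φ x / 2) : ℝ) : ℂ) with hE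
  have hEc : Continuous E := by fun_prop
  have hEn : ∀ x, ‖E x‖ ^ 2 = Real.exp (-φ x) := by
    intro x
    rw [hE]
    simp only [Complex.norm_real, Real.norm_eq_abs, sq_abs]
    rw [← Real.exp_nat_mul]
    congr 1
    push_cast
    ring
  have hEE : ∀ x, E x * E x = ((Real.exp (-φ x) : ℝ) : ℂ) := by
    intro x
    simp only [hE]
    rw [← Complex.ofReal_mul, ← Real.exp_add]
    congr 2
    ring
  have hEconj : ∀ x, (starRingEnd ℂ) (E x) = E x := fun x => Complex.conj_ofReal _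
  -- square integrable functions
  have hsq : ∀ f : G → ℂ, AEStronglyMeasurable f μ → Integrable (fun x => ‖f x‖ ^ 2) μ →
      MemLp f 2 μ := by
    intro f hf hfi
    exact (memLp_two_iff_integrable_sq_norm hf).2 hfi
  have hvL : MemLp (fun x => v x * E x) 2 μ := by
    refine hsq _ (hv.mul hEc.aestronglyMeasurable) (hvi.congr (Eventually.of_forall fun x => ?_))
    simp only [norm_mul, mul_pow, hEn]
  have hdc : ∀ γ : Fin n → G → ℂ, (∀ j, C.Sm (γ j)) → (∀ j, HasCompactSupport (γ j)) →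
      MemLp (fun x => C.dvg c φ γ x * E x) 2 μ := by
    intro γ h1 h2
    have h3 : Continuous fun x => C.dvg c φ γ x * E x :=
      (C.sm_continuous (HB7_sm_dvg C hφ h1)).mul hEc
    exact h3.memLp_of_hasCompactSupport ((HB7_supp_dvg C h2).mul_right)
  -- the subspace of the divergences
  let D : Submodule ℂ (Lp ℂ 2 μ) :=
    { carrier := {f | ∃ γ : Fin n → G → ℂ, (∀ j, C.Sm (γ j)) ∧ (∀ j, HasCompactSupport (γ j)) ∧
        f =ᵐ[μ] fun x => C.dvg c φ γ x * E x}
      add_mem' := by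
        rintro f g ⟨γ, h1, h2, h3⟩ ⟨δ, h4, h5, h6⟩
        refine ⟨fun j y => γ j y + δ j y, fun j => C.sm_add (h1 j) (h4 j),
          fun j => (h2 j).add (h5 j), ?_⟩
        filter_upwards [Lp.coeFn_add f g, h3, h6] with x e1 e2 e3
        rw [e1, Pi.add_apply, e2, e3, HB7_dvg_add C h1 h4]
        ring
      zero_mem' := by
        refine ⟨fun _ _ => 0, fun j => C.sm_const 0, fun j => HasCompactSupport.zero, ?_⟩
        filter_upwards [Lp.coeFn_zero ℂ 2 μ] with x e1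
        rw [e1]
        have e2 : C.dvg c φ (fun (_ : Fin n) (_ : G) => (0 : ℂ)) x = 0 := by
          simp only [CLG.dvg, CLG.dv]
          refine Finset.sum_eq_zero fun j _ => ?_
          rw [C.X_const]
          ring
        rw [e2]
        simp
      smul_mem' := by
        rintro a f ⟨γ, h1, h2, h3⟩
        refine ⟨fun j y => a * γ j y, fun j => C.sm_mul (C.sm_const a) (h1 j),
          fun j => (h2 j).mul_left, ?_⟩
        filter_upwards [Lp.coeFn_smul a f, h3] with x e1 e2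
        rw [e1, Pi.smul_apply, e2, HB7_dvg_smul C h1, smul_eq_mul]
        ring }
  have hDmem : ∀ (γ : Fin n → G → ℂ) (h1 : ∀ j, C.Sm (γ j)) (h2 : ∀ j, HasCompactSupport (γ j)),
      (hdc γ h1 h2).toLp ∈ D := fun γ h1 h2 => ⟨γ, h1, h2, MemLp.coeFn_toLp _⟩
  -- `v` is in the double orthogonal complement
  have hvD : hvL.toLp ∈ D.topologicalClosure := by
    rw [← Submodule.orthogonal_orthogonal_eq_closure, Submodule.mem_orthogonal]
    intro u hu
    rw [Submodule.mem_orthogonal] at hu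
    -- the function `w = u exp (φ / 2)`
    set w : G → ℂ := fun x => u x * ((Real.exp (φ x / 2) : ℝ) : ℂ) with hw
    have hwE : ∀ x, w x * E x = u x := by
      intro x
      simp only [hw, hE]
      rw [mul_assoc, ← Complex.ofReal_mul, ← Real.exp_add]
      have : φ x / 2 + -φ x / 2 = 0 := by ring
      rw [this, Real.exp_zero, Complex.ofReal_one, mul_one]
    have hwm : AEStronglyMeasurable w μ := by
      refine (Lp.aestronglyMeasurable u).mul ?_
      have : Continuous fun x => ((Real.exp (φ x / 2) : ℝ) : ℂ) := by fun_prop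
      exact this.aestronglyMeasurable
    have huI : Integrable (fun x => ‖u x‖ ^ 2) μ :=
      (memLp_two_iff_integrable_sq_norm (Lp.aestronglyMeasurable u)).1 (Lp.memLp u)
    have hwl : ∀ K : Set G, IsCompact K → IntegrableOn (fun x => ‖w x‖ ^ 2) K μ := by
      intro K hK
      have h1 : (fun x => ‖w x‖ ^ 2) = fun x => Real.exp (φ x) * ‖u x‖ ^ 2 := by
        funext x
        simp only [hw, norm_mul, mul_pow, Complex.norm_real, Real.norm_eq_abs, sq_abs]
        rw [← Real.exp_nat_mul]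
        have : ((2 : ℕ) : ℝ) * (φ x / 2) = φ x := by push_cast; ring
        rw [this]
        ring
      rw [h1]
      exact huI.integrableOn.continuousOn_mul (by fun_prop) hK
    have hweak : ∀ τ : G → ℂ, C.Sm τ → HasCompactSupport τ → ∀ m : Fin n,
        ∫ x, w x * (C.Xb m τ x - (starRingEnd ℂ) (c m) * τ x) ∂μ = 0 := by
      intro τ hτ hτc m
      set γ : Fin n → G → ℂ := fun j y => if j = m then (starRingEnd ℂ) (τ y) *
        ((Real.exp (φ y) : ℝ) : ℂ) else 0 with hγ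
      have g1 : ∀ j, C.Sm (γ j) := by
        intro j
        by_cases hj : j = m
        · have : γ j = fun y => (starRingEnd ℂ) (τ y) * ((Real.exp (φ y) : ℝ) : ℂ) := by
            funext y
            simp only [hγ, if_pos hj]
          rw [this]
          exact C.sm_mul (C.sm_conj hτ) (C.sm_ofReal.2 (C.sm_exp hφ))
        · have : γ j = fun y => 0 := by
            funext y
            simp only [hγ, if_neg hj]
          rw [this]
          exact C.sm_const 0
      have g2 : ∀ j, HasCompactSupport (γ j) := by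
        intro j
        refine HasCompactSupport.intro hτc fun x hx => ?_
        simp only [hγ]
        rw [image_eq_zero_of_notMem_tsupport hx]
        simp
      have h7 := hu _ (hDmem γ g1 g2)
      rw [L2.inner_def] at h7
      rw [← h7]
      refine integral_congr_ae ?_
      filter_upwards [(hdc γ g1 g2).coeFn_toLp] with x hx
      rw [hx, RCLike.inner_apply, ← HB7_dvg_single C hφ hτ m x, ← hwE x, map_mul, hEconj, ← hEE]
      ring
    obtain ⟨h, hh, hwh⟩ := C.weyl μ hc hwm hwl hweak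
    have h5 : Integrable (fun x => ‖h x‖ ^ 2 * Real.exp (-φ x)) μ := by
      refine huI.congr ?_
      filter_upwards [hwh] with x hx
      rw [← hx, ← hEn, ← mul_pow, ← norm_mul, hwE]
    have h6 := horth h hh h5
    rw [L2.inner_def]
    rw [← h6]
    refine integral_congr_ae ?_
    filter_upwards [hwh, hvL.coeFn_toLp] with x hx hx2
    rw [hx2, ← hx, RCLike.inner_apply, ← hwE x, map_mul, hEconj, ← hEE]
    ring
  rw [← SetLike.mem_coe, Submodule.topologicalClosure_coe, mem_closure_iff_seq_limit] at hvD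
  obtain ⟨f, hf, hlim⟩ := hvD
  choose γ h1 h2 h3 using hf
  refine ⟨γ, h1, h2, ?_⟩
  have h4 : Tendsto (fun k => ‖hvL.toLp - f k‖ ^ 2) atTop (𝓝 0) := by
    have h5 : Tendsto (fun k => ‖f k - hvL.toLp‖) atTop (𝓝 0) :=
      tendsto_iff_norm_sub_tendsto_zero.1 hlim
    have h6 := h5.pow 2
    rw [zero_pow two_ne_zero] at h6
    refine h6.congr fun k => ?_
    rw [norm_sub_rev]
  refine h4.congr fun k => ?_
  have h5 : (‖hvL.toLp - f k‖ ^ 2 : ℝ) = ∫ x, ‖(hvL.toLp - f k : Lp ℂ 2 μ) x‖ ^ 2 ∂μ := by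
    have h6 := inner_self_eq_norm_sq (𝕜 := ℂ) (hvL.toLp - f k)
    rw [L2.inner_def] at h6
    have h7 : ∀ x, inner ℂ ((hvL.toLp - f k : Lp ℂ 2 μ) x) ((hvL.toLp - f k : Lp ℂ 2 μ) x) =
        ((‖(hvL.toLp - f k : Lp ℂ 2 μ) x‖ ^ 2 : ℝ) : ℂ) := by
      intro x
      rw [inner_self_eq_norm_sq_to_K]
      simp
    simp only [h7] at h6
    have h8 : ∫ x, ((‖(hvL.toLp - f k : Lp ℂ 2 μ) x‖ ^ 2 : ℝ) : ℂ) ∂μ =
        ((∫ x, ‖(hvL.toLp - f k : Lp ℂ 2 μ) x‖ ^ 2 ∂μ : ℝ) : ℂ) := integral_ofReal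
    rw [h8] at h6
    rw [← h6]
    rfl
  rw [h5]
  refine integral_congr_ae ?_
  filter_upwards [Lp.coeFn_sub hvL.toLp (f k), hvL.coeFn_toLp, h3 k] with x e1 e2 e3
  rw [e1, Pi.sub_apply, e2, e3, ← sub_mul, norm_mul, mul_pow, hEn]

/-- MAIN ESTIMATE. From `dual_ineq` applied to `γ_i^k` of `dense_div`, `k → ∞`. -/
theorem hormander {s φ : G → ℝ} (hs : C.Kah s) (hφ : C.Psh φ)
    {N : ℕ} {v : Fin N → G → ℂ} (hv : ∀ i, C.Sm (v i))
    (hvi : ∀ i, Integrable (fun x => ‖v i x‖ ^ 2 * Real.exp (-φ x)) μ)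
    (horth : ∀ i, ∀ h : G → ℂ, C.Hol h → Integrable (fun x => ‖h x‖ ^ 2 * Real.exp (-φ x)) μ →
      ∫ x, v i x * (starRingEnd ℂ) (h x) * (Real.exp (-φ x) : ℂ) ∂μ = 0)
    {ρ : G → ℝ} (hρm : Measurable ρ) (hρ0 : ∀ x, 0 ≤ ρ x)
    (hρ : Integrable (fun x => ρ x * Real.exp (-φ x)) μ)
    (hpt : ∀ x (b : Fin N → En n), ‖∑ i, ∑ j, C.Xb j (v i) x * (starRingEnd ℂ) (b i j)‖ ^ 2 ≤
      ρ x * ∑ i, C.Lv φ x (b i)) :
    ∑ i, ∫ x, ‖v i x‖ ^ 2 * Real.exp (-φ x) ∂μ ≤ ∫ x, ρ x * Real.exp (-φ x) ∂μ := by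
  classical
  obtain ⟨cR, hcR⟩ := C.exists_partR μ
  have hc : C.IsPart μ (cOf cR) := C.isPart_of_partR hcR
  have hφs : C.Sm φ := C.sm_ofReal.1 hφ.1
  have hφc : Continuous φ := C.sm_continuous hφs
  choose γ hγ hγc hlim using fun i =>
    C.dense_div μ hc hφs (C.sm_continuous (hv i)).aestronglyMeasurable (hvi i) (horth i)
  have hdual := fun k => C.dual_ineq μ hcR rfl hs hφ hv hvi hρm hρ0 hρ hpt
    (γ := fun i => γ i k) (fun i j => hγ i k j) (fun i j => hγc i k j)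
  set e : G → ℝ := fun x => Real.exp (-φ x) with he
  have he0 : ∀ x, 0 < e x := fun x => Real.exp_pos _
  have hec : Continuous e := by fun_prop
  have hvi' : ∀ i, Integrable (fun x => ‖v i x‖ ^ 2 * e x) μ := hvi
  -- the differences
  set w : Fin N → ℕ → G → ℂ := fun i k x => v i x - C.dvg (cOf cR) φ (γ i k) x with hw
  have hdi : ∀ i k, Integrable (fun x => ‖C.dvg (cOf cR) φ (γ i k) x‖ ^ 2 * e x) μ := by
    intro i k
    have h1 : Continuous fun x => ‖C.dvg (cOf cR) φ (γ i k) x‖ ^ 2 * e x :=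
      ((C.sm_continuous (HB7_sm_dvg C hφs (hγ i k))).norm.pow 2).mul hec
    refine h1.integrable_of_hasCompactSupport ?_
    refine HasCompactSupport.intro (HB7_supp_dvg C (c := cOf cR) (φ := φ) (hγc i k)) fun x hx => ?_
    rw [image_eq_zero_of_notMem_tsupport hx]
    simp
  have hwc : ∀ i k, Continuous (w i k) := fun i k =>
    (C.sm_continuous (hv i)).sub (C.sm_continuous (HB7_sm_dvg C hφs (hγ i k)))
  have hwi : ∀ i k, Integrable (fun x => ‖w i k x‖ ^ 2 * e x) μ := by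
    intro i k
    refine Integrable.mono' (((hvi i).const_mul 2).add ((hdi i k).const_mul 2))
      (((hwc i k).norm.pow 2).mul hec).aestronglyMeasurable (Eventually.of_forall fun x => ?_)
    rw [Real.norm_eq_abs, abs_of_nonneg (mul_nonneg (sq_nonneg _) (he0 x).le)]
    have h1 : ‖w i k x‖ ≤ ‖v i x‖ + ‖C.dvg (cOf cR) φ (γ i k) x‖ := norm_sub_le _ _
    have h2 : ‖w i k x‖ ^ 2 ≤ 2 * ‖v i x‖ ^ 2 + 2 * ‖C.dvg (cOf cR) φ (γ i k) x‖ ^ 2 := by
      nlinarith [norm_nonneg (w i k x), norm_nonneg (v i x),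
        norm_nonneg (C.dvg (cOf cR) φ (γ i k) x),
        sq_nonneg (‖v i x‖ - ‖C.dvg (cOf cR) φ (γ i k) x‖)]
    have h3 := mul_le_mul_of_nonneg_right h2 (he0 x).le
    simp only [Pi.add_apply]
    calc _ ≤ _ := h3
      _ = _ := by simp only [he]; ring
  -- the mixed terms tend to zero
  have hcs := fun i k => HB7_cs (μ := μ) (F := fun x => v i x * (starRingEnd ℂ) (w i k x) *
      ((e x : ℝ) : ℂ)) (A := fun x => ‖v i x‖ ^ 2 * e x) (B := fun x => ‖w i k x‖ ^ 2 * e x)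
      (by
        have h1 : Continuous fun x => v i x * (starRingEnd ℂ) (w i k x) * ((e x : ℝ) : ℂ) :=
          ((C.sm_continuous (hv i)).mul (Complex.continuous_conj.comp (hwc i k))).mul
            (Complex.continuous_ofReal.comp hec)
        exact h1.aestronglyMeasurable) (hvi i) (hwi i k)
      (fun x => mul_nonneg (sq_nonneg _) (he0 x).le)
      (fun x => mul_nonneg (sq_nonneg _) (he0 x).le)
      (fun x => by
        rw [norm_mul, norm_mul, mul_pow, mul_pow, Complex.norm_real, Real.norm_eq_abs,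
          abs_of_pos (he0 x), RCLike.norm_conj]
        exact le_of_eq (by ring))
  have hmix : ∀ i, Tendsto (fun k => ∫ x, v i x * (starRingEnd ℂ) (w i k x) *
      ((e x : ℝ) : ℂ) ∂μ) atTop (𝓝 0) := by
    intro i
    have h1 : Tendsto (fun k => (∫ x, ‖v i x‖ ^ 2 * e x ∂μ) * ∫ x, ‖w i k x‖ ^ 2 * e x ∂μ)
        atTop (𝓝 0) := by
      have h2 := (hlim i).const_mul (∫ x, ‖v i x‖ ^ 2 * e x ∂μ)
      rw [mul_zero] at h2
      exact h2
    have h3 : Tendsto (fun k => ‖∫ x, v i x * (starRingEnd ℂ) (w i k x) *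
      ((e x : ℝ) : ℂ) ∂μ‖ ^ 2) atTop (𝓝 0) :=
      squeeze_zero (fun k => sq_nonneg _) (fun k => (hcs i k).2) h1
    rw [tendsto_zero_iff_norm_tendsto_zero]
    have h4 := h3.sqrt
    rw [Real.sqrt_zero] at h4
    refine h4.congr fun k => ?_
    rw [Real.sqrt_sq (norm_nonneg _)]
  -- the two limits
  have hL1 : ∀ i, Tendsto (fun k => ∫ x, v i x * (starRingEnd ℂ) (C.dvg (cOf cR) φ (γ i k) x) *
      ((e x : ℝ) : ℂ) ∂μ) atTop (𝓝 ((∫ x, ‖v i x‖ ^ 2 * e x ∂μ : ℝ) : ℂ)) := by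
    intro i
    have h1 : ∀ k, ∫ x, v i x * (starRingEnd ℂ) (C.dvg (cOf cR) φ (γ i k) x) *
      ((e x : ℝ) : ℂ) ∂μ = ((∫ x, ‖v i x‖ ^ 2 * e x ∂μ : ℝ) : ℂ) -
        ∫ x, v i x * (starRingEnd ℂ) (w i k x) * ((e x : ℝ) : ℂ) ∂μ := by
      intro k
      have h2 : ((∫ x, ‖v i x‖ ^ 2 * e x ∂μ : ℝ) : ℂ) =
          ∫ x, ((‖v i x‖ ^ 2 * e x : ℝ) : ℂ) ∂μ := integral_ofReal.symm
      have h9 : Integrable (fun x => ((‖v i x‖ ^ 2 * e x : ℝ) : ℂ)) μ := (hvi' i).ofReal
      rw [h2, ← integral_sub h9 (hcs i k).1]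
      refine integral_congr_ae (Eventually.of_forall fun x => ?_)
      have h3 : ((‖v i x‖ ^ 2 * e x : ℝ) : ℂ) = v i x * (starRingEnd ℂ) (v i x) * (e x : ℂ) := by
        rw [Complex.mul_conj, Complex.normSq_eq_norm_sq]
        push_cast
        ring
      simp only
      rw [h3]
      simp only [hw, map_sub]
      ring
    simp only [h1]
    have h4 := (tendsto_const_nhds (x := ((∫ x, ‖v i x‖ ^ 2 * e x ∂μ : ℝ) : ℂ))
      (f := (atTop : Filter ℕ))).sub (hmix i)
    rw [sub_zero] at h4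
    exact h4
  have hL2 : ∀ i, Tendsto (fun k => ∫ x, ‖C.dvg (cOf cR) φ (γ i k) x‖ ^ 2 * e x ∂μ) atTop
      (𝓝 (∫ x, ‖v i x‖ ^ 2 * e x ∂μ)) := by
    intro i
    have h1 : ∀ k, ∫ x, ‖C.dvg (cOf cR) φ (γ i k) x‖ ^ 2 * e x ∂μ =
        (∫ x, ‖v i x‖ ^ 2 * e x ∂μ) - 2 * (∫ x, v i x * (starRingEnd ℂ) (w i k x) *
          ((e x : ℝ) : ℂ) ∂μ).re + ∫ x, ‖w i k x‖ ^ 2 * e x ∂μ := by
      intro k
      have h2 : (∫ x, v i x * (starRingEnd ℂ) (w i k x) * ((e x : ℝ) : ℂ) ∂μ).re =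
          ∫ x, (v i x * (starRingEnd ℂ) (w i k x) * ((e x : ℝ) : ℂ)).re ∂μ :=
        (integral_re (𝕜 := ℂ) (hcs i k).1).symm
      have h3 : Integrable (fun x => (v i x * (starRingEnd ℂ) (w i k x) *
          ((e x : ℝ) : ℂ)).re) μ := (hcs i k).1.re
      have h9 : Integrable (fun x => ‖v i x‖ ^ 2 * e x - 2 * (v i x * (starRingEnd ℂ) (w i k x) *
          ((e x : ℝ) : ℂ)).re) μ := (hvi' i).sub (h3.const_mul 2)
      rw [h2, ← integral_const_mul, ← integral_sub (hvi' i) (h3.const_mul 2),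
        ← integral_add h9 (hwi i k)]
      refine integral_congr_ae (Eventually.of_forall fun x => ?_)
      have h4 : C.dvg (cOf cR) φ (γ i k) x = v i x - w i k x := by simp only [hw]; ring
      simp only
      rw [h4]
      have h5 : ‖v i x - w i k x‖ ^ 2 = ‖v i x‖ ^ 2 - 2 * (v i x * (starRingEnd ℂ) (w i k x)).re +
          ‖w i k x‖ ^ 2 := by
        rw [← Complex.normSq_eq_norm_sq, ← Complex.normSq_eq_norm_sq, ← Complex.normSq_eq_norm_sq,
          Complex.normSq_sub]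
        ring
      rw [h5, Complex.re_mul_ofReal]
      simp only [he]
      ring
    simp only [h1]
    have h4 : Tendsto (fun k => (∫ x, v i x * (starRingEnd ℂ) (w i k x) *
        ((e x : ℝ) : ℂ) ∂μ).re) atTop (𝓝 0) := by
      have h5 := (Complex.continuous_re.tendsto _).comp (hmix i)
      rw [Complex.zero_re] at h5
      exact h5
    have h6 := (((tendsto_const_nhds (x := ∫ x, ‖v i x‖ ^ 2 * e x ∂μ)
      (f := (atTop : Filter ℕ))).sub (h4.const_mul 2))).add (hlim i)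
    rw [mul_zero, sub_zero, add_zero] at h6
    exact h6
  -- passage to the limit
  set S : ℝ := ∑ i, ∫ x, ‖v i x‖ ^ 2 * e x ∂μ with hS
  have hS0 : 0 ≤ S := Finset.sum_nonneg fun i _ =>
    integral_nonneg fun x => mul_nonneg (sq_nonneg _) (he0 x).le
  have hR0 : 0 ≤ ∫ x, ρ x * e x ∂μ := integral_nonneg fun x => mul_nonneg (hρ0 x) (he0 x).le
  have hlimL : Tendsto (fun k => ‖∑ i, ∫ x, v i x * (starRingEnd ℂ)
      (C.dvg (cOf cR) φ (γ i k) x) * ((e x : ℝ) : ℂ) ∂μ‖ ^ 2) atTop (𝓝 (S ^ 2)) := by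
    have h1 := (tendsto_finset_sum Finset.univ fun i _ => hL1 i).norm.pow 2
    have h2 : ‖∑ i, ((∫ x, ‖v i x‖ ^ 2 * e x ∂μ : ℝ) : ℂ)‖ = S := by
      rw [← Complex.ofReal_sum, Complex.norm_real, Real.norm_eq_abs, abs_of_nonneg hS0]
    rw [h2] at h1
    exact h1
  have hlimR : Tendsto (fun k => (∫ x, ρ x * e x ∂μ) *
      ∑ i, ∫ x, ‖C.dvg (cOf cR) φ (γ i k) x‖ ^ 2 * e x ∂μ) atTop
      (𝓝 ((∫ x, ρ x * e x ∂μ) * S)) :=
    (tendsto_finset_sum Finset.univ fun i _ => hL2 i).const_mul _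
  have hfin : S ^ 2 ≤ (∫ x, ρ x * e x ∂μ) * S :=
    le_of_tendsto_of_tendsto' hlimL hlimR hdual
  rcases hS0.lt_or_eq with h1 | h1
  · have h2 : S * S ≤ (∫ x, ρ x * e x ∂μ) * S := by rw [← sq]; exact hfin
    exact le_of_mul_le_mul_right h2 h1
  · rw [← h1]
    exact hR0

end CLG

end HR
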