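import Pool.Agent.W_06f097_h43.LE2
import Pool.Agent.W_06f097_h43.CA5

/-! MP_06f097_an blueprint, block LE: the extremal function `om`. -/

open scoped Topology ContDiff
open MeasureTheory Set Filter Metric

noncomputable section

namespace HR

variable {n : ℕ} {G : Type*} [Group G] [TopologicalSpace G] [IsTopologicalGroup G] [T2Space G]
  [LocallyCompactSpace G] [SecondCountableTopology G] [MeasurableSpace G] [BorelSpace G]
  (C : CLG n G) (μ : Measure G) [μ.IsHaarMeasure] {l : G → ℝ} (hl : Len μ l)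

omit [IsTopologicalGroup G] [T2Space G] [LocallyCompactSpace G] [SecondCountableTopology G]
  [BorelSpace G] [μ.IsHaarMeasure] in
private theorem le3_bdd (R : ℝ) (x : G) :
    BddAbove {t | ∃ f : Aexp C hl, (∀ y, ‖(f : G → ℂ) y‖ ≤ Real.exp (R * l y)) ∧
      t = ‖(f : G → ℂ) x‖} :=
  ⟨Real.exp (R * l x), by rintro t ⟨f, hf, rfl⟩; exact hf x⟩

omit [IsTopologicalGroup G] [T2Space G] [LocallyCompactSpace G] [SecondCountableTopology G]
  [BorelSpace G] [μ.IsHaarMeasure] in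
private theorem le3_ne (R : ℝ) (x : G) :
    Set.Nonempty {t | ∃ f : Aexp C hl, (∀ y, ‖(f : G → ℂ) y‖ ≤ Real.exp (R * l y)) ∧
      t = ‖(f : G → ℂ) x‖} :=
  ⟨0, 0, fun y => by simpa using (Real.exp_pos _).le, by simp⟩

omit [IsTopologicalGroup G] [T2Space G] [LocallyCompactSpace G] [SecondCountableTopology G]
  [BorelSpace G] [μ.IsHaarMeasure] in
private theorem le3_self (R : ℝ) (f : Aexp C hl)
    (hf : ∀ y, ‖(f : G → ℂ) y‖ ≤ Real.exp (R * l y)) (x : G) :
    ‖(f : G → ℂ) x‖ ≤ om C hl R x :=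
  le_csSup (le3_bdd C μ hl R x) ⟨f, hf, rfl⟩

omit [IsTopologicalGroup G] [T2Space G] [LocallyCompactSpace G] [SecondCountableTopology G]
  [BorelSpace G] [μ.IsHaarMeasure] in
private theorem le3_nonneg (R : ℝ) (x : G) : 0 ≤ om C hl R x := by
  have := le3_self C μ hl R (0 : Aexp C hl) (fun y => by simpa using (Real.exp_pos _).le) x
  simpa using this

theorem om_le (R : ℝ) (x : G) : om C hl R x ≤ Real.exp (R * l x) :=
  csSup_le (le3_ne C μ hl R x) (by rintro t ⟨f, hf, rfl⟩; exact hf x)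

theorem one_le_om {R : ℝ} (hR : 0 ≤ R) (x : G) : 1 ≤ om C hl R x := by
  have := le3_self C μ hl R (1 : Aexp C hl) (fun y => by
    have : (0 : ℝ) ≤ R * l y := mul_nonneg hR (hl.nonneg y)
    simpa using this) x
  simpa using this

theorem le_om {R M : ℝ} (hM : 0 ≤ M) (f : Aexp C hl)
    (hf : ∀ y, ‖(f : G → ℂ) y‖ ≤ M * Real.exp (R * l y)) (x : G) :
    ‖(f : G → ℂ) x‖ ≤ M * om C hl R x := by
  rcases hM.eq_or_lt with h0 | h0
  · have := hf x
    rw [← h0, zero_mul] at this ⊢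
    exact this
  · have h1 := le3_self C μ hl R ((M⁻¹ : ℂ) • f) (fun y => by
      have : ‖(M : ℂ)⁻¹ * (f : G → ℂ) y‖ ≤ Real.exp (R * l y) := by
        rw [norm_mul, norm_inv, Complex.norm_real, Real.norm_of_nonneg hM,
          inv_mul_le_iff₀ h0]
        exact hf y
      simpa using this) x
    have h2 : ‖(((M⁻¹ : ℂ) • f : Aexp C hl) : G → ℂ) x‖ = M⁻¹ * ‖(f : G → ℂ) x‖ := by
      simp [abs_of_pos h0]
    rw [h2, inv_mul_le_iff₀ h0] at h1
    exact h1

/-- `|L_x f| ≤ om_R(x) exp (R l)` for `|f| ≤ exp (R l)`: for fixed `y` the function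
`x ↦ f (x y)` is holomorphic and bounded by `exp (R l y) exp (R l x)` -/
theorem left_le (R : ℝ) (hR : 0 ≤ R) (x y : G) (f : Aexp C hl)
    (hf : ∀ z, ‖(f : G → ℂ) z‖ ≤ Real.exp (R * l z)) :
    ‖(f : G → ℂ) (x * y)‖ ≤ om C hl R x * Real.exp (R * l y) := by
  have hb : ∀ z, ‖(f : G → ℂ) (z * y)‖ ≤ Real.exp (R * l y) * Real.exp (R * l z) := fun z => by
    refine (hf _).trans ?_
    rw [← Real.exp_add, Real.exp_le_exp]
    nlinarith [hl.mul z y]
  let g : Aexp C hl := ⟨fun z => (f : G → ℂ) (z * y), C.hol_right f.2.1 y,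
    ⟨Real.exp (R * l y), R, (Real.exp_pos _).le, hR, hb⟩⟩
  have := le_om C μ hl (Real.exp_pos (R * l y)).le g hb x
  rw [mul_comm]
  exact this

theorem om_mul (R : ℝ) (hR : 0 ≤ R) (x y : G) :
    om C hl R (x * y) ≤ om C hl R x * om C hl R y := by
  refine csSup_le (le3_ne C μ hl R _) ?_
  rintro t ⟨f, hf, rfl⟩
  have := le_om C μ hl (le3_nonneg C μ hl R x) (Lt C hl x f)
    (fun z => left_le C μ hl R hR x z f hf) y
  exact this

private theorem le3_inv (R : ℝ) (x : G) : om C hl R x⁻¹ ≤ om C hl R x := by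
  refine csSup_le (le3_ne C μ hl R _) ?_
  rintro t ⟨f, hf, rfl⟩
  have hb : ∀ z, ‖(f : G → ℂ) z⁻¹‖ ≤ Real.exp (R * l z) := fun z => by
    have := hf z⁻¹
    rwa [hl.inv] at this
  obtain ⟨M, R', hM, hR', h'⟩ := f.2.2
  let g : Aexp C hl := ⟨fun z => (f : G → ℂ) z⁻¹, C.hol_inv f.2.1,
    ⟨M, R', hM, hR', fun z => by
      have := h' z⁻¹
      rwa [hl.inv] at this⟩⟩
  exact le3_self C μ hl R g hb x

/-- inversion `f ↦ f ∘ inv` (`hol_inv`) -/
theorem om_inv (R : ℝ) (x : G) : om C hl R x⁻¹ = om C hl R x := by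
  refine le_antisymm (le3_inv C μ hl R x) ?_
  have := le3_inv C μ hl R x⁻¹
  rwa [inv_inv] at this

theorem om_mono {R R' : ℝ} (h : R ≤ R') (x : G) : om C hl R x ≤ om C hl R' x := by
  refine csSup_le (le3_ne C μ hl R _) ?_
  rintro t ⟨f, hf, rfl⟩
  refine le3_self C μ hl R' f (fun y => (hf y).trans ?_) x
  rw [Real.exp_le_exp]
  exact mul_le_mul_of_nonneg_right h (hl.nonneg y)

end HR
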