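import Pool.Agent.W_06f097_h43.SK2
import Pool.Agent.W_06f097_h43.LE3
import Pool.Agent.W_06f097_h43.HB7

/-! MP_06f097_an blueprint, block ST: localised functions. -/

open scoped Topology ContDiff
open MeasureTheory Set Filter Metric

set_option linter.unusedSectionVars false

noncomputable section

namespace HR

variable {n : ℕ} {G : Type*} [Group G] [TopologicalSpace G] [IsTopologicalGroup G] [T2Space G]
  [LocallyCompactSpace G] [SecondCountableTopology G] [MeasurableSpace G] [BorelSpace G]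
  (C : CLG n G) (μ : Measure G) [μ.IsHaarMeasure] {l : G → ℝ} (hl : Len μ l)

/-- the derivatives at `1` are prescribed -/
theorem ST1_surj (hsep : ∀ v : En n, v ≠ 0 → ∃ f : Aexp C hl, C.D (f : G → ℂ) 1 v ≠ 0)
    (w : Fin n → ℂ) : ∃ f : Aexp C hl, ∀ j, C.X j (f : G → ℂ) 1 = w j := by
  obtain ⟨Λ, hΛ⟩ : ∃ Λ : Aexp C hl →ₗ[ℂ] (Fin n → ℂ), ∀ f j, Λ f j = C.X j (f : G → ℂ) 1 :=
    ⟨{ toFun := fun f j => C.X j (f : G → ℂ) 1
       map_add' := fun f g => by
         funext j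
         exact C.X_add (C.hol_sm f.2.1) (C.hol_sm g.2.1) j 1
       map_smul' := fun t f => by
         funext j
         have h1 := C.X_mul (C.sm_const t) (C.hol_sm f.2.1) j 1
         rw [C.X_const, zero_mul, zero_add] at h1
         exact h1 }, fun _ _ => rfl⟩
  have htop : LinearMap.range Λ = ⊤ := by
    by_contra hne
    obtain ⟨φ, hφ0, hφ⟩ := Submodule.exists_le_ker_of_lt_top _ (lt_top_iff_ne_top.2 hne)
    have hφe : ∀ w : Fin n → ℂ, φ w = ∑ j, φ (Pi.single j 1) * w j := by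
      intro w
      have h1 : w = ∑ j, w j • (Pi.single j (1 : ℂ) : Fin n → ℂ) := by
        funext i
        rw [Finset.sum_apply, Finset.sum_eq_single i]
        · simp
        · intro b _ hb
          simp [Pi.single_eq_of_ne (Ne.symm hb)]
        · simp
      conv_lhs => rw [h1]
      rw [map_sum]
      refine Finset.sum_congr rfl fun j _ => ?_
      rw [map_smul, smul_eq_mul, mul_comm]
    have hv : (fun j => φ (Pi.single j 1) : En n) ≠ 0 := by
      intro h0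
      apply hφ0
      ext w
      simp only [LinearMap.comp_apply, LinearMap.zero_apply, LinearMap.single_apply]
      exact congrFun h0 w
    obtain ⟨f, hf⟩ := hsep _ hv
    apply hf
    rw [C.D_eq]
    have h2 : φ (Λ f) = 0 := hφ ⟨f, rfl⟩
    rw [hφe] at h2
    rw [← h2]
    refine Finset.sum_congr rfl fun j _ => ?_
    rw [C.Xb_hol f.2.1, mul_zero, add_zero, hΛ]
  have h1 : w ∈ LinearMap.range Λ := by
    rw [htop]
    exact Submodule.mem_top
  obtain ⟨f, hf⟩ := h1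
  exact ⟨f, fun j => by rw [← hΛ, hf]⟩

/-- coordinates at `1` in the algebra -/
theorem exists_coord (hsep : ∀ v : En n, v ≠ 0 → ∃ f : Aexp C hl, C.D (f : G → ℂ) 1 v ≠ 0) :
    ∃ f : Fin n → Aexp C hl, (∀ i, (f i : G → ℂ) 1 = 0) ∧
      ∀ i j, C.X j (f i : G → ℂ) 1 = if i = j then 1 else 0 := by
  choose g hg using fun i : Fin n => ST1_surj C μ hl hsep (fun j => if i = j then 1 else 0)
  refine ⟨fun i => g i - algebraMap ℂ (Aexp C hl) ((g i : G → ℂ) 1), fun i => ?_, fun i j => ?_⟩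
  · show (g i : G → ℂ) 1 - (g i : G → ℂ) 1 = 0
    exact sub_self _
  · have h1 := C.X_sub (C.hol_sm (g i).2.1) (C.sm_const ((g i : G → ℂ) 1)) j 1
    rw [C.X_const, sub_zero] at h1
    rw [← hg i j, ← h1]
    rfl

/-- a matrix near the identity -/
theorem ST1_lin {n : ℕ} (A : Fin n → Fin n → ℂ) {η : ℝ} (hη : η = 1 / (2 * ((n : ℝ) + 1)))
    (hA : ∀ i j, ‖A i j - (if i = j then 1 else 0)‖ ≤ η) (b : Fin n → ℂ) :
    ∑ i, ‖b i‖ ^ 2 ≤ 4 * ∑ i, ‖∑ j, b j * A i j‖ ^ 2 := by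
  have hη0 : 0 < η := by
    rw [hη]
    positivity
  have h1 : ∀ i, ‖b i‖ ^ 2 ≤ 2 * ‖∑ j, b j * A i j‖ ^ 2 + 2 * (η ^ 2 * (n * ∑ j, ‖b j‖ ^ 2)) := by
    intro i
    have h2 : b i = (∑ j, b j * A i j) - ∑ j, b j * (A i j - (if i = j then 1 else 0)) := by
      rw [← Finset.sum_sub_distrib]
      rw [Finset.sum_eq_single i]
      · rw [if_pos rfl]
        ring
      · intro j _ hj
        rw [if_neg (Ne.symm hj)]
        ring
      · simp
    have h3 : ‖∑ j, b j * (A i j - (if i = j then 1 else 0))‖ ≤ η * ∑ j, ‖b j‖ := by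
      refine (norm_sum_le _ _).trans ?_
      rw [Finset.mul_sum]
      refine Finset.sum_le_sum fun j _ => ?_
      rw [norm_mul, mul_comm]
      exact mul_le_mul_of_nonneg_right (hA i j) (norm_nonneg _)
    have h4 : (∑ j, ‖b j‖) ^ 2 ≤ n * ∑ j, ‖b j‖ ^ 2 := by
      have := sq_sum_le_card_mul_sum_sq (s := (Finset.univ : Finset (Fin n))) (f := fun j => ‖b j‖)
      simpa using this
    have h5 : ‖b i‖ ≤ ‖∑ j, b j * A i j‖ + η * ∑ j, ‖b j‖ := by
      conv_lhs => rw [h2]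
      exact (norm_sub_le _ _).trans (add_le_add le_rfl h3)
    have h6 : 0 ≤ ∑ j, ‖b j‖ := Finset.sum_nonneg fun j _ => norm_nonneg _
    have h7 : ‖b i‖ ^ 2 ≤ (‖∑ j, b j * A i j‖ + η * ∑ j, ‖b j‖) ^ 2 :=
      pow_le_pow_left₀ (norm_nonneg _) h5 2
    have h8 : (η * ∑ j, ‖b j‖) ^ 2 ≤ η ^ 2 * (n * ∑ j, ‖b j‖ ^ 2) := by
      rw [mul_pow]
      exact mul_le_mul_of_nonneg_left h4 (by positivity)
    nlinarith [sq_nonneg (‖∑ j, b j * A i j‖ - η * ∑ j, ‖b j‖)]
  have h2 := Finset.sum_le_sum fun i (_ : i ∈ (Finset.univ : Finset (Fin n))) => h1 i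
  rw [Finset.sum_add_distrib, ← Finset.mul_sum, Finset.sum_const, Finset.card_univ,
    Fintype.card_fin, nsmul_eq_mul] at h2
  have h3 : (n : ℝ) * (2 * (η ^ 2 * (n * ∑ j, ‖b j‖ ^ 2))) ≤ 1 / 2 * ∑ j, ‖b j‖ ^ 2 := by
    have h4 : (n : ℝ) * (2 * (η ^ 2 * n)) ≤ 1 / 2 := by
      have h5 : η * n ≤ 1 / 2 := by
        rw [hη, div_mul_eq_mul_div, div_le_iff₀ (by positivity)]
        linarith
      have h6 : 0 ≤ η * n := by positivity
      nlinarith
    have h5 : 0 ≤ ∑ j, ‖b j‖ ^ 2 := Finset.sum_nonneg fun j _ => by positivity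
    calc (n : ℝ) * (2 * (η ^ 2 * (n * ∑ j, ‖b j‖ ^ 2)))
        = (n : ℝ) * (2 * (η ^ 2 * n)) * ∑ j, ‖b j‖ ^ 2 := by ring
      _ ≤ 1 / 2 * ∑ j, ‖b j‖ ^ 2 := mul_le_mul_of_nonneg_right h4 h5
  linarith

/-- coordinates: `|z|² / 4 ≤ Σ |f_i (ψ z)|²` near `0` -/
theorem ST1_inj {f : Fin n → G → ℂ} (hf : ∀ i, C.Hol (f i)) (h0 : ∀ i, f i 1 = 0)
    (h1 : ∀ i j, C.X j (f i) 1 = if i = j then 1 else 0) :
    ∀ᶠ z in 𝓝 (0 : En n), ‖z‖ ^ 2 / 4 ≤ ∑ i, ‖f i (C.ψ z)‖ ^ 2 := by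
  have hd : ∀ i, HasFDerivAt (fun z => f i (C.ψ z))
      (ContinuousLinearMap.proj i : En n →L[ℂ] ℂ) 0 := by
    intro i
    have h2 : DifferentiableAt ℂ (C.co (f i) 1) 0 := hf i 1
    have h3 : C.co (f i) 1 = fun z => f i (C.ψ z) := by
      funext z
      rw [CLG.co, one_mul]
    have h4 := h2.hasFDerivAt
    have h5 : fderiv ℂ (C.co (f i) 1) 0 = (ContinuousLinearMap.proj i : En n →L[ℂ] ℂ) := by
      refine ContinuousLinearMap.ext fun v => ?_
      have h6 : v = ∑ j, v j • (Pi.single j (1 : ℂ) : En n) := by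
        funext k
        rw [Finset.sum_apply, Finset.sum_eq_single k]
        · simp
        · intro b _ hb
          simp [Pi.single_eq_of_ne (Ne.symm hb)]
        · simp
      conv_lhs => rw [h6]
      rw [map_sum]
      have h7 : ∀ j, (fderiv ℂ (C.co (f i) 1) 0) (v j • (Pi.single j (1 : ℂ) : En n)) =
          if i = j then v j else 0 := by
        intro j
        rw [map_smul, ← C.X_hol (hf i), h1, smul_eq_mul]
        split_ifs <;> simp
      simp only [h7]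
      simp
    rw [h5, h3] at h4
    exact h4
  have hg : HasFDerivAt (fun z => fun i => f i (C.ψ z)) (ContinuousLinearMap.id ℂ (En n)) 0 := by
    have := hasFDerivAt_pi.2 hd
    refine this.congr_fderiv ?_
    ext v i
    rfl
  have h2 := hg.isLittleO.def (c := 1 / 2) (by norm_num)
  filter_upwards [h2] with z hz
  have h3 : (fun i => f i (C.ψ 0)) = 0 := by
    funext i
    rw [C.map_zero, h0]
    rfl
  rw [h3, sub_zero, sub_zero, ContinuousLinearMap.id_apply] at hz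
  have h4 : ‖z‖ / 2 ≤ ‖(fun i => f i (C.ψ z))‖ := by
    have h5 : ‖z‖ ≤ ‖(fun i => f i (C.ψ z)) - z‖ + ‖(fun i => f i (C.ψ z))‖ := by
      have h6 : z = (fun i => f i (C.ψ z)) - ((fun i => f i (C.ψ z)) - z) := by abel
      have h7 := norm_sub_le (fun i => f i (C.ψ z)) ((fun i => f i (C.ψ z)) - z)
      rw [← h6] at h7
      linarith
    linarith
  have h5 : ‖(fun i => f i (C.ψ z))‖ ≤ Real.sqrt (∑ i, ‖f i (C.ψ z)‖ ^ 2) := by
    rw [pi_norm_le_iff_of_nonneg (Real.sqrt_nonneg _)]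
    intro i
    apply Real.le_sqrt_of_sq_le
    exact Finset.single_le_sum (f := fun i => ‖f i (C.ψ z)‖ ^ 2) (fun j _ => by positivity)
      (Finset.mem_univ i)
  have h6 : 0 ≤ ∑ i, ‖f i (C.ψ z)‖ ^ 2 := Finset.sum_nonneg fun i _ => by positivity
  calc ‖z‖ ^ 2 / 4 = (‖z‖ / 2) ^ 2 := by ring
    _ ≤ Real.sqrt (∑ i, ‖f i (C.ψ z)‖ ^ 2) ^ 2 :=
        pow_le_pow_left₀ (by positivity) (h4.trans h5) 2
    _ = ∑ i, ‖f i (C.ψ z)‖ ^ 2 := Real.sq_sqrt h6

/-- lower bound of the Levi form of `log (1 + Σ |f_i|²)` -/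
theorem ST1_Lv {f : Fin n → G → ℂ} (hf : ∀ i, C.Hol (f i)) {F : Fin (n + 1) → G → ℂ}
    (hF : F = Fin.cons (fun _ => 1) f) {x : G} (hx : ∑ i, ‖F i x‖ ^ 2 ≤ 2)
    {η : ℝ} (hη : η = 1 / (2 * ((n : ℝ) + 1)))
    (hA : ∀ i j, ‖C.X j (f i) x - (if i = j then 1 else 0)‖ ≤ η) (b : En n) :
    1 / 16 * ∑ i, ‖b i‖ ^ 2 ≤ C.Lv (fun y => Real.log (∑ i, ‖F i y‖ ^ 2)) x b := by
  have hFh : ∀ i, C.Hol (F i) := by
    intro i
    rw [hF]
    refine Fin.cases ?_ (fun i => ?_) i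
    · exact C.hol_const 1
    · exact hf i
  have hsum : ∀ y, ∑ i, ‖F i y‖ ^ 2 = 1 + ∑ i, ‖f i y‖ ^ 2 := by
    intro y
    rw [Fin.sum_univ_succ, hF]
    simp only [Fin.cons_zero, Fin.cons_succ]
    norm_num
  have hpos : ∀ y, 0 < ∑ i, ‖F i y‖ ^ 2 := by
    intro y
    rw [hsum]
    have : 0 ≤ ∑ i, ‖f i y‖ ^ 2 := Finset.sum_nonneg fun i _ => by positivity
    linarith
  rw [C.Lv_log hFh hpos]
  obtain ⟨a, ha⟩ : ∃ a : Fin n → ℂ, a = fun i => ∑ j, b j * C.X j (f i) x := ⟨_, rfl⟩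
  have e1 : ∑ i, ‖∑ j, b j * C.X j (F i) x‖ ^ 2 = ∑ i, ‖a i‖ ^ 2 := by
    rw [Fin.sum_univ_succ, hF, ha]
    simp only [Fin.cons_zero, Fin.cons_succ, C.X_const]
    simp
  have e2 : ∑ i, (starRingEnd ℂ) (F i x) * ∑ j, b j * C.X j (F i) x =
      ∑ i, (starRingEnd ℂ) (f i x) * a i := by
    rw [Fin.sum_univ_succ, hF, ha]
    simp only [Fin.cons_zero, Fin.cons_succ, C.X_const]
    simp
  have e3 : ‖∑ i, (starRingEnd ℂ) (f i x) * a i‖ ^ 2 ≤ (∑ i, ‖f i x‖ ^ 2) * ∑ i, ‖a i‖ ^ 2 := by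
    have h1 : ‖∑ i, (starRingEnd ℂ) (f i x) * a i‖ ≤ ∑ i, ‖f i x‖ * ‖a i‖ := by
      refine (norm_sum_le _ _).trans (le_of_eq ?_)
      refine Finset.sum_congr rfl fun i _ => ?_
      rw [norm_mul, RCLike.norm_conj]
    refine (pow_le_pow_left₀ (norm_nonneg _) h1 2).trans ?_
    exact Finset.sum_mul_sq_le_sq_mul_sq _ _ _
  have e4 : ∑ i, ‖b i‖ ^ 2 ≤ 4 * ∑ i, ‖a i‖ ^ 2 := by
    rw [ha]
    exact ST1_lin (fun i j => C.X j (f i) x) hη hA b
  rw [e1, e2]
  obtain ⟨w, hw⟩ : ∃ w, w = ∑ i, ‖F i x‖ ^ 2 := ⟨_, rfl⟩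
  have hw1 : 0 < w := by
    rw [hw]
    exact hpos x
  have e5 : ∑ i, ‖f i x‖ ^ 2 = w - 1 := by
    rw [hw, hsum]
    ring
  rw [e5] at e3
  rw [← hw] at hx ⊢
  have hS : 0 ≤ ∑ i, ‖a i‖ ^ 2 := Finset.sum_nonneg fun i _ => by positivity
  rw [le_div_iff₀ (by positivity)]
  have e6 : w ^ 2 ≤ 4 := by nlinarith
  have hb : 0 ≤ ∑ i, ‖b i‖ ^ 2 := Finset.sum_nonneg fun i _ => by positivity
  calc (1 / 16 * ∑ i, ‖b i‖ ^ 2) * w ^ 2 ≤ (1 / 16 * ∑ i, ‖b i‖ ^ 2) * 4 :=
        mul_le_mul_of_nonneg_left e6 (by positivity)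
    _ ≤ w * ∑ i, ‖a i‖ ^ 2 - ‖∑ i, (starRingEnd ℂ) (f i x) * a i‖ ^ 2 := by
        linarith

/-- Step (b). Let `f` be as in `exists_coord`, `W = 1 + Σ |f_i|²`, `φ_M = M log W`, `θ` a smooth
cutoff with support in a small set `ψ '' ball 0 r₁` with `θ = 1` on `ψ '' ball 0 (r₁/2)`
(`exists_cutoff` or `exists_transport`). There `1 + c|z|² ≤ W (ψ z) ≤ 1 + C |z|²` and
`Lv (log W) x b ≥ c Σ|b_j|²` on the support of `θ` (`Lv_log`: it is at least
`Σ |b . X f_i|² / W²`). If the only holomorphic `h` with `∫ |h|² W^(-M) < ∞` is `0`, `hormander`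
with `v = θ` gives `∫ θ² W^(-M) ≤ (B / M) ∫_{r₁/2 ≤ |z| ≤ r₁} W^(-M)`, false for large `M` (compare
with the integral over a very small ball). -/
theorem loc_exists {s : G → ℝ} (hs : C.Kah s)
    (hsep : ∀ v : En n, v ≠ 0 → ∃ f : Aexp C hl, C.D (f : G → ℂ) 1 v ≠ 0) :
    ∃ (h : Aexp C hl) (W₀ : G → ℝ), IsWA C hl W₀ ∧ C.MemH μ W₀ (h : G → ℂ) ∧
      (h : G → ℂ) ≠ 0 := by
  obtain ⟨f, hf0, hf1⟩ := exists_coord C μ hl hsep
  have hfh : ∀ i, C.Hol (f i : G → ℂ) := fun i => (f i).2.1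
  obtain ⟨F, hF⟩ : ∃ F : Fin (n + 1) → G → ℂ,
    F = Fin.cons (fun _ => 1) (fun i => (f i : G → ℂ)) := ⟨_, rfl⟩
  have hFA : ∀ i, F i ∈ Aexp C hl := by
    intro i
    rw [hF]
    refine Fin.cases ?_ (fun i => ?_) i
    · exact (1 : Aexp C hl).2
    · exact (f i).2
  have hFh : ∀ i, C.Hol (F i) := fun i => (hFA i).1
  obtain ⟨W, hWd⟩ : ∃ W : G → ℝ, W = fun x => ∑ i, ‖F i x‖ ^ 2 := ⟨_, rfl⟩
  have hWs : ∀ x, W x = 1 + ∑ i, ‖(f i : G → ℂ) x‖ ^ 2 := by
    intro x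
    rw [hWd]
    simp only
    rw [Fin.sum_univ_succ, hF]
    simp only [Fin.cons_zero, Fin.cons_succ]
    norm_num
  have hW1 : ∀ x, 1 ≤ W x := by
    intro x
    rw [hWs]
    have : 0 ≤ ∑ i, ‖(f i : G → ℂ) x‖ ^ 2 := Finset.sum_nonneg fun i _ => by positivity
    linarith
  have hWA : IsWA C hl W := ⟨n + 1, F, hFA, fun x => by rw [hWd], 1, one_pos, hW1⟩
  have hWc : Continuous W := by
    rw [hWd]
    exact continuous_finsetSum _ fun i _ => ((C.hol_continuous (hFh i)).norm.pow 2)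
  have hWone : W 1 = 1 := by
    rw [hWs]
    simp [hf0]
  obtain ⟨η, hη⟩ : ∃ η : ℝ, η = 1 / (2 * ((n : ℝ) + 1)) := ⟨_, rfl⟩
  have hη0 : 0 < η := by
    rw [hη]
    positivity
  have hev1 : ∀ᶠ x in 𝓝 (1 : G), W x < 2 ∧
      ∀ i j, ‖C.X j (f i : G → ℂ) x - (if i = j then 1 else 0)‖ < η := by
    refine Filter.Eventually.and ?_ ?_
    · exact hWc.continuousAt.eventually_lt_const (by rw [hWone]; norm_num)
    · rw [eventually_all]
      intro i
      rw [eventually_all]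
      intro j
      have hc : Continuous (C.X j (f i : G → ℂ)) := C.hol_continuous (C.hol_X (hfh i) j)
      have hc2 : Continuous fun x => ‖C.X j (f i : G → ℂ) x - (if i = j then 1 else 0)‖ :=
        (hc.sub continuous_const).norm
      refine hc2.continuousAt.eventually_lt_const ?_
      show ‖C.X j (f i : G → ℂ) 1 - (if i = j then 1 else 0)‖ < η
      rw [hf1, sub_self, norm_zero]
      exact hη0
  have h0s : (0 : En n) ∈ C.ψ.source := C.ball_sub (mem_ball_self C.r_pos)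
  have hψc : Tendsto C.ψ (𝓝 (0 : En n)) (𝓝 (1 : G)) := by
    have := (C.ψ.continuousAt h0s).tendsto
    rwa [C.map_zero] at this
  have hev2 := (hψc.eventually hev1).and (ST1_inj C hfh hf0 hf1)
  obtain ⟨ε, hε, hball⟩ := Metric.eventually_nhds_iff_ball.1 hev2
  have hr := C.r_pos
  have hmin : 0 < min ε C.r := lt_min hε hr
  obtain ⟨r₁, hr₁⟩ : ∃ r₁, r₁ = min ε C.r / 2 := ⟨_, rfl⟩
  have hr₁0 : 0 < r₁ := by
    rw [hr₁]
    positivity
  have hr₁ε : r₁ < ε := by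
    have := min_le_left ε C.r
    rw [hr₁]
    linarith
  have hr₁r : r₁ < C.r := by
    have := min_le_right ε C.r
    rw [hr₁]
    linarith
  obtain ⟨β, hβ1, hβ2⟩ : ∃ β : ContDiffBump (0 : En n), β.rIn = r₁ / 2 ∧ β.rOut = r₁ :=
    ⟨⟨r₁ / 2, r₁, by positivity, by linarith⟩, rfl, rfl⟩
  have hts : tsupport β = closedBall (0 : En n) r₁ := by
    rw [β.tsupport_eq, hβ2]
  obtain ⟨θ, hθs, hθc, hθt, hθz, hθ0⟩ := C.exists_transport (β := β) β.contDiff
    β.hasCompactSupport (by rw [hts]; exact closedBall_subset_ball hr₁r)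
  obtain ⟨K, hK⟩ : ∃ K : Set G, K = C.ψ '' closedBall (0 : En n) r₁ := ⟨_, rfl⟩
  rw [hts, ← hK] at hθt hθ0
  have hKc : IsCompact K := by
    rw [← hθt]
    exact hθc
  obtain ⟨U₁, hU₁⟩ : ∃ U₁ : Set G, U₁ = C.ψ '' ball (0 : En n) (r₁ / 2) := ⟨_, rfl⟩
  have hU₁o : IsOpen U₁ := by
    rw [hU₁]
    exact C.ψ.isOpen_image_of_subset_source isOpen_ball
      ((ball_subset_ball (by linarith)).trans C.ball_sub)
  have hU₁K : U₁ ⊆ K := by
    rw [hU₁, hK]
    exact image_mono (ball_subset_closedBall.trans (closedBall_subset_closedBall (by linarith)))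
  have hU₁1 : (1 : G) ∈ U₁ := by
    rw [hU₁]
    exact ⟨0, mem_ball_self (by positivity), C.map_zero⟩
  have hθU : ∀ x ∈ U₁, θ x = 1 := by
    rw [hU₁]
    rintro _ ⟨z, hz, rfl⟩
    rw [hθz z (ball_subset_ball (by linarith) hz)]
    apply β.one_of_mem_closedBall
    rw [hβ1]
    exact ball_subset_closedBall hz
  obtain ⟨a, ha⟩ : ∃ a : ℝ, a = (r₁ / 2) ^ 2 / 4 := ⟨_, rfl⟩
  have ha0 : 0 < a := by
    rw [ha]
    positivity
  have hWK : ∀ x ∈ K, x ∉ U₁ → 1 + a ≤ W x := by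
    rw [hK, hU₁]
    rintro _ ⟨z, hz, rfl⟩ hzU
    have hz1 : r₁ / 2 ≤ ‖z‖ := by
      by_contra hlt
      push Not at hlt
      exact hzU ⟨z, by simpa using hlt, rfl⟩
    have hz2 : z ∈ ball (0 : En n) ε := closedBall_subset_ball hr₁ε hz
    have h3 := (hball z hz2).2
    rw [hWs, ha]
    have h4 : (r₁ / 2) ^ 2 ≤ ‖z‖ ^ 2 := pow_le_pow_left₀ (by positivity) hz1 2
    linarith
  have hKx : ∀ x ∈ K, W x < 2 ∧
      ∀ i j, ‖C.X j (f i : G → ℂ) x - (if i = j then 1 else 0)‖ < η := by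
    rw [hK]
    rintro _ ⟨z, hz, rfl⟩
    exact (hball z (closedBall_subset_ball hr₁ε hz)).1
  -- the function `v`
  obtain ⟨v, hv⟩ : ∃ v : G → ℂ, v = fun x => (θ x : ℂ) := ⟨_, rfl⟩
  have hvs : C.Sm v := by
    rw [hv]
    exact C.sm_ofReal.2 hθs
  have hvK : ∀ x, x ∉ K → v x = 0 := by
    intro x hx
    rw [hv]
    simp only
    rw [hθ0 x hx, Complex.ofReal_zero]
  have hXb0 : ∀ x, (x ∉ K ∨ x ∈ U₁) → ∀ j, C.Xb j v x = 0 := by
    intro x hx j
    rcases hx with hx | hx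
    · have h1 : v =ᶠ[𝓝 x] fun _ => (0 : ℂ) := by
        filter_upwards [hKc.isClosed.isOpen_compl.mem_nhds hx] with y hy
        exact hvK y hy
      rw [C.Xb_congr h1, C.Xb_const]
    · have h1 : v =ᶠ[𝓝 x] fun _ => (1 : ℂ) := by
        filter_upwards [hU₁o.mem_nhds hx] with y hy
        rw [hv]
        simp only
        rw [hθU y hy, Complex.ofReal_one]
      rw [C.Xb_congr h1, C.Xb_const]
  obtain ⟨S, hS⟩ : ∃ S : G → ℝ, S = fun x => ∑ j, ‖C.Xb j v x‖ ^ 2 := ⟨_, rfl⟩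
  have hS0 : ∀ x, 0 ≤ S x := by
    intro x
    rw [hS]
    exact Finset.sum_nonneg fun j _ => by positivity
  have hSc : Continuous S := by
    rw [hS]
    exact continuous_finsetSum _ fun j _ => ((C.sm_continuous (C.sm_Xb hvs j)).norm.pow 2)
  have hSz : ∀ x, (x ∉ K ∨ x ∈ U₁) → S x = 0 := by
    intro x hx
    rw [hS]
    exact Finset.sum_eq_zero fun j _ => by rw [hXb0 x hx j, norm_zero]; norm_num
  obtain ⟨B, hB⟩ := hKc.exists_bound_of_continuousOn hSc.continuousOn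
  -- the open set `U`
  obtain ⟨U, hU⟩ : ∃ U : Set G, U = U₁ ∩ {x | W x < 1 + a} := ⟨_, rfl⟩
  have hUo : IsOpen U := by
    rw [hU]
    exact hU₁o.inter (isOpen_lt hWc continuous_const)
  have hU1 : (1 : G) ∈ U := by
    rw [hU]
    refine ⟨hU₁1, ?_⟩
    show W 1 < 1 + a
    rw [hWone]
    linarith
  have hUK : U ⊆ K := by
    rw [hU]
    exact inter_subset_left.trans hU₁K
  have hUfin : μ U < ⊤ := (measure_mono hUK).trans_lt hKc.measure_lt_top
  have hUpos : 0 < μ.real U := by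
    rw [measureReal_def]
    exact ENNReal.toReal_pos (hUo.measure_pos μ ⟨1, hU1⟩).ne' hUfin.ne
  obtain ⟨M, hM⟩ := exists_nat_gt (16 * |B| * μ.real K / μ.real U)
  have hM0 : 0 < (M : ℝ) := lt_of_le_of_lt (by positivity) hM
  rw [div_lt_iff₀ hUpos] at hM
  by_contra hcon
  have hWM : IsWA C hl (fun x => W x ^ M) := isWA_pow C μ hl hWA M
  have hz : ∀ g : G → ℂ, C.MemH μ (fun x => W x ^ M) g → g = 0 := by
    intro g hg
    by_contra hg0
    exact hcon ⟨⟨g, isWA_mem_Aexp C μ hl hWM hg⟩, _, hWM, hg, hg0⟩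
  have hWp : ∀ x, 0 < W x := fun x => one_pos.trans_le (hW1 x)
  have hexp : ∀ x, Real.exp (-((M : ℝ) * Real.log (∑ i, ‖F i x‖ ^ 2))) = (W x ^ M)⁻¹ := by
    intro x
    have h1 : ∑ i, ‖F i x‖ ^ 2 = W x := by rw [hWd]
    rw [h1, Real.exp_neg, Real.exp_nat_mul, Real.exp_log (hWp x)]
  have hpos : ∀ x, 0 < ∑ i, ‖F i x‖ ^ 2 := by
    intro x
    have h1 : ∑ i, ‖F i x‖ ^ 2 = W x := by rw [hWd]
    rw [h1]
    exact hWp x
  have hpsh := C.psh_const_mul (C.psh_log hFh hpos) hM0.le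
  have hWMc : Continuous fun x => (W x ^ M)⁻¹ :=
    (hWc.pow M).inv₀ fun x => (pow_pos (hWp x) M).ne'
  have hcs : ∀ {g : G → ℝ}, Continuous g → (∀ x, x ∉ K → g x = 0) → Integrable g μ := by
    intro g hg hg0
    exact hg.integrable_of_hasCompactSupport (HasCompactSupport.intro hKc hg0)
  have hvc : Continuous v := C.sm_continuous hvs
  have hmain := C.hormander μ hs hpsh (N := 1) (v := fun _ => v) (fun _ => hvs)
    (fun _ => by
      simp only [hexp]
      refine hcs ((hvc.norm.pow 2).mul hWMc) fun x hx => ?_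
      rw [hvK x hx]
      simp)
    (fun _ g hg hgi => by
      have h1 : g = 0 := by
        refine hz g ⟨hg, ?_⟩
        simp only [hexp] at hgi
        exact hgi
      rw [h1]
      simp)
    (ρ := fun x => 16 / M * S x) (hSc.measurable.const_mul _)
    (fun x => by have := hS0 x; positivity)
    (by
      simp only [hexp]
      refine hcs ((continuous_const.mul hSc).mul hWMc) fun x hx => ?_
      rw [hSz x (Or.inl hx)]
      simp)
    (fun x b => by
      simp only [Fin.sum_univ_one]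
      by_cases hx : x ∈ K
      · rw [C.Lv_const_mul (C.psh_log hFh hpos |>.1 |> C.sm_ofReal.1)]
        obtain ⟨hx1, hx2⟩ := hKx x hx
        have h1 := ST1_Lv C hfh hF (x := x) (by
          have h1 : ∑ i, ‖F i x‖ ^ 2 = W x := by rw [hWd]
          rw [h1]
          exact hx1.le) hη (fun i j => (hx2 i j).le) (b 0)
        have h2 : ‖∑ j, C.Xb j v x * (starRingEnd ℂ) (b 0 j)‖ ^ 2 ≤
            S x * ∑ j, ‖b 0 j‖ ^ 2 := by
          have h3 : ‖∑ j, C.Xb j v x * (starRingEnd ℂ) (b 0 j)‖ ≤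
              ∑ j, ‖C.Xb j v x‖ * ‖b 0 j‖ := by
            refine (norm_sum_le _ _).trans (le_of_eq ?_)
            refine Finset.sum_congr rfl fun i _ => ?_
            rw [norm_mul, RCLike.norm_conj]
          refine (pow_le_pow_left₀ (norm_nonneg _) h3 2).trans ?_
          rw [hS]
          exact Finset.sum_mul_sq_le_sq_mul_sq _ _ _
        refine h2.trans ?_
        have h4 := hS0 x
        calc S x * ∑ j, ‖b 0 j‖ ^ 2 = 16 * S x * (1 / 16 * ∑ j, ‖b 0 j‖ ^ 2) := by ring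
          _ ≤ 16 * S x * C.Lv (fun y => Real.log (∑ i, ‖F i y‖ ^ 2)) x (b 0) :=
              mul_le_mul_of_nonneg_left h1 (by positivity)
          _ = 16 / M * S x * (M * C.Lv (fun y => Real.log (∑ i, ‖F i y‖ ^ 2)) x (b 0)) := by
              field_simp
      · rw [hSz x (Or.inl hx)]
        simp only [hXb0 x (Or.inl hx), zero_mul, Finset.sum_const_zero, norm_zero, mul_zero]
        norm_num)
  simp only [Fin.sum_univ_one, hexp] at hmain
  -- lower bound of the left side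
  have hint1 : Integrable (fun x => ‖v x‖ ^ 2 * (W x ^ M)⁻¹) μ := by
    refine hcs ((hvc.norm.pow 2).mul hWMc) fun x hx => ?_
    rw [hvK x hx]
    simp
  have h1a : 0 < 1 + a := by linarith
  have hlow : ((1 + a) ^ M)⁻¹ * μ.real U ≤ ∫ x, ‖v x‖ ^ 2 * (W x ^ M)⁻¹ ∂μ := by
    have h1 : ∫ _ in U, ((1 + a) ^ M)⁻¹ ∂μ ≤ ∫ x in U, ‖v x‖ ^ 2 * (W x ^ M)⁻¹ ∂μ := by
      refine setIntegral_mono_on (integrableOn_const hUfin.ne) hint1.integrableOn
        hUo.measurableSet fun x hx => ?_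
      rw [hU] at hx
      have h2 : v x = 1 := by
        rw [hv]
        simp only
        rw [hθU x hx.1, Complex.ofReal_one]
      have h3 : W x < 1 + a := hx.2
      rw [h2, norm_one, one_pow, one_mul]
      apply inv_anti₀ (pow_pos (hWp x) M)
      exact pow_le_pow_left₀ (hWp x).le h3.le M
    have h2 : ∫ x in U, ‖v x‖ ^ 2 * (W x ^ M)⁻¹ ∂μ ≤ ∫ x, ‖v x‖ ^ 2 * (W x ^ M)⁻¹ ∂μ := by
      refine setIntegral_le_integral hint1 (Eventually.of_forall fun x => ?_)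
      show 0 ≤ ‖v x‖ ^ 2 * (W x ^ M)⁻¹
      have := hWp x
      positivity
    rw [setIntegral_const, smul_eq_mul, mul_comm] at h1
    exact h1.trans h2
  -- upper bound of the right side
  have hup : ∫ x, 16 / M * S x * (W x ^ M)⁻¹ ∂μ ≤ 16 / M * |B| * ((1 + a) ^ M)⁻¹ * μ.real K := by
    have h1 : ∫ x in K, 16 / M * S x * (W x ^ M)⁻¹ ∂μ = ∫ x, 16 / M * S x * (W x ^ M)⁻¹ ∂μ := by
      refine setIntegral_eq_integral_of_forall_compl_eq_zero fun x hx => ?_
      rw [hSz x (Or.inl hx)]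
      simp
    rw [← h1]
    refine (le_abs_self _).trans ?_
    rw [← Real.norm_eq_abs]
    refine norm_setIntegral_le_of_norm_le_const hKc.measure_lt_top fun x hx => ?_
    have h2 := hS0 x
    have h3 := hWp x
    rw [Real.norm_of_nonneg (by positivity)]
    by_cases hxU : x ∈ U₁
    · rw [hSz x (Or.inr hxU)]
      simp only [mul_zero, zero_mul]
      positivity
    · have h4 := hB x hx
      rw [Real.norm_of_nonneg h2] at h4
      have h5 := hWK x hx hxU
      have h6 : (W x ^ M)⁻¹ ≤ ((1 + a) ^ M)⁻¹ :=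
        inv_anti₀ (by positivity) (pow_le_pow_left₀ h1a.le h5 M)
      have h7 : S x ≤ |B| := h4.trans (le_abs_self B)
      gcongr
  have hfin := hlow.trans (hmain.trans hup)
  have h8 : μ.real U ≤ 16 / M * |B| * μ.real K := by
    have h9 : 0 < ((1 + a) ^ M)⁻¹ := by positivity
    have h10 : ((1 + a) ^ M)⁻¹ * μ.real U ≤ ((1 + a) ^ M)⁻¹ * (16 / M * |B| * μ.real K) := by
      refine hfin.trans (le_of_eq ?_)
      ring
    exact le_of_mul_le_mul_left h10 h9
  have h11 : M * μ.real U ≤ 16 * |B| * μ.real K := by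
    calc M * μ.real U ≤ M * (16 / M * |B| * μ.real K) := mul_le_mul_of_nonneg_left h8 hM0.le
      _ = 16 * |B| * μ.real K := by
          field_simp
  linarith

/-- the tail of an integrable function -/
theorem ST1_tail {q : G → ℝ} (hq : Integrable q μ) (hq0 : ∀ x, 0 ≤ q x) {V : Set G}
    (hV : IsCompact V) {η : ℝ} (hη : 0 < η) :
    ∃ L : Set G, IsCompact L ∧ ∀ x, x ∉ L → ∫ y in V, q (x * y) ∂μ < η := by
  have h1 : Tendsto (fun i => ∫ a in (compactCovering G i)ᶜ, q a ∂μ) atTop (𝓝 0) := by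
    have h2 := tendsto_setIntegral_of_antitone (μ := μ) (s := fun i => (compactCovering G i)ᶜ)
      (f := q) (fun i => (isCompact_compactCovering G i).isClosed.measurableSet.compl)
      (fun i j hij => compl_subset_compl.2 (compactCovering_subset G hij)) ⟨0, hq.integrableOn⟩
    have h3 : (⋂ i, (compactCovering G i)ᶜ) = ∅ := by
      rw [← compl_iUnion, iUnion_compactCovering, compl_univ]
    rw [h3, Measure.restrict_empty, integral_zero_measure] at h2
    exact h2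
  obtain ⟨i, hi⟩ := (h1.eventually_lt_const hη).exists
  refine ⟨(fun p : G × G => p.1 * p.2⁻¹) '' (compactCovering G i ×ˢ V),
    ((isCompact_compactCovering G i).prod hV).image (continuous_fst.mul continuous_snd.inv),
    fun x hx => ?_⟩
  have hsub : ∀ y ∈ V, x * y ∈ (compactCovering G i)ᶜ := by
    intro y hy hxy
    exact hx ⟨(x * y, y), ⟨hxy, hy⟩, by simp⟩
  have hms : MeasurableSet (compactCovering G i)ᶜ :=
    (isCompact_compactCovering G i).isClosed.measurableSet.compl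
  have h4 : ∫ y in V, q (x * y) ∂μ =
      ∫ y in V, (compactCovering G i)ᶜ.indicator q (x * y) ∂μ := by
    refine setIntegral_congr_fun hV.isClosed.measurableSet fun y hy => ?_
    show q (x * y) = (compactCovering G i)ᶜ.indicator q (x * y)
    rw [indicator_of_mem (hsub y hy)]
  have hint : Integrable ((compactCovering G i)ᶜ.indicator q) μ := hq.indicator hms
  have h5 : ∫ y in V, (compactCovering G i)ᶜ.indicator q (x * y) ∂μ ≤
      ∫ y, (compactCovering G i)ᶜ.indicator q (x * y) ∂μ := by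
    refine setIntegral_le_integral (hint.comp_mul_left x) ?_
    exact Eventually.of_forall fun y => indicator_nonneg (fun z _ => hq0 z) _
  rw [integral_mul_left_eq_self (μ := μ) ((compactCovering G i)ᶜ.indicator q) x,
    integral_indicator hms] at h5
  rw [h4]
  exact h5.trans_lt hi

/-- Decay of a localised function relative to `om`. With a compact neighbourhood `V` of `1`,
`|h x|² ≤ c ∫_V |h(x y)|² dμ(y) ≤ c sup_V W₀(x y) ∫_V |h(xy)|²/W₀(xy) dμ(y)`; the last integral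
tends to `0` at infinity and `W₀(xy) ≤ B om(x)²` for `y ∈ V` (`left_le`). -/
theorem loc_decay {h : Aexp C hl} {W₀ : G → ℝ} (hW : IsWA C hl W₀)
    (hh : C.MemH μ W₀ (h : G → ℂ)) :
    ∃ R : ℝ, 0 ≤ R ∧ ∃ ε : G → ℝ, (∀ x, 0 ≤ ε x) ∧ Tendsto ε (cocompact G) (𝓝 0) ∧
      ∀ x, ‖(h : G → ℂ) x‖ ≤ ε x * om C hl R x := by
  obtain ⟨N, F, hF, hWF, c1, hc1, hWc⟩ := hW
  have hl0 := hl.nonneg
  obtain ⟨V, hVc, hV⟩ := exists_compact_mem_nhds (1 : G)
  obtain ⟨c, hc, hsmv⟩ := C.smv μ hV hVc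
  obtain ⟨l1, hl1⟩ := hl.bdd V hVc
  choose M R hM hR hMR using fun i => (hF i).2
  obtain ⟨R', hR'⟩ : ∃ R', R' = ∑ i, R i := ⟨_, rfl⟩
  have hR0 : 0 ≤ R' := by
    rw [hR']
    exact Finset.sum_nonneg fun i _ => hR i
  have hRi : ∀ i, R i ≤ R' := fun i => by
    rw [hR']
    exact Finset.single_le_sum (f := R) (fun j _ => hR j) (Finset.mem_univ i)
  -- bound of the weight
  obtain ⟨B, hB⟩ : ∃ B, B = ∑ i, (M i * Real.exp (R' * l1)) ^ 2 := ⟨_, rfl⟩
  have hB0 : 0 ≤ B := by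
    rw [hB]
    exact Finset.sum_nonneg fun i _ => by positivity
  have hWb : ∀ x, ∀ y ∈ V, W₀ (x * y) ≤ B * om C hl R' x ^ 2 := by
    intro x y hy
    have ho := one_le_om C μ hl hR0 x
    rw [hWF, hB, Finset.sum_mul]
    refine Finset.sum_le_sum fun i _ => ?_
    rw [← mul_pow]
    refine pow_le_pow_left₀ (norm_nonneg _) ?_ 2
    rcases (hM i).eq_or_lt with h0 | h0
    · have h1 := hMR i (x * y)
      rw [← h0, zero_mul] at h1
      rw [← h0, zero_mul, zero_mul]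
      exact h1
    · have h1 := left_le C μ hl R' hR0 x y (((M i : ℂ)⁻¹ • (⟨F i, hF i⟩ : Aexp C hl)))
        (fun z => by
          have h2 : (((M i : ℂ)⁻¹ • (⟨F i, hF i⟩ : Aexp C hl) : Aexp C hl) : G → ℂ) z =
            (M i : ℂ)⁻¹ * F i z := rfl
          rw [h2, norm_mul, norm_inv, Complex.norm_real, Real.norm_eq_abs, abs_of_pos h0,
            inv_mul_le_iff₀ h0]
          refine (hMR i z).trans ?_
          gcongr
          · exact hl0 z
          · exact hRi i)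
      have h2 : (((M i : ℂ)⁻¹ • (⟨F i, hF i⟩ : Aexp C hl) : Aexp C hl) : G → ℂ) (x * y) =
            (M i : ℂ)⁻¹ * F i (x * y) := rfl
      rw [h2, norm_mul, norm_inv, Complex.norm_real, Real.norm_eq_abs, abs_of_pos h0,
        inv_mul_le_iff₀ h0] at h1
      refine h1.trans ?_
      have h3 : Real.exp (R' * l y) ≤ Real.exp (R' * l1) := by
        apply Real.exp_le_exp.2
        exact mul_le_mul_of_nonneg_left (hl1 y hy) hR0
      have h4 : 0 ≤ om C hl R' x := zero_le_one.trans ho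
      calc M i * (om C hl R' x * Real.exp (R' * l y))
          ≤ M i * (om C hl R' x * Real.exp (R' * l1)) := by gcongr
        _ = M i * Real.exp (R' * l1) * om C hl R' x := by ring
  obtain ⟨δ, hδ⟩ : ∃ δ : G → ℝ, δ = fun x =>
    ∫ y in V, ‖(h : G → ℂ) (x * y)‖ ^ 2 / W₀ (x * y) ∂μ := ⟨_, rfl⟩
  have hW0 : ∀ x, 0 < W₀ x := fun x => hc1.trans_le (hWc x)
  have hδ0 : ∀ x, 0 ≤ δ x := by
    intro x
    rw [hδ]
    refine integral_nonneg fun y => ?_
    have := hW0 (x * y)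
    positivity
  refine ⟨R', hR0, fun x => Real.sqrt (c * B * δ x), fun x => Real.sqrt_nonneg _, ?_, fun x => ?_⟩
  · have h1 : Tendsto (fun x => c * B * δ x) (cocompact G) (𝓝 (c * B * 0)) := by
      refine Tendsto.const_mul _ ?_
      rw [Metric.tendsto_nhds]
      intro η hη
      obtain ⟨L, hL, hLη⟩ := ST1_tail μ hh.2 (fun x => by
        have := hW0 x
        positivity) hVc hη
      filter_upwards [hL.compl_mem_cocompact] with x hx
      rw [Real.dist_eq, sub_zero, abs_of_nonneg (hδ0 x), hδ]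
      exact hLη x hx
    rw [mul_zero] at h1
    have h2 := (Real.continuous_sqrt.tendsto 0).comp h1
    rw [Real.sqrt_zero] at h2
    exact h2
  · have ho := one_le_om C μ hl hR0 x
    have h1 := hsmv (h : G → ℂ) h.2.1 x
    have hcont : Continuous (h : G → ℂ) := C.hol_continuous h.2.1
    have hWcont : Continuous W₀ := by
      have : W₀ = fun x => ∑ i, ‖F i x‖ ^ 2 := funext hWF
      rw [this]
      exact continuous_finsetSum _ fun i _ => ((C.hol_continuous (hF i).1).norm.pow 2)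
    have h2 : ∫ y in V, ‖(h : G → ℂ) (x * y)‖ ^ 2 ∂μ ≤
        ∫ y in V, (B * om C hl R' x ^ 2) *
          (‖(h : G → ℂ) (x * y)‖ ^ 2 / W₀ (x * y)) ∂μ := by
      refine setIntegral_mono_on ?_ ?_ hVc.isClosed.measurableSet fun y hy => ?_
      · exact (((hcont.comp (continuous_const.mul continuous_id)).norm.pow 2).continuousOn).integrableOn_compact hVc
      · refine (Continuous.continuousOn ?_).integrableOn_compact hVc
        refine continuous_const.mul (Continuous.div ?_ ?_ fun y => (hW0 _).ne')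
        · exact (hcont.comp (continuous_const.mul continuous_id)).norm.pow 2
        · exact hWcont.comp (continuous_const.mul continuous_id)
      · have h3 := hWb x y hy
        have h4 := hW0 (x * y)
        rw [mul_div_assoc', le_div_iff₀ h4]
        calc ‖(h : G → ℂ) (x * y)‖ ^ 2 * W₀ (x * y)
            ≤ ‖(h : G → ℂ) (x * y)‖ ^ 2 * (B * om C hl R' x ^ 2) := by gcongr
          _ = B * om C hl R' x ^ 2 * ‖(h : G → ℂ) (x * y)‖ ^ 2 := mul_comm _ _
    rw [integral_const_mul] at h2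
    have h5 : ‖(h : G → ℂ) x‖ ^ 2 ≤ (Real.sqrt (c * B * δ x) * om C hl R' x) ^ 2 := by
      rw [mul_pow, Real.sq_sqrt (by have := hδ0 x; positivity)]
      calc ‖(h : G → ℂ) x‖ ^ 2 ≤ c * ∫ y in V, ‖(h : G → ℂ) (x * y)‖ ^ 2 ∂μ := h1
        _ ≤ c * (B * om C hl R' x ^ 2 *
            ∫ y in V, ‖(h : G → ℂ) (x * y)‖ ^ 2 / W₀ (x * y) ∂μ) := by gcongr
        _ = c * B * δ x * om C hl R' x ^ 2 := by
            rw [hδ]
            ring
    refine (pow_le_pow_iff_left₀ (norm_nonneg _) ?_ two_ne_zero).1 h5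
    exact mul_nonneg (Real.sqrt_nonneg _) (zero_le_one.trans ho)

/-- left translates: `W₀ (a x)` is again such a weight for `h (a x)` (left invariance of `μ`) -/
theorem loc_left {h : Aexp C hl} {W₀ : G → ℝ} (hh : C.MemH μ W₀ (h : G → ℂ)) (a : G) :
    C.MemH μ (fun x => W₀ (a * x)) (Lt C hl a h : G → ℂ) := by
  exact ⟨(Lt C hl a h).2.1, hh.2.comp_mul_left a⟩

end HR
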