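import Pool.Agent.W_06f097_h43.Defs

/-! MP_06f097_an blueprint, block LE: word length of a compactly generated group. -/

open scoped Topology ContDiff Pointwise ENNReal
open MeasureTheory Set Filter Metric

noncomputable section

namespace HR

variable {G : Type*} [Group G] [TopologicalSpace G] [IsTopologicalGroup G] [T2Space G]
  [LocallyCompactSpace G] [SecondCountableTopology G] [MeasurableSpace G] [BorelSpace G]
  (μ : Measure G) [μ.IsHaarMeasure]

omit [Group G] [IsTopologicalGroup G] [T2Space G] [LocallyCompactSpace G]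
  [SecondCountableTopology G] [MeasurableSpace G] [BorelSpace G] in
private theorem LE1_bdd {w : G → ℝ} (hloc : ∀ x, ∃ U ∈ 𝓝 x, ∃ M : ℝ, ∀ y ∈ U, w y ≤ M)
    {S : Set G} (hS : IsCompact S) : ∃ B, ∀ y ∈ S, w y ≤ B := by
  refine hS.induction_on (p := fun s => ∃ B, ∀ y ∈ s, w y ≤ B) ⟨0, by simp⟩ ?_ ?_ ?_
  · rintro s t hst ⟨B, hB⟩
    exact ⟨B, fun y hy => hB y (hst hy)⟩
  · rintro s t ⟨B, hB⟩ ⟨B', hB'⟩
    exact ⟨max B B', fun y hy => hy.elim (fun h => (hB y h).trans (le_max_left _ _))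
      (fun h => (hB' y h).trans (le_max_right _ _))⟩
  · intro x _
    obtain ⟨U, hU, M, hM⟩ := hloc x
    exact ⟨U, mem_nhdsWithin_of_mem_nhds hU, M, hM⟩

omit [T2Space G] [SecondCountableTopology G] [MeasurableSpace G] [BorelSpace G] in
/-- the compact symmetric neighbourhood -/
private theorem LE1_S {K : Set G} (hK : IsCompact K) : ∃ S : Set G, IsCompact S ∧ K ⊆ S ∧
    S⁻¹ = S ∧ (1 : G) ∈ interior S := by
  obtain ⟨L, hL, hL1⟩ := exists_compact_mem_nhds (1 : G)
  refine ⟨(K ∪ L) ∪ (K ∪ L)⁻¹, (hK.union hL).union (hK.union hL).inv, ?_, ?_, ?_⟩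
  · exact fun x hx => Or.inl (Or.inl hx)
  · rw [Set.union_inv, inv_inv, Set.union_comm]
  · rw [mem_interior_iff_mem_nhds]
    exact mem_of_superset hL1 fun x hx => Or.inl (Or.inr hx)

omit [T2Space G] [LocallyCompactSpace G] [SecondCountableTopology G] [MeasurableSpace G]
  [BorelSpace G] in
private theorem LE1_pow_compact {S : Set G} (hS : IsCompact S) (k : ℕ) : IsCompact (S ^ k) := by
  induction k with
  | zero =>
    rw [pow_zero]
    exact isCompact_singleton
  | succ k ih =>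
    rw [pow_succ]
    exact ih.mul hS

omit [TopologicalSpace G] [IsTopologicalGroup G] [T2Space G] [LocallyCompactSpace G]
  [SecondCountableTopology G] [MeasurableSpace G] [BorelSpace G] in
private theorem LE1_exhaust {S K : Set G} (hKS : K ⊆ S) (hS : S⁻¹ = S)
    (hgen : Subgroup.closure K = ⊤) (x : G) : ∃ k : ℕ, x ∈ S ^ k := by
  have hx : x ∈ Subgroup.closure K := by
    rw [hgen]
    exact Subgroup.mem_top x
  induction hx using Subgroup.closure_induction with
  | mem y hy => exact ⟨1, by rw [pow_one]; exact hKS hy⟩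
  | one => exact ⟨0, by rw [pow_zero]; exact Set.mem_one.2 rfl⟩
  | mul y z _ _ hy hz =>
    obtain ⟨a, ha⟩ := hy
    obtain ⟨b, hb⟩ := hz
    exact ⟨a + b, by rw [pow_add]; exact Set.mul_mem_mul ha hb⟩
  | inv y _ hy =>
    obtain ⟨a, ha⟩ := hy
    refine ⟨a, ?_⟩
    rw [← hS, inv_pow, Set.mem_inv, inv_inv]
    exact ha

/-- growth of the powers -/
private theorem LE1_growth {S : Set G} (hS : IsCompact S) (h1 : (1 : G) ∈ interior S) :
    ∃ m : ℕ, ∀ k : ℕ, μ (S ^ k) ≤ (m : ℝ≥0∞) ^ k * μ S := by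
  obtain ⟨t, ht⟩ := compact_covered_by_mul_left_translates (hS.mul hS) ⟨1, h1⟩
  have h1S : (1 : G) ∈ S := interior_subset h1
  have hstep : ∀ k, μ (S ^ (k + 2)) ≤ t.card * μ (S ^ (k + 1)) := by
    intro k
    have hsub : S ^ (k + 2) ⊆ ⋃ g ∈ t, (fun h => g * h) ⁻¹' (S ^ (k + 1)) := by
      intro x hx
      rw [show k + 2 = 2 + k by omega, pow_add, pow_two] at hx
      obtain ⟨s, hs, u, hu, rfl⟩ := Set.mem_mul.1 hx
      obtain ⟨g, hg, hgs⟩ := Set.mem_iUnion₂.1 (ht hs)
      refine Set.mem_iUnion₂.2 ⟨g, hg, ?_⟩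
      rw [Set.mem_preimage, ← mul_assoc, pow_succ']
      exact Set.mul_mem_mul hgs hu
    calc μ (S ^ (k + 2)) ≤ μ (⋃ g ∈ t, (fun h => g * h) ⁻¹' (S ^ (k + 1))) := measure_mono hsub
      _ ≤ ∑ g ∈ t, μ ((fun h => g * h) ⁻¹' (S ^ (k + 1))) := measure_biUnion_finset_le _ _
      _ = t.card * μ (S ^ (k + 1)) := by
        simp only [measure_preimage_mul, Finset.sum_const, nsmul_eq_mul]
  have hpow : ∀ k, μ (S ^ (k + 1)) ≤ (t.card : ℝ≥0∞) ^ k * μ S := by
    intro k
    induction k with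
    | zero => simp
    | succ k ih =>
      calc μ (S ^ (k + 1 + 1)) ≤ t.card * μ (S ^ (k + 1)) := hstep k
        _ ≤ t.card * ((t.card : ℝ≥0∞) ^ k * μ S) := by gcongr
        _ = (t.card : ℝ≥0∞) ^ (k + 1) * μ S := by rw [pow_succ]; ring
  exact ⟨t.card, fun k => (measure_mono (Set.pow_subset_pow_right h1S (Nat.le_succ k))).trans
    (hpow k)⟩

/-- Proof. `S` = a compact symmetric neighbourhood of `1` containing the generating compact set;
`l x = min {k : x ∈ S^k}` (`l 1 = 0`), every `x` is in some `S^k` (the union is an open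
subgroup containing a generating set). `{l ≤ k} = ⋃_{i ≤ k} S^i` is compact; `l` is bounded on compact
sets because `l x ≤ k` on the interior of `S^k`, which exhaust `G`. `S * S` is covered by finitely
many left translates `y_1 S, .., y_m S`, so `μ (S^k) ≤ m^k μ S` and `exp (-c₀ l)` is integrable for
large `c₀`. For a locally bounded submultiplicative weight `w ≥ 0`, `w ≤ B` on `S` with `B ≥ 1`,
`w x ≤ max (w 1) B * B ^ (l x)`. -/
theorem exists_len {K : Set G} (hK : IsCompact K) (hgen : Subgroup.closure K = ⊤) :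
    ∃ l : G → ℝ, Len μ l ∧ ∀ w : G → ℝ, (∀ x, 0 ≤ w x) → (∀ x y, w (x * y) ≤ w x * w y) →
      (∀ x, ∃ U ∈ 𝓝 x, ∃ M : ℝ, ∀ y ∈ U, w y ≤ M) →
      ∃ M R : ℝ, 0 ≤ M ∧ 0 ≤ R ∧ ∀ x, w x ≤ M * Real.exp (R * l x) := by
  classical
  obtain ⟨S, hSc, hKS, hSi, h1i⟩ := LE1_S hK
  have h1S : (1 : G) ∈ S := interior_subset h1i
  have hex : ∀ x, ∃ k : ℕ, x ∈ S ^ k := LE1_exhaust hKS hSi hgen
  set ln : G → ℕ := fun x => Nat.find (hex x) with hln
  have hmono : ∀ {m k : ℕ}, m ≤ k → S ^ m ⊆ S ^ k := fun h => Set.pow_subset_pow_right h1S h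
  have hmem : ∀ x, x ∈ S ^ ln x := fun x => Nat.find_spec (hex x)
  have hle : ∀ x k, ln x ≤ k ↔ x ∈ S ^ k := by
    intro x k
    constructor
    · exact fun h => hmono h (hmem x)
    · exact fun h => Nat.find_min' (hex x) h
  have hcl : ∀ k, MeasurableSet (S ^ k) := fun k => (LE1_pow_compact hSc k).measurableSet
  have hmeas : Measurable ln := by
    refine measurable_of_Iic fun k => ?_
    have h2 : ln ⁻¹' Iic k = S ^ k := by
      ext x
      exact hle x k
    rw [h2]
    exact hcl k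
  refine ⟨fun x => (ln x : ℝ), ⟨fun x => Nat.cast_nonneg _, ?_, ?_, ?_, ?_, ?_, ?_⟩, ?_⟩
  · intro x y
    have h2 : ln (x * y) ≤ ln x + ln y := by
      rw [hle, pow_add]
      exact Set.mul_mem_mul (hmem x) (hmem y)
    exact_mod_cast h2
  · have h2 : ∀ x, ln x⁻¹ ≤ ln x := by
      intro x
      rw [hle]
      have h3 := hmem x
      rw [← hSi, inv_pow, Set.mem_inv, inv_inv]
      exact h3
    intro x
    have h3 : ln x⁻¹ = ln x := by
      apply le_antisymm (h2 x)
      have h4 := h2 x⁻¹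
      rwa [inv_inv] at h4
    show ((ln x⁻¹ : ℕ) : ℝ) = (ln x : ℝ)
    rw [h3]
  · exact measurable_from_nat.comp hmeas
  · intro R
    refine ⟨S ^ ⌊R⌋₊, LE1_pow_compact hSc _, fun x hx => ?_⟩
    rw [← hle]
    exact Nat.le_floor hx
  · intro K' hK'
    have hcov : K' ⊆ ⋃ k : ℕ, interior (S ^ k) := by
      intro x _
      refine Set.mem_iUnion.2 ⟨ln x + 1, ?_⟩
      rw [mem_interior]
      refine ⟨(fun y => x * y) '' interior S, ?_, ?_, ?_⟩
      · rintro _ ⟨y, hy, rfl⟩
        rw [pow_succ]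
        exact Set.mul_mem_mul (hmem x) (interior_subset hy)
      · exact isOpenMap_mul_left x _ isOpen_interior
      · exact ⟨1, h1i, mul_one x⟩
    obtain ⟨k, hk⟩ := hK'.elim_directed_cover _ (fun k => isOpen_interior) hcov
      (directed_of_isDirected_le fun a b hab => interior_mono (hmono hab))
    refine ⟨k, fun x hx => ?_⟩
    have h2 : ln x ≤ k := (hle x k).2 (interior_subset (hk hx))
    exact_mod_cast h2
  · obtain ⟨m, hm⟩ := LE1_growth μ hSc h1i
    set q : ℝ := 2 * (m + 1) with hq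
    have hq0 : 0 < q := by rw [hq]; positivity
    have hq1 : 1 ≤ q := by
      have : (0 : ℝ) ≤ m := Nat.cast_nonneg m
      rw [hq]
      linarith
    refine ⟨Real.log q, Real.log_nonneg hq1, ?_⟩
    have hval : ∀ x, Real.exp (-(Real.log q * (ln x : ℝ))) = (1 / q) ^ ln x := by
      intro x
      rw [Real.exp_neg, mul_comm, Real.exp_nat_mul, Real.exp_log hq0, one_div, inv_pow]
    have hr : ENNReal.ofReal (1 / q) * m ≤ 1 / 2 := by
      have h2 : (m : ℝ≥0∞) = ENNReal.ofReal (m : ℝ) := by simp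
      rw [h2, ← ENNReal.ofReal_mul (by positivity)]
      have h3 : (1 / 2 : ℝ≥0∞) = ENNReal.ofReal (1 / 2) := by
        rw [ENNReal.ofReal_div_of_pos two_pos]
        simp
      rw [h3]
      apply ENNReal.ofReal_le_ofReal
      rw [hq]
      have : (0 : ℝ) ≤ m := Nat.cast_nonneg m
      rw [one_div, inv_mul_le_iff₀ (by positivity)]
      linarith
    refine ⟨?_, ?_⟩
    · have h2 : Measurable fun x => Real.exp (-(Real.log q * (ln x : ℝ))) := by
        have h3 : Measurable fun x => (ln x : ℝ) := measurable_from_nat.comp hmeas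
        fun_prop
      exact h2.aestronglyMeasurable
    · rw [hasFiniteIntegral_iff_ofReal (Eventually.of_forall fun x => (Real.exp_pos _).le)]
      have h2 : ∀ x, ENNReal.ofReal (Real.exp (-(Real.log q * (ln x : ℝ)))) ≤
          ∑' k : ℕ, (S ^ k).indicator (fun _ => ENNReal.ofReal (1 / q) ^ k) x := by
        intro x
        have h3 := ENNReal.le_tsum (f := fun k : ℕ =>
          (S ^ k).indicator (fun _ : G => ENNReal.ofReal (1 / q) ^ k) x) (ln x)
        refine le_trans (le_of_eq ?_) h3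
        rw [hval]
        show _ = (S ^ ln x).indicator (fun _ : G => ENNReal.ofReal (1 / q) ^ ln x) x
        rw [Set.indicator_of_mem (hmem x), ENNReal.ofReal_pow (by positivity)]
      have hfin : ∑' k : ℕ, ENNReal.ofReal (1 / q) ^ k * μ (S ^ k) < (⊤ : ℝ≥0∞) := by
        have h4 : ∀ k : ℕ, ENNReal.ofReal (1 / q) ^ k * μ (S ^ k) ≤ (1 / 2) ^ k * μ S := by
          intro k
          calc ENNReal.ofReal (1 / q) ^ k * μ (S ^ k) ≤
                ENNReal.ofReal (1 / q) ^ k * ((m : ℝ≥0∞) ^ k * μ S) := by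
                gcongr
                exact hm k
            _ = (ENNReal.ofReal (1 / q) * m) ^ k * μ S := by rw [mul_pow, mul_assoc]
            _ ≤ (1 / 2) ^ k * μ S := by gcongr
        refine (ENNReal.tsum_le_tsum h4).trans_lt ?_
        rw [ENNReal.tsum_mul_right, ENNReal.tsum_geometric]
        refine ENNReal.mul_lt_top ?_ hSc.measure_lt_top
        rw [ENNReal.inv_lt_top]
        simp
      calc ∫⁻ x, ENNReal.ofReal (Real.exp (-(Real.log q * (ln x : ℝ)))) ∂μ ≤
            ∫⁻ x, ∑' k : ℕ, (S ^ k).indicator (fun _ => ENNReal.ofReal (1 / q) ^ k) x ∂μ :=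
            lintegral_mono h2
        _ = ∑' k : ℕ, ∫⁻ x, (S ^ k).indicator (fun _ => ENNReal.ofReal (1 / q) ^ k) x ∂μ :=
            lintegral_tsum fun k => (measurable_const.indicator (hcl k)).aemeasurable
        _ = ∑' k : ℕ, ENNReal.ofReal (1 / q) ^ k * μ (S ^ k) := by
            refine tsum_congr fun k => ?_
            rw [lintegral_indicator_const (hcl k)]
        _ < (⊤ : ℝ≥0∞) := hfin
  · intro w hw0 hwm hwl
    obtain ⟨B0, hB0⟩ := LE1_bdd hwl hSc
    set B := max 1 B0 with hB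
    have hB1 : 1 ≤ B := le_max_left _ _
    have hBS : ∀ y ∈ S, w y ≤ B := fun y hy => (hB0 y hy).trans (le_max_right _ _)
    set A := max (w 1) 1 with hA
    have hA0 : 0 ≤ A := zero_le_one.trans (le_max_right _ _)
    have key : ∀ k : ℕ, ∀ x ∈ S ^ k, w x ≤ A * B ^ k := by
      intro k
      induction k with
      | zero =>
        intro x hx
        rw [pow_zero, Set.mem_one] at hx
        rw [hx, pow_zero, mul_one]
        exact le_max_left _ _
      | succ k ih =>
        intro x hx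
        rw [pow_succ] at hx
        obtain ⟨y, hy, z, hz, rfl⟩ := Set.mem_mul.1 hx
        calc w (y * z) ≤ w y * w z := hwm y z
          _ ≤ (A * B ^ k) * B := mul_le_mul (ih y hy) (hBS z hz) (hw0 z)
            (mul_nonneg hA0 (by positivity))
          _ = A * B ^ (k + 1) := by ring
    refine ⟨A, Real.log B, hA0, Real.log_nonneg hB1, fun x => ?_⟩
    have h2 := key (ln x) x (hmem x)
    have h3 : Real.exp (Real.log B * (ln x : ℝ)) = B ^ ln x := by
      rw [mul_comm, Real.exp_nat_mul, Real.exp_log (by linarith)]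
    show w x ≤ A * Real.exp (Real.log B * (ln x : ℝ))
    rw [h3]
    exact h2

/-- conversely `M exp (R l)` with `M ≥ 1`, `R ≥ 0` is a weight -/
theorem len_weight {l : G → ℝ} (hl : Len μ l) {M R : ℝ} (hM : 1 ≤ M) (hR : 0 ≤ R) :
    (∀ x, 0 ≤ M * Real.exp (R * l x)) ∧
    (∀ x y, M * Real.exp (R * l (x * y)) ≤ (M * Real.exp (R * l x)) * (M * Real.exp (R * l y))) ∧
    ∀ x, ∃ U ∈ 𝓝 x, ∃ B : ℝ, ∀ y ∈ U, M * Real.exp (R * l y) ≤ B := by
  have hM0 : 0 ≤ M := zero_le_one.trans hM
  refine ⟨fun x => mul_nonneg hM0 (Real.exp_pos _).le, ?_, ?_⟩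
  · intro x y
    have h1 : Real.exp (R * l (x * y)) ≤ Real.exp (R * l x) * Real.exp (R * l y) := by
      rw [← Real.exp_add]
      apply Real.exp_le_exp.2
      have h2 := mul_le_mul_of_nonneg_left (hl.mul x y) hR
      linarith
    have h3 : 0 ≤ Real.exp (R * l x) * Real.exp (R * l y) := by positivity
    calc M * Real.exp (R * l (x * y)) ≤ M * (Real.exp (R * l x) * Real.exp (R * l y)) :=
          mul_le_mul_of_nonneg_left h1 hM0
      _ ≤ M * (M * (Real.exp (R * l x) * Real.exp (R * l y))) := by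
        apply mul_le_mul_of_nonneg_left _ hM0
        nlinarith
      _ = (M * Real.exp (R * l x)) * (M * Real.exp (R * l y)) := by ring
  · intro x
    obtain ⟨U, hU, hUx⟩ := exists_compact_mem_nhds x
    obtain ⟨B, hB⟩ := hl.bdd U hU
    refine ⟨U, hUx, M * Real.exp (R * B), fun y hy => ?_⟩
    apply mul_le_mul_of_nonneg_left _ hM0
    apply Real.exp_le_exp.2
    exact mul_le_mul_of_nonneg_left (hB y hy) hR

end HR
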