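import Pool.Agent.W_06f097_h43.Alg
import Pool.Agent.W_06f097_h43.ME2

/-! MP_06f097_an blueprint, block HP: Hilbert spaces of holomorphic functions. -/

open scoped Topology ContDiff
open MeasureTheory Set Filter Metric

noncomputable section

namespace HR

namespace CLG

variable {n : ℕ} {G : Type*} [Group G] [TopologicalSpace G] [IsTopologicalGroup G] [T2Space G]
  [LocallyCompactSpace G] [SecondCountableTopology G] [MeasurableSpace G] [BorelSpace G]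
  (C : CLG n G) (μ : Measure G) [μ.IsHaarMeasure]

section HP1_aux

variable {W : G → ℝ}

/-- the measure with density `1 / W` -/
def HP1_nu (μ : Measure G) (W : G → ℝ) : Measure G :=
  μ.withDensity (fun x => ENNReal.ofReal (W x)⁻¹)

theorem HP1_meas (hW : AdmW W) : Measurable (fun x => ENNReal.ofReal (W x)⁻¹) :=
  hW.meas.inv.ennreal_ofReal

theorem HP1_toReal (hW : AdmW W) (x : G) : (ENNReal.ofReal (W x)⁻¹).toReal = (W x)⁻¹ :=
  ENNReal.toReal_ofReal (inv_nonneg.2 (hW.pos x).le)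

theorem HP1_int_iff {E : Type*} [NormedAddCommGroup E] [NormedSpace ℝ E] (hW : AdmW W)
    (g : G → E) : Integrable g (HP1_nu μ W) ↔ Integrable (fun x => (W x)⁻¹ • g x) μ := by
  unfold HP1_nu
  rw [integrable_withDensity_iff_integrable_smul' (HP1_meas hW)
    (Eventually.of_forall fun x => ENNReal.ofReal_lt_top)]
  simp only [HP1_toReal hW]

theorem HP1_integral {E : Type*} [NormedAddCommGroup E] [NormedSpace ℝ E] (hW : AdmW W)
    (g : G → E) : ∫ x, g x ∂(HP1_nu μ W) = ∫ x, (W x)⁻¹ • g x ∂μ := by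
  unfold HP1_nu
  rw [integral_withDensity_eq_integral_toReal_smul (HP1_meas hW)
    (Eventually.of_forall fun x => ENNReal.ofReal_lt_top)]
  simp only [HP1_toReal hW]

theorem HP1_ac : HP1_nu μ W ≪ μ := withDensity_absolutelyContinuous _ _

theorem HP1_ac' (hW : AdmW W) : μ ≪ HP1_nu μ W :=
  withDensity_absolutelyContinuous' (HP1_meas hW).aemeasurable
    (Eventually.of_forall fun x => by
      rw [ne_eq, ENNReal.ofReal_eq_zero, not_le]
      exact inv_pos.2 (hW.pos x))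

theorem HP1_memLp_iff (hW : AdmW W) {f : G → ℂ} (hf : AEStronglyMeasurable f μ) :
    MemLp f 2 (HP1_nu μ W) ↔ Integrable (fun x => ‖f x‖ ^ 2 / W x) μ := by
  rw [memLp_two_iff_integrable_sq_norm (hf.mono_ac (HP1_ac μ)), HP1_int_iff μ hW]
  refine integrable_congr (Eventually.of_forall fun x => ?_)
  simp only [smul_eq_mul]
  ring

theorem HP1_nH (hW : AdmW W) (f : G → ℂ) : nH μ W f = ∫ x, ‖f x‖ ^ 2 ∂(HP1_nu μ W) := by
  rw [HP1_integral μ hW, nH]
  refine integral_congr_ae (Eventually.of_forall fun x => ?_)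
  simp only [smul_eq_mul]
  ring

theorem HP1_nH_nonneg (hW : AdmW W) (f : G → ℂ) : 0 ≤ nH μ W f :=
  integral_nonneg fun x => div_nonneg (sq_nonneg _) (hW.pos x).le

theorem HP1_inner (hW : AdmW W) {f g : G → ℂ} (hf : MemLp f 2 (HP1_nu μ W))
    (hg : MemLp g 2 (HP1_nu μ W)) :
    inner ℂ (hg.toLp g) (hf.toLp f) = ∫ x, f x * (starRingEnd ℂ) (g x) / (W x : ℂ) ∂μ := by
  rw [MeasureTheory.L2.inner_def]
  have h1 : ∫ a, inner ℂ ((hg.toLp g) a) ((hf.toLp f) a) ∂(HP1_nu μ W) =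
      ∫ a, f a * (starRingEnd ℂ) (g a) ∂(HP1_nu μ W) := by
    refine integral_congr_ae ?_
    filter_upwards [hg.coeFn_toLp, hf.coeFn_toLp] with a h1 h2
    rw [h1, h2, RCLike.inner_apply]
  rw [h1, HP1_integral μ hW]
  refine integral_congr_ae (Eventually.of_forall fun x => ?_)
  simp only [Complex.real_smul, Complex.ofReal_inv]
  ring

theorem HP1_norm (hW : AdmW W) {f : G → ℂ} (hf : MemLp f 2 (HP1_nu μ W)) :
    ‖hf.toLp f‖ ^ 2 = nH μ W f := by
  have h1 := HP1_inner μ hW hf hf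
  have h2 : (inner ℂ (hf.toLp f) (hf.toLp f) : ℂ) = ((‖hf.toLp f‖ ^ 2 : ℝ) : ℂ) := by
    rw [inner_self_eq_norm_sq_to_K]
    push_cast
    rfl
  rw [h2] at h1
  have h3 : ∫ x, f x * (starRingEnd ℂ) (f x) / (W x : ℂ) ∂μ =
      ((∫ x, ‖f x‖ ^ 2 / W x ∂μ : ℝ) : ℂ) := by
    refine Eq.trans ?_ (integral_ofReal (𝕜 := ℂ) (f := fun x => ‖f x‖ ^ 2 / W x) (μ := μ))
    refine integral_congr_ae (Eventually.of_forall fun x => ?_)
    simp only [Complex.mul_conj, Complex.normSq_eq_norm_sq]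
    push_cast
    rfl
  rw [h3] at h1
  exact_mod_cast h1

theorem HP1_eLp (hW : AdmW W) {f : G → ℂ} (hf : MemLp f 2 (HP1_nu μ W)) :
    eLpNorm f 2 (HP1_nu μ W) = ENNReal.ofReal (Real.sqrt (nH μ W f)) := by
  rw [← HP1_norm μ hW hf, Real.sqrt_sq (norm_nonneg _), Lp.norm_toLp,
    ENNReal.ofReal_toReal hf.eLpNorm_ne_top]

theorem HP1_ms {f : G → ℂ} (hf : C.Hol f) : AEStronglyMeasurable f μ :=
  (C.hol_continuous hf).aestronglyMeasurable

theorem HP1_mem (hW : AdmW W) {f : G → ℂ} (hf : C.MemH μ W f) : MemLp f 2 (HP1_nu μ W) :=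
  (HP1_memLp_iff μ hW (C.HP1_ms μ hf.1)).2 hf.2

theorem HP1_mem' (hW : AdmW W) {f : G → ℂ} (hf : C.Hol f) (h : MemLp f 2 (HP1_nu μ W)) :
    C.MemH μ W f :=
  ⟨hf, (HP1_memLp_iff μ hW (C.HP1_ms μ hf)).1 h⟩

end HP1_aux

theorem memH_add {W : G → ℝ} (hW : AdmW W) {f g : G → ℂ} (hf : C.MemH μ W f)
    (hg : C.MemH μ W g) : C.MemH μ W (fun x => f x + g x) :=
  C.HP1_mem' μ hW (C.hol_add hf.1 hg.1) ((C.HP1_mem μ hW hf).add (C.HP1_mem μ hW hg))

theorem memH_sub {W : G → ℝ} (hW : AdmW W) {f g : G → ℂ} (hf : C.MemH μ W f)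
    (hg : C.MemH μ W g) : C.MemH μ W (fun x => f x - g x) :=
  C.HP1_mem' μ hW (C.hol_sub hf.1 hg.1) ((C.HP1_mem μ hW hf).sub (C.HP1_mem μ hW hg))

theorem memH_smul {W : G → ℝ} (hW : AdmW W) {f : G → ℂ} (hf : C.MemH μ W f) (t : ℂ) :
    C.MemH μ W (fun x => t * f x) :=
  C.HP1_mem' μ hW (C.hol_mul (C.hol_const t) hf.1) ((C.HP1_mem μ hW hf).const_mul t)

/-- products of two square integrable functions are integrable -/
theorem memH_inner {W : G → ℝ} (hW : AdmW W) {f g : G → ℂ} (hfm : AEStronglyMeasurable f μ)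
    (hgm : AEStronglyMeasurable g μ) (hf : Integrable (fun x => ‖f x‖ ^ 2 / W x) μ)
    (hg : Integrable (fun x => ‖g x‖ ^ 2 / W x) μ) :
    Integrable (fun x => f x * (starRingEnd ℂ) (g x) / (W x : ℂ)) μ := by
  have hWm : AEStronglyMeasurable (fun x => (W x : ℂ)) μ :=
    (Complex.continuous_ofReal.measurable.comp hW.meas).aestronglyMeasurable
  refine (hf.add hg).mono' ?_ (Eventually.of_forall fun x => ?_)
  · have hgc : AEStronglyMeasurable (fun x => (starRingEnd ℂ) (g x)) μ :=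
      Complex.continuous_conj.comp_aestronglyMeasurable hgm
    exact ((hfm.mul hgc).aemeasurable.div hWm.aemeasurable).aestronglyMeasurable
  · have hw := hW.pos x
    rw [norm_div, norm_mul, RCLike.norm_conj, Complex.norm_real, Real.norm_of_nonneg hw.le,
      Pi.add_apply, ← add_div]
    gcongr
    nlinarith [sq_nonneg (‖f x‖ - ‖g x‖), sq_nonneg ‖f x‖, sq_nonneg ‖g x‖, norm_nonneg (f x),
      norm_nonneg (g x)]

open scoped Pointwise in
/-- evaluation is bounded, uniformly on compact sets (`smv`) -/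
theorem memH_eval {W : G → ℝ} (hW : AdmW W) {K : Set G} (hK : IsCompact K) :
    ∃ c : ℝ, 0 < c ∧ ∀ g, C.MemH μ W g → ∀ x ∈ K, ‖g x‖ ^ 2 ≤ c * nH μ W g := by
  obtain ⟨V, hVc, hV⟩ := exists_compact_mem_nhds (1 : G)
  obtain ⟨c, hc, hs⟩ := C.smv μ hV hVc
  obtain ⟨c', hc', hb⟩ := hW.bd (K * V) (hK.mul hVc)
  refine ⟨c * (1 / c'), by positivity, fun g hg x hx => ?_⟩
  have hgc := C.hol_continuous hg.1
  have h1 : ∫ y in V, ‖g (x * y)‖ ^ 2 ∂μ ≤ ∫ y in V, (1 / c') * (‖g (x * y)‖ ^ 2 / W (x * y)) ∂μ := by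
    refine setIntegral_mono_on ?_ ?_ hVc.measurableSet fun y hy => ?_
    · have h2 : Continuous fun y => ‖g (x * y)‖ ^ 2 := by fun_prop
      exact h2.continuousOn.integrableOn_compact hVc
    · exact ((hg.2.comp_mul_left x).const_mul (1 / c')).integrableOn
    · have h2 := (hb (x * y) (Set.mul_mem_mul hx hy)).2
      have h3 := hW.pos (x * y)
      rw [← mul_div_assoc, le_div_iff₀ h3, mul_comm (1 / c')]
      exact mul_le_mul_of_nonneg_left h2 (sq_nonneg _)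
  have h4 : ∫ y in V, (1 / c') * (‖g (x * y)‖ ^ 2 / W (x * y)) ∂μ ≤
      ∫ y, (1 / c') * (‖g (x * y)‖ ^ 2 / W (x * y)) ∂μ := by
    refine setIntegral_le_integral ((hg.2.comp_mul_left x).const_mul (1 / c'))
      (Eventually.of_forall fun y => ?_)
    have h3 := hW.pos (x * y)
    show 0 ≤ (1 / c') * (‖g (x * y)‖ ^ 2 / W (x * y))
    positivity
  have h5 : ∫ y, (1 / c') * (‖g (x * y)‖ ^ 2 / W (x * y)) ∂μ = (1 / c') * nH μ W g := by
    rw [integral_const_mul, integral_mul_left_eq_self (fun y => ‖g y‖ ^ 2 / W y) x]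
    rfl
  calc ‖g x‖ ^ 2 ≤ c * ∫ y in V, ‖g (x * y)‖ ^ 2 ∂μ := hs g hg.1 x
    _ ≤ c * ((1 / c') * nH μ W g) := by
        refine mul_le_mul_of_nonneg_left ?_ hc.le
        exact h1.trans (h4.trans h5.le)
    _ = c * (1 / c') * nH μ W g := by ring

/-- completeness -/
theorem memH_complete {W : G → ℝ} (hW : AdmW W) {u : ℕ → G → ℂ} (hu : ∀ k, C.MemH μ W (u k))
    (hC : ∀ ε : ℝ, 0 < ε → ∃ N, ∀ k, N ≤ k → ∀ m, N ≤ m → nH μ W (fun x => u k x - u m x) < ε) :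
    ∃ g, C.MemH μ W g ∧ Tendsto (fun k => nH μ W (fun x => u k x - g x)) atTop (𝓝 0) ∧
      ∀ K : Set G, IsCompact K → TendstoUniformlyOn u g atTop K := by
  have hcau : ∀ K : Set G, IsCompact K → UniformCauchySeqOn u atTop K := by
    intro K hK
    rw [Metric.uniformCauchySeqOn_iff]
    intro ε hε
    obtain ⟨c, hc, he⟩ := C.memH_eval μ hW hK
    obtain ⟨N, hN⟩ := hC (ε ^ 2 / c) (by positivity)
    refine ⟨N, fun m hm k hk x hx => ?_⟩
    have h1 := he _ (C.memH_sub μ hW (hu m) (hu k)) x hx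
    have h2 := hN m hm k hk
    rw [lt_div_iff₀ hc, mul_comm] at h2
    have h3 := h1.trans_lt h2
    rw [dist_eq_norm]
    exact lt_of_pow_lt_pow_left₀ 2 hε.le h3
  have hpt : ∀ x, ∃ y, Tendsto (fun k => u k x) atTop (𝓝 y) := by
    intro x
    refine cauchySeq_tendsto_of_complete ?_
    exact UniformCauchySeqOn.cauchySeq (hcau {x} isCompact_singleton) (mem_singleton x)
  choose g hg using hpt
  have hunif : ∀ K : Set G, IsCompact K → TendstoUniformlyOn u g atTop K := fun K hK =>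
    (hcau K hK).tendstoUniformlyOn_of_tendsto fun x _ => hg x
  have hgh : C.Hol g := C.hol_limit' (fun k => (hu k).1) hunif
  have hgm : AEStronglyMeasurable g (HP1_nu μ W) := (C.HP1_ms μ hgh).mono_ac (HP1_ac μ)
  have hlim : ∀ ε : ℝ, 0 < ε → ∃ N, ∀ k, N ≤ k → MemLp (fun x => u k x - g x) 2 (HP1_nu μ W) ∧
      nH μ W (fun x => u k x - g x) ≤ ε := by
    intro ε hε
    obtain ⟨N, hN⟩ := hC ε hε
    refine ⟨N, fun k hk => ?_⟩
    have h1 : eLpNorm (fun x => u k x - g x) 2 (HP1_nu μ W) ≤ ENNReal.ofReal (Real.sqrt ε) := by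
      have h2 := Lp.eLpNorm_lim_le_liminf_eLpNorm (p := 2) (μ := HP1_nu μ W)
        (f := fun m x => u k x - u m x)
        (fun m => (C.HP1_mem μ hW (C.memH_sub μ hW (hu k) (hu m))).1)
        (fun x => u k x - g x)
        (Eventually.of_forall fun x => tendsto_const_nhds.sub (hg x))
      refine h2.trans ?_
      refine Filter.liminf_le_of_frequently_le' (Eventually.frequently ?_)
      filter_upwards [eventually_ge_atTop N] with m hm
      rw [HP1_eLp μ hW (C.HP1_mem μ hW (C.memH_sub μ hW (hu k) (hu m)))]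
      exact ENNReal.ofReal_le_ofReal (Real.sqrt_le_sqrt (hN k hk m hm).le)
    have h3 : MemLp (fun x => u k x - g x) 2 (HP1_nu μ W) :=
      ⟨(C.HP1_mem μ hW (hu k)).1.sub hgm, h1.trans_lt ENNReal.ofReal_lt_top⟩
    refine ⟨h3, ?_⟩
    rw [HP1_eLp μ hW h3, ENNReal.ofReal_le_ofReal_iff (Real.sqrt_nonneg _)] at h1
    exact (Real.sqrt_le_sqrt_iff hε.le).1 h1
  have hgH : C.MemH μ W g := by
    obtain ⟨N, hN⟩ := hlim 1 one_pos
    refine C.HP1_mem' μ hW hgh ?_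
    have h1 := (C.HP1_mem μ hW (hu N)).sub (hN N le_rfl).1
    refine h1.ae_eq (Eventually.of_forall fun x => ?_)
    show u N x - (u N x - g x) = g x
    ring
  refine ⟨g, hgH, ?_, hunif⟩
  rw [Metric.tendsto_atTop]
  intro ε hε
  obtain ⟨N, hN⟩ := hlim (ε / 2) (by positivity)
  refine ⟨N, fun k hk => ?_⟩
  rw [Real.dist_0_eq_abs, abs_of_nonneg (HP1_nH_nonneg μ hW _)]
  exact (hN k hk).2.trans_lt (by linarith)

/-- the subspace of holomorphic functions in `L²` -/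
def HP1_S (W : G → ℝ) : Submodule ℂ (Lp ℂ 2 (HP1_nu μ W)) where
  carrier := {F | ∃ g, C.Hol g ∧ ⇑F =ᵐ[HP1_nu μ W] g}
  add_mem' := by
    rintro F F' ⟨g, hg, h⟩ ⟨g', hg', h'⟩
    refine ⟨fun x => g x + g' x, C.hol_add hg hg', ?_⟩
    filter_upwards [Lp.coeFn_add F F', h, h'] with x h1 h2 h3
    rw [h1, Pi.add_apply, h2, h3]
  zero_mem' := ⟨fun _ => 0, C.hol_const 0, Lp.coeFn_zero _ _ _⟩
  smul_mem' := by
    rintro t F ⟨g, hg, h⟩
    refine ⟨fun x => t * g x, C.hol_mul (C.hol_const t) hg, ?_⟩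
    filter_upwards [Lp.coeFn_smul t F, h] with x h1 h2
    rw [h1, Pi.smul_apply, h2, smul_eq_mul]

theorem HP1_S_memH {W : G → ℝ} (hW : AdmW W) {F : Lp ℂ 2 (HP1_nu μ W)} {g : G → ℂ} (hg : C.Hol g)
    (h : ⇑F =ᵐ[HP1_nu μ W] g) : C.MemH μ W g :=
  C.HP1_mem' μ hW hg ((Lp.memLp F).ae_eq h)

theorem HP1_S_toLp {W : G → ℝ} (hW : AdmW W) {F : Lp ℂ 2 (HP1_nu μ W)} {g : G → ℂ} (hg : C.Hol g)
    (h : ⇑F =ᵐ[HP1_nu μ W] g) : F = (C.HP1_mem μ hW (C.HP1_S_memH μ hW hg h)).toLp g := by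
  apply Lp.ext
  filter_upwards [h, (C.HP1_mem μ hW (C.HP1_S_memH μ hW hg h)).coeFn_toLp] with x h1 h2
  rw [h1, h2]

theorem HP1_toLp_mem {W : G → ℝ} (hW : AdmW W) {g : G → ℂ} (hg : C.MemH μ W g) :
    (C.HP1_mem μ hW hg).toLp g ∈ C.HP1_S μ W := ⟨g, hg.1, MemLp.coeFn_toLp _⟩

theorem HP1_closed {W : G → ℝ} (hW : AdmW W) : IsClosed (C.HP1_S μ W : Set (Lp ℂ 2 (HP1_nu μ W))) := by
  apply IsSeqClosed.isClosed
  intro F F0 hF hlim
  choose u hu hFu using hF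
  have hm : ∀ k, C.MemH μ W (u k) := fun k => C.HP1_S_memH μ hW (hu k) (hFu k)
  have hFe : ∀ k, F k = (C.HP1_mem μ hW (hm k)).toLp (u k) := fun k =>
    C.HP1_S_toLp μ hW (hu k) (hFu k)
  have hnorm : ∀ k m, nH μ W (fun x => u k x - u m x) = ‖F k - F m‖ ^ 2 := by
    intro k m
    rw [hFe, hFe, ← MemLp.toLp_sub, HP1_norm μ hW]
    rfl
  obtain ⟨g, hg, hg2, -⟩ := C.memH_complete μ hW hm (by
    intro ε hε
    have hc := hlim.cauchySeq
    rw [Metric.cauchySeq_iff] at hc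
    obtain ⟨N, hN⟩ := hc (Real.sqrt ε) (Real.sqrt_pos.2 hε)
    refine ⟨N, fun k hk m hm => ?_⟩
    have h1 := hN k hk m hm
    rw [dist_eq_norm] at h1
    rw [hnorm]
    calc ‖F k - F m‖ ^ 2 < (Real.sqrt ε) ^ 2 := by gcongr
      _ = ε := Real.sq_sqrt hε.le)
  have hlim2 : Tendsto F atTop (𝓝 ((C.HP1_mem μ hW hg).toLp g)) := by
    rw [tendsto_iff_norm_sub_tendsto_zero]
    have h1 : ∀ k, ‖F k - (C.HP1_mem μ hW hg).toLp g‖ = Real.sqrt (nH μ W fun x => u k x - g x) := by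
      intro k
      rw [hFe, ← MemLp.toLp_sub, ← Real.sqrt_sq (norm_nonneg _), HP1_norm μ hW]
      rfl
    simp only [h1]
    have h2 := (Real.continuous_sqrt.tendsto 0).comp hg2
    rw [Real.sqrt_zero] at h2
    exact h2
  rw [tendsto_nhds_unique hlim hlim2]
  exact C.HP1_toLp_mem μ hW hg

theorem HP1_unique {W : G → ℝ} (hW : AdmW W) {f g : G → ℂ} (hf : C.Hol f) (hg : C.Hol g)
    (h : f =ᵐ[HP1_nu μ W] g) : f = g := by
  have h1 : f =ᵐ[μ] g := (HP1_ac' μ hW).ae_eq h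
  exact (Continuous.ae_eq_iff_eq μ (C.hol_continuous hf) (C.hol_continuous hg)).1 h1

/-- orthogonal projection of a square integrable function on the holomorphic functions -/
theorem memH_proj {W : G → ℝ} (hW : AdmW W) {v : G → ℂ} (hv : AEStronglyMeasurable v μ)
    (hvi : Integrable (fun x => ‖v x‖ ^ 2 / W x) μ) :
    ∃ h, C.MemH μ W h ∧ ∀ g, C.MemH μ W g →
      ∫ x, (v x - h x) * (starRingEnd ℂ) (g x) / (W x : ℂ) ∂μ = 0 := by
  have hvL : MemLp v 2 (HP1_nu μ W) := (HP1_memLp_iff μ hW hv).2 hvi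
  have : CompleteSpace (C.HP1_S μ W) := (C.HP1_closed μ hW).completeSpace_coe
  obtain ⟨h, hh, hP⟩ := (C.HP1_S μ W).starProjection_apply_mem (hvL.toLp v)
  have hm := C.HP1_S_memH μ hW hh hP
  have hPe := C.HP1_S_toLp μ hW hh hP
  refine ⟨h, hm, fun g hg => ?_⟩
  have h1 := (C.HP1_S μ W).sub_starProjection_mem_orthogonal (hvL.toLp v)
  have h2 := ((C.HP1_S μ W).mem_orthogonal _).1 h1 _ (C.HP1_toLp_mem μ hW hg)
  rw [hPe, ← MemLp.toLp_sub, HP1_inner μ hW] at h2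
  exact h2

/-- Riesz representation -/
theorem memH_riesz {W : G → ℝ} (hW : AdmW W) (L : (G → ℂ) → ℂ)
    (hadd : ∀ f g, C.MemH μ W f → C.MemH μ W g → L (fun x => f x + g x) = L f + L g)
    (hsmul : ∀ (t : ℂ) f, C.MemH μ W f → L (fun x => t * f x) = t * L f)
    {K : ℝ} (hK0 : 0 ≤ K) (hK : ∀ f, C.MemH μ W f → ‖L f‖ ^ 2 ≤ K * nH μ W f) :
    ∃ k, C.MemH μ W k ∧ nH μ W k ≤ K ∧ ∀ g, C.MemH μ W g →
      L g = ∫ x, g x * (starRingEnd ℂ) (k x) / (W x : ℂ) ∂μ := by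
  have : CompleteSpace (C.HP1_S μ W) := (C.HP1_closed μ hW).completeSpace_coe
  -- representatives
  have hrep : ∀ F : C.HP1_S μ W, ∃ g, C.Hol g ∧ ⇑(F : Lp ℂ 2 (HP1_nu μ W)) =ᵐ[HP1_nu μ W] g :=
    fun F => F.2
  choose rp hrp hrp' using hrep
  have hmem : ∀ F, C.MemH μ W (rp F) := fun F => C.HP1_S_memH μ hW (hrp F) (hrp' F)
  have hadd' : ∀ F F', rp (F + F') = fun x => rp F x + rp F' x := by
    intro F F'
    refine C.HP1_unique μ hW (hrp _) (C.hol_add (hrp F) (hrp F')) ?_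
    have h0 : ⇑((F + F' : C.HP1_S μ W) : Lp ℂ 2 (HP1_nu μ W)) =ᵐ[HP1_nu μ W]
        ⇑(F : Lp ℂ 2 (HP1_nu μ W)) + ⇑(F' : Lp ℂ 2 (HP1_nu μ W)) := Lp.coeFn_add _ _
    filter_upwards [hrp' (F + F'), hrp' F, hrp' F', h0] with x h1 h2 h3 h4
    rw [← h1, h4, Pi.add_apply, h2, h3]
  have hsmul' : ∀ (t : ℂ) F, rp (t • F) = fun x => t * rp F x := by
    intro t F
    refine C.HP1_unique μ hW (hrp _) (C.hol_mul (C.hol_const t) (hrp F)) ?_
    have h0 : ⇑((t • F : C.HP1_S μ W) : Lp ℂ 2 (HP1_nu μ W)) =ᵐ[HP1_nu μ W]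
        t • ⇑(F : Lp ℂ 2 (HP1_nu μ W)) := Lp.coeFn_smul _ _
    filter_upwards [hrp' (t • F), hrp' F, h0] with x h1 h2 h4
    rw [← h1, h4, Pi.smul_apply, h2, smul_eq_mul]
  have hnorm : ∀ F : C.HP1_S μ W, nH μ W (rp F) = ‖F‖ ^ 2 := by
    intro F
    rw [← HP1_norm μ hW (C.HP1_mem μ hW (hmem F)), ← C.HP1_S_toLp μ hW (hrp F) (hrp' F)]
    rfl
  let L' : C.HP1_S μ W →ₗ[ℂ] ℂ :=
    { toFun := fun F => L (rp F)
      map_add' := fun F F' => by rw [hadd', hadd _ _ (hmem F) (hmem F')]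
      map_smul' := fun t F => by rw [hsmul', hsmul _ _ (hmem F)]; rfl }
  have hL' : ∀ F, ‖L' F‖ ≤ Real.sqrt K * ‖F‖ := by
    intro F
    have h1 := hK _ (hmem F)
    rw [hnorm] at h1
    have h2 : ‖L' F‖ ^ 2 ≤ (Real.sqrt K * ‖F‖) ^ 2 := by
      rw [mul_pow, Real.sq_sqrt hK0]
      exact h1
    exact le_of_sq_le_sq h2 (by positivity)
  let Lc : C.HP1_S μ W →L[ℂ] ℂ := L'.mkContinuous (Real.sqrt K) hL'
  let k := (InnerProductSpace.toDual ℂ (C.HP1_S μ W)).symm Lc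
  have hk : ∀ F, inner ℂ k F = L (rp F) := fun F =>
    InnerProductSpace.toDual_symm_apply
  have hkn : ‖k‖ ≤ Real.sqrt K := by
    rw [LinearIsometryEquiv.norm_map]
    exact L'.mkContinuous_norm_le (Real.sqrt_nonneg K) hL'
  refine ⟨rp k, hmem k, ?_, fun g hg => ?_⟩
  · rw [hnorm]
    calc ‖k‖ ^ 2 ≤ (Real.sqrt K) ^ 2 := by gcongr
      _ = K := Real.sq_sqrt hK0
  · let F : C.HP1_S μ W := ⟨(C.HP1_mem μ hW hg).toLp g, C.HP1_toLp_mem μ hW hg⟩
    have hF : rp F = g := by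
      refine C.HP1_unique μ hW (hrp F) hg.1 ?_
      exact (hrp' F).symm.trans (C.HP1_mem μ hW hg).coeFn_toLp
    have h1 := hk F
    rw [hF] at h1
    rw [← h1, Submodule.coe_inner, ← HP1_inner μ hW (C.HP1_mem μ hW hg) (C.HP1_mem μ hW (hmem k)),
      ← C.HP1_S_toLp μ hW (hrp k) (hrp' k)]

/-- Pythagoras for the projection: `‖v‖² = ‖h‖² + ‖v - h‖²` -/
theorem memH_pyth {W : G → ℝ} (hW : AdmW W) {v h : G → ℂ} (hv : AEStronglyMeasurable v μ)
    (hvi : Integrable (fun x => ‖v x‖ ^ 2 / W x) μ) (hh : C.MemH μ W h)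
    (ho : ∀ g, C.MemH μ W g → ∫ x, (v x - h x) * (starRingEnd ℂ) (g x) / (W x : ℂ) ∂μ = 0) :
    Integrable (fun x => ‖v x - h x‖ ^ 2 / W x) μ ∧
      nH μ W v = nH μ W h + nH μ W (fun x => v x - h x) := by
  have hvL : MemLp v 2 (HP1_nu μ W) := (HP1_memLp_iff μ hW hv).2 hvi
  have hhL := C.HP1_mem μ hW hh
  have hd : MemLp (fun x => v x - h x) 2 (HP1_nu μ W) := hvL.sub hhL
  refine ⟨(HP1_memLp_iff μ hW (hv.sub (C.HP1_ms μ hh.1))).1 hd, ?_⟩
  have h1 : inner ℂ (hhL.toLp h) (hd.toLp _) = 0 := by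
    rw [HP1_inner μ hW hd hhL]
    exact ho h hh
  have h2 : hvL.toLp v = hhL.toLp h + hd.toLp (fun x => v x - h x) := by
    rw [← MemLp.toLp_add]
    refine MemLp.toLp_congr _ _ (Eventually.of_forall fun x => ?_)
    show v x = h x + (v x - h x)
    ring
  rw [← HP1_norm μ hW hvL, ← HP1_norm μ hW hhL, ← HP1_norm μ hW hd, h2,
    @norm_add_sq ℂ, h1]
  simp

end CLG

end HR
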