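import Pool.Agent.W_06f097_h43.Alg
import Pool.Agent.W_06f097_h43.HP1

/-! MP_06f097_an blueprint, block LE: sup norms versus square norms, weights of the algebra. -/

open scoped Topology ContDiff
open MeasureTheory Set Filter Metric

noncomputable section

namespace HR

variable {n : ℕ} {G : Type*} [Group G] [TopologicalSpace G] [IsTopologicalGroup G] [T2Space G]
  [LocallyCompactSpace G] [SecondCountableTopology G] [MeasurableSpace G] [BorelSpace G]
  (C : CLG n G) (μ : Measure G) [μ.IsHaarMeasure] {l : G → ℝ} (hl : Len μ l)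

include hl in
theorem ew_adm (R : ℝ) (hR : 0 ≤ R) : AdmW (ew l R) := by
  refine ⟨Real.measurable_exp.comp (hl.meas.const_mul (2 * R)), ?_, fun x => Real.exp_pos _⟩
  intro K hK
  obtain ⟨M, hM⟩ := hl.bdd K hK
  refine ⟨Real.exp (-(2 * R * |M|)), Real.exp_pos _, fun x hx => ?_⟩
  have h1 := hl.nonneg x
  have h2 := hM x hx
  have h3 : l x ≤ |M| := h2.trans (le_abs_self M)
  have h4 : 0 ≤ 2 * R * l x := by positivity
  have h5 : 2 * R * l x ≤ 2 * R * |M| := mul_le_mul_of_nonneg_left h3 (by positivity)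
  have h6 : 0 ≤ 2 * R * |M| := by positivity
  constructor
  · exact Real.exp_le_exp.2 (by linarith)
  · rw [one_div, ← Real.exp_neg, neg_neg]
    exact Real.exp_le_exp.2 h5

/-- the weight is the square of the exponential growth -/
theorem LE2_ew_sq (R : ℝ) (x : G) : ew l R x = Real.exp (R * l x) ^ 2 := by
  rw [ew, ← Real.exp_nat_mul]
  congr 1
  push_cast
  ring

theorem LE2_meas_div {f : G → ℂ} (hf : Continuous f) {W : G → ℝ} (hW : Measurable W) :
    AEStronglyMeasurable (fun x => ‖f x‖ ^ 2 / W x) μ :=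
  (((hf.norm.pow 2).measurable).div hW).aestronglyMeasurable

include hl in
/-- domination of the square norm density -/
theorem LE2_dom {R c₀ : ℝ} (hc₀ : 0 ≤ c₀) {M : ℝ} {f : G → ℂ} {x : G}
    (h : ‖f x‖ ≤ M * Real.exp (R * l x)) :
    ‖f x‖ ^ 2 / ew l (R + c₀) x ≤ M ^ 2 * Real.exp (-(c₀ * l x)) := by
  have h1 := hl.nonneg x
  have h2 : 0 < ew l (R + c₀) x := Real.exp_pos _
  rw [div_le_iff₀ h2, LE2_ew_sq]
  have h3 : Real.exp (-(c₀ * l x)) * Real.exp ((R + c₀) * l x) ^ 2 =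
      Real.exp (R * l x) ^ 2 * Real.exp (c₀ * l x) := by
    rw [← Real.exp_nat_mul, ← Real.exp_nat_mul, ← Real.exp_add, ← Real.exp_add]
    congr 1
    push_cast
    ring
  have h4 : 1 ≤ Real.exp (c₀ * l x) := Real.one_le_exp (by positivity)
  calc ‖f x‖ ^ 2 ≤ (M * Real.exp (R * l x)) ^ 2 := pow_le_pow_left₀ (norm_nonneg _) h 2
    _ = M ^ 2 * (Real.exp (R * l x) ^ 2 * 1) := by ring
    _ ≤ M ^ 2 * (Real.exp (R * l x) ^ 2 * Real.exp (c₀ * l x)) := by gcongr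
    _ = M ^ 2 * Real.exp (-(c₀ * l x)) * Real.exp ((R + c₀) * l x) ^ 2 := by
        rw [← h3]
        ring

include hl in
/-- `|f| ≤ exp (R l)` implies a bound in the square norm with exponent `R + c₀` -/
theorem gr_memH (R : ℝ) (hR : 0 ≤ R) : ∃ R' B : ℝ, R ≤ R' ∧ 0 ≤ B ∧ ∀ f : G → ℂ, C.Hol f →
    (∀ x, ‖f x‖ ≤ Real.exp (R * l x)) → C.MemH μ (ew l R') f ∧ nH μ (ew l R') f ≤ B := by
  obtain ⟨c₀, hc₀, hint⟩ := hl.integ
  refine ⟨R + c₀, ∫ x, Real.exp (-(c₀ * l x)) ∂μ, by linarith,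
    integral_nonneg fun x => (Real.exp_pos _).le, fun f hf hfb => ?_⟩
  have hdom : ∀ x, ‖f x‖ ^ 2 / ew l (R + c₀) x ≤ Real.exp (-(c₀ * l x)) := by
    intro x
    have h1 := LE2_dom μ hl (R := R) hc₀ (M := 1) (f := f) (x := x) (by rw [one_mul]; exact hfb x)
    rwa [one_pow, one_mul] at h1
  have hadm := ew_adm μ hl (R + c₀) (by positivity)
  have h0 : ∀ x, 0 ≤ ‖f x‖ ^ 2 / ew l (R + c₀) x := fun x =>
    div_nonneg (sq_nonneg _) (hadm.pos x).le
  have hI : Integrable (fun x => ‖f x‖ ^ 2 / ew l (R + c₀) x) μ := by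
    refine hint.mono' (LE2_meas_div μ (C.hol_continuous hf) hadm.meas)
      (Eventually.of_forall fun x => ?_)
    rw [Real.norm_of_nonneg (h0 x)]
    exact hdom x
  exact ⟨⟨hf, hI⟩, integral_mono hI hint hdom⟩

include hl in
/-- conversely (submean value inequality) -/
theorem memH_gr (R : ℝ) (hR : 0 ≤ R) : ∃ B : ℝ, 0 ≤ B ∧ ∀ f : G → ℂ, C.MemH μ (ew l R) f →
    ∀ x, ‖f x‖ ^ 2 ≤ B * nH μ (ew l R) f * ew l R x := by
  obtain ⟨V, hVc, hV⟩ := exists_compact_mem_nhds (1 : G)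
  obtain ⟨c, hc, hs⟩ := C.smv μ hV hVc
  obtain ⟨M, hM⟩ := hl.bdd V hVc
  have hadm := ew_adm μ hl R hR
  refine ⟨c * Real.exp (2 * R * M), by positivity, fun f hf x => ?_⟩
  have hfc := C.hol_continuous hf.1
  obtain ⟨A, hA⟩ : ∃ A : ℝ, A = Real.exp (2 * R * M) * ew l R x := ⟨_, rfl⟩
  have hA0 : 0 ≤ A := by
    rw [hA]
    exact mul_nonneg (Real.exp_pos _).le (hadm.pos x).le
  have h1 : ∫ y in V, ‖f (x * y)‖ ^ 2 ∂μ ≤ ∫ y in V, A * (‖f (x * y)‖ ^ 2 / ew l R (x * y)) ∂μ := by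
    refine setIntegral_mono_on ?_ ?_ hVc.measurableSet fun y hy => ?_
    · have h2 : Continuous fun y => ‖f (x * y)‖ ^ 2 := by fun_prop
      exact h2.continuousOn.integrableOn_compact hVc
    · exact ((hf.2.comp_mul_left x).const_mul A).integrableOn
    · have h3 := hadm.pos (x * y)
      have h2 : ew l R (x * y) ≤ A := by
        rw [hA, ew, ew, ← Real.exp_add]
        refine Real.exp_le_exp.2 ?_
        have h4 := hl.mul x y
        have h5 := hM y hy
        have h6 : 2 * R * l (x * y) ≤ 2 * R * (M + l x) :=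
          mul_le_mul_of_nonneg_left (by linarith) (by positivity)
        calc 2 * R * l (x * y) ≤ 2 * R * (M + l x) := h6
          _ = 2 * R * M + 2 * R * l x := by ring
      rw [← mul_div_assoc, le_div_iff₀ h3, mul_comm A]
      exact mul_le_mul_of_nonneg_left h2 (sq_nonneg _)
  have h4 : ∫ y in V, A * (‖f (x * y)‖ ^ 2 / ew l R (x * y)) ∂μ ≤
      ∫ y, A * (‖f (x * y)‖ ^ 2 / ew l R (x * y)) ∂μ := by
    refine setIntegral_le_integral ((hf.2.comp_mul_left x).const_mul A)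
      (Eventually.of_forall fun y => ?_)
    have h3 := hadm.pos (x * y)
    show 0 ≤ A * (‖f (x * y)‖ ^ 2 / ew l R (x * y))
    positivity
  have h5 : ∫ y, A * (‖f (x * y)‖ ^ 2 / ew l R (x * y)) ∂μ = A * nH μ (ew l R) f := by
    rw [integral_const_mul, integral_mul_left_eq_self (fun y => ‖f y‖ ^ 2 / ew l R y) x]
    rfl
  calc ‖f x‖ ^ 2 ≤ c * ∫ y in V, ‖f (x * y)‖ ^ 2 ∂μ := hs f hf.1 x
    _ ≤ c * (A * nH μ (ew l R) f) := by
        refine mul_le_mul_of_nonneg_left ?_ hc.le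
        exact h1.trans (h4.trans h5.le)
    _ = c * Real.exp (2 * R * M) * nH μ (ew l R) f * ew l R x := by
        rw [hA]
        ring

/-- a function with finite square norm belongs to the algebra -/
theorem memH_mem_Aexp (R : ℝ) (hR : 0 ≤ R) {f : G → ℂ} (hf : C.MemH μ (ew l R) f) :
    f ∈ Aexp C hl := by
  obtain ⟨B, hB, h⟩ := memH_gr C μ hl R hR
  refine ⟨hf.1, Real.sqrt (B * nH μ (ew l R) f), R, Real.sqrt_nonneg _, hR, fun x => ?_⟩
  have h1 := h f hf x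
  have h0 : 0 ≤ B * nH μ (ew l R) f :=
    mul_nonneg hB (CLG.HP1_nH_nonneg μ (ew_adm μ hl R hR) f)
  have h2 : ‖f x‖ ^ 2 ≤ (Real.sqrt (B * nH μ (ew l R) f) * Real.exp (R * l x)) ^ 2 := by
    rw [mul_pow, Real.sq_sqrt h0, ← LE2_ew_sq]
    exact h1
  exact le_of_sq_le_sq h2 (by positivity)

/-- continuous linear maps on the algebra are bounded for the square norms -/
theorem cts_bound {B : Type*} [NormedAddCommGroup B] [NormedSpace ℂ B] (Φ : Aexp C hl →ₗ[ℂ] B)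
    (hΦ : Cts C hl Φ) (R : ℝ) (hR : 0 ≤ R) : ∃ K : ℝ, 0 ≤ K ∧ ∀ f : Aexp C hl,
      C.MemH μ (ew l R) (f : G → ℂ) → ‖Φ f‖ ^ 2 ≤ K * nH μ (ew l R) (f : G → ℂ) := by
  obtain ⟨B', hB', h⟩ := memH_gr C μ hl R hR
  obtain ⟨M, hM, hΦM⟩ := hΦ R hR
  refine ⟨B' * M ^ 2, by positivity, fun f hf => ?_⟩
  have hN : 0 ≤ nH μ (ew l R) (f : G → ℂ) := CLG.HP1_nH_nonneg μ (ew_adm μ hl R hR) _
  have h0 : 0 ≤ B' * nH μ (ew l R) (f : G → ℂ) := mul_nonneg hB' hN
  obtain ⟨s, hs⟩ : ∃ s : ℝ, s = Real.sqrt (B' * nH μ (ew l R) (f : G → ℂ)) := ⟨_, rfl⟩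
  have hs0 : 0 ≤ s := by
    rw [hs]
    exact Real.sqrt_nonneg _
  have hs2 : s ^ 2 = B' * nH μ (ew l R) (f : G → ℂ) := by
    rw [hs, Real.sq_sqrt h0]
  have hb : ∀ x, ‖(f : G → ℂ) x‖ ≤ s * Real.exp (R * l x) := by
    intro x
    have h2 : ‖(f : G → ℂ) x‖ ^ 2 ≤ (s * Real.exp (R * l x)) ^ 2 := by
      rw [mul_pow, hs2, ← LE2_ew_sq]
      exact h _ hf x
    exact le_of_sq_le_sq h2 (by positivity)
  have hmain : ‖Φ f‖ ≤ s * M := by
    rcases hs0.eq_or_lt with hs1 | hs1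
    · have hf0 : f = 0 := by
        apply Subtype.ext
        funext x
        have h3 := hb x
        rw [← hs1, zero_mul] at h3
        exact norm_le_zero_iff.1 h3
      rw [hf0, map_zero, norm_zero, ← hs1, zero_mul]
    · have h3 := hΦM (((s : ℂ)⁻¹) • f) (by
        intro x
        show ‖(s : ℂ)⁻¹ * (f : G → ℂ) x‖ ≤ _
        rw [norm_mul, norm_inv, Complex.norm_real, Real.norm_of_nonneg hs0]
        rw [inv_mul_le_iff₀ hs1]
        exact hb x)
      rw [map_smul, norm_smul, norm_inv, Complex.norm_real, Real.norm_of_nonneg hs0,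
        inv_mul_le_iff₀ hs1] at h3
      exact h3
  calc ‖Φ f‖ ^ 2 ≤ (s * M) ^ 2 := pow_le_pow_left₀ (norm_nonneg _) hmain 2
    _ = B' * M ^ 2 * nH μ (ew l R) (f : G → ℂ) := by
        rw [mul_pow, hs2]
        ring

/-- dominated convergence: uniformly bounded growth and pointwise convergence -/
theorem cts_tendsto {B : Type*} [NormedAddCommGroup B] [NormedSpace ℂ B]
    (Φ : Aexp C hl →ₗ[ℂ] B) (hΦ : Cts C hl Φ) {f : ℕ → Aexp C hl} {g : Aexp C hl} {M R : ℝ}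
    (hR : 0 ≤ R) (hf : ∀ k x, ‖(f k : G → ℂ) x‖ ≤ M * Real.exp (R * l x))
    (h : ∀ x, Tendsto (fun k => (f k : G → ℂ) x) atTop (𝓝 ((g : G → ℂ) x))) :
    Tendsto (fun k => Φ (f k)) atTop (𝓝 (Φ g)) := by
  obtain ⟨c₀, hc₀, hint⟩ := hl.integ
  have hR' : 0 ≤ R + c₀ := by positivity
  have hadm := ew_adm μ hl (R + c₀) hR'
  obtain ⟨K, hK, hΦK⟩ := cts_bound C μ hl Φ hΦ (R + c₀) hR'
  have hg : ∀ x, ‖(g : G → ℂ) x‖ ≤ M * Real.exp (R * l x) := fun x =>
    le_of_tendsto (h x).norm (Eventually.of_forall fun k => hf k x)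
  have hd : ∀ k x, ‖((f k - g : Aexp C hl) : G → ℂ) x‖ ≤ (2 * M) * Real.exp (R * l x) := by
    intro k x
    show ‖(f k : G → ℂ) x - (g : G → ℂ) x‖ ≤ _
    calc ‖(f k : G → ℂ) x - (g : G → ℂ) x‖ ≤ ‖(f k : G → ℂ) x‖ + ‖(g : G → ℂ) x‖ :=
          norm_sub_le _ _
      _ ≤ M * Real.exp (R * l x) + M * Real.exp (R * l x) := add_le_add (hf k x) (hg x)
      _ = (2 * M) * Real.exp (R * l x) := by ring
  have hdom : ∀ k x, ‖((f k - g : Aexp C hl) : G → ℂ) x‖ ^ 2 / ew l (R + c₀) x ≤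
      (2 * M) ^ 2 * Real.exp (-(c₀ * l x)) := fun k x => LE2_dom μ hl hc₀ (hd k x)
  have h0 : ∀ k x, 0 ≤ ‖((f k - g : Aexp C hl) : G → ℂ) x‖ ^ 2 / ew l (R + c₀) x := fun k x =>
    div_nonneg (sq_nonneg _) (hadm.pos x).le
  have hmeas : ∀ k, AEStronglyMeasurable
      (fun x => ‖((f k - g : Aexp C hl) : G → ℂ) x‖ ^ 2 / ew l (R + c₀) x) μ := fun k =>
    LE2_meas_div μ (C.hol_continuous (f k - g).2.1) hadm.meas
  have hI : Integrable (fun x => (2 * M) ^ 2 * Real.exp (-(c₀ * l x))) μ := hint.const_mul _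
  have hmem : ∀ k, C.MemH μ (ew l (R + c₀)) ((f k - g : Aexp C hl) : G → ℂ) := by
    intro k
    refine ⟨(f k - g).2.1, hI.mono' (hmeas k) (Eventually.of_forall fun x => ?_)⟩
    rw [Real.norm_of_nonneg (h0 k x)]
    exact hdom k x
  have hlim : Tendsto (fun k => nH μ (ew l (R + c₀)) ((f k - g : Aexp C hl) : G → ℂ)) atTop
      (𝓝 0) := by
    have h1 := tendsto_integral_of_dominated_convergence
      (F := fun k x => ‖((f k - g : Aexp C hl) : G → ℂ) x‖ ^ 2 / ew l (R + c₀) x)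
      (f := fun _ => (0 : ℝ)) (μ := μ) (fun x => (2 * M) ^ 2 * Real.exp (-(c₀ * l x)))
      hmeas hI (fun k => Eventually.of_forall fun x => by
        rw [Real.norm_of_nonneg (h0 k x)]
        exact hdom k x) (Eventually.of_forall fun x => by
        have h2 : Tendsto (fun k => (f k : G → ℂ) x - (g : G → ℂ) x) atTop (𝓝 0) := by
          rw [← sub_self ((g : G → ℂ) x)]
          exact (h x).sub_const _
        have h3 := ((h2.norm).pow 2).div_const (ew l (R + c₀) x)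
        rw [norm_zero, zero_pow two_ne_zero, zero_div] at h3
        exact h3)
    rw [integral_zero] at h1
    exact h1
  have h3 : Tendsto (fun k => ‖Φ (f k) - Φ g‖ ^ 2) atTop (𝓝 0) := by
    have h4 := hlim.const_mul K
    rw [mul_zero] at h4
    refine squeeze_zero (fun k => sq_nonneg _) (fun k => ?_) h4
    rw [← map_sub]
    exact hΦK _ (hmem k)
  rw [tendsto_iff_norm_sub_tendsto_zero]
  have h5 := (Real.continuous_sqrt.tendsto 0).comp h3
  rw [Real.sqrt_zero] at h5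
  refine h5.congr fun k => ?_
  exact Real.sqrt_sq (norm_nonneg _)

/-! weights made of functions of the algebra -/

theorem isWA_one : IsWA C hl (fun _ => (1 : ℝ)) :=
  ⟨1, fun _ _ => 1, fun _ => (Aexp C hl).one_mem, fun x => by simp, 1, one_pos, fun x => le_rfl⟩

/-- adding squares -/
theorem LE2_add {W V : G → ℝ} (hW : IsWA C hl W) {N : ℕ} {F : Fin N → G → ℂ}
    (hF : ∀ i, F i ∈ Aexp C hl) (hV : ∀ x, V x = ∑ i, ‖F i x‖ ^ 2) :
    IsWA C hl (fun x => W x + V x) := by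
  obtain ⟨N1, F1, h1, h2, c, hc, h3⟩ := hW
  refine ⟨N1 + N, Fin.append F1 F, ?_, ?_, c, hc, fun x => ?_⟩
  · intro i
    refine Fin.addCases (fun j => ?_) (fun j => ?_) i
    · rw [Fin.append_left]
      exact h1 j
    · rw [Fin.append_right]
      exact hF j
  · intro x
    show W x + V x = _
    rw [Fin.sum_univ_add, h2 x, hV x]
    simp only [Fin.append_left, Fin.append_right]
  · have h4 : 0 ≤ V x := by
      rw [hV x]
      exact Finset.sum_nonneg fun i _ => sq_nonneg _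
    have h5 := h3 x
    show c ≤ W x + V x
    linarith

theorem isWA_add {W V : G → ℝ} (hW : IsWA C hl W) (hV : IsWA C hl V) :
    IsWA C hl (fun x => W x + V x) := by
  obtain ⟨N, F, h1, h2, _⟩ := hV
  exact LE2_add C μ hl hW h1 h2

theorem isWA_mul {W V : G → ℝ} (hW : IsWA C hl W) (hV : IsWA C hl V) :
    IsWA C hl (fun x => W x * V x) := by
  obtain ⟨N1, F1, h1, h2, c1, hc1, h3⟩ := hW
  obtain ⟨N2, F2, k1, k2, c2, hc2, k3⟩ := hV
  refine ⟨N1 * N2, fun i x => F1 (finProdFinEquiv.symm i).1 x * F2 (finProdFinEquiv.symm i).2 x,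
    fun i => (Aexp C hl).mul_mem (h1 _) (k1 _), fun x => ?_, c1 * c2, by positivity, fun x =>
    mul_le_mul (h3 x) (k3 x) hc2.le (hc1.le.trans (h3 x))⟩
  show W x * V x = _
  rw [← finProdFinEquiv.sum_comp, Fintype.sum_prod_type, h2 x, k2 x, Finset.sum_mul_sum]
  refine Finset.sum_congr rfl fun i _ => Finset.sum_congr rfl fun j _ => ?_
  beta_reduce
  rw [Equiv.symm_apply_apply, norm_mul, mul_pow]

theorem isWA_pow {W : G → ℝ} (hW : IsWA C hl W) (k : ℕ) : IsWA C hl (fun x => W x ^ k) := by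
  induction k with
  | zero =>
    have e : (fun x => W x ^ 0) = fun _ : G => (1 : ℝ) := by
      funext x
      rw [pow_zero]
    rw [e]
    exact isWA_one C μ hl
  | succ k ih =>
    have e : (fun x => W x ^ (k + 1)) = fun x => W x ^ k * W x := by
      funext x
      rw [pow_succ]
    rw [e]
    exact isWA_mul C μ hl ih hW

theorem isWA_add_sq {W : G → ℝ} (hW : IsWA C hl W) {N : ℕ} {F : Fin N → G → ℂ}
    (hF : ∀ i, F i ∈ Aexp C hl) : IsWA C hl (fun x => W x + ∑ i, ‖F i x‖ ^ 2) :=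
  LE2_add C μ hl hW hF fun _ => rfl

theorem isWA_left {W : G → ℝ} (hW : IsWA C hl W) (a : G) : IsWA C hl (fun x => W (a * x)) := by
  obtain ⟨N, F, h1, h2, c, hc, h3⟩ := hW
  exact ⟨N, fun i x => F i (a * x), fun i => ⟨C.hol_left (h1 i).1 a, gr_left hl (h1 i).2 a⟩,
    fun x => h2 (a * x), c, hc, fun x => h3 (a * x)⟩

theorem isWA_pos {W : G → ℝ} (hW : IsWA C hl W) (x : G) : 0 < W x := by
  obtain ⟨_, _, _, _, c, hc, h3⟩ := hW
  exact hc.trans_le (h3 x)

theorem LE2_cont {W : G → ℝ} (hW : IsWA C hl W) : Continuous W := by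
  obtain ⟨N, F, h1, h2, _⟩ := hW
  have e : W = fun x => ∑ i, ‖F i x‖ ^ 2 := funext h2
  rw [e]
  exact continuous_finset_sum _ fun i _ => ((C.hol_continuous (h1 i).1).norm.pow 2)

theorem isWA_adm {W : G → ℝ} (hW : IsWA C hl W) : AdmW W := by
  have hcont := LE2_cont C μ hl hW
  refine ⟨hcont.measurable, ?_, isWA_pos C μ hl hW⟩
  intro K hK
  obtain ⟨M, hM⟩ := hK.exists_bound_of_continuousOn hcont.continuousOn
  obtain ⟨_, _, _, _, c, hc, h3⟩ := hW
  refine ⟨min c (1 / (|M| + 1)), lt_min hc (by positivity), fun x hx => ⟨?_, ?_⟩⟩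
  · exact (min_le_left _ _).trans (h3 x)
  · have h4 : W x ≤ |M| + 1 := by
      have h5 := (le_abs_self (W x)).trans ((hM x hx).trans (le_abs_self M))
      linarith
    have h6 : |M| + 1 ≤ 1 / min c (1 / (|M| + 1)) := by
      rw [le_div_iff₀ (lt_min hc (by positivity))]
      calc (|M| + 1) * min c (1 / (|M| + 1)) ≤ (|M| + 1) * (1 / (|M| + 1)) :=
            mul_le_mul_of_nonneg_left (min_le_right _ _) (by positivity)
        _ = 1 := by field_simp
    exact h4.trans h6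

theorem isWA_sm {W : G → ℝ} (hW : IsWA C hl W) : C.Sm W := by
  obtain ⟨N, F, h1, h2, _⟩ := hW
  rw [← C.sm_ofReal]
  have e : (fun x => (W x : ℂ)) = fun x => ∑ i, ((‖F i x‖ ^ 2 : ℝ) : ℂ) := by
    funext x
    rw [h2 x]
    push_cast
    rfl
  rw [e]
  exact C.sm_sum _ fun i _ => C.sm_normSq (C.hol_sm (h1 i).1)

/-- growth of a weight -/
theorem isWA_growth {W : G → ℝ} (hW : IsWA C hl W) :
    ∃ R B : ℝ, 0 ≤ R ∧ 0 < B ∧ ∀ x, W x ≤ B * ew l R x := by
  obtain ⟨N, F, h1, h2, _⟩ := hW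
  have hgr : ∀ i, Gr l (F i) := fun i => (h1 i).2
  choose M R hM hR hb using hgr
  refine ⟨∑ i, R i, ∑ i, M i ^ 2 + 1, Finset.sum_nonneg fun i _ => hR i, ?_, fun x => ?_⟩
  · have : 0 ≤ ∑ i, M i ^ 2 := Finset.sum_nonneg fun i _ => sq_nonneg _
    linarith
  · have hew : 0 < ew l (∑ i, R i) x := Real.exp_pos _
    rw [h2 x, add_mul, Finset.sum_mul, one_mul]
    have h3 : ∑ i, ‖F i x‖ ^ 2 ≤ ∑ i, M i ^ 2 * ew l (∑ i, R i) x := by
      refine Finset.sum_le_sum fun i _ => ?_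
      have h4 : Real.exp (R i * l x) ^ 2 ≤ ew l (∑ i, R i) x := by
        rw [← LE2_ew_sq, ew, ew]
        refine Real.exp_le_exp.2 ?_
        have h5 : R i ≤ ∑ i, R i :=
          Finset.single_le_sum (fun j _ => hR j) (Finset.mem_univ i)
        have h6 := hl.nonneg x
        nlinarith [mul_le_mul_of_nonneg_right h5 h6]
      calc ‖F i x‖ ^ 2 ≤ (M i * Real.exp (R i * l x)) ^ 2 :=
            pow_le_pow_left₀ (norm_nonneg _) (hb i x) 2
        _ = M i ^ 2 * Real.exp (R i * l x) ^ 2 := by ring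
        _ ≤ M i ^ 2 * ew l (∑ i, R i) x := mul_le_mul_of_nonneg_left h4 (sq_nonneg _)
    linarith

/-- comparison of square norms -/
theorem memH_mono {W V : G → ℝ} (hW : AdmW W) (hV : AdmW V) {B : ℝ} (hB : 0 ≤ B)
    (h : ∀ x, W x ≤ B * V x) {f : G → ℂ} (hf : C.MemH μ W f) :
    C.MemH μ V f ∧ nH μ V f ≤ B * nH μ W f := by
  have hdom : ∀ x, ‖f x‖ ^ 2 / V x ≤ B * (‖f x‖ ^ 2 / W x) := by
    intro x
    have h1 := hW.pos x
    have h2 := hV.pos x
    rw [← mul_div_assoc, div_le_div_iff₀ h2 h1]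
    have h3 := mul_le_mul_of_nonneg_left (h x) (sq_nonneg ‖f x‖)
    linarith
  have h0 : ∀ x, 0 ≤ ‖f x‖ ^ 2 / V x := fun x => div_nonneg (sq_nonneg _) (hV.pos x).le
  have hI : Integrable (fun x => ‖f x‖ ^ 2 / V x) μ := by
    refine (hf.2.const_mul B).mono' (LE2_meas_div μ (C.hol_continuous hf.1) hV.meas)
      (Eventually.of_forall fun x => ?_)
    rw [Real.norm_of_nonneg (h0 x)]
    exact hdom x
  refine ⟨⟨hf.1, hI⟩, ?_⟩
  have h1 := integral_mono hI (hf.2.const_mul B) hdom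
  rw [integral_const_mul] at h1
  exact h1

theorem isWA_mem_Aexp {W : G → ℝ} (hW : IsWA C hl W) {f : G → ℂ} (hf : C.MemH μ W f) :
    f ∈ Aexp C hl := by
  obtain ⟨R, B, hR, hB, h⟩ := isWA_growth C μ hl hW
  exact memH_mem_Aexp C μ hl R hR
    (memH_mono C μ (isWA_adm C μ hl hW) (ew_adm μ hl R hR) hB.le h hf).1

theorem cts_bound_W {B : Type*} [NormedAddCommGroup B] [NormedSpace ℂ B]
    (Φ : Aexp C hl →ₗ[ℂ] B) (hΦ : Cts C hl Φ) {W : G → ℝ} (hW : IsWA C hl W) :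
    ∃ K : ℝ, 0 ≤ K ∧ ∀ f : Aexp C hl, C.MemH μ W (f : G → ℂ) →
      ‖Φ f‖ ^ 2 ≤ K * nH μ W (f : G → ℂ) := by
  obtain ⟨R, B', hR, hB', h⟩ := isWA_growth C μ hl hW
  obtain ⟨K, hK, hb⟩ := cts_bound C μ hl Φ hΦ R hR
  refine ⟨K * B', by positivity, fun f hf => ?_⟩
  obtain ⟨h1, h2⟩ := memH_mono C μ (isWA_adm C μ hl hW) (ew_adm μ hl R hR) hB'.le h hf
  calc ‖Φ f‖ ^ 2 ≤ K * nH μ (ew l R) (f : G → ℂ) := hb f h1
    _ ≤ K * (B' * nH μ W (f : G → ℂ)) := mul_le_mul_of_nonneg_left h2 hK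
    _ = K * B' * nH μ W (f : G → ℂ) := by ring

end HR
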