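import Pool.Agent.W_06f097_h43.SK2
import Pool.Agent.W_06f097_h43.LE2
import Pool.Agent.W_06f097_h43.HB7

/-! MP_06f097_an blueprint, block SK: the theorem of Skoda in dual form. -/

open scoped Topology ContDiff
open MeasureTheory Set Filter Metric

noncomputable section

namespace HR

variable {n : ℕ} {G : Type*} [Group G] [TopologicalSpace G] [IsTopologicalGroup G] [T2Space G]
  [LocallyCompactSpace G] [SecondCountableTopology G] [MeasurableSpace G] [BorelSpace G]
  (C : CLG n G) (μ : Measure G) [μ.IsHaarMeasure] {l : G → ℝ} (hl : Len μ l)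

/-! Cauchy-Schwarz -/

omit [Group G] [TopologicalSpace G] [IsTopologicalGroup G] [T2Space G]
  [LocallyCompactSpace G] [SecondCountableTopology G] [BorelSpace G] [μ.IsHaarMeasure] in
private theorem SK4_memLp {W : G → ℝ} (hWm : Measurable W) (hWp : ∀ x, 0 < W x) {f : G → ℂ}
    (hfm : AEStronglyMeasurable f μ) (hf : Integrable (fun x => ‖f x‖ ^ 2 / W x) μ) :
    MemLp (fun x => f x / ((Real.sqrt (W x) : ℝ) : ℂ)) 2 μ := by
  have hm : AEStronglyMeasurable (fun x => f x / ((Real.sqrt (W x) : ℝ) : ℂ)) μ := by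
    simp only [div_eq_mul_inv]
    refine hfm.mul ?_
    exact (Complex.measurable_ofReal.comp hWm.sqrt).inv.aestronglyMeasurable
  rw [memLp_two_iff_integrable_sq_norm hm]
  refine hf.congr (Eventually.of_forall fun x => ?_)
  simp only
  rw [norm_div, div_pow, Complex.norm_real, Real.norm_of_nonneg (Real.sqrt_nonneg _),
    Real.sq_sqrt (hWp x).le]

omit [Group G] [TopologicalSpace G] [IsTopologicalGroup G] [T2Space G]
  [LocallyCompactSpace G] [SecondCountableTopology G] [BorelSpace G] [μ.IsHaarMeasure] in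
private theorem SK4_inner {W : G → ℝ} (hWp : ∀ x, 0 < W x) {f g : G → ℂ}
    (hf : MemLp (fun x => f x / ((Real.sqrt (W x) : ℝ) : ℂ)) 2 μ)
    (hg : MemLp (fun x => g x / ((Real.sqrt (W x) : ℝ) : ℂ)) 2 μ) :
    inner ℂ hf.toLp hg.toLp = ∫ x, g x * (starRingEnd ℂ) (f x) / (W x : ℂ) ∂μ := by
  rw [L2.inner_def]
  refine integral_congr_ae ?_
  filter_upwards [hf.coeFn_toLp, hg.coeFn_toLp] with x h1 h2
  rw [h1, h2, RCLike.inner_apply, map_div₀, Complex.conj_ofReal]
  have h3 : ((Real.sqrt (W x) : ℝ) : ℂ) * ((Real.sqrt (W x) : ℝ) : ℂ) = (W x : ℂ) := by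
    rw [← Complex.ofReal_mul, Real.mul_self_sqrt (hWp x).le]
  rw [← h3]
  have h4 : ((Real.sqrt (W x) : ℝ) : ℂ) ≠ 0 := by
    exact_mod_cast (Real.sqrt_pos.2 (hWp x)).ne'
  field_simp

omit [Group G] [TopologicalSpace G] [IsTopologicalGroup G] [T2Space G]
  [LocallyCompactSpace G] [SecondCountableTopology G] [BorelSpace G] [μ.IsHaarMeasure] in
private theorem SK4_self (W : G → ℝ) (f : G → ℂ) :
    ∫ x, f x * (starRingEnd ℂ) (f x) / (W x : ℂ) ∂μ = ((nH μ W f : ℝ) : ℂ) := by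
  rw [nH, ← integral_complex_ofReal]
  refine integral_congr_ae (Eventually.of_forall fun x => ?_)
  simp only
  rw [Complex.mul_conj, Complex.normSq_eq_norm_sq]
  push_cast
  rfl

omit [Group G] [TopologicalSpace G] [IsTopologicalGroup G] [T2Space G]
  [LocallyCompactSpace G] [SecondCountableTopology G] [BorelSpace G] [μ.IsHaarMeasure] in
private theorem SK4_norm {W : G → ℝ} (hWp : ∀ x, 0 < W x) {f : G → ℂ}
    (hf : MemLp (fun x => f x / ((Real.sqrt (W x) : ℝ) : ℂ)) 2 μ) :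
    ‖hf.toLp‖ ^ 2 = nH μ W f := by
  have h1 := SK4_inner μ hWp hf hf
  rw [SK4_self, inner_self_eq_norm_sq_to_K] at h1
  apply Complex.ofReal_injective
  rw [← h1]
  norm_cast

omit [Group G] [TopologicalSpace G] [IsTopologicalGroup G] [T2Space G]
  [LocallyCompactSpace G] [SecondCountableTopology G] [BorelSpace G] [μ.IsHaarMeasure] in
private theorem SK4_cs {W : G → ℝ} (hWm : Measurable W) (hWp : ∀ x, 0 < W x) {f g : G → ℂ}
    (hfm : AEStronglyMeasurable f μ) (hf : Integrable (fun x => ‖f x‖ ^ 2 / W x) μ)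
    (hgm : AEStronglyMeasurable g μ) (hg : Integrable (fun x => ‖g x‖ ^ 2 / W x) μ) :
    ‖∫ x, g x * (starRingEnd ℂ) (f x) / (W x : ℂ) ∂μ‖ ^ 2 ≤ nH μ W f * nH μ W g := by
  have h1 := SK4_memLp μ hWm hWp hfm hf
  have h2 := SK4_memLp μ hWm hWp hgm hg
  rw [← SK4_inner μ hWp h1 h2, ← SK4_norm μ hWp h1, ← SK4_norm μ hWp h2, ← mul_pow]
  exact pow_le_pow_left₀ (norm_nonneg _) (norm_inner_le_norm _ _) 2

/-- Statement (P) of the paper proof. `V` is the weight `W₁ |F|^(2M)`, `V'` is `W₁ |F|^(2(M-1))`.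
Proof. Let `k` represent `L` on the Hilbert space of `V` (`memH_riesz`, `cts_bound_W`), so
`nH V k` is the square of the norm of `L`. Put `v_i = conj(F_i) k / |F|²`: then
`Σ nH V' v_i = nH V k`, and for `g` with finite `V'`-norm,
`∫ g conj(v_i) / V' = ∫ g F_i conj(k) / V = L (F_i g)`. So the projection `h_i` of `v_i` (for `V'`,
`memH_proj`) satisfies `nH V' h_i = |L(F_i h_i)| ≤ (K_i nH V' h_i)^(1/2)`, i.e. `nH V' h_i ≤ K_i`.
The differences `w_i = v_i - h_i` are orthogonal to the holomorphic functions and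
`Xb_m w_i = Xb_m v_i`; `hormander` with `φ = log V'`, `exp(-φ) = 1 / V'`,
`ρ = n |k|² / (|F|² (M-1))` (`pointwise_skoda'`, `Lv φ ≥ (M-1) Lv log|F|²`) gives
`Σ nH V' w_i ≤ n/(M-1) ∫ |k|² / (|F|² V') = n/(M-1) nH V k`. Pythagoras (`memH_pyth`):
`nH V k ≤ Σ K_i + n/(M-1) nH V k`. -/
theorem skoda {s : G → ℝ} (hs : C.Kah s) {N : ℕ} {F : Fin N → Aexp C hl}
    (hF : ∃ c : ℝ, 0 < c ∧ ∀ x, c ≤ ∑ i, ‖(F i : G → ℂ) x‖ ^ 2)
    {W₁ : G → ℝ} (hW₁ : IsWA C hl W₁) {M : ℕ} (hM : n + 1 < M)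
    (L : Aexp C hl →ₗ[ℂ] ℂ) (hL : Cts C hl L) {K : Fin N → ℝ} (hK0 : ∀ i, 0 ≤ K i)
    (hK : ∀ i, ∀ g : Aexp C hl,
      C.MemH μ (fun x => W₁ x * (∑ i, ‖(F i : G → ℂ) x‖ ^ 2) ^ (M - 1)) (g : G → ℂ) →
      ‖L (F i * g)‖ ^ 2 ≤ K i *
        nH μ (fun x => W₁ x * (∑ i, ‖(F i : G → ℂ) x‖ ^ 2) ^ (M - 1)) (g : G → ℂ)) :
    ∀ g : Aexp C hl, C.MemH μ (fun x => W₁ x * (∑ i, ‖(F i : G → ℂ) x‖ ^ 2) ^ M) (g : G → ℂ) →
      ‖L g‖ ^ 2 ≤ (((M : ℝ) - 1) / ((M : ℝ) - 1 - n)) * (∑ i, K i) *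
        nH μ (fun x => W₁ x * (∑ i, ‖(F i : G → ℂ) x‖ ^ 2) ^ M) (g : G → ℂ) := by
  classical
  obtain ⟨W, hWdef⟩ : ∃ W : G → ℝ, W = fun x => ∑ i, ‖(F i : G → ℂ) x‖ ^ 2 := ⟨_, rfl⟩
  have hWx : ∀ x, ∑ i, ‖(F i : G → ℂ) x‖ ^ 2 = W x := fun x => by rw [hWdef]
  simp only [hWx] at hF hK ⊢
  obtain ⟨m, rfl⟩ : ∃ m, M = m + 1 := ⟨M - 1, by omega⟩
  simp only [Nat.add_sub_cancel] at hK
  have hnm : (n : ℝ) < m := by
    have : n < m := by omega
    exact_mod_cast this
  have hWA : IsWA C hl W := ⟨N, fun i => (F i : G → ℂ), fun i => (F i).2,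
    fun x => (hWx x).symm, hF⟩
  have hV : IsWA C hl (fun x => W₁ x * W x ^ (m + 1)) :=
    isWA_mul C μ hl hW₁ (isWA_pow C μ hl hWA (m + 1))
  have hV' : IsWA C hl (fun x => W₁ x * W x ^ m) :=
    isWA_mul C μ hl hW₁ (isWA_pow C μ hl hWA m)
  have hVa := isWA_adm C μ hl hV
  have hV'a := isWA_adm C μ hl hV'
  have hWp : ∀ x, 0 < W x := isWA_pos C μ hl hWA
  have hW₁p : ∀ x, 0 < W₁ x := isWA_pos C μ hl hW₁
  obtain ⟨V, hVdef⟩ : ∃ V : G → ℝ, V = fun x => W₁ x * W x ^ (m + 1) := ⟨_, rfl⟩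
  obtain ⟨V', hV'def⟩ : ∃ V' : G → ℝ, V' = fun x => W₁ x * W x ^ m := ⟨_, rfl⟩
  rw [← hVdef] at hV hVa ⊢
  rw [← hV'def] at hV' hV'a hK
  have hVx : ∀ x, V x = V' x * W x := fun x => by
    rw [hVdef, hV'def]
    simp only
    ring
  have hV'p : ∀ x, 0 < V' x := hV'a.pos
  have hVp : ∀ x, 0 < V x := hVa.pos
  -- the functional on functions
  let Lt : (G → ℂ) → ℂ := fun f => if h : f ∈ Aexp C hl then L ⟨f, h⟩ else 0
  have hLt : ∀ f (h : f ∈ Aexp C hl), Lt f = L ⟨f, h⟩ := fun f h => dif_pos h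
  have hmem : ∀ f, C.MemH μ V f → f ∈ Aexp C hl := fun f hf => isWA_mem_Aexp C μ hl hV hf
  have hmem' : ∀ f, C.MemH μ V' f → f ∈ Aexp C hl := fun f hf => isWA_mem_Aexp C μ hl hV' hf
  obtain ⟨K₀, hK₀, hK₀b⟩ := cts_bound_W C μ hl L hL hV
  obtain ⟨k, hk, -, hkr⟩ := C.memH_riesz μ hVa Lt
    (by
      intro f g hf hg
      rw [hLt _ (hmem f hf), hLt _ (hmem g hg),
        hLt (fun x => f x + g x) ((Aexp C hl).add_mem (hmem f hf) (hmem g hg)), ← map_add]
      rfl)
    (by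
      intro t f hf
      rw [hLt _ (hmem f hf), hLt (fun x => t * f x) ((Aexp C hl).smul_mem (hmem f hf) t)]
      exact map_smul L t ⟨f, hmem f hf⟩)
    (K := K₀) hK₀
    (by
      intro f hf
      rw [hLt _ (hmem f hf)]
      exact hK₀b ⟨f, hmem f hf⟩ hf)
  have hkc : Continuous k := C.hol_continuous hk.1
  have hWc : Continuous W := C.sm_continuous (isWA_sm C μ hl hWA)
  have hFc : ∀ i, Continuous (F i : G → ℂ) := fun i => C.hol_continuous (F i).2.1
  -- reduction to the norm of `k`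
  suffices hmain : nH μ V k ≤ ((m : ℝ) / ((m : ℝ) - n)) * ∑ i, K i by
    intro g hg
    have h1 := hkr g hg
    rw [hLt _ g.2] at h1
    have h2 : L g = ∫ x, (g : G → ℂ) x * (starRingEnd ℂ) (k x) / (V x : ℂ) ∂μ := h1
    rw [h2]
    refine (SK4_cs μ hVa.meas hVp hkc.aestronglyMeasurable hk.2
      (C.hol_continuous hg.1).aestronglyMeasurable hg.2).trans ?_
    have h3 : 0 ≤ nH μ V (g : G → ℂ) := integral_nonneg fun x => div_nonneg (by positivity) (hVp x).le
    refine mul_le_mul_of_nonneg_right ?_ h3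
    push_cast
    rw [add_sub_cancel_right]
    exact hmain
  -- the functions `v_i`
  obtain ⟨v, hvdef⟩ : ∃ v : Fin N → G → ℂ, v = fun i x =>
      (starRingEnd ℂ) ((F i : G → ℂ) x) * k x / (W x : ℂ) := ⟨_, rfl⟩
  have hvx : ∀ i x, v i x = (starRingEnd ℂ) ((F i : G → ℂ) x) * k x / (W x : ℂ) :=
    fun i x => by rw [hvdef]
  have hWsm : C.Sm (fun x => (W x : ℂ)) := C.sm_ofReal.2 (isWA_sm C μ hl hWA)
  have hWne : ∀ x, (W x : ℂ) ≠ 0 := fun x => by exact_mod_cast (hWp x).ne'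
  have hvsm : ∀ i, C.Sm (v i) := by
    intro i
    have h1 : C.Sm (fun x => (starRingEnd ℂ) ((F i : G → ℂ) x) * k x * ((W x : ℂ))⁻¹) :=
      C.sm_mul (C.sm_mul (C.sm_conj (C.hol_sm (F i).2.1)) (C.hol_sm hk.1)) (C.sm_inv hWsm hWne)
    have h2 : v i = fun x => (starRingEnd ℂ) ((F i : G → ℂ) x) * k x * ((W x : ℂ))⁻¹ := by
      funext x
      rw [hvx, div_eq_mul_inv]
    rw [h2]
    exact h1
  have hvc : ∀ i, Continuous (v i) := fun i => C.sm_continuous (hvsm i)
  have hvn : ∀ i x, ‖v i x‖ ^ 2 / V' x = ‖(F i : G → ℂ) x‖ ^ 2 / W x * (‖k x‖ ^ 2 / V x) := by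
    intro i x
    rw [hvx, norm_div, norm_mul, RCLike.norm_conj, Complex.norm_real,
      Real.norm_of_nonneg (hWp x).le, hVx]
    have h1 := (hWp x).ne'
    have h2 := (hV'p x).ne'
    field_simp
  have hFW : ∀ i x, ‖(F i : G → ℂ) x‖ ^ 2 / W x ≤ 1 := by
    intro i x
    rw [div_le_one (hWp x), ← hWx x]
    exact Finset.single_le_sum (f := fun i => ‖(F i : G → ℂ) x‖ ^ 2)
      (fun j _ => by positivity) (Finset.mem_univ i)
  have hvi : ∀ i, Integrable (fun x => ‖v i x‖ ^ 2 / V' x) μ := by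
    intro i
    refine Integrable.mono' hk.2 ?_ (Eventually.of_forall fun x => ?_)
    · exact ((hvc i).norm.pow 2).measurable.div hV'a.meas |>.aestronglyMeasurable
    · rw [Real.norm_of_nonneg (div_nonneg (by positivity) (hV'p x).le), hvn]
      exact mul_le_of_le_one_left (div_nonneg (by positivity) (hVp x).le) (hFW i x)
  have hsumv : ∑ i, nH μ V' (v i) = nH μ V k := by
    simp only [nH]
    rw [← integral_finsetSum _ fun i _ => hvi i]
    refine integral_congr_ae (Eventually.of_forall fun x => ?_)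
    simp only [hvn]
    rw [← Finset.sum_mul, ← Finset.sum_div, hWx, div_self (hWp x).ne', one_mul]
  -- products with `F i`
  have hFg : ∀ i g, C.MemH μ V' g → C.MemH μ V (fun x => (F i : G → ℂ) x * g x) := by
    intro i g hg
    refine ⟨C.hol_mul (F i).2.1 hg.1, ?_⟩
    have hgc : Continuous g := C.hol_continuous hg.1
    refine Integrable.mono' hg.2 ?_ (Eventually.of_forall fun x => ?_)
    · exact ((((hFc i).mul hgc).norm.pow 2).measurable.div hVa.meas).aestronglyMeasurable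
    · rw [Real.norm_of_nonneg (div_nonneg (by positivity) (hVp x).le), norm_mul, hVx]
      have h1 : (‖(F i : G → ℂ) x‖ * ‖g x‖) ^ 2 / (V' x * W x) =
          ‖(F i : G → ℂ) x‖ ^ 2 / W x * (‖g x‖ ^ 2 / V' x) := by
        have h1 := (hWp x).ne'
        have h2 := (hV'p x).ne'
        field_simp
      rw [h1]
      exact mul_le_of_le_one_left (div_nonneg (by positivity) (hV'p x).le) (hFW i x)
  have hLF : ∀ i g (hg : C.MemH μ V' g), L (F i * ⟨g, hmem' g hg⟩) =
      ∫ x, g x * (starRingEnd ℂ) (v i x) / (V' x : ℂ) ∂μ := by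
    intro i g hg
    have h1 := hkr _ (hFg i g hg)
    rw [hLt _ (hmem _ (hFg i g hg))] at h1
    have h2 : L (F i * ⟨g, hmem' g hg⟩) =
        ∫ x, (F i : G → ℂ) x * g x * (starRingEnd ℂ) (k x) / (V x : ℂ) ∂μ := h1
    rw [h2]
    refine integral_congr_ae (Eventually.of_forall fun x => ?_)
    simp only
    rw [hvx, hVx, map_div₀, map_mul, Complex.conj_conj, Complex.conj_ofReal]
    have h3 := hWne x
    have h4 : (V' x : ℂ) ≠ 0 := by exact_mod_cast (hV'p x).ne'
    push_cast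
    field_simp
  -- projections
  have hproj := fun i => C.memH_proj μ hV'a (hvc i).aestronglyMeasurable (hvi i)
  choose h hhm hho using hproj
  have hpy := fun i => C.memH_pyth μ hV'a (hvc i).aestronglyMeasurable (hvi i) (hhm i) (hho i)
  have hnn : ∀ f : G → ℂ, 0 ≤ nH μ V' f := fun f =>
    integral_nonneg fun x => div_nonneg (by positivity) (hV'p x).le
  have hhK : ∀ i, nH μ V' (h i) ≤ K i := by
    intro i
    have hhc : Continuous (h i) := C.hol_continuous (hhm i).1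
    have h1 := hK i ⟨h i, hmem' _ (hhm i)⟩ (hhm i)
    have i1 := CLG.memH_inner μ hV'a (hvc i).aestronglyMeasurable hhc.aestronglyMeasurable
      (hvi i) (hhm i).2
    have i2 := CLG.memH_inner μ hV'a hhc.aestronglyMeasurable hhc.aestronglyMeasurable
      (hhm i).2 (hhm i).2
    have h2 := hho i (h i) (hhm i)
    have h3 : ∫ x, (v i x - h i x) * (starRingEnd ℂ) (h i x) / (V' x : ℂ) ∂μ =
        ∫ x, v i x * (starRingEnd ℂ) (h i x) / (V' x : ℂ) ∂μ -
        ∫ x, h i x * (starRingEnd ℂ) (h i x) / (V' x : ℂ) ∂μ := by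
      rw [← integral_sub i1 i2]
      refine integral_congr_ae (Eventually.of_forall fun x => ?_)
      simp only
      rw [sub_mul, sub_div]
    rw [h3, SK4_self, sub_eq_zero] at h2
    have h4 : L (F i * ⟨h i, hmem' _ (hhm i)⟩) = ((nH μ V' (h i) : ℝ) : ℂ) := by
      rw [hLF i (h i) (hhm i), ← Complex.conj_ofReal, ← h2, ← integral_conj]
      refine integral_congr_ae (Eventually.of_forall fun x => ?_)
      simp only
      rw [map_div₀, map_mul, Complex.conj_conj, Complex.conj_ofReal, mul_comm]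
    rw [h4, Complex.norm_real, Real.norm_of_nonneg (hnn _)] at h1
    by_contra hc
    rw [not_le] at hc
    have h5 : 0 < nH μ V' (h i) := (hK0 i).trans_lt hc
    have h6 : nH μ V' (h i) * nH μ V' (h i) ≤ K i * nH μ V' (h i) := by
      rw [← sq]
      exact h1
    exact absurd (le_of_mul_le_mul_right h6 h5) (not_le.2 hc)
  -- the weight function
  obtain ⟨φ, hφdef⟩ : ∃ φ : G → ℝ, φ = fun y => Real.log (W₁ y) + (m : ℝ) * Real.log (W y) :=
    ⟨_, rfl⟩
  have hexp : ∀ x, Real.exp (-φ x) = (V' x)⁻¹ := by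
    intro x
    rw [hφdef, hV'def]
    simp only
    rw [Real.exp_neg, Real.exp_add, Real.exp_log (hW₁p x), Real.exp_nat_mul,
      Real.exp_log (hWp x)]
  have hpW : C.Psh (fun y => Real.log (W y)) := by
    have h1 := C.psh_log (F := fun i => (F i : G → ℂ)) (fun i => (F i).2.1)
      (fun x => by rw [hWx]; exact hWp x)
    simp only [hWx] at h1
    exact h1
  have hpW₁ : C.Psh (fun y => Real.log (W₁ y)) := by
    obtain ⟨N₁, F₁, hF₁, hW₁x, -⟩ := hW₁
    have h1 := C.psh_log (F := F₁) (fun i => (hF₁ i).1) (fun x => by rw [← hW₁x]; exact hW₁p x)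
    simp only [← hW₁x] at h1
    exact h1
  have hpsh : C.Psh φ := by
    rw [hφdef]
    exact C.psh_add hpW₁ (C.psh_const_mul hpW (Nat.cast_nonneg m))
  have hLvφ : ∀ x b, (m : ℝ) * C.Lv (fun y => Real.log (W y)) x b ≤ C.Lv φ x b := by
    intro x b
    have s1 := C.sm_ofReal.1 hpW₁.1
    have s2 := C.sm_ofReal.1 hpW.1
    have s3 : C.Sm (fun y => (m : ℝ) * Real.log (W y)) :=
      C.sm_ofReal.1 (C.psh_const_mul hpW (Nat.cast_nonneg m)).1
    rw [hφdef, C.Lv_add s1 s3, C.Lv_const_mul s2]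
    have := hpW₁.2 x b
    linarith
  have hm0 : (0 : ℝ) < m := (Nat.cast_nonneg n).trans_lt hnm
  -- the differences
  have hwsm : ∀ i, C.Sm (fun x => v i x - h i x) := fun i =>
    C.sm_sub (hvsm i) (C.hol_sm (hhm i).1)
  have hhor := C.hormander μ hs hpsh (v := fun i x => v i x - h i x) hwsm
    (by
      intro i
      refine (hpy i).1.congr (Eventually.of_forall fun x => ?_)
      simp only
      rw [hexp, div_eq_mul_inv])
    (by
      intro i g hg hgi
      have hg' : C.MemH μ V' g := ⟨hg, hgi.congr (Eventually.of_forall fun x => by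
        simp only
        rw [hexp, div_eq_mul_inv])⟩
      rw [← hho i g hg']
      refine integral_congr_ae (Eventually.of_forall fun x => ?_)
      simp only
      rw [hexp, div_eq_mul_inv, Complex.ofReal_inv])
    (ρ := fun x => n * (‖k x‖ ^ 2 / W x) / m)
    ((((hkc.norm.pow 2).measurable.div hWc.measurable).const_mul (n : ℝ)).div_const (m : ℝ))
    (fun x => div_nonneg (mul_nonneg (Nat.cast_nonneg n)
      (div_nonneg (by positivity) (hWp x).le)) hm0.le)
    (by
      refine (hk.2.const_mul ((n : ℝ) / m)).congr (Eventually.of_forall fun x => ?_)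
      simp only
      rw [hexp, hVx]
      have h1 := (hWp x).ne'
      have h2 := (hV'p x).ne'
      field_simp)
    (by
      intro x b
      have h1 := C.pointwise_skoda' (F := fun i => (F i : G → ℂ)) (fun i => (F i).2.1)
        (fun x => by rw [hWx]; exact hWp x) hk.1 (φ := φ) hm0
        (by
          intro y c
          simp only [hWx]
          exact hLvφ y c) x b
      simp only [hWx] at h1
      refine le_trans (le_of_eq ?_) h1
      congr 2
      refine Finset.sum_congr rfl fun i _ => Finset.sum_congr rfl fun j _ => ?_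
      rw [C.Xb_sub (hvsm i) (C.hol_sm (hhm i).1), C.Xb_hol (hhm i).1, sub_zero, hvdef])
  have e1 : ∑ i, ∫ x, ‖v i x - h i x‖ ^ 2 * Real.exp (-φ x) ∂μ =
      ∑ i, nH μ V' (fun x => v i x - h i x) := by
    refine Finset.sum_congr rfl fun i _ => ?_
    rw [nH]
    refine integral_congr_ae (Eventually.of_forall fun x => ?_)
    simp only
    rw [hexp, div_eq_mul_inv]
  have e2 : ∫ x, (n * (‖k x‖ ^ 2 / W x) / m) * Real.exp (-φ x) ∂μ = (n : ℝ) / m * nH μ V k := by
    rw [nH, ← integral_const_mul]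
    refine integral_congr_ae (Eventually.of_forall fun x => ?_)
    simp only
    rw [hexp, hVx]
    have h1 := (hWp x).ne'
    have h2 := (hV'p x).ne'
    field_simp
  rw [e1, e2] at hhor
  have hsum : nH μ V k = ∑ i, nH μ V' (h i) + ∑ i, nH μ V' (fun x => v i x - h i x) := by
    rw [← hsumv, ← Finset.sum_add_distrib]
    exact Finset.sum_congr rfl fun i _ => (hpy i).2
  have hK' : ∑ i, nH μ V' (h i) ≤ ∑ i, K i := Finset.sum_le_sum fun i _ => hhK i
  have hfin : nH μ V k ≤ ∑ i, K i + (n : ℝ) / m * nH μ V k := by linarith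
  rw [div_mul_eq_mul_div, le_div_iff₀ (by linarith)]
  have e3 : nH μ V k * m ≤ (∑ i, K i) * m + n * nH μ V k := by
    have := mul_le_mul_of_nonneg_right hfin hm0.le
    have e4 : (∑ i, K i + (n : ℝ) / m * nH μ V k) * m = (∑ i, K i) * m + n * nH μ V k := by
      field_simp
    linarith
  linarith

end HR
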