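import Pool.Agent.W_06f097_h43.ST3
import Pool.Agent.W_06f097_h43.SK4

/-! MP_06f097_an blueprint, block ST: preparations for step (B). -/

open scoped Topology ContDiff
open MeasureTheory Set Filter Metric

set_option linter.unusedSectionVars false

noncomputable section

namespace HR

variable {n : ℕ} {G : Type*} [Group G] [TopologicalSpace G] [IsTopologicalGroup G] [T2Space G]
  [LocallyCompactSpace G] [SecondCountableTopology G] [MeasurableSpace G] [BorelSpace G]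
  (C : CLG n G) (μ : Measure G) [μ.IsHaarMeasure] {l : G → ℝ} (hl : Len μ l)
  {B : Type*} [NormedCommRing B] [NormedAlgebra ℂ B] [CompleteSpace B]

variable {μ} in
/-- the points of `G` in the spectrum of `Φ` -/
def specQ (Φ : Aexp C hl →ₐ[ℂ] B) : Set G := {x | ∀ f : Aexp C hl, ‖(f : G → ℂ) x‖ ≤ ‖Φ f‖}

/-- closed, and `om_R` is bounded on it by the continuity of `Φ`: `rel_compact` -/
theorem specQ_compact {h : Aexp C hl} {W₀ : G → ℝ} (hW : IsWA C hl W₀)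
    (hh : C.MemH μ W₀ (h : G → ℂ)) (h0 : (h : G → ℂ) ≠ 0)
    (Φ : Aexp C hl →ₐ[ℂ] B) (hΦ : Cts C hl Φ) : IsCompact (specQ C hl Φ) := by
  have hcl : IsClosed (specQ C hl Φ) := by
    have e : specQ C hl Φ = ⋂ f : Aexp C hl, {x | ‖(f : G → ℂ) x‖ ≤ ‖Φ f‖} := by
      ext x
      simp [specQ]
    rw [e]
    exact isClosed_iInter fun f => isClosed_le (C.hol_continuous f.2.1).norm continuous_const
  obtain ⟨K, hK, hsub⟩ := rel_compact C μ hl hW hh h0 (S := specQ C hl Φ) (by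
    intro R hR
    obtain ⟨M, hM, hb⟩ := hΦ R hR
    refine ⟨M, fun x hx => ?_⟩
    apply csSup_le
    · refine ⟨_, (0 : Aexp C hl), fun y => ?_, rfl⟩
      have : ((0 : Aexp C hl) : G → ℂ) y = 0 := rfl
      rw [this, norm_zero]
      positivity
    · rintro _ ⟨g, hg, rfl⟩
      exact (hx g).trans (hb g hg))
  exact hK.of_isClosed_subset hcl hsub

/-- The separating family. For `x ∉ specQ` there is `f` with `‖Φ f‖ < t < |f x|`; divide by `t`,
cover the compact set `L` by finitely many sets `{|f_i| > 1}` and replace the `f_i` by a high common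
power; add a small constant function. The number `N` does not depend on `δ`. -/
theorem exists_family (Φ : Aexp C hl →ₐ[ℂ] B) {L : Set G} (hL : IsCompact L)
    (hdis : Disjoint L (specQ C hl Φ)) : ∃ N : ℕ, ∀ δ : ℝ, 0 < δ → ∃ F : Fin N → Aexp C hl,
      (∃ c : ℝ, 0 < c ∧ ∀ x, c ≤ ∑ i, ‖(F i : G → ℂ) x‖ ^ 2) ∧
      (∀ x ∈ L, 1 ≤ ∑ i, ‖(F i : G → ℂ) x‖ ^ 2) ∧ ∀ i, ‖Φ (F i)‖ ≤ δ := by
  have h1 : ∀ x ∈ L, ∃ f : Aexp C hl, ‖Φ f‖ < 1 ∧ 1 < ‖(f : G → ℂ) x‖ := by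
    intro x hx
    have h2 : x ∉ specQ C hl Φ := fun h => (disjoint_left.1 hdis) hx h
    simp only [specQ, mem_ofPred_eq, not_forall, not_le] at h2
    obtain ⟨f, hf⟩ := h2
    obtain ⟨t, ht1, ht2⟩ := exists_between hf
    have ht0 : 0 < t := (norm_nonneg _).trans_lt ht1
    refine ⟨((t : ℝ) : ℂ)⁻¹ • f, ?_, ?_⟩
    · rw [map_smul, norm_smul, norm_inv, Complex.norm_real, Real.norm_eq_abs, abs_of_pos ht0,
        inv_mul_lt_iff₀ ht0, mul_one]
      exact ht1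
    · have e : ((((t : ℝ) : ℂ)⁻¹ • f : Aexp C hl) : G → ℂ) x = ((t : ℝ) : ℂ)⁻¹ * (f : G → ℂ) x := rfl
      rw [e, norm_mul, norm_inv, Complex.norm_real, Real.norm_eq_abs, abs_of_pos ht0,
        lt_inv_mul_iff₀ ht0, mul_one]
      exact ht2
  choose! f hf1 hf2 using h1
  obtain ⟨t, htL, ht⟩ := hL.elim_nhds_subcover (fun x => {y | 1 < ‖(f x : G → ℂ) y‖}) (by
    intro x hx
    exact (isOpen_lt continuous_const (C.hol_continuous (f x).2.1).norm).mem_nhds (hf2 x hx))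
  refine ⟨t.card + 1, fun δ hδ => ?_⟩
  -- common power
  have hp : ∃ p : ℕ, 1 ≤ p ∧ ∀ x ∈ t, ‖Φ (f x)‖ ^ p ≤ δ := by
    have h3 : ∀ x ∈ t, ∀ᶠ p : ℕ in atTop, ‖Φ (f x)‖ ^ p ≤ δ := by
      intro x hx
      have := tendsto_pow_atTop_nhds_zero_of_lt_one (norm_nonneg (Φ (f x))) (hf1 x (htL x hx))
      exact (this.eventually (gt_mem_nhds hδ)).mono fun p hp => hp.le
    have h4 : ∀ᶠ p : ℕ in atTop, ∀ x ∈ t, ‖Φ (f x)‖ ^ p ≤ δ :=
      (Finset.eventually_all t).2 h3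
    obtain ⟨p, hp1, hp2⟩ := (h4.and (eventually_ge_atTop 1)).exists
    exact ⟨p, hp2, hp1⟩
  obtain ⟨p, hp1, hp2⟩ := hp
  set c₀ : ℝ := δ / (‖(1 : B)‖ + 1) with hc₀
  have hc₀pos : 0 < c₀ := by positivity
  set F : Fin (t.card + 1) → Aexp C hl := Fin.cons (algebraMap ℂ _ ((c₀ : ℝ) : ℂ))
    (fun i => f (t.equivFin.symm i) ^ p) with hF
  have hFs : ∀ x, ∑ i, ‖(F i : G → ℂ) x‖ ^ 2 =
      c₀ ^ 2 + ∑ i, ‖(f (t.equivFin.symm i) : G → ℂ) x ^ p‖ ^ 2 := by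
    intro x
    rw [Fin.sum_univ_succ]
    congr 1
    simp only [hF, Fin.cons_zero]
    have e : ((algebraMap ℂ (Aexp C hl) ((c₀ : ℝ) : ℂ) : Aexp C hl) : G → ℂ) x = ((c₀ : ℝ) : ℂ) :=
      rfl
    rw [e, Complex.norm_real, Real.norm_eq_abs, sq_abs]
  refine ⟨F, ⟨c₀ ^ 2, by positivity, fun x => ?_⟩, fun x hx => ?_, ?_⟩
  · rw [hFs]
    have : 0 ≤ ∑ i, ‖(f (t.equivFin.symm i) : G → ℂ) x ^ p‖ ^ 2 :=
      Finset.sum_nonneg fun _ _ => by positivity
    linarith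
  · obtain ⟨a, hat, ha⟩ := mem_iUnion₂.1 (ht hx)
    rw [hFs]
    have h5 : ‖(f (t.equivFin.symm (t.equivFin ⟨a, hat⟩)) : G → ℂ) x ^ p‖ ^ 2 ≤
        ∑ i, ‖(f (t.equivFin.symm i) : G → ℂ) x ^ p‖ ^ 2 :=
      Finset.single_le_sum (f := fun i => ‖(f (t.equivFin.symm i) : G → ℂ) x ^ p‖ ^ 2)
        (fun _ _ => by positivity) (Finset.mem_univ (t.equivFin ⟨a, hat⟩))
    rw [Equiv.symm_apply_apply] at h5
    have h6 : 1 ≤ ‖(f a : G → ℂ) x ^ p‖ ^ 2 := by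
      rw [norm_pow]
      exact one_le_pow₀ (one_le_pow₀ (le_of_lt ha))
    have h7 : 0 ≤ c₀ ^ 2 := by positivity
    simp only at h5
    linarith
  · intro i
    refine Fin.cases ?_ (fun i => ?_) i
    · simp only [hF, Fin.cons_zero]
      rw [AlgHom.commutes, norm_algebraMap, Complex.norm_real, Real.norm_eq_abs,
        abs_of_pos hc₀pos, hc₀, div_mul_eq_mul_div, div_le_iff₀ (by positivity)]
      nlinarith [norm_nonneg (1 : B)]
    · simp only [hF, Fin.cons_succ]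
      rw [map_pow]
      refine (norm_pow_le' _ hp1).trans ?_
      exact hp2 _ (t.equivFin.symm i).2

theorem ST5_V {N : ℕ} {F : Fin N → Aexp C hl}
    (hF : ∃ c : ℝ, 0 < c ∧ ∀ x, c ≤ ∑ i, ‖(F i : G → ℂ) x‖ ^ 2) {W₁ : G → ℝ}
    (hW₁ : IsWA C hl W₁) (k : ℕ) :
    IsWA C hl (fun x => W₁ x * (∑ i, ‖(F i : G → ℂ) x‖ ^ 2) ^ k) :=
  isWA_mul C μ hl hW₁ (isWA_pow C μ hl
    (W := fun x => ∑ i, ‖(F i : G → ℂ) x‖ ^ 2)
    ⟨N, fun i => (F i : G → ℂ), fun i => (F i).2, fun _ => rfl, hF⟩ k)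

theorem ST5_nH_nonneg {W : G → ℝ} (hW : IsWA C hl W) (g : G → ℂ) : 0 ≤ nH μ W g :=
  integral_nonneg fun x => div_nonneg (by positivity) (isWA_pos C μ hl hW x).le

/-- Iteration of `skoda`. With `k₀ = 2 n + 2` prove by induction on `k ≥ k₀`: for all continuous
functionals `λ` on `B` and `b ∈ B`,
`|λ (b Φ g)|² ≤ A (2 N δ²)^(k - k₀) ‖λ‖² ‖b‖² nH (W₁ |F|^(2k)) g`
(start: `cts_bound_W`; step: `skoda` with `L g = λ (b Φ g)`, `L (F_i g) = λ ((b Φ F_i) Φ g)`,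
`(M-1)/(M-1-n) = k/(k-n) ≤ 2`). Then `b = 1` and Hahn-Banach. -/
theorem iterate_bound {s : G → ℝ} (hs : C.Kah s) (Φ : Aexp C hl →ₐ[ℂ] B) (hΦ : Cts C hl Φ)
    {N : ℕ} {F : Fin N → Aexp C hl} {δ : ℝ}
    (hF : ∃ c : ℝ, 0 < c ∧ ∀ x, c ≤ ∑ i, ‖(F i : G → ℂ) x‖ ^ 2)
    (hδ : ∀ i, ‖Φ (F i)‖ ≤ δ) {W₁ : G → ℝ} (hW₁ : IsWA C hl W₁) :
    ∃ (k₀ : ℕ) (A : ℝ), 0 ≤ A ∧ ∀ k, k₀ ≤ k → ∀ g : Aexp C hl,
      C.MemH μ (fun x => W₁ x * (∑ i, ‖(F i : G → ℂ) x‖ ^ 2) ^ k) (g : G → ℂ) →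
      ‖Φ g‖ ^ 2 ≤ A * (2 * N * δ ^ 2) ^ (k - k₀) *
        nH μ (fun x => W₁ x * (∑ i, ‖(F i : G → ℂ) x‖ ^ 2) ^ k) (g : G → ℂ) := by
  have hV := ST5_V C μ hl hF hW₁
  obtain ⟨K, hK0, hK⟩ := cts_bound_W C μ hl Φ.toLinearMap hΦ (hV (2 * n + 2))
  refine ⟨2 * n + 2, K * ‖(1 : B)‖ ^ 2, by positivity, ?_⟩
  have main : ∀ j : ℕ, ∀ (lam : B →L[ℂ] ℂ) (b : B) (g : Aexp C hl),
      C.MemH μ (fun x => W₁ x * (∑ i, ‖(F i : G → ℂ) x‖ ^ 2) ^ (2 * n + 2 + j)) (g : G → ℂ) →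
      ‖lam (b * Φ g)‖ ^ 2 ≤ K * (2 * N * δ ^ 2) ^ j * ‖lam‖ ^ 2 * ‖b‖ ^ 2 *
        nH μ (fun x => W₁ x * (∑ i, ‖(F i : G → ℂ) x‖ ^ 2) ^ (2 * n + 2 + j)) (g : G → ℂ) := by
    intro j
    induction j with
    | zero =>
      intro lam b g hg
      have h1 := hK g hg
      have h2 : ‖lam (b * Φ g)‖ ≤ ‖lam‖ * (‖b‖ * ‖Φ g‖) :=
        (lam.le_opNorm _).trans (by gcongr; exact norm_mul_le _ _)
      calc ‖lam (b * Φ g)‖ ^ 2 ≤ (‖lam‖ * (‖b‖ * ‖Φ g‖)) ^ 2 := by gcongr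
        _ = ‖lam‖ ^ 2 * ‖b‖ ^ 2 * ‖Φ g‖ ^ 2 := by ring
        _ ≤ ‖lam‖ ^ 2 * ‖b‖ ^ 2 * (K *
            nH μ (fun x => W₁ x * (∑ i, ‖(F i : G → ℂ) x‖ ^ 2) ^ (2 * n + 2)) (g : G → ℂ)) := by
            gcongr
            exact h1
        _ = _ := by simp only [Nat.add_zero, pow_zero]; ring
    | succ j ih =>
      intro lam b g hg
      set L : Aexp C hl →ₗ[ℂ] ℂ :=
        { toFun := fun f => lam (b * Φ f)
          map_add' := fun f g => by rw [map_add, mul_add, map_add]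
          map_smul' := fun t f => by
            rw [map_smul, mul_smul_comm, map_smul, RingHom.id_apply] } with hLdef
      have hLa : ∀ f, L f = lam (b * Φ f) := fun f => rfl
      have hL : Cts C hl L := by
        intro R hR
        obtain ⟨M, hM, hb⟩ := hΦ R hR
        refine ⟨‖lam‖ * (‖b‖ * M), by positivity, fun f hf => ?_⟩
        rw [hLa]
        refine (lam.le_opNorm _).trans ?_
        have h3 := hb f hf
        have h4 : ‖b * Φ f‖ ≤ ‖b‖ * M := (norm_mul_le _ _).trans (by gcongr)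
        gcongr
      have hnn : 0 ≤ (2 * N * δ ^ 2) ^ j := by positivity
      have h5 := skoda C μ hl hs hF hW₁ (M := 2 * n + 2 + j + 1) (by omega) L hL
        (K := fun _ => K * (2 * N * δ ^ 2) ^ j * ‖lam‖ ^ 2 * ‖b‖ ^ 2 * δ ^ 2)
        (fun i => by positivity) (by
          intro i f hf
          have h6 : L (F i * f) = lam ((b * Φ (F i)) * Φ f) := by
            rw [hLa, map_mul Φ, mul_assoc]
          rw [h6]
          have h7 := ih lam (b * Φ (F i)) f hf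
          refine h7.trans ?_
          have h8 : ‖b * Φ (F i)‖ ^ 2 ≤ ‖b‖ ^ 2 * δ ^ 2 := by
            have h9 : ‖b * Φ (F i)‖ ≤ ‖b‖ * δ :=
              (norm_mul_le _ _).trans (by have := hδ i; gcongr)
            calc ‖b * Φ (F i)‖ ^ 2 ≤ (‖b‖ * δ) ^ 2 := by gcongr
              _ = _ := by ring
          have h10 := ST5_nH_nonneg C μ hl (hV (2 * n + 2 + j)) (f : G → ℂ)
          calc K * (2 * N * δ ^ 2) ^ j * ‖lam‖ ^ 2 * ‖b * Φ (F i)‖ ^ 2 *
              nH μ (fun x => W₁ x * (∑ i, ‖(F i : G → ℂ) x‖ ^ 2) ^ (2 * n + 2 + j)) (f : G → ℂ)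
              ≤ K * (2 * N * δ ^ 2) ^ j * ‖lam‖ ^ 2 * (‖b‖ ^ 2 * δ ^ 2) *
              nH μ (fun x => W₁ x * (∑ i, ‖(F i : G → ℂ) x‖ ^ 2) ^ (2 * n + 2 + j)) (f : G → ℂ) := by
                gcongr
            _ = _ := by
                rw [Nat.add_sub_cancel]
                ring) g hg
      rw [hLa] at h5
      refine h5.trans ?_
      have h10 := ST5_nH_nonneg C μ hl (hV (2 * n + 2 + (j + 1))) (g : G → ℂ)
      have h11 : (((2 * n + 2 + j + 1 : ℕ) : ℝ) - 1) / (((2 * n + 2 + j + 1 : ℕ) : ℝ) - 1 - n) ≤ 2 := by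
        push_cast
        rw [div_le_iff₀ (by ring_nf; positivity)]
        have : (0 : ℝ) ≤ j := by positivity
        nlinarith
      have h12 : ∑ i : Fin N, K * (2 * N * δ ^ 2) ^ j * ‖lam‖ ^ 2 * ‖b‖ ^ 2 * δ ^ 2 =
          N * (K * (2 * N * δ ^ 2) ^ j * ‖lam‖ ^ 2 * ‖b‖ ^ 2 * δ ^ 2) := by
        rw [Finset.sum_const, Finset.card_univ, Fintype.card_fin, nsmul_eq_mul]
      rw [h12]
      have h13 : 0 ≤ N * (K * (2 * N * δ ^ 2) ^ j * ‖lam‖ ^ 2 * ‖b‖ ^ 2 * δ ^ 2) := by positivity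
      calc _ ≤ 2 * (N * (K * (2 * N * δ ^ 2) ^ j * ‖lam‖ ^ 2 * ‖b‖ ^ 2 * δ ^ 2)) *
            nH μ (fun x => W₁ x * (∑ i, ‖(F i : G → ℂ) x‖ ^ 2) ^ (2 * n + 2 + (j + 1)))
              (g : G → ℂ) := by
            refine mul_le_mul_of_nonneg_right ?_ h10
            exact mul_le_mul_of_nonneg_right h11 h13
        _ = _ := by ring
  intro k hk g hg
  obtain ⟨j, rfl⟩ := Nat.exists_eq_add_of_le hk
  obtain ⟨lam, hlam1, hlam2⟩ := exists_dual_vector'' ℂ (Φ g)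
  have h1 := main j lam 1 g hg
  rw [one_mul, hlam2] at h1
  have h2 : ‖((‖Φ g‖ : ℝ) : ℂ)‖ = ‖Φ g‖ := by
    rw [Complex.norm_real, Real.norm_eq_abs, abs_of_nonneg (norm_nonneg _)]
  have h3 : ‖Φ g‖ ^ 2 ≤ K * (2 * N * δ ^ 2) ^ j * ‖lam‖ ^ 2 * ‖(1 : B)‖ ^ 2 *
        nH μ (fun x => W₁ x * (∑ i, ‖(F i : G → ℂ) x‖ ^ 2) ^ (2 * n + 2 + j)) (g : G → ℂ) := by
    rw [← h2]
    exact h1
  rw [Nat.add_sub_cancel_left]
  refine h3.trans ?_
  have h10 := ST5_nH_nonneg C μ hl (hV (2 * n + 2 + j)) (g : G → ℂ)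
  have h4 : ‖lam‖ ^ 2 ≤ 1 := pow_le_one₀ (norm_nonneg _) hlam1
  have h5 : 0 ≤ K * (2 * N * δ ^ 2) ^ j := by positivity
  calc _ ≤ K * (2 * N * δ ^ 2) ^ j * 1 * ‖(1 : B)‖ ^ 2 *
        nH μ (fun x => W₁ x * (∑ i, ‖(F i : G → ℂ) x‖ ^ 2) ^ (2 * n + 2 + j)) (g : G → ℂ) := by
        gcongr
    _ = _ := by ring

theorem ST5_cs {ι : Type*} (s : Finset ι) (u v : ι → ℂ) :
    ‖∑ i ∈ s, u i * v i‖ ^ 2 ≤ (∑ i ∈ s, ‖u i‖ ^ 2) * (∑ i ∈ s, ‖v i‖ ^ 2) := by
  have h1 : ‖∑ i ∈ s, u i * v i‖ ≤ ∑ i ∈ s, ‖u i‖ * ‖v i‖ := by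
    refine (norm_sum_le _ _).trans (Finset.sum_le_sum fun i _ => ?_)
    rw [norm_mul]
  calc ‖∑ i ∈ s, u i * v i‖ ^ 2 ≤ (∑ i ∈ s, ‖u i‖ * ‖v i‖) ^ 2 := by
        gcongr
    _ ≤ _ := Finset.sum_mul_sq_le_sq_mul_sq _ _ _

/-- lower bound of the Levi form of the logarithm if one of the functions is `1` -/
theorem ST5_log_lower {N : ℕ} {F : Fin N → G → ℂ} (hF : ∀ i, C.Hol (F i)) (i₀ : Fin N)
    (h1 : ∀ x, F i₀ x = 1) (hpos : ∀ x, 0 < ∑ i, ‖F i x‖ ^ 2) (x : G) (b : En n) :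
    (∑ i, ‖∑ j, b j * C.X j (F i) x‖ ^ 2) / (∑ i, ‖F i x‖ ^ 2) ^ 2 ≤
      C.Lv (fun y => Real.log (∑ i, ‖F i y‖ ^ 2)) x b := by
  rw [C.Lv_log hF hpos]
  have hW := hpos x
  have e1 : F i₀ = fun _ => (1 : ℂ) := funext h1
  have e2 : (∑ j, b j * C.X j (F i₀) x) = 0 := by
    rw [e1]
    apply Finset.sum_eq_zero
    intro j _
    rw [C.X_const, mul_zero]
  have e3 : (∑ i, (starRingEnd ℂ) (F i x) * ∑ j, b j * C.X j (F i) x) =
      ∑ i ∈ Finset.univ.erase i₀, (starRingEnd ℂ) (F i x) * ∑ j, b j * C.X j (F i) x := by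
    rw [← Finset.add_sum_erase _ _ (Finset.mem_univ i₀), e2, mul_zero, zero_add]
  have e4 : (∑ i, ‖F i x‖ ^ 2) = 1 + ∑ i ∈ Finset.univ.erase i₀, ‖F i x‖ ^ 2 := by
    rw [← Finset.add_sum_erase _ _ (Finset.mem_univ i₀), h1]
    simp
  have e5 : (∑ i, ‖∑ j, b j * C.X j (F i) x‖ ^ 2) =
      ∑ i ∈ Finset.univ.erase i₀, ‖∑ j, b j * C.X j (F i) x‖ ^ 2 := by
    rw [← Finset.add_sum_erase _ _ (Finset.mem_univ i₀), e2]
    simp
  have h2 := ST5_cs (Finset.univ.erase i₀) (fun i => (starRingEnd ℂ) (F i x))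
    (fun i => ∑ j, b j * C.X j (F i) x)
  simp only [RCLike.norm_conj] at h2
  rw [← e3, ← e5] at h2
  set Q := ∑ i, ‖∑ j, b j * C.X j (F i) x‖ ^ 2 with hQ
  have hQ0 : 0 ≤ Q := Finset.sum_nonneg fun _ _ => by positivity
  gcongr
  nlinarith [h2, e4]

/-- a quarter of the square norm -/
theorem ST5_quarter (X : Fin n → Fin n → ℂ)
    (hX : ∑ i, ∑ j, ‖X i j - (if i = j then 1 else 0)‖ ^ 2 < 1 / 4) (b : En n) :
    (1 / 4) * ∑ j, ‖b j‖ ^ 2 ≤ ∑ i, ‖∑ j, b j * X i j‖ ^ 2 := by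
  set S := ∑ j, ‖b j‖ ^ 2 with hS
  have hS0 : 0 ≤ S := Finset.sum_nonneg fun _ _ => by positivity
  have h1 : ∀ i, ‖b i‖ ^ 2 ≤ 2 * ‖∑ j, b j * X i j‖ ^ 2 +
      2 * (S * ∑ j, ‖X i j - (if i = j then 1 else 0)‖ ^ 2) := by
    intro i
    have h2 := ST5_cs Finset.univ b (fun j => X i j - (if i = j then 1 else 0))
    have e1 : (∑ j, b j * (X i j - (if i = j then 1 else 0))) = (∑ j, b j * X i j) - b i := by
      simp only [mul_sub, Finset.sum_sub_distrib]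
      congr 1
      simp
    rw [e1] at h2
    have h3 : ‖b i‖ ≤ ‖∑ j, b j * X i j‖ + ‖(∑ j, b j * X i j) - b i‖ := by
      have := norm_sub_le (∑ j, b j * X i j) ((∑ j, b j * X i j) - b i)
      rwa [sub_sub_cancel] at this
    have h4 : ‖b i‖ ^ 2 ≤ (‖∑ j, b j * X i j‖ + ‖(∑ j, b j * X i j) - b i‖) ^ 2 := by gcongr
    nlinarith [sq_nonneg (‖∑ j, b j * X i j‖ - ‖(∑ j, b j * X i j) - b i‖)]
  have h2 := Finset.sum_le_sum fun i (_ : i ∈ Finset.univ) => h1 i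
  rw [Finset.sum_add_distrib, ← Finset.mul_sum, ← Finset.mul_sum, ← Finset.mul_sum] at h2
  nlinarith [h2, mul_le_mul_of_nonneg_left hX.le hS0]

/-- A weight with strictly positive Levi form of the logarithm on a compact set:
`W₁ = 1 + Σ_a Σ_i |f_i(a x)|²` over finitely many `a` (`exists_coord`): near `x₀` take
`a = x₀⁻¹`, use `X_left`, continuity and compactness; `Lv_log` is at least
`Σ |b . X f|² / W₁²`. -/
theorem exists_strict (hsep : ∀ v : En n, v ≠ 0 → ∃ f : Aexp C hl, C.D (f : G → ℂ) 1 v ≠ 0)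
    {L : Set G} (hL : IsCompact L) : ∃ W₁ : G → ℝ, IsWA C hl W₁ ∧ ∃ c : ℝ, 0 < c ∧
      ∀ x ∈ L, ∀ b : En n, c * ∑ j, ‖b j‖ ^ 2 ≤ C.Lv (fun y => Real.log (W₁ y)) x b := by
  classical
  obtain ⟨f, -, hf2⟩ := exists_coord C μ hl hsep
  set E : G → ℝ := fun y => ∑ i, ∑ j, ‖C.X j (f i : G → ℂ) y - (if i = j then 1 else 0)‖ ^ 2 with hE
  have hEc : Continuous E := by
    refine continuous_finsetSum _ fun i _ => continuous_finsetSum _ fun j _ => ?_
    exact ((C.hol_continuous (C.hol_X (f i).2.1 j)).sub continuous_const).norm.pow 2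
  have hE1 : E 1 = 0 := by
    simp only [hE, hf2]
    simp
  obtain ⟨T, hTL, hT⟩ := hL.elim_nhds_subcover (fun x₀ => {x | E (x₀⁻¹ * x) < 1 / 4}) (by
    intro x₀ _
    have h1 : Continuous (fun x => E (x₀⁻¹ * x)) := hEc.comp (continuous_const_mul _)
    apply (isOpen_lt h1 continuous_const).mem_nhds
    simp only [mem_ofPred_eq, inv_mul_cancel, hE1]
    norm_num)
  set Fo : Option (T × Fin n) → Aexp C hl := fun o =>
    o.elim 1 (fun p => Lt C hl (p.1 : G)⁻¹ (f p.2)) with hFo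
  set e := Fintype.equivFin (Option (T × Fin n)) with he
  set F : Fin (Fintype.card (Option (T × Fin n))) → G → ℂ := fun k => (Fo (e.symm k) : G → ℂ)
    with hFdef
  have hFhol : ∀ k, C.Hol (F k) := fun k => (Fo (e.symm k)).2.1
  set i₀ := e none with hi₀
  have hFi₀ : ∀ x, F i₀ x = 1 := by
    intro x
    simp only [hFdef, hi₀, Equiv.symm_apply_apply, hFo, Option.elim]
    rfl
  have hge1 : ∀ x, 1 ≤ ∑ k, ‖F k x‖ ^ 2 := by
    intro x
    have h1 := Finset.single_le_sum (f := fun k => ‖F k x‖ ^ 2) (fun _ _ => by positivity)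
      (Finset.mem_univ i₀)
    simp only [hFi₀] at h1
    simpa using h1
  have hpos : ∀ x, 0 < ∑ k, ‖F k x‖ ^ 2 := fun x => one_pos.trans_le (hge1 x)
  refine ⟨fun x => ∑ k, ‖F k x‖ ^ 2, ⟨_, F, fun k => (Fo (e.symm k)).2, fun _ => rfl, 1, one_pos,
    hge1⟩, ?_⟩
  have hWc : Continuous (fun x => ∑ k, ‖F k x‖ ^ 2) :=
    continuous_finsetSum _ fun k _ => (C.hol_continuous (hFhol k)).norm.pow 2
  obtain ⟨M, hM⟩ := hL.exists_bound_of_continuousOn hWc.continuousOn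
  set M' := max M 1 with hM'
  have hM'0 : 0 < M' := one_pos.trans_le (le_max_right _ _)
  refine ⟨1 / (4 * M' ^ 2), by positivity, ?_⟩
  intro x hx b
  refine le_trans ?_ (ST5_log_lower C hFhol i₀ hFi₀ hpos x b)
  have hWM : ∑ k, ‖F k x‖ ^ 2 ≤ M' := by
    have h1 := hM x hx
    rw [Real.norm_eq_abs, abs_of_pos (hpos x)] at h1
    exact h1.trans (le_max_left _ _)
  obtain ⟨a, haT, ha⟩ := mem_iUnion₂.1 (hT hx)
  have h2 := ST5_quarter (fun i j => C.X j (f i : G → ℂ) (a⁻¹ * x)) ha b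
  have h3 : ∑ i, ‖∑ j, b j * C.X j (f i : G → ℂ) (a⁻¹ * x)‖ ^ 2 ≤
      ∑ k, ‖∑ j, b j * C.X j (F k) x‖ ^ 2 := by
    have h4 : ∑ k, ‖∑ j, b j * C.X j (F k) x‖ ^ 2 =
        ∑ o, ‖∑ j, b j * C.X j (Fo o : G → ℂ) x‖ ^ 2 :=
      Equiv.sum_comp e.symm (fun o => ‖∑ j, b j * C.X j (Fo o : G → ℂ) x‖ ^ 2)
    rw [h4, Fintype.sum_option, Fintype.sum_prod_type]
    have h5 := Finset.single_le_sum (s := (Finset.univ : Finset T))
      (f := fun a : T => ∑ i, ‖∑ j, b j * C.X j (Fo (some (a, i)) : G → ℂ) x‖ ^ 2)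
      (fun _ _ => Finset.sum_nonneg fun _ _ => by positivity) (Finset.mem_univ ⟨a, haT⟩)
    refine le_trans (le_of_eq ?_) (h5.trans (le_add_of_nonneg_left (by positivity)))
    refine Finset.sum_congr rfl fun i _ => ?_
    congr 2
    refine Finset.sum_congr rfl fun j _ => ?_
    congr 1
    exact (C.X_left (f i : G → ℂ) a⁻¹ j x).symm
  have hWx := hpos x
  calc 1 / (4 * M' ^ 2) * ∑ j, ‖b j‖ ^ 2 = (1 / 4 * ∑ j, ‖b j‖ ^ 2) / M' ^ 2 := by
        field_simp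
    _ ≤ (∑ k, ‖∑ j, b j * C.X j (F k) x‖ ^ 2) / M' ^ 2 := by
        gcongr
        exact h2.trans h3
    _ ≤ _ := by
        gcongr

theorem ST5_exp {a b : ℝ} (ha : 0 < a) (hb : 0 < b) (k : ℕ) :
    Real.exp (-(Real.log a + k * Real.log b)) = 1 / (a * b ^ k) := by
  rw [Real.exp_neg, Real.exp_add, Real.exp_log ha, Real.exp_nat_mul, Real.exp_log hb, one_div]

theorem ST5_psh_log {W : G → ℝ} (hW : IsWA C hl W) : C.Psh (fun y => Real.log (W y)) := by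
  have hpos := isWA_pos C μ hl hW
  obtain ⟨N, F, hF, hWF, -⟩ := hW
  have e : W = fun x => ∑ i, ‖F i x‖ ^ 2 := funext hWF
  subst e
  exact C.psh_log (fun i => (hF i).1) hpos

/-- The Runge approximation. `θ` a smooth cutoff whose derivative is supported in `L`; `h` = the
projection of `θ g` on the holomorphic functions for the weight `V_k = W₁ |F|^(2k)`;
`Xb_m (θ g - h) = g Xb_m θ`; `hormander` with `ρ = m² |∂bar θ|² / c` on `L`, `0` elsewhere, and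
`1 / V_k ≤ 1 / W₁` on `L`. The constant `T` depends on `θ, W₁, c` only. -/
theorem runge_step {s : G → ℝ} (hs : C.Kah s) {θ : G → ℝ} (hθ : C.Sm θ)
    (hθc : HasCompactSupport θ) {L : Set G} (hL : IsCompact L)
    (hθL : ∀ x, x ∉ L → ∀ j, C.Xb j (fun y => (θ y : ℂ)) x = 0)
    {W₁ : G → ℝ} (hW₁ : IsWA C hl W₁) {c : ℝ} (hc : 0 < c)
    (hpos : ∀ x ∈ L, ∀ b : En n, c * ∑ j, ‖b j‖ ^ 2 ≤ C.Lv (fun y => Real.log (W₁ y)) x b)
    {N : ℕ} {F : Fin N → Aexp C hl}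
    (hF : ∃ c' : ℝ, 0 < c' ∧ ∀ x, c' ≤ ∑ i, ‖(F i : G → ℂ) x‖ ^ 2)
    (hFL : ∀ x ∈ L, 1 ≤ ∑ i, ‖(F i : G → ℂ) x‖ ^ 2) :
    ∃ T : ℝ, 0 ≤ T ∧ ∀ (k : ℕ) (g : G → ℂ) (m : ℝ), C.Hol g → 0 ≤ m →
      (∀ x ∈ tsupport θ, ‖g x‖ ≤ m) → ∃ h : Aexp C hl,
        C.MemH μ (fun x => W₁ x * (∑ i, ‖(F i : G → ℂ) x‖ ^ 2) ^ k) (h : G → ℂ) ∧
        Integrable (fun x => ‖(θ x : ℂ) * g x - (h : G → ℂ) x‖ ^ 2 /
          (W₁ x * (∑ i, ‖(F i : G → ℂ) x‖ ^ 2) ^ k)) μ ∧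
        nH μ (fun x => W₁ x * (∑ i, ‖(F i : G → ℂ) x‖ ^ 2) ^ k)
          (fun x => (θ x : ℂ) * g x - (h : G → ℂ) x) ≤ T * m ^ 2 := by
  have hθs : C.Sm (fun y => (θ y : ℂ)) := C.sm_ofReal.2 hθ
  have hW₁pos := isWA_pos C μ hl hW₁
  have hW₁c : Continuous W₁ := C.sm_continuous (isWA_sm C μ hl hW₁)
  set D : G → ℝ := fun x => ∑ j, ‖C.Xb j (fun y => (θ y : ℂ)) x‖ ^ 2 with hD
  have hDc : Continuous D :=
    continuous_finsetSum _ fun j _ => (C.sm_continuous (C.sm_Xb hθs j)).norm.pow 2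
  have hD0 : ∀ x, 0 ≤ D x := fun x => Finset.sum_nonneg fun _ _ => by positivity
  have hDL : ∀ x, x ∉ L → D x = 0 := by
    intro x hx
    simp [hD, hθL x hx]
  have hsupp0 : ∀ x, x ∉ tsupport θ → ∀ j, C.Xb j (fun y => (θ y : ℂ)) x = 0 := by
    intro x hx j
    have h1 : (fun y => (θ y : ℂ)) =ᶠ[𝓝 x] fun _ => (0 : ℂ) := by
      filter_upwards [(isClosed_tsupport θ).isOpen_compl.mem_nhds hx] with y hy
      rw [image_eq_zero_of_notMem_tsupport hy]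
      simp
    rw [C.Xb_congr h1, C.Xb_const]
  have hTi : Integrable (fun x => D x / (c * W₁ x)) μ := by
    apply Continuous.integrable_of_hasCompactSupport
    · exact hDc.div (continuous_const.mul hW₁c) fun x => (mul_pos hc (hW₁pos x)).ne'
    · apply HasCompactSupport.intro hL
      intro x hx
      rw [hDL x hx, zero_div]
  refine ⟨∫ x, D x / (c * W₁ x) ∂μ, integral_nonneg fun x =>
    div_nonneg (hD0 x) (mul_pos hc (hW₁pos x)).le, ?_⟩
  intro k g m hg hm hgm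
  have hV := ST5_V C μ hl hF hW₁ k
  set V : G → ℝ := fun x => W₁ x * (∑ i, ‖(F i : G → ℂ) x‖ ^ 2) ^ k with hVdef
  have hVpos := isWA_pos C μ hl hV
  have hVc : Continuous V := C.sm_continuous (isWA_sm C μ hl hV)
  have hVadm := isWA_adm C μ hl hV
  set v₀ : G → ℂ := fun x => (θ x : ℂ) * g x with hv₀
  have hv₀s : C.Sm v₀ := C.sm_mul hθs (C.hol_sm hg)
  have hv₀c : Continuous v₀ := C.sm_continuous hv₀s
  have hv₀z : ∀ x, x ∉ tsupport θ → v₀ x = 0 := by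
    intro x hx
    simp [hv₀, image_eq_zero_of_notMem_tsupport hx]
  have hv₀i : Integrable (fun x => ‖v₀ x‖ ^ 2 / V x) μ := by
    apply Continuous.integrable_of_hasCompactSupport
    · exact (hv₀c.norm.pow 2).div hVc fun x => (hVpos x).ne'
    · apply HasCompactSupport.intro hθc.isCompact
      intro x hx
      rw [hv₀z x hx]
      simp
  obtain ⟨h, hh1, hh2⟩ := C.memH_proj μ hVadm hv₀c.aestronglyMeasurable hv₀i
  obtain ⟨hpi, -⟩ := C.memH_pyth μ hVadm hv₀c.aestronglyMeasurable hv₀i hh1 hh2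
  refine ⟨⟨h, isWA_mem_Aexp C μ hl hV hh1⟩, hh1, hpi, ?_⟩
  have hQpos : ∀ x, 0 < ∑ i, ‖(F i : G → ℂ) x‖ ^ 2 := by
    obtain ⟨c', hc', h'⟩ := hF
    exact fun x => hc'.trans_le (h' x)
  have hψ1 := ST5_psh_log C μ hl hW₁
  have hψ2 : C.Psh (fun y => Real.log (∑ i, ‖(F i : G → ℂ) y‖ ^ 2)) :=
    C.psh_log (F := fun i => (F i : G → ℂ)) (fun i => (F i).2.1) hQpos
  have hψ3 := C.psh_const_mul hψ2 (t := (k : ℝ)) (by positivity)
  have hφ := C.psh_add hψ1 hψ3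
  set φ : G → ℝ := fun y => Real.log (W₁ y) + (k : ℝ) * Real.log (∑ i, ‖(F i : G → ℂ) y‖ ^ 2)
    with hφdef
  have hexp : ∀ x, Real.exp (-φ x) = 1 / V x := fun x => ST5_exp (hW₁pos x) (hQpos x) k
  have hLv : ∀ x b, C.Lv (fun y => Real.log (W₁ y)) x b ≤ C.Lv φ x b := by
    intro x b
    rw [hφdef, C.Lv_add (C.sm_ofReal.1 hψ1.1) (C.sm_ofReal.1 hψ3.1)]
    have := hψ3.2 x b
    linarith
  have hmain := C.hormander μ hs hφ (N := 1) (v := fun _ x => v₀ x - h x)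
    (fun _ => C.sm_sub hv₀s (C.hol_sm hh1.1)) (fun _ => by
      refine hpi.congr (Eventually.of_forall fun x => ?_)
      simp only [hexp]
      ring) (by
      intro _ f hf hfi
      have h1 := hh2 f ⟨hf, by
        refine hfi.congr (Eventually.of_forall fun x => ?_)
        simp only [hexp]
        ring⟩
      rw [← h1]
      congr 1
      funext x
      rw [hexp]
      push_cast
      ring) (ρ := fun x => m ^ 2 * D x / c)
    ((hDc.measurable.const_mul _).div_const _) (fun x => by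
      have := hD0 x
      positivity) (by
      have h1 : Continuous (fun x => m ^ 2 * D x / c * Real.exp (-φ x)) := by
        have e : (fun x => m ^ 2 * D x / c * Real.exp (-φ x)) =
            fun x => m ^ 2 * D x / c / V x := by
          funext x
          rw [hexp]
          ring
        rw [e]
        exact ((continuous_const.mul hDc).div_const _).div hVc fun x => (hVpos x).ne'
      apply h1.integrable_of_hasCompactSupport
      apply HasCompactSupport.intro hL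
      intro x hx
      rw [hDL x hx]
      simp) (by
      intro x b
      simp only [Fin.sum_univ_one]
      have hXb : ∀ j, C.Xb j (fun x => v₀ x - h x) x =
          C.Xb j (fun y => (θ y : ℂ)) x * g x := by
        intro j
        rw [C.Xb_sub hv₀s (C.hol_sm hh1.1), C.Xb_hol hh1.1, sub_zero, hv₀,
          C.Xb_mul hθs (C.hol_sm hg), C.Xb_hol hg, mul_zero, add_zero]
      have hLnn := hφ.2 x (b 0)
      by_cases hx : x ∈ L ∧ x ∈ tsupport θ
      · have h1 := ST5_cs Finset.univ (fun j => C.Xb j (fun y => (θ y : ℂ)) x)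
          (fun j => (starRingEnd ℂ) (b 0 j))
        simp only [RCLike.norm_conj] at h1
        have e1 : (∑ j, C.Xb j (fun x => v₀ x - h x) x * (starRingEnd ℂ) (b 0 j)) =
            g x * ∑ j, C.Xb j (fun y => (θ y : ℂ)) x * (starRingEnd ℂ) (b 0 j) := by
          rw [Finset.mul_sum]
          refine Finset.sum_congr rfl fun j _ => ?_
          rw [hXb]
          ring
        rw [e1, norm_mul, mul_pow]
        have h2 := (hpos x hx.1 (b 0)).trans (hLv x (b 0))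
        have h3 : ‖g x‖ ^ 2 ≤ m ^ 2 := by
          have := hgm x hx.2
          gcongr
        have h4 : ∑ j, ‖b 0 j‖ ^ 2 ≤ C.Lv φ x (b 0) / c := by
          rw [le_div_iff₀ hc, mul_comm]
          exact h2
        calc ‖g x‖ ^ 2 * ‖∑ j, C.Xb j (fun y => (θ y : ℂ)) x * (starRingEnd ℂ) (b 0 j)‖ ^ 2
            ≤ m ^ 2 * (D x * ∑ j, ‖b 0 j‖ ^ 2) := by
              gcongr
          _ ≤ m ^ 2 * (D x * (C.Lv φ x (b 0) / c)) := by
              have := hD0 x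
              gcongr
          _ = _ := by ring
      · have h0 : ∀ j, C.Xb j (fun y => (θ y : ℂ)) x = 0 := by
          intro j
          by_cases h1 : x ∈ L
          · exact hsupp0 x (fun h2 => hx ⟨h1, h2⟩) j
          · exact hθL x h1 j
        have e1 : (∑ j, C.Xb j (fun x => v₀ x - h x) x * (starRingEnd ℂ) (b 0 j)) = 0 := by
          apply Finset.sum_eq_zero
          intro j _
          rw [hXb, h0]
          simp
        rw [e1]
        have := hD0 x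
        simp only [norm_zero, ne_eq, OfNat.ofNat_ne_zero, not_false_eq_true, zero_pow]
        positivity)
  simp only [Fin.sum_univ_one] at hmain
  calc nH μ V (fun x => v₀ x - h x) = ∫ x, ‖v₀ x - h x‖ ^ 2 * Real.exp (-φ x) ∂μ := by
        rw [nH]
        congr 1
        funext x
        rw [hexp]
        ring
    _ ≤ ∫ x, m ^ 2 * D x / c * Real.exp (-φ x) ∂μ := hmain
    _ ≤ ∫ x, D x / (c * W₁ x) * m ^ 2 ∂μ := by
        apply integral_mono_of_nonneg (Eventually.of_forall fun x => by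
          have := hD0 x
          positivity) (hTi.mul_const _) (Eventually.of_forall fun x => ?_)
        simp only [hexp]
        by_cases hx : x ∈ L
        · have h1 : W₁ x ≤ V x := by
            have := one_le_pow₀ (hFL x hx) (n := k)
            have h2 := hW₁pos x
            simp only [hVdef]
            nlinarith
          have h2 := hD0 x
          have h3 := hW₁pos x
          calc m ^ 2 * D x / c * (1 / V x) = m ^ 2 * D x / (c * V x) := by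
                field_simp
            _ ≤ m ^ 2 * D x / (c * W₁ x) := by gcongr
            _ = _ := by ring
        · rw [hDL x hx]
          simp
    _ = _ := by rw [integral_mul_const]

end HR
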