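import Pool.Agent.W_06f097_h43.ST4
import Pool.Agent.W_06f097_h43.ST5
import Pool.Agent.W_06f097_h43.ME5

/-! MP_06f097_an blueprint, block ST: step (B) and density. -/

open scoped Topology ContDiff
open MeasureTheory Set Filter Metric

noncomputable section

namespace HR

variable {n : ℕ} {G : Type*} [Group G] [TopologicalSpace G] [IsTopologicalGroup G] [T2Space G]
  [LocallyCompactSpace G] [SecondCountableTopology G] [MeasurableSpace G] [BorelSpace G]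
  (C : CLG n G) (μ : Measure G) [μ.IsHaarMeasure] {l : G → ℝ} (hl : Len μ l)
  {B : Type*} [NormedCommRing B] [NormedAlgebra ℂ B] [CompleteSpace B]

omit [T2Space G] [LocallyCompactSpace G] [SecondCountableTopology G] [MeasurableSpace G]
  [BorelSpace G] in
private theorem ST6_Xb_zero {f : G → ℂ} {x : G} {c : ℂ} (h : ∀ᶠ y in 𝓝 x, f y = c) (j : Fin n) :
    C.Xb j f x = 0 := by
  have h1 : C.co f x =ᶠ[𝓝 0] fun _ => c := by
    have h3 := h
    rw [← C.map_nhds x] at h3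
    exact Filter.eventually_map.1 h3
  have h2 : C.D f x = 0 := by
    unfold CLG.D
    rw [h1.fderiv_eq]
    simp
  simp [CLG.Xb, h2]

private theorem ST6_root {a b S : ℝ} (ha : 0 ≤ a) (hb : 0 ≤ b) (h : a ^ 2 ≤ S * b ^ 2) :
    a ≤ Real.sqrt S * b := by
  have h1 : Real.sqrt (a ^ 2) ≤ Real.sqrt (S * b ^ 2) := Real.sqrt_le_sqrt h
  rw [Real.sqrt_sq ha, Real.sqrt_mul' _ (sq_nonneg b), Real.sqrt_sq hb] at h1
  exact h1

omit [CompleteSpace B] in
/-- characters of Banach algebras are contractive (no assumption on the norm of `1`) -/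
private theorem ST6_char (χ : B →ₐ[ℂ] ℂ) (hχ : Continuous χ) (b : B) : ‖χ b‖ ≤ ‖b‖ := by
  obtain ⟨M, hM, hMb⟩ : ∃ M : ℝ, 0 < M ∧ ∀ b, ‖χ b‖ ≤ M * ‖b‖ := by
    let L : B →L[ℂ] ℂ := ⟨χ.toLinearMap, hχ⟩
    refine ⟨‖L‖ + 1, by positivity, fun b => ?_⟩
    have h1 : ‖L b‖ ≤ ‖L‖ * ‖b‖ := L.le_opNorm b
    have h2 : ‖χ b‖ = ‖L b‖ := rfl
    rw [h2]
    nlinarith [norm_nonneg b, norm_nonneg (L b)]
  by_contra hlt
  push Not at hlt
  have hpos : 0 < ‖χ b‖ := lt_of_le_of_lt (norm_nonneg b) hlt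
  have hr : ‖b‖ / ‖χ b‖ < 1 := (div_lt_one hpos).2 hlt
  have ht : Tendsto (fun k : ℕ => M * (‖b‖ / ‖χ b‖) ^ (k + 1)) atTop (𝓝 (M * 0)) :=
    ((tendsto_pow_atTop_nhds_zero_of_lt_one (by positivity) hr).comp
      (tendsto_add_atTop_nat 1)).const_mul M
  have hge : ∀ k : ℕ, (1 : ℝ) ≤ M * (‖b‖ / ‖χ b‖) ^ (k + 1) := by
    intro k
    have h1 : ‖χ (b ^ (k + 1))‖ ≤ M * ‖b ^ (k + 1)‖ := hMb _
    rw [map_pow, norm_pow] at h1
    have h2 : ‖b ^ (k + 1)‖ ≤ ‖b‖ ^ (k + 1) := norm_pow_le' b (Nat.succ_pos k)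
    have h3 : ‖χ b‖ ^ (k + 1) ≤ M * ‖b‖ ^ (k + 1) := h1.trans (by gcongr)
    rw [div_pow, ← mul_div_assoc, le_div_iff₀ (by positivity), one_mul]
    exact h3
  have := ge_of_tendsto' ht hge
  linarith

omit [Group G] [IsTopologicalGroup G] [T2Space G] [LocallyCompactSpace G] [μ.IsHaarMeasure] in
private theorem ST6_dom {V : G → ℝ} (hV : Continuous V) (hV0 : ∀ x, 0 < V x) {u : G → ℂ}
    (hu : Continuous u) {p : G → ℝ} (hp : Integrable p μ) (h : ∀ x, ‖u x‖ ^ 2 / V x ≤ p x) :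
    Integrable (fun x => ‖u x‖ ^ 2 / V x) μ ∧ nH μ V u ≤ ∫ x, p x ∂μ := by
  have hc : Continuous (fun x => ‖u x‖ ^ 2 / V x) :=
    (hu.norm.pow 2).div hV (fun x => (hV0 x).ne')
  have hi : Integrable (fun x => ‖u x‖ ^ 2 / V x) μ := by
    refine Integrable.mono' hp hc.aestronglyMeasurable (ae_of_all _ fun x => ?_)
    rw [Real.norm_of_nonneg (div_nonneg (sq_nonneg _) (hV0 x).le)]
    exact h x
  exact ⟨hi, integral_mono hi hp h⟩

private theorem ST6_sq_sub (a b : ℂ) : ‖a - b‖ ^ 2 ≤ 2 * ‖a‖ ^ 2 + 2 * ‖b‖ ^ 2 := by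
  have h1 : ‖a - b‖ ≤ ‖a‖ + ‖b‖ := norm_sub_le a b
  nlinarith [norm_nonneg a, norm_nonneg b, norm_nonneg (a - b), sq_nonneg (‖a‖ - ‖b‖)]


/-- The common construction. `Q = specQ Φ` compact, `θ` a cutoff with compact support, `θ = 1` on a
neighbourhood `V` of `Q` (`exists_cutoff`), `L = tsupport θ \ V` (compact, disjoint from `Q`),
`N` from `exists_family`, `δ` with `64 N δ² ≤ 1` and `F` for this `δ`, `W₁` from `exists_strict`,
`h_k^g` from `runge_step`, `v_k = θ g - h_k`, `K = tsupport θ`. Then, with `m = sup_K |g|`: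
(1) `h_{k+1} - h_k = v_k - v_{k+1}` has square norm `≤ T' m²` for the weight `V_{k+1}`
(`|F|² ≥ c'`), so by `iterate_bound` `‖Φ (h_{k+1} - h_k)‖ ≤ T'' m 2^(-k)`, and
`‖Φ (h_{k₀})‖ ≤ T'' m`. (2) On `Q` `|F|² ≤ N δ² ≤ 1/64` (`|F_i| ≤ ‖Φ F_i‖`), so `|F|² ≤ 1/4` on
`Q V'` for a small neighbourhood `V'` of `1`; there `θ = 1` and `g - h_k = v_k` and by `smv`
`|g - h_k|² ≤ c sup (W₁ |F|^(2k)) nH(v_k) ≤ T'' m² 4^(-k)` on `Q`.
(3) For `g = f ∈ Aexp`: `f h_k^1 - h_k^f = v_k^f - f v_k^1` has bounded square norm for the weight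
`W₁ (1 + |f|²) |F|^(2k)`, so `Φ (f h_k^1 - h_k^f) → 0` by `iterate_bound`. -/
theorem runge {s : G → ℝ} (hs : C.Kah s)
    (hsep : ∀ v : En n, v ≠ 0 → ∃ f : Aexp C hl, C.D (f : G → ℂ) 1 v ≠ 0)
    (Φ : Aexp C hl →ₐ[ℂ] B) (hΦ : Cts C hl Φ) (hQ : IsCompact (specQ C hl Φ)) :
    ∃ (K : Set G) (T : ℝ), IsCompact K ∧ 0 ≤ T ∧ ∃ h : (G → ℂ) → ℕ → Aexp C hl,
      (∀ (g : G → ℂ) (m : ℝ), C.Hol g → 0 ≤ m → (∀ x ∈ K, ‖g x‖ ≤ m) →
        ∀ k, ‖Φ (h g (k + 1)) - Φ (h g k)‖ ≤ T * m * (1 / 2) ^ k) ∧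
      (∀ (g : G → ℂ) (m : ℝ), C.Hol g → 0 ≤ m → (∀ x ∈ K, ‖g x‖ ≤ m) →
        ‖Φ (h g 0)‖ ≤ T * m) ∧
      (∀ g : G → ℂ, C.Hol g → TendstoUniformlyOn (fun k => (h g k : G → ℂ)) g atTop
        (specQ C hl Φ)) ∧
      (∀ f : Aexp C hl, Tendsto (fun k => Φ (f * h (fun _ => 1) k - h (f : G → ℂ) k)) atTop
        (𝓝 0)) := by
  classical
  obtain ⟨θ, hθs, hθc, -, hθ0, hθ1, V, hVo, hQV, hθV⟩ :=
    C.exists_cutoff hQ isOpen_univ (subset_univ _)
  have hKc : IsCompact (tsupport θ) := hθc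
  have hLc : IsCompact (tsupport θ \ V) := hKc.diff hVo
  have hdis : Disjoint (tsupport θ \ V) (specQ C hl Φ) :=
    Set.disjoint_left.2 fun x hx hx2 => hx.2 (hQV hx2)
  have hθL : ∀ x, x ∉ tsupport θ \ V → ∀ j, C.Xb j (fun y => (θ y : ℂ)) x = 0 := by
    intro x hx j
    by_cases hxV : x ∈ V
    · refine ST6_Xb_zero C (c := 1) ?_ j
      filter_upwards [hVo.mem_nhds hxV] with y hy
      rw [hθV y hy]; simp
    · have hxK : x ∉ tsupport θ := fun h => hx ⟨h, hxV⟩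
      refine ST6_Xb_zero C (c := 0) ?_ j
      have := (isClosed_tsupport θ).isOpen_compl.mem_nhds hxK
      filter_upwards [this] with y hy
      have : θ y = 0 := image_eq_zero_of_notMem_tsupport hy
      rw [this]; simp
  obtain ⟨N, hN⟩ := exists_family C μ hl Φ hLc hdis
  obtain ⟨δ, hδ0, hδN⟩ : ∃ δ : ℝ, 0 < δ ∧ 64 * N * δ ^ 2 ≤ 1 := by
    refine ⟨1 / (8 * (N + 1)), by positivity, ?_⟩
    have hN0 : (0 : ℝ) ≤ N := Nat.cast_nonneg N
    rw [div_pow, mul_pow, one_pow, mul_one_div, div_le_one (by positivity)]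
    nlinarith
  obtain ⟨F, hF, hFL, hΦF⟩ := hN δ hδ0
  obtain ⟨W₁, hW₁, c, hc, hpos⟩ := exists_strict C μ hl hsep hLc
  obtain ⟨T₀, hT₀, hstep⟩ := runge_step C μ hl hs hθs hθc hLc hθL hW₁ hc hpos hF hFL
  obtain ⟨k₀, A, hA, hit⟩ := iterate_bound C μ hl hs Φ hΦ hF hΦF hW₁
  obtain ⟨c', hc', hc'F⟩ := hF
  -- notation
  obtain ⟨P, hPd⟩ : ∃ P : G → ℝ, P = fun x => ∑ i, ‖(F i : G → ℂ) x‖ ^ 2 := ⟨_, rfl⟩
  have hPx : ∀ x, ∑ i, ‖(F i : G → ℂ) x‖ ^ 2 = P x := fun x => by rw [hPd]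
  simp only [hPx] at hstep hit hc'F hFL
  have hPA : IsWA C hl P := ⟨N, fun i => (F i : G → ℂ), fun i => (F i).2, fun x => (hPx x).symm,
    c', hc', hc'F⟩
  have hVA : ∀ k : ℕ, IsWA C hl (fun x => W₁ x * P x ^ k) := fun k =>
    isWA_mul C μ hl hW₁ (isWA_pow C μ hl hPA k)
  have hVc : ∀ k : ℕ, Continuous (fun x => W₁ x * P x ^ k) := fun k =>
    C.sm_continuous (isWA_sm C μ hl (hVA k))
  have hV0 : ∀ (k : ℕ) x, 0 < W₁ x * P x ^ k := fun k x => isWA_pos C μ hl (hVA k) x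
  have hP0 : ∀ x, 0 < P x := fun x => lt_of_lt_of_le hc' (hc'F x)
  have hθcont : Continuous θ := C.sm_continuous hθs
  have hr0 : 0 ≤ 2 * (N : ℝ) * δ ^ 2 := by positivity
  have hr1 : 2 * (N : ℝ) * δ ^ 2 ≤ 1 / 4 := by nlinarith
  -- the norms on the support
  obtain ⟨mg, hmg⟩ : ∃ mg : (G → ℂ) → ℝ, ∀ g, mg g = sSup ((fun x => ‖g x‖) '' tsupport θ) :=
    ⟨_, fun g => rfl⟩
  have hmg0 : ∀ g, 0 ≤ mg g := fun g => by
    rw [hmg]; exact Real.sSup_nonneg (by rintro _ ⟨x, _, rfl⟩; exact norm_nonneg _)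
  have hmg1 : ∀ g, C.Hol g → ∀ x ∈ tsupport θ, ‖g x‖ ≤ mg g := fun g hg x hx => by
    rw [hmg]
    exact le_csSup (hKc.bddAbove_image (C.hol_continuous hg).norm.continuousOn)
      (mem_image_of_mem (fun x => ‖g x‖) hx)
  have hmg2 : ∀ g m, 0 ≤ m → (∀ x ∈ tsupport θ, ‖g x‖ ≤ m) → mg g ≤ m := fun g m hm hx => by
    rw [hmg]; exact Real.sSup_le (by rintro _ ⟨x, hx', rfl⟩; exact hx x hx') hm
  -- the approximations
  obtain ⟨h, hh⟩ : ∃ h : (G → ℂ) → ℕ → Aexp C hl, ∀ g, C.Hol g → ∀ k,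
      C.MemH μ (fun x => W₁ x * P x ^ (k₀ + k)) (h g k : G → ℂ) ∧
      Integrable (fun x => ‖(θ x : ℂ) * g x - (h g k : G → ℂ) x‖ ^ 2 /
        (W₁ x * P x ^ (k₀ + k))) μ ∧
      nH μ (fun x => W₁ x * P x ^ (k₀ + k)) (fun x => (θ x : ℂ) * g x - (h g k : G → ℂ) x) ≤
        T₀ * mg g ^ 2 := by
    have : ∀ (g : G → ℂ) (k : ℕ), ∃ h : Aexp C hl, C.Hol g →
      C.MemH μ (fun x => W₁ x * P x ^ (k₀ + k)) (h : G → ℂ) ∧
      Integrable (fun x => ‖(θ x : ℂ) * g x - (h : G → ℂ) x‖ ^ 2 /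
        (W₁ x * P x ^ (k₀ + k))) μ ∧
      nH μ (fun x => W₁ x * P x ^ (k₀ + k)) (fun x => (θ x : ℂ) * g x - (h : G → ℂ) x) ≤
        T₀ * mg g ^ 2 := by
      intro g k
      by_cases hg : C.Hol g
      · obtain ⟨h, h1⟩ := hstep (k₀ + k) g (mg g) hg (hmg0 g) (hmg1 g hg)
        exact ⟨h, fun _ => h1⟩
      · exact ⟨0, fun h => absurd h hg⟩
    choose h hh using this
    exact ⟨h, fun g hg k => hh g k hg⟩
  have hvc : ∀ (g : G → ℂ), C.Hol g → ∀ k,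
      Continuous (fun x => (θ x : ℂ) * g x - (h g k : G → ℂ) x) := fun g hg k =>
    ((Complex.continuous_ofReal.comp hθcont).mul (C.hol_continuous hg)).sub
      (C.hol_continuous (h g k).2.1)
  have hhc : ∀ f : Aexp C hl, Continuous (f : G → ℂ) := fun f => C.hol_continuous f.2.1
  -- the constants
  obtain ⟨I₀, hI₀⟩ : ∃ I₀ : ℝ, I₀ = ∫ x, θ x ^ 2 / (W₁ x * P x ^ k₀) ∂μ := ⟨_, rfl⟩
  have hqi : Integrable (fun x => θ x ^ 2 / (W₁ x * P x ^ k₀)) μ := by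
    have hqc : Continuous (fun x => θ x ^ 2 / (W₁ x * P x ^ k₀)) :=
      (hθcont.pow 2).div (hVc k₀) (fun x => (hV0 k₀ x).ne')
    refine hqc.integrable_of_hasCompactSupport ?_
    refine hθc.mono' ?_
    intro x hx
    refine subset_tsupport θ ?_
    intro h0
    apply hx
    simp [h0]
  have hI₀0 : 0 ≤ I₀ := by
    rw [hI₀]; exact integral_nonneg fun x => div_nonneg (sq_nonneg _) (hV0 k₀ x).le
  refine ⟨tsupport θ, Real.sqrt (A * ((2 * (1 / c') + 2) * T₀)) +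
    Real.sqrt (A * (2 * I₀ + 2 * T₀)), hKc, by positivity, h, ?_, ?_, ?_, ?_⟩
  · -- (1)
    intro g m hg hm hgm k
    have hmm : mg g ≤ m := hmg2 g m hm hgm
    have e1 : Φ (h g (k + 1)) - Φ (h g k) = Φ (h g (k + 1) - h g k) := (map_sub Φ _ _).symm
    have hVV : ∀ x, W₁ x * P x ^ (k₀ + k) ≤ 1 / c' * (W₁ x * P x ^ (k₀ + (k + 1))) := by
      intro x
      have h1 := hc'F x
      have h2 := hV0 (k₀ + k) x
      have h3 : W₁ x * P x ^ (k₀ + (k + 1)) = (W₁ x * P x ^ (k₀ + k)) * P x := by ring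
      calc W₁ x * P x ^ (k₀ + k) = 1 / c' * ((W₁ x * P x ^ (k₀ + k)) * c') := by
            field_simp
        _ ≤ 1 / c' * ((W₁ x * P x ^ (k₀ + k)) * P x) := by gcongr
        _ = _ := by rw [h3]
    have hmemk : C.MemH μ (fun x => W₁ x * P x ^ (k₀ + (k + 1))) (h g k : G → ℂ) :=
      (memH_mono C μ (isWA_adm C μ hl (hVA (k₀ + k))) (isWA_adm C μ hl (hVA (k₀ + (k + 1))))
        (by positivity) hVV (hh g hg k).1).1
    have hmem : C.MemH μ (fun x => W₁ x * P x ^ (k₀ + (k + 1)))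
        ((h g (k + 1) - h g k : Aexp C hl) : G → ℂ) :=
      C.memH_sub μ (isWA_adm C μ hl (hVA (k₀ + (k + 1)))) (hh g hg (k + 1)).1 hmemk
    have hb := hit (k₀ + (k + 1)) (by omega) _ hmem
    have hdom := ST6_dom μ (hVc (k₀ + (k + 1))) (hV0 (k₀ + (k + 1)))
      (hhc (h g (k + 1) - h g k))
      (p := fun x => 2 * (1 / c') * (‖(θ x : ℂ) * g x - (h g k : G → ℂ) x‖ ^ 2 /
        (W₁ x * P x ^ (k₀ + k))) + 2 * (‖(θ x : ℂ) * g x - (h g (k + 1) : G → ℂ) x‖ ^ 2 /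
        (W₁ x * P x ^ (k₀ + (k + 1)))))
      (((hh g hg k).2.1.const_mul _).add ((hh g hg (k + 1)).2.1.const_mul _)) (by
        intro x
        have h1 : ((h g (k + 1) - h g k : Aexp C hl) : G → ℂ) x =
          ((θ x : ℂ) * g x - (h g k : G → ℂ) x) -
            ((θ x : ℂ) * g x - (h g (k + 1) : G → ℂ) x) := by
          simp [Subalgebra.coe_sub]
        rw [h1]
        have h2 := ST6_sq_sub ((θ x : ℂ) * g x - (h g k : G → ℂ) x)
          ((θ x : ℂ) * g x - (h g (k + 1) : G → ℂ) x)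
        have h3 := hV0 (k₀ + (k + 1)) x
        have h4 := hV0 (k₀ + k) x
        have h5 : ‖(θ x : ℂ) * g x - (h g k : G → ℂ) x‖ ^ 2 / (W₁ x * P x ^ (k₀ + (k + 1))) ≤
            (1 / c') * (‖(θ x : ℂ) * g x - (h g k : G → ℂ) x‖ ^ 2 / (W₁ x * P x ^ (k₀ + k))) := by
          rw [div_le_iff₀ h3]
          have h6 := hVV x
          rw [show (1 / c') * (‖(θ x : ℂ) * g x - (h g k : G → ℂ) x‖ ^ 2 /
            (W₁ x * P x ^ (k₀ + k))) * (W₁ x * P x ^ (k₀ + (k + 1))) =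
            ‖(θ x : ℂ) * g x - (h g k : G → ℂ) x‖ ^ 2 *
            ((1 / c' * (W₁ x * P x ^ (k₀ + (k + 1)))) / (W₁ x * P x ^ (k₀ + k))) by
            field_simp]
          have h7 : 1 ≤ (1 / c' * (W₁ x * P x ^ (k₀ + (k + 1)))) / (W₁ x * P x ^ (k₀ + k)) := by
            rw [le_div_iff₀ h4, one_mul]; exact h6
          exact le_mul_of_one_le_right (sq_nonneg _) h7
        calc _ ≤ (2 * ‖(θ x : ℂ) * g x - (h g k : G → ℂ) x‖ ^ 2 +
              2 * ‖(θ x : ℂ) * g x - (h g (k + 1) : G → ℂ) x‖ ^ 2) /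
              (W₁ x * P x ^ (k₀ + (k + 1))) := by gcongr
          _ = 2 * (‖(θ x : ℂ) * g x - (h g k : G → ℂ) x‖ ^ 2 / (W₁ x * P x ^ (k₀ + (k + 1)))) +
              2 * (‖(θ x : ℂ) * g x - (h g (k + 1) : G → ℂ) x‖ ^ 2 /
              (W₁ x * P x ^ (k₀ + (k + 1)))) := by ring
          _ ≤ _ := by
            have := mul_le_mul_of_nonneg_left h5 (by norm_num : (0 : ℝ) ≤ 2)
            linarith)
    have hint : ∫ x, (2 * (1 / c') * (‖(θ x : ℂ) * g x - (h g k : G → ℂ) x‖ ^ 2 /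
        (W₁ x * P x ^ (k₀ + k))) + 2 * (‖(θ x : ℂ) * g x - (h g (k + 1) : G → ℂ) x‖ ^ 2 /
        (W₁ x * P x ^ (k₀ + (k + 1))))) ∂μ =
        2 * (1 / c') * nH μ (fun x => W₁ x * P x ^ (k₀ + k))
          (fun x => (θ x : ℂ) * g x - (h g k : G → ℂ) x) +
        2 * nH μ (fun x => W₁ x * P x ^ (k₀ + (k + 1)))
          (fun x => (θ x : ℂ) * g x - (h g (k + 1) : G → ℂ) x) := by
      rw [integral_add ((hh g hg k).2.1.const_mul _) ((hh g hg (k + 1)).2.1.const_mul _),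
        integral_const_mul, integral_const_mul]
      rfl
    have hn : nH μ (fun x => W₁ x * P x ^ (k₀ + (k + 1)))
        ((h g (k + 1) - h g k : Aexp C hl) : G → ℂ) ≤ (2 * (1 / c') + 2) * T₀ * m ^ 2 := by
      refine hdom.2.trans ?_
      rw [hint]
      have h1 := (hh g hg k).2.2
      have h2 := (hh g hg (k + 1)).2.2
      have h3 : T₀ * mg g ^ 2 ≤ T₀ * m ^ 2 := by
        have := hmg0 g
        gcongr
      have h4 : 0 ≤ 2 * (1 / c') := by positivity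
      have h5 := mul_le_mul_of_nonneg_left (h1.trans h3) h4
      have h6 := mul_le_mul_of_nonneg_left (h2.trans h3) (by norm_num : (0 : ℝ) ≤ 2)
      linarith
    have hb2 : ‖Φ (h g (k + 1) - h g k)‖ ^ 2 ≤
        (A * ((2 * (1 / c') + 2) * T₀)) * (m * (1 / 2) ^ k) ^ 2 := by
      refine hb.trans ?_
      have e2 : k₀ + (k + 1) - k₀ = k + 1 := by omega
      rw [e2]
      have h1 : (2 * (N : ℝ) * δ ^ 2) ^ (k + 1) ≤ (1 / 4) ^ k := by
        calc (2 * (N : ℝ) * δ ^ 2) ^ (k + 1) ≤ (1 / 4) ^ (k + 1) := by gcongr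
          _ ≤ (1 / 4) ^ k := pow_le_pow_of_le_one (by norm_num) (by norm_num) (Nat.le_succ k)
      have h2 : 0 ≤ nH μ (fun x => W₁ x * P x ^ (k₀ + (k + 1)))
          ((h g (k + 1) - h g k : Aexp C hl) : G → ℂ) :=
        integral_nonneg fun x => div_nonneg (sq_nonneg _) (hV0 _ x).le
      have h3 : A * (2 * (N : ℝ) * δ ^ 2) ^ (k + 1) *
          nH μ (fun x => W₁ x * P x ^ (k₀ + (k + 1)))
            ((h g (k + 1) - h g k : Aexp C hl) : G → ℂ) ≤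
          A * (1 / 4) ^ k * ((2 * (1 / c') + 2) * T₀ * m ^ 2) := by gcongr
      refine h3.trans (le_of_eq ?_)
      have e3 : (((1 : ℝ) / 2) ^ k) ^ 2 = (1 / 4) ^ k := by
        rw [← pow_mul, mul_comm k 2, pow_mul]; norm_num
      rw [mul_pow, e3]
      ring
    rw [e1]
    have h1 := ST6_root (norm_nonneg _) (by positivity) hb2
    refine h1.trans ?_
    have h2 : 0 ≤ Real.sqrt (A * (2 * I₀ + 2 * T₀)) * (m * (1 / 2) ^ k) := by positivity
    nlinarith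
  · -- (2)
    intro g m hg hm hgm
    have hmm : mg g ≤ m := hmg2 g m hm hgm
    have hb := hit k₀ le_rfl (h g 0) (hh g hg 0).1
    rw [Nat.sub_self, pow_zero, mul_one] at hb
    have hdom := ST6_dom μ (hVc k₀) (hV0 k₀) (hhc (h g 0))
      (p := fun x => 2 * m ^ 2 * (θ x ^ 2 / (W₁ x * P x ^ k₀)) +
        2 * (‖(θ x : ℂ) * g x - (h g 0 : G → ℂ) x‖ ^ 2 / (W₁ x * P x ^ (k₀ + 0))))
      ((hqi.const_mul _).add ((hh g hg 0).2.1.const_mul _)) (by
        intro x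
        have h1 : (h g 0 : G → ℂ) x = (θ x : ℂ) * g x -
            ((θ x : ℂ) * g x - (h g 0 : G → ℂ) x) := by ring
        have h2 := ST6_sq_sub ((θ x : ℂ) * g x) ((θ x : ℂ) * g x - (h g 0 : G → ℂ) x)
        rw [← h1] at h2
        have h3 := hV0 k₀ x
        have h4 : ‖(θ x : ℂ) * g x‖ ^ 2 ≤ m ^ 2 * θ x ^ 2 := by
          rw [norm_mul, mul_pow, Complex.norm_real, Real.norm_eq_abs, sq_abs]
          by_cases hx : x ∈ tsupport θ
          · have := hgm x hx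
            have h5 : ‖g x‖ ^ 2 ≤ m ^ 2 := by gcongr
            nlinarith [sq_nonneg (θ x)]
          · have : θ x = 0 := image_eq_zero_of_notMem_tsupport hx
            rw [this]; simp
        rw [add_zero, div_le_iff₀ h3]
        have h5 : (2 * m ^ 2 * (θ x ^ 2 / (W₁ x * P x ^ k₀)) +
          2 * (‖(θ x : ℂ) * g x - (h g 0 : G → ℂ) x‖ ^ 2 / (W₁ x * P x ^ k₀))) *
            (W₁ x * P x ^ k₀) = 2 * (m ^ 2 * θ x ^ 2) +
            2 * ‖(θ x : ℂ) * g x - (h g 0 : G → ℂ) x‖ ^ 2 := by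
          generalize W₁ x * P x ^ k₀ = D at h3
          have := h3.ne'
          field_simp
        rw [h5]
        linarith)
    have hint : ∫ x, (2 * m ^ 2 * (θ x ^ 2 / (W₁ x * P x ^ k₀)) +
        2 * (‖(θ x : ℂ) * g x - (h g 0 : G → ℂ) x‖ ^ 2 / (W₁ x * P x ^ (k₀ + 0)))) ∂μ =
        2 * m ^ 2 * I₀ + 2 * nH μ (fun x => W₁ x * P x ^ (k₀ + 0))
          (fun x => (θ x : ℂ) * g x - (h g 0 : G → ℂ) x) := by
      rw [integral_add (hqi.const_mul _) ((hh g hg 0).2.1.const_mul _),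
        integral_const_mul, integral_const_mul, ← hI₀]
      rfl
    have hn : nH μ (fun x => W₁ x * P x ^ k₀) (h g 0 : G → ℂ) ≤ (2 * I₀ + 2 * T₀) * m ^ 2 := by
      refine hdom.2.trans ?_
      rw [hint]
      have h1 := (hh g hg 0).2.2
      have h3 : T₀ * mg g ^ 2 ≤ T₀ * m ^ 2 := by
        have := hmg0 g
        gcongr
      have h6 := mul_le_mul_of_nonneg_left (h1.trans h3) (by norm_num : (0 : ℝ) ≤ 2)
      linarith
    have hb2 : ‖Φ (h g 0)‖ ^ 2 ≤ (A * (2 * I₀ + 2 * T₀)) * m ^ 2 := by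
      refine hb.trans ?_
      calc _ ≤ A * ((2 * I₀ + 2 * T₀) * m ^ 2) := by gcongr
        _ = _ := by ring
    have h1 := ST6_root (norm_nonneg _) hm hb2
    refine h1.trans ?_
    have h2 : 0 ≤ Real.sqrt (A * ((2 * (1 / c') + 2) * T₀)) * m := by positivity
    nlinarith
  · -- (3)
    intro g hg
    have hPc : Continuous P := C.sm_continuous (isWA_sm C μ hl hPA)
    have hOo : IsOpen (V ∩ {x | P x < 1 / 4}) := hVo.inter (isOpen_lt hPc continuous_const)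
    have hQO : specQ C hl Φ ⊆ V ∩ {x | P x < 1 / 4} := by
      intro x hx
      refine ⟨hQV hx, ?_⟩
      have h1 : ∀ i, ‖(F i : G → ℂ) x‖ ^ 2 ≤ δ ^ 2 := fun i => by
        have := (hx (F i)).trans (hΦF i)
        gcongr
      have h2 : P x ≤ N * δ ^ 2 := by
        rw [← hPx]
        calc ∑ i, ‖(F i : G → ℂ) x‖ ^ 2 ≤ ∑ _i : Fin N, δ ^ 2 := Finset.sum_le_sum fun i _ => h1 i
          _ = N * δ ^ 2 := by simp
      show P x < 1 / 4
      nlinarith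
    obtain ⟨V₁, hV₁, hV₁s⟩ := compact_open_separated_mul_right hQ hOo hQO
    obtain ⟨V₂, hV₂, hV₂s, hV₂c⟩ := local_compact_nhds hV₁
    obtain ⟨cs, hcs, hsmv⟩ := C.smv μ hV₂ hV₂c
    obtain ⟨cb, hcb, hcbW⟩ := (isWA_adm C μ hl hW₁).bd _ (hQ.mul hV₂c)
    have key : ∀ k, ∀ x ∈ specQ C hl Φ, ‖g x - (h g k : G → ℂ) x‖ ^ 2 ≤
        (cs * (1 / cb) * (T₀ * mg g ^ 2)) * (1 / 4) ^ k := by
      intro k x hx
      have h1 := hsmv (fun y => g y - (h g k : G → ℂ) y) (C.hol_sub hg (h g k).2.1) x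
      have hi := (hh g hg k).2.1
      have hi2 : Integrable (fun y => ‖(θ (x * y) : ℂ) * g (x * y) - (h g k : G → ℂ) (x * y)‖ ^ 2 /
        (W₁ (x * y) * P (x * y) ^ (k₀ + k))) μ := hi.comp_mul_left x
      have h2 : ∫ y in V₂, ‖g (x * y) - (h g k : G → ℂ) (x * y)‖ ^ 2 ∂μ ≤
          ∫ y in V₂, (1 / cb * (1 / 4) ^ k) * (‖(θ (x * y) : ℂ) * g (x * y) -
            (h g k : G → ℂ) (x * y)‖ ^ 2 / (W₁ (x * y) * P (x * y) ^ (k₀ + k))) ∂μ := by
        refine setIntegral_mono_on ?_ (hi2.const_mul _).integrableOn hV₂c.measurableSet ?_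
        · refine ContinuousOn.integrableOn_compact hV₂c (Continuous.continuousOn ?_)
          exact (((C.hol_continuous hg).comp (continuous_const.mul continuous_id)).sub
            ((hhc (h g k)).comp (continuous_const.mul continuous_id))).norm.pow 2
        · intro y hy
          have hxy : x * y ∈ V ∩ {x | P x < 1 / 4} :=
            hV₁s (Set.mul_mem_mul hx (hV₂s hy))
          have hθ : θ (x * y) = 1 := hθV _ hxy.1
          have hP : P (x * y) < 1 / 4 := hxy.2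
          have hW : W₁ (x * y) ≤ 1 / cb := (hcbW _ (Set.mul_mem_mul hx hy)).2
          rw [hθ, Complex.ofReal_one, one_mul]
          have h3 := hV0 (k₀ + k) (x * y)
          rw [← mul_div_assoc, le_div_iff₀ h3, mul_comm]
          refine mul_le_mul_of_nonneg_right ?_ (sq_nonneg _)
          have h4 : P (x * y) ^ (k₀ + k) ≤ (1 / 4) ^ k := by
            calc P (x * y) ^ (k₀ + k) ≤ (1 / 4) ^ (k₀ + k) := by
                  have := (hP0 (x * y)).le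
                  gcongr
              _ ≤ (1 / 4) ^ k := pow_le_pow_of_le_one (by norm_num) (by norm_num) (by omega)
          have h5 : 0 ≤ P (x * y) ^ (k₀ + k) := (pow_pos (hP0 _) _).le
          have h6 : 0 ≤ W₁ (x * y) := (isWA_pos C μ hl hW₁ _).le
          exact mul_le_mul hW h4 h5 (by positivity)
      have h3 : ∫ y in V₂, (1 / cb * (1 / 4) ^ k) * (‖(θ (x * y) : ℂ) * g (x * y) -
            (h g k : G → ℂ) (x * y)‖ ^ 2 / (W₁ (x * y) * P (x * y) ^ (k₀ + k))) ∂μ ≤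
          (1 / cb * (1 / 4) ^ k) * (T₀ * mg g ^ 2) := by
        rw [integral_const_mul]
        refine mul_le_mul_of_nonneg_left ?_ (by positivity)
        refine (setIntegral_le_integral hi2 (ae_of_all _ fun y =>
          div_nonneg (sq_nonneg _) (hV0 _ _).le)).trans ?_
        have e := integral_mul_left_eq_self (μ := μ) (fun y => ‖(θ y : ℂ) * g y -
          (h g k : G → ℂ) y‖ ^ 2 / (W₁ y * P y ^ (k₀ + k))) x
        rw [e]
        exact (hh g hg k).2.2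
      have h4 : cs * ((1 / cb * (1 / 4) ^ k) * (T₀ * mg g ^ 2)) =
          (cs * (1 / cb) * (T₀ * mg g ^ 2)) * (1 / 4) ^ k := by ring
      rw [← h4]
      exact h1.trans (mul_le_mul_of_nonneg_left (h2.trans h3) hcs.le)
    rw [Metric.tendstoUniformlyOn_iff]
    intro ε hε
    have ht : Tendsto (fun k : ℕ => Real.sqrt (cs * (1 / cb) * (T₀ * mg g ^ 2)) * (1 / 2) ^ k)
        atTop (𝓝 (Real.sqrt (cs * (1 / cb) * (T₀ * mg g ^ 2)) * 0)) :=
      (tendsto_pow_atTop_nhds_zero_of_lt_one (by norm_num) (by norm_num)).const_mul _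
    rw [mul_zero] at ht
    filter_upwards [ht.eventually (gt_mem_nhds hε)] with k hk x hx
    rw [dist_eq_norm]
    refine lt_of_le_of_lt (ST6_root (norm_nonneg _) (by positivity) ?_) hk
    have e : (((1 : ℝ) / 2) ^ k) ^ 2 = (1 / 4) ^ k := by
      rw [← pow_mul, mul_comm k 2, pow_mul]; norm_num
    rw [e]
    exact key k x hx
  · -- (4)
    intro f
    have hf1 : IsWA C hl (fun x => W₁ x * ((1 : ℝ) + ∑ _i : Fin 1, ‖(f : G → ℂ) x‖ ^ 2)) :=
      isWA_mul C μ hl hW₁ (isWA_add_sq C μ hl (isWA_one C μ hl) (F := fun _ : Fin 1 => (f : G → ℂ))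
        (fun _ => f.2))
    obtain ⟨k₁, A₁, hA₁, hit₁⟩ := iterate_bound C μ hl hs Φ hΦ ⟨c', hc', by simpa only [hPx] using hc'F⟩ hΦF hf1
    simp only [hPx] at hit₁
    have h1H : C.Hol (fun _ : G => (1 : ℂ)) := C.hol_const 1
    have hfH : C.Hol (f : G → ℂ) := f.2.1
    have hWk : ∀ k : ℕ, IsWA C hl (fun x => W₁ x * ((1 : ℝ) + ∑ _i : Fin 1, ‖(f : G → ℂ) x‖ ^ 2) *
        P x ^ k) := fun k => isWA_mul C μ hl hf1 (isWA_pow C μ hl hPA k)
    have key : ∀ k, k₁ ≤ k₀ + k → ‖Φ (f * h (fun _ => 1) k - h (f : G → ℂ) k)‖ ≤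
        Real.sqrt (A₁ * (2 * (T₀ * mg (f : G → ℂ) ^ 2) + 2 * (T₀ * mg (fun _ => 1) ^ 2))) *
          (1 / 2) ^ (k₀ + k - k₁) := by
      intro k hk
      have hdom := ST6_dom μ (C.sm_continuous (isWA_sm C μ hl (hWk (k₀ + k))))
        (isWA_pos C μ hl (hWk (k₀ + k))) (hhc (f * h (fun _ => 1) k - h (f : G → ℂ) k))
        (p := fun x => 2 * (‖(θ x : ℂ) * (f : G → ℂ) x - (h (f : G → ℂ) k : G → ℂ) x‖ ^ 2 /
            (W₁ x * P x ^ (k₀ + k))) +
          2 * (‖(θ x : ℂ) * 1 - (h (fun _ => 1) k : G → ℂ) x‖ ^ 2 / (W₁ x * P x ^ (k₀ + k))))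
        (((hh _ hfH k).2.1.const_mul _).add ((hh _ h1H k).2.1.const_mul _)) (by
          intro x
          have e1 : ((f * h (fun _ => 1) k - h (f : G → ℂ) k : Aexp C hl) : G → ℂ) x =
              ((θ x : ℂ) * (f : G → ℂ) x - (h (f : G → ℂ) k : G → ℂ) x) -
              (f : G → ℂ) x * ((θ x : ℂ) * 1 - (h (fun _ => 1) k : G → ℂ) x) := by
            simp only [Subalgebra.coe_sub, Subalgebra.coe_mul, Pi.sub_apply, Pi.mul_apply]
            ring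
          rw [e1]
          have h2 := ST6_sq_sub ((θ x : ℂ) * (f : G → ℂ) x - (h (f : G → ℂ) k : G → ℂ) x)
            ((f : G → ℂ) x * ((θ x : ℂ) * 1 - (h (fun _ => 1) k : G → ℂ) x))
          rw [norm_mul, mul_pow] at h2
          have h3 := hV0 (k₀ + k) x
          have h4 : ∑ _i : Fin 1, ‖(f : G → ℂ) x‖ ^ 2 = ‖(f : G → ℂ) x‖ ^ 2 := by simp
          rw [h4]
          have h5 : W₁ x * (1 + ‖(f : G → ℂ) x‖ ^ 2) * P x ^ (k₀ + k) =
            (1 + ‖(f : G → ℂ) x‖ ^ 2) * (W₁ x * P x ^ (k₀ + k)) := by ring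
          rw [h5, div_le_iff₀ (by positivity)]
          have h6 : (2 * (‖(θ x : ℂ) * (f : G → ℂ) x - (h (f : G → ℂ) k : G → ℂ) x‖ ^ 2 /
              (W₁ x * P x ^ (k₀ + k))) +
            2 * (‖(θ x : ℂ) * 1 - (h (fun _ => 1) k : G → ℂ) x‖ ^ 2 / (W₁ x * P x ^ (k₀ + k)))) *
            ((1 + ‖(f : G → ℂ) x‖ ^ 2) * (W₁ x * P x ^ (k₀ + k))) =
            (1 + ‖(f : G → ℂ) x‖ ^ 2) *
            (2 * ‖(θ x : ℂ) * (f : G → ℂ) x - (h (f : G → ℂ) k : G → ℂ) x‖ ^ 2 +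
            2 * ‖(θ x : ℂ) * 1 - (h (fun _ => 1) k : G → ℂ) x‖ ^ 2) := by
            generalize W₁ x * P x ^ (k₀ + k) = D at h3
            have := h3.ne'
            field_simp
          rw [h6]
          nlinarith [mul_nonneg (sq_nonneg ‖(f : G → ℂ) x‖)
            (sq_nonneg ‖(θ x : ℂ) * (f : G → ℂ) x - (h (f : G → ℂ) k : G → ℂ) x‖),
            sq_nonneg ‖(θ x : ℂ) * 1 - (h (fun _ => 1) k : G → ℂ) x‖])
      have hmem : C.MemH μ (fun x => W₁ x * ((1 : ℝ) + ∑ _i : Fin 1, ‖(f : G → ℂ) x‖ ^ 2) *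
          P x ^ (k₀ + k)) ((f * h (fun _ => 1) k - h (f : G → ℂ) k : Aexp C hl) : G → ℂ) :=
        ⟨(f * h (fun _ => 1) k - h (f : G → ℂ) k : Aexp C hl).2.1, hdom.1⟩
      have hb := hit₁ (k₀ + k) hk _ hmem
      have hint : ∫ x, (2 * (‖(θ x : ℂ) * (f : G → ℂ) x - (h (f : G → ℂ) k : G → ℂ) x‖ ^ 2 /
            (W₁ x * P x ^ (k₀ + k))) +
          2 * (‖(θ x : ℂ) * 1 - (h (fun _ => 1) k : G → ℂ) x‖ ^ 2 / (W₁ x * P x ^ (k₀ + k)))) ∂μ =
          2 * nH μ (fun x => W₁ x * P x ^ (k₀ + k))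
            (fun x => (θ x : ℂ) * (f : G → ℂ) x - (h (f : G → ℂ) k : G → ℂ) x) +
          2 * nH μ (fun x => W₁ x * P x ^ (k₀ + k))
            (fun x => (θ x : ℂ) * 1 - (h (fun _ => 1) k : G → ℂ) x) := by
        rw [integral_add ((hh _ hfH k).2.1.const_mul _) ((hh _ h1H k).2.1.const_mul _),
          integral_const_mul, integral_const_mul]
        rfl
      have hn : nH μ (fun x => W₁ x * ((1 : ℝ) + ∑ _i : Fin 1, ‖(f : G → ℂ) x‖ ^ 2) *
          P x ^ (k₀ + k)) ((f * h (fun _ => 1) k - h (f : G → ℂ) k : Aexp C hl) : G → ℂ) ≤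
          2 * (T₀ * mg (f : G → ℂ) ^ 2) + 2 * (T₀ * mg (fun _ => 1) ^ 2) := by
        refine hdom.2.trans ?_
        rw [hint]
        have h1 := (hh _ hfH k).2.2
        have h2 := (hh _ h1H k).2.2
        linarith
      refine ST6_root (norm_nonneg _) (by positivity) (hb.trans ?_)
      have e : (((1 : ℝ) / 2) ^ (k₀ + k - k₁)) ^ 2 = (1 / 4) ^ (k₀ + k - k₁) := by
        rw [← pow_mul, mul_comm (k₀ + k - k₁) 2, pow_mul]; norm_num
      rw [e]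
      have h0 : 0 ≤ nH μ (fun x => W₁ x * ((1 : ℝ) + ∑ _i : Fin 1, ‖(f : G → ℂ) x‖ ^ 2) *
          P x ^ (k₀ + k)) ((f * h (fun _ => 1) k - h (f : G → ℂ) k : Aexp C hl) : G → ℂ) :=
        integral_nonneg fun x => div_nonneg (sq_nonneg _) (isWA_pos C μ hl (hWk (k₀ + k)) x).le
      calc _ ≤ A₁ * (1 / 4) ^ (k₀ + k - k₁) *
            (2 * (T₀ * mg (f : G → ℂ) ^ 2) + 2 * (T₀ * mg (fun _ => 1) ^ 2)) := by gcongr
        _ = _ := by ring
    have ht : Tendsto (fun k : ℕ => Real.sqrt (A₁ * (2 * (T₀ * mg (f : G → ℂ) ^ 2) +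
        2 * (T₀ * mg (fun _ => 1) ^ 2))) * (1 / 2) ^ (k₀ + k - k₁)) atTop
        (𝓝 (Real.sqrt (A₁ * (2 * (T₀ * mg (f : G → ℂ) ^ 2) +
        2 * (T₀ * mg (fun _ => 1) ^ 2))) * 0)) := by
      refine Tendsto.const_mul _ ?_
      refine (tendsto_pow_atTop_nhds_zero_of_lt_one (r := (1 : ℝ) / 2)
        (by norm_num) (by norm_num)).comp ?_
      exact (tendsto_sub_atTop_nat k₁).comp (tendsto_atTop_mono (fun k => Nat.le_add_left k k₀) tendsto_id)
    rw [mul_zero] at ht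
    refine squeeze_zero_norm' ?_ ht
    filter_upwards [eventually_ge_atTop k₁] with k hk
    exact key k (by omega)


/-- Step (B): continuous homomorphisms to Banach algebras are bounded by a supremum over a compact
set. `Φ~(f) = lim Φ (h f k)`, `‖Φ~ f‖ ≤ 3 T sup_K |f|`, `Φ f * e = Φ~ f` with
`e = lim Φ (h 1 k)`. For every character `χ` of `B`, `χ ∘ Φ` is a continuous character of the
algebra, so it is a point `x` (`char_is_point`), `x ∈ specQ` (`|χ b| ≤ ‖b‖`: spectral radius), and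
`χ e = lim (h 1 k) x = 1`. So `e` is a unit (`WeakDual.CharacterSpace.exists_apply_eq_zero`),
`Φ f = e⁻¹ Φ~ f`. (`B` trivial is allowed.) -/
theorem main_bound {s : G → ℝ} (hs : C.Kah s)
    (hsep : ∀ v : En n, v ≠ 0 → ∃ f : Aexp C hl, C.D (f : G → ℂ) 1 v ≠ 0)
    (Φ : Aexp C hl →ₐ[ℂ] B) (hΦ : Cts C hl Φ) :
    ∃ K : Set G, IsCompact K ∧ ∃ M : ℝ, 0 ≤ M ∧ ∀ (f : Aexp C hl) (m : ℝ), 0 ≤ m →
      (∀ x ∈ K, ‖(f : G → ℂ) x‖ ≤ m) → ‖Φ f‖ ≤ M * m := by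
  obtain ⟨h₀, W₀, hW₀, hh₀, h₀0⟩ := loc_exists C μ hl hs hsep
  have hQ : IsCompact (specQ C hl Φ) := specQ_compact C μ hl hW₀ hh₀ h₀0 Φ hΦ
  obtain ⟨K, T, hK, hT, h, h1, h2, h3, h4⟩ := runge C μ hl hs hsep Φ hΦ hQ
  -- the limits
  have hlim : ∀ (g : G → ℂ) (m : ℝ), C.Hol g → 0 ≤ m → (∀ x ∈ K, ‖g x‖ ≤ m) →
      ∃ a : B, Tendsto (fun k => Φ (h g k)) atTop (𝓝 a) ∧ ‖a‖ ≤ 3 * T * m := by
    intro g m hg hm hgm
    have hd : ∀ k, dist (Φ (h g k)) (Φ (h g (k + 1))) ≤ (T * m) * (1 / 2) ^ k := fun k => by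
      rw [dist_comm, dist_eq_norm]
      exact h1 g m hg hm hgm k
    have hcs := cauchySeq_of_le_geometric (1 / 2 : ℝ) (T * m) (by norm_num) hd
    obtain ⟨a, ha⟩ := cauchySeq_tendsto_of_complete hcs
    refine ⟨a, ha, ?_⟩
    have hda := dist_le_of_le_geometric_of_tendsto₀ (1 / 2 : ℝ) (T * m) (by norm_num) hd ha
    have h0 := h2 g m hg hm hgm
    have h5 : ‖a‖ ≤ ‖Φ (h g 0)‖ + dist (Φ (h g 0)) a := by
      rw [dist_comm, dist_eq_norm]
      have := norm_add_le (Φ (h g 0)) (a - Φ (h g 0))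
      rwa [add_sub_cancel] at this
    have h6 : T * m / (1 - 1 / 2) = 2 * (T * m) := by ring
    rw [h6] at hda
    nlinarith
  have h1H : C.Hol (fun _ : G => (1 : ℂ)) := C.hol_const 1
  obtain ⟨e, he, -⟩ := hlim (fun _ => 1) 1 h1H zero_le_one (fun x _ => by simp)
  have hue : IsUnit e := by
    by_contra hne
    obtain ⟨χ, hχ⟩ := WeakDual.CharacterSpace.exists_apply_eq_zero hne
    let χ' : B →ₐ[ℂ] ℂ := WeakDual.CharacterSpace.toAlgHom χ
    have hχc : Continuous χ' := map_continuous χ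
    have hχn : ∀ b, ‖χ' b‖ ≤ ‖b‖ := ST6_char χ' hχc
    have hcts : Cts C hl (χ'.comp Φ) := by
      intro R hR
      obtain ⟨M, hM, hMf⟩ := hΦ R hR
      exact ⟨M, hM, fun f hf => (hχn _).trans (hMf f hf)⟩
    obtain ⟨x, hx⟩ := char_is_point C μ hl hs hW₀ hh₀ h₀0 (χ'.comp Φ) hcts
    have hxQ : x ∈ specQ C hl Φ := fun f => by
      rw [← hx f]; exact hχn _
    have ht1 : Tendsto (fun k => χ' (Φ (h (fun _ => 1) k))) atTop (𝓝 (χ' e)) :=
      (hχc.tendsto e).comp he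
    have ht2 : Tendsto (fun k => χ' (Φ (h (fun _ => 1) k))) atTop (𝓝 1) := by
      have := (h3 (fun _ => 1) h1H).tendsto_at hxQ
      refine this.congr fun k => ?_
      exact (hx _).symm
    have h5 : χ' e = 1 := tendsto_nhds_unique ht1 ht2
    have h6 : χ' e = 0 := hχ
    rw [h6] at h5
    exact zero_ne_one h5
  obtain ⟨u, hu⟩ := hue
  refine ⟨K, hK, 3 * T * ‖(↑u⁻¹ : B)‖, by positivity, fun f m hm hfm => ?_⟩
  obtain ⟨a, ha, hab⟩ := hlim (f : G → ℂ) m f.2.1 hm hfm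
  have h5 : Φ f * e = a := by
    have ht := h4 f
    have ht2 : Tendsto (fun k => Φ (f * h (fun _ => 1) k - h (f : G → ℂ) k)) atTop
        (𝓝 (Φ f * e - a)) := by
      have := (he.const_mul (Φ f)).sub ha
      refine this.congr fun k => ?_
      rw [map_sub, map_mul]
    have := tendsto_nhds_unique ht2 ht
    exact sub_eq_zero.1 this
  have h6 : Φ f = a * (↑u⁻¹ : B) := by
    rw [← h5, ← hu, mul_assoc, Units.mul_inv, mul_one]
  rw [h6]
  calc ‖a * (↑u⁻¹ : B)‖ ≤ ‖a‖ * ‖(↑u⁻¹ : B)‖ := norm_mul_le _ _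
    _ ≤ (3 * T * m) * ‖(↑u⁻¹ : B)‖ := by gcongr
    _ = _ := by ring

/-- Density: `B = C(K₁, ℂ)`, `Φ` = restriction; `K₁ ⊆ specQ Φ`; third property of `runge`. -/
theorem main_dense {s : G → ℝ} (hs : C.Kah s)
    (hsep : ∀ v : En n, v ≠ 0 → ∃ f : Aexp C hl, C.D (f : G → ℂ) 1 v ≠ 0)
    {g : G → ℂ} (hg : C.Hol g) {K₁ : Set G} (hK₁ : IsCompact K₁) {ε : ℝ} (hε : 0 < ε) :
    ∃ f : Aexp C hl, ∀ x ∈ K₁, ‖g x - (f : G → ℂ) x‖ < ε := by
  haveI : CompactSpace K₁ := isCompact_iff_compactSpace.1 hK₁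
  obtain ⟨h₀, W₀, hW₀, hh₀, h₀0⟩ := loc_exists C μ hl hs hsep
  let Φ : Aexp C hl →ₐ[ℂ] C(K₁, ℂ) :=
    { toFun := fun f => ⟨fun x => (f : G → ℂ) x,
        (C.hol_continuous f.2.1).comp continuous_subtype_val⟩
      map_one' := rfl
      map_mul' := fun _ _ => rfl
      map_zero' := rfl
      map_add' := fun _ _ => rfl
      commutes' := fun _ => rfl }
  have hΦa : ∀ (f : Aexp C hl) (x : K₁), Φ f x = (f : G → ℂ) x := fun _ _ => rfl
  have hΦ : Cts C hl Φ := by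
    intro R hR
    obtain ⟨M, hM⟩ := hl.bdd K₁ hK₁
    refine ⟨Real.exp (R * M), (Real.exp_pos _).le, fun f hf => ?_⟩
    rw [ContinuousMap.norm_le _ (Real.exp_pos _).le]
    intro x
    rw [hΦa]
    refine (hf x).trans (Real.exp_le_exp.2 ?_)
    exact mul_le_mul_of_nonneg_left (hM x x.2) hR
  have hQ : IsCompact (specQ C hl Φ) := specQ_compact C μ hl hW₀ hh₀ h₀0 Φ hΦ
  obtain ⟨K, T, hK, hT, h, h1, h2, h3, h4⟩ := runge C μ hl hs hsep Φ hΦ hQ
  have hsub : ∀ x ∈ K₁, x ∈ specQ C hl Φ := fun x hx f => by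
    have := (Φ f).norm_coe_le_norm ⟨x, hx⟩
    rwa [hΦa] at this
  have hu := Metric.tendstoUniformlyOn_iff.1 (h3 g hg) ε hε
  obtain ⟨k, hk⟩ := hu.exists
  refine ⟨h g k, fun x hx => ?_⟩
  have := hk x (hsub x hx)
  rwa [dist_eq_norm] at this

end HR
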