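import Pool.Agent.W_06f097_h43.EX1

/-! MP_06f097_an blueprint, block EX: a smooth strictly plurisubharmonic exhaustion function. -/

open scoped Topology ContDiff
open MeasureTheory Set Filter Metric

noncomputable section

namespace HR

namespace CLG

variable {n : ℕ} {G : Type*} [Group G] [TopologicalSpace G] [IsTopologicalGroup G] [T2Space G]
  [LocallyCompactSpace G] [SecondCountableTopology G] (C : CLG n G)

theorem EX2_hol_const (c : ℂ) : C.Hol (fun _ => c) := fun x => differentiableAt_const _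

theorem EX2_hol_mul {f g : G → ℂ} (hf : C.Hol f) (hg : C.Hol g) : C.Hol (fun x => f x * g x) :=
  fun x => (hf x).mul (hg x)

theorem EX2_hol_pow {f : G → ℂ} (hf : C.Hol f) (k : ℕ) : C.Hol (fun x => f x ^ k) :=
  fun x => (hf x).pow k

theorem EX2_hol_left {f : G → ℂ} (hf : C.Hol f) (a : G) : C.Hol (fun x => f (a * x)) := fun x => by
  have := hf (a * x)
  simpa only [mul_assoc] using this

/-- holomorphic hull -/
def EX2_hull (K : Set G) : Set G := {x : G | ∀ f : G → ℂ, C.Hol f → ∀ M : ℝ,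
      (∀ y ∈ K, ‖f y‖ ≤ M) → ‖f x‖ ≤ M}

theorem EX2_sub (K : Set G) : K ⊆ C.EX2_hull K := fun x hx _ _ _ h => h x hx

theorem EX2_const_mul {f : G → ℂ} (hf : C.Hol f) (c : ℂ) : C.Hol (fun x => c * f x) :=
  C.EX2_hol_mul (C.EX2_hol_const c) hf

theorem EX2_sep {K : Set G} (hK : K.Nonempty) {x : G} (hx : x ∉ C.EX2_hull K) :
    ∃ g : G → ℂ, C.Hol g ∧ (∀ y ∈ K, ‖g y‖ ≤ 1 / 2) ∧ 2 < ‖g x‖ := by
  simp only [EX2_hull, mem_setOf_eq, not_forall, not_le] at hx
  obtain ⟨f, hf, M, hM, hfx⟩ := hx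
  obtain ⟨y₀, hy₀⟩ := hK
  have hM0 : 0 ≤ M := (norm_nonneg _).trans (hM y₀ hy₀)
  obtain ⟨t, ht1, ht2⟩ := exists_between hfx
  have ht0 : 0 < t := hM0.trans_lt ht1
  have h1 : Tendsto (fun N : ℕ => (M / t) ^ N) atTop (𝓝 0) :=
    tendsto_pow_atTop_nhds_zero_of_lt_one (by positivity) (by rw [div_lt_one ht0]; exact ht1)
  have h2 : Tendsto (fun N : ℕ => (‖f x‖ / t) ^ N) atTop atTop :=
    tendsto_pow_atTop_atTop_of_one_lt (by rw [one_lt_div ht0]; exact ht2)
  obtain ⟨N, hN1, hN2⟩ := ((h1.eventually (gt_mem_nhds (show (0 : ℝ) < 1 / 2 by norm_num))).and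
    (h2.eventually (eventually_gt_atTop 2))).exists
  refine ⟨fun y => (((t : ℂ)⁻¹) * f y) ^ N, C.EX2_hol_pow (C.EX2_const_mul hf _) N, ?_, ?_⟩
  · intro y hy
    have e : ‖(((t : ℂ)⁻¹) * f y) ^ N‖ = (‖f y‖ / t) ^ N := by
      rw [norm_pow, norm_mul, norm_inv, Complex.norm_real, Real.norm_of_nonneg ht0.le]
      congr 1; field_simp
    rw [e]
    refine le_trans ?_ hN1.le
    have := hM y hy
    gcongr
  · have e : ‖(((t : ℂ)⁻¹) * f x) ^ N‖ = (‖f x‖ / t) ^ N := by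
      rw [norm_pow, norm_mul, norm_inv, Complex.norm_real, Real.norm_of_nonneg ht0.le]
      congr 1; field_simp
    show 2 < ‖(((t : ℂ)⁻¹) * f x) ^ N‖
    rw [e]; exact hN2

theorem EX2_cover {K A : Set G} (hK : K.Nonempty) (hA : IsCompact A)
    (hd : ∀ x ∈ A, x ∉ C.EX2_hull K) (ε : ℕ → ℝ) (hε : ∀ i, 0 < ε i) (M : ℝ) :
    ∃ (p : ℕ) (f : ℕ → G → ℂ), (∀ i, C.Hol (f i)) ∧ (∀ i, p ≤ i → ∀ x, f i x = 0) ∧
      (∀ i, ∀ y ∈ K, ‖f i y‖ ≤ ε i) ∧ ∀ y ∈ A, ∃ i, M < ‖f i y‖ := by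
  classical
  have h0 : ∀ x : G, ∃ g : G → ℂ, C.Hol g ∧ (∀ y ∈ K, ‖g y‖ ≤ 1 / 2) ∧
      (x ∈ A → 2 < ‖g x‖) := by
    intro x
    by_cases hx : x ∈ A
    · obtain ⟨g, h1, h2, h3⟩ := C.EX2_sep hK (hd x hx)
      exact ⟨g, h1, h2, fun _ => h3⟩
    · exact ⟨fun _ => 0, C.EX2_hol_const 0, fun y _ => by simp, fun h => absurd h hx⟩
  choose g hg1 hg2 hg3 using h0
  obtain ⟨t, ht, hcov⟩ := hA.elim_nhds_subcover (fun x => {y | 2 < ‖g x y‖}) (fun x hx =>
    (isOpen_lt continuous_const (C.hol_continuous (hg1 x)).norm).mem_nhds (hg3 x hx))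
  have hNex : ∀ i, ∃ N : ℕ, (1 / 2 : ℝ) ^ N ≤ ε i ∧ M < 2 ^ N := by
    intro i
    have h1 : Tendsto (fun N : ℕ => (1 / 2 : ℝ) ^ N) atTop (𝓝 0) :=
      tendsto_pow_atTop_nhds_zero_of_lt_one (by norm_num) (by norm_num)
    have h2 : Tendsto (fun N : ℕ => (2 : ℝ) ^ N) atTop atTop :=
      tendsto_pow_atTop_atTop_of_one_lt (by norm_num)
    obtain ⟨N, hN1, hN2⟩ := ((h1.eventually (gt_mem_nhds (hε i))).and
      (h2.eventually (eventually_gt_atTop M))).exists
    exact ⟨N, hN1.le, hN2⟩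
  choose N hN1 hN2 using hNex
  refine ⟨t.card, fun i => if h : i < t.card then
    (fun y => g (t.equivFin.symm ⟨i, h⟩ : G) y ^ N i) else fun _ => 0, ?_, ?_, ?_, ?_⟩
  · intro i
    by_cases h : i < t.card
    · simp only [h, dif_pos]; exact C.EX2_hol_pow (hg1 _) _
    · simp only [h, dif_neg, not_false_iff]; exact C.EX2_hol_const 0
  · intro i hi x
    simp [not_lt.mpr hi]
  · intro i y hy
    by_cases h : i < t.card
    · simp only [h, dif_pos, norm_pow]
      refine le_trans ?_ (hN1 i)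
      have := hg2 (t.equivFin.symm ⟨i, h⟩ : G) y hy
      gcongr
    · simp only [h, dif_neg, not_false_iff, norm_zero]; exact (hε i).le
  · intro y hy
    obtain ⟨x, hxt, hxy⟩ := mem_iUnion₂.mp (hcov hy)
    have hlt := (t.equivFin ⟨x, hxt⟩).2
    refine ⟨(t.equivFin ⟨x, hxt⟩ : ℕ), ?_⟩
    simp only [hlt, dif_pos, Fin.eta, Equiv.symm_apply_apply, norm_pow]
    refine (hN2 (t.equivFin ⟨x, hxt⟩ : ℕ)).trans_le ?_
    have : (2 : ℝ) ≤ ‖g x y‖ := le_of_lt hxy
    gcongr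

/-- a fast compact exhaustion -/
theorem EX2_exh (hconv : ∀ K : Set G, IsCompact K → IsCompact (C.EX2_hull K)) :
    ∃ L : ℕ → Set G, (∀ k, IsCompact (L k)) ∧ (∀ k, (L k).Nonempty) ∧
      (∀ k, C.EX2_hull (L k) ⊆ interior (L (k + 1))) ∧
      ∀ K : Set G, IsCompact K → ∃ k, K ⊆ L k := by
  set E := CompactExhaustion.choice G with hE
  have h1 : ∀ k : ℕ, ∃ j, k < j ∧ C.EX2_hull (E k) ⊆ interior (E j) := by
    intro k
    obtain ⟨j, hj⟩ := E.exists_superset_of_isCompact (hconv _ (E.isCompact k))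
    refine ⟨max (k + 1) (j + 1), by simp, ?_⟩
    exact hj.trans ((E.subset_interior_succ j).trans
      (interior_mono (E.subset (le_max_right _ _))))
  choose J hJ1 hJ2 using h1
  obtain ⟨k₀, hk₀⟩ := E.exists_mem (1 : G)
  have hge : ∀ k, k ≤ J^[k] k₀ := by
    intro k
    induction k with
    | zero => exact Nat.zero_le _
    | succ k ih => rw [Function.iterate_succ_apply']; exact Nat.succ_le_of_lt (ih.trans_lt (hJ1 _))
  have hk0 : ∀ k, k₀ ≤ J^[k] k₀ := by
    intro k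
    induction k with
    | zero => exact le_rfl
    | succ k ih => rw [Function.iterate_succ_apply']; exact ih.trans (hJ1 _).le
  refine ⟨fun k => E (J^[k] k₀), fun k => E.isCompact _, fun k => ⟨1, E.subset (hk0 k) hk₀⟩,
    fun k => ?_, fun K hK => ?_⟩
  · show C.EX2_hull (E (J^[k] k₀)) ⊆ interior (E (J^[k + 1] k₀))
    rw [Function.iterate_succ_apply']; exact hJ2 _
  · obtain ⟨j, hj⟩ := E.exists_superset_of_isCompact hK
    exact ⟨j, hj.trans (E.subset (hge j))⟩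

/-- countably many functions separating tangent directions at every point -/
theorem EX2_tangent (hsep : ∀ v : En n, v ≠ 0 → ∃ f : G → ℂ, C.Hol f ∧ C.D f 1 v ≠ 0) :
    ∃ g : ℕ → G → ℂ, (∀ i, C.Hol (g i)) ∧ ∀ x (b : En n), b ≠ 0 → ∃ i, C.D (g i) x b ≠ 0 := by
  obtain ⟨T, hT, hTU⟩ := TopologicalSpace.isOpen_iUnion_countable
    (fun f : {f : G → ℂ // C.Hol f} => {v : En n | C.D f.1 1 v ≠ 0})
    (fun f => isOpen_ne_fun (C.D f.1 1).continuous continuous_const)
  have hT' : (insert ⟨fun _ => 0, C.EX2_hol_const 0⟩ T : Set {f : G → ℂ // C.Hol f}).Countable :=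
    hT.insert _
  obtain ⟨u, hu⟩ := hT'.exists_eq_range ⟨_, mem_insert _ _⟩
  refine ⟨fun m y => (u m.unpair.1).1 (TopologicalSpace.denseSeq G m.unpair.2 * y),
    fun m => C.EX2_hol_left (u m.unpair.1).2 _, ?_⟩
  intro x b hb
  obtain ⟨f, hf, hfb⟩ := hsep b hb
  have h1 : b ∈ ⋃ f : {f : G → ℂ // C.Hol f}, {v : En n | C.D f.1 1 v ≠ 0} :=
    mem_iUnion.mpr ⟨⟨f, hf⟩, hfb⟩
  rw [← hTU] at h1
  obtain ⟨f', hf'T, hf'b⟩ := mem_iUnion₂.mp h1
  have h2 : f' ∈ range u := by rw [← hu]; exact mem_insert_of_mem _ hf'T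
  obtain ⟨i, hi⟩ := h2
  have hcont : Continuous (fun a : G => C.D f'.1 (a * x) b) :=
    (C.sm_continuous (C.sm_D (C.hol_sm f'.2) b)).comp (continuous_id.mul continuous_const)
  have hopen : IsOpen {a : G | C.D f'.1 (a * x) b ≠ 0} := isOpen_ne_fun hcont continuous_const
  have hne : ({a : G | C.D f'.1 (a * x) b ≠ 0}).Nonempty := ⟨x⁻¹, by
    show C.D f'.1 (x⁻¹ * x) b ≠ 0
    rw [inv_mul_cancel]; exact hf'b⟩
  obtain ⟨a, ha1, j, ha2⟩ := (TopologicalSpace.denseRange_denseSeq G).inter_open_nonempty _ hopen hne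
  refine ⟨Nat.pair i j, ?_⟩
  simp only [Nat.unpair_pair, hi, ha2]
  rw [C.D_left]
  exact ha1

theorem EX2_bound {f : G → ℂ} (hf : C.Hol f) {K : Set G} (hK : IsCompact K) :
    ∃ M : ℝ, 0 ≤ M ∧ ∀ x ∈ K, ‖f x‖ ≤ M := by
  obtain ⟨M, hM⟩ := hK.exists_bound_of_continuousOn (C.hol_continuous hf).continuousOn
  exact ⟨max M 0, le_max_right _ _, fun x hx => (hM x hx).trans (le_max_left _ _)⟩

/-- Proof. Exhaust `G` by compact sets `K_0 ⊆ K_1 ⊆ ...`, `K_k = hull K_k ⊆ interior K_{k+1}`. For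
`x ∈ K_{k+2} \ interior K_{k+1}` there is a holomorphic `f` with `|f| ≤ 1` on `K_k` and
`|f x| > 1`; by compactness and powers there are finitely many `f` with `Σ |f|² ≤ 2^(-k)` on `K_k`
and `≥ k` on `K_{k+2} \ interior K_{k+1}`. All these functions for all `k` give a sequence; the sum
of squares is proper. Strict positivity: finitely many `f_i` with independent derivatives at `1`
(`hsep`), and their left translates by a countable dense set of `G`, multiplied by small constants;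
at `x` a translate by `a` near `x⁻¹` has derivatives at `x` close to those of `f_i` at `1`.
`infinite_sumsq`. -/
theorem exists_exh
    (hconv : ∀ K : Set G, IsCompact K → IsCompact {x : G | ∀ f : G → ℂ, C.Hol f → ∀ M : ℝ,
      (∀ y ∈ K, ‖f y‖ ≤ M) → ‖f x‖ ≤ M})
    (hsep : ∀ v : En n, v ≠ 0 → ∃ f : G → ℂ, C.Hol f ∧ C.D f 1 v ≠ 0) :
    ∃ s : G → ℝ, C.Exh s := by
  classical
  obtain ⟨L, hLc, hLn, hLi, hLe⟩ := C.EX2_exh hconv
  have hLsub : ∀ k, L k ⊆ L (k + 1) := fun k =>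
    (C.EX2_sub _).trans ((hLi k).trans interior_subset)
  have hLmono : Monotone L := monotone_nat_of_le_succ hLsub
  obtain ⟨g, hg1, hg2⟩ := C.EX2_tangent hsep
  -- row zero
  have hrow0 : ∀ i, ∃ c : ℂ, c ≠ 0 ∧ ∀ y ∈ L i, ‖c * g i y‖ ≤ (1 / 2 : ℝ) ^ i := by
    intro i
    obtain ⟨M, hM0, hM⟩ := C.EX2_bound (hg1 i) (hLc i)
    refine ⟨(((1 / 2 : ℝ) ^ i / (M + 1) : ℝ) : ℂ), ?_, fun y hy => ?_⟩
    · exact_mod_cast (by positivity : (1 / 2 : ℝ) ^ i / (M + 1) ≠ 0)
    · rw [norm_mul, Complex.norm_real, Real.norm_of_nonneg (by positivity)]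
      have := hM y hy
      calc (1 / 2 : ℝ) ^ i / (M + 1) * ‖g i y‖ ≤ (1 / 2 : ℝ) ^ i / (M + 1) * (M + 1) := by
            gcongr; linarith
        _ = (1 / 2 : ℝ) ^ i := by field_simp
  choose c hc0 hc using hrow0
  -- the other rows
  have hrow : ∀ r : ℕ, ∃ (p : ℕ) (f : ℕ → G → ℂ), (∀ i, C.Hol (f i)) ∧
      (∀ i, p ≤ i → ∀ x, f i x = 0) ∧ (∀ i, ∀ y ∈ L r, ‖f i y‖ ≤ (1 / 2 : ℝ) ^ (r + i)) ∧
      ∀ y ∈ L (r + 2) \ interior (L (r + 1)), ∃ i, (r + 1 : ℝ) < ‖f i y‖ := by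
    intro r
    refine C.EX2_cover (hLn r) ((hLc (r + 2)).diff isOpen_interior) ?_ _ (fun i => by positivity) _
    intro x hx hxh
    exact hx.2 (hLi r hxh)
  choose p f hf1 hf2 hf3 hf4 using hrow
  set F : ℕ → ℕ → G → ℂ := fun r i => match r with
    | 0 => fun y => c i * g i y
    | r + 1 => f r i with hF
  set h : ℕ → G → ℂ := fun m => F m.unpair.1 m.unpair.2 with hh
  have hhol : ∀ m, C.Hol (h m) := by
    intro m
    show C.Hol (F m.unpair.1 m.unpair.2)
    generalize m.unpair.1 = r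
    cases r with
    | zero => exact C.EX2_const_mul (hg1 _) _
    | succ r => exact hf1 r _
  have hsum : ∀ K : Set G, IsCompact K → ∃ B : ℕ → ℝ, Summable B ∧
      ∀ k, ∀ x ∈ K, ‖h k x‖ ^ 2 ≤ B k := by
    intro K hK
    obtain ⟨N, hN⟩ := hLe K hK
    choose M hM0 hM using fun m => C.EX2_bound (hhol m) hK
    obtain ⟨P, hP⟩ : ∃ P, ∀ r < N, p r ≤ P :=
      ⟨(Finset.range N).sup p, fun r hr => Finset.le_sup (f := p) (Finset.mem_range.mpr hr)⟩
    set S : Finset ℕ := ((Finset.range (N + 1)) ×ˢ (Finset.range (max N P))).image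
      (fun q => Nat.pair q.1 q.2) with hS
    refine ⟨fun m => 2 * ((1 / 2 : ℝ) ^ m.unpair.1 * (1 / 2 : ℝ) ^ m.unpair.2) +
      (if m ∈ S then M m ^ 2 else 0), ?_, ?_⟩
    · refine Summable.add (Summable.mul_left _ ?_) ?_
      · have h1 : Summable (fun q : ℕ × ℕ => (1 / 2 : ℝ) ^ q.1 * (1 / 2 : ℝ) ^ q.2) :=
          (summable_geometric_of_lt_one (by norm_num) (by norm_num)).mul_of_nonneg
            (summable_geometric_of_lt_one (by norm_num) (by norm_num))
            (fun _ => by positivity) (fun _ => by positivity)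
        exact (Nat.pairEquiv.symm.summable_iff (f := fun q : ℕ × ℕ =>
          (1 / 2 : ℝ) ^ q.1 * (1 / 2 : ℝ) ^ q.2)).mpr h1
      · exact summable_of_ne_finset_zero (s := S) (fun m hm => by simp [hm])
    · intro m x hx
      by_cases hmS : m ∈ S
      · simp only [hmS, if_true]
        have h1 := hM m x hx
        have h2 : ‖h m x‖ ^ 2 ≤ M m ^ 2 := by gcongr
        have h3 : (0 : ℝ) ≤ 2 * ((1 / 2 : ℝ) ^ m.unpair.1 * (1 / 2 : ℝ) ^ m.unpair.2) := by positivity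
        linarith
      · simp only [hmS, if_false, add_zero]
        have hmp : Nat.pair m.unpair.1 m.unpair.2 = m := Nat.pair_unpair m
        have hnS : ¬ (m.unpair.1 < N + 1 ∧ m.unpair.2 < max N P) := by
          intro hcon
          apply hmS
          rw [hS, Finset.mem_image]
          exact ⟨(m.unpair.1, m.unpair.2), by
            rw [Finset.mem_product, Finset.mem_range, Finset.mem_range]; exact hcon, hmp⟩
        show ‖F m.unpair.1 m.unpair.2 x‖ ^ 2 ≤ _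
        generalize m.unpair.1 = r at hnS
        generalize m.unpair.2 = i at hnS
        cases r with
        | zero =>
          have hi : N ≤ i := by
            by_contra hcon
            exact hnS ⟨by omega, lt_max_of_lt_left (by omega)⟩
          have h1 : ‖F 0 i x‖ ≤ (1 / 2 : ℝ) ^ i := hc i x (hLmono hi (hN hx))
          have h2 : (1 / 2 : ℝ) ^ i ≤ 1 := pow_le_one₀ (by norm_num) (by norm_num)
          have h3 : (0 : ℝ) ≤ (1 / 2 : ℝ) ^ i := by positivity
          rw [pow_zero, one_mul]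
          nlinarith [norm_nonneg (F 0 i x)]
        | succ r =>
          have h2 : (1 / 2 : ℝ) ^ (r + i) ≤ 1 := pow_le_one₀ (by norm_num) (by norm_num)
          have h3 : (0 : ℝ) ≤ (1 / 2 : ℝ) ^ (r + i) := by positivity
          have h4 : 2 * ((1 / 2 : ℝ) ^ (r + 1) * (1 / 2 : ℝ) ^ i) = (1 / 2 : ℝ) ^ (r + i) := by
            rw [pow_add, pow_add]; ring
          rw [h4]
          by_cases hr : N ≤ r
          · have h1 : ‖F (r + 1) i x‖ ≤ (1 / 2 : ℝ) ^ (r + i) := hf3 r i x (hLmono hr (hN hx))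
            nlinarith [norm_nonneg (F (r + 1) i x)]
          · have hi : p r ≤ i := by
              by_contra hcon
              exact hnS ⟨by omega, lt_max_of_lt_right ((not_le.mp hcon).trans_le (hP r (by omega)))⟩
            have h1 : F (r + 1) i x = 0 := hf2 r i hi x
            rw [h1, norm_zero]
            simpa using h3
  obtain ⟨hsm, hLv⟩ := C.infinite_sumsq hhol hsum
  have hsummable : ∀ x, Summable (fun m => ‖h m x‖ ^ 2) := by
    intro x
    obtain ⟨B, hB, hB2⟩ := hsum {x} isCompact_singleton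
    exact Summable.of_nonneg_of_le (fun _ => by positivity) (fun m => hB2 m x rfl) hB
  refine ⟨fun x => ∑' k, ‖h k x‖ ^ 2, ?_, ?_, ?_, ?_⟩
  · exact (C.sm_ofReal).mpr hsm
  · intro x; exact tsum_nonneg (fun _ => by positivity)
  · intro R
    obtain ⟨r₀, hr₀⟩ := exists_nat_gt R
    refine (hLc (r₀ + 1)).of_isClosed_subset (isClosed_le (C.sm_continuous hsm) continuous_const) ?_
    intro x hx
    by_contra hxL
    have hex : ∃ k, x ∈ L k := by
      obtain ⟨k, hk⟩ := hLe {x} isCompact_singleton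
      exact ⟨k, hk rfl⟩
    have hk1 := Nat.find_spec hex
    have hk2 : ∀ j < Nat.find hex, x ∉ L j := fun j hj => Nat.find_min hex hj
    generalize Nat.find hex = k at hk1 hk2
    have hk : r₀ + 1 < k := by
      by_contra hcon
      exact hxL (hLmono (not_lt.mp hcon) hk1)
    obtain ⟨r, rfl⟩ : ∃ r, k = r + 2 := ⟨k - 2, by omega⟩
    obtain ⟨i, hi⟩ := hf4 r x ⟨hk1, fun hcon => hk2 (r + 1) (by omega) (interior_subset hcon)⟩
    have h1 : ‖h (Nat.pair (r + 1) i) x‖ ^ 2 ≤ ∑' k, ‖h k x‖ ^ 2 :=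
      (hsummable x).le_tsum _ (fun _ _ => by positivity)
    have h2 : h (Nat.pair (r + 1) i) x = f r i x := by
      simp only [hh, Nat.unpair_pair, hF]
    rw [h2] at h1
    have hx' : ∑' k, ‖h k x‖ ^ 2 ≤ R := hx
    have h3 : (r₀ : ℝ) ≤ r := by exact_mod_cast (by omega : r₀ ≤ r)
    nlinarith [norm_nonneg (f r i x), (Nat.cast_nonneg r : (0 : ℝ) ≤ r)]
  · intro x b hb
    obtain ⟨i, hi⟩ := hg2 x b hb
    have h1 := hLv x b
    have h2 : ‖∑ j, b j * C.X j (h (Nat.pair 0 i)) x‖ ^ 2 ≤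
        C.Lv (fun x => ∑' k, ‖h k x‖ ^ 2) x b :=
      le_hasSum h1 _ (fun _ _ => by positivity)
    refine lt_of_lt_of_le ?_ h2
    have h3 : h (Nat.pair 0 i) = fun y => c i * g i y := by
      funext y
      simp only [hh, Nat.unpair_pair, hF]
    have h4 : ∑ j, b j * C.X j (h (Nat.pair 0 i)) x = C.D (h (Nat.pair 0 i)) x b := by
      have hD := C.D_eq (h (Nat.pair 0 i)) x b
      have hX : ∀ j, C.Xb j (h (Nat.pair 0 i)) x = 0 := fun j => C.Xb_hol (hhol _) j x
      rw [hD]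
      simp [hX]
    rw [h4, h3]
    have h5 : C.D (fun y => c i * g i y) x b = c i * C.D (g i) x b := by
      rw [C.CA3_D_mul (C.sm_const _) (C.hol_sm (hg1 i)), C.CA3_D_const]
      simp
    rw [h5, norm_mul]
    have := norm_pos_iff.mpr (hc0 i)
    have := norm_pos_iff.mpr hi
    positivity

end CLG

end HR
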