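import Pool.Agent.W_06f097_h43.BR2
import Pool.Agent.W_06f097_h43.ST6
import Pool.Agent.W_06f097_h43.EX2

/-! MP_06f097_an blueprint: final assembly. -/

open scoped Topology ContDiff Manifold Pointwise
open Set Filter MeasureTheory

noncomputable section

namespace HR

open HolRefl

/-- the completion of a commutative algebra with respect to a submultiplicative seminorm -/
theorem exists_banach.{t} {A : Type t} [CommRing A] [Algebra ℂ A] (p : Seminorm ℂ A)
    (hp : ∀ f g, p (f * g) ≤ p f * p g) :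
    ∃ (B : Type t) (_ : NormedCommRing B) (_ : NormedAlgebra ℂ B) (_ : CompleteSpace B)
      (Φ : A →ₐ[ℂ] B), ∀ a, ‖Φ a‖ = p a := by
  let S : SeminormedRing A := RingSeminorm.toSeminormedRing
    { toFun := p
      map_zero' := map_zero p
      add_le' := map_add_le_add p
      neg' := map_neg_eq_map p
      mul_le' := hp }
  let S2 : SeminormedCommRing A := { S with mul_comm := mul_comm }
  let N : NormedAlgebra ℂ A :=
    { (inferInstance : Algebra ℂ A) with
      norm_smul_le := fun c a => le_of_eq (map_smul_eq_mul p c a) }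
  refine ⟨UniformSpace.Completion A, inferInstance, inferInstance, inferInstance,
    { (UniformSpace.Completion.coeRingHom : A →+* UniformSpace.Completion A) with
      commutes' := fun c => rfl }, fun a => ?_⟩
  exact UniformSpace.Completion.norm_coe a

/-- compactly generated groups are sigma compact -/
theorem sigmaCompact_of_cg {G : Type*} [TopologicalSpace G] [Group G] [IsTopologicalGroup G]
    (hcg : CompactlyGenerated G) : SigmaCompactSpace G := by
  obtain ⟨K, hK, hgen⟩ := hcg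
  have hS : IsCompact (K ∪ K⁻¹) := hK.union hK.inv
  have hpow : ∀ k : ℕ, IsCompact ((K ∪ K⁻¹) ^ k) := by
    intro k
    induction k with
    | zero => simp
    | succ k ih => rw [pow_succ]; exact ih.mul hS
  refine ⟨⟨fun k => (K ∪ K⁻¹) ^ k, hpow, ?_⟩⟩
  rw [eq_univ_iff_forall]
  intro x
  have hx : x ∈ Subgroup.closure K := by rw [hgen]; trivial
  rw [mem_iUnion]
  induction hx using Subgroup.closure_induction with
  | mem x hx => exact ⟨1, by rw [pow_one]; exact Or.inl hx⟩
  | one => exact ⟨0, by rw [pow_zero]; exact Set.mem_one.2 rfl⟩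
  | mul x y _ _ hx hy =>
    obtain ⟨a, ha⟩ := hx
    obtain ⟨b, hb⟩ := hy
    exact ⟨a + b, by rw [pow_add]; exact Set.mul_mem_mul ha hb⟩
  | inv x _ hx =>
    obtain ⟨a, ha⟩ := hx
    refine ⟨a, ?_⟩
    have h1 : (K ∪ K⁻¹)⁻¹ = K ∪ K⁻¹ := by rw [Set.union_inv, inv_inv, union_comm]
    have h2 : x⁻¹ ∈ ((K ∪ K⁻¹) ^ a)⁻¹ := Set.inv_mem_inv.2 ha
    rwa [← inv_pow, h1] at h2

/-- For a compactly generated Stein group with `Lin~(G) = 1` the inclusion `O_exp(G) → O(G)` is an
Arens-Michael envelope.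
Assembly: `E`-coordinates by `exists_clg`, Haar measure on the Borel sigma algebra, `exists_len`,
`sep_of_lin`, `exists_exh`; `Oexp E G` and `Aexp C hl` are the same set of functions. A
submultiplicative seminorm `p` on `Oexp` gives the Banach algebra completion of the seminormed ring
`(Oexp, p)` (if `p 1 = 0` then `p = 0`), to which `main_bound` applies. -/
theorem main.{u, w, v} {E : Type u} [NormedAddCommGroup E] [NormedSpace ℂ E] [FiniteDimensional ℂ E]
    {G : Type w} [TopologicalSpace G] [ChartedSpace E G] [Group G] [LieGroup 𝓘(ℂ, E) ω G]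
    [T2Space G] (hcg : CompactlyGenerated G) (hS : IsStein E G) (hL : LinTrivial.{u, w, v} E G) :
    IsArensMichaelEnvelope E G := by
  have : IsTopologicalGroup G := topologicalGroup_of_lieGroup 𝓘(ℂ, E) ω
  have : ProperSpace E := FiniteDimensional.proper ℂ E
  have : LocallyCompactSpace G := Manifold.locallyCompact_of_finiteDimensional 𝓘(ℂ, E)
  have : SigmaCompactSpace G := sigmaCompact_of_cg hcg
  have : SecondCountableTopology G := ChartedSpace.secondCountable_of_sigmaCompact E G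
  letI : MeasurableSpace G := borel G
  have : BorelSpace G := ⟨rfl⟩
  obtain ⟨C, hC⟩ := exists_clg (E := E) (G := G)
  have hHol : ∀ f : G → ℂ, IsHol E f ↔ C.Hol f := fun f => hol_iff hC f
  obtain ⟨K₀, hK₀, hgen⟩ := hcg
  obtain ⟨l, hl, hw⟩ := exists_len (Measure.haar : Measure G) hK₀ hgen
  have hlin : ∀ g : G, g ≠ 1 → ∃ (B : Type v) (_ : NormedRing B) (_ : NormedAlgebra ℂ B)
      (_ : CompleteSpace B) (π : G →* Bˣ),
      (∀ x, DifferentiableAt ℂ (fun z => ((π (x * C.ψ z) : Bˣ) : B)) 0) ∧ π g ≠ 1 := by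
    intro g hg
    obtain ⟨B, i1, i2, i3, π, hπ, hπg⟩ := hL g hg
    exact ⟨B, i1, i2, i3, π, (hol_iff hC (fun x => (π x : B))).1 hπ, hπg⟩
  have hsep := sep_of_lin C hl hw hlin
  obtain ⟨s, hs0⟩ : ∃ s : G → ℝ, C.Exh s := by
    refine C.exists_exh (fun K hK => ?_) (fun v hv => ?_)
    · have h1 := hS.1 K hK
      have h2 : hull E K = {x : G | ∀ f : G → ℂ, C.Hol f → ∀ M : ℝ,
          (∀ y ∈ K, ‖f y‖ ≤ M) → ‖f x‖ ≤ M} := by
        ext x
        simp only [hull, mem_setOf_eq, hHol]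
      rwa [h2] at h1
    · obtain ⟨f, hf⟩ := hsep v hv
      exact ⟨f, f.2.1, hf⟩
  have hs := C.kah_of_exh hs0
  -- the two algebras agree
  have hto : ∀ f : G → ℂ, f ∈ Aexp C hl → f ∈ Oexp E G := by
    rintro f ⟨hf, M, R, hM, hR, hb⟩
    have h1 := len_weight (Measure.haar : Measure G) hl (le_max_left 1 M) hR
    refine ⟨(hHol f).2 hf, fun x => max 1 M * Real.exp (R * l x), ⟨h1.1, h1.2.1, h1.2.2⟩,
      fun x => (hb x).trans ?_⟩
    exact mul_le_mul_of_nonneg_right (le_max_right 1 M) (Real.exp_pos _).le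
  have hfrom : ∀ f : G → ℂ, f ∈ Oexp E G → f ∈ Aexp C hl := by
    rintro f ⟨hf, w, hw', hb⟩
    obtain ⟨M, R, hM, hR, h2⟩ := hw w hw'.nonneg hw'.submul hw'.locBdd
    exact ⟨(hHol f).1 hf, M, R, hM, hR, fun x => (hb x).trans (h2 x)⟩
  let ι : Aexp C hl →ₐ[ℂ] Oexp E G := Subalgebra.inclusion hto
  refine ⟨fun p hp hcts => ?_, fun f hf K hK ε hε => ?_⟩
  · obtain ⟨B, i1, i2, i3, Φ, hΦ⟩ := exists_banach p hp
    have hcts' : Cts C hl (Φ.comp ι) := by
      intro R hR
      have h1 := len_weight (Measure.haar : Measure G) hl (le_refl (1 : ℝ)) hR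
      obtain ⟨M, hM⟩ := hcts (fun x => 1 * Real.exp (R * l x)) ⟨h1.1, h1.2.1, h1.2.2⟩
      refine ⟨max M 0, le_max_right _ _, fun f hf => ?_⟩
      have h3 : ‖(Φ.comp ι) f‖ = p (ι f) := hΦ (ι f)
      rw [h3]
      refine le_trans (hM (ι f) fun x => ?_) (le_max_left _ _)
      rw [one_mul]
      exact hf x
    obtain ⟨K, hK, M, hM, hb⟩ := main_bound C (Measure.haar : Measure G) hl hs hsep (Φ.comp ι) hcts'
    refine ⟨K, hK, M, hM, fun f c hfc hc => ?_⟩
    have h4 := hb ⟨(f : G → ℂ), hfrom _ f.2⟩ c hc hfc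
    have h5 : ‖(Φ.comp ι) ⟨(f : G → ℂ), hfrom _ f.2⟩‖ = p f := by
      have : ι ⟨(f : G → ℂ), hfrom _ f.2⟩ = f := Subtype.ext rfl
      calc ‖(Φ.comp ι) ⟨(f : G → ℂ), hfrom _ f.2⟩‖
          = p (ι ⟨(f : G → ℂ), hfrom _ f.2⟩) := hΦ _
        _ = p f := by rw [this]
    rw [← h5]
    exact h4
  · obtain ⟨g, hg⟩ := main_dense C (Measure.haar : Measure G) hl hs hsep ((hHol f).1 hf) hK hε
    exact ⟨⟨(g : G → ℂ), hto _ g.2⟩, hg⟩

end HR
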