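import Mathlib

/-! MP_06f097_an blueprint, block SV (several complex variables, no group).
`E` finite dimensional. (Mathlib only knows the one variable case.) -/

open scoped Topology ContDiff
open MeasureTheory Set Filter Metric

noncomputable section

namespace HR

variable {E F : Type*} [NormedAddCommGroup E] [NormedSpace ℂ E] [FiniteDimensional ℂ E]
  [NormedAddCommGroup F] [NormedSpace ℂ F] [CompleteSpace F]

omit [FiniteDimensional ℂ E] [CompleteSpace F] in
/-- derivative of the slice -/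
private theorem SV1_hasDerivAt_slice {f : E → F} {x v : E} (hf : DifferentiableAt ℂ f x) :
    HasDerivAt (fun ζ : ℂ => f (x + ζ • v)) (fderiv ℂ f x v) 0 := by
  have h1 : HasDerivAt (fun ζ : ℂ => x + ζ • v) v 0 := by
    simpa using ((hasDerivAt_id (0 : ℂ)).smul_const v).const_add x
  have h2 : HasFDerivAt f (fderiv ℂ f x) (x + (0 : ℂ) • v) := by
    simpa using hf.hasFDerivAt
  exact h2.comp_hasDerivAt (0 : ℂ) h1

omit [FiniteDimensional ℂ E] [CompleteSpace F] in
/-- the slice is differentiable on a closed disc -/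
private theorem SV1_slice_diff {f : E → F} {U : Set E} (hU : IsOpen U)
    (hf : DifferentiableOn ℂ f U) {x v : E} {r : ℝ}
    (h : ∀ ζ ∈ closedBall (0 : ℂ) r, x + ζ • v ∈ U) :
    DifferentiableOn ℂ (fun ζ : ℂ => f (x + ζ • v)) (closedBall 0 r) := by
  intro ζ hζ
  have h1 : DifferentiableAt ℂ (fun ζ : ℂ => x + ζ • v) ζ := by fun_prop
  have h2 : DifferentiableAt ℂ f (x + ζ • v) := hf.differentiableAt (hU.mem_nhds (h ζ hζ))
  exact (h2.comp ζ h1).differentiableWithinAt

/-- Cauchy estimate. Proof: for `v` in `E`, `fderiv ℂ f x v` is the derivative at `0` of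
`ζ ↦ f (x + ζ • v)`, holomorphic on the disc of radius `R / ‖v‖`; use the one variable Cauchy
estimate (`Complex.norm_deriv_le_of_forall_mem_sphere_norm_le`) for every smaller radius. -/
theorem norm_fderiv_le_of_ball {f : E → F} {x : E} {R M : ℝ} (hR : 0 < R) (hM : 0 ≤ M)
    (hf : DifferentiableOn ℂ f (ball x R)) (hb : ∀ y ∈ ball x R, ‖f y‖ ≤ M) :
    ‖fderiv ℂ f x‖ ≤ M / R := by
  refine ContinuousLinearMap.opNorm_le_bound _ (by positivity) fun v => ?_
  rcases eq_or_ne v 0 with rfl | hv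
  · simp
  have hv0 : 0 < ‖v‖ := norm_pos_iff.2 hv
  have key : ∀ r ∈ Ioo 0 R, ‖fderiv ℂ f x v‖ * r ≤ M * ‖v‖ := by
    intro r hr
    have hin : ∀ ζ ∈ closedBall (0 : ℂ) (r / ‖v‖), x + ζ • v ∈ ball x R := by
      intro ζ hζ
      rw [mem_closedBall_zero_iff] at hζ
      rw [mem_ball_iff_norm, add_sub_cancel_left, norm_smul]
      calc ‖ζ‖ * ‖v‖ ≤ r / ‖v‖ * ‖v‖ := by gcongr
        _ = r := by field_simp
        _ < R := hr.2
    have hd := SV1_slice_diff isOpen_ball hf hin
    have hr0 : 0 < r / ‖v‖ := div_pos hr.1 hv0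
    have h3 := Complex.norm_deriv_le_of_forall_mem_sphere_norm_le (C := M) hr0
      ((hd.mono closure_ball_subset_closedBall).diffContOnCl)
      (fun z hz => hb _ (hin z (sphere_subset_closedBall hz)))
    rw [(SV1_hasDerivAt_slice (hf.differentiableAt (ball_mem_nhds x hR))).deriv] at h3
    rw [div_div_eq_mul_div, le_div_iff₀ hr.1] at h3
    exact h3
  have hlim : Tendsto (fun r : ℝ => ‖fderiv ℂ f x v‖ * r) (𝓝[<] R)
      (𝓝 (‖fderiv ℂ f x v‖ * R)) :=
    (Continuous.tendsto (by fun_prop) R).mono_left nhdsWithin_le_nhds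
  have hfin : ‖fderiv ℂ f x v‖ * R ≤ M * ‖v‖ := by
    refine le_of_tendsto hlim ?_
    filter_upwards [Ioo_mem_nhdsLT hR] with r hr using key r hr
  rw [div_mul_eq_mul_div, le_div_iff₀ hR]
  exact hfin

/-- the derivative is continuous -/
private theorem SV1_continuousOn_fderiv {U : Set E} (hU : IsOpen U) {f : E → F}
    (hf : DifferentiableOn ℂ f U) : ContinuousOn (fderiv ℂ f) U := by
  intro x₀ hx₀
  refine ContinuousAt.continuousWithinAt ?_
  obtain ⟨ε, hε, hεU⟩ := Metric.isOpen_iff.1 hU x₀ hx₀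
  obtain ⟨ρ, hρ, hρε⟩ : ∃ ρ : ℝ, 0 < ρ ∧ 3 * ρ < ε := ⟨ε / 4, by positivity, by linarith⟩
  have hsub : closedBall x₀ (3 * ρ) ⊆ U := (closedBall_subset_ball hρε).trans hεU
  have hcomp : IsCompact (closedBall x₀ (3 * ρ)) := by
    have : ProperSpace E := FiniteDimensional.proper ℂ E
    exact isCompact_closedBall _ _
  obtain ⟨M, hM⟩ := hcomp.exists_bound_of_continuousOn (hf.continuousOn.mono hsub)
  have hM0 : 0 ≤ M := (norm_nonneg _).trans (hM x₀ (mem_closedBall_self (by positivity)))
  have hbd : ∀ y ∈ ball x₀ (2 * ρ), ‖fderiv ℂ f y‖ ≤ M / ρ := by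
    intro y hy
    have hy2 : ball y ρ ⊆ closedBall x₀ (3 * ρ) := by
      refine (ball_subset_ball' ?_).trans ball_subset_closedBall
      rw [mem_ball] at hy
      linarith
    exact norm_fderiv_le_of_ball hρ hM0 (hf.mono (hy2.trans hsub)) fun z hz => hM z (hy2 hz)
  have hlip : ∀ y ∈ ball x₀ ρ, ‖fderiv ℂ f y - fderiv ℂ f x₀‖ ≤ M / ρ * ‖y - x₀‖ / ρ := by
    intro y hy
    rw [mem_ball_iff_norm] at hy
    have hsh : ∀ z ∈ ball x₀ ρ, z + (y - x₀) ∈ ball x₀ (2 * ρ) := by
      intro z hz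
      rw [mem_ball_iff_norm] at hz ⊢
      calc ‖z + (y - x₀) - x₀‖ = ‖(z - x₀) + (y - x₀)‖ := by congr 1; abel
        _ ≤ ‖z - x₀‖ + ‖y - x₀‖ := norm_add_le _ _
        _ < 2 * ρ := by linarith
    have hz2 : ∀ z ∈ ball x₀ ρ, z ∈ ball x₀ (2 * ρ) := fun z hz =>
      ball_subset_ball (by linarith) hz
    have hdU : ∀ z ∈ ball x₀ (2 * ρ), DifferentiableAt ℂ f z := by
      intro z hz
      refine hf.differentiableAt (hU.mem_nhds (hsub ?_))
      exact ball_subset_closedBall (ball_subset_ball (by linarith) hz)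
    have hd : ∀ z ∈ ball x₀ ρ, DifferentiableAt ℂ (fun z => f (z + (y - x₀)) - f z) z := by
      intro z hz
      refine DifferentiableAt.sub ?_ (hdU z (hz2 z hz))
      exact (hdU _ (hsh z hz)).comp z (by fun_prop)
    have hb : ∀ z ∈ ball x₀ ρ, ‖f (z + (y - x₀)) - f z‖ ≤ M / ρ * ‖y - x₀‖ := by
      intro z hz
      have := (convex_ball x₀ (2 * ρ)).norm_image_sub_le_of_norm_fderiv_le (𝕜 := ℂ) hdU hbd
        (hz2 z hz) (hsh z hz)
      rwa [add_sub_cancel_left] at this
    have h4 := norm_fderiv_le_of_ball (f := fun z => f (z + (y - x₀)) - f z) hρ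
      (by positivity) (fun z hz => (hd z hz).differentiableWithinAt) hb
    have h5 : fderiv ℂ (fun z => f (z + (y - x₀)) - f z) x₀ = fderiv ℂ f y - fderiv ℂ f x₀ := by
      have hyy : x₀ + (y - x₀) = y := by abel
      have e1 : HasFDerivAt (fun z => f (z + (y - x₀))) (fderiv ℂ f y) x₀ := by
        have e2 : HasFDerivAt f (fderiv ℂ f y) (x₀ + (y - x₀)) := by
          rw [hyy]
          exact (hdU y (ball_subset_ball (by linarith) (mem_ball_iff_norm.2 hy))).hasFDerivAt
        have e3 : HasFDerivAt (fun z : E => z + (y - x₀)) (ContinuousLinearMap.id ℂ E) x₀ :=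
          (hasFDerivAt_id x₀).add_const _
        exact e2.comp x₀ e3
      exact (e1.sub (hdU x₀ (mem_ball_self (by positivity))).hasFDerivAt).fderiv
    rwa [h5] at h4
  have hlim : Tendsto (fun y => M / ρ * ‖y - x₀‖ / ρ) (𝓝 x₀) (𝓝 0) := by
    have : ContinuousAt (fun y => M / ρ * ‖y - x₀‖ / ρ) x₀ := by fun_prop
    have h6 := this.tendsto
    simpa using h6
  rw [ContinuousAt, tendsto_iff_norm_sub_tendsto_zero]
  refine squeeze_zero' (Eventually.of_forall fun _ => norm_nonneg _) ?_ hlim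
  filter_upwards [ball_mem_nhds x₀ hρ] with y hy using hlip y hy

/-- the directional derivatives are differentiable -/
private theorem SV1_differentiableOn_fderiv_apply {U : Set E} (hU : IsOpen U) {f : E → F}
    (hf : DifferentiableOn ℂ f U) (v : E) : DifferentiableOn ℂ (fun x => fderiv ℂ f x v) U := by
  intro x₀ hx₀
  refine DifferentiableAt.differentiableWithinAt ?_
  obtain ⟨ε, hε, hεU⟩ := Metric.isOpen_iff.1 hU x₀ hx₀
  obtain ⟨ρ, hρ, hρε⟩ : ∃ ρ : ℝ, 0 < ρ ∧ 2 * ρ < ε := ⟨ε / 3, by positivity, by linarith⟩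
  have hsub : closedBall x₀ (2 * ρ) ⊆ U := (closedBall_subset_ball hρε).trans hεU
  have hcomp : IsCompact (closedBall x₀ (2 * ρ)) := by
    have : ProperSpace E := FiniteDimensional.proper ℂ E
    exact isCompact_closedBall _ _
  have hcf := SV1_continuousOn_fderiv hU hf
  obtain ⟨C, hC⟩ := hcomp.exists_bound_of_continuousOn (hcf.mono hsub)
  obtain ⟨r, hr, hrv⟩ : ∃ r : ℝ, 0 < r ∧ r * ‖v‖ ≤ ρ := by
    refine ⟨ρ / (‖v‖ + 1), by positivity, ?_⟩
    rw [div_mul_eq_mul_div, div_le_iff₀ (by positivity)]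
    nlinarith [norm_nonneg v]
  have hin : ∀ x ∈ ball x₀ ρ, ∀ ζ ∈ closedBall (0 : ℂ) r, x + ζ • v ∈ closedBall x₀ (2 * ρ) := by
    intro x hx ζ hζ
    rw [mem_closedBall_zero_iff] at hζ
    rw [mem_ball_iff_norm] at hx
    rw [mem_closedBall_iff_norm]
    have h1 : ‖ζ • v‖ ≤ ρ := by
      rw [norm_smul]
      exact (mul_le_mul_of_nonneg_right hζ (norm_nonneg v)).trans hrv
    calc ‖x + ζ • v - x₀‖ = ‖(x - x₀) + ζ • v‖ := by congr 1; abel
      _ ≤ ‖x - x₀‖ + ‖ζ • v‖ := norm_add_le _ _
      _ ≤ 2 * ρ := by linarith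
  -- the weight
  obtain ⟨w, hw, hwc⟩ : ∃ w : ℝ → ℂ, (∀ θ, w θ = (2 * Real.pi * Complex.I)⁻¹ *
      (deriv (circleMap 0 r) θ * (1 / (circleMap 0 r θ - 0) ^ 2))) ∧ Continuous w := by
    refine ⟨_, fun θ => rfl, ?_⟩
    have hne : ∀ θ : ℝ, (circleMap 0 r θ - 0) ^ 2 ≠ 0 := fun θ => by
      simpa using hr.ne'
    have h1 : Continuous (circleMap 0 r) := continuous_circleMap 0 r
    simp only [deriv_circleMap]
    refine continuous_const.mul (Continuous.mul (h1.mul continuous_const) ?_)
    exact continuous_const.div ((h1.sub continuous_const).pow 2) hne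
  have hform : ∀ x ∈ ball x₀ ρ, fderiv ℂ f x v =
      ∫ θ in (0 : ℝ)..(2 * Real.pi), w θ • f (x + circleMap 0 r θ • v) := by
    intro x hx
    have hxU : x ∈ U := by
      have := hin x hx 0 (mem_closedBall_self hr.le)
      rw [zero_smul, add_zero] at this
      exact hsub this
    have h1 := (SV1_slice_diff hU hf (fun ζ hζ => hsub (hin x hx ζ hζ))).deriv_eq_smul_circleIntegral
      hr
    rw [(SV1_hasDerivAt_slice (hf.differentiableAt (hU.mem_nhds hxU))).deriv] at h1
    have h2 : fderiv ℂ f x v = (2 * Real.pi * Complex.I)⁻¹ •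
        ∮ z in C(0, r), (1 / (z - 0) ^ 2) • f (x + z • v) := by
      rw [h1, smul_smul, inv_mul_cancel₀ Complex.two_pi_I_ne_zero, one_smul]
    rw [h2, circleIntegral, ← intervalIntegral.integral_smul]
    refine intervalIntegral.integral_congr fun θ _ => ?_
    simp only [hw, smul_smul, mul_assoc]
  have hcirc : ∀ θ : ℝ, circleMap 0 r θ ∈ closedBall (0 : ℂ) r := fun θ =>
    sphere_subset_closedBall (circleMap_mem_sphere 0 hr.le θ)
  have hcontline : ∀ x : E, Continuous fun θ : ℝ => x + circleMap 0 r θ • v := fun x =>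
    continuous_const.add ((continuous_circleMap 0 r).smul continuous_const)
  have hcF : ∀ x ∈ ball x₀ ρ, Continuous fun θ : ℝ => w θ • f (x + circleMap 0 r θ • v) := by
    intro x hx
    refine hwc.smul (ContinuousOn.comp_continuous hf.continuousOn (hcontline x) fun θ => ?_)
    exact hsub (hin x hx _ (hcirc θ))
  have hcF' : ∀ x ∈ ball x₀ ρ,
      Continuous fun θ : ℝ => w θ • fderiv ℂ f (x + circleMap 0 r θ • v) := by
    intro x hx
    refine hwc.smul (ContinuousOn.comp_continuous hcf (hcontline x) fun θ => ?_)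
    exact hsub (hin x hx _ (hcirc θ))
  have hx₀b : x₀ ∈ ball x₀ ρ := mem_ball_self hρ
  have hD := intervalIntegral.hasFDerivAt_integral_of_dominated_of_fderiv_le (𝕜 := ℂ)
    (μ := volume) (a := 0) (b := 2 * Real.pi) (s := ball x₀ ρ) (x₀ := x₀)
    (bound := fun θ => ‖w θ‖ * C)
    (F := fun x θ => w θ • f (x + circleMap 0 r θ • v))
    (F' := fun x θ => w θ • fderiv ℂ f (x + circleMap 0 r θ • v))
    (ball_mem_nhds x₀ hρ)
    (by
      filter_upwards [ball_mem_nhds x₀ hρ] with x hx
      exact (hcF x hx).aestronglyMeasurable)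
    ((hcF x₀ hx₀b).intervalIntegrable _ _)
    (hcF' x₀ hx₀b).aestronglyMeasurable
    (Eventually.of_forall fun θ _ x hx => by
      rw [norm_smul]
      exact mul_le_mul_of_nonneg_left (hC _ (hin x hx _ (hcirc θ))) (norm_nonneg _))
    ((hwc.norm.mul continuous_const).intervalIntegrable _ _)
    (Eventually.of_forall fun θ _ x hx => by
      have e1 : HasFDerivAt (fun z : E => z + circleMap 0 r θ • v)
          (ContinuousLinearMap.id ℂ E) x := (hasFDerivAt_id x).add_const _
      have e2 : HasFDerivAt f (fderiv ℂ f (x + circleMap 0 r θ • v))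
          (x + circleMap 0 r θ • v) :=
        (hf.differentiableAt (hU.mem_nhds (hsub (hin x hx _ (hcirc θ))))).hasFDerivAt
      exact (e2.comp x e1).const_smul (w θ))
  refine hD.differentiableAt.congr_of_eventuallyEq ?_
  filter_upwards [ball_mem_nhds x₀ hρ] with x hx using hform x hx

/-- A complex differentiable function on an open subset of a finite dimensional space is smooth.
Proof: it is enough that `x ↦ fderiv ℂ f x v` is again complex differentiable on `U` for every `v`
(then `fderiv ℂ f` is differentiable by finite dimension, induct with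
`contDiffOn_infty_iff_fderiv...`/`contDiffOn_succ_iff_fderiv_of_isOpen`, `F` replaced by
`E →L[ℂ] F`). Near a point `x0` choose `ρ` with `closedBall x0 (3 ρ) ⊆ U`, `f` bounded by `M` there
(compactness); for `‖v‖ = 1` and `x ∈ ball x0 ρ`:
`fderiv ℂ f x v = (2 π i)⁻¹ ∮ ζ in C(0, ρ), ζ⁻² • f (x + ζ • v)`, and this parametric integral is
differentiable in `x` (`hasFDerivAt_integral_of_dominated_of_fderiv_le`; the derivative
`fderiv ℂ f (x + ζ v)` is bounded by the Cauchy estimate and measurable in `ζ`: `measurable_fderiv`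
or limits of difference quotients). -/
theorem contDiffOn_of_differentiableOn {U : Set E} (hU : IsOpen U) {f : E → F}
    (hf : DifferentiableOn ℂ f U) : ContDiffOn ℂ ∞ f U := by
  rw [contDiffOn_infty]
  intro n
  induction n generalizing f with
  | zero =>
    rw [Nat.cast_zero, contDiffOn_zero]
    exact hf.continuousOn
  | succ n ih =>
    rw [Nat.cast_succ, contDiffOn_succ_iff_fderiv_of_isOpen hU]
    refine ⟨hf, fun h => absurd h (by simp), ?_⟩
    rw [contDiffOn_clm_apply]
    exact fun v => ih (SV1_differentiableOn_fderiv_apply hU hf v)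

end HR
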