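import Pool.Agent.W_06f097_h43.Defs

/-! The algebra of holomorphic functions of exponential growth with respect to a length function. -/

open scoped Topology ContDiff
open MeasureTheory Set Filter

noncomputable section

namespace HR

variable {n : ℕ} {G : Type*} [Group G] [TopologicalSpace G] [MeasurableSpace G]
  {μ : Measure G} {l : G → ℝ}

namespace CLG
variable (C : CLG n G)

theorem hol_const (c : ℂ) : C.Hol (fun _ => c) := fun x => by
  simpa using differentiableAt_const c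

theorem hol_add {f g : G → ℂ} (hf : C.Hol f) (hg : C.Hol g) : C.Hol (fun x => f x + g x) :=
  fun x => (hf x).add (hg x)

theorem hol_sub {f g : G → ℂ} (hf : C.Hol f) (hg : C.Hol g) : C.Hol (fun x => f x - g x) :=
  fun x => (hf x).sub (hg x)

theorem hol_mul {f g : G → ℂ} (hf : C.Hol f) (hg : C.Hol g) : C.Hol (fun x => f x * g x) :=
  fun x => (hf x).mul (hg x)

theorem hol_left {f : G → ℂ} (hf : C.Hol f) (a : G) : C.Hol (fun x => f (a * x)) := fun x => by
  have := hf (a * x)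
  simpa [mul_assoc] using this

theorem hol_pow {f : G → ℂ} (hf : C.Hol f) (k : ℕ) : C.Hol (fun x => f x ^ k) :=
  fun x => (hf x).pow k

theorem hol_sum {ι : Type*} (s : Finset ι) {f : ι → G → ℂ} (hf : ∀ i ∈ s, C.Hol (f i)) :
    C.Hol (fun x => ∑ i ∈ s, f i x) := by
  intro x
  have := DifferentiableAt.fun_sum (u := s) (A := fun i (z : En n) => f i (x * C.ψ z))
    (fun i hi => hf i hi x)
  exact this

end CLG

/-- growth condition -/
def Gr (l : G → ℝ) (f : G → ℂ) : Prop :=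
  ∃ M R : ℝ, 0 ≤ M ∧ 0 ≤ R ∧ ∀ x, ‖f x‖ ≤ M * Real.exp (R * l x)

theorem gr_add (hl : ∀ x, 0 ≤ l x) {f g : G → ℂ} (hf : Gr l f) (hg : Gr l g) :
    Gr l (fun x => f x + g x) := by
  obtain ⟨M, R, hM, hR, h⟩ := hf
  obtain ⟨M', R', hM', hR', h'⟩ := hg
  refine ⟨M + M', R + R', by positivity, by positivity, fun x => ?_⟩
  have h1 : Real.exp (R * l x) ≤ Real.exp ((R + R') * l x) := by
    apply Real.exp_le_exp.2
    nlinarith [hl x, mul_nonneg hR' (hl x)]
  have h2 : Real.exp (R' * l x) ≤ Real.exp ((R + R') * l x) := by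
    apply Real.exp_le_exp.2
    nlinarith [hl x, mul_nonneg hR (hl x)]
  calc ‖f x + g x‖ ≤ ‖f x‖ + ‖g x‖ := norm_add_le _ _
    _ ≤ M * Real.exp (R * l x) + M' * Real.exp (R' * l x) := add_le_add (h x) (h' x)
    _ ≤ M * Real.exp ((R + R') * l x) + M' * Real.exp ((R + R') * l x) := by
        gcongr
    _ = (M + M') * Real.exp ((R + R') * l x) := by ring

theorem gr_mul {f g : G → ℂ} (hf : Gr l f) (hg : Gr l g) :
    Gr l (fun x => f x * g x) := by
  obtain ⟨M, R, hM, hR, h⟩ := hf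
  obtain ⟨M', R', hM', hR', h'⟩ := hg
  refine ⟨M * M', R + R', by positivity, by positivity, fun x => ?_⟩
  calc ‖f x * g x‖ = ‖f x‖ * ‖g x‖ := norm_mul _ _
    _ ≤ (M * Real.exp (R * l x)) * (M' * Real.exp (R' * l x)) := by
        gcongr
        · exact h x
        · exact h' x
    _ = M * M' * (Real.exp (R * l x) * Real.exp (R' * l x)) := by ring
    _ = M * M' * Real.exp ((R + R') * l x) := by rw [← Real.exp_add]; ring_nf

theorem gr_const (hl : ∀ x, 0 ≤ l x) (c : ℂ) : Gr l (fun _ => c) :=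
  ⟨‖c‖, 0, norm_nonneg _, le_rfl, fun x => by simp⟩

/-- the algebra `O_exp(G)` in terms of a length function -/
def Aexp (C : CLG n G) (hl : Len μ l) : Subalgebra ℂ (G → ℂ) where
  carrier := {f | C.Hol f ∧ Gr l f}
  mul_mem' {f g} hf hg := ⟨C.hol_mul hf.1 hg.1, gr_mul hf.2 hg.2⟩
  add_mem' {f g} hf hg := ⟨C.hol_add hf.1 hg.1, gr_add hl.nonneg hf.2 hg.2⟩
  algebraMap_mem' c := ⟨C.hol_const c, gr_const hl.nonneg c⟩

variable (C : CLG n G) (hl : Len μ l)

include hl in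
theorem gr_left {f : G → ℂ} (hf : Gr l f) (a : G) : Gr l (fun x => f (a * x)) := by
  obtain ⟨M, R, hM, hR, h⟩ := hf
  refine ⟨M * Real.exp (R * l a), R, by positivity, hR, fun x => ?_⟩
  have h3 : l (a * x) ≤ l a + l x := hl.mul a x
  calc ‖f (a * x)‖ ≤ M * Real.exp (R * l (a * x)) := h _
    _ ≤ M * Real.exp (R * (l a + l x)) := by gcongr
    _ = M * Real.exp (R * l a) * Real.exp (R * l x) := by
        rw [mul_add, Real.exp_add]; ring

/-- left translation `(Lt a f) x = f (a x)` on `Aexp` -/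
def Lt (a : G) (f : Aexp C hl) : Aexp C hl :=
  ⟨fun x => (f : G → ℂ) (a * x), C.hol_left f.2.1 a, gr_left hl f.2.2 a⟩

/-- continuity (boundedness on the sets `|f| ≤ exp (R l)`) of a map into a normed space -/
def Cts {B : Type*} [Norm B] (Φ : Aexp C hl → B) : Prop :=
  ∀ R : ℝ, 0 ≤ R → ∃ M : ℝ, 0 ≤ M ∧ ∀ f : Aexp C hl,
    (∀ x, ‖(f : G → ℂ) x‖ ≤ Real.exp (R * l x)) → ‖Φ f‖ ≤ M

/-- weights made of functions of the algebra -/
def IsWA (W : G → ℝ) : Prop := ∃ (N : ℕ) (F : Fin N → G → ℂ), (∀ i, F i ∈ Aexp C hl) ∧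
  (∀ x, W x = ∑ i, ‖F i x‖ ^ 2) ∧ ∃ c : ℝ, 0 < c ∧ ∀ x, c ≤ W x

/-- the largest value at `x` of a function of `Aexp` bounded by `exp (R l)` -/
def om (R : ℝ) (x : G) : ℝ :=
  sSup {t | ∃ f : Aexp C hl, (∀ y, ‖(f : G → ℂ) y‖ ≤ Real.exp (R * l y)) ∧ t = ‖(f : G → ℂ) x‖}

/-- the weight `exp (2 R l)` -/
def ew (l : G → ℝ) (R : ℝ) (x : G) : ℝ := Real.exp (2 * R * l x)

/-- admissible general weights for the Hilbert spaces -/
structure AdmW (W : G → ℝ) : Prop where
  meas : Measurable W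
  bd : ∀ K : Set G, IsCompact K → ∃ c : ℝ, 0 < c ∧ ∀ x ∈ K, c ≤ W x ∧ W x ≤ 1 / c
  pos : ∀ x, 0 < W x

end HR
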