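import Mathlib

/-! Public definitions for MP_06f097_an (definition page; to be copied into the hand-in file).

`G` is a complex Lie group: `LieGroup 𝓘(ℂ, E) ω G` with `E` a finite dimensional complex normed
space; holomorphic function = `MDifferentiable 𝓘(ℂ, E) 𝓘(ℂ)`. -/

open scoped Topology ContDiff Manifold
open Set Filter

noncomputable section

namespace HolRefl

variable (E : Type*) [NormedAddCommGroup E] [NormedSpace ℂ E]
variable {G : Type*} [TopologicalSpace G] [ChartedSpace E G] [Group G]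

/-- locally bounded submultiplicative weights -/
structure IsWeight (w : G → ℝ) : Prop where
  nonneg : ∀ x, 0 ≤ w x
  submul : ∀ x y, w (x * y) ≤ w x * w y
  locBdd : ∀ x, ∃ U ∈ 𝓝 x, ∃ M : ℝ, ∀ y ∈ U, w y ≤ M

/-- `f` is holomorphic on `G` -/
def IsHol (f : G → ℂ) : Prop := MDifferentiable 𝓘(ℂ, E) 𝓘(ℂ) f

/-- `f` belongs to `O_exp(G)` -/
def IsExp (f : G → ℂ) : Prop := IsHol E f ∧ ∃ w : G → ℝ, IsWeight w ∧ ∀ x, ‖f x‖ ≤ w x

/-- the algebra `O(G)` -/
def OG (G : Type*) [TopologicalSpace G] [ChartedSpace E G] : Subalgebra ℂ (G → ℂ) where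
  carrier := {f | MDifferentiable 𝓘(ℂ, E) 𝓘(ℂ) f}
  mul_mem' {f g} hf hg := by
    exact fun x => (hf x).mul (hg x)
  add_mem' {f g} hf hg := by
    exact fun x => (hf x).add (hg x)
  algebraMap_mem' c := by
    exact mdifferentiable_const

theorem isWeight_mul {w v : G → ℝ} (hw : IsWeight w) (hv : IsWeight v) :
    IsWeight (fun x => w x * v x) where
  nonneg x := mul_nonneg (hw.nonneg x) (hv.nonneg x)
  submul x y := by
    calc w (x * y) * v (x * y) ≤ (w x * w y) * (v x * v y) :=
          mul_le_mul (hw.submul x y) (hv.submul x y) (hv.nonneg _)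
            (mul_nonneg (hw.nonneg x) (hw.nonneg y))
      _ = w x * v x * (w y * v y) := by ring
  locBdd x := by
    obtain ⟨U, hU, M, hM⟩ := hw.locBdd x
    obtain ⟨V, hV, N, hN⟩ := hv.locBdd x
    refine ⟨U ∩ V, Filter.inter_mem hU hV, M * N, fun y hy => ?_⟩
    have h1 := hM y hy.1
    have h2 := hN y hy.2
    exact mul_le_mul h1 h2 (hv.nonneg y) ((hw.nonneg y).trans h1)

theorem isWeight_add {w v : G → ℝ} (hw : IsWeight w) (hv : IsWeight v) :
    IsWeight (fun x => w x + v x) where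
  nonneg x := add_nonneg (hw.nonneg x) (hv.nonneg x)
  submul x y := by
    have h1 := hw.submul x y
    have h2 := hv.submul x y
    have h3 := mul_nonneg (hw.nonneg x) (hv.nonneg y)
    have h4 := mul_nonneg (hv.nonneg x) (hw.nonneg y)
    nlinarith
  locBdd x := by
    obtain ⟨U, hU, M, hM⟩ := hw.locBdd x
    obtain ⟨V, hV, N, hN⟩ := hv.locBdd x
    exact ⟨U ∩ V, Filter.inter_mem hU hV, M + N,
      fun y hy => add_le_add (hM y hy.1) (hN y hy.2)⟩

theorem isWeight_const {c : ℝ} (hc : 1 ≤ c) : IsWeight (fun _ : G => c) where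
  nonneg _ := zero_le_one.trans hc
  submul _ _ := by nlinarith
  locBdd x := ⟨univ, Filter.univ_mem, c, fun _ _ => le_rfl⟩

/-- the algebra `O_exp(G)` -/
def Oexp (G : Type*) [TopologicalSpace G] [ChartedSpace E G] [Group G] :
    Subalgebra ℂ (G → ℂ) where
  carrier := {f | IsExp E f}
  mul_mem' {f g} hf hg := by
    obtain ⟨hf, w, hw, hfw⟩ := hf
    obtain ⟨hg, v, hv, hgv⟩ := hg
    refine ⟨fun x => (hf x).mul (hg x), _, isWeight_mul hw hv, fun x => ?_⟩
    rw [Pi.mul_apply, norm_mul]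
    exact mul_le_mul (hfw x) (hgv x) (norm_nonneg _) (hw.nonneg x)
  add_mem' {f g} hf hg := by
    obtain ⟨hf, w, hw, hfw⟩ := hf
    obtain ⟨hg, v, hv, hgv⟩ := hg
    exact ⟨fun x => (hf x).add (hg x), _, isWeight_add hw hv,
      fun x => (norm_add_le _ _).trans (add_le_add (hfw x) (hgv x))⟩
  algebraMap_mem' c := by
    refine ⟨mdifferentiable_const, _, isWeight_const (c := max 1 ‖c‖) (le_max_left _ _),
      fun x => le_max_right _ _⟩

/-- A seminorm on `O_exp(G)` is continuous for the locally convex inductive limit topology of the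
Banach spaces `{f : |f| ≤ C w}` iff it is bounded on every set `{f : |f| ≤ w}`. -/
def IsCtsSeminorm (p : Seminorm ℂ (Oexp E G)) : Prop :=
  ∀ w : G → ℝ, IsWeight w → ∃ M : ℝ, ∀ f : Oexp E G,
    (∀ x, ‖(f : G → ℂ) x‖ ≤ w x) → p f ≤ M

/-- submultiplicative seminorms -/
def IsSubmul (p : Seminorm ℂ (Oexp E G)) : Prop := ∀ f g, p (f * g) ≤ p f * p g

variable (G) in
/-- some compact set generates the group -/
def CompactlyGenerated : Prop := ∃ K : Set G, IsCompact K ∧ Subgroup.closure K = ⊤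

/-- the holomorphically convex hull of `K` -/
def hull (K : Set G) : Set G :=
  {x | ∀ f : G → ℂ, IsHol E f → ∀ M : ℝ, (∀ y ∈ K, ‖f y‖ ≤ M) → ‖f x‖ ≤ M}

variable (G) in
/-- Stein: holomorphically convex and holomorphic functions separate points -/
def IsStein : Prop :=
  (∀ K : Set G, IsCompact K → IsCompact (hull E K)) ∧
  ∀ x y : G, x ≠ y → ∃ f : G → ℂ, IsHol E f ∧ f x ≠ f y

variable (G) in
/-- `Lin~(G) = {1}`: the holomorphic homomorphisms from `G` to the unit groups of Banach algebras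
separate the points of `G` from `1`. -/
def LinTrivial.{v} : Prop := ∀ g : G, g ≠ 1 →
  ∃ (B : Type v) (_ : NormedRing B) (_ : NormedAlgebra ℂ B) (_ : CompleteSpace B) (π : G →* Bˣ),
    MDifferentiable 𝓘(ℂ, E) 𝓘(ℂ, B) (fun x => (π x : B)) ∧ π g ≠ 1

variable (G) in
/-- The inclusion `O_exp(G) → O(G)` (`O(G)` with the compact-open topology, which is complete) is an
Arens-Michael envelope, i.e. `O(G)` is the completion of `O_exp(G)` with respect to all continuous
submultiplicative seminorms: every such seminorm is dominated by a supremum over a compact set,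
and `O_exp(G)` is dense in `O(G)` (the suprema over compact sets are themselves continuous
submultiplicative seminorms on `O_exp(G)`). -/
def IsArensMichaelEnvelope : Prop :=
  (∀ p : Seminorm ℂ (Oexp E G), IsSubmul E p → IsCtsSeminorm E p →
    ∃ K : Set G, IsCompact K ∧ ∃ M : ℝ, 0 ≤ M ∧ ∀ (f : Oexp E G) (c : ℝ),
      (∀ x ∈ K, ‖(f : G → ℂ) x‖ ≤ c) → 0 ≤ c → p f ≤ M * c) ∧
  ∀ f : G → ℂ, IsHol E f → ∀ K : Set G, IsCompact K → ∀ ε : ℝ, 0 < ε →
    ∃ g : Oexp E G, ∀ x ∈ K, ‖f x - (g : G → ℂ) x‖ < ε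

end HolRefl
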