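import Pool.Agent.W_06f097_h43.CA1
import Pool.Agent.W_06f097_h43.Public

/-! MP_06f097_an blueprint, block BR: from Mathlib complex Lie groups to `CLG`. -/

open scoped Topology ContDiff Manifold
open Set Filter

noncomputable section

namespace HR

open HolRefl

variable {E : Type*} [NormedAddCommGroup E] [NormedSpace ℂ E] [FiniteDimensional ℂ E]
  {G : Type*} [TopologicalSpace G] [ChartedSpace E G] [Group G] [LieGroup 𝓘(ℂ, E) ω G]

/-- the coordinates are compatible with the manifold structure -/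
def Compat {n : ℕ} (C : CLG n G) : Prop := ∀ x : G,
  MDifferentiableAt 𝓘(ℂ, En n) 𝓘(ℂ, E) (fun z => x * C.ψ z) 0 ∧
  MDifferentiableAt 𝓘(ℂ, E) 𝓘(ℂ, En n) (fun y => C.ψ.symm (x⁻¹ * y)) x

/-- Let `n = finrank ℂ E`, `L : (Fin n → ℂ) ≃L[ℂ] E`, `κ = chartAt E 1`. Put
`ψ z = κ.symm (L z + κ 1)` (an open partial homeomorphism from the composition of `κ.symm` with an
affine homeomorphism); `r` small. All smoothness conditions follow from `contMDiff_mul`,
`contMDiff_inv` read in charts (`contMDiffOn_chart`, `contMDiffOn_chart_symm`, and on vector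
spaces `contMDiffAt_iff_contDiffAt`). -/
theorem exists_clg : ∃ C : CLG (Module.finrank ℂ E) G, Compat (E := E) C := by
  have : IsTopologicalGroup G := topologicalGroup_of_lieGroup 𝓘(ℂ, E) ω
  set n := Module.finrank ℂ E with hn
  have hfr : Module.finrank ℂ (En n) = Module.finrank ℂ E := by simp [En, ← hn]
  set L : En n ≃L[ℂ] E := ContinuousLinearEquiv.ofFinrankEq hfr with hL
  set κ := chartAt E (1 : G) with hκ
  set A : En n ≃ₜ E := L.toHomeomorph.trans (Homeomorph.addRight (κ 1)) with hA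
  have hA' : ∀ z, A z = L z + κ 1 := fun z => rfl
  set ψ : OpenPartialHomeomorph (En n) G := A.transOpenPartialHomeomorph κ.symm with hψ
  have h1s : (1 : G) ∈ κ.source := mem_chart_source E (1 : G)
  have hA0 : A 0 = κ 1 := by rw [hA', map_zero, zero_add]
  have hsrc : ψ.source = A ⁻¹' κ.target := rfl
  have htgt : ψ.target = κ.source := rfl
  have h0s : (0 : En n) ∈ ψ.source := by
    rw [hsrc, mem_preimage, hA0]
    exact κ.map_source h1s
  have hmap0 : ψ 0 = 1 := by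
    show κ.symm (A 0) = 1
    rw [hA0]
    exact κ.left_inv h1s
  have h1t : (1 : G) ∈ ψ.target := h1s
  have hsm : ∀ z ∈ ψ.source, ContMDiffAt 𝓘(ℂ, En n) 𝓘(ℂ, E) ω ψ z := by
    intro z hz
    have h1 : ContMDiffAt 𝓘(ℂ, E) 𝓘(ℂ, E) ω κ.symm (A z) :=
      (contMDiffOn_chart_symm (I := 𝓘(ℂ, E)) (n := ω) (x := (1 : G))).contMDiffAt
        (κ.open_target.mem_nhds hz)
    have h2 : ContMDiffAt 𝓘(ℂ, En n) 𝓘(ℂ, E) ω A z := by
      have : ContDiff ℂ ω (fun z => L z + κ 1) := L.contDiff.add contDiff_const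
      exact this.contMDiff.contMDiffAt
    exact h1.comp z h2
  have hsms : ∀ y ∈ ψ.target, ContMDiffAt 𝓘(ℂ, E) 𝓘(ℂ, En n) ω ψ.symm y := by
    intro y hy
    have h1 : ContMDiffAt 𝓘(ℂ, E) 𝓘(ℂ, E) ω κ y :=
      (contMDiffOn_chart (I := 𝓘(ℂ, E)) (n := ω) (x := (1 : G))).contMDiffAt
        (κ.open_source.mem_nhds hy)
    have h2 : ContMDiffAt 𝓘(ℂ, E) 𝓘(ℂ, En n) ω A.symm (κ y) := by
      have : ContDiff ℂ ω (fun z => L.symm (z + -κ 1)) :=
        L.symm.contDiff.comp (contDiff_id.add contDiff_const)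
      exact this.contMDiff.contMDiffAt
    exact h2.comp y h1
  have hc0 : ContinuousAt ψ (0 : En n) := (hsm 0 h0s).continuousAt
  have ha1 : ContinuousAt (fun p : En n × En n => ψ p.1) ((0 : En n), (0 : En n)) :=
    ContinuousAt.comp (x := ((0 : En n), (0 : En n))) (g := ψ) hc0 continuousAt_fst
  have ha2 : ContinuousAt (fun p : En n × En n => ψ p.2) ((0 : En n), (0 : En n)) :=
    ContinuousAt.comp (x := ((0 : En n), (0 : En n))) (g := ψ) hc0 continuousAt_snd
  have hev1 : ∀ᶠ p : En n × En n in 𝓝 ((0 : En n), (0 : En n)), ψ p.1 * ψ p.2 ∈ ψ.target := by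
    refine (ha1.mul ha2).eventually (p := fun y => y ∈ ψ.target) ?_
    show ψ.target ∈ 𝓝 (ψ 0 * ψ 0)
    rw [hmap0, mul_one]
    exact ψ.open_target.mem_nhds h1t
  have hev2 : ∀ᶠ p : En n × En n in 𝓝 ((0 : En n), (0 : En n)), p.1 ∈ ψ.source := by
    refine continuousAt_fst.eventually (p := fun y => y ∈ ψ.source) ?_
    exact ψ.open_source.mem_nhds h0s
  obtain ⟨r, hr, hr'⟩ := Metric.eventually_nhds_iff_ball.1 (hev1.and hev2)
  have hr1 : ∀ z ∈ Metric.ball (0 : En n) r, ∀ w ∈ Metric.ball (0 : En n) r,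
      ψ z * ψ w ∈ ψ.target ∧ z ∈ ψ.source := by
    intro z hz w hw
    apply hr' (z, w)
    rw [← ball_prod_same]
    exact ⟨hz, hw⟩
  have hbs : Metric.ball (0 : En n) r ⊆ ψ.source := fun z hz => (hr1 z hz z hz).2
  refine ⟨{ ψ := ψ, r := r, r_pos := hr, ball_sub := hbs, map_zero := hmap0,
            mul_mem := fun z hz w hw => (hr1 z hz w hw).1, mul_smooth := ?_, base_smooth := ?_,
            inv_smooth := ?_, conj_smooth := ?_ }, ?_⟩
  · rintro p ⟨hp1, hp2⟩
    apply ContDiffAt.contDiffWithinAt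
    have h1 : ContMDiffAt 𝓘(ℂ, En n × En n) 𝓘(ℂ, E) ω (fun p : En n × En n => ψ p.1) p :=
      (hsm p.1 (hbs hp1)).comp p contDiff_fst.contMDiff.contMDiffAt
    have h2 : ContMDiffAt 𝓘(ℂ, En n × En n) 𝓘(ℂ, E) ω (fun p : En n × En n => ψ p.2) p :=
      (hsm p.2 (hbs hp2)).comp p contDiff_snd.contMDiff.contMDiffAt
    have h3 := (hsms _ (hr1 p.1 hp1 p.2 hp2).1).comp p (h1.mul h2)
    exact (contMDiffAt_iff_contDiffAt.1 h3).of_le le_top
  · intro z₀ hz₀
    have h1 : ContMDiffAt 𝓘(ℂ, En n) 𝓘(ℂ, E) ω (fun z => (ψ z₀)⁻¹ * ψ z) z₀ :=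
      contMDiffAt_const.mul (hsm z₀ (hbs hz₀))
    have h3 := (hsms ((ψ z₀)⁻¹ * ψ z₀) (by rw [inv_mul_cancel]; exact h1t)).comp z₀ h1
    exact (contMDiffAt_iff_contDiffAt.1 h3).of_le le_top
  · have h1 : ContMDiffAt 𝓘(ℂ, En n) 𝓘(ℂ, E) ω (fun z => (ψ z)⁻¹) 0 := (hsm 0 h0s).inv
    have h3 := (hsms ((ψ 0)⁻¹) (by rw [hmap0, inv_one]; exact h1t)).comp 0 h1
    exact (contMDiffAt_iff_contDiffAt.1 h3).of_le le_top
  · intro b
    have h1 : ContMDiffAt 𝓘(ℂ, En n) 𝓘(ℂ, E) ω (fun z => b⁻¹ * ψ z * b) 0 :=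
      (contMDiffAt_const.mul (hsm 0 h0s)).mul contMDiffAt_const
    have h3 := (hsms (b⁻¹ * ψ 0 * b) (by rw [hmap0, mul_one, inv_mul_cancel]; exact h1t)).comp 0 h1
    exact (contMDiffAt_iff_contDiffAt.1 h3).of_le le_top
  · intro x
    constructor
    · have h1 : ContMDiffAt 𝓘(ℂ, En n) 𝓘(ℂ, E) ω (fun z => x * ψ z) 0 :=
        contMDiffAt_const.mul (hsm 0 h0s)
      exact h1.mdifferentiableAt (by simp)
    · have h1 : ContMDiffAt 𝓘(ℂ, E) 𝓘(ℂ, E) ω (fun y : G => x⁻¹ * y) x :=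
        contMDiffAt_const.mul contMDiffAt_id
      have h3 := (hsms (x⁻¹ * x) (by rw [inv_mul_cancel]; exact h1t)).comp x h1
      exact h3.mdifferentiableAt (by simp)

omit [FiniteDimensional ℂ E] in
/-- A function is holomorphic in the sense of the manifold iff it is in the translated charts
(chain rule; `C.ψ.symm (x⁻¹ * (x * C.ψ z)) = z` near `0`, and conversely
`x * C.ψ (C.ψ.symm (x⁻¹ * y)) = y` near `x`). -/
theorem hol_iff {n : ℕ} {C : CLG n G} (hC : Compat (E := E) C) {F : Type*}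
    [NormedAddCommGroup F] [NormedSpace ℂ F] (f : G → F) :
    MDifferentiable 𝓘(ℂ, E) 𝓘(ℂ, F) f ↔
      ∀ x, DifferentiableAt ℂ (fun z => f (x * C.ψ z)) 0 := by
  have : IsTopologicalGroup G := topologicalGroup_of_lieGroup 𝓘(ℂ, E) ω
  have h0 : (0 : En n) ∈ C.ψ.source := C.ball_sub (Metric.mem_ball_self C.r_pos)
  have h1t : (1 : G) ∈ C.ψ.target := by
    rw [← C.map_zero]
    exact C.ψ.map_source h0
  constructor
  · intro hf x
    have h1 : MDifferentiableAt 𝓘(ℂ, E) 𝓘(ℂ, F) f (x * C.ψ 0) := hf _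
    have h2 := h1.comp (0 : En n) (hC x).1
    exact mdifferentiableAt_iff_differentiableAt.1 h2
  · intro hf x
    have h1 : MDifferentiableAt 𝓘(ℂ, En n) 𝓘(ℂ, F) (fun z => f (x * C.ψ z))
        (C.ψ.symm (x⁻¹ * x)) := by
      have e : C.ψ.symm (x⁻¹ * x) = 0 := by
        rw [inv_mul_cancel, ← C.map_zero, C.ψ.left_inv h0]
      rw [e]
      exact mdifferentiableAt_iff_differentiableAt.2 (hf x)
    have h2 := h1.comp x (hC x).2
    refine h2.congr_of_eventuallyEq ?_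
    have h3 : ∀ᶠ y in 𝓝 x, x⁻¹ * y ∈ C.ψ.target := by
      have : ContinuousAt (fun y => x⁻¹ * y) x := by fun_prop
      refine this.eventually (p := fun y => y ∈ C.ψ.target) ?_
      simp only [inv_mul_cancel]
      exact C.ψ.open_target.mem_nhds h1t
    filter_upwards [h3] with y hy
    simp only [Function.comp_apply]
    rw [C.ψ.right_inv hy, mul_inv_cancel_left]

end HR
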