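import Pool.Agent.W_06f097_h43.BR1
import Pool.Agent.W_06f097_h43.CA5
import Pool.Agent.W_06f097_h43.Alg
import Pool.Agent.W_06f097_h43.LE1

/-! MP_06f097_an blueprint, block BR: `Lin~(G) = 1` separates tangent vectors. -/

open scoped Topology ContDiff Manifold
open Set Filter MeasureTheory

noncomputable section

namespace HR

open HolRefl

variable {n : ℕ} {G : Type*} [Group G] [TopologicalSpace G] [IsTopologicalGroup G] [T2Space G]
  [MeasurableSpace G] [BorelSpace G]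
  (C : CLG n G) {μ : Measure G} {l : G → ℝ} (hl : Len μ l)

/-- Matrix coefficients: for a holomorphic homomorphism `π` into the units of a Banach algebra `B`
and a continuous functional `λ` on `B`, `λ ∘ π` is holomorphic of exponential growth:
`x ↦ ‖π x‖` is a locally bounded submultiplicative weight, so it is `≤ M exp (R l x)` by the
hypothesis on `l`. -/
theorem coeff_mem (hw : ∀ w : G → ℝ, (∀ x, 0 ≤ w x) → (∀ x y, w (x * y) ≤ w x * w y) →
      (∀ x, ∃ U ∈ 𝓝 x, ∃ M : ℝ, ∀ y ∈ U, w y ≤ M) →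
      ∃ M R : ℝ, 0 ≤ M ∧ 0 ≤ R ∧ ∀ x, w x ≤ M * Real.exp (R * l x))
    {B : Type*} [NormedRing B] [NormedAlgebra ℂ B] [CompleteSpace B] (π : G →* Bˣ)
    (hπ : ∀ x, DifferentiableAt ℂ (fun z => ((π (x * C.ψ z) : Bˣ) : B)) 0) (lam : B →L[ℂ] ℂ) :
    (fun x => lam (π x : B)) ∈ Aexp C hl := by
  have hcont : ∀ x, Tendsto (fun y => ((π y : Bˣ) : B)) (𝓝 x) (𝓝 ((π x : Bˣ) : B)) := by
    intro x
    have h := (hπ x).continuousAt.tendsto
    have e : ((π (x * C.ψ 0) : Bˣ) : B) = ((π x : Bˣ) : B) := by rw [C.map_zero, mul_one]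
    rw [e] at h
    rw [← C.map_nhds x]
    exact Filter.tendsto_map'_iff.2 h
  refine ⟨fun x => lam.differentiableAt.comp (0 : En n) (hπ x), ?_⟩
  obtain ⟨M, R, hM, hR, hb⟩ := hw (fun x => ‖((π x : Bˣ) : B)‖) (fun x => norm_nonneg _)
    (fun x y => by
      rw [map_mul, Units.val_mul]
      exact norm_mul_le _ _)
    (fun x => by
      refine ⟨{y | ‖((π y : Bˣ) : B)‖ < ‖((π x : Bˣ) : B)‖ + 1},
        (hcont x).norm.eventually (Iio_mem_nhds (lt_add_one _)),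
        ‖((π x : Bˣ) : B)‖ + 1, fun y hy => le_of_lt hy⟩)
  refine ⟨‖lam‖ * M, R, by positivity, hR, fun x => ?_⟩
  calc ‖lam ((π x : Bˣ) : B)‖ ≤ ‖lam‖ * ‖((π x : Bˣ) : B)‖ := lam.le_opNorm _
    _ ≤ ‖lam‖ * (M * Real.exp (R * l x)) := mul_le_mul_of_nonneg_left (hb x) (norm_nonneg _)
    _ = ‖lam‖ * M * Real.exp (R * l x) := by ring

/-- Suppose `D f 1 v = 0` for all `f` in the algebra, `v ≠ 0`. By left invariance `D f x v = 0` for
all `x`. In the chart at `1` the left invariant field is the smooth vector field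
`Z(z) = ∂_w (ψ.symm (ψ z * ψ w)) v` at `w = 0`, `Z(0) = v`; an integral curve `z(t)` from `0`
(Picard-Lindeloef) satisfies `z(t) ≠ 0` for small `t ≠ 0` and `f (ψ (z t))` is constant for every
`f` in the algebra. So `π (ψ (z t)) = π 1 = 1` for all `π` as in `coeff_mem` (functionals separate the points of
`B`), contradicting `hlin` for `g = ψ (z t) ≠ 1`. -/
theorem sep_of_lin.{v} (hw : ∀ w : G → ℝ, (∀ x, 0 ≤ w x) → (∀ x y, w (x * y) ≤ w x * w y) →
      (∀ x, ∃ U ∈ 𝓝 x, ∃ M : ℝ, ∀ y ∈ U, w y ≤ M) →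
      ∃ M R : ℝ, 0 ≤ M ∧ 0 ≤ R ∧ ∀ x, w x ≤ M * Real.exp (R * l x))
    (hlin : ∀ g : G, g ≠ 1 → ∃ (B : Type v) (_ : NormedRing B) (_ : NormedAlgebra ℂ B)
      (_ : CompleteSpace B) (π : G →* Bˣ),
      (∀ x, DifferentiableAt ℂ (fun z => ((π (x * C.ψ z) : Bˣ) : B)) 0) ∧ π g ≠ 1) :
    ∀ v : En n, v ≠ 0 → ∃ f : Aexp C hl, C.D (f : G → ℂ) 1 v ≠ 0 := by
  intro v hv
  by_contra hcon
  push Not at hcon
  have hr := C.r_pos
  have h0b : (0 : En n) ∈ Metric.ball (0 : En n) C.r := Metric.mem_ball_self hr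
  -- left invariance
  have hD : ∀ (f : Aexp C hl) (a : G), C.D (f : G → ℂ) a v = 0 := by
    intro f a
    have h := hcon (Lt C hl a f)
    have h2 : C.D ((Lt C hl a f : Aexp C hl) : G → ℂ) 1 = C.D (f : G → ℂ) (a * 1) :=
      C.D_left (f : G → ℂ) a 1
    rw [h2, mul_one] at h
    exact h
  obtain ⟨m, hm⟩ : ∃ m : En n → En n → En n, m = fun z w => C.ψ.symm (C.ψ z * C.ψ w) := ⟨_, rfl⟩
  have hmz : ∀ z ∈ Metric.ball (0 : En n) C.r, ContDiffAt ℂ ∞ (Function.uncurry m) (z, 0) := by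
    intro z hz
    have h1 := C.mul_smooth.contDiffAt (x := (z, (0 : En n)))
      (prod_mem_nhds (Metric.isOpen_ball.mem_nhds hz) (Metric.ball_mem_nhds (0 : En n) hr))
    rw [hm]
    exact h1
  have hm0 : ∀ z ∈ Metric.ball (0 : En n) C.r, m z 0 = z := by
    intro z hz
    rw [hm]
    show C.ψ.symm (C.ψ z * C.ψ 0) = z
    rw [C.map_zero, mul_one]
    exact C.ψ.left_inv (C.ball_sub hz)
  have hmd : ∀ z ∈ Metric.ball (0 : En n) C.r, HasFDerivAt (m z) (fderiv ℂ (m z) 0) 0 := by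
    intro z hz
    have h1 : DifferentiableAt ℂ (Function.uncurry m) (z, (0 : En n)) :=
      (hmz z hz).differentiableAt (by simp)
    have h2 : DifferentiableAt ℂ (fun w : En n => (z, w)) 0 :=
      (differentiableAt_const z).prodMk differentiableAt_id
    have h3 : DifferentiableAt ℂ (m z) 0 :=
      DifferentiableAt.comp (g := Function.uncurry m) (f := fun w : En n => (z, w))
        (0 : En n) h1 h2
    exact h3.hasFDerivAt
  obtain ⟨Z, hZdef⟩ : ∃ Z : En n → En n, Z = fun z => fderiv ℂ (m z) 0 v := ⟨_, rfl⟩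
  have hZ : ContDiffAt ℝ 1 Z 0 := by
    have h1 : ContDiffAt ℂ 1 (fun z => fderiv ℂ (m z) ((fun _ => 0 : En n → En n) z)) 0 :=
      ContDiffAt.fderiv (n := ∞) (hmz 0 h0b) contDiffAt_const (by
        have : ((1 : WithTop ℕ∞) + 1) = (((1 + 1 : ℕ∞)) : WithTop ℕ∞) := rfl
        rw [this]
        exact WithTop.coe_le_coe.2 le_top)
    rw [hZdef]
    exact (h1.clm_apply contDiffAt_const).restrict_scalars ℝ
  have hZ0 : Z 0 = v := by
    rw [hZdef]
    show fderiv ℂ (m 0) 0 v = v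
    have h1 : m 0 =ᶠ[𝓝 (0 : En n)] fun w => w := by
      filter_upwards [Metric.ball_mem_nhds (0 : En n) hr] with w hw'
      rw [hm]
      show C.ψ.symm (C.ψ 0 * C.ψ w) = w
      rw [C.map_zero, one_mul]
      exact C.ψ.left_inv (C.ball_sub hw')
    rw [h1.fderiv_eq, fderiv_fun_id]
    rfl
  -- the functions are constant along the field
  have hF : ∀ (f : Aexp C hl), ∀ z ∈ Metric.ball (0 : En n) C.r,
      HasFDerivAt (C.co (f : G → ℂ) 1) (fderiv ℝ (C.co (f : G → ℂ) 1) z) z ∧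
      fderiv ℝ (C.co (f : G → ℂ) 1) z (Z z) = 0 := by
    intro f z hz
    have h1 : DifferentiableAt ℝ (C.co (f : G → ℂ) 1) z :=
      ((C.sm_contDiffOn (C.hol_sm f.2.1) 1).contDiffAt
        (Metric.isOpen_ball.mem_nhds hz)).differentiableAt (by simp)
    refine ⟨h1.hasFDerivAt, ?_⟩
    have h2 := C.co_base' (f : G → ℂ) 1 hz
    have h3 : HasFDerivAt (m z) ((fderiv ℂ (m z) 0).restrictScalars ℝ) 0 :=
      (hmd z hz).restrictScalars ℝ
    have h4 : HasFDerivAt (C.co (f : G → ℂ) 1) (fderiv ℝ (C.co (f : G → ℂ) 1) z) (m z 0) := by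
      rw [hm0 z hz]
      exact h1.hasFDerivAt
    have h5 := HasFDerivAt.comp (0 : En n) h4 h3
    have h6 : C.D (f : G → ℂ) (1 * C.ψ z) v = fderiv ℝ (C.co (f : G → ℂ) 1) z (Z z) := by
      have h7 : C.D (f : G → ℂ) (1 * C.ψ z) =
          (fderiv ℝ (C.co (f : G → ℂ) 1) z).comp ((fderiv ℂ (m z) 0).restrictScalars ℝ) := by
        show fderiv ℝ (C.co (f : G → ℂ) (1 * C.ψ z)) 0 = _
        rw [h2.fderiv_eq]
        rw [← h5.fderiv, hm]
        rfl
      rw [h7, hZdef]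
      rfl
    rw [← h6]
    exact hD f _
  obtain ⟨α, hα0, ε, hε, hα⟩ :=
    hZ.exists_forall_mem_closedBall_exists_eq_forall_mem_Ioo_hasDerivAt₀ 0
  rw [zero_sub, zero_add] at hα
  have hα00 : HasDerivAt α v 0 := by
    have h1 := hα 0 ⟨by linarith, hε⟩
    rw [hα0, hZ0] at h1
    exact h1
  -- small times
  have hball : ∀ᶠ t in 𝓝 (0 : ℝ), α t ∈ Metric.ball (0 : En n) C.r := by
    have h1 : Tendsto α (𝓝 0) (𝓝 (α 0)) := hα00.continuousAt
    rw [hα0] at h1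
    exact h1 (Metric.ball_mem_nhds (0 : En n) hr)
  obtain ⟨δ, hδ, hδb⟩ := Metric.eventually_nhds_iff.1 hball
  have hρ : 0 < min δ ε := lt_min hδ hε
  have hne : ∀ᶠ t in 𝓝[≠] (0 : ℝ), α t ≠ 0 := hα00.eventually_ne hv
  obtain ⟨t, htne, htI⟩ : ∃ t : ℝ, α t ≠ 0 ∧ t ∈ Ioo (-(min δ ε)) (min δ ε) := by
    have h1 : ∀ᶠ t in 𝓝[≠] (0 : ℝ), t ∈ Ioo (-(min δ ε)) (min δ ε) :=
      nhdsWithin_le_nhds (Ioo_mem_nhds (by linarith) hρ)
    obtain ⟨t, ht⟩ := (hne.and h1).exists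
    exact ⟨t, ht.1, ht.2⟩
  have hin : ∀ s ∈ Ioo (-(min δ ε)) (min δ ε), α s ∈ Metric.ball (0 : En n) C.r ∧
      HasDerivAt α (Z (α s)) s := by
    intro s hs
    have h1 : s < δ := hs.2.trans_le (min_le_left _ _)
    have h2 : s < ε := hs.2.trans_le (min_le_right _ _)
    have h3 : -δ < s := by
      have := min_le_left δ ε
      linarith [hs.1]
    have h4 : -ε < s := by
      have := min_le_right δ ε
      linarith [hs.1]
    refine ⟨hδb ?_, hα s ⟨h4, h2⟩⟩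
    rw [Real.dist_eq, sub_zero, abs_lt]
    exact ⟨h3, h1⟩
  have hconst : ∀ f : Aexp C hl, (f : G → ℂ) (C.ψ (α t)) = (f : G → ℂ) 1 := by
    intro f
    have hder : ∀ s ∈ Ioo (-(min δ ε)) (min δ ε),
        HasDerivAt (fun s => C.co (f : G → ℂ) 1 (α s)) 0 s := by
      intro s hs
      obtain ⟨h1, h2⟩ := hin s hs
      obtain ⟨h3, h4⟩ := hF f (α s) h1
      have h5 := h3.comp_hasDerivAt s h2
      rw [h4] at h5
      exact h5
    have h6 := IsOpen.is_const_of_deriv_eq_zero (f := fun s => C.co (f : G → ℂ) 1 (α s))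
      (isOpen_Ioo (a := -(min δ ε)) (b := min δ ε)) isPreconnected_Ioo
      (fun s hs => (hder s hs).differentiableAt.differentiableWithinAt)
      (fun s hs => (hder s hs).deriv) htI (y := 0) ⟨by linarith, hρ⟩
    simp only [hα0, CLG.co, one_mul, C.map_zero] at h6
    exact h6
  have hg : C.ψ (α t) ≠ 1 := by
    intro h
    apply htne
    have h1 : C.ψ (α t) = C.ψ 0 := by rw [h, C.map_zero]
    exact C.ψ.injOn (C.ball_sub (hin t htI).1) (C.ball_sub h0b) h1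
  obtain ⟨B, i1, i2, i3, π, hπ, hπg⟩ := hlin (C.ψ (α t)) hg
  apply hπg
  apply Units.ext
  rw [SeparatingDual.eq_iff_forall_dual_eq (R := ℂ)]
  intro lam
  have h1 := hconst ⟨_, coeff_mem C hl hw π hπ lam⟩
  have h2 : lam ((π (C.ψ (α t)) : Bˣ) : B) = lam ((π 1 : Bˣ) : B) := h1
  rw [h2, map_one]

end HR
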