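import Pool.Agent.W_06f097_h43.Defs
import Pool.Agent.W_06f097_h43.SV1

/-! MP_06f097_an blueprint, block CA: change of base point, holomorphic implies smooth. -/

open scoped Topology ContDiff
open MeasureTheory Set Filter Metric

noncomputable section

namespace HR

namespace CLG

variable {n : ℕ} {G : Type*} [Group G] [TopologicalSpace G] [IsTopologicalGroup G] (C : CLG n G)
variable {F : Type*} [NormedAddCommGroup F] [NormedSpace ℝ F]

private theorem ca1_map_nhds (x : G) {z : En n} (hz : z ∈ ball (0 : En n) C.r) :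
    Filter.map (fun w => x * C.ψ w) (𝓝 z) = 𝓝 (x * C.ψ z) := by
  have h1 : Filter.map C.ψ (𝓝 z) = 𝓝 (C.ψ z) := C.ψ.map_nhds_eq (C.ball_sub hz)
  have h2 : Filter.map (fun y => x * y) (𝓝 (C.ψ z)) = 𝓝 (x * C.ψ z) :=
    (Homeomorph.mulLeft x).map_nhds_eq (C.ψ z)
  rw [← h2, ← h1, Filter.map_map]
  rfl

private theorem ca1_mul_smooth {z₀ : En n} (hz : z₀ ∈ ball (0 : En n) C.r) :
    ContDiffAt ℂ ∞ (fun w => C.ψ.symm (C.ψ z₀ * C.ψ w)) 0 := by
  have hm : ball (0 : En n) C.r ×ˢ ball (0 : En n) C.r ∈ 𝓝 (z₀, (0 : En n)) :=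
    prod_mem_nhds (isOpen_ball.mem_nhds hz) (ball_mem_nhds (0 : En n) C.r_pos)
  have h := C.mul_smooth.contDiffAt hm
  have hg : ContDiffAt ℂ ∞ (fun w : En n => (z₀, w)) 0 := contDiffAt_const.prodMk contDiffAt_id
  exact ContDiffAt.comp (g := fun p : En n × En n => C.ψ.symm (C.ψ p.1 * C.ψ p.2))
    (f := fun w : En n => (z₀, w)) (0 : En n) h hg

private theorem ca1_mul_zero {z₀ : En n} (hz : z₀ ∈ ball (0 : En n) C.r) :
    C.ψ.symm (C.ψ z₀ * C.ψ 0) = z₀ := by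
  rw [C.map_zero, mul_one]
  exact C.ψ.left_inv (C.ball_sub hz)

/-- the charts `z ↦ x * ψ z` give the neighbourhoods of `x` -/
theorem map_nhds (x : G) : Filter.map (fun z => x * C.ψ z) (𝓝 0) = 𝓝 x := by
  have h0 : (0 : En n) ∈ ball (0 : En n) C.r := mem_ball_self C.r_pos
  have h := C.ca1_map_nhds x h0
  rw [C.map_zero, mul_one] at h
  exact h

theorem map_nhds' (x : G) {z : En n} (hz : z ∈ ball (0 : En n) C.r) :
    Filter.map (fun w => x * C.ψ w) (𝓝 z) = 𝓝 (x * C.ψ z) := by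
  have h1 : Filter.map C.ψ (𝓝 z) = 𝓝 (C.ψ z) := C.ψ.map_nhds_eq (C.ball_sub hz)
  have h2 : Filter.map (fun y => x * y) (𝓝 (C.ψ z)) = 𝓝 (x * C.ψ z) :=
    (Homeomorph.mulLeft x).map_nhds_eq (C.ψ z)
  rw [← h2, ← h1, Filter.map_map]
  rfl

/-- change of base point: for `z₀` in the ball, near `z = z₀` one has
`co f x z = co f (x * ψ z₀) (ψ.symm ((ψ z₀)⁻¹ * ψ z))` (`base_smooth` says the inner map is smooth,
its value at `z₀` is `0`, and `(ψ z₀)⁻¹ * ψ z` lies in the target near `z₀`). -/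
theorem co_base (f : G → F) (x : G) {z₀ : En n} (hz : z₀ ∈ ball (0 : En n) C.r) :
    C.co f x =ᶠ[𝓝 z₀] fun z => C.co f (x * C.ψ z₀) (C.ψ.symm ((C.ψ z₀)⁻¹ * C.ψ z)) := by
  have h0 : (0 : En n) ∈ C.ψ.source := C.ball_sub (mem_ball_self C.r_pos)
  have hc : ContinuousAt (fun z => (C.ψ z₀)⁻¹ * C.ψ z) z₀ :=
    continuousAt_const.mul (C.ψ.continuousAt (C.ball_sub hz))
  have ht : C.ψ.target ∈ 𝓝 ((C.ψ z₀)⁻¹ * C.ψ z₀) := by
    rw [inv_mul_cancel, ← C.map_zero]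
    exact C.ψ.open_target.mem_nhds (C.ψ.map_source h0)
  filter_upwards [hc.preimage_mem_nhds ht] with z hz'
  have e : C.ψ (C.ψ.symm ((C.ψ z₀)⁻¹ * C.ψ z)) = (C.ψ z₀)⁻¹ * C.ψ z := C.ψ.right_inv hz'
  simp only [co]
  rw [e, mul_assoc, mul_inv_cancel_left]

theorem base_zero {z₀ : En n} (hz : z₀ ∈ ball (0 : En n) C.r) :
    C.ψ.symm ((C.ψ z₀)⁻¹ * C.ψ z₀) = 0 := by
  rw [inv_mul_cancel, ← C.map_zero]
  exact C.ψ.left_inv (C.ball_sub (mem_ball_self C.r_pos))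

/-- conversely, near `w = 0`, `co f (x * ψ z₀) w = co f x (ψ.symm (ψ z₀ * ψ w))`, and the inner map
is smooth at `0` with value `z₀` (`mul_smooth`). -/
theorem co_base' (f : G → F) (x : G) {z₀ : En n} (hz : z₀ ∈ ball (0 : En n) C.r) :
    C.co f (x * C.ψ z₀) =ᶠ[𝓝 0] fun w => C.co f x (C.ψ.symm (C.ψ z₀ * C.ψ w)) := by
  filter_upwards [ball_mem_nhds (0 : En n) C.r_pos] with w hw
  have e : C.ψ (C.ψ.symm (C.ψ z₀ * C.ψ w)) = C.ψ z₀ * C.ψ w :=
    C.ψ.right_inv (C.mul_mem z₀ hz w hw)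
  simp only [co]
  rw [e, mul_assoc]

theorem sm_contDiffOn {f : G → F} (hf : C.Sm f) (x : G) :
    ContDiffOn ℝ ∞ (C.co f x) (ball 0 C.r) := by
  intro z₀ hz
  apply ContDiffAt.contDiffWithinAt
  refine ContDiffAt.congr_of_eventuallyEq ?_ (C.co_base f x hz)
  have hg : ContDiffAt ℝ ∞ (fun z => C.ψ.symm ((C.ψ z₀)⁻¹ * C.ψ z)) z₀ :=
    (C.base_smooth z₀ hz).restrict_scalars ℝ
  have hf' : ContDiffAt ℝ ∞ (C.co f (x * C.ψ z₀)) (C.ψ.symm ((C.ψ z₀)⁻¹ * C.ψ z₀)) := by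
    rw [C.base_zero hz]; exact hf _
  exact ContDiffAt.comp (g := C.co f (x * C.ψ z₀)) z₀ hf' hg

theorem sm_of_local {f : G → F} {x : G} {z : En n} (hz : z ∈ ball (0 : En n) C.r)
    (h : ContDiffAt ℝ ∞ (C.co f x) z) : ContDiffAt ℝ ∞ (C.co f (x * C.ψ z)) 0 := by
  refine ContDiffAt.congr_of_eventuallyEq ?_ (C.co_base' f x hz)
  have hg : ContDiffAt ℝ ∞ (fun w => C.ψ.symm (C.ψ z * C.ψ w)) 0 :=
    (C.ca1_mul_smooth hz).restrict_scalars ℝ
  have hf' : ContDiffAt ℝ ∞ (C.co f x) (C.ψ.symm (C.ψ z * C.ψ 0)) := by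
    rw [C.ca1_mul_zero hz]; exact h
  exact ContDiffAt.comp (g := C.co f x) 0 hf' hg

theorem hol_differentiableOn {f : G → ℂ} (hf : C.Hol f) (x : G) :
    DifferentiableOn ℂ (C.co f x) (ball 0 C.r) := by
  intro z₀ hz
  apply DifferentiableAt.differentiableWithinAt
  refine DifferentiableAt.congr_of_eventuallyEq ?_ (C.co_base f x hz)
  have hg : DifferentiableAt ℂ (fun z => C.ψ.symm ((C.ψ z₀)⁻¹ * C.ψ z)) z₀ :=
    (C.base_smooth z₀ hz).differentiableAt (by simp)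
  have hf' : DifferentiableAt ℂ (C.co f (x * C.ψ z₀)) (C.ψ.symm ((C.ψ z₀)⁻¹ * C.ψ z₀)) := by
    rw [C.base_zero hz]; exact hf _
  exact DifferentiableAt.comp (g := C.co f (x * C.ψ z₀)) z₀ hf' hg

theorem hol_of_local {f : G → ℂ} {x : G} {z : En n} (hz : z ∈ ball (0 : En n) C.r)
    (h : DifferentiableAt ℂ (C.co f x) z) : DifferentiableAt ℂ (C.co f (x * C.ψ z)) 0 := by
  refine DifferentiableAt.congr_of_eventuallyEq ?_ (C.co_base' f x hz)
  have hg : DifferentiableAt ℂ (fun w => C.ψ.symm (C.ψ z * C.ψ w)) 0 :=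
    (C.ca1_mul_smooth hz).differentiableAt (by simp)
  have hf' : DifferentiableAt ℂ (C.co f x) (C.ψ.symm (C.ψ z * C.ψ 0)) := by
    rw [C.ca1_mul_zero hz]; exact h
  exact DifferentiableAt.comp (g := C.co f x) 0 hf' hg

/-- from `contDiffOn_of_differentiableOn` -/
theorem hol_contDiffOn {f : G → ℂ} (hf : C.Hol f) (x : G) :
    ContDiffOn ℂ ∞ (C.co f x) (ball 0 C.r) := by
  exact contDiffOn_of_differentiableOn isOpen_ball (C.hol_differentiableOn hf x)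

theorem hol_sm {f : G → ℂ} (hf : C.Hol f) : C.Sm f := by
  intro x
  have h : ContDiffAt ℂ ∞ (C.co f x) 0 :=
    (C.hol_contDiffOn hf x).contDiffAt (ball_mem_nhds (0 : En n) C.r_pos)
  exact h.restrict_scalars ℝ

theorem sm_continuous {f : G → F} (hf : C.Sm f) : Continuous f := by
  rw [continuous_iff_continuousAt]
  intro x
  have h : ContinuousAt (C.co f x) 0 := (hf x).continuousAt
  have e : C.co f x 0 = f x := by simp only [co]; rw [C.map_zero, mul_one]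
  have h2 : Tendsto (C.co f x) (𝓝 0) (𝓝 (f x)) := by
    have := h.tendsto
    rwa [e] at this
  rw [ContinuousAt, ← C.map_nhds x]
  exact Filter.tendsto_map'_iff.2 h2

theorem hol_continuous {f : G → ℂ} (hf : C.Hol f) : Continuous f :=
  C.sm_continuous (C.hol_sm hf)

end CLG

end HR
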