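import Pool.Agent.W_06f097_h43.CA1

/-! MP_06f097_an blueprint, block CA: the algebra of smooth functions. All proofs are pointwise
(`ContDiffAt` of a composition in the chart `co`). -/

open scoped Topology ContDiff
open MeasureTheory Set Filter Metric

noncomputable section

namespace HR

namespace CLG

variable {n : ℕ} {G : Type*} [Group G] [TopologicalSpace G] [IsTopologicalGroup G] (C : CLG n G)
variable {F F' : Type*} [NormedAddCommGroup F] [NormedSpace ℝ F]
  [NormedAddCommGroup F'] [NormedSpace ℝ F']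

theorem sm_const (c : F) : C.Sm (fun _ : G => c) := fun _ => contDiffAt_const

theorem sm_add {f g : G → F} (hf : C.Sm f) (hg : C.Sm g) : C.Sm (fun x => f x + g x) :=
  fun x => (hf x).add (hg x)

theorem sm_sub {f g : G → F} (hf : C.Sm f) (hg : C.Sm g) : C.Sm (fun x => f x - g x) :=
  fun x => (hf x).sub (hg x)

theorem sm_neg {f : G → F} (hf : C.Sm f) : C.Sm (fun x => - f x) := fun x => (hf x).neg

theorem sm_mul {f g : G → ℂ} (hf : C.Sm f) (hg : C.Sm g) : C.Sm (fun x => f x * g x) :=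
  fun x => (hf x).mul (hg x)

theorem sm_pow {f : G → ℂ} (hf : C.Sm f) (k : ℕ) : C.Sm (fun x => f x ^ k) :=
  fun x => (hf x).pow k

theorem sm_sum {ι : Type*} (s : Finset ι) {f : ι → G → F} (hf : ∀ i ∈ s, C.Sm (f i)) :
    C.Sm (fun x => ∑ i ∈ s, f i x) := fun x =>
  ContDiffAt.sum (f := fun i (z : En n) => f i (x * C.ψ z)) fun i hi => hf i hi x

/-- composition with a smooth map -/
theorem sm_comp {f : G → F} {g : F → F'} (hf : C.Sm f)
    (hg : ∀ x, ContDiffAt ℝ ∞ g (f x)) : C.Sm (fun x => g (f x)) := fun x =>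
  ContDiffAt.comp (g := g) (f := C.co f x) 0 (hg (x * C.ψ 0)) (hf x)

theorem sm_conj {f : G → ℂ} (hf : C.Sm f) : C.Sm (fun x => (starRingEnd ℂ) (f x)) :=
  C.sm_comp (g := fun z : ℂ => (starRingEnd ℂ) z) hf
    fun _ => Complex.conjCLE.contDiff.contDiffAt

theorem sm_inv {f : G → ℂ} (hf : C.Sm f) (h0 : ∀ x, f x ≠ 0) : C.Sm (fun x => (f x)⁻¹) :=
  fun x => (hf x).inv (h0 _)

/-- a real function is smooth iff its complexification is -/
theorem sm_ofReal {f : G → ℝ} : C.Sm (fun x => (f x : ℂ)) ↔ C.Sm f := by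
  constructor
  · intro h
    have h1 := C.sm_comp (g := fun z : ℂ => z.re) h
      fun _ => Complex.reCLM.contDiff.contDiffAt
    exact h1
  · intro h
    exact C.sm_comp (g := fun t : ℝ => (t : ℂ)) h
      fun _ => Complex.ofRealCLM.contDiff.contDiffAt

theorem sm_left {f : G → F} (hf : C.Sm f) (a : G) : C.Sm (fun x => f (a * x)) := by
  intro x
  have h1 : C.co (fun x => f (a * x)) x = C.co f (a * x) := by
    funext z
    show f (a * (x * C.ψ z)) = f (a * x * C.ψ z)
    rw [mul_assoc]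
  rw [h1]
  exact hf (a * x)

/-- smoothness is local -/
theorem sm_of_eventually {f : G → F} (h : ∀ x, ∃ g : G → F, C.Sm g ∧ f =ᶠ[𝓝 x] g) :
    C.Sm f := by
  intro x
  obtain ⟨g, hg, hfg⟩ := h x
  refine (hg x).congr_of_eventuallyEq ?_
  rw [← C.map_nhds x] at hfg
  exact Filter.eventually_map.1 hfg

theorem sm_log {f : G → ℝ} (hf : C.Sm f) (h0 : ∀ x, 0 < f x) :
    C.Sm (fun x => Real.log (f x)) := fun x => (hf x).log (h0 _).ne'

theorem sm_exp {f : G → ℝ} (hf : C.Sm f) : C.Sm (fun x => Real.exp (f x)) :=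
  fun x => (hf x).exp

theorem sm_normSq {f : G → ℂ} (hf : C.Sm f) : C.Sm (fun x => ((‖f x‖ ^ 2 : ℝ) : ℂ)) := by
  have h1 := C.sm_mul hf (C.sm_conj hf)
  have h2 : (fun x => ((‖f x‖ ^ 2 : ℝ) : ℂ)) = fun x => f x * (starRingEnd ℂ) (f x) := by
    funext x
    rw [Complex.mul_conj, Complex.normSq_eq_norm_sq]
  rw [h2]
  exact h1

end CLG

end HR
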