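import Pool.Agent.W_06f097_h43.CA2

/-! MP_06f097_an blueprint, block CA: rules for the first order operators. -/

open scoped Topology ContDiff
open MeasureTheory Set Filter Metric

noncomputable section

namespace HR

namespace CLG

variable {n : ℕ} {G : Type*} [Group G] [TopologicalSpace G] [IsTopologicalGroup G] (C : CLG n G)

theorem CA3_co0 {F : Type*} (f : G → F) (x : G) : f (x * C.ψ 0) = f x := by
  rw [C.map_zero, mul_one]

theorem CA3_da {F : Type*} [NormedAddCommGroup F] [NormedSpace ℝ F] {f : G → F} (hf : C.Sm f)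
    (x : G) : DifferentiableAt ℝ (fun z => f (x * C.ψ z)) 0 :=
  (hf x).differentiableAt (by simp)

theorem CA3_D {F : Type*} [NormedAddCommGroup F] [NormedSpace ℝ F] (f : G → F) (x : G) :
    C.D f x = fderiv ℝ (fun z => f (x * C.ψ z)) 0 := rfl

theorem CA3_D_const {F : Type*} [NormedAddCommGroup F] [NormedSpace ℝ F] (c : F) (x : G) :
    C.D (fun _ => c) x = 0 := by
  rw [CA3_D]
  simp

theorem CA3_D_add {f g : G → ℂ} (hf : C.Sm f) (hg : C.Sm g) (x : G) :
    C.D (fun y => f y + g y) x = C.D f x + C.D g x := by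
  rw [CA3_D, CA3_D, CA3_D]
  exact fderiv_fun_add (C.CA3_da hf x) (C.CA3_da hg x)

theorem CA3_D_sub {f g : G → ℂ} (hf : C.Sm f) (hg : C.Sm g) (x : G) :
    C.D (fun y => f y - g y) x = C.D f x - C.D g x := by
  rw [CA3_D, CA3_D, CA3_D]
  exact fderiv_fun_sub (C.CA3_da hf x) (C.CA3_da hg x)

theorem CA3_D_mul {f g : G → ℂ} (hf : C.Sm f) (hg : C.Sm g) (x : G) (v : En n) :
    C.D (fun y => f y * g y) x v = C.D f x v * g x + f x * C.D g x v := by
  rw [CA3_D, CA3_D, CA3_D, fderiv_fun_mul (C.CA3_da hf x) (C.CA3_da hg x)]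
  simp only [CA3_co0, _root_.add_apply, _root_.smul_apply, smul_eq_mul]
  ring

theorem CA3_D_sum {ι : Type*} (s : Finset ι) {f : ι → G → ℂ} (hf : ∀ i ∈ s, C.Sm (f i))
    (x : G) : C.D (fun y => ∑ i ∈ s, f i y) x = ∑ i ∈ s, C.D (f i) x := by
  simp only [CA3_D]
  exact fderiv_fun_sum fun i hi => C.CA3_da (hf i hi) x

theorem CA3_D_conj (f : G → ℂ) (x : G) (v : En n) :
    C.D (fun y => (starRingEnd ℂ) (f y)) x v = (starRingEnd ℂ) (C.D f x v) := by
  rw [CA3_D, CA3_D]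
  have h := Complex.conjCLE.comp_fderiv (f := fun z => f (x * C.ψ z)) (x := (0 : En n))
  have h2 := congrArg (fun L => L v) h
  simpa [Function.comp_def] using h2

theorem X_const (j : Fin n) (c : ℂ) (x : G) : C.X j (fun _ => c) x = 0 := by
  unfold X
  rw [CA3_D_const]
  simp
theorem Xb_const (j : Fin n) (c : ℂ) (x : G) : C.Xb j (fun _ => c) x = 0 := by
  unfold Xb
  rw [CA3_D_const]
  simp

theorem X_add {f g : G → ℂ} (hf : C.Sm f) (hg : C.Sm g) (j : Fin n) (x : G) :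
    C.X j (fun y => f y + g y) x = C.X j f x + C.X j g x := by
  unfold X
  rw [CA3_D_add C hf hg]
  simp only [_root_.add_apply]
  ring
theorem Xb_add {f g : G → ℂ} (hf : C.Sm f) (hg : C.Sm g) (j : Fin n) (x : G) :
    C.Xb j (fun y => f y + g y) x = C.Xb j f x + C.Xb j g x := by
  unfold Xb
  rw [CA3_D_add C hf hg]
  simp only [_root_.add_apply]
  ring
theorem X_sub {f g : G → ℂ} (hf : C.Sm f) (hg : C.Sm g) (j : Fin n) (x : G) :
    C.X j (fun y => f y - g y) x = C.X j f x - C.X j g x := by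
  unfold X
  rw [CA3_D_sub C hf hg]
  simp only [_root_.sub_apply]
  ring
theorem Xb_sub {f g : G → ℂ} (hf : C.Sm f) (hg : C.Sm g) (j : Fin n) (x : G) :
    C.Xb j (fun y => f y - g y) x = C.Xb j f x - C.Xb j g x := by
  unfold Xb
  rw [CA3_D_sub C hf hg]
  simp only [_root_.sub_apply]
  ring
theorem X_mul {f g : G → ℂ} (hf : C.Sm f) (hg : C.Sm g) (j : Fin n) (x : G) :
    C.X j (fun y => f y * g y) x = C.X j f x * g x + f x * C.X j g x := by
  unfold X
  rw [CA3_D_mul C hf hg, CA3_D_mul C hf hg]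
  ring
theorem Xb_mul {f g : G → ℂ} (hf : C.Sm f) (hg : C.Sm g) (j : Fin n) (x : G) :
    C.Xb j (fun y => f y * g y) x = C.Xb j f x * g x + f x * C.Xb j g x := by
  unfold Xb
  rw [CA3_D_mul C hf hg, CA3_D_mul C hf hg]
  ring
theorem X_sum {ι : Type*} (s : Finset ι) {f : ι → G → ℂ} (hf : ∀ i ∈ s, C.Sm (f i))
    (j : Fin n) (x : G) : C.X j (fun y => ∑ i ∈ s, f i y) x = ∑ i ∈ s, C.X j (f i) x := by
  unfold X
  rw [CA3_D_sum C s hf]
  simp only [ContinuousLinearMap.sum_apply]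
  rw [Finset.mul_sum, ← Finset.sum_sub_distrib, Finset.sum_div]
theorem Xb_sum {ι : Type*} (s : Finset ι) {f : ι → G → ℂ} (hf : ∀ i ∈ s, C.Sm (f i))
    (j : Fin n) (x : G) : C.Xb j (fun y => ∑ i ∈ s, f i y) x = ∑ i ∈ s, C.Xb j (f i) x := by
  unfold Xb
  rw [CA3_D_sum C s hf]
  simp only [ContinuousLinearMap.sum_apply]
  rw [Finset.mul_sum, ← Finset.sum_add_distrib, Finset.sum_div]

/-- no smoothness needed: `fderiv` of the conjugate -/
theorem X_conj (f : G → ℂ) (j : Fin n) (x : G) :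
    C.X j (fun y => (starRingEnd ℂ) (f y)) x = (starRingEnd ℂ) (C.Xb j f x) := by
  unfold X Xb
  rw [CA3_D_conj, CA3_D_conj]
  simp only [map_div₀, map_add, map_mul, Complex.conj_I, Complex.conj_ofNat]
  ring
theorem Xb_conj (f : G → ℂ) (j : Fin n) (x : G) :
    C.Xb j (fun y => (starRingEnd ℂ) (f y)) x = (starRingEnd ℂ) (C.X j f x) := by
  unfold X Xb
  rw [CA3_D_conj, CA3_D_conj]
  simp only [map_div₀, map_sub, map_mul, Complex.conj_I, Complex.conj_ofNat]
  ring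

theorem CA3_D_hol {f : G → ℂ} (hf : C.Hol f) (x : G) (v : En n) :
    C.D f x v = fderiv ℂ (C.co f x) 0 v := by
  have h := (hf x).fderiv_restrictScalars ℝ
  rw [CA3_D, h]
  rfl

theorem CA3_D_I {f : G → ℂ} (hf : C.Hol f) (j : Fin n) (x : G) :
    C.D f x (Pi.single j Complex.I) = Complex.I * fderiv ℂ (C.co f x) 0 (Pi.single j 1) := by
  rw [CA3_D_hol C hf]
  have h : (Pi.single j Complex.I : En n) = Complex.I • (Pi.single j 1 : En n) := by
    rw [← Pi.single_smul', smul_eq_mul, mul_one]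
  rw [h, map_smul, smul_eq_mul]

theorem Xb_hol {f : G → ℂ} (hf : C.Hol f) (j : Fin n) (x : G) : C.Xb j f x = 0 := by
  unfold Xb
  rw [CA3_D_I C hf, CA3_D_hol C hf, ← mul_assoc, Complex.I_mul_I]
  ring
theorem X_conj_hol {f : G → ℂ} (hf : C.Hol f) (j : Fin n) (x : G) :
    C.X j (fun y => (starRingEnd ℂ) (f y)) x = 0 := by
  rw [X_conj, Xb_hol C hf, _root_.map_zero]
theorem X_hol {f : G → ℂ} (hf : C.Hol f) (j : Fin n) (x : G) :
    C.X j f x = fderiv ℂ (C.co f x) 0 (Pi.single j 1) := by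
  unfold X
  rw [CA3_D_I C hf, CA3_D_hol C hf, ← mul_assoc, Complex.I_mul_I]
  ring

theorem D_left {F : Type*} [NormedAddCommGroup F] [NormedSpace ℝ F] (f : G → F) (a : G) (x : G) :
    C.D (fun y => f (a * y)) x = C.D f (a * x) := by
  rw [CA3_D, CA3_D]
  simp only [mul_assoc]
/-- left invariance (definitional up to associativity) -/
theorem X_left (f : G → ℂ) (a : G) (j : Fin n) (x : G) :
    C.X j (fun y => f (a * y)) x = C.X j f (a * x) := by
  unfold X
  rw [D_left]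
theorem Xb_left (f : G → ℂ) (a : G) (j : Fin n) (x : G) :
    C.Xb j (fun y => f (a * y)) x = C.Xb j f (a * x) := by
  unfold Xb
  rw [D_left]

theorem D_congr {F : Type*} [NormedAddCommGroup F] [NormedSpace ℝ F] {f g : G → F} {x : G}
    (h : f =ᶠ[𝓝 x] g) : C.D f x = C.D g x := by
  rw [CA3_D, CA3_D]
  apply Filter.EventuallyEq.fderiv_eq
  rw [← C.map_nhds x] at h
  exact h
/-- locality -/
theorem X_congr {f g : G → ℂ} {x : G} (h : f =ᶠ[𝓝 x] g) (j : Fin n) : C.X j f x = C.X j g x := by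
  unfold X
  rw [D_congr C h]
theorem Xb_congr {f g : G → ℂ} {x : G} (h : f =ᶠ[𝓝 x] g) (j : Fin n) :
    C.Xb j f x = C.Xb j g x := by
  unfold Xb
  rw [D_congr C h]

/-- `D` in terms of `X` and `Xb` -/
theorem D_eq (f : G → ℂ) (x : G) (v : En n) :
    C.D f x v = ∑ j, (v j * C.X j f x + (starRingEnd ℂ) (v j) * C.Xb j f x) := by
  have h1 : v = ∑ j, ((v j).re • (Pi.single j 1 : En n) + (v j).im • (Pi.single j Complex.I : En n)) := by
    ext i
    rw [Finset.sum_apply, Finset.sum_eq_single i]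
    · simp only [Pi.add_apply, Pi.smul_apply, Pi.single_eq_same]
      rw [Complex.real_smul, Complex.real_smul, mul_one]
      exact (Complex.re_add_im (v i)).symm
    · intro b _ hb
      simp [Pi.single_eq_of_ne (Ne.symm hb)]
    · simp
  conv_lhs => rw [h1]
  rw [map_sum]
  refine Finset.sum_congr rfl fun j _ => ?_
  rw [map_add, map_smul, map_smul]
  unfold X Xb
  generalize C.D f x (Pi.single j 1) = a
  generalize C.D f x (Pi.single j Complex.I) = b
  rw [Complex.real_smul, Complex.real_smul]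
  have h2 : ((v j).re : ℂ) = (v j + (starRingEnd ℂ) (v j)) / 2 := Complex.re_eq_add_conj (v j)
  have h3 : ((v j).im : ℂ) = (v j - (starRingEnd ℂ) (v j)) / (2 * Complex.I) :=
    Complex.im_eq_sub_conj (v j)
  have h4 : ((v j).im : ℂ) = -Complex.I * (v j - (starRingEnd ℂ) (v j)) / 2 := by
    rw [h3]
    field_simp
    rw [Complex.I_sq]
    ring
  rw [h2, h4]
  ring

theorem CA3_D_ofReal {φ : G → ℝ} (hφ : C.Sm φ) (x : G) (v : En n) :
    C.D (fun y => (φ y : ℂ)) x v = ((C.D φ x v : ℝ) : ℂ) := by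
  rw [CA3_D, CA3_D]
  have h := (Complex.ofRealCLM.hasFDerivAt.comp (0 : En n) (C.CA3_da hφ x).hasFDerivAt).fderiv
  have h2 := congrArg (fun L => L v) h
  simpa [Function.comp_def] using h2

theorem CA3_D_comp {φ : G → ℝ} (hφ : C.Sm φ) {u : ℝ → ℝ} {x : G}
    (hu : DifferentiableAt ℝ u (φ x)) (v : En n) :
    C.D (fun y => (u (φ y) : ℂ)) x v =
      ((deriv u (φ x) : ℝ) : ℂ) * C.D (fun y => (φ y : ℂ)) x v := by
  rw [CA3_D_ofReal C hφ, CA3_D, CA3_D]
  have hu' : HasDerivAt u (deriv u (φ x)) (φ (x * C.ψ 0)) := by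
    rw [CA3_co0 C φ x]
    exact hu.hasDerivAt
  have h1 := hu'.comp_hasFDerivAt (0 : En n) (C.CA3_da hφ x).hasFDerivAt
  have h := (Complex.ofRealCLM.hasFDerivAt.comp (0 : En n) h1).fderiv
  have h2 := congrArg (fun L => L v) h
  simpa [Function.comp_def] using h2

/-- chain rule for real functions of real functions -/
theorem X_comp {φ : G → ℝ} (hφ : C.Sm φ) {u : ℝ → ℝ} {x : G} (hu : DifferentiableAt ℝ u (φ x))
    (j : Fin n) : C.X j (fun y => (u (φ y) : ℂ)) x =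
      ((deriv u (φ x) : ℝ) : ℂ) * C.X j (fun y => (φ y : ℂ)) x := by
  unfold X
  rw [CA3_D_comp C hφ hu, CA3_D_comp C hφ hu]
  ring
theorem Xb_comp {φ : G → ℝ} (hφ : C.Sm φ) {u : ℝ → ℝ} {x : G} (hu : DifferentiableAt ℝ u (φ x))
    (j : Fin n) : C.Xb j (fun y => (u (φ y) : ℂ)) x =
      ((deriv u (φ x) : ℝ) : ℂ) * C.Xb j (fun y => (φ y : ℂ)) x := by
  unfold Xb
  rw [CA3_D_comp C hφ hu, CA3_D_comp C hφ hu]
  ring

theorem CA3_D_inv {f : G → ℂ} (hf : C.Sm f) {x : G} (h0 : f x ≠ 0) (v : En n) :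
    C.D (fun y => (f y)⁻¹) x v = - C.D f x v / f x ^ 2 := by
  rw [CA3_D, CA3_D]
  have hu' : HasDerivAt (fun z : ℂ => z⁻¹) (-((f (x * C.ψ 0)) ^ 2)⁻¹) (f (x * C.ψ 0)) := by
    apply hasDerivAt_inv
    rw [CA3_co0 C f x]
    exact h0
  have h1 := (hu'.hasFDerivAt.restrictScalars ℝ).comp (0 : En n) (C.CA3_da hf x).hasFDerivAt
  have h2 := congrArg (fun L => L v) h1.fderiv
  rw [CA3_co0 C f x] at h2
  simp only [Function.comp_def] at h2
  rw [h2]
  simp
  ring

theorem X_inv {f : G → ℂ} (hf : C.Sm f) {x : G} (h0 : f x ≠ 0) (j : Fin n) :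
    C.X j (fun y => (f y)⁻¹) x = - C.X j f x / f x ^ 2 := by
  unfold X
  rw [CA3_D_inv C hf h0, CA3_D_inv C hf h0]
  ring
theorem Xb_inv {f : G → ℂ} (hf : C.Sm f) {x : G} (h0 : f x ≠ 0) (j : Fin n) :
    C.Xb j (fun y => (f y)⁻¹) x = - C.Xb j f x / f x ^ 2 := by
  unfold Xb
  rw [CA3_D_inv C hf h0, CA3_D_inv C hf h0]
  ring

end CLG

end HR
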