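import Mathlib

/-! Basic definitions for the blueprint of MP_06f097_an.
Complex Lie groups are handled through coordinates `psi` near the unit; functions on `G` are looked
at in the left translated charts `z |-> x * psi z`. -/

open scoped Topology ContDiff
open MeasureTheory Set Filter

noncomputable section

namespace HR

/-- model space -/
abbrev En (n : ℕ) := Fin n → ℂ

/-- complex analytic coordinates of a complex Lie group near the unit -/
structure CLG (n : ℕ) (G : Type*) [Group G] [TopologicalSpace G] where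
  ψ : OpenPartialHomeomorph (En n) G
  r : ℝ
  r_pos : 0 < r
  ball_sub : Metric.ball (0 : En n) r ⊆ ψ.source
  map_zero : ψ 0 = 1
  mul_mem : ∀ z ∈ Metric.ball (0 : En n) r, ∀ w ∈ Metric.ball (0 : En n) r,
    ψ z * ψ w ∈ ψ.target
  mul_smooth : ContDiffOn ℂ ∞ (fun p : En n × En n => ψ.symm (ψ p.1 * ψ p.2))
    (Metric.ball 0 r ×ˢ Metric.ball 0 r)
  base_smooth : ∀ z₀ ∈ Metric.ball (0 : En n) r,
    ContDiffAt ℂ ∞ (fun z => ψ.symm ((ψ z₀)⁻¹ * ψ z)) z₀
  inv_smooth : ContDiffAt ℂ ∞ (fun z => ψ.symm (ψ z)⁻¹) 0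
  conj_smooth : ∀ b : G, ContDiffAt ℂ ∞ (fun z => ψ.symm (b⁻¹ * ψ z * b)) 0

namespace CLG

variable {n : ℕ} {G : Type*} [Group G] [TopologicalSpace G] (C : CLG n G)
variable {F : Type*} [NormedAddCommGroup F] [NormedSpace ℝ F]

/-- `f` in the chart translated to `x` -/
def co (f : G → F) (x : G) : En n → F := fun z => f (x * C.ψ z)

/-- real smooth functions -/
def Sm (f : G → F) : Prop := ∀ x, ContDiffAt ℝ ∞ (C.co f x) 0

/-- holomorphic functions -/
def Hol (f : G → ℂ) : Prop := ∀ x, DifferentiableAt ℂ (fun z => f (x * C.ψ z)) 0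

/-- left invariant real derivatives: `D f x v` is the derivative of `f` at `x` in direction `v` -/
noncomputable def D (f : G → F) (x : G) : En n →L[ℝ] F := fderiv ℝ (C.co f x) 0

/-- left invariant holomorphic vector fields -/
noncomputable def X (j : Fin n) (f : G → ℂ) (x : G) : ℂ :=
  (C.D f x (Pi.single j 1) - Complex.I * C.D f x (Pi.single j Complex.I)) / 2

/-- left invariant antiholomorphic vector fields -/
noncomputable def Xb (j : Fin n) (f : G → ℂ) (x : G) : ℂ :=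
  (C.D f x (Pi.single j 1) + Complex.I * C.D f x (Pi.single j Complex.I)) / 2

/-- the Levi form of `φ` at `x` in the direction `b` -/
noncomputable def Lv (φ : G → ℝ) (x : G) (b : En n) : ℝ :=
  (∑ j, ∑ k, b j * (starRingEnd ℂ) (b k) * C.X j (C.Xb k (fun y => (φ y : ℂ))) x).re

/-- weights: finite sums of squares of holomorphic functions, bounded below -/
def IsW (W : G → ℝ) : Prop := ∃ (N : ℕ) (F : Fin N → G → ℂ), (∀ i, C.Hol (F i)) ∧
  (∀ x, W x = ∑ i, ‖F i x‖ ^ 2) ∧ ∃ c : ℝ, 0 < c ∧ ∀ x, c ≤ W x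

/-- smooth strictly plurisubharmonic exhaustion functions -/
structure Exh (s : G → ℝ) : Prop where
  sm : C.Sm (fun y => (s y : ℂ))
  nonneg : ∀ x, 0 ≤ s x
  proper : ∀ R : ℝ, IsCompact {x | s x ≤ R}
  pos : ∀ x b, b ≠ 0 → 0 < C.Lv s x b

/-- smooth strictly plurisubharmonic functions `s ≥ 0` with cutoffs of small gradient: there is a
smooth proper function `t` whose gradient in the metric of `s` is bounded on every `{s ≤ R}` -/
structure Kah (s : G → ℝ) : Prop where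
  sm : C.Sm (fun y => (s y : ℂ))
  nonneg : ∀ x, 0 ≤ s x
  pos : ∀ x b, b ≠ 0 → 0 < C.Lv s x b
  len : ∃ t : G → ℝ, C.Sm (fun y => (t y : ℂ)) ∧ (∀ R : ℝ, IsCompact {x | t x ≤ R}) ∧
    ∀ R : ℝ, ∃ B : ℝ, 0 ≤ B ∧ ∀ x, s x ≤ R → ∀ b : En n,
      ‖∑ k, b k * C.X k (fun y => (t y : ℂ)) x‖ ^ 2 ≤ B * C.Lv s x b

variable [MeasurableSpace G] (μ : Measure G)

/-- holomorphic functions with finite weighted square norm (weight `1 / W`) -/
def MemH (W : G → ℝ) (g : G → ℂ) : Prop :=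
  C.Hol g ∧ Integrable (fun x => ‖g x‖ ^ 2 / W x) μ

/-- the constants of the integration by parts -/
def IsPart (c : Fin n → ℂ) : Prop := ∀ f : G → ℂ, C.Sm f → HasCompactSupport f → ∀ j,
  ∫ x, C.X j f x ∂μ = c j * ∫ x, f x ∂μ ∧
  ∫ x, C.Xb j f x ∂μ = (starRingEnd ℂ) (c j) * ∫ x, f x ∂μ

end CLG

/-- the weighted square norm -/
noncomputable def nH {G : Type*} [MeasurableSpace G] (μ : Measure G) (W : G → ℝ) (g : G → ℂ) : ℝ :=
  ∫ x, ‖g x‖ ^ 2 / W x ∂μ

/-- length functions -/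
structure Len {G : Type*} [Group G] [TopologicalSpace G] [MeasurableSpace G]
    (μ : Measure G) (l : G → ℝ) : Prop where
  nonneg : ∀ x, 0 ≤ l x
  mul : ∀ x y, l (x * y) ≤ l x + l y
  inv : ∀ x, l x⁻¹ = l x
  meas : Measurable l
  proper : ∀ R : ℝ, ∃ K, IsCompact K ∧ {x | l x ≤ R} ⊆ K
  bdd : ∀ K, IsCompact K → ∃ M : ℝ, ∀ x ∈ K, l x ≤ M
  integ : ∃ c₀ : ℝ, 0 ≤ c₀ ∧ Integrable (fun x => Real.exp (-(c₀ * l x))) μ

end HR
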