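import Pool.Agent.W_06f097_h43.Defs

/-! MP_06f097_an blueprint: further definitions (divergence, mollification, metric). -/

open scoped Topology ContDiff
open MeasureTheory Set Filter Metric

noncomputable section

namespace HR

variable {n : ℕ} {G : Type*} [Group G] [TopologicalSpace G]

/-- left convolution `(ρ * u) x = ∫ ρ(y) u(y⁻¹ x) dμ(y)` -/
def Mol [MeasurableSpace G] (μ : Measure G) (ρ : G → ℝ) (u : G → ℂ) (x : G) : ℂ :=
  ∫ y, (ρ y : ℂ) * u (y⁻¹ * x) ∂μ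

namespace CLG
variable (C : CLG n G)

/-- integration by parts, real version: `∫ D_v f = cR(v) ∫ f` -/
def IsPartR [MeasurableSpace G] (μ : Measure G) (cR : En n →L[ℝ] ℝ) : Prop :=
  ∀ f : G → ℂ, C.Sm f → HasCompactSupport f → ∀ v : En n,
    ∫ x, C.D f x v ∂μ = (cR v : ℂ) * ∫ x, f x ∂μ

/-- the complex constants belonging to `cR` -/
def cOf (cR : En n →L[ℝ] ℝ) (j : Fin n) : ℂ :=
  ((cR (Pi.single j 1) : ℂ) - Complex.I * (cR (Pi.single j Complex.I) : ℂ)) / 2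

/-- `δ_j = X_j - X_j φ - c_j` -/
def dv (c : Fin n → ℂ) (φ : G → ℝ) (j : Fin n) (g : G → ℂ) (x : G) : ℂ :=
  C.X j g x - (C.X j (fun y => (φ y : ℂ)) x + c j) * g x

/-- weighted divergence of a vector field `γ = Σ γ_j X_j` -/
def dvg (c : Fin n → ℂ) (φ : G → ℝ) (γ : Fin n → G → ℂ) (x : G) : ℂ :=
  ∑ j, C.dv c φ j (γ j) x

/-- the matrix `g_{jk} = X_j Xb_k σ` -/
def gm (σ : G → ℝ) (x : G) (j k : Fin n) : ℂ := C.X j (C.Xb k (fun y => (σ y : ℂ))) x

/-- the form `α_k = Σ_j g_{jk} β_j` of a vector field -/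
def lower (σ : G → ℝ) (β : Fin n → G → ℂ) (k : Fin n) (x : G) : ℂ :=
  ∑ j, C.gm σ x j k * β j x

/-- the vector field `β` with `lower σ β k = Xb_k N` -/
def grad (σ : G → ℝ) (N : G → ℂ) (j : Fin n) (x : G) : ℂ :=
  ((Matrix.of (C.gm σ x)).transpose⁻¹.mulVec (fun m => C.Xb m N x)) j

/-- positivity of the Levi form (plurisubharmonicity) -/
def Psh (φ : G → ℝ) : Prop := C.Sm (fun y => (φ y : ℂ)) ∧ ∀ x b, 0 ≤ C.Lv φ x b

end CLG

end HR
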