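import Pool.Agent.W_06f097_h43.Defs2
import Pool.Agent.W_06f097_h43.CA4

/-! MP_06f097_an blueprint, block HB: Levi forms, the Kaehler metric of a potential. -/

open scoped Topology ContDiff
open MeasureTheory Set Filter Metric

noncomputable section

namespace HR

namespace CLG

variable {n : ℕ} {G : Type*} [Group G] [TopologicalSpace G] [IsTopologicalGroup G] (C : CLG n G)

theorem gm_herm {σ : G → ℝ} (hσ : C.Sm σ) (x : G) (j k : Fin n) :
    C.gm σ x j k = (starRingEnd ℂ) (C.gm σ x k j) := by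
  have hσ' : C.Sm (fun y => (σ y : ℂ)) := C.sm_ofReal.2 hσ
  have h1 : (fun y => (starRingEnd ℂ) (C.Xb j (fun y => (σ y : ℂ)) y)) =
      C.X j (fun y => (σ y : ℂ)) := by
    funext y
    rw [← C.X_conj]
    simp only [Complex.conj_ofReal]
  rw [gm, gm, ← C.Xb_conj, h1, C.X_Xb_comm hσ']

theorem Lv_eq (σ : G → ℝ) (x : G) (b : En n) :
    C.Lv σ x b = (∑ j, ∑ k, b j * (starRingEnd ℂ) (b k) * C.gm σ x j k).re := rfl

theorem Lv_im {σ : G → ℝ} (hσ : C.Sm σ) (x : G) (b : En n) :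
    (∑ j, ∑ k, b j * (starRingEnd ℂ) (b k) * C.gm σ x j k).im = 0 := by
  rw [← Complex.conj_eq_iff_im, map_sum]
  have h1 : ∀ j k : Fin n, (starRingEnd ℂ) (b j * (starRingEnd ℂ) (b k) * C.gm σ x j k) =
      b k * (starRingEnd ℂ) (b j) * C.gm σ x k j := by
    intro j k
    rw [map_mul, map_mul, Complex.conj_conj, ← C.gm_herm hσ x k j]
    ring
  simp only [map_sum, h1]
  exact Finset.sum_comm

theorem HB3_gm_add {σ τ : G → ℝ} (hσ : C.Sm σ) (hτ : C.Sm τ) (x : G) (j k : Fin n) :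
    C.gm (fun y => σ y + τ y) x j k = C.gm σ x j k + C.gm τ x j k := by
  have hσ' : C.Sm (fun y => (σ y : ℂ)) := C.sm_ofReal.2 hσ
  have hτ' : C.Sm (fun y => (τ y : ℂ)) := C.sm_ofReal.2 hτ
  have h1 : C.Xb k (fun y => ((σ y + τ y : ℝ) : ℂ)) =
      fun y => C.Xb k (fun y => (σ y : ℂ)) y + C.Xb k (fun y => (τ y : ℂ)) y := by
    funext y
    rw [← C.Xb_add hσ' hτ']
    simp only [Complex.ofReal_add]
  rw [gm, h1, C.X_add (C.sm_Xb hσ' k) (C.sm_Xb hτ' k)]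
  rfl

theorem Lv_add {σ τ : G → ℝ} (hσ : C.Sm σ) (hτ : C.Sm τ) (x : G) (b : En n) :
    C.Lv (fun y => σ y + τ y) x b = C.Lv σ x b + C.Lv τ x b := by
  rw [Lv_eq, Lv_eq, Lv_eq, ← Complex.add_re, ← Finset.sum_add_distrib]
  congr 1
  refine Finset.sum_congr rfl fun j _ => ?_
  rw [← Finset.sum_add_distrib]
  refine Finset.sum_congr rfl fun k _ => ?_
  rw [C.HB3_gm_add hσ hτ, mul_add]

theorem HB3_gm_const_mul {σ : G → ℝ} (hσ : C.Sm σ) (t : ℝ) (x : G) (j k : Fin n) :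
    C.gm (fun y => t * σ y) x j k = (t : ℂ) * C.gm σ x j k := by
  have hσ' : C.Sm (fun y => (σ y : ℂ)) := C.sm_ofReal.2 hσ
  have hc : C.Sm (fun _ : G => (t : ℂ)) := C.sm_const _
  have h1 : C.Xb k (fun y => ((t * σ y : ℝ) : ℂ)) =
      fun y => (t : ℂ) * C.Xb k (fun y => (σ y : ℂ)) y := by
    funext y
    have := C.Xb_mul hc hσ' k y
    rw [C.Xb_const, zero_mul, zero_add] at this
    rw [← this]
    simp only [Complex.ofReal_mul]
  rw [gm, h1, C.X_mul hc (C.sm_Xb hσ' k), C.X_const, zero_mul, zero_add]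
  rfl

theorem Lv_const_mul {σ : G → ℝ} (hσ : C.Sm σ) (t : ℝ) (x : G) (b : En n) :
    C.Lv (fun y => t * σ y) x b = t * C.Lv σ x b := by
  rw [Lv_eq, Lv_eq]
  have h1 : ∀ j k : Fin n, b j * (starRingEnd ℂ) (b k) * C.gm (fun y => t * σ y) x j k =
      (t : ℂ) * (b j * (starRingEnd ℂ) (b k) * C.gm σ x j k) := by
    intro j k
    rw [C.HB3_gm_const_mul hσ]
    ring
  simp only [h1, ← Finset.mul_sum]
  rw [Complex.re_ofReal_mul]

theorem HB3_Xb_real (σ : G → ℝ) (k : Fin n) (y : G) :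
    C.Xb k (fun y => (σ y : ℂ)) y = (starRingEnd ℂ) (C.X k (fun y => (σ y : ℂ)) y) := by
  rw [← C.Xb_conj]
  simp only [Complex.conj_ofReal]

theorem HB3_gm_sq {σ : G → ℝ} (hσ : C.Sm σ) (x : G) (j k : Fin n) :
    C.gm (fun y => σ y ^ 2) x j k = 2 * (σ x : ℂ) * C.gm σ x j k +
      2 * C.X j (fun y => (σ y : ℂ)) x * (starRingEnd ℂ) (C.X k (fun y => (σ y : ℂ)) x) := by
  have hσ' : C.Sm (fun y => (σ y : ℂ)) := C.sm_ofReal.2 hσ
  have h1 : C.Xb k (fun y => ((σ y ^ 2 : ℝ) : ℂ)) =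
      fun y => 2 * ((σ y : ℂ) * C.Xb k (fun y => (σ y : ℂ)) y) := by
    funext y
    have := C.Xb_mul hσ' hσ' k y
    have e : (fun y => ((σ y ^ 2 : ℝ) : ℂ)) = fun y => (σ y : ℂ) * (σ y : ℂ) := by
      funext z
      push_cast
      ring
    rw [e, this]
    ring
  have hc : C.Sm (fun _ : G => (2 : ℂ)) := C.sm_const _
  rw [gm, h1, C.X_mul hc (C.sm_mul hσ' (C.sm_Xb hσ' k)), C.X_const, zero_mul, zero_add,
    C.X_mul hσ' (C.sm_Xb hσ' k), C.HB3_Xb_real σ k x, gm]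
  ring

theorem Lv_sq {σ : G → ℝ} (hσ : C.Sm σ) (x : G) (b : En n) :
    C.Lv (fun y => σ y ^ 2) x b = 2 * σ x * C.Lv σ x b +
      2 * ‖∑ j, b j * C.X j (fun y => (σ y : ℂ)) x‖ ^ 2 := by
  rw [Lv_eq, Lv_eq]
  have hσ' : C.Sm (fun y => (σ y : ℂ)) := C.sm_ofReal.2 hσ
  have h1 : ∀ j k : Fin n, b j * (starRingEnd ℂ) (b k) * C.gm (fun y => σ y ^ 2) x j k =
      ((2 * σ x : ℝ) : ℂ) * (b j * (starRingEnd ℂ) (b k) * C.gm σ x j k) +
      2 * ((b j * C.X j (fun y => (σ y : ℂ)) x) *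
        (starRingEnd ℂ) (b k * C.X k (fun y => (σ y : ℂ)) x)) := by
    intro j k
    rw [C.HB3_gm_sq hσ, map_mul]
    push_cast
    ring
  simp only [h1, Finset.sum_add_distrib, ← Finset.mul_sum, ← map_sum, ← Finset.sum_mul]
  rw [Complex.add_re, Complex.re_ofReal_mul, Complex.mul_conj, Complex.normSq_eq_norm_sq]
  congr 1
  rw [← Complex.ofReal_ofNat, ← Complex.ofReal_mul, Complex.ofReal_re]

theorem Lv_left {σ : G → ℝ} (a : G) (x : G) (b : En n) :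
    C.Lv (fun y => σ (a * y)) x b = C.Lv σ (a * x) b := by
  rw [Lv_eq, Lv_eq]
  have h1 : ∀ j k : Fin n, C.gm (fun y => σ (a * y)) x j k = C.gm σ (a * x) j k := by
    intro j k
    have h2 : C.Xb k (fun y => ((σ (a * y) : ℝ) : ℂ)) =
        fun y => C.Xb k (fun y => (σ y : ℂ)) (a * y) := by
      funext y
      exact C.Xb_left (fun y => (σ y : ℂ)) a k y
    rw [gm, h2, C.X_left]
    rfl
  simp only [h1]

theorem sm_gm {σ : G → ℝ} (hσ : C.Sm σ) (j k : Fin n) : C.Sm (fun x => C.gm σ x j k) := by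
  exact C.sm_X (C.sm_Xb (C.sm_ofReal.2 hσ) k) j

theorem HB3_cont {σ : G → ℝ} (hσ : C.Sm σ) :
    Continuous (fun p : G × En n => C.Lv σ p.1 p.2) := by
  simp only [Lv_eq]
  refine Complex.continuous_re.comp ?_
  refine continuous_finsetSum _ fun j _ => continuous_finsetSum _ fun k _ => ?_
  have h1 : Continuous fun p : G × En n => C.gm σ p.1 j k :=
    (C.sm_continuous (C.sm_gm hσ j k)).comp continuous_fst
  have h2 : Continuous fun p : G × En n => p.2 j := (continuous_apply j).comp continuous_snd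
  have h3 : Continuous fun p : G × En n => p.2 k := (continuous_apply k).comp continuous_snd
  exact (h2.mul (Complex.continuous_conj.comp h3)).mul h1

theorem Lv_continuous {σ : G → ℝ} (hσ : C.Sm σ) {b : G → En n} (hb : Continuous b) :
    Continuous (fun x => C.Lv σ x (b x)) := by
  have h1 : Continuous fun x : G => (x, b x) := continuous_id.prodMk hb
  have h2 := (C.HB3_cont hσ).comp h1
  simpa only [Function.comp_def] using h2

/-- the sesquilinear form of the Levi form -/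
def HB3_B (σ : G → ℝ) (x : G) (b d : En n) : ℂ :=
  ∑ j, ∑ k, b j * (starRingEnd ℂ) (d k) * C.gm σ x j k

omit [IsTopologicalGroup G] in
theorem HB3_B_self {σ : G → ℝ} (x : G) (b : En n) : (C.HB3_B σ x b b).re = C.Lv σ x b := rfl

theorem HB3_B_conj {σ : G → ℝ} (hσ : C.Sm σ) (x : G) (b d : En n) :
    C.HB3_B σ x d b = (starRingEnd ℂ) (C.HB3_B σ x b d) := by
  unfold HB3_B
  simp only [map_sum]
  rw [Finset.sum_comm]
  refine Finset.sum_congr rfl fun j _ => Finset.sum_congr rfl fun k _ => ?_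
  rw [map_mul, map_mul, Complex.conj_conj, ← C.gm_herm hσ x k j]
  ring

omit [IsTopologicalGroup G] in
theorem HB3_B_add_left (σ : G → ℝ) (x : G) (b b' d : En n) :
    C.HB3_B σ x (b + b') d = C.HB3_B σ x b d + C.HB3_B σ x b' d := by
  unfold HB3_B
  rw [← Finset.sum_add_distrib]
  refine Finset.sum_congr rfl fun j _ => ?_
  rw [← Finset.sum_add_distrib]
  refine Finset.sum_congr rfl fun k _ => ?_
  rw [Pi.add_apply]
  ring

omit [IsTopologicalGroup G] in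
theorem HB3_B_add_right (σ : G → ℝ) (x : G) (b d d' : En n) :
    C.HB3_B σ x b (d + d') = C.HB3_B σ x b d + C.HB3_B σ x b d' := by
  unfold HB3_B
  rw [← Finset.sum_add_distrib]
  refine Finset.sum_congr rfl fun j _ => ?_
  rw [← Finset.sum_add_distrib]
  refine Finset.sum_congr rfl fun k _ => ?_
  rw [Pi.add_apply, map_add]
  ring

omit [IsTopologicalGroup G] in
theorem HB3_B_smul_left (σ : G → ℝ) (x : G) (s : ℂ) (b d : En n) :
    C.HB3_B σ x (s • b) d = s * C.HB3_B σ x b d := by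
  unfold HB3_B
  rw [Finset.mul_sum]
  refine Finset.sum_congr rfl fun j _ => ?_
  rw [Finset.mul_sum]
  refine Finset.sum_congr rfl fun k _ => ?_
  rw [Pi.smul_apply, smul_eq_mul]
  ring

omit [IsTopologicalGroup G] in
theorem HB3_B_smul_right (σ : G → ℝ) (x : G) (s : ℂ) (b d : En n) :
    C.HB3_B σ x b (s • d) = (starRingEnd ℂ) s * C.HB3_B σ x b d := by
  unfold HB3_B
  rw [Finset.mul_sum]
  refine Finset.sum_congr rfl fun j _ => ?_
  rw [Finset.mul_sum]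
  refine Finset.sum_congr rfl fun k _ => ?_
  rw [Pi.smul_apply, smul_eq_mul, map_mul]
  ring

theorem HB3_expand {σ : G → ℝ} (hσ : C.Sm σ) (x : G) (s : ℂ) (b d : En n) :
    C.Lv σ x (b + s • d) = C.Lv σ x b + 2 * ((starRingEnd ℂ) s * C.HB3_B σ x b d).re +
      ‖s‖ ^ 2 * C.Lv σ x d := by
  rw [← C.HB3_B_self, ← C.HB3_B_self, ← C.HB3_B_self, C.HB3_B_add_left, C.HB3_B_add_right,
    C.HB3_B_add_right, C.HB3_B_smul_left, C.HB3_B_smul_left, C.HB3_B_smul_right,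
    C.HB3_B_smul_right, C.HB3_B_conj hσ x b d, ← mul_assoc s, Complex.mul_conj,
    Complex.normSq_eq_norm_sq]
  have h1 : (s * (starRingEnd ℂ) (C.HB3_B σ x b d)).re =
      ((starRingEnd ℂ) s * C.HB3_B σ x b d).re := by
    rw [← Complex.conj_re, map_mul, Complex.conj_conj]
  simp only [Complex.add_re, h1, Complex.re_ofReal_mul]
  ring

omit [IsTopologicalGroup G] in
theorem HB3_smul {σ : G → ℝ} (x : G) (t : ℝ) (b : En n) :
    C.Lv σ x ((t : ℂ) • b) = t ^ 2 * C.Lv σ x b := by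
  rw [← C.HB3_B_self, ← C.HB3_B_self, C.HB3_B_smul_left, C.HB3_B_smul_right,
    Complex.conj_ofReal, Complex.re_ofReal_mul, Complex.re_ofReal_mul]
  ring

/-- Cauchy-Schwarz for the semidefinite form -/
theorem Lv_cauchy {σ : G → ℝ} (hσ : C.Sm σ) {x : G} (h : ∀ b, 0 ≤ C.Lv σ x b) (b d : En n) :
    ‖∑ j, ∑ k, b j * (starRingEnd ℂ) (d k) * C.gm σ x j k‖ ^ 2 ≤ C.Lv σ x b * C.Lv σ x d := by
  have hq : ∀ t : ℝ, 0 ≤ (‖C.HB3_B σ x b d‖ ^ 2 * C.Lv σ x d) * (t * t) +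
      (-2 * ‖C.HB3_B σ x b d‖ ^ 2) * t + C.Lv σ x b := by
    intro t
    have h1 := h (b + (-(t : ℂ) * C.HB3_B σ x b d) • d)
    rw [C.HB3_expand hσ] at h1
    have h2 : ((starRingEnd ℂ) (-(t : ℂ) * C.HB3_B σ x b d) * C.HB3_B σ x b d).re =
        -t * ‖C.HB3_B σ x b d‖ ^ 2 := by
      rw [map_mul, map_neg, Complex.conj_ofReal, mul_assoc, mul_comm ((starRingEnd ℂ) _),
        Complex.mul_conj, Complex.normSq_eq_norm_sq, ← Complex.ofReal_neg, ← Complex.ofReal_mul,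
        Complex.ofReal_re]
    have h3 : ‖-(t : ℂ) * C.HB3_B σ x b d‖ ^ 2 = t * t * ‖C.HB3_B σ x b d‖ ^ 2 := by
      rw [norm_mul, norm_neg, Complex.norm_real, mul_pow, Real.norm_eq_abs, sq_abs]
      ring
    rw [h2, h3] at h1
    nlinarith [h1]
  have hd := discrim_le_zero hq
  rw [discrim] at hd
  have hfin : ‖C.HB3_B σ x b d‖ ^ 2 ≤ C.Lv σ x b * C.Lv σ x d := by
    rcases eq_or_lt_of_le (sq_nonneg ‖C.HB3_B σ x b d‖) with h0 | h0
    · rw [← h0]
      exact mul_nonneg (h b) (h d)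
    · have h4 : ‖C.HB3_B σ x b d‖ ^ 2 * ‖C.HB3_B σ x b d‖ ^ 2 ≤
          ‖C.HB3_B σ x b d‖ ^ 2 * (C.Lv σ x b * C.Lv σ x d) := by nlinarith [hd]
      exact le_of_mul_le_mul_left h4 h0
  exact hfin

theorem Lv_add_le {σ : G → ℝ} (hσ : C.Sm σ) {x : G} (h : ∀ b, 0 ≤ C.Lv σ x b) (b d : En n) :
    C.Lv σ x (b + d) ≤ 2 * C.Lv σ x b + 2 * C.Lv σ x d := by
  have h1 := C.HB3_expand hσ x 1 b d
  have h2 := C.HB3_expand hσ x (-1) b d
  have h3 := h (b + (-1 : ℂ) • d)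
  rw [one_smul] at h1
  simp only [map_one, map_neg, norm_one, norm_neg, one_mul, one_pow, neg_mul, Complex.neg_re]
    at h1 h2
  linarith

/-- on a compact set a positive definite Levi form is bounded below (and above) -/
theorem Lv_bounds {σ : G → ℝ} (hσ : C.Sm σ) {K : Set G} (hK : IsCompact K)
    (h : ∀ x ∈ K, ∀ b, b ≠ 0 → 0 < C.Lv σ x b) :
    ∃ lam : ℝ, 0 < lam ∧ ∀ x ∈ K, ∀ b : En n, lam * ∑ j, ‖b j‖ ^ 2 ≤ C.Lv σ x b ∧
      C.Lv σ x b ≤ 1 / lam * ∑ j, ‖b j‖ ^ 2 := by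
  have hScl : IsClosed {b : En n | ∑ j, ‖b j‖ ^ 2 = 1} := by
    refine isClosed_eq ?_ continuous_const
    exact continuous_finsetSum _ fun j _ => ((continuous_apply j).norm).pow 2
  have hSsub : {b : En n | ∑ j, ‖b j‖ ^ 2 = 1} ⊆ closedBall (0 : En n) 1 := by
    intro b hb
    have hb' : ∑ j, ‖b j‖ ^ 2 = 1 := hb
    rw [mem_closedBall_zero_iff, pi_norm_le_iff_of_nonneg zero_le_one]
    intro j
    have h1 : ‖b j‖ ^ 2 ≤ 1 := by
      rw [← hb']
      exact Finset.single_le_sum (f := fun j => ‖b j‖ ^ 2) (fun i _ => sq_nonneg _)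
        (Finset.mem_univ j)
    nlinarith [norm_nonneg (b j)]
  have hS : IsCompact {b : En n | ∑ j, ‖b j‖ ^ 2 = 1} :=
    (isCompact_closedBall (0 : En n) 1).of_isClosed_subset hScl hSsub
  have hKS := hK.prod hS
  have hc := C.HB3_cont hσ
  have hpos : ∀ p ∈ K ×ˢ {b : En n | ∑ j, ‖b j‖ ^ 2 = 1}, 0 < C.Lv σ p.1 p.2 := by
    rintro ⟨x, b⟩ ⟨hx, hb⟩
    refine h x hx b ?_
    rintro rfl
    have hb' : ∑ j : Fin n, ‖(0 : En n) j‖ ^ 2 = 1 := hb
    simp at hb'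
  obtain ⟨C1, hC1⟩ := hKS.exists_bound_of_continuousOn (f := fun p => (C.Lv σ p.1 p.2)⁻¹)
    (hc.continuousOn.inv₀ fun p hp => (hpos p hp).ne')
  obtain ⟨C2, hC2⟩ := hKS.exists_bound_of_continuousOn (f := fun p => C.Lv σ p.1 p.2)
    hc.continuousOn
  obtain ⟨M, hM, hM1, hM2⟩ : ∃ M : ℝ, 0 < M ∧ C1 ≤ M ∧ C2 ≤ M :=
    ⟨max (max C1 C2) 1, by positivity, (le_max_left _ _).trans (le_max_left _ _),
      (le_max_right _ _).trans (le_max_left _ _)⟩
  refine ⟨1 / M, by positivity, fun x hx b => ?_⟩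
  rw [one_div_one_div]
  have hS0 : 0 ≤ ∑ j, ‖b j‖ ^ 2 := Finset.sum_nonneg fun j _ => sq_nonneg _
  rcases eq_or_lt_of_le hS0 with h0 | h0
  · have hb : b = 0 := by
      funext j
      have h1 := (Finset.sum_eq_zero_iff_of_nonneg (fun j _ => sq_nonneg ‖b j‖)).1 h0.symm j
        (Finset.mem_univ j)
      simpa using h1
    rw [← h0, hb]
    have h2 := C.HB3_smul (σ := σ) x 0 (0 : En n)
    rw [smul_zero] at h2
    rw [h2]
    simp
  · obtain ⟨t, ht, htt⟩ : ∃ t : ℝ, 0 < t ∧ t ^ 2 = ∑ j, ‖b j‖ ^ 2 :=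
      ⟨Real.sqrt (∑ j, ‖b j‖ ^ 2), Real.sqrt_pos.2 h0, Real.sq_sqrt hS0⟩
    have hmem : (x, ((t⁻¹ : ℝ) : ℂ) • b) ∈ K ×ˢ {b : En n | ∑ j, ‖b j‖ ^ 2 = 1} := by
      refine ⟨hx, ?_⟩
      change ∑ j, ‖(((t⁻¹ : ℝ) : ℂ) • b) j‖ ^ 2 = 1
      have h3 : ∀ j, ‖(((t⁻¹ : ℝ) : ℂ) • b) j‖ ^ 2 = (t⁻¹) ^ 2 * ‖b j‖ ^ 2 := by
        intro j
        rw [Pi.smul_apply, smul_eq_mul, norm_mul, Complex.norm_real, mul_pow, Real.norm_eq_abs,
          sq_abs]
      simp only [h3, ← Finset.mul_sum]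
      rw [← htt, ← mul_pow, inv_mul_cancel₀ ht.ne', one_pow]
    have hp := hpos _ hmem
    have e1 := hC1 _ hmem
    have e2 := hC2 _ hmem
    rw [Real.norm_eq_abs, abs_of_pos hp] at e2
    rw [Real.norm_eq_abs, abs_of_pos (inv_pos.2 hp)] at e1
    rw [C.HB3_smul] at e1 e2 hp
    have e3 : C.Lv σ x b ≤ M * t ^ 2 := by
      have : (t⁻¹) ^ 2 * C.Lv σ x b ≤ M := e2.trans hM2
      rw [inv_pow, inv_mul_le_iff₀ (by positivity)] at this
      linarith
    have e4 : 1 / M * t ^ 2 ≤ C.Lv σ x b := by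
      have h5 : ((t⁻¹) ^ 2 * C.Lv σ x b)⁻¹ ≤ M := e1.trans hM1
      have h6 : 1 ≤ M * ((t⁻¹) ^ 2 * C.Lv σ x b) := by
        rw [inv_le_iff_one_le_mul₀ hp] at h5
        exact h5
      have h7 : (t⁻¹) ^ 2 * t ^ 2 = 1 := by
        rw [← mul_pow, inv_mul_cancel₀ ht.ne', one_pow]
      rw [div_mul_eq_mul_div, one_mul, div_le_iff₀ hM]
      have h8 : t ^ 2 * 1 ≤ t ^ 2 * (M * ((t⁻¹) ^ 2 * C.Lv σ x b)) :=
        mul_le_mul_of_nonneg_left h6 (by positivity)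
      calc t ^ 2 = t ^ 2 * 1 := by ring
        _ ≤ t ^ 2 * (M * ((t⁻¹) ^ 2 * C.Lv σ x b)) := h8
        _ = ((t⁻¹) ^ 2 * t ^ 2) * (C.Lv σ x b * M) := by ring
        _ = C.Lv σ x b * M := by rw [h7, one_mul]
    rw [← htt]
    exact ⟨e4, e3⟩

/-- The torsion cancels for metrics with a potential:
`Xb_l g_{jk} - Xb_k g_{jl} = X_j [Xb_l, Xb_k] σ = Σ_m cc l k m g_{jm}`. -/
theorem lower_closed {cc : Fin n → Fin n → Fin n → ℂ}
    (hcc : ∀ (f : G → ℂ), C.Sm f → ∀ (l k : Fin n) (x : G),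
      C.Xb l (C.Xb k f) x - C.Xb k (C.Xb l f) x = ∑ m, cc l k m * C.Xb m f x)
    {σ : G → ℝ} (hσ : C.Sm σ) {γ : Fin n → G → ℂ} (hγ : ∀ j, C.Sm (γ j)) (k l : Fin n) (x : G) :
    C.Xb l (C.lower σ γ k) x - C.Xb k (C.lower σ γ l) x - ∑ m, cc l k m * C.lower σ γ m x =
      (∑ j, C.gm σ x j k * C.Xb l (γ j) x) - ∑ j, C.gm σ x j l * C.Xb k (γ j) x := by
  have hσ' : C.Sm (fun y => (σ y : ℂ)) := C.sm_ofReal.2 hσ
  have hlow : ∀ l k : Fin n, C.Xb l (C.lower σ γ k) x =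
      ∑ j, (C.Xb l (fun y => C.gm σ y j k) x * γ j x + C.gm σ x j k * C.Xb l (γ j) x) := by
    intro l k
    have h1 := C.Xb_sum (Finset.univ) (f := fun j y => C.gm σ y j k * γ j y)
      (fun j _ => C.sm_mul (C.sm_gm hσ j k) (hγ j)) l x
    have h2 : C.lower σ γ k = fun y => ∑ j, C.gm σ y j k * γ j y := rfl
    rw [h2, h1]
    refine Finset.sum_congr rfl fun j _ => ?_
    exact C.Xb_mul (C.sm_gm hσ j k) (hγ j) l x
  have hg : ∀ j l k : Fin n, C.Xb l (fun y => C.gm σ y j k) x =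
      C.X j (C.Xb l (C.Xb k (fun y => (σ y : ℂ)))) x := by
    intro j l k
    exact (C.X_Xb_comm (C.sm_Xb hσ' k) j l x).symm
  have hdiff : ∀ j : Fin n, C.Xb l (fun y => C.gm σ y j k) x - C.Xb k (fun y => C.gm σ y j l) x =
      ∑ m, cc l k m * C.gm σ x j m := by
    intro j
    rw [hg, hg, ← C.X_sub (C.sm_Xb (C.sm_Xb hσ' k) l) (C.sm_Xb (C.sm_Xb hσ' l) k)]
    have h3 : (fun y => C.Xb l (C.Xb k (fun y => (σ y : ℂ))) y -
        C.Xb k (C.Xb l (fun y => (σ y : ℂ))) y) =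
        fun y => ∑ m, cc l k m * C.Xb m (fun y => (σ y : ℂ)) y := by
      funext y
      exact hcc _ hσ' l k y
    rw [h3, C.X_sum Finset.univ (fun m _ => C.sm_mul (C.sm_const _) (C.sm_Xb hσ' m))]
    refine Finset.sum_congr rfl fun m _ => ?_
    rw [C.X_mul (C.sm_const _) (C.sm_Xb hσ' m), C.X_const, zero_mul, zero_add]
    rfl
  have hswap : ∑ m, cc l k m * C.lower σ γ m x =
      ∑ j, (∑ m, cc l k m * C.gm σ x j m) * γ j x := by
    simp only [lower, Finset.mul_sum, Finset.sum_mul]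
    rw [Finset.sum_comm]
    refine Finset.sum_congr rfl fun j _ => Finset.sum_congr rfl fun m _ => ?_
    ring
  rw [hlow, hlow, hswap, Finset.sum_add_distrib, Finset.sum_add_distrib]
  have hd2 : ∑ j, (∑ m, cc l k m * C.gm σ x j m) * γ j x =
      ∑ j, C.Xb l (fun y => C.gm σ y j k) x * γ j x -
        ∑ j, C.Xb k (fun y => C.gm σ y j l) x * γ j x := by
    rw [← Finset.sum_sub_distrib]
    refine Finset.sum_congr rfl fun j _ => ?_
    rw [← hdiff j]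
    ring
  rw [hd2]
  ring

theorem HB3_det {σ : G → ℝ} (h : ∀ x b, b ≠ 0 → 0 < C.Lv σ x b) (x : G) :
    IsUnit ((Matrix.of (C.gm σ x)).transpose.det) := by
  rw [isUnit_iff_ne_zero]
  intro h0
  obtain ⟨b, hb, hb0⟩ := Matrix.exists_mulVec_eq_zero_iff.2 h0
  have h1 : ∀ k, ∑ j, C.gm σ x j k * b j = 0 := fun k => congrFun hb0 k
  have h2 := h x b hb
  rw [Lv_eq] at h2
  have h3 : ∑ j, ∑ k, b j * (starRingEnd ℂ) (b k) * C.gm σ x j k = 0 := by
    rw [Finset.sum_comm]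
    refine Finset.sum_eq_zero fun k _ => ?_
    have h4 : ∑ j, b j * (starRingEnd ℂ) (b k) * C.gm σ x j k =
        (starRingEnd ℂ) (b k) * ∑ j, C.gm σ x j k * b j := by
      rw [Finset.mul_sum]
      refine Finset.sum_congr rfl fun j _ => ?_
      ring
    rw [h4, h1 k, mul_zero]
  rw [h3, Complex.zero_re] at h2
  exact lt_irrefl _ h2

/-- `grad` inverts `lower` where the Levi form is positive definite -/
theorem lower_grad {σ : G → ℝ} (hσ : C.Sm σ) (h : ∀ x b, b ≠ 0 → 0 < C.Lv σ x b)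
    (N : G → ℂ) (k : Fin n) (x : G) : C.lower σ (C.grad σ N) k x = C.Xb k N x := by
  have h1 : C.lower σ (C.grad σ N) k x =
      ((Matrix.of (C.gm σ x)).transpose.mulVec
        ((Matrix.of (C.gm σ x)).transpose⁻¹.mulVec (fun m => C.Xb m N x))) k := rfl
  rw [h1, Matrix.mulVec_mulVec, Matrix.mul_nonsing_inv _ (C.HB3_det h x), Matrix.one_mulVec]

theorem HB3_sm_prod {ι : Type*} (s : Finset ι) {f : ι → G → ℂ} (hf : ∀ i ∈ s, C.Sm (f i)) :
    C.Sm (fun x => ∏ i ∈ s, f i x) := by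
  classical
  induction s using Finset.induction_on with
  | empty => simpa using C.sm_const (1 : ℂ)
  | insert a s ha ih =>
    simp only [Finset.prod_insert ha]
    exact C.sm_mul (hf a (Finset.mem_insert_self a s))
      (ih fun i hi => hf i (Finset.mem_insert_of_mem hi))

theorem HB3_sm_det {A : G → Matrix (Fin n) (Fin n) ℂ} (hA : ∀ i j, C.Sm (fun x => A x i j)) :
    C.Sm (fun x => (A x).det) := by
  simp only [Matrix.det_apply']
  refine C.sm_sum _ fun τ _ => C.sm_mul (C.sm_const _) ?_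
  exact C.HB3_sm_prod _ fun i _ => hA (τ i) i

theorem sm_grad {σ : G → ℝ} (hσ : C.Sm σ) (h : ∀ x b, b ≠ 0 → 0 < C.Lv σ x b)
    {N : G → ℂ} (hN : C.Sm N) (j : Fin n) : C.Sm (C.grad σ N j) := by
  have hA : ∀ i k, C.Sm (fun x => (Matrix.of (C.gm σ x)).transpose i k) :=
    fun i k => C.sm_gm hσ k i
  have h1 : C.grad σ N j = fun x => ∑ k, ((Matrix.of (C.gm σ x)).transpose⁻¹ j k) *
      C.Xb k N x := rfl
  rw [h1]
  refine C.sm_sum _ fun k _ => C.sm_mul ?_ (C.sm_Xb hN k)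
  have h2 : (fun x => (Matrix.of (C.gm σ x)).transpose⁻¹ j k) =
      fun x => ((Matrix.of (C.gm σ x)).transpose.det)⁻¹ *
        ((Matrix.of (C.gm σ x)).transpose.updateRow k (Pi.single j 1)).det := by
    funext x
    rw [Matrix.inv_def, Ring.inverse_eq_inv', Matrix.smul_apply, smul_eq_mul,
      Matrix.adjugate_apply]
  rw [h2]
  refine C.sm_mul (C.sm_inv (C.HB3_sm_det hA) fun x => (C.HB3_det h x).ne_zero) ?_
  refine C.HB3_sm_det fun i l => ?_
  simp only [Matrix.updateRow_apply]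
  split_ifs with hik
  · exact C.sm_const _
  · exact hA i l

end CLG

end HR
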