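import Pool.Agent.W_06f097_h43.Alg
import Pool.Agent.W_06f097_h43.HB3
import Pool.Agent.W_06f097_h43.HB1

/-! MP_06f097_an blueprint, block SK: Levi form of `log Σ |F_i|²`. -/

open scoped Topology ContDiff
open MeasureTheory Set Filter Metric

noncomputable section

namespace HR

namespace CLG

variable {n : ℕ} {G : Type*} [Group G] [TopologicalSpace G] [IsTopologicalGroup G] (C : CLG n G)
variable {N : ℕ} {F : Fin N → G → ℂ}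

private theorem sk2_eq (x : G) :
    ((∑ i, ‖F i x‖ ^ 2 : ℝ) : ℂ) = ∑ i, F i x * (starRingEnd ℂ) (F i x) := by
  rw [Complex.ofReal_sum]
  refine Finset.sum_congr rfl fun i _ => ?_
  rw [Complex.mul_conj, Complex.normSq_eq_norm_sq]

private theorem sk2_smc (hF : ∀ i, C.Hol (F i)) :
    C.Sm (fun x => ((∑ i, ‖F i x‖ ^ 2 : ℝ) : ℂ)) := by
  have h1 : (fun x => ((∑ i, ‖F i x‖ ^ 2 : ℝ) : ℂ)) =
      fun x => ∑ i, F i x * (starRingEnd ℂ) (F i x) := funext fun x => sk2_eq x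
  rw [h1]
  exact C.sm_sum Finset.univ fun i _ => C.sm_mul (C.hol_sm (hF i)) (C.sm_conj (C.hol_sm (hF i)))

theorem sm_sumsq (hF : ∀ i, C.Hol (F i)) : C.Sm (fun x => ∑ i, ‖F i x‖ ^ 2) :=
  C.sm_ofReal.1 (C.sk2_smc hF)

theorem X_sumsq (hF : ∀ i, C.Hol (F i)) (j : Fin n) (x : G) :
    C.X j (fun y => ((∑ i, ‖F i y‖ ^ 2 : ℝ) : ℂ)) x =
      ∑ i, (starRingEnd ℂ) (F i x) * C.X j (F i) x := by
  have h1 : (fun x => ((∑ i, ‖F i x‖ ^ 2 : ℝ) : ℂ)) =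
      fun x => ∑ i, F i x * (starRingEnd ℂ) (F i x) := funext fun x => sk2_eq x
  rw [h1, C.X_sum Finset.univ
    (fun i _ => C.sm_mul (C.hol_sm (hF i)) (C.sm_conj (C.hol_sm (hF i)))) j x]
  refine Finset.sum_congr rfl fun i _ => ?_
  rw [C.X_mul (C.hol_sm (hF i)) (C.sm_conj (C.hol_sm (hF i))), C.X_conj_hol (hF i)]
  ring

private theorem sk2_Xb (hF : ∀ i, C.Hol (F i)) (j : Fin n) (x : G) :
    C.Xb j (fun y => ((∑ i, ‖F i y‖ ^ 2 : ℝ) : ℂ)) x =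
      ∑ i, F i x * (starRingEnd ℂ) (C.X j (F i) x) := by
  have h1 : (fun x => ((∑ i, ‖F i x‖ ^ 2 : ℝ) : ℂ)) =
      fun x => ∑ i, F i x * (starRingEnd ℂ) (F i x) := funext fun x => sk2_eq x
  rw [h1, C.Xb_sum Finset.univ
    (fun i _ => C.sm_mul (C.hol_sm (hF i)) (C.sm_conj (C.hol_sm (hF i)))) j x]
  refine Finset.sum_congr rfl fun i _ => ?_
  rw [C.Xb_mul (C.hol_sm (hF i)) (C.sm_conj (C.hol_sm (hF i))), C.Xb_hol (hF i), C.Xb_conj]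
  ring

private theorem sk2_Xb_fun (hF : ∀ i, C.Hol (F i)) (j : Fin n) :
    C.Xb j (fun y => ((∑ i, ‖F i y‖ ^ 2 : ℝ) : ℂ)) =
      fun x => ∑ i, F i x * (starRingEnd ℂ) (C.X j (F i) x) := funext fun x => C.sk2_Xb hF j x

private theorem sk2_XXb (hF : ∀ i, C.Hol (F i)) (j k : Fin n) (x : G) :
    C.X j (C.Xb k (fun y => ((∑ i, ‖F i y‖ ^ 2 : ℝ) : ℂ))) x =
      ∑ i, C.X j (F i) x * (starRingEnd ℂ) (C.X k (F i) x) := by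
  rw [C.sk2_Xb_fun hF k, C.X_sum Finset.univ
    (fun i _ => C.sm_mul (C.hol_sm (hF i)) (C.sm_conj (C.hol_sm (C.hol_X (hF i) k)))) j x]
  refine Finset.sum_congr rfl fun i _ => ?_
  rw [C.X_mul (C.hol_sm (hF i)) (C.sm_conj (C.hol_sm (C.hol_X (hF i) k))),
    C.X_conj_hol (C.hol_X (hF i) k)]
  ring

/-- double sums -/
private theorem sk2_dbl (b : En n) (u v : Fin n → ℂ) :
    (∑ j, ∑ k, b j * (starRingEnd ℂ) (b k) * (u j * (starRingEnd ℂ) (v k))) =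
      (∑ j, b j * u j) * (starRingEnd ℂ) (∑ k, b k * v k) := by
  rw [map_sum, Finset.sum_mul_sum]
  refine Finset.sum_congr rfl fun j _ => Finset.sum_congr rfl fun k _ => ?_
  rw [map_mul]
  ring

private theorem sk2_tri (c : Fin n → Fin n → ℂ) (f : Fin N → Fin n → Fin n → ℂ) :
    (∑ j, ∑ k, c j k * ∑ i, f i j k) = ∑ i, ∑ j, ∑ k, c j k * f i j k := by
  simp only [Finset.mul_sum]
  calc (∑ j, ∑ k, ∑ i, c j k * f i j k) = ∑ j, ∑ i, ∑ k, c j k * f i j k :=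
        Finset.sum_congr rfl fun j _ => Finset.sum_comm
    _ = _ := Finset.sum_comm

private theorem sk2_sq (b : En n) (u : Fin N → Fin n → ℂ) :
    (∑ j, ∑ k, b j * (starRingEnd ℂ) (b k) * ∑ i, u i j * (starRingEnd ℂ) (u i k)) =
      ((∑ i, ‖∑ j, b j * u i j‖ ^ 2 : ℝ) : ℂ) := by
  rw [sk2_tri (fun j k => b j * (starRingEnd ℂ) (b k))
    (fun i j k => u i j * (starRingEnd ℂ) (u i k)), Complex.ofReal_sum]
  refine Finset.sum_congr rfl fun i _ => ?_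
  rw [sk2_dbl b (u i) (u i), Complex.mul_conj, Complex.normSq_eq_norm_sq]

theorem Lv_sumsq (hF : ∀ i, C.Hol (F i)) (x : G) (b : En n) :
    C.Lv (fun y => ∑ i, ‖F i y‖ ^ 2) x b = ∑ i, ‖∑ j, b j * C.X j (F i) x‖ ^ 2 := by
  have h1 : (∑ j, ∑ k, b j * (starRingEnd ℂ) (b k) *
      C.X j (C.Xb k (fun y => ((∑ i, ‖F i y‖ ^ 2 : ℝ) : ℂ))) x) =
      ((∑ i, ‖∑ j, b j * C.X j (F i) x‖ ^ 2 : ℝ) : ℂ) := by
    rw [← sk2_sq b (fun i j => C.X j (F i) x)]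
    refine Finset.sum_congr rfl fun j _ => Finset.sum_congr rfl fun k _ => ?_
    rw [C.sk2_XXb hF]
  rw [Lv, h1, Complex.ofReal_re]

private theorem sk2_logc (hpos : ∀ x, 0 < ∑ i, ‖F i x‖ ^ 2) (hF : ∀ i, C.Hol (F i)) (k : Fin n)
    (x : G) : C.Xb k (fun y => ((Real.log (∑ i, ‖F i y‖ ^ 2) : ℝ) : ℂ)) x =
      C.Xb k (fun y => ((∑ i, ‖F i y‖ ^ 2 : ℝ) : ℂ)) x *
        (((∑ i, ‖F i x‖ ^ 2 : ℝ) : ℂ))⁻¹ := by
  have h1 := C.Xb_comp (φ := fun y => ∑ i, ‖F i y‖ ^ 2) (u := Real.log) (x := x)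
    (C.sm_sumsq hF) (Real.differentiableAt_log (hpos x).ne') k
  rw [h1, Real.deriv_log, Complex.ofReal_inv, mul_comm]

private theorem sk2_gm (hF : ∀ i, C.Hol (F i)) (hpos : ∀ x, 0 < ∑ i, ‖F i x‖ ^ 2) (j k : Fin n)
    (x : G) :
    C.X j (C.Xb k (fun y => ((Real.log (∑ i, ‖F i y‖ ^ 2) : ℝ) : ℂ))) x =
      (∑ i, C.X j (F i) x * (starRingEnd ℂ) (C.X k (F i) x)) *
          (((∑ i, ‖F i x‖ ^ 2 : ℝ) : ℂ))⁻¹ -
        ((∑ i, (starRingEnd ℂ) (F i x) * C.X j (F i) x) *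
          (starRingEnd ℂ) (∑ i, (starRingEnd ℂ) (F i x) * C.X k (F i) x)) *
            ((((∑ i, ‖F i x‖ ^ 2 : ℝ) : ℂ)) ^ 2)⁻¹ := by
  have h0 : ∀ y, ((∑ i, ‖F i y‖ ^ 2 : ℝ) : ℂ) ≠ 0 := fun y =>
    Complex.ofReal_ne_zero.2 (hpos y).ne'
  have h1 : C.Xb k (fun y => ((Real.log (∑ i, ‖F i y‖ ^ 2) : ℝ) : ℂ)) =
      fun x => C.Xb k (fun y => ((∑ i, ‖F i y‖ ^ 2 : ℝ) : ℂ)) x *
        (((∑ i, ‖F i x‖ ^ 2 : ℝ) : ℂ))⁻¹ := funext fun x => C.sk2_logc hpos hF k x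
  rw [h1, C.X_mul (C.sm_Xb (C.sk2_smc hF) k) (C.sm_inv (C.sk2_smc hF) h0),
    C.X_inv (C.sk2_smc hF) (h0 x), C.sk2_XXb hF, C.X_sumsq hF, C.sk2_Xb hF]
  have h2 : (starRingEnd ℂ) (∑ i, (starRingEnd ℂ) (F i x) * C.X k (F i) x) =
      ∑ i, F i x * (starRingEnd ℂ) (C.X k (F i) x) := by
    rw [map_sum]
    refine Finset.sum_congr rfl fun i _ => ?_
    rw [map_mul, Complex.conj_conj]
  rw [h2]
  ring

/-- the trace of the Levi form of the logarithm, complex version -/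
private theorem sk2_cx (hF : ∀ i, C.Hol (F i)) (hpos : ∀ x, 0 < ∑ i, ‖F i x‖ ^ 2) (x : G)
    (b : En n) :
    (∑ j, ∑ k, b j * (starRingEnd ℂ) (b k) *
      C.X j (C.Xb k (fun y => ((Real.log (∑ i, ‖F i y‖ ^ 2) : ℝ) : ℂ))) x) =
      (((((∑ i, ‖F i x‖ ^ 2) * (∑ i, ‖∑ j, b j * C.X j (F i) x‖ ^ 2) -
        ‖∑ i, (starRingEnd ℂ) (F i x) * ∑ j, b j * C.X j (F i) x‖ ^ 2) /
        (∑ i, ‖F i x‖ ^ 2) ^ 2 : ℝ)) : ℂ) := by
  have h0 : ((∑ i, ‖F i x‖ ^ 2 : ℝ) : ℂ) ≠ 0 := Complex.ofReal_ne_zero.2 (hpos x).ne'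
  set W : ℝ := ∑ i, ‖F i x‖ ^ 2 with hW
  have h3 : (∑ j, ∑ k, b j * (starRingEnd ℂ) (b k) *
      ∑ i, C.X j (F i) x * (starRingEnd ℂ) (C.X k (F i) x)) =
      ((∑ i, ‖∑ j, b j * C.X j (F i) x‖ ^ 2 : ℝ) : ℂ) := sk2_sq b (fun i j => C.X j (F i) x)
  have h4 : (∑ j, ∑ k, b j * (starRingEnd ℂ) (b k) *
      ((∑ i, (starRingEnd ℂ) (F i x) * C.X j (F i) x) *
          (starRingEnd ℂ) (∑ i, (starRingEnd ℂ) (F i x) * C.X k (F i) x))) =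
      ((‖∑ i, (starRingEnd ℂ) (F i x) * ∑ j, b j * C.X j (F i) x‖ ^ 2 : ℝ) : ℂ) := by
    have h5 : (∑ j, b j * ∑ i, (starRingEnd ℂ) (F i x) * C.X j (F i) x) =
        ∑ i, (starRingEnd ℂ) (F i x) * ∑ j, b j * C.X j (F i) x := by
      simp only [Finset.mul_sum]
      rw [Finset.sum_comm]
      refine Finset.sum_congr rfl fun i _ => Finset.sum_congr rfl fun j _ => ?_
      ring
    rw [sk2_dbl b (fun j => ∑ i, (starRingEnd ℂ) (F i x) * C.X j (F i) x)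
      (fun j => ∑ i, (starRingEnd ℂ) (F i x) * C.X j (F i) x), h5, Complex.mul_conj,
      Complex.normSq_eq_norm_sq]
  have h6 : (∑ j, ∑ k, b j * (starRingEnd ℂ) (b k) *
      C.X j (C.Xb k (fun y => ((Real.log (∑ i, ‖F i y‖ ^ 2) : ℝ) : ℂ))) x) =
      (∑ j, ∑ k, b j * (starRingEnd ℂ) (b k) *
      ∑ i, C.X j (F i) x * (starRingEnd ℂ) (C.X k (F i) x)) * (W : ℂ)⁻¹ -
      (∑ j, ∑ k, b j * (starRingEnd ℂ) (b k) *
      ((∑ i, (starRingEnd ℂ) (F i x) * C.X j (F i) x) *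
          (starRingEnd ℂ) (∑ i, (starRingEnd ℂ) (F i x) * C.X k (F i) x))) *
            ((W : ℂ) ^ 2)⁻¹ := by
    rw [Finset.sum_mul, Finset.sum_mul, ← Finset.sum_sub_distrib]
    refine Finset.sum_congr rfl fun j _ => ?_
    rw [Finset.sum_mul, Finset.sum_mul, ← Finset.sum_sub_distrib]
    refine Finset.sum_congr rfl fun k _ => ?_
    rw [C.sk2_gm hF hpos]
    ring
  rw [h6, h3, h4]
  push_cast
  field_simp

/-- Levi form of the logarithm -/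
theorem Lv_log (hF : ∀ i, C.Hol (F i)) (hpos : ∀ x, 0 < ∑ i, ‖F i x‖ ^ 2) (x : G) (b : En n) :
    C.Lv (fun y => Real.log (∑ i, ‖F i y‖ ^ 2)) x b =
      ((∑ i, ‖F i x‖ ^ 2) * (∑ i, ‖∑ j, b j * C.X j (F i) x‖ ^ 2) -
        ‖∑ i, (starRingEnd ℂ) (F i x) * ∑ j, b j * C.X j (F i) x‖ ^ 2) /
        (∑ i, ‖F i x‖ ^ 2) ^ 2 := by
  rw [Lv, C.sk2_cx hF hpos x b, Complex.ofReal_re]

/-- Cauchy-Schwarz -/
private theorem sk2_cs (u v : Fin N → ℂ) :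
    ‖∑ i, (starRingEnd ℂ) (u i) * v i‖ ^ 2 ≤ (∑ i, ‖u i‖ ^ 2) * (∑ i, ‖v i‖ ^ 2) := by
  have h1 : ‖∑ i, (starRingEnd ℂ) (u i) * v i‖ ≤ ∑ i, ‖u i‖ * ‖v i‖ := by
    refine (norm_sum_le _ _).trans (Finset.sum_le_sum fun i _ => ?_)
    rw [norm_mul, RCLike.norm_conj]
  calc ‖∑ i, (starRingEnd ℂ) (u i) * v i‖ ^ 2 ≤ (∑ i, ‖u i‖ * ‖v i‖) ^ 2 := by
        gcongr
    _ ≤ _ := Finset.sum_mul_sq_le_sq_mul_sq _ _ _

/-- nonnegative by Cauchy-Schwarz -/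
theorem psh_log (hF : ∀ i, C.Hol (F i)) (hpos : ∀ x, 0 < ∑ i, ‖F i x‖ ^ 2) :
    C.Psh (fun y => Real.log (∑ i, ‖F i y‖ ^ 2)) := by
  refine ⟨C.sm_ofReal.2 (C.sm_log (C.sm_sumsq hF) hpos), fun x b => ?_⟩
  rw [C.Lv_log hF hpos]
  have h1 := sk2_cs (fun i => F i x) (fun i => ∑ j, b j * C.X j (F i) x)
  have h2 := hpos x
  apply div_nonneg
  · linarith
  · positivity

theorem psh_add {φ ψ : G → ℝ} (hφ : C.Psh φ) (hψ : C.Psh ψ) : C.Psh (fun y => φ y + ψ y) := by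
  have h1 := C.sm_ofReal.1 hφ.1
  have h2 := C.sm_ofReal.1 hψ.1
  refine ⟨C.sm_ofReal.2 (C.sm_add h1 h2), fun x b => ?_⟩
  rw [C.Lv_add h1 h2]
  exact add_nonneg (hφ.2 x b) (hψ.2 x b)

theorem psh_const_mul {φ : G → ℝ} (hφ : C.Psh φ) {t : ℝ} (ht : 0 ≤ t) :
    C.Psh (fun y => t * φ y) := by
  have h1 := C.sm_ofReal.1 hφ.1
  refine ⟨?_, fun x b => ?_⟩
  · have h2 := C.sm_mul (C.sm_const (t : ℂ)) hφ.1
    have h3 : (fun y => ((t * φ y : ℝ) : ℂ)) = fun y => (t : ℂ) * (φ y : ℂ) := by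
      funext y
      push_cast
      ring
    rw [h3]
    exact h2
  · rw [C.Lv_const_mul h1]
    exact mul_nonneg ht (hφ.2 x b)

private theorem sk2_alg (f a : Fin N → ℂ) {W : ℝ} (hW : W = ∑ i, ‖f i‖ ^ 2) (h0 : 0 < W) {S : ℂ}
    (hS : S = ∑ i, (starRingEnd ℂ) (f i) * a i) :
    ∑ i, ‖a i / (W : ℂ) - f i * S / (W : ℂ) ^ 2‖ ^ 2 =
      (W * (∑ i, ‖a i‖ ^ 2) - ‖S‖ ^ 2) / W ^ 3 := by
  have hc : (W : ℂ) ≠ 0 := Complex.ofReal_ne_zero.2 h0.ne'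
  have hn : ∀ z : ℂ, ((‖z‖ ^ 2 : ℝ) : ℂ) = z * (starRingEnd ℂ) z := fun z => by
    rw [Complex.mul_conj, Complex.normSq_eq_norm_sq]
  apply Complex.ofReal_injective
  have hW' : (W : ℂ) = ∑ i, f i * (starRingEnd ℂ) (f i) := by
    rw [hW, Complex.ofReal_sum]
    exact Finset.sum_congr rfl fun i _ => hn _
  have hS' : (starRingEnd ℂ) S = ∑ i, f i * (starRingEnd ℂ) (a i) := by
    rw [hS, map_sum]
    refine Finset.sum_congr rfl fun i _ => ?_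
    rw [map_mul, Complex.conj_conj]
  have h1 : ((∑ i, ‖a i / (W : ℂ) - f i * S / (W : ℂ) ^ 2‖ ^ 2 : ℝ) : ℂ) =
      (∑ i, a i * (starRingEnd ℂ) (a i)) * ((W : ℂ) ^ 2)⁻¹ -
      (∑ i, (starRingEnd ℂ) (f i) * a i) * ((starRingEnd ℂ) S * ((W : ℂ) ^ 3)⁻¹) -
      (∑ i, f i * (starRingEnd ℂ) (a i)) * (S * ((W : ℂ) ^ 3)⁻¹) +
      (∑ i, f i * (starRingEnd ℂ) (f i)) * (S * (starRingEnd ℂ) S * ((W : ℂ) ^ 4)⁻¹) := by
    rw [Complex.ofReal_sum, Finset.sum_mul, Finset.sum_mul, Finset.sum_mul, Finset.sum_mul,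
      ← Finset.sum_sub_distrib, ← Finset.sum_sub_distrib, ← Finset.sum_add_distrib]
    refine Finset.sum_congr rfl fun i _ => ?_
    rw [hn, map_sub, map_div₀, map_div₀, map_mul, map_pow, Complex.conj_ofReal]
    field_simp
    ring
  rw [h1, ← hS, ← hS', ← hW', Complex.ofReal_div, Complex.ofReal_sub, Complex.ofReal_mul, hn S,
    Complex.ofReal_sum]
  simp only [hn]
  rw [Complex.ofReal_pow]
  field_simp
  ring

private theorem sk2_v (hF : ∀ i, C.Hol (F i)) (hpos : ∀ x, 0 < ∑ i, ‖F i x‖ ^ 2)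
    {k : G → ℂ} (hk : C.Hol k) (x : G) (i : Fin N) (m : Fin n) :
    C.Xb m (fun y => (starRingEnd ℂ) (F i y) * k y / ((∑ i, ‖F i y‖ ^ 2 : ℝ) : ℂ)) x =
      k x * (starRingEnd ℂ) (C.X m (F i) x / ((∑ i, ‖F i x‖ ^ 2 : ℝ) : ℂ) -
        F i x * (∑ l, (starRingEnd ℂ) (F l x) * C.X m (F l) x) /
          ((∑ i, ‖F i x‖ ^ 2 : ℝ) : ℂ) ^ 2) := by
  have h0 : ∀ y, ((∑ i, ‖F i y‖ ^ 2 : ℝ) : ℂ) ≠ 0 := fun y =>
    Complex.ofReal_ne_zero.2 (hpos y).ne'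
  have h1 : (fun y => (starRingEnd ℂ) (F i y) * k y / ((∑ i, ‖F i y‖ ^ 2 : ℝ) : ℂ)) =
      fun y => (starRingEnd ℂ) (F i y) * k y * (((∑ i, ‖F i y‖ ^ 2 : ℝ) : ℂ))⁻¹ :=
    funext fun y => div_eq_mul_inv _ _
  have s1 := C.sm_conj (C.hol_sm (hF i))
  have s2 := C.hol_sm hk
  rw [h1, C.Xb_mul (C.sm_mul s1 s2) (C.sm_inv (C.sk2_smc hF) h0), C.Xb_mul s1 s2,
    C.Xb_inv (C.sk2_smc hF) (h0 x), C.Xb_hol hk, C.Xb_conj, C.sk2_Xb hF]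
  have h2 : (starRingEnd ℂ) (∑ l, (starRingEnd ℂ) (F l x) * C.X m (F l) x) =
      ∑ i, F i x * (starRingEnd ℂ) (C.X m (F i) x) := by
    rw [map_sum]
    refine Finset.sum_congr rfl fun i _ => ?_
    rw [map_mul, Complex.conj_conj]
  have h3 := h0 x
  rw [map_sub, map_div₀, map_div₀, map_mul, map_pow, Complex.conj_ofReal, h2]
  field_simp
  ring

/-- pointwise identity behind the theorem of Skoda: for `v_i = conj(F_i) k / W`, `k` holomorphic,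
`Σ_i |Σ_m Xb_m v_i conj(b_m)|² = (|k|² / W) Lv(log W)(b)`. Here
`Xb_m v_i = k Xb_m (conj(F_i) / W)` and `Σ_i Xb_m (conj F_i / W) X_k (F_i / W) =
W⁻¹ X_k Xb_m log W`. -/
theorem pointwise_skoda (hF : ∀ i, C.Hol (F i)) (hpos : ∀ x, 0 < ∑ i, ‖F i x‖ ^ 2)
    {k : G → ℂ} (hk : C.Hol k) (x : G) (b : En n) :
    ∑ i, ‖∑ m, C.Xb m (fun y => (starRingEnd ℂ) (F i y) * k y / ((∑ i, ‖F i y‖ ^ 2 : ℝ) : ℂ)) x *
      (starRingEnd ℂ) (b m)‖ ^ 2 =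
      ‖k x‖ ^ 2 / (∑ i, ‖F i x‖ ^ 2) * C.Lv (fun y => Real.log (∑ i, ‖F i y‖ ^ 2)) x b := by
  rw [C.Lv_log hF hpos]
  have hW := hpos x
  set W : ℝ := ∑ i, ‖F i x‖ ^ 2 with hWd
  have h1 : ∀ i, (∑ m, C.Xb m (fun y => (starRingEnd ℂ) (F i y) * k y /
      ((∑ i, ‖F i y‖ ^ 2 : ℝ) : ℂ)) x * (starRingEnd ℂ) (b m)) =
      k x * (starRingEnd ℂ) ((∑ m, b m * C.X m (F i) x) / (W : ℂ) -
        F i x * (∑ l, (starRingEnd ℂ) (F l x) * ∑ m, b m * C.X m (F l) x) / (W : ℂ) ^ 2) := by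
    intro i
    have h2 : (∑ l, (starRingEnd ℂ) (F l x) * ∑ m, b m * C.X m (F l) x) =
        ∑ m, b m * ∑ l, (starRingEnd ℂ) (F l x) * C.X m (F l) x := by
      simp only [Finset.mul_sum]
      rw [Finset.sum_comm]
      refine Finset.sum_congr rfl fun i _ => Finset.sum_congr rfl fun j _ => ?_
      ring
    have h3 : ((∑ m, b m * C.X m (F i) x) / (W : ℂ) -
        F i x * (∑ m, b m * ∑ l, (starRingEnd ℂ) (F l x) * C.X m (F l) x) / (W : ℂ) ^ 2) =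
        ∑ m, b m * (C.X m (F i) x / (W : ℂ) -
          F i x * (∑ l, (starRingEnd ℂ) (F l x) * C.X m (F l) x) / (W : ℂ) ^ 2) := by
      rw [Finset.sum_div, Finset.mul_sum, Finset.sum_div, ← Finset.sum_sub_distrib]
      refine Finset.sum_congr rfl fun m _ => ?_
      ring
    rw [h2, h3, map_sum, Finset.mul_sum]
    refine Finset.sum_congr rfl fun m _ => ?_
    rw [C.sk2_v hF hpos hk, map_mul]
    ring
  have h4 : ∀ i, ‖∑ m, C.Xb m (fun y => (starRingEnd ℂ) (F i y) * k y /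
      ((∑ i, ‖F i y‖ ^ 2 : ℝ) : ℂ)) x * (starRingEnd ℂ) (b m)‖ ^ 2 =
      ‖k x‖ ^ 2 * ‖(∑ m, b m * C.X m (F i) x) / (W : ℂ) -
        F i x * (∑ l, (starRingEnd ℂ) (F l x) * ∑ m, b m * C.X m (F l) x) / (W : ℂ) ^ 2‖ ^ 2 := by
    intro i
    rw [h1 i, norm_mul, RCLike.norm_conj, mul_pow]
  rw [Finset.sum_congr rfl fun i _ => h4 i, ← Finset.mul_sum,
    sk2_alg (fun i => F i x) (fun i => ∑ m, b m * C.X m (F i) x) hWd hW rfl]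
  field_simp

/-- Consequence with `skoda_ineq`: for any weight `φ'` with `Lv φ' ≥ m Lv (log W)`, `m > 0`. -/
theorem pointwise_skoda' (hF : ∀ i, C.Hol (F i)) (hpos : ∀ x, 0 < ∑ i, ‖F i x‖ ^ 2)
    {k : G → ℂ} (hk : C.Hol k) {φ : G → ℝ} {m : ℝ} (hm : 0 < m)
    (hφ : ∀ x b, m * C.Lv (fun y => Real.log (∑ i, ‖F i y‖ ^ 2)) x b ≤ C.Lv φ x b)
    (x : G) (b : Fin N → En n) :
    ‖∑ i, ∑ m, C.Xb m (fun y => (starRingEnd ℂ) (F i y) * k y / ((∑ i, ‖F i y‖ ^ 2 : ℝ) : ℂ)) x *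
      (starRingEnd ℂ) (b i m)‖ ^ 2 ≤
      n * (‖k x‖ ^ 2 / (∑ i, ‖F i x‖ ^ 2)) / m * ∑ i, C.Lv φ x (b i) := by
  have hsm := C.sm_log (C.sm_sumsq hF) hpos
  have hq : 0 ≤ ‖k x‖ ^ 2 / (∑ i, ‖F i x‖ ^ 2) := div_nonneg (by positivity) (hpos x).le
  have h1 := skoda_ineq (C.gm (fun y => Real.log (∑ i, ‖F i y‖ ^ 2)) x)
    (fun j k => C.gm_herm hsm x j k)
    (fun b => (C.psh_log hF hpos).2 x b)
    (fun i m => C.Xb m (fun y => (starRingEnd ℂ) (F i y) * k y / ((∑ i, ‖F i y‖ ^ 2 : ℝ) : ℂ)) x)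
    (‖k x‖ ^ 2 / (∑ i, ‖F i x‖ ^ 2)) hq
    (fun b => C.pointwise_skoda hF hpos hk x b) b
  refine h1.trans ?_
  have h2 : ∑ i, (∑ j, ∑ l, b i j * (starRingEnd ℂ) (b i l) *
      C.gm (fun y => Real.log (∑ i, ‖F i y‖ ^ 2)) x j l).re ≤ (1 / m) * ∑ i, C.Lv φ x (b i) := by
    rw [Finset.mul_sum]
    refine Finset.sum_le_sum fun i _ => ?_
    have h3 := hφ x (b i)
    rw [C.Lv_eq] at h3
    rw [one_div, ← div_eq_inv_mul, le_div_iff₀ hm]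
    linarith
  calc n * (‖k x‖ ^ 2 / (∑ i, ‖F i x‖ ^ 2)) * ∑ i, (∑ j, ∑ l, b i j * (starRingEnd ℂ) (b i l) *
      C.gm (fun y => Real.log (∑ i, ‖F i y‖ ^ 2)) x j l).re
      ≤ n * (‖k x‖ ^ 2 / (∑ i, ‖F i x‖ ^ 2)) * ((1 / m) * ∑ i, C.Lv φ x (b i)) :=
        mul_le_mul_of_nonneg_left h2 (by positivity)
    _ = _ := by ring

end CLG

end HR
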