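import Pool.Agent.W_06f097_h43.CA5
import Pool.Agent.W_06f097_h43.HB3
import Pool.Agent.W_06f097_h43.SK2

/-! MP_06f097_an blueprint, block EX: infinite sums of squares. -/

open scoped Topology ContDiff
open MeasureTheory Set Filter Metric

noncomputable section

namespace HR

namespace CLG

section EX1

variable {n : ℕ} {G : Type*} [Group G] [TopologicalSpace G] [IsTopologicalGroup G] (C : CLG n G)
variable {F : Type*} [NormedAddCommGroup F] [NormedSpace ℂ F]

private theorem ex1_diffOn {H : G → F} (hH : ∀ x, DifferentiableAt ℂ (C.co H x) 0) (x : G) :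
    DifferentiableOn ℂ (C.co H x) (ball 0 C.r) := by
  intro z₀ hz
  apply DifferentiableAt.differentiableWithinAt
  refine DifferentiableAt.congr_of_eventuallyEq ?_ (C.co_base H x hz)
  have hg : DifferentiableAt ℂ (fun z => C.ψ.symm ((C.ψ z₀)⁻¹ * C.ψ z)) z₀ :=
    (C.base_smooth z₀ hz).differentiableAt (by simp)
  have hf' : DifferentiableAt ℂ (C.co H (x * C.ψ z₀)) (C.ψ.symm ((C.ψ z₀)⁻¹ * C.ψ z₀)) := by
    rw [C.base_zero hz]; exact hH _
  exact DifferentiableAt.comp (g := C.co H (x * C.ψ z₀)) z₀ hf' hg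

private theorem ex1_contDiffOn [CompleteSpace F] {H : G → F}
    (hH : ∀ x, DifferentiableAt ℂ (C.co H x) 0) (x : G) :
    ContDiffOn ℂ ∞ (C.co H x) (ball 0 C.r) :=
  contDiffOn_of_differentiableOn isOpen_ball (C.ex1_diffOn hH x)

private theorem ex1_D_eq [CompleteSpace F] {H : G → F}
    (hH : ∀ x, DifferentiableAt ℂ (C.co H x) 0) (x : G) {z : En n}
    (hz : z ∈ ball (0 : En n) C.r) (v : En n) :
    fderiv ℂ (C.co H (x * C.ψ z)) 0 v = fderiv ℂ (C.co H x) z (C.CA4_vec z v) := by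
  have h0 := C.co_base' H x hz
  have h1 : HasFDerivAt (C.co H x) (fderiv ℂ (C.co H x) z) (C.CA4_mu (z, 0)) := by
    rw [C.CA4_mu_left hz]
    exact (((C.ex1_contDiffOn hH x).contDiffAt (isOpen_ball.mem_nhds hz)).differentiableAt
      (by simp)).hasFDerivAt
  have h3 := HasFDerivAt.comp (0 : En n) h1 (C.CA4_slice hz)
  have h4 : HasFDerivAt (C.co H (x * C.ψ z)) _ 0 := h3.congr_of_eventuallyEq h0
  rw [h4.fderiv]
  rfl

private theorem ex1_der [CompleteSpace F] {H : G → F}
    (hH : ∀ x, DifferentiableAt ℂ (C.co H x) 0) (v : En n) (x : G) :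
    DifferentiableAt ℂ (C.co (fun y => fderiv ℂ (C.co H y) 0 v) x) 0 := by
  have h1 : C.co (fun y => fderiv ℂ (C.co H y) 0 v) x =ᶠ[𝓝 0]
      fun z => fderiv ℂ (C.co H x) z (C.CA4_vec z v) := by
    filter_upwards [ball_mem_nhds (0 : En n) C.r_pos] with z hz
    exact C.ex1_D_eq hH x hz v
  apply DifferentiableAt.congr_of_eventuallyEq _ h1
  have h2 : ContDiffAt ℂ ∞ (fderiv ℂ (C.co H x)) 0 :=
    ((C.ex1_contDiffOn hH x).contDiffAt (isOpen_ball.mem_nhds C.CA4_zero_mem)).fderiv_right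
      (m := ∞) (by simp)
  exact (h2.differentiableAt (by simp)).clm_apply ((C.CA4_vec_smooth _).differentiableAt (by simp))

variable {E : Type*} [NormedAddCommGroup E] [InnerProductSpace ℂ E]

private theorem ex1_inner {u v : G → E} (hu : ∀ x, DifferentiableAt ℂ (C.co u x) 0)
    (hv : ∀ x, DifferentiableAt ℂ (C.co v x) 0) (x : G) (w : En n) :
    C.D (fun y => inner ℂ (u y) (v y)) x w =
      inner ℂ (u x) (fderiv ℂ (C.co v x) 0 w) + inner ℂ (fderiv ℂ (C.co u x) 0 w) (v x) := by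
  have h1 := (hu x).hasFDerivAt.restrictScalars ℝ
  have h2 := (hv x).hasFDerivAt.restrictScalars ℝ
  have h3 := h1.inner ℂ h2
  have h4 : C.D (fun y => inner ℂ (u y) (v y)) x = _ := h3.fderiv
  have e1 : C.co u x 0 = u x := by simp only [co, C.map_zero, mul_one]
  have e2 : C.co v x 0 = v x := by simp only [co, C.map_zero, mul_one]
  rw [h4, ContinuousLinearMap.comp_apply, fderivInnerCLM_apply, e1, e2]
  rfl

private theorem ex1_single (j : Fin n) :
    (Pi.single j Complex.I : En n) = Complex.I • (Pi.single j 1 : En n) := by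
  rw [← Pi.single_smul', smul_eq_mul, mul_one]

private theorem ex1_X {u v : G → E} (hu : ∀ x, DifferentiableAt ℂ (C.co u x) 0)
    (hv : ∀ x, DifferentiableAt ℂ (C.co v x) 0) (j : Fin n) (x : G) :
    C.X j (fun y => inner ℂ (u y) (v y)) x =
      inner ℂ (u x) (fderiv ℂ (C.co v x) 0 (Pi.single j 1)) := by
  unfold X
  rw [C.ex1_inner hu hv, C.ex1_inner hu hv, ex1_single, map_smul, map_smul, inner_smul_right,
    inner_smul_left, Complex.conj_I]
  generalize inner ℂ (u x) (fderiv ℂ (C.co v x) 0 (Pi.single j 1)) = a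
  generalize inner ℂ (fderiv ℂ (C.co u x) 0 (Pi.single j 1)) (v x) = b
  linear_combination ((b - a) / 2) * Complex.I_mul_I

private theorem ex1_Xb {u v : G → E} (hu : ∀ x, DifferentiableAt ℂ (C.co u x) 0)
    (hv : ∀ x, DifferentiableAt ℂ (C.co v x) 0) (j : Fin n) (x : G) :
    C.Xb j (fun y => inner ℂ (u y) (v y)) x =
      inner ℂ (fderiv ℂ (C.co u x) 0 (Pi.single j 1)) (v x) := by
  unfold Xb
  rw [C.ex1_inner hu hv, C.ex1_inner hu hv, ex1_single, map_smul, map_smul, inner_smul_right,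
    inner_smul_left, Complex.conj_I]
  generalize inner ℂ (u x) (fderiv ℂ (C.co v x) 0 (Pi.single j 1)) = a
  generalize inner ℂ (fderiv ℂ (C.co u x) 0 (Pi.single j 1)) (v x) = b
  linear_combination ((a - b) / 2) * Complex.I_mul_I

private theorem ex1_norm (f : lp (fun _ : ℕ => ℂ) 2) : HasSum (fun k => ‖f k‖ ^ 2) (‖f‖ ^ 2) := by
  have h := lp.hasSum_norm (p := 2) (by norm_num) f
  simpa using h

private theorem ex1_memlp {f : ℕ → ℂ} (hf : Summable fun k => ‖f k‖ ^ 2) :
    Memℓp f 2 := by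
  refine memℓp_gen ?_
  simpa using hf

/-- the vector valued function -/
private theorem ex1_hol {h : ℕ → G → ℂ} (hh : ∀ k, C.Hol (h k))
    (hs : ∀ K : Set G, IsCompact K → ∃ B : ℕ → ℝ, Summable B ∧ ∀ k, ∀ x ∈ K, ‖h k x‖ ^ 2 ≤ B k)
    {H : G → lp (fun _ : ℕ => ℂ) 2} (hH : ∀ x k, H x k = h k x) (x : G) :
    DifferentiableAt ℂ (C.co H x) 0 := by
  have hr := C.r_pos
  have hr2 : 0 < C.r / 2 := by positivity
  have hsub : closedBall (0 : En n) (C.r / 2) ⊆ ball 0 C.r := closedBall_subset_ball (by linarith)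
  have hcont : ContinuousOn (fun z => x * C.ψ z) (closedBall (0 : En n) (C.r / 2)) :=
    continuousOn_const.mul (C.ψ.continuousOn.mono (hsub.trans C.ball_sub))
  obtain ⟨B, hB, hb⟩ := hs _ ((isCompact_closedBall (0 : En n) (C.r / 2)).image_of_continuousOn hcont)
  have hB0 : ∀ k, 0 ≤ B k := fun k => by
    refine (sq_nonneg ‖h k (x * C.ψ 0)‖).trans (hb k _ ⟨0, ?_, rfl⟩)
    exact mem_closedBall_self hr2.le
  have key : TendstoUniformlyOn
      (fun (N : ℕ) (z : En n) => ∑ i ∈ Finset.range N,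
        lp.singleContinuousLinearMap ℂ (fun _ : ℕ => ℂ) 2 i (h i (x * C.ψ z)))
      (C.co H x) atTop (ball (0 : En n) (C.r / 2)) := by
    rw [Metric.tendstoUniformlyOn_iff]
    intro ε hε
    have h1 := tendsto_sum_nat_add B
    have h2 : ∀ᶠ N in atTop, ∑' k, B (k + N) < ε ^ 2 :=
      h1.eventually (Iio_mem_nhds (by positivity))
    filter_upwards [h2] with N hN z hz
    have hzK : ∀ k, ‖h k (x * C.ψ z)‖ ^ 2 ≤ B k := fun k =>
      hb k _ ⟨z, ball_subset_closedBall hz, rfl⟩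
    rw [dist_eq_norm]
    refine lt_of_pow_lt_pow_left₀ 2 hε.le ?_
    refine lt_of_le_of_lt ?_ hN
    have h3 := lp.norm_compl_sum_single (p := 2) (by norm_num) (C.co H x z) (Finset.range N)
    have h4 : ‖C.co H x z - ∑ i ∈ Finset.range N,
        lp.single (E := fun _ : ℕ => ℂ) 2 i (C.co H x z i)‖ ^ 2 =
        ‖C.co H x z‖ ^ 2 - ∑ i ∈ Finset.range N, ‖C.co H x z i‖ ^ 2 := by
      simpa using h3
    have h5 : ∀ i, C.co H x z i = h i (x * C.ψ z) := fun i => hH _ i
    have h6 := ex1_norm (C.co H x z)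
    have h7 := h6.summable.sum_add_tsum_nat_add N
    rw [h6.tsum_eq] at h7
    have h8 : ‖C.co H x z - ∑ i ∈ Finset.range N,
        lp.singleContinuousLinearMap ℂ (fun _ : ℕ => ℂ) 2 i (h i (x * C.ψ z))‖ ^ 2 =
        ∑' k, ‖C.co H x z (k + N)‖ ^ 2 := by
      simp only [lp.singleContinuousLinearMap_apply, ← h5]
      rw [h4]
      linarith
    rw [h8]
    refine Summable.tsum_le_tsum (fun k => ?_) ((summable_nat_add_iff N).2 h6.summable)
      ((summable_nat_add_iff N).2 hB)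
    rw [h5]
    exact hzK _
  have h1 := holo_limit (p := atTop) isOpen_ball (Filter.Eventually.of_forall fun N => by
    refine DifferentiableOn.fun_sum fun i _ => ?_
    exact (ContinuousLinearMap.differentiable _).comp_differentiableOn
      ((C.hol_differentiableOn (hh i) x).mono (ball_subset_ball (by linarith))))
    key.tendstoLocallyUniformlyOn
  exact h1.1.differentiableAt (ball_mem_nhds (0 : En n) hr2)

end EX1

variable {n : ℕ} {G : Type*} [Group G] [TopologicalSpace G] [IsTopologicalGroup G] [T2Space G]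
  [LocallyCompactSpace G] (C : CLG n G)

/-- Proof. In a chart put `K(z, w) = Σ_k h_k(z) conj(h_k(conj w))`, a locally uniformly convergent
series of holomorphic functions of `(z, w)` on `ball × ball` (Cauchy-Schwarz), hence holomorphic
(`holo_limit`) and smooth (`contDiffOn_of_differentiableOn`); `Σ |h_k|²` is its composition with
`z ↦ (z, conj z)`. The second derivatives may be computed termwise (`holo_limit` applied twice), so
`Lv` is the sum of the series `Σ_k |Σ_j b_j X_j h_k|²` (cf. `Lv_sumsq`). -/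
theorem infinite_sumsq {h : ℕ → G → ℂ} (hh : ∀ k, C.Hol (h k))
    (hs : ∀ K : Set G, IsCompact K → ∃ B : ℕ → ℝ, Summable B ∧ ∀ k, ∀ x ∈ K, ‖h k x‖ ^ 2 ≤ B k) :
    C.Sm (fun x => ∑' k, ‖h k x‖ ^ 2) ∧ ∀ x (b : En n),
      HasSum (fun k => ‖∑ j, b j * C.X j (h k) x‖ ^ 2)
        (C.Lv (fun x => ∑' k, ‖h k x‖ ^ 2) x b) := by
  have hsum : ∀ x, Summable fun k => ‖h k x‖ ^ 2 := by
    intro x
    obtain ⟨B, hB, hb⟩ := hs {x} isCompact_singleton
    exact Summable.of_nonneg_of_le (fun k => by positivity) (fun k => hb k x rfl) hB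
  obtain ⟨H, hH⟩ : ∃ H : G → lp (fun _ : ℕ => ℂ) 2, ∀ x k, H x k = h k x :=
    ⟨fun x => ⟨fun k => h k x, ex1_memlp (hsum x)⟩, fun x k => rfl⟩
  have hhol : ∀ x, DifferentiableAt ℂ (C.co H x) 0 := fun x => C.ex1_hol hh hs hH x
  have hS : ∀ x, ∑' k, ‖h k x‖ ^ 2 = ‖H x‖ ^ 2 := by
    intro x
    have h1 := (ex1_norm (H x)).tsum_eq
    simp only [hH] at h1
    exact h1
  have hSf : (fun x => ∑' k, ‖h k x‖ ^ 2) = fun x => ‖H x‖ ^ 2 := funext hS
  have hSc : (fun x => ((∑' k, ‖h k x‖ ^ 2 : ℝ) : ℂ)) = fun x => inner ℂ (H x) (H x) := by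
    funext x
    rw [hS x, inner_self_eq_norm_sq_to_K]
    push_cast
    rfl
  constructor
  · rw [hSf]
    intro x
    have h1 : ContDiffAt ℂ ∞ (C.co H x) 0 :=
      (C.ex1_contDiffOn hhol x).contDiffAt (ball_mem_nhds (0 : En n) C.r_pos)
    exact (h1.restrict_scalars ℝ).norm_sq ℂ
  · intro x b
    have hXb : ∀ k : Fin n, C.Xb k (fun x => ((∑' k, ‖h k x‖ ^ 2 : ℝ) : ℂ)) =
        fun y => inner ℂ (fderiv ℂ (C.co H y) 0 (Pi.single k 1)) (H y) := by
      intro k
      rw [hSc]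
      funext y
      exact C.ex1_Xb hhol hhol k y
    have hXX : ∀ j k : Fin n, C.X j (C.Xb k (fun x => ((∑' k, ‖h k x‖ ^ 2 : ℝ) : ℂ))) x =
        inner ℂ (fderiv ℂ (C.co H x) 0 (Pi.single k 1))
          (fderiv ℂ (C.co H x) 0 (Pi.single j 1)) := by
      intro j k
      rw [hXb k]
      exact C.ex1_X (C.ex1_der hhol _) hhol j x
    set T : lp (fun _ : ℕ => ℂ) 2 := ∑ j, b j • fderiv ℂ (C.co H x) 0 (Pi.single j 1) with hT
    have hLv : C.Lv (fun x => ∑' k, ‖h k x‖ ^ 2) x b = ‖T‖ ^ 2 := by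
      have h1 : (∑ j, ∑ k, b j * (starRingEnd ℂ) (b k) *
          C.X j (C.Xb k (fun x => ((∑' k, ‖h k x‖ ^ 2 : ℝ) : ℂ))) x) = inner ℂ T T := by
        rw [hT, inner_sum]
        refine Finset.sum_congr rfl fun j _ => ?_
        rw [sum_inner]
        refine Finset.sum_congr rfl fun k _ => ?_
        rw [hXX, inner_smul_left, inner_smul_right]
        ring
      rw [Lv, h1, inner_self_eq_norm_sq_to_K]
      norm_cast
    rw [hLv]
    have h2 := ex1_norm T
    have h3 : ∀ k, T k = ∑ j, b j * C.X j (h k) x := by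
      intro k
      have h4 : ∀ v : En n, (fderiv ℂ (C.co H x) 0 v) k = fderiv ℂ (C.co (h k) x) 0 v := by
        intro v
        have h5 : C.co (h k) x = fun z => lp.evalCLM ℂ (fun _ : ℕ => ℂ) 2 k (C.co H x z) := by
          funext z
          exact (hH _ k).symm
        have h6 := (lp.evalCLM ℂ (fun _ : ℕ => ℂ) 2 k).hasFDerivAt.comp (0 : En n)
          (hhol x).hasFDerivAt
        have h7 : fderiv ℂ (C.co (h k) x) 0 =
            (lp.evalCLM ℂ (fun _ : ℕ => ℂ) 2 k).comp (fderiv ℂ (C.co H x) 0) := by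
          rw [h5]
          exact h6.fderiv
        rw [h7]
        rfl
      rw [hT, lp.coeFn_sum, Finset.sum_apply]
      refine Finset.sum_congr rfl fun j _ => ?_
      rw [C.X_hol (hh k), ← h4]
      rfl
    simp only [h3] at h2
    exact h2

end CLG

end HR
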