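import Pool.Agent.W_06f097_h43.ME1

/-! MP_06f097_an blueprint, block HB: adjoints and the basic identity. -/

open scoped Topology ContDiff
open MeasureTheory Set Filter Metric

noncomputable section

namespace HR

namespace CLG

variable {n : ℕ} {G : Type*} [Group G] [TopologicalSpace G] [IsTopologicalGroup G] [T2Space G]
  [LocallyCompactSpace G] [SecondCountableTopology G] [MeasurableSpace G] [BorelSpace G]
  (C : CLG n G) (μ : Measure G) [μ.IsHaarMeasure]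

omit [IsTopologicalGroup G] [T2Space G] [LocallyCompactSpace G] [SecondCountableTopology G]
  [MeasurableSpace G] [BorelSpace G] in
private theorem HB2_cs_mul {f g : G → ℂ} (h : HasCompactSupport f ∨ HasCompactSupport g)
    (e : G → ℂ) : HasCompactSupport (fun x => f x * g x * e x) := by
  rcases h with h | h
  · refine HasCompactSupport.intro' h (isClosed_tsupport f) fun x hx => ?_
    rw [image_eq_zero_of_notMem_tsupport hx, zero_mul, zero_mul]
  · refine HasCompactSupport.intro' h (isClosed_tsupport g) fun x hx => ?_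
    rw [image_eq_zero_of_notMem_tsupport hx, mul_zero, zero_mul]

omit [IsTopologicalGroup G] [T2Space G] [LocallyCompactSpace G] [SecondCountableTopology G]
  [MeasurableSpace G] [BorelSpace G] in
private theorem HB2_cs_conj {f : G → ℂ} (h : HasCompactSupport f) :
    HasCompactSupport (fun x => (starRingEnd ℂ) (f x)) := by
  refine HasCompactSupport.intro' h (isClosed_tsupport f) fun x hx => ?_
  rw [image_eq_zero_of_notMem_tsupport hx, _root_.map_zero]

omit [T2Space G] [LocallyCompactSpace G] [SecondCountableTopology G]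
  [MeasurableSpace G] [BorelSpace G] in
private theorem HB2_cs_Xb {f : G → ℂ} (h : HasCompactSupport f) (j : Fin n) :
    HasCompactSupport (C.Xb j f) := by
  refine HasCompactSupport.intro' h (isClosed_tsupport f) fun x hx => ?_
  have h2 : f =ᶠ[𝓝 x] fun _ => 0 := notMem_tsupport_iff_eventuallyEq.1 hx
  rw [C.Xb_congr h2, C.Xb_const]

omit [T2Space G] [LocallyCompactSpace G] [SecondCountableTopology G]
  [MeasurableSpace G] [BorelSpace G] in
private theorem HB2_cs_dv {c : Fin n → ℂ} {φ : G → ℝ} {f : G → ℂ} (h : HasCompactSupport f)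
    (j : Fin n) : HasCompactSupport (C.dv c φ j f) := by
  refine HasCompactSupport.intro' h (isClosed_tsupport f) fun x hx => ?_
  have h2 : f =ᶠ[𝓝 x] fun _ => 0 := notMem_tsupport_iff_eventuallyEq.1 hx
  rw [dv, C.X_congr h2, C.X_const, image_eq_zero_of_notMem_tsupport hx, mul_zero, sub_zero]

omit [T2Space G] [LocallyCompactSpace G] [SecondCountableTopology G]
  [MeasurableSpace G] [BorelSpace G] in
private theorem HB2_sm_e {φ : G → ℝ} (hφ : C.Sm φ) :
    C.Sm (fun x => ((Real.exp (-φ x) : ℝ) : ℂ)) :=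
  C.sm_ofReal.2 (C.sm_exp (C.sm_neg hφ))

omit [T2Space G] [LocallyCompactSpace G] [SecondCountableTopology G]
  [MeasurableSpace G] [BorelSpace G] in
private theorem HB2_Xb_e {φ : G → ℝ} (hφ : C.Sm φ) (j : Fin n) (x : G) :
    C.Xb j (fun x => ((Real.exp (-φ x) : ℝ) : ℂ)) x =
      -((Real.exp (-φ x) : ℝ) : ℂ) * (starRingEnd ℂ) (C.X j (fun y => (φ y : ℂ)) x) := by
  have h1 : HasDerivAt (fun t : ℝ => Real.exp (-t)) (-Real.exp (-φ x)) (φ x) := by
    have h2 := (hasDerivAt_neg (φ x)).exp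
    simpa using h2
  have h3 := C.Xb_comp hφ (u := fun t : ℝ => Real.exp (-t)) h1.differentiableAt j
  rw [h3, h1.deriv]
  have h4 := C.Xb_conj (fun y => (φ y : ℂ)) j x
  simp only [Complex.conj_ofReal] at h4
  rw [h4]
  push_cast
  ring

private theorem HB2_int {f : G → ℂ} (hf : C.Sm f) (hs : HasCompactSupport f) : Integrable f μ :=
  (C.sm_continuous hf).integrable_of_hasCompactSupport hs

omit [T2Space G] [LocallyCompactSpace G] [SecondCountableTopology G]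
  [MeasurableSpace G] [BorelSpace G] in
theorem HB2_sm_dv {c : Fin n → ℂ} {φ : G → ℝ} (hφ : C.Sm φ) {g : G → ℂ} (hg : C.Sm g)
    (j : Fin n) : C.Sm (C.dv c φ j g) :=
  C.sm_sub (C.sm_X hg j) (C.sm_mul (C.sm_add (C.sm_X (C.sm_ofReal.2 hφ) j) (C.sm_const (c j))) hg)

/-- Integrate `Xb_j (f conj(g) exp(-φ))`; `conj (X_j g) = Xb_j (conj g)`. -/
theorem adj {c : Fin n → ℂ} (hc : C.IsPart μ c) {φ : G → ℝ} (hφ : C.Sm φ) {f g : G → ℂ}
    (hf : C.Sm f) (hg : C.Sm g) (hs : HasCompactSupport f ∨ HasCompactSupport g) (j : Fin n) :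
    ∫ x, C.Xb j f x * (starRingEnd ℂ) (g x) * (Real.exp (-φ x) : ℂ) ∂μ =
      - ∫ x, f x * (starRingEnd ℂ) (C.dv c φ j g x) * (Real.exp (-φ x) : ℂ) ∂μ := by
  have he := C.HB2_sm_e hφ
  have hA : Integrable (fun x => C.Xb j f x * (starRingEnd ℂ) (g x) * (Real.exp (-φ x) : ℂ)) μ := by
    refine HB2_int C μ (C.sm_mul (C.sm_mul (C.sm_Xb hf j) (C.sm_conj hg)) he) ?_
    exact HB2_cs_mul (hs.imp (fun h => HB2_cs_Xb C h j) HB2_cs_conj) _
  have hB : Integrable (fun x => f x * (starRingEnd ℂ) (C.dv c φ j g x) *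
      (Real.exp (-φ x) : ℂ)) μ := by
    refine HB2_int C μ (C.sm_mul (C.sm_mul hf (C.sm_conj (C.HB2_sm_dv hφ hg j))) he) ?_
    exact HB2_cs_mul (hs.imp id fun h => HB2_cs_conj (HB2_cs_dv C h j)) _
  have hHs : C.Sm (fun x => f x * (starRingEnd ℂ) (g x) * (Real.exp (-φ x) : ℂ)) :=
    C.sm_mul (C.sm_mul hf (C.sm_conj hg)) he
  have hHc : HasCompactSupport
      (fun x => f x * (starRingEnd ℂ) (g x) * ((Real.exp (-φ x) : ℝ) : ℂ)) :=
    HB2_cs_mul (hs.imp id HB2_cs_conj) _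
  have hH := HB2_int C μ hHs hHc
  have key : ∀ x, C.Xb j (fun x => f x * (starRingEnd ℂ) (g x) * (Real.exp (-φ x) : ℂ)) x =
      C.Xb j f x * (starRingEnd ℂ) (g x) * (Real.exp (-φ x) : ℂ) +
      f x * (starRingEnd ℂ) (C.dv c φ j g x) * (Real.exp (-φ x) : ℂ) +
      (starRingEnd ℂ) (c j) * (f x * (starRingEnd ℂ) (g x) * (Real.exp (-φ x) : ℂ)) := by
    intro x
    rw [C.Xb_mul (f := fun x => f x * (starRingEnd ℂ) (g x)) (C.sm_mul hf (C.sm_conj hg)) he,
      C.Xb_mul hf (C.sm_conj hg), C.Xb_conj, C.HB2_Xb_e hφ, dv]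
    simp only [map_sub, map_mul, map_add]
    ring
  have h1 := (hc _ hHs hHc j).2
  simp only [key] at h1
  have hAB : Integrable (fun x => C.Xb j f x * (starRingEnd ℂ) (g x) * (Real.exp (-φ x) : ℂ) +
      f x * (starRingEnd ℂ) (C.dv c φ j g x) * (Real.exp (-φ x) : ℂ)) μ := hA.add hB
  rw [integral_add hAB (hH.const_mul _), integral_add hA hB, integral_const_mul] at h1
  linear_combination h1

theorem sm_dv {c : Fin n → ℂ} {φ : G → ℝ} (hφ : C.Sm φ) {g : G → ℂ} (hg : C.Sm g) (j : Fin n) :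
    C.Sm (C.dv c φ j g) := C.HB2_sm_dv hφ hg j

omit [T2Space G] [LocallyCompactSpace G] [SecondCountableTopology G]
  [MeasurableSpace G] [BorelSpace G] in
private theorem HB2_comm {c : Fin n → ℂ} {φ : G → ℝ} (hφ : C.Sm φ) {g : G → ℂ} (hg : C.Sm g)
    (j k : Fin n) (x : G) : C.Xb k (C.dv c φ j g) x = C.dv c φ j (C.Xb k g) x -
      C.X j (C.Xb k (fun y => (φ y : ℂ))) x * g x := by
  have hφ' := C.sm_ofReal.2 hφ
  have h1 : C.Xb k (C.dv c φ j g) x = C.Xb k (C.X j g) x -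
      (C.Xb k (C.X j (fun y => (φ y : ℂ))) x * g x +
        (C.X j (fun y => (φ y : ℂ)) x + c j) * C.Xb k g x) := by
    have h2 : C.dv c φ j g = fun x => C.X j g x - (C.X j (fun y => (φ y : ℂ)) x + c j) * g x := rfl
    rw [h2, C.Xb_sub (C.sm_X hg j)
      (C.sm_mul (C.sm_add (C.sm_X hφ' j) (C.sm_const (c j))) hg),
      C.Xb_mul (f := fun x => C.X j (fun y => (φ y : ℂ)) x + c j)
        (C.sm_add (C.sm_X hφ' j) (C.sm_const (c j))) hg,
      C.Xb_add (C.sm_X hφ' j) (C.sm_const (c j)), C.Xb_const, add_zero]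
  rw [h1, ← C.X_Xb_comm hg, ← C.X_Xb_comm hφ', dv]
  ring

omit [Group G] [TopologicalSpace G] [IsTopologicalGroup G] [T2Space G]
  [LocallyCompactSpace G] [SecondCountableTopology G] [BorelSpace G] [μ.IsHaarMeasure] in
private theorem HB2_sum (F : Fin n → Fin n → G → ℂ) (hF : ∀ j k, Integrable (F j k) μ) :
    ∫ x, (∑ j, ∑ k, F j k x).re ∂μ = (∑ j, ∑ k, ∫ x, F j k x ∂μ).re := by
  have h1 : Integrable (fun x => ∑ j, ∑ k, F j k x) μ :=
    integrable_finset_sum _ fun j _ => integrable_finset_sum _ fun k _ => hF j k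
  have h2 := integral_re h1
  have h3 : ∫ x, (∑ j, ∑ k, F j k x) ∂μ = ∑ j, ∑ k, ∫ x, F j k x ∂μ := by
    rw [integral_finset_sum _ fun j _ => integrable_finset_sum _ fun k _ => hF j k]
    refine Finset.sum_congr rfl fun j _ => ?_
    rw [integral_finset_sum _ fun k _ => hF j k]
  rw [h3] at h2
  exact h2

/-- The basic identity. Expand the square; for each pair
`∫ dv_j γ_j conj(dv_k γ_k) e = -∫ Xb_k (dv_j γ_j) conj(γ_k) e` (`adj`),
`Xb_k (dv_j γ_j) = dv_j (Xb_k γ_j) - (X_j Xb_k φ) γ_j` (`X_Xb_comm`), and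
`-∫ dv_j (Xb_k γ_j) conj(γ_k) e = ∫ Xb_k γ_j conj(Xb_j γ_k) e` (conjugate of `adj`). -/
theorem basic_identity {c : Fin n → ℂ} (hc : C.IsPart μ c) {φ : G → ℝ} (hφ : C.Sm φ)
    {γ : Fin n → G → ℂ} (hγ : ∀ j, C.Sm (γ j)) (hs : ∀ j, HasCompactSupport (γ j)) :
    ∫ x, ‖C.dvg c φ γ x‖ ^ 2 * Real.exp (-φ x) ∂μ =
      ∫ x, (∑ j, ∑ k, C.Xb k (γ j) x * (starRingEnd ℂ) (C.Xb j (γ k) x)).re *
        Real.exp (-φ x) ∂μ +
      ∫ x, C.Lv φ x (fun j => γ j x) * Real.exp (-φ x) ∂μ := by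
  have he := C.HB2_sm_e hφ
  have hφ' := C.sm_ofReal.2 hφ
  have i1 : ∀ j k, Integrable (fun x => C.dv c φ j (γ j) x *
      (starRingEnd ℂ) (C.dv c φ k (γ k) x) * (Real.exp (-φ x) : ℂ)) μ := fun j k =>
    HB2_int C μ (C.sm_mul (C.sm_mul (C.sm_dv hφ (hγ j) j) (C.sm_conj (C.sm_dv hφ (hγ k) k))) he)
      (HB2_cs_mul (Or.inl (HB2_cs_dv C (hs j) j)) _)
  have i2 : ∀ j k, Integrable (fun x => C.Xb k (γ j) x *
      (starRingEnd ℂ) (C.Xb j (γ k) x) * (Real.exp (-φ x) : ℂ)) μ := fun j k =>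
    HB2_int C μ (C.sm_mul (C.sm_mul (C.sm_Xb (hγ j) k) (C.sm_conj (C.sm_Xb (hγ k) j))) he)
      (HB2_cs_mul (Or.inl (HB2_cs_Xb C (hs j) k)) _)
  have i3 : ∀ j k, Integrable (fun x => γ j x * (starRingEnd ℂ) (γ k x) *
      (C.X j (C.Xb k (fun y => (φ y : ℂ))) x * (Real.exp (-φ x) : ℂ))) μ := fun j k =>
    HB2_int C μ (C.sm_mul (C.sm_mul (hγ j) (C.sm_conj (hγ k)))
      (C.sm_mul (C.sm_X (C.sm_Xb hφ' k) j) he)) (HB2_cs_mul (Or.inl (hs j)) _)
  have i4 : ∀ j k, Integrable (fun x => C.dv c φ j (C.Xb k (γ j)) x *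
      (starRingEnd ℂ) (γ k x) * (Real.exp (-φ x) : ℂ)) μ := fun j k =>
    HB2_int C μ (C.sm_mul (C.sm_mul (C.sm_dv hφ (C.sm_Xb (hγ j) k) j) (C.sm_conj (hγ k))) he)
      (HB2_cs_mul (Or.inr (HB2_cs_conj (hs k))) _)
  have hpair : ∀ j k, ∫ x, C.dv c φ j (γ j) x *
      (starRingEnd ℂ) (C.dv c φ k (γ k) x) * (Real.exp (-φ x) : ℂ) ∂μ =
      ∫ x, C.Xb k (γ j) x * (starRingEnd ℂ) (C.Xb j (γ k) x) * (Real.exp (-φ x) : ℂ) ∂μ +
      ∫ x, γ j x * (starRingEnd ℂ) (γ k x) *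
        (C.X j (C.Xb k (fun y => (φ y : ℂ))) x * (Real.exp (-φ x) : ℂ)) ∂μ := by
    intro j k
    have h1 := C.adj μ hc hφ (C.sm_dv (c := c) hφ (hγ j) j) (hγ k) (Or.inr (hs k)) k
    have h2 : ∀ x, C.Xb k (C.dv c φ j (γ j)) x * (starRingEnd ℂ) (γ k x) *
        (Real.exp (-φ x) : ℂ) =
        C.dv c φ j (C.Xb k (γ j)) x * (starRingEnd ℂ) (γ k x) * (Real.exp (-φ x) : ℂ) -
        γ j x * (starRingEnd ℂ) (γ k x) *
          (C.X j (C.Xb k (fun y => (φ y : ℂ))) x * (Real.exp (-φ x) : ℂ)) := by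
      intro x
      rw [HB2_comm C hφ (hγ j)]
      ring
    simp only [h2] at h1
    rw [integral_sub (i4 j k) (i3 j k)] at h1
    have h3 := C.adj μ hc hφ (hγ k) (C.sm_Xb (hγ j) k) (Or.inl (hs k)) j
    have h4 := congrArg (starRingEnd ℂ) h3
    rw [map_neg, ← integral_conj, ← integral_conj] at h4
    simp only [map_mul, Complex.conj_conj, Complex.conj_ofReal] at h4
    have h5 : ∀ x, (starRingEnd ℂ) (C.Xb j (γ k) x) * C.Xb k (γ j) x * (Real.exp (-φ x) : ℂ) =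
        C.Xb k (γ j) x * (starRingEnd ℂ) (C.Xb j (γ k) x) * (Real.exp (-φ x) : ℂ) := by
      intro x
      ring
    have h6 : ∀ x, (starRingEnd ℂ) (γ k x) * C.dv c φ j (C.Xb k (γ j)) x *
        (Real.exp (-φ x) : ℂ) =
        C.dv c φ j (C.Xb k (γ j)) x * (starRingEnd ℂ) (γ k x) * (Real.exp (-φ x) : ℂ) := by
      intro x
      ring
    simp only [h5, h6] at h4
    linear_combination h1 - h4
  have e1 := HB2_sum μ _ i1
  have e2 := HB2_sum μ _ i2
  have e3 := HB2_sum μ _ i3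
  have f1 : ∀ x, (∑ j, ∑ k, C.dv c φ j (γ j) x * (starRingEnd ℂ) (C.dv c φ k (γ k) x) *
      (Real.exp (-φ x) : ℂ)).re = ‖C.dvg c φ γ x‖ ^ 2 * Real.exp (-φ x) := by
    intro x
    have g1 : ∑ j, ∑ k, C.dv c φ j (γ j) x * (starRingEnd ℂ) (C.dv c φ k (γ k) x) *
        (Real.exp (-φ x) : ℂ) = ((‖C.dvg c φ γ x‖ ^ 2 * Real.exp (-φ x) : ℝ) : ℂ) := by
      push_cast
      rw [← Complex.mul_conj', dvg, map_sum, Finset.sum_mul_sum, Finset.sum_mul]
      refine Finset.sum_congr rfl fun j _ => ?_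
      rw [Finset.sum_mul]
    rw [g1, Complex.ofReal_re]
  have f2 : ∀ x, (∑ j, ∑ k, C.Xb k (γ j) x * (starRingEnd ℂ) (C.Xb j (γ k) x) *
      (Real.exp (-φ x) : ℂ)).re =
      (∑ j, ∑ k, C.Xb k (γ j) x * (starRingEnd ℂ) (C.Xb j (γ k) x)).re * Real.exp (-φ x) := by
    intro x
    rw [← Complex.re_mul_ofReal, Finset.sum_mul]
    congr 1
    refine Finset.sum_congr rfl fun j _ => ?_
    rw [Finset.sum_mul]
  have f3 : ∀ x, (∑ j, ∑ k, γ j x * (starRingEnd ℂ) (γ k x) *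
      (C.X j (C.Xb k (fun y => (φ y : ℂ))) x * (Real.exp (-φ x) : ℂ))).re =
      C.Lv φ x (fun j => γ j x) * Real.exp (-φ x) := by
    intro x
    rw [Lv, ← Complex.re_mul_ofReal, Finset.sum_mul]
    congr 1
    refine Finset.sum_congr rfl fun j _ => ?_
    rw [Finset.sum_mul]
    refine Finset.sum_congr rfl fun k _ => ?_
    ring
  simp only [f1] at e1
  simp only [f2] at e2
  simp only [f3] at e3
  rw [e1, e2, e3, ← Complex.add_re, ← Finset.sum_add_distrib]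
  congr 1
  refine Finset.sum_congr rfl fun j _ => ?_
  rw [← Finset.sum_add_distrib]
  refine Finset.sum_congr rfl fun k _ => ?_
  exact hpair j k

end CLG

end HR
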