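import Pool.Agent.W_06f097_h43.HB2
import Pool.Agent.W_06f097_h43.HB4
import Pool.Agent.W_06f097_h43.ME5

/-! MP_06f097_an blueprint, block HB: vector fields with finite energy in the metric of a
potential `σ`; projection of a compactly supported field on the gradients. -/

open scoped Topology ContDiff
open MeasureTheory Set Filter Metric

noncomputable section

namespace HR

namespace CLG

/-! ### Pointwise algebra -/

section pointwise

variable {n : ℕ} {G : Type*} [Group G] [TopologicalSpace G] [IsTopologicalGroup G] (C : CLG n G)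

/-- the sesquilinear form belonging to `Lv` -/
def HB5_B (σ : G → ℝ) (x : G) (b d : En n) : ℂ :=
  ∑ j, ∑ k, b j * (starRingEnd ℂ) (d k) * C.gm σ x j k

omit [IsTopologicalGroup G] in
theorem HB5_Lv (σ : G → ℝ) (x : G) (b : En n) : C.Lv σ x b = (C.HB5_B σ x b b).re := rfl

theorem HB5_B_conj {σ : G → ℝ} (hσ : C.Sm σ) (x : G) (b d : En n) :
    (starRingEnd ℂ) (C.HB5_B σ x b d) = C.HB5_B σ x d b := by
  unfold HB5_B
  simp only [map_sum, map_mul, Complex.conj_conj]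
  rw [Finset.sum_comm]
  refine Finset.sum_congr rfl fun j _ => Finset.sum_congr rfl fun k _ => ?_
  rw [C.gm_herm hσ x j k]
  ring

theorem HB5_expand {σ : G → ℝ} (hσ : C.Sm σ) (x : G) (b d : En n) (z : ℂ) :
    C.Lv σ x (fun j => b j - z * d j) =
      C.Lv σ x b - 2 * ((starRingEnd ℂ) z * C.HB5_B σ x b d).re + ‖z‖ ^ 2 * C.Lv σ x d := by
  have e : C.HB5_B σ x (fun j => b j - z * d j) (fun j => b j - z * d j) =
      C.HB5_B σ x b b - (starRingEnd ℂ) z * C.HB5_B σ x b d - z * C.HB5_B σ x d b +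
        (z * (starRingEnd ℂ) z) * C.HB5_B σ x d d := by
    unfold HB5_B
    simp only [Finset.mul_sum, ← Finset.sum_sub_distrib, ← Finset.sum_add_distrib]
    refine Finset.sum_congr rfl fun j _ => Finset.sum_congr rfl fun k _ => ?_
    rw [map_sub, map_mul]
    ring
  have e2 : z * C.HB5_B σ x d b = (starRingEnd ℂ) ((starRingEnd ℂ) z * C.HB5_B σ x b d) := by
    rw [map_mul, Complex.conj_conj, C.HB5_B_conj hσ]
  rw [HB5_Lv, HB5_Lv, HB5_Lv, e, e2, Complex.mul_conj, Complex.normSq_eq_norm_sq, Complex.add_re,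
    Complex.sub_re, Complex.sub_re, Complex.conj_re, Complex.re_ofReal_mul]
  ring

theorem HB5_zero (σ : G → ℝ) (x : G) : C.Lv σ x (fun _ => 0) = 0 := by
  rw [HB5_Lv, HB5_B]
  simp

theorem HB5_mul {σ : G → ℝ} (hσ : C.Sm σ) (x : G) (d : En n) (z : ℂ) :
    C.Lv σ x (fun j => z * d j) = ‖z‖ ^ 2 * C.Lv σ x d := by
  have h := C.HB5_expand hσ x (fun _ => 0) d (-z)
  have e : C.HB5_B σ x (fun _ => 0) d = 0 := by simp [HB5_B]
  rw [e, mul_zero, C.HB5_zero, norm_neg] at h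
  simp only [zero_sub, neg_mul, neg_neg] at h
  rw [h]
  simp

theorem HB5_le {σ : G → ℝ} (hσ : C.Sm σ) {x : G} (h : ∀ b, 0 ≤ C.Lv σ x b) (b d : En n) (z : ℂ) :
    C.Lv σ x (fun j => b j - z * d j) ≤ 2 * C.Lv σ x b + 2 * ‖z‖ ^ 2 * C.Lv σ x d := by
  have h1 := C.HB5_expand hσ x b d z
  have h2 := C.HB5_expand hσ x b d (-z)
  have h3 := h (fun j => b j - -z * d j)
  rw [h2, map_neg, norm_neg, neg_mul, Complex.neg_re] at h3
  rw [h1]
  linarith

theorem HB5_parallel {σ : G → ℝ} (hσ : C.Sm σ) (x : G) (g d d' : En n) :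
    C.Lv σ x (fun j => d j - d' j) = 2 * C.Lv σ x (fun j => g j - d j) +
      2 * C.Lv σ x (fun j => g j - d' j) -
      4 * C.Lv σ x (fun j => g j - (1 / 2 * d j + 1 / 2 * d' j)) := by
  have e1 : (fun j => d j - d' j) = fun j => (g j - d' j) - 1 * (g j - d j) := by
    funext j
    ring
  have e2 : (fun j => g j - (1 / 2 * d j + 1 / 2 * d' j)) =
      fun j => (1 / 2 : ℂ) * ((g j - d' j) - (-1) * (g j - d j)) := by
    funext j
    ring
  have h2 := C.HB5_mul hσ x (fun j => (g j - d' j) - (-1) * (g j - d j)) (1 / 2)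
  have h3 := C.HB5_expand hσ x (fun j => g j - d' j) (fun j => g j - d j) (-1)
  have h4 := C.HB5_expand hσ x (fun j => g j - d' j) (fun j => g j - d j) 1
  rw [e1, e2, h2, h3, h4]
  simp only [map_one, map_neg, one_mul, norm_one, norm_neg, neg_mul, Complex.neg_re, norm_div,
    Complex.norm_ofNat]
  ring

/-- pairing with a gradient -/
theorem HB5_pair {σ : G → ℝ} (hσ : C.Sm σ) (h : ∀ x b, b ≠ 0 → 0 < C.Lv σ x b) (N : G → ℂ)
    (x : G) (b : En n) :
    C.HB5_B σ x b (fun j => C.grad σ N j x) = ∑ j, b j * (starRingEnd ℂ) (C.Xb j N x) := by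
  unfold HB5_B
  refine Finset.sum_congr rfl fun j _ => ?_
  rw [← C.lower_grad hσ h N j x, lower, map_sum, Finset.mul_sum]
  refine Finset.sum_congr rfl fun k _ => ?_
  rw [map_mul, C.gm_herm hσ x j k]
  ring

theorem HB5_Xb_lin {N N' : G → ℂ} (hN : C.Sm N) (hN' : C.Sm N') (a a' : ℂ) (j : Fin n) (x : G) :
    C.Xb j (fun y => a * N y + a' * N' y) x = a * C.Xb j N x + a' * C.Xb j N' x := by
  rw [C.Xb_add (C.sm_mul (C.sm_const a) hN) (C.sm_mul (C.sm_const a') hN'),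
    C.Xb_mul (C.sm_const a) hN, C.Xb_mul (C.sm_const a') hN', C.Xb_const, C.Xb_const]
  ring

theorem HB5_grad_lin (σ : G → ℝ) {N N' : G → ℂ} (hN : C.Sm N) (hN' : C.Sm N') (a a' : ℂ)
    (j : Fin n) (x : G) :
    C.grad σ (fun y => a * N y + a' * N' y) j x = a * C.grad σ N j x + a' * C.grad σ N' j x := by
  have e : (fun m => C.Xb m (fun y => a * N y + a' * N' y) x) =
      a • (fun m => C.Xb m N x) + a' • (fun m => C.Xb m N' x) := by
    funext m
    rw [C.HB5_Xb_lin hN hN']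
    rfl
  unfold grad
  rw [e, Matrix.mulVec_add, Matrix.mulVec_smul, Matrix.mulVec_smul]
  rfl

theorem HB5_Xb_zero {N : G → ℂ} {x : G} (hx : x ∉ tsupport N) (m : Fin n) : C.Xb m N x = 0 := by
  have h : N =ᶠ[𝓝 x] fun _ => 0 := notMem_tsupport_iff_eventuallyEq.1 hx
  rw [C.Xb_congr h, C.Xb_const]

theorem HB5_grad_zero (σ : G → ℝ) {N : G → ℂ} {x : G} (hx : x ∉ tsupport N) (j : Fin n) :
    C.grad σ N j x = 0 := by
  have e : (fun m => C.Xb m N x) = 0 := by
    funext m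
    exact C.HB5_Xb_zero hx m
  unfold grad
  rw [e, Matrix.mulVec_zero]
  rfl

end pointwise

/-! ### Energy -/

section energy

variable {n : ℕ} {G : Type*} [Group G] [TopologicalSpace G] [IsTopologicalGroup G]
  [MeasurableSpace G] [BorelSpace G] (C : CLG n G)

theorem HB5_meas {σ : G → ℝ} (hσ : C.Sm σ) {b : Fin n → G → ℂ} (hb : ∀ j, Measurable (b j)) :
    Measurable (fun x => C.Lv σ x (fun j => b j x)) := by
  refine Complex.measurable_re.comp (Finset.measurable_fun_sum _ fun j _ =>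
    Finset.measurable_fun_sum _ fun k _ => ?_)
  exact ((hb j).mul (Complex.continuous_conj.measurable.comp (hb k))).mul
    (C.sm_continuous (C.sm_gm hσ j k)).measurable

/-- finite energy -/
def HB5_FE (μ : Measure G) (σ φ : G → ℝ) (b : Fin n → G → ℂ) : Prop :=
  (∀ j, Measurable (b j)) ∧
    Integrable (fun x => C.Lv σ x (fun j => b j x) * Real.exp (-φ x)) μ

theorem HB5_fe_sub {μ : Measure G} {σ φ : G → ℝ} (hσ : C.Sm σ) (h : ∀ x b, 0 ≤ C.Lv σ x b)
    (hφ : Continuous φ) {b d : Fin n → G → ℂ} (hb : C.HB5_FE μ σ φ b) (hd : C.HB5_FE μ σ φ d)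
    (z : ℂ) : C.HB5_FE μ σ φ (fun j x => b j x - z * d j x) := by
  have hm : ∀ j, Measurable (fun x => b j x - z * d j x) :=
    fun j => (hb.1 j).sub ((hd.1 j).const_mul z)
  refine ⟨hm, Integrable.mono' ((hb.2.const_mul 2).add (hd.2.const_mul (2 * ‖z‖ ^ 2))) ?_ ?_⟩
  · exact ((C.HB5_meas hσ hm).mul
      (Real.continuous_exp.comp hφ.neg).measurable).aestronglyMeasurable
  · filter_upwards with x
    have h1 := C.HB5_le hσ (h x) (fun j => b j x) (fun j => d j x) z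
    rw [Real.norm_eq_abs, abs_of_nonneg (mul_nonneg (h x _) (Real.exp_pos _).le)]
    have h2 := mul_le_mul_of_nonneg_right h1 (Real.exp_pos (-φ x)).le
    simp only [Pi.add_apply]
    linarith

theorem HB5_fe_cont [T2Space G] {μ : Measure G} [IsFiniteMeasureOnCompacts μ] {σ φ : G → ℝ}
    (hσ : C.Sm σ) (hφ : Continuous φ) {b : Fin n → G → ℂ} (hb : ∀ j, Continuous (b j))
    {K : Set G} (hK : IsCompact K) (hz : ∀ j x, x ∉ K → b j x = 0) :
    C.HB5_FE μ σ φ b := by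
  refine ⟨fun j => (hb j).measurable, ?_⟩
  refine Continuous.integrable_of_hasCompactSupport ?_ ?_
  · exact (C.Lv_continuous hσ (b := fun x j => b j x) (continuous_pi hb)).mul
      (Real.continuous_exp.comp hφ.neg)
  · refine HasCompactSupport.intro hK fun x hx => ?_
    have e : (fun j => b j x) = fun _ => 0 := funext fun j => hz j x hx
    rw [e, C.HB5_zero, zero_mul]

end energy

variable {n : ℕ} {G : Type*} [Group G] [TopologicalSpace G] [IsTopologicalGroup G] [T2Space G]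
  [LocallyCompactSpace G] [SecondCountableTopology G] [MeasurableSpace G] [BorelSpace G]
  (C : CLG n G) (μ : Measure G) [μ.IsHaarMeasure]

omit [μ.IsHaarMeasure] in
/-- a measurable positive lower bound for the form -/
theorem HB5_t {σ : G → ℝ} (hσ : C.Sm σ) (hpos : ∀ x b, b ≠ 0 → 0 < C.Lv σ x b) :
    ∃ t : G → ℝ, Measurable t ∧ (∀ x, 0 < t x) ∧
      ∀ x (b : En n), t x * ‖b‖ ^ 2 ≤ C.Lv σ x b := by
  classical
  have h1 : ∀ m : ℕ, ∃ lam : ℝ, 0 < lam ∧ ∀ x ∈ compactCovering G m, ∀ b : En n,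
      lam * ∑ j, ‖b j‖ ^ 2 ≤ C.Lv σ x b := by
    intro m
    obtain ⟨lam, hl, h⟩ := C.Lv_bounds hσ (isCompact_compactCovering G m)
      fun x _ b hb => hpos x b hb
    exact ⟨lam, hl, fun x hx b => (h x hx b).1⟩
  choose lam hl h using h1
  refine ⟨fun x => lam (Nat.find (exists_mem_compactCovering x)), ?_, fun x => hl _,
    fun x b => ?_⟩
  · exact (measurable_from_top (f := lam)).comp (measurable_find _ fun k =>
      (isCompact_compactCovering G k).measurableSet)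
  · refine le_trans ?_ (h _ x (Nat.find_spec (exists_mem_compactCovering x)) b)
    refine mul_le_mul_of_nonneg_left ?_ (hl _).le
    have hS : 0 ≤ ∑ j, ‖b j‖ ^ 2 := Finset.sum_nonneg fun j _ => sq_nonneg _
    have h2 : ‖b‖ ≤ √(∑ j, ‖b j‖ ^ 2) := by
      rw [pi_norm_le_iff_of_nonneg (Real.sqrt_nonneg _)]
      intro j
      refine Real.le_sqrt_of_sq_le ?_
      exact Finset.single_le_sum (f := fun j => ‖b j‖ ^ 2) (fun i _ => sq_nonneg _)
        (Finset.mem_univ j)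
    calc ‖b‖ ^ 2 ≤ √(∑ j, ‖b j‖ ^ 2) ^ 2 := pow_le_pow_left₀ (norm_nonneg _) h2 2
      _ = _ := Real.sq_sqrt hS

omit [μ.IsHaarMeasure] in
theorem HB5_ae {σ φ : G → ℝ} (hσ : C.Sm σ) (hpos : ∀ x b, b ≠ 0 → 0 < C.Lv σ x b)
    (hφ : Continuous φ) {β : ℕ → Fin n → G → ℂ} (hf : ∀ k, C.HB5_FE μ σ φ (β k))
    (hC : ∀ ε : ℝ, 0 < ε → ∃ N, ∀ k, N ≤ k → ∀ m, N ≤ m →
      ∫ x, C.Lv σ x (fun j => β k j x - β m j x) * Real.exp (-φ x) ∂μ < ε) :
    ∃ (m : ℕ → ℕ) (β' : Fin n → G → ℂ), (∀ i, i ≤ m i) ∧ (∀ j, Measurable (β' j)) ∧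
      ∀ᵐ x ∂μ, Tendsto (fun i => (fun j => β (m i) j x : En n)) atTop (𝓝 fun j => β' j x) := by
  have h0 : ∀ x b, 0 ≤ C.Lv σ x b := by
    intro x b
    by_cases hb : b = 0
    · subst hb
      exact (C.HB5_zero σ x).ge
    · exact (hpos x b hb).le
  obtain ⟨t, htm, ht0, ht⟩ := C.HB5_t hσ hpos
  have h1 : ∀ N : ℕ, ∃ M, ∀ k, M ≤ k → ∀ m, M ≤ m →
      ∫ x, C.Lv σ x (fun j => β k j x - β m j x) * Real.exp (-φ x) ∂μ < ((1 / 2 : ℝ) ^ N) ^ 2 :=
    fun N => hC _ (by positivity)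
  choose M hM using h1
  obtain ⟨m, hm⟩ : ∃ m : ℕ → ℕ, m = fun i => (∑ j ∈ Finset.range (i + 1), M j) + i := ⟨_, rfl⟩
  have hmM : ∀ N i, N ≤ i → M N ≤ m i := by
    intro N i hNi
    rw [hm]
    have := Finset.single_le_sum (f := M) (fun j _ => Nat.zero_le _)
      (Finset.mem_range.2 (Nat.lt_succ_of_le hNi))
    exact this.trans (Nat.le_add_right _ _)
  have hwm : Measurable fun x => √(t x * Real.exp (-φ x)) :=
    (htm.mul (Real.continuous_exp.comp hφ.neg).measurable).sqrt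
  obtain ⟨u, hu⟩ : ∃ u : ℕ → G → En n, u = fun i x =>
      ((√(t x * Real.exp (-φ x)) : ℝ) : ℂ) • fun j => β (m i) j x := ⟨_, rfl⟩
  have hum : ∀ i, Measurable (u i) := by
    intro i
    rw [hu]
    refine measurable_pi_iff.2 fun j => ?_
    exact (Complex.measurable_ofReal.comp hwm).mul ((hf (m i)).1 j)
  have hsub : ∀ i i' x, ‖(u i - u i') x‖ ^ 2 ≤
      C.Lv σ x (fun j => β (m i) j x - 1 * β (m i') j x) * Real.exp (-φ x) := by
    intro i i' x
    have e : (u i - u i') x = ((√(t x * Real.exp (-φ x)) : ℝ) : ℂ) •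
        fun j => β (m i) j x - 1 * β (m i') j x := by
      rw [hu, Pi.sub_apply]
      simp only
      rw [← smul_sub]
      congr 1
      funext j
      simp
    rw [e, norm_smul, Complex.norm_real, mul_pow, Real.norm_eq_abs, sq_abs,
      Real.sq_sqrt (mul_pos (ht0 x) (Real.exp_pos _)).le]
    have h2 := mul_le_mul_of_nonneg_right (ht x fun j => β (m i) j x - 1 * β (m i') j x)
      (Real.exp_pos (-φ x)).le
    linarith
  have hfe : ∀ i i', C.HB5_FE μ σ φ (fun j x => β (m i) j x - 1 * β (m i') j x) :=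
    fun i i' => C.HB5_fe_sub hσ h0 hφ (hf _) (hf _) 1
  have hsq : ∀ i i', Integrable (fun x => ‖(u i - u i') x‖ ^ 2) μ := by
    intro i i'
    refine Integrable.mono' (hfe i i').2 ?_ ?_
    · exact (((hum i).sub (hum i')).norm.pow_const 2).aestronglyMeasurable
    · filter_upwards with x
      rw [Real.norm_eq_abs, abs_of_nonneg (sq_nonneg _)]
      exact hsub i i' x
  have hlp : ∀ i i', MemLp (u i - u i') 2 μ := fun i i' =>
    (memLp_two_iff_integrable_sq_norm ((hum i).sub (hum i')).aestronglyMeasurable).2 (hsq i i')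
  have hcau : ∀ N i i' : ℕ, N ≤ i → N ≤ i' →
      eLpNorm (u i - u i') 2 μ < ENNReal.ofReal ((1 / 2 : ℝ) ^ N) := by
    intro N i i' h2 h3
    have h4 : ∫ x, ‖(u i - u i') x‖ ^ 2 ∂μ < ((1 / 2 : ℝ) ^ N) ^ 2 := by
      refine lt_of_le_of_lt (integral_mono (hsq i i') (hfe i i').2 (hsub i i')) ?_
      simp only [one_mul]
      exact hM N (m i) (hmM N i h2) (m i') (hmM N i' h3)
    rw [MemLp.eLpNorm_eq_integral_rpow_norm two_ne_zero ENNReal.ofNat_ne_top (hlp i i'),
      ENNReal.toReal_ofNat, ENNReal.ofReal_lt_ofReal_iff (by positivity)]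
    simp only [Real.rpow_two]
    rw [← one_div, ← Real.sqrt_eq_rpow, Real.sqrt_lt' (by positivity)]
    exact h4
  have hae := Lp.ae_tendsto_of_cauchy_eLpNorm (μ := μ) (p := 2) (f := u)
    (fun i => (hum i).aestronglyMeasurable) (by norm_num)
    (B := fun N => ENNReal.ofReal ((1 / 2 : ℝ) ^ N))
    (summable_geometric_two.tsum_ofReal_ne_top) hcau
  have hae2 : ∀ᵐ x ∂μ, ∃ l : En n,
      Tendsto (fun i => (fun j => β (m i) j x : En n)) atTop (𝓝 l) := by
    filter_upwards [hae] with x hx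
    obtain ⟨l, hl⟩ := hx
    refine ⟨((√(t x * Real.exp (-φ x)) : ℝ) : ℂ)⁻¹ • l, ?_⟩
    have hw : ((√(t x * Real.exp (-φ x)) : ℝ) : ℂ) ≠ 0 := by
      rw [Ne, Complex.ofReal_eq_zero]
      exact (Real.sqrt_pos.2 (mul_pos (ht0 x) (Real.exp_pos _))).ne'
    have h2 := hl.const_smul (((√(t x * Real.exp (-φ x)) : ℝ) : ℂ)⁻¹)
    refine h2.congr fun i => ?_
    rw [hu]
    simp only
    rw [smul_smul, inv_mul_cancel₀ hw, one_smul]
  obtain ⟨F, hF, hF2⟩ := measurable_limit_of_tendsto_metrizable_ae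
    (f := fun i x => (fun j => β (m i) j x : En n))
    (fun i => (measurable_pi_iff.2 (hf (m i)).1).aemeasurable) hae2
  refine ⟨m, fun j x => F x j, fun i => ?_, fun j => (measurable_pi_apply j).comp hF, hF2⟩
  rw [hm]
  exact Nat.le_add_left _ _


/-- Completeness of the space of vector fields with `∫ Lv σ(β) exp(-φ) < ∞`. Proof: a continuous
function `t > 0` on `G` with `t(x) Σ |b_j|² ≤ Lv σ x b` (e.g. `det / (1 + trace)^(n-1)` of the matrix
`gm`, or by `Lv_bounds` on a compact exhaustion); the components are Cauchy in `L²(t exp(-φ) μ)`, so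
a subsequence converges almost everywhere; then Fatou. -/
theorem field_limit {σ φ : G → ℝ} (hσ : C.Sm σ) (hpos : ∀ x b, b ≠ 0 → 0 < C.Lv σ x b)
    (hφ : Continuous φ) {β : ℕ → Fin n → G → ℂ} (hm : ∀ k j, Measurable (β k j))
    (hi : ∀ k, Integrable (fun x => C.Lv σ x (fun j => β k j x) * Real.exp (-φ x)) μ)
    (hC : ∀ ε : ℝ, 0 < ε → ∃ N, ∀ k, N ≤ k → ∀ m, N ≤ m →
      ∫ x, C.Lv σ x (fun j => β k j x - β m j x) * Real.exp (-φ x) ∂μ < ε) :
    ∃ β' : Fin n → G → ℂ, (∀ j, Measurable (β' j)) ∧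
      Integrable (fun x => C.Lv σ x (fun j => β' j x) * Real.exp (-φ x)) μ ∧
      Tendsto (fun k => ∫ x, C.Lv σ x (fun j => β k j x - β' j x) * Real.exp (-φ x) ∂μ)
        atTop (𝓝 0) := by
  have h0 : ∀ x b, 0 ≤ C.Lv σ x b := by
    intro x b
    by_cases hb : b = 0
    · subst hb
      exact (C.HB5_zero σ x).ge
    · exact (hpos x b hb).le
  have hf : ∀ k, C.HB5_FE μ σ φ (β k) := fun k => ⟨hm k, hi k⟩
  obtain ⟨m, β', hmi, hβ', hae⟩ := C.HB5_ae μ hσ hpos hφ hf hC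
  have hexp : Measurable fun x => Real.exp (-φ x) :=
    (Real.continuous_exp.comp hφ.neg).measurable
  have key : ∀ ε : ℝ, 0 < ε → ∃ N, ∀ k, N ≤ k →
      Integrable (fun x => C.Lv σ x (fun j => β k j x - 1 * β' j x) * Real.exp (-φ x)) μ ∧
      ∫ x, C.Lv σ x (fun j => β k j x - 1 * β' j x) * Real.exp (-φ x) ∂μ ≤ ε := by
    intro ε hε
    obtain ⟨N, hN⟩ := hC ε hε
    refine ⟨N, fun k hk => ?_⟩
    have hm1 : ∀ i, Measurable fun x =>
        C.Lv σ x (fun j => β k j x - 1 * β (m i) j x) * Real.exp (-φ x) := fun i =>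
      (C.HB5_meas hσ fun j => (hm k j).sub ((hm (m i) j).const_mul 1)).mul hexp
    have hm2 : Measurable fun x =>
        C.Lv σ x (fun j => β k j x - 1 * β' j x) * Real.exp (-φ x) :=
      (C.HB5_meas hσ fun j => (hm k j).sub ((hβ' j).const_mul 1)).mul hexp
    have hlim : ∀ᵐ x ∂μ, Tendsto (fun i => ENNReal.ofReal
        (C.Lv σ x (fun j => β k j x - 1 * β (m i) j x) * Real.exp (-φ x))) atTop
        (𝓝 (ENNReal.ofReal
          (C.Lv σ x (fun j => β k j x - 1 * β' j x) * Real.exp (-φ x)))) := by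
      filter_upwards [hae] with x hx
      refine (ENNReal.continuous_ofReal.tendsto _).comp (Tendsto.mul_const _ ?_)
      have hcont : Continuous fun b : En n => C.Lv σ x b := by
        refine Complex.continuous_re.comp (continuous_finsetSum _ fun j _ =>
          continuous_finsetSum _ fun k _ => ?_)
        exact ((continuous_apply j).mul (Complex.continuous_conj.comp (continuous_apply k))).mul
          continuous_const
      refine (hcont.tendsto _).comp ?_
      rw [tendsto_pi_nhds] at hx ⊢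
      intro j
      exact tendsto_const_nhds.sub ((hx j).const_mul 1)
    have hle : ∀ i, N ≤ i → ∫⁻ x, ENNReal.ofReal
        (C.Lv σ x (fun j => β k j x - 1 * β (m i) j x) * Real.exp (-φ x)) ∂μ ≤
        ENNReal.ofReal ε := by
      intro i hNi
      have hfe := (C.HB5_fe_sub hσ h0 hφ (hf k) (hf (m i)) 1).2
      rw [← ofReal_integral_eq_lintegral_ofReal hfe
        (Eventually.of_forall fun x => mul_nonneg (h0 x _) (Real.exp_pos _).le)]
      refine ENNReal.ofReal_le_ofReal ?_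
      simp only [one_mul]
      exact (hN k hk (m i) (hNi.trans (hmi i))).le
    have hfat : ∫⁻ x, ENNReal.ofReal
        (C.Lv σ x (fun j => β k j x - 1 * β' j x) * Real.exp (-φ x)) ∂μ ≤ ENNReal.ofReal ε := by
      calc ∫⁻ x, ENNReal.ofReal
            (C.Lv σ x (fun j => β k j x - 1 * β' j x) * Real.exp (-φ x)) ∂μ
          = ∫⁻ x, liminf (fun i => ENNReal.ofReal
              (C.Lv σ x (fun j => β k j x - 1 * β (m i) j x) * Real.exp (-φ x))) atTop ∂μ := by
            refine lintegral_congr_ae ?_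
            filter_upwards [hlim] with x hx
            exact hx.liminf_eq.symm
        _ ≤ liminf (fun i => ∫⁻ x, ENNReal.ofReal
              (C.Lv σ x (fun j => β k j x - 1 * β (m i) j x) * Real.exp (-φ x)) ∂μ) atTop :=
            lintegral_liminf_le fun i => (hm1 i).ennreal_ofReal
        _ ≤ limsup (fun i => ∫⁻ x, ENNReal.ofReal
              (C.Lv σ x (fun j => β k j x - 1 * β (m i) j x) * Real.exp (-φ x)) ∂μ) atTop :=
            liminf_le_limsup
        _ ≤ ENNReal.ofReal ε := by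
            refine limsup_le_of_le (h := ?_)
            filter_upwards [eventually_ge_atTop N] with i hi using hle i hi
    have hint : Integrable (fun x =>
        C.Lv σ x (fun j => β k j x - 1 * β' j x) * Real.exp (-φ x)) μ := by
      refine ⟨hm2.aestronglyMeasurable, ?_⟩
      rw [hasFiniteIntegral_iff_ofReal
        (Eventually.of_forall fun x => mul_nonneg (h0 x _) (Real.exp_pos _).le)]
      exact lt_of_le_of_lt hfat ENNReal.ofReal_lt_top
    refine ⟨hint, ?_⟩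
    rw [← ofReal_integral_eq_lintegral_ofReal hint
      (Eventually.of_forall fun x => mul_nonneg (h0 x _) (Real.exp_pos _).le)] at hfat
    exact (ENNReal.ofReal_le_ofReal_iff hε.le).1 hfat
  refine ⟨β', hβ', ?_, ?_⟩
  · obtain ⟨N, hN⟩ := key 1 one_pos
    have h1 := (hN N le_rfl).1
    have h2 : C.HB5_FE μ σ φ (fun j x => β N j x - 1 * β' j x) :=
      ⟨fun j => (hm N j).sub ((hβ' j).const_mul 1), h1⟩
    have h3 := (C.HB5_fe_sub hσ h0 hφ (hf N) h2 1).2
    refine h3.congr ?_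
    filter_upwards with x
    simp only [one_mul, sub_sub_cancel]
  · rw [Metric.tendsto_atTop]
    intro ε hε
    obtain ⟨N, hN⟩ := key (ε / 2) (by positivity)
    refine ⟨N, fun k hk => ?_⟩
    have h1 := (hN k hk).2
    simp only [one_mul] at h1
    rw [Real.dist_eq, sub_zero, abs_of_nonneg (integral_nonneg fun x =>
      mul_nonneg (h0 x _) (Real.exp_pos _).le)]
    linarith

omit [T2Space G] [LocallyCompactSpace G] [SecondCountableTopology G] [MeasurableSpace G]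
  [BorelSpace G] in
theorem HB5_nonneg {σ : G → ℝ} (hpos : ∀ x b, b ≠ 0 → 0 < C.Lv σ x b) (x : G) (b : En n) :
    0 ≤ C.Lv σ x b := by
  by_cases hb : b = 0
  · subst hb
    exact (C.HB5_zero σ x).ge
  · exact (hpos x b hb).le

/-- continuity of linear functionals with compact support -/
theorem HB5_fun {σ φ : G → ℝ} (hσ : C.Sm σ) (hpos : ∀ x b, b ≠ 0 → 0 < C.Lv σ x b)
    (hφ : Continuous φ) {h : Fin n → G → ℂ} (hh : ∀ j, Continuous (h j)) {K : Set G}
    (hK : IsCompact K) (hz : ∀ j x, x ∉ K → h j x = 0) :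
    ∃ A : ℝ, 0 ≤ A ∧ ∀ b : Fin n → G → ℂ, C.HB5_FE μ σ φ b →
      (∀ j, Integrable (fun x => b j x * h j x) μ) ∧ ∀ δ : ℝ, 0 < δ →
      ‖∫ x, ∑ j, b j x * h j x ∂μ‖ ≤
        A * (δ + δ⁻¹ * ∫ x, C.Lv σ x (fun j => b j x) * Real.exp (-φ x) ∂μ) := by
  have h0 := C.HB5_nonneg hpos
  obtain ⟨lam, hl, hlam⟩ := C.Lv_bounds hσ hK fun x _ b hb => hpos x b hb
  obtain ⟨M, hM⟩ := hK.exists_bound_of_continuousOn hφ.continuousOn
  have hH : Integrable (fun x => ∑ j, ‖h j x‖ ^ 2) μ := by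
    refine Continuous.integrable_of_hasCompactSupport
      (continuous_finsetSum _ fun j _ => (hh j).norm.pow 2)
      (HasCompactSupport.intro hK fun x hx => ?_)
    refine Finset.sum_eq_zero fun j _ => ?_
    rw [hz j x hx]
    simp
  obtain ⟨c1, hc1⟩ : ∃ c1 : ℝ, c1 = lam⁻¹ * Real.exp M := ⟨_, rfl⟩
  have hc10 : 0 < c1 := by
    rw [hc1]
    exact mul_pos (inv_pos.2 hl) (Real.exp_pos _)
  have hpt : ∀ (b : En n) (x : G) (δ : ℝ), 0 < δ → ∑ j, ‖b j * h j x‖ ≤
      δ * (∑ j, ‖h j x‖ ^ 2) + δ⁻¹ * (c1 * (C.Lv σ x b * Real.exp (-φ x))) := by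
    intro b x δ hδ
    have hδ' : 0 < δ⁻¹ := inv_pos.2 hδ
    by_cases hx : x ∈ K
    · have h1 : ∑ j, ‖b j * h j x‖ ≤ δ * (∑ j, ‖h j x‖ ^ 2) + δ⁻¹ * ∑ j, ‖b j‖ ^ 2 := by
        rw [Finset.mul_sum, Finset.mul_sum, ← Finset.sum_add_distrib]
        refine Finset.sum_le_sum fun j _ => ?_
        rw [norm_mul]
        have h2 : 0 ≤ δ⁻¹ * (δ * ‖h j x‖ - ‖b j‖) ^ 2 := by positivity
        have h3 : δ⁻¹ * (δ * ‖h j x‖ - ‖b j‖) ^ 2 =
            δ * ‖h j x‖ ^ 2 - 2 * (‖b j‖ * ‖h j x‖) + δ⁻¹ * ‖b j‖ ^ 2 := by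
          field_simp
          ring
        rw [h3] at h2
        have h4 : 0 ≤ ‖b j‖ * ‖h j x‖ := by positivity
        linarith
      have h2 : ∑ j, ‖b j‖ ^ 2 ≤ c1 * (C.Lv σ x b * Real.exp (-φ x)) := by
        have h3 := (hlam x hx b).1
        have h4 : ∑ j, ‖b j‖ ^ 2 ≤ lam⁻¹ * C.Lv σ x b := by
          rw [inv_mul_eq_div, le_div_iff₀ hl]
          linarith
        have h5 : (1 : ℝ) ≤ Real.exp M * Real.exp (-φ x) := by
          rw [← Real.exp_add]
          refine Real.one_le_exp ?_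
          have h6 := hM x hx
          rw [Real.norm_eq_abs] at h6
          have h7 := le_abs_self (φ x)
          linarith
        have h6 : 0 ≤ lam⁻¹ * C.Lv σ x b := mul_nonneg (inv_pos.2 hl).le (h0 x b)
        calc ∑ j, ‖b j‖ ^ 2 ≤ lam⁻¹ * C.Lv σ x b * 1 := by rw [mul_one]; exact h4
          _ ≤ lam⁻¹ * C.Lv σ x b * (Real.exp M * Real.exp (-φ x)) :=
            mul_le_mul_of_nonneg_left h5 h6
          _ = c1 * (C.Lv σ x b * Real.exp (-φ x)) := by rw [hc1]; ring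
      have h3 := mul_le_mul_of_nonneg_left h2 hδ'.le
      linarith
    · have h1 : ∑ j, ‖b j * h j x‖ = 0 := by
        refine Finset.sum_eq_zero fun j _ => ?_
        rw [hz j x hx, mul_zero, norm_zero]
      rw [h1]
      have h2 : 0 ≤ ∑ j, ‖h j x‖ ^ 2 := Finset.sum_nonneg fun j _ => sq_nonneg _
      have h3 := mul_nonneg (h0 x b) (Real.exp_pos (-φ x)).le
      positivity
  refine ⟨(∫ x, ∑ j, ‖h j x‖ ^ 2 ∂μ) + c1, ?_, ?_⟩
  · have : 0 ≤ ∫ x, ∑ j, ‖h j x‖ ^ 2 ∂μ :=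
      integral_nonneg fun x => Finset.sum_nonneg fun j _ => sq_nonneg _
    linarith
  · intro b hb
    have hbd : ∀ δ : ℝ, Integrable (fun x => δ * (∑ j, ‖h j x‖ ^ 2) +
        δ⁻¹ * (c1 * (C.Lv σ x (fun j => b j x) * Real.exp (-φ x)))) μ := fun δ =>
      (hH.const_mul δ).add ((hb.2.const_mul c1).const_mul δ⁻¹)
    refine ⟨fun j => Integrable.mono' (hbd 1) ?_ ?_, fun δ hδ => ?_⟩
    · exact ((hb.1 j).mul (hh j).measurable).aestronglyMeasurable
    · filter_upwards with x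
      refine le_trans ?_ (hpt (fun j => b j x) x 1 one_pos)
      exact Finset.single_le_sum (f := fun j => ‖b j x * h j x‖) (fun i _ => norm_nonneg _)
        (Finset.mem_univ j)
    · have h1 : ‖∫ x, ∑ j, b j x * h j x ∂μ‖ ≤ ∫ x, (δ * (∑ j, ‖h j x‖ ^ 2) +
          δ⁻¹ * (c1 * (C.Lv σ x (fun j => b j x) * Real.exp (-φ x)))) ∂μ := by
        refine norm_integral_le_of_norm_le (hbd δ) ?_
        filter_upwards with x
        exact (norm_sum_le _ _).trans (hpt (fun j => b j x) x δ hδ)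
      rw [integral_add (hH.const_mul δ) ((hb.2.const_mul c1).const_mul δ⁻¹),
        integral_const_mul, integral_const_mul, integral_const_mul] at h1
      refine h1.trans ?_
      have h2 : 0 ≤ ∫ x, ∑ j, ‖h j x‖ ^ 2 ∂μ :=
        integral_nonneg fun x => Finset.sum_nonneg fun j _ => sq_nonneg _
      have h3 : 0 ≤ ∫ x, C.Lv σ x (fun j => b j x) * Real.exp (-φ x) ∂μ :=
        integral_nonneg fun x => mul_nonneg (h0 x _) (Real.exp_pos _).le
      have h4 : 0 ≤ δ⁻¹ * ∫ x, C.Lv σ x (fun j => b j x) * Real.exp (-φ x) ∂μ :=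
        mul_nonneg (inv_pos.2 hδ).le h3
      nlinarith [mul_nonneg h2 h4, mul_nonneg hc10.le hδ.le]

theorem HB5_lim {σ φ : G → ℝ} (hσ : C.Sm σ) (hpos : ∀ x b, b ≠ 0 → 0 < C.Lv σ x b)
    (hφ : Continuous φ) {h : Fin n → G → ℂ} (hh : ∀ j, Continuous (h j)) {K : Set G}
    (hK : IsCompact K) (hz : ∀ j x, x ∉ K → h j x = 0) {β : ℕ → Fin n → G → ℂ}
    (hβ : ∀ k, C.HB5_FE μ σ φ (β k)) {β' : Fin n → G → ℂ} (hβ' : C.HB5_FE μ σ φ β')
    (ht : Tendsto (fun k => ∫ x, C.Lv σ x (fun j => β k j x - β' j x) * Real.exp (-φ x) ∂μ)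
      atTop (𝓝 0)) :
    Tendsto (fun k => ∫ x, ∑ j, β k j x * h j x ∂μ) atTop
      (𝓝 (∫ x, ∑ j, β' j x * h j x ∂μ)) := by
  have h0 := C.HB5_nonneg hpos
  obtain ⟨A, hA, hfun⟩ := C.HB5_fun μ hσ hpos hφ hh hK hz
  rw [Metric.tendsto_atTop] at ht ⊢
  intro ε hε
  obtain ⟨δ, hδ⟩ : ∃ δ : ℝ, δ = ε / (2 * A + 1) := ⟨_, rfl⟩
  have hδ0 : 0 < δ := by rw [hδ]; positivity
  obtain ⟨N, hN⟩ := ht (δ * δ) (by positivity)
  refine ⟨N, fun k hk => ?_⟩
  have h1 := hN k hk
  rw [Real.dist_eq, sub_zero] at h1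
  have h2 := lt_of_le_of_lt (le_abs_self _) h1
  have hfe := C.HB5_fe_sub hσ h0 hφ (hβ k) hβ' 1
  have h3 := (hfun _ hfe).2 δ hδ0
  simp only [one_mul] at h3
  have h4 : ∫ x, ∑ j, (β k j x - β' j x) * h j x ∂μ =
      (∫ x, ∑ j, β k j x * h j x ∂μ) - ∫ x, ∑ j, β' j x * h j x ∂μ := by
    rw [← integral_sub (integrable_finsetSum _ fun j _ => (hfun _ (hβ k)).1 j)
      (integrable_finsetSum _ fun j _ => (hfun _ hβ').1 j)]
    refine integral_congr_ae ?_
    filter_upwards with x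
    rw [← Finset.sum_sub_distrib]
    refine Finset.sum_congr rfl fun j _ => ?_
    ring
  rw [h4] at h3
  rw [dist_eq_norm]
  refine lt_of_le_of_lt h3 ?_
  have h5 : δ⁻¹ * ∫ x, C.Lv σ x (fun j => β k j x - β' j x) * Real.exp (-φ x) ∂μ ≤ δ := by
    calc δ⁻¹ * ∫ x, C.Lv σ x (fun j => β k j x - β' j x) * Real.exp (-φ x) ∂μ
        ≤ δ⁻¹ * (δ * δ) := mul_le_mul_of_nonneg_left h2.le (inv_pos.2 hδ0).le
      _ = δ := by field_simp
  have h6 : A * (δ + δ⁻¹ * ∫ x, C.Lv σ x (fun j => β k j x - β' j x) * Real.exp (-φ x) ∂μ) ≤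
      A * (δ + δ) := mul_le_mul_of_nonneg_left (by linarith) hA
  refine lt_of_le_of_lt h6 ?_
  have h7 : δ * (2 * A + 1) = ε := by
    rw [hδ]
    field_simp
  nlinarith

/-- gradients are closed in the weak sense -/
theorem HB5_wc {c : Fin n → ℂ} (hc : C.IsPart μ c) {cc : Fin n → Fin n → Fin n → ℂ}
    (hcc : ∀ (f : G → ℂ), C.Sm f → ∀ (l k : Fin n) (x : G),
      C.Xb l (C.Xb k f) x - C.Xb k (C.Xb l f) x = ∑ m, cc l k m * C.Xb m f x)
    {N τ : G → ℂ} (hN : C.Sm N) (hτ : C.Sm τ) (hτc : HasCompactSupport τ) (k l : Fin n) :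
    ∫ x, (C.Xb k N x * (C.Xb l τ x - (starRingEnd ℂ) (c l) * τ x) -
      C.Xb l N x * (C.Xb k τ x - (starRingEnd ℂ) (c k) * τ x) +
      ∑ m, cc l k m * C.Xb m N x * τ x) ∂μ = 0 := by
  have hs : ∀ i, HasCompactSupport (fun x => C.Xb i N x * τ x) := fun i => hτc.mul_left
  have hsm : ∀ i, C.Sm (fun x => C.Xb i N x * τ x) := fun i => C.sm_mul (C.sm_Xb hN i) hτ
  have hint : ∀ i, Integrable (fun x => C.Xb i N x * τ x) μ := fun i =>
    (C.sm_continuous (hsm i)).integrable_of_hasCompactSupport (hs i)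
  have hint2 : ∀ i i', Integrable (C.Xb i' (fun x => C.Xb i N x * τ x)) μ := by
    intro i i'
    refine (C.sm_continuous (C.sm_Xb (hsm i) i')).integrable_of_hasCompactSupport ?_
    refine HasCompactSupport.intro (hs i).isCompact fun x hx => ?_
    exact C.HB5_Xb_zero hx i'
  have h1 := (hc _ (hsm k) (hs k) l).2
  have h2 := (hc _ (hsm l) (hs l) k).2
  have e : ∀ x, C.Xb k N x * (C.Xb l τ x - (starRingEnd ℂ) (c l) * τ x) -
      C.Xb l N x * (C.Xb k τ x - (starRingEnd ℂ) (c k) * τ x) +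
      ∑ m, cc l k m * C.Xb m N x * τ x =
      (C.Xb l (fun x => C.Xb k N x * τ x) x - (starRingEnd ℂ) (c l) * (C.Xb k N x * τ x)) -
      (C.Xb k (fun x => C.Xb l N x * τ x) x - (starRingEnd ℂ) (c k) * (C.Xb l N x * τ x)) := by
    intro x
    rw [C.Xb_mul (C.sm_Xb hN k) hτ, C.Xb_mul (C.sm_Xb hN l) hτ, ← Finset.sum_mul,
      ← hcc N hN l k x]
    ring
  simp only [e]
  have hi : ∀ i i', Integrable (fun x => C.Xb i' (fun x => C.Xb i N x * τ x) x -
      (starRingEnd ℂ) (c i') * (C.Xb i N x * τ x)) μ := fun i i' =>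
    (hint2 i i').sub ((hint i).const_mul _)
  rw [integral_sub (hi k l) (hi l k), integral_sub (hint2 k l) ((hint k).const_mul _),
    integral_sub (hint2 l k) ((hint l).const_mul _), integral_const_mul, integral_const_mul,
    h1, h2]
  ring

theorem HB5_fe_sub' {σ φ : G → ℝ} (hσ : C.Sm σ) (h : ∀ x b, 0 ≤ C.Lv σ x b)
    (hφ : Continuous φ) {b d : Fin n → G → ℂ} (hb : C.HB5_FE μ σ φ b) (hd : C.HB5_FE μ σ φ d) :
    C.HB5_FE μ σ φ (fun j x => b j x - d j x) := by
  have h1 := C.HB5_fe_sub hσ h hφ hb hd 1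
  simpa only [one_mul] using h1

theorem HB5_fe_grad {σ φ : G → ℝ} (hσ : C.Sm σ) (hpos : ∀ x b, b ≠ 0 → 0 < C.Lv σ x b)
    (hφ : Continuous φ) {N : G → ℂ} (hN : C.Sm N) (hNc : HasCompactSupport N) :
    C.HB5_FE μ σ φ (C.grad σ N) :=
  C.HB5_fe_cont hσ hφ (fun j => C.sm_continuous (C.sm_grad hσ hpos hN j)) hNc.isCompact
    fun j _ hx => C.HB5_grad_zero σ hx j

/-- the projection on the closure of the gradients -/
theorem HB5_proj {σ φ : G → ℝ} (hσ : C.Sm σ) (hpos : ∀ x b, b ≠ 0 → 0 < C.Lv σ x b)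
    (hφ : Continuous φ) {γ : Fin n → G → ℂ} (hγ : C.HB5_FE μ σ φ γ) :
    ∃ (β : Fin n → G → ℂ) (N : ℕ → G → ℂ), C.HB5_FE μ σ φ β ∧ (∀ k, C.Sm (N k)) ∧
      (∀ k, HasCompactSupport (N k)) ∧
      Tendsto (fun k => ∫ x, C.Lv σ x (fun j => C.grad σ (N k) j x - β j x) *
        Real.exp (-φ x) ∂μ) atTop (𝓝 0) ∧
      ∀ τ : G → ℂ, C.Sm τ → HasCompactSupport τ →
        ∫ x, ∑ j, (γ j x - β j x) * ((starRingEnd ℂ) (C.Xb j τ x) * (Real.exp (-φ x) : ℂ)) ∂μ =
          0 := by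
  have h0 := C.HB5_nonneg hpos
  obtain ⟨S, hS⟩ : ∃ S : Set (G → ℂ), S = {N | C.Sm N ∧ HasCompactSupport N} := ⟨_, rfl⟩
  obtain ⟨L, hL⟩ : ∃ L : (G → ℂ) → G → ℝ, L = fun N x =>
      C.Lv σ x (fun j => γ j x - C.grad σ N j x) * Real.exp (-φ x) := ⟨_, rfl⟩
  obtain ⟨J, hJ⟩ : ∃ J : (G → ℂ) → ℝ, J = fun N => ∫ x, L N x ∂μ := ⟨_, rfl⟩
  have hJ0 : ∀ N, 0 ≤ J N := by
    intro N
    rw [hJ, hL]
    exact integral_nonneg fun x => mul_nonneg (h0 x _) (Real.exp_pos _).le
  have hSc : ∀ N ∈ S, ∀ N' ∈ S, ∀ a a' : ℂ, (fun y => a * N y + a' * N' y) ∈ S := by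
    intro N hN N' hN' a a'
    rw [hS] at hN hN' ⊢
    exact ⟨C.sm_add (C.sm_mul (C.sm_const a) hN.1) (C.sm_mul (C.sm_const a') hN'.1),
      (hN.2.mul_left (f := fun _ => a)).add (hN'.2.mul_left (f := fun _ => a'))⟩
  have hzS : (fun _ => (0 : ℂ)) ∈ S := by
    rw [hS]
    exact ⟨C.sm_const 0, HasCompactSupport.zero⟩
  have hgFE : ∀ N ∈ S, C.HB5_FE μ σ φ (C.grad σ N) := by
    intro N hN
    rw [hS] at hN
    exact C.HB5_fe_grad μ hσ hpos hφ hN.1 hN.2
  have hdFE : ∀ N ∈ S, C.HB5_FE μ σ φ (fun j x => γ j x - C.grad σ N j x) := fun N hN =>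
    C.HB5_fe_sub' μ hσ h0 hφ hγ (hgFE N hN)
  have hLi : ∀ N ∈ S, Integrable (fun x => L N x) μ := by
    intro N hN
    rw [hL]
    exact (hdFE N hN).2
  obtain ⟨m, hm⟩ : ∃ m : ℝ, m = sInf (J '' S) := ⟨_, rfl⟩
  have hbdd : BddBelow (J '' S) := ⟨0, by
    rintro _ ⟨N, _, rfl⟩
    exact hJ0 N⟩
  have hmle : ∀ N ∈ S, m ≤ J N := by
    intro N hN
    rw [hm]
    exact csInf_le hbdd (mem_image_of_mem J hN)
  have hex : ∀ k : ℕ, ∃ N ∈ S, J N < m + 1 / ((k : ℝ) + 1) := by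
    intro k
    have h1 : sInf (J '' S) < m + 1 / ((k : ℝ) + 1) := by
      rw [← hm]
      have : (0 : ℝ) < 1 / ((k : ℝ) + 1) := by positivity
      linarith
    obtain ⟨_, ⟨N, hN, rfl⟩, h2⟩ := exists_lt_of_csInf_lt (Set.Nonempty.image J ⟨_, hzS⟩) h1
    exact ⟨N, hN, h2⟩
  choose N hNS hNJ using hex
  -- parallelogram identity
  have hpar : ∀ k l, ∫ x, C.Lv σ x (fun j => C.grad σ (N k) j x - C.grad σ (N l) j x) *
      Real.exp (-φ x) ∂μ = 2 * J (N k) + 2 * J (N l) -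
        4 * J (fun y => 1 / 2 * N k y + 1 / 2 * N l y) := by
    intro k l
    have hmid := hSc _ (hNS k) _ (hNS l) (1 / 2) (1 / 2)
    rw [hJ]
    simp only
    have i1 : Integrable (fun x => 2 * L (N k) x + 2 * L (N l) x) μ :=
      ((hLi _ (hNS k)).const_mul 2).add ((hLi _ (hNS l)).const_mul 2)
    rw [← integral_const_mul, ← integral_const_mul, ← integral_const_mul,
      ← integral_add ((hLi _ (hNS k)).const_mul 2) ((hLi _ (hNS l)).const_mul 2),
      ← integral_sub i1 ((hLi _ hmid).const_mul 4)]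
    refine integral_congr_ae ?_
    filter_upwards with x
    rw [hL]
    simp only
    have h1 := C.HB5_parallel hσ x (fun j => γ j x) (fun j => C.grad σ (N k) j x)
      (fun j => C.grad σ (N l) j x)
    have hk := hNS k
    have hl := hNS l
    rw [hS] at hk hl
    have e : (fun j => γ j x - C.grad σ (fun y => 1 / 2 * N k y + 1 / 2 * N l y) j x) =
        fun j => γ j x - (1 / 2 * C.grad σ (N k) j x + 1 / 2 * C.grad σ (N l) j x) := by
      funext j
      rw [C.HB5_grad_lin σ hk.1 hl.1]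
    rw [e, h1]
    ring
  have hC : ∀ ε : ℝ, 0 < ε → ∃ K, ∀ k, K ≤ k → ∀ l, K ≤ l →
      ∫ x, C.Lv σ x (fun j => C.grad σ (N k) j x - C.grad σ (N l) j x) *
        Real.exp (-φ x) ∂μ < ε := by
    intro ε hε
    obtain ⟨K, hK⟩ := exists_nat_one_div_lt (show (0 : ℝ) < ε / 4 by positivity)
    refine ⟨K, fun k hk l hl => ?_⟩
    rw [hpar]
    have h1 := hmle _ (hSc _ (hNS k) _ (hNS l) (1 / 2) (1 / 2))
    have h2 := hNJ k
    have h3 := hNJ l
    have h4 : 1 / ((k : ℝ) + 1) ≤ 1 / ((K : ℝ) + 1) :=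
      one_div_le_one_div_of_le (by positivity) (by exact_mod_cast Nat.succ_le_succ hk)
    have h5 : 1 / ((l : ℝ) + 1) ≤ 1 / ((K : ℝ) + 1) :=
      one_div_le_one_div_of_le (by positivity) (by exact_mod_cast Nat.succ_le_succ hl)
    linarith
  obtain ⟨β, hβm, hβi, hβt⟩ := C.field_limit μ hσ hpos hφ (β := fun k => C.grad σ (N k))
    (fun k => (hgFE _ (hNS k)).1) (fun k => (hgFE _ (hNS k)).2) hC
  have hβ : C.HB5_FE μ σ φ β := ⟨hβm, hβi⟩
  refine ⟨β, N, hβ, fun k => ?_, fun k => ?_, hβt, ?_⟩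
  · have := hNS k
    rw [hS] at this
    exact this.1
  · have := hNS k
    rw [hS] at this
    exact this.2
  intro τ hτ hτc
  have hτS : τ ∈ S := by
    rw [hS]
    exact ⟨hτ, hτc⟩
  obtain ⟨h, hh⟩ : ∃ h : Fin n → G → ℂ, h = fun j x =>
      (starRingEnd ℂ) (C.Xb j τ x) * (Real.exp (-φ x) : ℂ) := ⟨_, rfl⟩
  have hhc : ∀ j, Continuous (h j) := by
    intro j
    rw [hh]
    exact (Complex.continuous_conj.comp (C.sm_continuous (C.sm_Xb hτ j))).mul
      (Complex.continuous_ofReal.comp (Real.continuous_exp.comp hφ.neg))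
  have hhz : ∀ j x, x ∉ tsupport τ → h j x = 0 := by
    intro j x hx
    rw [hh]
    simp only
    rw [C.HB5_Xb_zero hx, _root_.map_zero, zero_mul]
  obtain ⟨A, hA, hfun⟩ := C.HB5_fun μ hσ hpos hφ hhc hτc.isCompact hhz
  have hgoal : ∀ b : Fin n → G → ℂ, ∫ x, ∑ j, b j x *
      ((starRingEnd ℂ) (C.Xb j τ x) * (Real.exp (-φ x) : ℂ)) ∂μ = ∫ x, ∑ j, b j x * h j x ∂μ := by
    intro b
    rw [hh]
  rw [hgoal (fun j x => γ j x - β j x)]
  obtain ⟨E, hE⟩ : ∃ E : ℝ, E = ∫ x, C.Lv σ x (fun j => C.grad σ τ j x) *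
      Real.exp (-φ x) ∂μ := ⟨_, rfl⟩
  have hE0 : 0 ≤ E := by
    rw [hE]
    exact integral_nonneg fun x => mul_nonneg (h0 x _) (Real.exp_pos _).le
  obtain ⟨P, hP⟩ : ∃ P : ℕ → ℂ, P = fun k =>
      ∫ x, ∑ j, (γ j x - C.grad σ (N k) j x) * h j x ∂μ := ⟨_, rfl⟩
  have hFi : ∀ k, Integrable (fun x => ∑ j, (γ j x - C.grad σ (N k) j x) * h j x) μ := fun k =>
    integrable_finsetSum _ fun j _ => (hfun _ (hdFE _ (hNS k))).1 j
  have hquad : ∀ k (z : ℂ), J (fun y => 1 * N k y + z * τ y) =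
      J (N k) - 2 * ((starRingEnd ℂ) z * P k).re + ‖z‖ ^ 2 * E := by
    intro k z
    have h1 : ((starRingEnd ℂ) z * P k).re =
        ∫ x, ((starRingEnd ℂ) z * ∑ j, (γ j x - C.grad σ (N k) j x) * h j x).re ∂μ := by
      rw [hP]
      simp only
      rw [← integral_const_mul]
      exact (Complex.reCLM.integral_comp_comm ((hFi k).const_mul _)).symm
    rw [h1, hE, hJ]
    simp only
    have i1 : Integrable (fun x =>
        ((starRingEnd ℂ) z * ∑ j, (γ j x - C.grad σ (N k) j x) * h j x).re) μ :=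
      Complex.reCLM.integrable_comp ((hFi k).const_mul _)
    have i2 : Integrable (fun x => L (N k) x -
        2 * ((starRingEnd ℂ) z * ∑ j, (γ j x - C.grad σ (N k) j x) * h j x).re) μ :=
      (hLi _ (hNS k)).sub (i1.const_mul 2)
    have i3 : Integrable (fun x => ‖z‖ ^ 2 *
        (C.Lv σ x (fun j => C.grad σ τ j x) * Real.exp (-φ x))) μ :=
      (hgFE _ hτS).2.const_mul _
    rw [← integral_const_mul, ← integral_const_mul,
      ← integral_sub (hLi _ (hNS k)) (i1.const_mul 2), ← integral_add i2 i3]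
    refine integral_congr_ae ?_
    filter_upwards with x
    rw [hL]
    simp only
    have hk := hNS k
    rw [hS] at hk
    have e : (fun j => γ j x - C.grad σ (fun y => 1 * N k y + z * τ y) j x) =
        fun j => (γ j x - C.grad σ (N k) j x) - z * C.grad σ τ j x := by
      funext j
      rw [C.HB5_grad_lin σ hk.1 hτ]
      ring
    have e2 : ∑ j, (γ j x - C.grad σ (N k) j x) * h j x =
        C.HB5_B σ x (fun j => γ j x - C.grad σ (N k) j x) (fun j => C.grad σ τ j x) *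
          (Real.exp (-φ x) : ℂ) := by
      rw [C.HB5_pair hσ hpos, Finset.sum_mul, hh]
      refine Finset.sum_congr rfl fun j _ => ?_
      ring
    rw [e, C.HB5_expand hσ, e2, ← mul_assoc, Complex.re_mul_ofReal]
    ring
  have hPb : ∀ k, ‖P k‖ ^ 2 ≤ (E + 1) * (1 / ((k : ℝ) + 1)) := by
    intro k
    obtain ⟨ε, hε⟩ : ∃ ε : ℝ, ε = 1 / (E + 1) := ⟨_, rfl⟩
    have hε0 : 0 < ε := by rw [hε]; positivity
    have hεE : ε * (E + 1) = 1 := by rw [hε]; field_simp
    have h1 := hmle _ (hSc _ (hNS k) _ hτS 1 ((ε : ℂ) * P k))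
    rw [hquad k ((ε : ℂ) * P k)] at h1
    have h2 : ((starRingEnd ℂ) ((ε : ℂ) * P k) * P k).re = ε * ‖P k‖ ^ 2 := by
      rw [map_mul, Complex.conj_ofReal, mul_assoc, Complex.conj_mul', Complex.re_ofReal_mul,
        ← Complex.ofReal_pow, Complex.ofReal_re]
    have h3 : ‖(ε : ℂ) * P k‖ ^ 2 = ε ^ 2 * ‖P k‖ ^ 2 := by
      rw [norm_mul, mul_pow, Complex.norm_real, Real.norm_eq_abs, sq_abs]
    rw [h2, h3] at h1
    have h4 := hNJ k
    have h5 : ε ^ 2 * ‖P k‖ ^ 2 * E ≤ ε * ‖P k‖ ^ 2 := by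
      have h6 : ε * E ≤ 1 := by nlinarith
      have h7 : 0 ≤ ε * ‖P k‖ ^ 2 := by positivity
      calc ε ^ 2 * ‖P k‖ ^ 2 * E = (ε * E) * (ε * ‖P k‖ ^ 2) := by ring
        _ ≤ 1 * (ε * ‖P k‖ ^ 2) := mul_le_mul_of_nonneg_right h6 h7
        _ = _ := one_mul _
    have h6 : ε * ‖P k‖ ^ 2 ≤ 1 / ((k : ℝ) + 1) := by linarith
    calc ‖P k‖ ^ 2 = (E + 1) * (ε * ‖P k‖ ^ 2) := by
          rw [← mul_assoc, mul_comm (E + 1) ε, hεE, one_mul]
      _ ≤ _ := mul_le_mul_of_nonneg_left h6 (by linarith)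
  have hPt : Tendsto P atTop (𝓝 (∫ x, ∑ j, (γ j x - β j x) * h j x ∂μ)) := by
    have h1 := C.HB5_lim μ hσ hpos hφ hhc hτc.isCompact hhz
      (β := fun k j x => γ j x - C.grad σ (N k) j x) (fun k => hdFE _ (hNS k))
      (β' := fun j x => γ j x - β j x) (C.HB5_fe_sub' μ hσ h0 hφ hγ hβ) ?_
    · rw [hP]
      exact h1
    · refine hβt.congr fun k => integral_congr_ae ?_
      filter_upwards with x
      have e : (fun j => γ j x - C.grad σ (N k) j x - (γ j x - β j x)) =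
          fun j => (-1 : ℂ) * (C.grad σ (N k) j x - β j x) := by
        funext j
        ring
      rw [e, C.HB5_mul hσ, norm_neg, norm_one]
      ring
  have hsq := (hPt.norm.pow 2)
  have hz : Tendsto (fun k : ℕ => (E + 1) * (1 / ((k : ℝ) + 1))) atTop (𝓝 0) := by
    have := (tendsto_one_div_add_atTop_nhds_zero_nat (𝕜 := ℝ)).const_mul (E + 1)
    rwa [mul_zero] at this
  have hle := le_of_tendsto_of_tendsto' hsq hz hPb
  have h1 : ‖∫ x, ∑ j, (γ j x - β j x) * h j x ∂μ‖ ^ 2 = 0 := le_antisymm hle (sq_nonneg _)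
  exact norm_eq_zero.1 (pow_eq_zero_iff two_ne_zero |>.1 h1)

/-- fields orthogonal to the gradients of functions with compact support are orthogonal to all
admissible gradients -/
theorem HB5_pairing {s φ : G → ℝ} (hs : C.Kah s) (hφ : C.Psh φ) {b : Fin n → G → ℂ}
    (hb : C.HB5_FE μ (fun y => s y + s y ^ 2 + φ y) φ b)
    (horth : ∀ τ : G → ℂ, C.Sm τ → HasCompactSupport τ →
      ∫ x, ∑ j, b j x * ((starRingEnd ℂ) (C.Xb j τ x) * (Real.exp (-φ x) : ℂ)) ∂μ = 0)
    {v : G → ℂ} {ρ : G → ℝ} (hv : C.Sm v)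
    (hv2 : Integrable (fun x => ‖v x‖ ^ 2 * Real.exp (-φ x)) μ) (hρ0 : ∀ x, 0 ≤ ρ x)
    (hρ : Integrable (fun x => ρ x * Real.exp (-φ x)) μ)
    (hpt : ∀ x (b : En n), ‖∑ j, C.Xb j v x * (starRingEnd ℂ) (b j)‖ ^ 2 ≤ ρ x * C.Lv φ x b) :
    ∫ x, (∑ j, C.Xb j v x * (starRingEnd ℂ) (b j x)) * (Real.exp (-φ x) : ℂ) ∂μ = 0 := by
  obtain ⟨σ, hσe⟩ : ∃ σ : G → ℝ, σ = fun y => s y + s y ^ 2 + φ y := ⟨_, rfl⟩
  rw [← hσe] at hb
  have hσ : C.Sm σ := by rw [hσe]; exact C.pot_sm hs hφ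
  have hpos : ∀ x b, b ≠ 0 → 0 < C.Lv σ x b := by rw [hσe]; exact C.pot_pos hs hφ
  have h0 := C.HB5_nonneg hpos
  have hφc : Continuous φ := C.sm_continuous (C.sm_ofReal.1 hφ.1)
  have hge : ∀ x b, C.Lv φ x b ≤ C.Lv σ x b := by
    intro x b
    rw [hσe]
    exact (C.pot_ge hs hφ x b).1
  have hem : Measurable fun x => (Real.exp (-φ x) : ℂ) :=
    Complex.measurable_ofReal.comp (Real.continuous_exp.comp hφc.neg).measurable
  have hLm := C.HB5_meas hσ hb.1
  obtain ⟨B, hB, hcut0⟩ := C.exists_cutoffs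
  obtain ⟨w, hcut⟩ := hcut0 hs hφ
  have hcut' : ∀ k : ℕ, ∃ η : G → ℝ, C.Sm η ∧ HasCompactSupport η ∧ (∀ x, 0 ≤ η x) ∧
      (∀ x, η x ≤ 1) ∧ (∀ x, w x ≤ (k : ℝ) + 1 → η x = 1) ∧ ∀ x (b : En n),
        ‖∑ k, C.Xb k (fun y => (η y : ℂ)) x * (starRingEnd ℂ) (b k)‖ ^ 2 ≤
          B / ((k : ℝ) + 1) ^ 2 * C.Lv σ x b := by
    intro k
    have h1 := hcut ((k : ℝ) + 1) (by
      have : (0 : ℝ) ≤ k := Nat.cast_nonneg k
      linarith)
    rw [hσe]
    exact h1
  choose η hη1 hη2 hη3 hη4 hη5 hη6 using hcut'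
  have hηc : ∀ k, C.Sm (fun y => (η k y : ℂ)) := fun k => C.sm_ofReal.2 (hη1 k)
  -- measurability
  have hsm : ∀ {w : G → ℂ}, C.Sm w → Measurable fun x =>
      ∑ j, C.Xb j w x * (starRingEnd ℂ) (b j x) := fun {w} hw =>
    Finset.measurable_fun_sum _ fun j _ => (C.sm_continuous (C.sm_Xb hw j)).measurable.mul
      (Complex.continuous_conj.measurable.comp (hb.1 j))
  have hnorm : ∀ x, ‖∑ j, C.Xb j v x * (starRingEnd ℂ) (b j x)‖ ≤
      ρ x + C.Lv σ x (fun j => b j x) := by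
    intro x
    have h1 := hpt x (fun j => b j x)
    have h2 := mul_le_mul_of_nonneg_left (hge x fun j => b j x) (hρ0 x)
    have h3 := h0 x (fun j => b j x)
    have h4 := hρ0 x
    refine (pow_le_pow_iff_left₀ (norm_nonneg _) (by linarith) two_ne_zero).1 ?_
    nlinarith [mul_nonneg h4 h3, sq_nonneg (ρ x), sq_nonneg (C.Lv σ x fun j => b j x)]
  have hbdI : Integrable (fun x => (ρ x + C.Lv σ x (fun j => b j x)) * Real.exp (-φ x)) μ := by
    refine (hρ.add hb.2).congr ?_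
    filter_upwards with x
    simp only [Pi.add_apply]
    ring
  have hen : ∀ x, ‖(Real.exp (-φ x) : ℂ)‖ = Real.exp (-φ x) := by
    intro x
    rw [Complex.norm_real, Real.norm_eq_abs, abs_of_pos (Real.exp_pos _)]
  obtain ⟨I1, hI1⟩ : ∃ I1 : ℕ → G → ℂ, I1 = fun k x => (η k x : ℂ) *
      ((∑ j, C.Xb j v x * (starRingEnd ℂ) (b j x)) * (Real.exp (-φ x) : ℂ)) := ⟨_, rfl⟩
  obtain ⟨I2, hI2⟩ : ∃ I2 : ℕ → G → ℂ, I2 = fun k x => v x *
      ((∑ j, C.Xb j (fun y => (η k y : ℂ)) x * (starRingEnd ℂ) (b j x)) *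
        (Real.exp (-φ x) : ℂ)) := ⟨_, rfl⟩
  have hI1m : ∀ k, AEStronglyMeasurable (I1 k) μ := by
    intro k
    rw [hI1]
    exact ((C.sm_continuous (hηc k)).measurable.mul ((hsm hv).mul hem)).aestronglyMeasurable
  have hI2m : ∀ k, AEStronglyMeasurable (I2 k) μ := by
    intro k
    rw [hI2]
    exact ((C.sm_continuous hv).measurable.mul ((hsm (hηc k)).mul hem)).aestronglyMeasurable
  have hI1b : ∀ k x, ‖I1 k x‖ ≤ (ρ x + C.Lv σ x (fun j => b j x)) * Real.exp (-φ x) := by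
    intro k x
    rw [hI1]
    simp only
    rw [norm_mul, norm_mul, hen, Complex.norm_real, Real.norm_eq_abs, abs_of_nonneg (hη3 k x)]
    have h1 := mul_le_mul_of_nonneg_right (hnorm x) (Real.exp_pos (-φ x)).le
    have h2 : 0 ≤ ‖∑ j, C.Xb j v x * (starRingEnd ℂ) (b j x)‖ * Real.exp (-φ x) := by positivity
    have h3 := mul_le_mul_of_nonneg_right (hη4 k x) h2
    linarith
  have hI2b : ∀ k x, ‖I2 k x‖ ≤ (1 / ((k : ℝ) + 1)) * ((‖v x‖ ^ 2 * Real.exp (-φ x)) +
      B * (C.Lv σ x (fun j => b j x) * Real.exp (-φ x))) := by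
    intro k x
    rw [hI2]
    simp only
    rw [norm_mul, norm_mul, hen]
    have h1 := hη6 k x (fun j => b j x)
    obtain ⟨q, hq⟩ : ∃ q, q = ‖∑ j, C.Xb j (fun y => (η k y : ℂ)) x *
      (starRingEnd ℂ) (b j x)‖ := ⟨_, rfl⟩
    rw [← hq] at h1 ⊢
    have hq0 : 0 ≤ q := by rw [hq]; exact norm_nonneg _
    have hR : (0 : ℝ) < (k : ℝ) + 1 := by positivity
    have h2 : (((k : ℝ) + 1) * q) ^ 2 ≤ B * C.Lv σ x (fun j => b j x) := by
      rw [mul_pow]
      have h3 := mul_le_mul_of_nonneg_left h1 (sq_nonneg ((k : ℝ) + 1))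
      have h4 : ((k : ℝ) + 1) ^ 2 * (B / ((k : ℝ) + 1) ^ 2 * C.Lv σ x (fun j => b j x)) =
          B * C.Lv σ x (fun j => b j x) := by
        field_simp
      linarith
    have h3 : ‖v x‖ * q ≤ (1 / ((k : ℝ) + 1)) * (‖v x‖ ^ 2 + B * C.Lv σ x (fun j => b j x)) := by
      rw [one_div, inv_mul_eq_div, le_div_iff₀ hR]
      nlinarith [sq_nonneg (‖v x‖ - ((k : ℝ) + 1) * q), norm_nonneg (v x),
        mul_nonneg (norm_nonneg (v x)) (mul_nonneg hR.le hq0)]
    have h4 := mul_le_mul_of_nonneg_right h3 (Real.exp_pos (-φ x)).le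
    calc ‖v x‖ * (q * Real.exp (-φ x)) = ‖v x‖ * q * Real.exp (-φ x) := by ring
      _ ≤ _ := h4
      _ = _ := by ring
  have hI2I : Integrable (fun x => (‖v x‖ ^ 2 * Real.exp (-φ x)) +
      B * (C.Lv σ x (fun j => b j x) * Real.exp (-φ x))) μ := hv2.add (hb.2.const_mul B)
  have hI1i : ∀ k, Integrable (I1 k) μ := fun k =>
    Integrable.mono' hbdI (hI1m k) (Eventually.of_forall (hI1b k))
  have hI2i : ∀ k, Integrable (I2 k) μ := fun k =>
    Integrable.mono' (hI2I.const_mul _) (hI2m k) (Eventually.of_forall (hI2b k))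
  have hsum : ∀ k, ∫ x, I1 k x ∂μ = - ∫ x, I2 k x ∂μ := by
    intro k
    have h1 := horth (fun x => (η k x : ℂ) * v x) (C.sm_mul (hηc k) hv)
      (HasCompactSupport.mul_right (f := fun x => (η k x : ℂ))
        ((hη2 k).comp_left Complex.ofReal_zero))
    have h2 : ∀ x, ∑ j, b j x * ((starRingEnd ℂ) (C.Xb j (fun x => (η k x : ℂ) * v x) x) *
        (Real.exp (-φ x) : ℂ)) = (starRingEnd ℂ) (I1 k x + I2 k x) := by
      intro x
      rw [hI1, hI2]
      simp only [map_add, map_mul, map_sum, Complex.conj_ofReal, Complex.conj_conj,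
        Finset.mul_sum, Finset.sum_mul, ← Finset.sum_add_distrib]
      refine Finset.sum_congr rfl fun j _ => ?_
      rw [C.Xb_mul (hηc k) hv, map_add, map_mul, map_mul, Complex.conj_ofReal]
      ring
    simp only [h2] at h1
    rw [integral_conj, map_eq_zero, integral_add (hI1i k) (hI2i k)] at h1
    exact eq_neg_of_add_eq_zero_left h1
  have hlim1 : Tendsto (fun k => ∫ x, I1 k x ∂μ) atTop (𝓝 (∫ x,
      (∑ j, C.Xb j v x * (starRingEnd ℂ) (b j x)) * (Real.exp (-φ x) : ℂ) ∂μ)) := by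
    refine tendsto_integral_of_dominated_convergence _ hI1m hbdI
      (fun k => Eventually.of_forall (hI1b k)) (Eventually.of_forall fun x => ?_)
    refine tendsto_const_nhds.congr' ?_
    obtain ⟨K, hK⟩ := exists_nat_ge (w x)
    filter_upwards [eventually_ge_atTop K] with k hk
    have h1 : w x ≤ (k : ℝ) + 1 := by
      have : (K : ℝ) ≤ k := by exact_mod_cast hk
      linarith
    rw [hI1]
    simp only
    rw [hη5 k x h1, Complex.ofReal_one, one_mul]
  have hlim2 : Tendsto (fun k => ∫ x, I2 k x ∂μ) atTop (𝓝 0) := by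
    refine squeeze_zero_norm (a := fun k : ℕ => (1 / ((k : ℝ) + 1)) * ∫ x,
      ((‖v x‖ ^ 2 * Real.exp (-φ x)) + B * (C.Lv σ x (fun j => b j x) * Real.exp (-φ x))) ∂μ)
      (fun k => ?_) ?_
    · rw [← integral_const_mul]
      exact norm_integral_le_of_norm_le (hI2I.const_mul _) (Eventually.of_forall (hI2b k))
    · have := (tendsto_one_div_add_atTop_nhds_zero_nat (𝕜 := ℝ)).mul_const (∫ x,
        ((‖v x‖ ^ 2 * Real.exp (-φ x)) + B * (C.Lv σ x (fun j => b j x) *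
          Real.exp (-φ x))) ∂μ)
      rwa [zero_mul] at this
  have hlim3 : Tendsto (fun k => ∫ x, I1 k x ∂μ) atTop (𝓝 0) := by
    simp only [hsum]
    have := hlim2.neg
    rwa [neg_zero] at this
  exact tendsto_nhds_unique hlim1 hlim3

/-- Projection of a smooth compactly supported field `γ` on the closure of the gradients
`grad σ N`, `N` smooth with compact support, `σ = s + s² + φ`. Take a minimising sequence of
`∫ Lv σ(γ - grad σ N) exp(-φ)` (parallelogram identity: Cauchy), `β` its limit (`field_limit`).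
(1) orthogonality: `∫ Σ_j (γ_j - β_j) conj(Xb_j τ) exp(-φ) = 0` for `τ` smooth with compact support
(the pairing of a field `b` with `grad σ τ` in the metric is `Σ b_j conj(Xb_j τ)`); with `adj` this
gives `wd`. (2) `wc`: true for `grad σ N` (`lower_grad`, structure constants, integration by parts
`IsPart`), and passes to the limit (local `L²` convergence). (3) `pair`: by (1) for `τ = η_R v` with
the cutoffs of `exists_cutoffs`; `|Σ Xb_j v conj(b_j)| ≤ (ρ Lv σ(b))^(1/2)` is dominated, the term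
with the derivative of `η_R` tends to `0`. -/
theorem exists_field {c : Fin n → ℂ} (hc : C.IsPart μ c) {cc : Fin n → Fin n → Fin n → ℂ}
    (hcc : ∀ (f : G → ℂ), C.Sm f → ∀ (l k : Fin n) (x : G),
      C.Xb l (C.Xb k f) x - C.Xb k (C.Xb l f) x = ∑ m, cc l k m * C.Xb m f x)
    {s φ : G → ℝ} (hs : C.Kah s) (hφ : C.Psh φ) {γ : Fin n → G → ℂ} (hγ : ∀ j, C.Sm (γ j))
    (hγc : ∀ j, HasCompactSupport (γ j)) :
    ∃ β : Fin n → G → ℂ, (∀ j, Measurable (β j)) ∧
      Integrable (fun x => C.Lv (fun y => s y + s y ^ 2 + φ y) x (fun j => β j x) *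
        Real.exp (-φ x)) μ ∧
      (∀ τ : G → ℂ, C.Sm τ → HasCompactSupport τ →
        ∑ j, ∫ x, β j x * (starRingEnd ℂ) (C.Xb j τ x) * (Real.exp (-φ x) : ℂ) ∂μ =
          - ∫ x, C.dvg c φ γ x * (starRingEnd ℂ) (τ x) * (Real.exp (-φ x) : ℂ) ∂μ) ∧
      (∀ τ : G → ℂ, C.Sm τ → HasCompactSupport τ → ∀ k l : Fin n,
        ∫ x, (C.lower (fun y => s y + s y ^ 2 + φ y) β k x *
            (C.Xb l τ x - (starRingEnd ℂ) (c l) * τ x) -
          C.lower (fun y => s y + s y ^ 2 + φ y) β l x *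
            (C.Xb k τ x - (starRingEnd ℂ) (c k) * τ x) +
          ∑ m, cc l k m * C.lower (fun y => s y + s y ^ 2 + φ y) β m x * τ x) ∂μ = 0) ∧
      (∀ (v : G → ℂ) (ρ : G → ℝ), C.Sm v → Integrable (fun x => ‖v x‖ ^ 2 * Real.exp (-φ x)) μ →
        Measurable ρ → (∀ x, 0 ≤ ρ x) → Integrable (fun x => ρ x * Real.exp (-φ x)) μ →
        (∀ x (b : En n), ‖∑ j, C.Xb j v x * (starRingEnd ℂ) (b j)‖ ^ 2 ≤ ρ x * C.Lv φ x b) →
        ∫ x, (∑ j, C.Xb j v x * (starRingEnd ℂ) (γ j x)) * (Real.exp (-φ x) : ℂ) ∂μ =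
          ∫ x, (∑ j, C.Xb j v x * (starRingEnd ℂ) (β j x)) * (Real.exp (-φ x) : ℂ) ∂μ) := by
  obtain ⟨σ, hσe⟩ : ∃ σ : G → ℝ, σ = fun y => s y + s y ^ 2 + φ y := ⟨_, rfl⟩
  have hσ : C.Sm σ := by rw [hσe]; exact C.pot_sm hs hφ
  have hpos : ∀ x b, b ≠ 0 → 0 < C.Lv σ x b := by rw [hσe]; exact C.pot_pos hs hφ
  have h0 := C.HB5_nonneg hpos
  have hφs : C.Sm φ := C.sm_ofReal.1 hφ.1
  have hφc : Continuous φ := C.sm_continuous hφs
  have hec : Continuous fun x => (Real.exp (-φ x) : ℂ) :=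
    Complex.continuous_ofReal.comp (Real.continuous_exp.comp hφc.neg)
  have hKc : IsCompact (⋃ j, tsupport (γ j)) := isCompact_iUnion fun j => (hγc j).isCompact
  have hγFE : C.HB5_FE μ σ φ γ := by
    refine C.HB5_fe_cont hσ hφc (fun j => C.sm_continuous (hγ j)) hKc fun j x hx => ?_
    refine image_eq_zero_of_notMem_tsupport fun h => hx ?_
    exact mem_iUnion.2 ⟨j, h⟩
  obtain ⟨β, N, hβ, hN, hNc, hNt, horth⟩ := C.HB5_proj μ hσ hpos hφc hγFE
  rw [← hσe]
  refine ⟨β, hβ.1, hβ.2, ?_, ?_, ?_⟩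
  · intro τ hτ hτc
    obtain ⟨h, hh⟩ : ∃ h : Fin n → G → ℂ, h = fun j x =>
        (starRingEnd ℂ) (C.Xb j τ x) * (Real.exp (-φ x) : ℂ) := ⟨_, rfl⟩
    have hhc : ∀ j, Continuous (h j) := by
      intro j
      rw [hh]
      exact (Complex.continuous_conj.comp (C.sm_continuous (C.sm_Xb hτ j))).mul hec
    have hhz : ∀ j x, x ∉ tsupport τ → h j x = 0 := by
      intro j x hx
      rw [hh]
      simp only
      rw [C.HB5_Xb_zero hx, _root_.map_zero, zero_mul]
    obtain ⟨A, hA, hfun⟩ := C.HB5_fun μ hσ hpos hφc hhc hτc.isCompact hhz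
    have h1 := horth τ hτ hτc
    have h2 : ∫ x, ∑ j, (γ j x - β j x) * ((starRingEnd ℂ) (C.Xb j τ x) *
        (Real.exp (-φ x) : ℂ)) ∂μ = ∑ j, ∫ x, γ j x * h j x ∂μ - ∑ j, ∫ x, β j x * h j x ∂μ := by
      rw [← integral_finset_sum _ fun j _ => (hfun _ hγFE).1 j,
        ← integral_finset_sum _ fun j _ => (hfun _ hβ).1 j,
        ← integral_sub (integrable_finsetSum _ fun j _ => (hfun _ hγFE).1 j)
          (integrable_finsetSum _ fun j _ => (hfun _ hβ).1 j)]
      refine integral_congr_ae ?_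
      filter_upwards with x
      rw [← Finset.sum_sub_distrib]
      refine Finset.sum_congr rfl fun j _ => ?_
      rw [hh]
      ring
    rw [h2, sub_eq_zero] at h1
    have h3 : ∑ j, ∫ x, β j x * (starRingEnd ℂ) (C.Xb j τ x) * (Real.exp (-φ x) : ℂ) ∂μ =
        ∑ j, ∫ x, β j x * h j x ∂μ := by
      refine Finset.sum_congr rfl fun j _ => integral_congr_ae ?_
      filter_upwards with x
      rw [hh]
      ring
    rw [h3, ← h1]
    have h4 : ∀ j, ∫ x, γ j x * h j x ∂μ =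
        - ∫ x, C.dv c φ j (γ j) x * (starRingEnd ℂ) (τ x) * (Real.exp (-φ x) : ℂ) ∂μ := by
      intro j
      have h5 := congrArg (starRingEnd ℂ) (C.adj μ hc hφs hτ (hγ j) (Or.inl hτc) j)
      rw [map_neg, ← integral_conj, ← integral_conj] at h5
      have e1 : ∀ x, (starRingEnd ℂ) (C.Xb j τ x * (starRingEnd ℂ) (γ j x) *
          (Real.exp (-φ x) : ℂ)) = γ j x * h j x := by
        intro x
        rw [map_mul, map_mul, Complex.conj_conj, Complex.conj_ofReal, hh]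
        ring
      have e2 : ∀ x, (starRingEnd ℂ) (τ x * (starRingEnd ℂ) (C.dv c φ j (γ j) x) *
          (Real.exp (-φ x) : ℂ)) =
          C.dv c φ j (γ j) x * (starRingEnd ℂ) (τ x) * (Real.exp (-φ x) : ℂ) := by
        intro x
        rw [map_mul, map_mul, Complex.conj_conj, Complex.conj_ofReal]
        ring
      simp only [e1, e2] at h5
      exact h5
    simp only [h4]
    rw [Finset.sum_neg_distrib, ← integral_finset_sum]
    · congr 1
      refine integral_congr_ae ?_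
      filter_upwards with x
      rw [dvg, Finset.sum_mul, Finset.sum_mul]
    · intro j _
      refine Continuous.integrable_of_hasCompactSupport ?_ ?_
      · exact ((C.sm_continuous (C.sm_dv hφs (hγ j) j)).mul
          (Complex.continuous_conj.comp (C.sm_continuous hτ))).mul hec
      · refine HasCompactSupport.intro hτc.isCompact fun x hx => ?_
        rw [image_eq_zero_of_notMem_tsupport hx, _root_.map_zero, mul_zero, zero_mul]
  · intro τ hτ hτc k l
    obtain ⟨h, hh⟩ : ∃ h : Fin n → G → ℂ, h = fun j x =>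
        C.gm σ x j k * (C.Xb l τ x - (starRingEnd ℂ) (c l) * τ x) -
          C.gm σ x j l * (C.Xb k τ x - (starRingEnd ℂ) (c k) * τ x) +
          ∑ m, cc l k m * C.gm σ x j m * τ x := ⟨_, rfl⟩
    have hgc : ∀ j m, Continuous fun x => C.gm σ x j m := fun j m =>
      C.sm_continuous (C.sm_gm hσ j m)
    have hτc' : Continuous τ := C.sm_continuous hτ
    have hXc : ∀ m, Continuous fun x => C.Xb m τ x - (starRingEnd ℂ) (c m) * τ x := fun m =>
      (C.sm_continuous (C.sm_Xb hτ m)).sub (continuous_const.mul hτc')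
    have hhc : ∀ j, Continuous (h j) := by
      intro j
      rw [hh]
      exact (((hgc j k).mul (hXc l)).sub ((hgc j l).mul (hXc k))).add
        (continuous_finsetSum _ fun m _ => (continuous_const.mul (hgc j m)).mul hτc')
    have hhz : ∀ j x, x ∉ tsupport τ → h j x = 0 := by
      intro j x hx
      rw [hh]
      simp only
      rw [C.HB5_Xb_zero hx, C.HB5_Xb_zero hx, image_eq_zero_of_notMem_tsupport hx]
      simp
    have hlin : ∀ (b : Fin n → G → ℂ) (x : G), C.lower σ b k x *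
        (C.Xb l τ x - (starRingEnd ℂ) (c l) * τ x) -
        C.lower σ b l x * (C.Xb k τ x - (starRingEnd ℂ) (c k) * τ x) +
        ∑ m, cc l k m * C.lower σ b m x * τ x = ∑ j, b j x * h j x := by
      intro b x
      have e1 : ∑ m, cc l k m * C.lower σ b m x * τ x =
          ∑ j, ∑ m, b j x * (cc l k m * C.gm σ x j m * τ x) := by
        rw [Finset.sum_comm]
        refine Finset.sum_congr rfl fun m _ => ?_
        rw [lower, Finset.mul_sum, Finset.sum_mul]
        refine Finset.sum_congr rfl fun j _ => ?_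
        ring
      rw [e1, lower, lower, Finset.sum_mul, Finset.sum_mul, ← Finset.sum_sub_distrib,
        ← Finset.sum_add_distrib, hh]
      refine Finset.sum_congr rfl fun j _ => ?_
      simp only
      rw [← Finset.mul_sum]
      ring
    have hlim := C.HB5_lim μ hσ hpos hφc hhc hτc.isCompact hhz
      (fun k => C.HB5_fe_grad μ hσ hpos hφc (hN k) (hNc k)) hβ hNt
    have hz : ∀ i, ∫ x, ∑ j, C.grad σ (N i) j x * h j x ∂μ = 0 := by
      intro i
      have h1 := C.HB5_wc μ hc hcc (hN i) hτ hτc k l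
      rw [← h1]
      refine integral_congr_ae ?_
      filter_upwards with x
      rw [← hlin]
      simp only [C.lower_grad hσ hpos]
    simp only [hz] at hlim
    simp only [hlin]
    exact tendsto_nhds_unique hlim tendsto_const_nhds |>.symm ▸ rfl
  · intro v ρ hv hv2 hρm hρ0 hρ hpt
    have hb := C.HB5_fe_sub' μ hσ h0 hφc hγFE hβ
    rw [hσe] at hb
    have h1 := C.HB5_pairing μ hs hφ hb horth hv hv2 hρ0 hρ hpt
    have hvX : ∀ j, Continuous (C.Xb j v) := fun j => C.sm_continuous (C.sm_Xb hv j)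
    have hγi : Integrable (fun x => (∑ j, C.Xb j v x * (starRingEnd ℂ) (γ j x)) *
        (Real.exp (-φ x) : ℂ)) μ := by
      refine Continuous.integrable_of_hasCompactSupport ?_ ?_
      · exact (continuous_finsetSum _ fun j _ => (hvX j).mul
          (Complex.continuous_conj.comp (C.sm_continuous (hγ j)))).mul hec
      · refine HasCompactSupport.intro hKc fun x hx => ?_
        rw [Finset.sum_eq_zero, zero_mul]
        intro j _
        rw [image_eq_zero_of_notMem_tsupport fun h => hx (mem_iUnion.2 ⟨j, h⟩),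
          _root_.map_zero, mul_zero]
    have hge : ∀ x b, C.Lv φ x b ≤ C.Lv σ x b := by
      intro x b
      rw [hσe]
      exact (C.pot_ge hs hφ x b).1
    have hβi : Integrable (fun x => (∑ j, C.Xb j v x * (starRingEnd ℂ) (β j x)) *
        (Real.exp (-φ x) : ℂ)) μ := by
      refine Integrable.mono' (hρ.add hβ.2) ?_ (Eventually.of_forall fun x => ?_)
      · refine Measurable.aestronglyMeasurable (Measurable.mul ?_ hec.measurable)
        exact Finset.measurable_fun_sum _ fun j _ => (hvX j).measurable.mul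
          (Complex.continuous_conj.measurable.comp (hβ.1 j))
      · have h1 := hpt x (fun j => β j x)
        have h2 := mul_le_mul_of_nonneg_left (hge x fun j => β j x) (hρ0 x)
        have h3 := h0 x (fun j => β j x)
        have h4 := hρ0 x
        have h5 : ‖∑ j, C.Xb j v x * (starRingEnd ℂ) (β j x)‖ ≤
            ρ x + C.Lv σ x (fun j => β j x) := by
          refine (pow_le_pow_iff_left₀ (norm_nonneg _) (by linarith) two_ne_zero).1 ?_
          nlinarith [mul_nonneg h4 h3, sq_nonneg (ρ x), sq_nonneg (C.Lv σ x fun j => β j x)]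
        rw [norm_mul, Complex.norm_real, Real.norm_eq_abs, abs_of_pos (Real.exp_pos _)]
        simp only [Pi.add_apply]
        rw [← add_mul]
        exact mul_le_mul_of_nonneg_right h5 (Real.exp_pos _).le
    rw [← sub_eq_zero, ← integral_sub hγi hβi, ← h1]
    refine integral_congr_ae ?_
    filter_upwards with x
    rw [← sub_mul, ← Finset.sum_sub_distrib]
    congr 1
    refine Finset.sum_congr rfl fun j _ => ?_
    rw [map_sub, mul_sub]

end CLG

end HR
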