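import Pool.Agent.W_06f097_h43.Defs2
import Pool.Agent.W_06f097_h43.CA4
import Pool.Agent.W_06f097_h43.CA6

/-! MP_06f097_an blueprint, block ME: integration by parts for the Haar measure. -/

open scoped Topology ContDiff
open MeasureTheory Set Filter Metric

noncomputable section

namespace HR

namespace CLG

variable {n : ℕ} {G : Type*} [Group G] [TopologicalSpace G] [IsTopologicalGroup G] [T2Space G]
  [LocallyCompactSpace G] [SecondCountableTopology G] [MeasurableSpace G] [BorelSpace G]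
  (C : CLG n G) (μ : Measure G) [μ.IsHaarMeasure]

/-- local Lipschitz bound, uniform near a point -/
private lemma me1_local {F : Type*} [NormedAddCommGroup F] [NormedSpace ℝ F] {n : ℕ} {G : Type*}
    [Group G] [TopologicalSpace G] [IsTopologicalGroup G] (C : CLG n G) {f : G → F} (hf : C.Sm f)
    (x0 : G) :
    ∃ δ : ℝ, 0 < δ ∧ ∃ K : ℝ, 0 ≤ K ∧ ∀ w z : En n, ‖w‖ < δ → ‖z‖ < δ →
      ‖f (x0 * C.ψ w * C.ψ z) - f (x0 * C.ψ w)‖ ≤ K * ‖z‖ := by
  have h0 : (0 : En n) ∈ C.ψ.source := C.ball_sub (mem_ball_self C.r_pos)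
  have hm0 : C.ψ.symm (C.ψ 0 * C.ψ 0) = 0 := by
    have h1 : C.ψ 0 * C.ψ 0 = C.ψ 0 := by rw [C.map_zero, mul_one]
    rw [h1, C.ψ.left_inv h0]
  have hm : ContDiffAt ℝ 1 (fun p : En n × En n => C.ψ.symm (C.ψ p.1 * C.ψ p.2))
      ((0 : En n), (0 : En n)) := by
    have h1 := C.mul_smooth.contDiffAt (x := ((0 : En n), (0 : En n)))
      (prod_mem_nhds (ball_mem_nhds _ C.r_pos) (ball_mem_nhds _ C.r_pos))
    exact (h1.restrict_scalars ℝ).of_le (by exact_mod_cast le_top)
  have hf0 : ContDiffAt ℝ 1 (C.co f x0)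
      ((fun p : En n × En n => C.ψ.symm (C.ψ p.1 * C.ψ p.2)) ((0 : En n), (0 : En n))) := by
    have h1 : (fun p : En n × En n => C.ψ.symm (C.ψ p.1 * C.ψ p.2)) ((0 : En n), (0 : En n)) = 0 :=
      hm0
    rw [h1]
    exact (hf x0).of_le (by exact_mod_cast le_top)
  obtain ⟨K, t, ht, hL⟩ := (hf0.comp ((0 : En n), (0 : En n)) hm).exists_lipschitzOnWith
  obtain ⟨ε, hε, hεt⟩ := Metric.mem_nhds_iff.1 ht
  refine ⟨min ε C.r, lt_min hε C.r_pos, K, K.2, fun w z hw hz => ?_⟩
  have hwr : w ∈ ball (0 : En n) C.r := mem_ball_zero_iff.2 (hw.trans_le (min_le_right _ _))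
  have hzr : z ∈ ball (0 : En n) C.r := mem_ball_zero_iff.2 (hz.trans_le (min_le_right _ _))
  have h0r : (0 : En n) ∈ ball (0 : En n) C.r := mem_ball_self C.r_pos
  have hwz : (w, z) ∈ t := hεt (by
    rw [mem_ball, Prod.dist_eq, max_lt_iff]
    simp only [dist_zero_right]
    exact ⟨hw.trans_le (min_le_left _ _), hz.trans_le (min_le_left _ _)⟩)
  have hw0 : (w, (0 : En n)) ∈ t := hεt (by
    rw [mem_ball, Prod.dist_eq, max_lt_iff]
    simp only [dist_zero_right, norm_zero]
    exact ⟨hw.trans_le (min_le_left _ _), hε⟩)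
  have h2 := hL.dist_le_mul (w, z) hwz (w, 0) hw0
  have e1 : (C.co f x0 ∘ fun p : En n × En n => C.ψ.symm (C.ψ p.1 * C.ψ p.2)) (w, z) =
      f (x0 * C.ψ w * C.ψ z) := by
    simp only [Function.comp, CLG.co]
    rw [C.ψ.right_inv (C.mul_mem w hwr z hzr), mul_assoc]
  have e2 : (C.co f x0 ∘ fun p : En n × En n => C.ψ.symm (C.ψ p.1 * C.ψ p.2)) (w, 0) =
      f (x0 * C.ψ w) := by
    simp only [Function.comp, CLG.co]
    rw [C.ψ.right_inv (C.mul_mem w hwr 0 h0r), C.map_zero, mul_one]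
  rw [e1, e2, dist_eq_norm, Prod.dist_eq] at h2
  refine h2.trans (le_of_eq ?_)
  simp

open scoped Pointwise in
/-- Lipschitz bound, uniform in `x` -/
private lemma me1_unif {F : Type*} [NormedAddCommGroup F] [NormedSpace ℝ F] {n : ℕ} {G : Type*}
    [Group G] [TopologicalSpace G] [IsTopologicalGroup G] (C : CLG n G) {f : G → F} (hf : C.Sm f)
    (hc : HasCompactSupport f) :
    ∃ K' : Set G, IsCompact K' ∧ ∃ δ : ℝ, 0 < δ ∧ ∃ K : ℝ, 0 ≤ K ∧
      (∀ x ∈ K', ∀ z : En n, ‖z‖ < δ → ‖f (x * C.ψ z) - f x‖ ≤ K * ‖z‖) ∧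
      ∀ x, x ∉ K' → ∀ z : En n, ‖z‖ < δ → f (x * C.ψ z) - f x = 0 := by
  have hr2 : closedBall (0 : En n) (C.r / 2) ⊆ ball (0 : En n) C.r :=
    closedBall_subset_ball (by linarith [C.r_pos])
  have hcomp : IsCompact (C.ψ '' closedBall (0 : En n) (C.r / 2)) :=
    (isCompact_closedBall _ _).image_of_continuousOn
      (C.ψ.continuousOn.mono (hr2.trans C.ball_sub))
  set K' : Set G := tsupport f * (C.ψ '' closedBall (0 : En n) (C.r / 2))⁻¹ with hK'
  have hK'c : IsCompact K' := IsCompact.mul hc hcomp.inv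
  have hloc : ∃ δ : ℝ, 0 < δ ∧ ∃ K : ℝ, 0 ≤ K ∧
      ∀ x ∈ K', ∀ z : En n, ‖z‖ < δ → ‖f (x * C.ψ z) - f x‖ ≤ K * ‖z‖ := by
    refine hK'c.induction_on (p := fun s => ∃ δ : ℝ, 0 < δ ∧ ∃ K : ℝ, 0 ≤ K ∧
      ∀ x ∈ s, ∀ z : En n, ‖z‖ < δ → ‖f (x * C.ψ z) - f x‖ ≤ K * ‖z‖) ?_ ?_ ?_ ?_
    · exact ⟨1, one_pos, 0, le_rfl, fun x hx => absurd hx (notMem_empty x)⟩
    · rintro s t hst ⟨δ, hδ, K, hK, h⟩
      exact ⟨δ, hδ, K, hK, fun x hx => h x (hst hx)⟩
    · rintro s t ⟨δ, hδ, K, hK, h⟩ ⟨δ', hδ', L, hL, h'⟩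
      refine ⟨min δ δ', lt_min hδ hδ', max K L, le_max_of_le_left hK, fun x hx z hz => ?_⟩
      rcases hx with hx | hx
      · exact (h x hx z (hz.trans_le (min_le_left _ _))).trans
          (mul_le_mul_of_nonneg_right (le_max_left _ _) (norm_nonneg z))
      · exact (h' x hx z (hz.trans_le (min_le_right _ _))).trans
          (mul_le_mul_of_nonneg_right (le_max_right _ _) (norm_nonneg z))
    · intro x0 _
      obtain ⟨δ, hδ, K, hK, h⟩ := me1_local C hf x0
      refine ⟨(fun z => x0 * C.ψ z) '' ball (0 : En n) δ, mem_nhdsWithin_of_mem_nhds ?_, δ, hδ,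
        K, hK, ?_⟩
      · rw [← C.map_nhds x0]
        exact image_mem_map (ball_mem_nhds _ hδ)
      · rintro x ⟨w, hw, rfl⟩ z hz
        exact h w z (mem_ball_zero_iff.1 hw) hz
  obtain ⟨δ, hδ, K, hK, h⟩ := hloc
  refine ⟨K', hK'c, min δ (C.r / 2), lt_min hδ (by linarith [C.r_pos]), K, hK,
    fun x hx z hz => h x hx z (hz.trans_le (min_le_left _ _)), fun x hx z hz => ?_⟩
  have key : ∀ w : En n, ‖w‖ ≤ C.r / 2 → f (x * C.ψ w) = 0 := by
    intro w hw
    by_contra hne
    apply hx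
    have h1 : x * C.ψ w ∈ tsupport f := subset_tsupport f hne
    refine Set.mem_mul.2 ⟨x * C.ψ w, h1, (C.ψ w)⁻¹, ?_, by group⟩
    rw [Set.mem_inv, inv_inv]
    exact ⟨w, mem_closedBall_zero_iff.2 hw, rfl⟩
  have h1 := key z (hz.le.trans (min_le_right _ _))
  have h2 := key 0 (by rw [norm_zero]; linarith [C.r_pos])
  rw [C.map_zero, mul_one] at h2
  rw [h1, h2, sub_zero]

/-- the difference quotient of the integral -/
private lemma me1_tendsto {F : Type*} [NormedAddCommGroup F] [NormedSpace ℝ F]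
    {f : G → F} (hf : C.Sm f) (hc : HasCompactSupport f) (v : En n) :
    Tendsto (fun t : ℝ => ∫ x, t⁻¹ • (f (x * C.ψ (t • v)) - f x) ∂μ) (𝓝[≠] 0)
      (𝓝 (∫ x, C.D f x v ∂μ)) := by
  obtain ⟨K', hK', δ, hδ, K, hK, h1, h2⟩ := me1_unif C hf hc
  have hfc : Continuous f := C.sm_continuous hf
  have hsmall : ∀ᶠ t : ℝ in 𝓝[≠] 0, ‖t • v‖ < δ ∧ t ≠ 0 := by
    have h3 : Tendsto (fun t : ℝ => ‖t • v‖) (𝓝 0) (𝓝 0) := by
      have h4 : Continuous fun t : ℝ => ‖t • v‖ := by fun_prop
      have h5 := h4.tendsto 0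
      simpa using h5
    exact ((h3.eventually (gt_mem_nhds hδ)).filter_mono nhdsWithin_le_nhds).and
      (eventually_mem_nhdsWithin)
  refine tendsto_integral_filter_of_dominated_convergence
    (K'.indicator fun _ => K * ‖v‖) ?_ ?_ ?_ ?_
  · refine Eventually.of_forall fun t => ?_
    have h3 : Continuous fun x : G => t⁻¹ • (f (x * C.ψ (t • v)) - f x) :=
      ((hfc.comp (continuous_mul_const _)).sub hfc).const_smul _
    exact h3.aestronglyMeasurable
  · filter_upwards [hsmall] with t ht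
    refine Eventually.of_forall fun x => ?_
    by_cases hx : x ∈ K'
    · rw [indicator_of_mem hx, norm_smul, norm_inv]
      have h3 := h1 x hx (t • v) ht.1
      rw [norm_smul] at h3
      have h4 : 0 < ‖t‖ := norm_pos_iff.2 ht.2
      calc ‖t‖⁻¹ * ‖f (x * C.ψ (t • v)) - f x‖ ≤ ‖t‖⁻¹ * (K * (‖t‖ * ‖v‖)) :=
            mul_le_mul_of_nonneg_left h3 (inv_nonneg.2 h4.le)
        _ = K * ‖v‖ := by field_simp
    · rw [indicator_of_notMem hx, h2 x hx (t • v) ht.1, smul_zero, norm_zero]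
  · rw [integrable_indicator_iff hK'.measurableSet]
    exact integrableOn_const hK'.measure_lt_top.ne
  · refine Eventually.of_forall fun x => ?_
    have h3 : HasFDerivAt (C.co f x) (C.D f x) ((0 : ℝ) • v) := by
      rw [zero_smul]
      exact ((hf x).differentiableAt (by simp)).hasFDerivAt
    have h4 : HasDerivAt (fun t : ℝ => t • v) v 0 := by
      simpa using (hasDerivAt_id (0 : ℝ)).smul_const v
    have h5 := (h3.comp_hasDerivAt 0 h4).tendsto_slope_zero
    refine h5.congr fun t => ?_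
    simp only [Function.comp, CLG.co, zero_add, zero_smul, C.map_zero, mul_one]

/-- the integral of a right translate -/
private lemma me1_right (y : G) : ∃ c : ℝ, ∀ {F : Type} [NormedAddCommGroup F] [NormedSpace ℝ F]
    (f : G → F), ∫ x, f (x * y) ∂μ = c • ∫ x, f x ∂μ := by
  have h1 := Measure.isMulLeftInvariant_eq_smul (Measure.map (· * y) μ) μ
  refine ⟨(Measure.haarScalarFactor (Measure.map (· * y) μ) μ : ℝ), fun {F} _ _ f => ?_⟩
  have h2 : ∫ x, f x ∂(Measure.map (· * y) μ) = ∫ x, f (x * y) ∂μ :=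
    (Homeomorph.mulRight y).isClosedEmbedding.integral_map f
  rw [← h2]
  conv_lhs => rw [h1]
  rw [integral_smul_nnreal_measure]
  rfl

/-- `D f` is continuous with compact support -/
private lemma me1_integrable {F : Type*} [NormedAddCommGroup F] [NormedSpace ℝ F]
    {f : G → F} (hf : C.Sm f) (hc : HasCompactSupport f) (v : En n) :
    Integrable (fun x => C.D f x v) μ := by
  have h1 : Continuous fun x => C.D f x v := C.sm_continuous (C.sm_D hf v)
  refine h1.integrable_of_hasCompactSupport ?_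
  refine HasCompactSupport.intro hc fun x hx => ?_
  have h2 : f =ᶠ[𝓝 x] fun _ => 0 := notMem_tsupport_iff_eventuallyEq.1 hx
  rw [C.D_congr h2]
  have h3 : C.co (fun _ : G => (0 : F)) x = fun _ => 0 := rfl
  simp [CLG.D, h3]

/-- Proof. Right translation changes the Haar measure by a factor: for every `y` there is
`Δ(y) > 0` with `∫ f (x * y) dμ(x) = Δ(y) ∫ f dμ` for all integrable `f` (uniqueness of the Haar
measure or `modularCharacter`). For `f` smooth with compact support and `v` fixed,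
`(f (x * ψ (t v)) - f x) / t → D f x v` uniformly in `x` with all supports in a fixed compact set, so
`(Δ (ψ (t v)) - 1) / t * ∫ f → ∫ D f x v`. Taking `f = b ≥ 0`, `b 1 > 0` (`exists_bump`), the limit
`cR v` of `(Δ (ψ (t v)) - 1) / t` exists, and is linear in `v` because `∫ D b x v` is.
(Continuity of `cR`: finite dimension.) -/
theorem exists_partR : ∃ cR : En n →L[ℝ] ℝ, C.IsPartR μ cR := by
  obtain ⟨b, hb, hbc, -, hb0, hb1⟩ := C.exists_bump (U := univ) univ_mem
  have hbcont : Continuous b := C.sm_continuous hb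
  have hI : 0 < ∫ x, b x ∂μ :=
    hbcont.integral_pos_of_hasCompactSupport_nonneg_nonzero hbc hb0 hb1.ne'
  choose c hc using fun y : G => me1_right μ y
  -- the limit of the difference quotient
  have hq : ∀ {F : Type} [NormedAddCommGroup F] [NormedSpace ℝ F] {f : G → F} (_ : C.Sm f)
      (_ : HasCompactSupport f) (v : En n),
      Tendsto (fun t : ℝ => (t⁻¹ * (c (C.ψ (t • v)) - 1)) • ∫ x, f x ∂μ) (𝓝[≠] 0)
        (𝓝 (∫ x, C.D f x v ∂μ)) := by
    intro F _ _ f hf hfc v
    refine (me1_tendsto C μ hf hfc v).congr fun t => ?_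
    have hfi : Integrable f μ := (C.sm_continuous hf).integrable_of_hasCompactSupport hfc
    have hfi' : Integrable (fun x => f (x * C.ψ (t • v))) μ := by
      refine ((C.sm_continuous hf).comp (continuous_mul_const _)).integrable_of_hasCompactSupport ?_
      exact hfc.comp_homeomorph (Homeomorph.mulRight (C.ψ (t • v)))
    rw [integral_smul, integral_sub hfi' hfi, hc, mul_smul, sub_smul, one_smul]
  set L : En n →ₗ[ℝ] ℝ :=
    { toFun := fun v => (∫ x, C.D b x v ∂μ) / ∫ x, b x ∂μ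
      map_add' := fun v w => by
        rw [← add_div, ← integral_add (me1_integrable C μ hb hbc v) (me1_integrable C μ hb hbc w)]
        simp only [map_add]
      map_smul' := fun a v => by
        simp only [map_smul, smul_eq_mul, RingHom.id_apply, integral_const_mul]
        ring } with hL
  refine ⟨LinearMap.toContinuousLinearMap L, fun f hf hfc v => ?_⟩
  have h1 : Tendsto (fun t : ℝ => t⁻¹ * (c (C.ψ (t • v)) - 1)) (𝓝[≠] 0) (𝓝 (L v)) := by
    have h2 := (hq hb hbc v).div_const (∫ x, b x ∂μ)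
    refine h2.congr fun t => ?_
    rw [smul_eq_mul, mul_div_assoc, div_self hI.ne', mul_one]
  have h2 := hq hf hfc v
  have h3 : Tendsto (fun t : ℝ => (t⁻¹ * (c (C.ψ (t • v)) - 1)) • ∫ x, f x ∂μ) (𝓝[≠] 0)
      (𝓝 (L v • ∫ x, f x ∂μ)) := h1.smul_const _
  have h4 := tendsto_nhds_unique h2 h3
  rw [h4]
  simp

variable {μ} in
theorem isPart_of_partR {cR : En n →L[ℝ] ℝ} (h : C.IsPartR μ cR) : C.IsPart μ (cOf cR) := by
  intro f hf hfc j
  have h1 := h f hf hfc (Pi.single j 1)
  have h2 := h f hf hfc (Pi.single j Complex.I)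
  have i1 := me1_integrable C μ hf hfc (Pi.single j 1)
  have i2 := me1_integrable C μ hf hfc (Pi.single j Complex.I)
  constructor
  · simp only [CLG.X]
    rw [integral_div, integral_sub i1 (i2.const_mul _), integral_const_mul, h1, h2, cOf]
    ring
  · simp only [CLG.Xb]
    rw [integral_div, integral_add i1 (i2.const_mul _), integral_const_mul, h1, h2, cOf]
    simp only [map_div₀, map_sub, map_mul, Complex.conj_ofReal, Complex.conj_I, map_ofNat]
    ring

end CLG

end HR
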