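import Pool.Agent.W_06f097_h43.ME7D

/-! MP_06f097_an blueprint, block ME: continuity of the right invariant derivative. -/

open scoped Topology ContDiff Pointwise
open MeasureTheory Set Filter Metric

noncomputable section

namespace HR

namespace CLG

variable {n : ℕ} {G : Type*} [Group G] [TopologicalSpace G] (C : CLG n G)

variable [IsTopologicalGroup G]

private theorem me7c_zero_source : (0 : En n) ∈ C.ψ.source :=
  C.ball_sub (mem_ball_self C.r_pos)

private theorem me7c_psi : ContinuousAt C.ψ (0 : En n) := C.ψ.continuousAt C.me7c_zero_source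

private theorem me7c_one : C.ψ.symm 1 = 0 := by
  rw [← C.map_zero]
  exact C.ψ.left_inv C.me7c_zero_source

private theorem me7c_target : C.ψ.target ∈ 𝓝 (1 : G) := by
  rw [← C.map_zero]
  exact C.ψ.open_target.mem_nhds (C.ψ.map_source C.me7c_zero_source)

/-- joint smoothness -/
private theorem me7c_joint {ρ : G → ℝ} (hρ : C.Sm ρ) (y₀ : G) :
    ContDiffAt ℝ ∞ (fun p : En n × En n => ρ (C.ψ p.1 * (y₀ * C.ψ p.2))) (0, 0) := by
  have hr := C.r_pos
  have h1 : ContDiffAt ℝ ∞ (fun z => C.ψ.symm (y₀⁻¹ * C.ψ z * y₀)) (0 : En n) :=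
    (C.conj_smooth y₀).restrict_scalars ℝ
  have h1z : C.ψ.symm (y₀⁻¹ * C.ψ 0 * y₀) = 0 := by
    simp [C.map_zero, C.me7c_one]
  have h2 : ContDiffAt ℝ ∞ (fun p : En n × En n => C.ψ.symm (C.ψ p.1 * C.ψ p.2)) (0, 0) :=
    (C.mul_smooth.contDiffAt (prod_mem_nhds (ball_mem_nhds (0 : En n) hr)
      (ball_mem_nhds (0 : En n) hr))).restrict_scalars ℝ
  have h2z : C.ψ.symm (C.ψ 0 * C.ψ 0) = 0 := by
    rw [C.map_zero, mul_one, C.me7c_one]
  have h3 : ContDiffAt ℝ ∞ (C.co ρ y₀) 0 := hρ y₀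
  -- the inner pair
  have h4 : ContDiffAt ℝ ∞ (fun p : En n × En n => C.ψ.symm (y₀⁻¹ * C.ψ p.1 * y₀)) (0, 0) :=
    ContDiffAt.comp (g := fun z => C.ψ.symm (y₀⁻¹ * C.ψ z * y₀))
      (f := fun p : En n × En n => p.1) ((0 : En n), (0 : En n)) h1 contDiffAt_fst
  have h5 : ContDiffAt ℝ ∞ (fun p : En n × En n =>
      ((C.ψ.symm (y₀⁻¹ * C.ψ p.1 * y₀), p.2) : En n × En n)) (0, 0) :=
    h4.prodMk contDiffAt_snd
  have h6 : ContDiffAt ℝ ∞ (fun p : En n × En n =>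
      C.ψ.symm (C.ψ (C.ψ.symm (y₀⁻¹ * C.ψ p.1 * y₀)) * C.ψ p.2)) (0, 0) := by
    refine ContDiffAt.comp (g := fun p : En n × En n => C.ψ.symm (C.ψ p.1 * C.ψ p.2))
      (f := fun p : En n × En n => ((C.ψ.symm (y₀⁻¹ * C.ψ p.1 * y₀), p.2) : En n × En n))
      ((0 : En n), (0 : En n)) ?_ h5
    beta_reduce
    rw [h1z]
    exact h2
  have h7 : ContDiffAt ℝ ∞ (fun p : En n × En n =>
      C.co ρ y₀ (C.ψ.symm (C.ψ (C.ψ.symm (y₀⁻¹ * C.ψ p.1 * y₀)) * C.ψ p.2))) (0, 0) := by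
    refine ContDiffAt.comp (g := C.co ρ y₀) (f := fun p : En n × En n =>
      C.ψ.symm (C.ψ (C.ψ.symm (y₀⁻¹ * C.ψ p.1 * y₀)) * C.ψ p.2))
      ((0 : En n), (0 : En n)) ?_ h6
    beta_reduce
    rw [h1z, h2z]
    exact h3
  refine h7.congr_of_eventuallyEq ?_
  have c1 : ContinuousAt (fun p : En n × En n => C.ψ p.1) ((0 : En n), (0 : En n)) :=
    ContinuousAt.comp (g := C.ψ) (f := fun p : En n × En n => p.1) C.me7c_psi continuousAt_fst
  have c2 : ContinuousAt (fun p : En n × En n => C.ψ p.2) ((0 : En n), (0 : En n)) :=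
    ContinuousAt.comp (g := C.ψ) (f := fun p : En n × En n => p.2) C.me7c_psi continuousAt_snd
  have c3 : ContinuousAt (fun p : En n × En n => y₀⁻¹ * C.ψ p.1 * y₀) ((0 : En n), (0 : En n)) :=
    (continuousAt_const.mul c1).mul continuousAt_const
  have c4 : ContinuousAt (fun p : En n × En n => y₀⁻¹ * C.ψ p.1 * y₀ * C.ψ p.2)
      ((0 : En n), (0 : En n)) := c3.mul c2
  have e3 : C.ψ.target ∈ 𝓝 ((fun p : En n × En n => y₀⁻¹ * C.ψ p.1 * y₀)
      ((0 : En n), (0 : En n))) := by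
    have e : (fun p : En n × En n => y₀⁻¹ * C.ψ p.1 * y₀) ((0 : En n), (0 : En n)) = 1 := by
      simp [C.map_zero]
    rw [e]
    exact C.me7c_target
  have e4 : C.ψ.target ∈ 𝓝 ((fun p : En n × En n => y₀⁻¹ * C.ψ p.1 * y₀ * C.ψ p.2)
      ((0 : En n), (0 : En n))) := by
    have e : (fun p : En n × En n => y₀⁻¹ * C.ψ p.1 * y₀ * C.ψ p.2)
        ((0 : En n), (0 : En n)) = 1 := by
      simp [C.map_zero]
    rw [e]
    exact C.me7c_target
  filter_upwards [c3.preimage_mem_nhds e3, c4.preimage_mem_nhds e4] with p hp3 hp4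
  simp only [co]
  rw [C.ψ.right_inv hp3, C.ψ.right_inv hp4]
  congr 1
  group

/-- Proof: continuity at `y₀`, `y = y₀ * ψ w` (`map_nhds`). Near `(0, 0)` the function
`(z, w) ↦ ρ (ψ z * (y₀ * ψ w)) = C.co ρ y₀ (ψ.symm (ψ (ψ.symm (y₀⁻¹ * ψ z * y₀)) * ψ w))` is smooth
(`conj_smooth y₀`, `mul_smooth`); its derivative is continuous at `(0, 0)` and its restriction to
`(z, 0)` directions at `(0, w)` is `Dl ρ (y₀ * ψ w)`. -/
theorem ME7_cont_Dl {ρ : G → ℝ} (hρ : C.Sm ρ) : Continuous (fun y => C.Dl ρ y) := by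
  rw [continuous_iff_continuousAt]
  intro y₀
  have hJ := C.me7c_joint hρ y₀
  obtain ⟨F, hF⟩ : ∃ F : En n × En n → ℝ, F = fun p => ρ (C.ψ p.1 * (y₀ * C.ψ p.2)) := ⟨_, rfl⟩
  rw [← hF] at hJ
  have hc : ContinuousAt (fderiv ℝ F) ((0 : En n), (0 : En n)) :=
    (hJ.fderiv_right (m := 0) (by norm_num)).continuousAt
  have hd : ∀ᶠ p in 𝓝 ((0 : En n), (0 : En n)), DifferentiableAt ℝ F p := by
    have h1 : ContDiffAt ℝ 1 F ((0 : En n), (0 : En n)) := hJ.of_le (by norm_cast)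
    filter_upwards [h1.eventually (by simp)] with p hp
    exact hp.differentiableAt (by simp)
  have hl : Tendsto (fun w : En n => ((0 : En n), w)) (𝓝 0) (𝓝 ((0 : En n), (0 : En n))) :=
    (continuous_const.prodMk continuous_id).tendsto' _ _ rfl
  have he : (fun w => C.Dl ρ (y₀ * C.ψ w)) =ᶠ[𝓝 0]
      fun w => (fderiv ℝ F (0, w)).comp (ContinuousLinearMap.inl ℝ (En n) (En n)) := by
    filter_upwards [hl.eventually hd] with w hw
    have q5 : HasFDerivAt (fun z : En n => ((z, w) : En n × En n))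
        (ContinuousLinearMap.inl ℝ (En n) (En n)) 0 := by
      simpa [ContinuousLinearMap.inl] using (hasFDerivAt_prodMk_left (𝕜 := ℝ) (0 : En n) w)
    have q7 := hw.hasFDerivAt.comp (0 : En n) q5
    rw [Dl]
    rw [← q7.fderiv, hF]
    rfl
  have hz : C.Dl ρ y₀ = (fderiv ℝ F (0, 0)).comp (ContinuousLinearMap.inl ℝ (En n) (En n)) := by
    have := he.self_of_nhds
    beta_reduce at this
    rwa [C.map_zero, mul_one] at this
  have ht : Tendsto (fun w => C.Dl ρ (y₀ * C.ψ w)) (𝓝 0) (𝓝 (C.Dl ρ y₀)) := by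
    rw [hz]
    refine Tendsto.congr' he.symm ?_
    have hk : Continuous (fun A : En n × En n →L[ℝ] ℝ =>
        A.comp (ContinuousLinearMap.inl ℝ (En n) (En n))) :=
      continuous_id.clm_comp continuous_const
    exact (hk.tendsto _).comp (hc.tendsto.comp hl)
  rw [ContinuousAt, ← C.map_nhds y₀]
  exact Filter.tendsto_map'_iff.2 ht

/-- `w ↦ ρ (ψ w * y)` is differentiable at `0` -/
theorem ME7_diff_Dl {ρ : G → ℝ} (hρ : C.Sm ρ) (y : G) :
    DifferentiableAt ℝ (fun w => ρ (C.ψ w * y)) 0 := by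
  have h := (C.sm_right hρ y 1).differentiableAt (by simp)
  have e : C.co (fun x => ρ (x * y)) 1 = fun w => ρ (C.ψ w * y) := by
    funext w
    simp only [co, one_mul]
  rwa [e] at h

/-- `Dl ρ` vanishes off the support of `ρ` -/
theorem ME7_Dl_zero {ρ : G → ℝ} {y : G} (hy : y ∉ tsupport ρ) : C.Dl ρ y = 0 := by
  have h1 : ρ =ᶠ[𝓝 y] 0 := notMem_tsupport_iff_eventuallyEq.1 hy
  have h2 : ContinuousAt (fun w : En n => C.ψ w * y) 0 := C.me7c_psi.mul continuousAt_const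
  have h3 : (fun w : En n => ρ (C.ψ w * y)) =ᶠ[𝓝 0] fun _ => (0 : ℝ) := by
    have h4 : Tendsto (fun w : En n => C.ψ w * y) (𝓝 0) (𝓝 y) := by
      have h5 := h2.tendsto
      rwa [C.map_zero, one_mul] at h5
    exact h4.eventually h1
  rw [Dl, h3.fderiv_eq, fderiv_fun_const]
  rfl

/-- the integrand of `GoodMoll.scale` is continuous -/
theorem ME7_cont_scale {ρ : G → ℝ} (hρ : C.Sm ρ) (h : tsupport ρ ⊆ C.ψ '' Metric.ball 0 C.r) :
    Continuous (fun z => ‖C.Dl ρ z‖ * ‖C.ψ.symm z‖) := by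
  rw [continuous_iff_continuousAt]
  intro z
  by_cases hz : z ∈ tsupport ρ
  · have hzt : z ∈ C.ψ.target := by
      obtain ⟨w, hw, rfl⟩ := h hz
      exact C.ψ.map_source (C.ball_sub hw)
    exact ((C.ME7_cont_Dl hρ).continuousAt.norm).mul (C.ψ.symm.continuousAt hzt).norm
  · have h1 : (tsupport ρ)ᶜ ∈ 𝓝 z := (isClosed_tsupport ρ).isOpen_compl.mem_nhds hz
    have h2 : (fun z => ‖C.Dl ρ z‖ * ‖C.ψ.symm z‖) =ᶠ[𝓝 z] fun _ => (0 : ℝ) := by
      filter_upwards [h1] with y hy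
      rw [C.ME7_Dl_zero hy, norm_zero, zero_mul]
    exact continuousAt_const.congr h2.symm

end CLG

end HR
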