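import Pool.Agent.W_06f097_h43.ME7D

/-! MP_06f097_an blueprint, block ME: bounds on compact sets for the proof of Friedrichs' lemma. -/

open scoped Topology ContDiff Pointwise
open MeasureTheory Set Filter Metric

noncomputable section

namespace HR

namespace CLG

variable {n : ℕ} {G : Type*} [Group G] [TopologicalSpace G] (C : CLG n G)

variable [IsTopologicalGroup G] [T2Space G] [LocallyCompactSpace G]

omit [T2Space G] [LocallyCompactSpace G] [IsTopologicalGroup G] in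
private lemma me7l_zero_mem : (0 : En n) ∈ C.ψ.source := C.ball_sub (mem_ball_self C.r_pos)

omit [T2Space G] [LocallyCompactSpace G] [IsTopologicalGroup G] in
private lemma me7l_symm_one : C.ψ.symm 1 = 0 := by
  rw [← C.map_zero, C.ψ.left_inv (me7l_zero_mem C)]

omit [T2Space G] [LocallyCompactSpace G] [IsTopologicalGroup G] in
private lemma me7l_one_mem : (1 : G) ∈ C.ψ.target := by
  rw [← C.map_zero]
  exact C.ψ.map_source (me7l_zero_mem C)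

omit [T2Space G] [LocallyCompactSpace G] [IsTopologicalGroup G] in
private lemma me7l_inv_zero : C.ψ.symm (C.ψ 0)⁻¹ = 0 := by
  rw [C.map_zero, inv_one, me7l_symm_one C]

omit [T2Space G] [LocallyCompactSpace G] [IsTopologicalGroup G] in
private lemma me7l_conj_zero (b : G) : C.ψ.symm (b⁻¹ * C.ψ 0 * b) = 0 := by
  rw [C.map_zero, mul_one, inv_mul_cancel, me7l_symm_one C]

omit [T2Space G] [LocallyCompactSpace G] [IsTopologicalGroup G] in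
private lemma me7l_inv : ContDiffAt ℝ 1 (fun z => C.ψ.symm (C.ψ z)⁻¹) 0 :=
  (C.inv_smooth.restrict_scalars ℝ).of_le (by exact_mod_cast le_top)

omit [T2Space G] [LocallyCompactSpace G] [IsTopologicalGroup G] in
private lemma me7l_conj (b : G) : ContDiffAt ℝ 1 (fun z => C.ψ.symm (b⁻¹ * C.ψ z * b)) 0 :=
  ((C.conj_smooth b).restrict_scalars ℝ).of_le (by exact_mod_cast le_top)

omit [T2Space G] [LocallyCompactSpace G] [IsTopologicalGroup G] in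
private lemma me7l_mul : ContDiffAt ℝ 1 (fun p : En n × En n => C.ψ.symm (C.ψ p.1 * C.ψ p.2))
    ((0 : En n), (0 : En n)) := by
  have h1 := C.mul_smooth.contDiffAt (x := ((0 : En n), (0 : En n)))
    (prod_mem_nhds (ball_mem_nhds _ C.r_pos) (ball_mem_nhds _ C.r_pos))
  exact (h1.restrict_scalars ℝ).of_le (by exact_mod_cast le_top)

omit [T2Space G] [LocallyCompactSpace G] [IsTopologicalGroup G] in
private lemma me7l_mul_zero : C.ψ.symm (C.ψ 0 * C.ψ 0) = 0 := by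
  rw [C.map_zero, mul_one, me7l_symm_one C]

omit [T2Space G] [LocallyCompactSpace G] in
private lemma me7l_inv_eq : ∀ᶠ z in 𝓝 (0 : En n), C.ψ (C.ψ.symm (C.ψ z)⁻¹) = (C.ψ z)⁻¹ := by
  have h : ContinuousAt (fun z : En n => (C.ψ z)⁻¹) 0 := (C.ψ.continuousAt (me7l_zero_mem C)).inv
  have h2 : C.ψ.target ∈ 𝓝 ((C.ψ (0 : En n))⁻¹) := by
    rw [C.map_zero, inv_one]
    exact C.ψ.open_target.mem_nhds (me7l_one_mem C)
  filter_upwards [h h2] with z hz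
  exact C.ψ.right_inv hz

omit [T2Space G] [LocallyCompactSpace G] in
private lemma me7l_conj_eq (b : G) :
    ∀ᶠ z in 𝓝 (0 : En n), C.ψ (C.ψ.symm (b⁻¹ * C.ψ z * b)) = b⁻¹ * C.ψ z * b := by
  have h : ContinuousAt (fun z : En n => b⁻¹ * C.ψ z * b) 0 :=
    ((C.ψ.continuousAt (me7l_zero_mem C)).const_mul b⁻¹).mul_const b
  have h2 : C.ψ.target ∈ 𝓝 (b⁻¹ * C.ψ (0 : En n) * b) := by
    rw [C.map_zero, mul_one, inv_mul_cancel]
    exact C.ψ.open_target.mem_nhds (me7l_one_mem C)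
  filter_upwards [h h2] with z hz
  exact C.ψ.right_inv hz

omit [T2Space G] [LocallyCompactSpace G] in
/-- the Lipschitz bound near `(1, x₀)` -/
private lemma me7l_lip_one {a : G → ℂ} (ha : C.Sm a) (x₀ : G) :
    ∃ B : ℝ, 0 ≤ B ∧ ∀ᶠ p : G × G in 𝓝 ((1 : G), x₀),
      ‖a p.2 - a (p.1⁻¹ * p.2)‖ ≤ B * ‖C.ψ.symm p.1‖ := by
  set ι : En n → En n := fun z => C.ψ.symm (C.ψ z)⁻¹ with hι
  set κ : En n → En n := fun z => C.ψ.symm (x₀⁻¹ * C.ψ z * x₀) with hκ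
  have hι0 : ι 0 = 0 := me7l_inv_zero C
  have hκ0 : κ 0 = 0 := me7l_conj_zero C x₀
  have hιs : ContDiffAt ℝ 1 ι 0 := me7l_inv C
  have hκs : ContDiffAt ℝ 1 κ (ι 0) := by
    rw [hι0]
    exact me7l_conj C x₀
  have hs : ContDiffAt ℝ 1 (fun z => κ (ι z)) 0 := ContDiffAt.comp (g := κ) (f := ι) (0 : En n) hκs hιs
  have hs0 : κ (ι 0) = 0 := by rw [hι0, hκ0]
  set g1 : En n × En n → En n × En n := fun p => (κ (ι p.1), p.2) with hg1
  have hg10 : g1 ((0 : En n), (0 : En n)) = (0, 0) := by simp only [hg1, hs0]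
  have hg1s : ContDiffAt ℝ 1 g1 ((0 : En n), (0 : En n)) := by
    have h1 : ContDiffAt ℝ 1 (fun p : En n × En n => κ (ι p.1)) ((0 : En n), (0 : En n)) :=
      ContDiffAt.comp (g := fun z => κ (ι z)) (f := Prod.fst) ((0 : En n), (0 : En n)) hs
        contDiffAt_fst
    exact h1.prodMk contDiffAt_snd
  set m : En n × En n → En n := fun p => C.ψ.symm (C.ψ p.1 * C.ψ p.2) with hm
  have hm0 : m ((0 : En n), (0 : En n)) = 0 := me7l_mul_zero C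
  have hms : ContDiffAt ℝ 1 m (g1 ((0 : En n), (0 : En n))) := by
    rw [hg10]
    exact me7l_mul C
  have has : ContDiffAt ℝ 1 (C.co a x₀) (m (g1 ((0 : En n), (0 : En n)))) := by
    rw [hg10, hm0]
    exact (ha x₀).of_le (by exact_mod_cast le_top)
  have hF : ContDiffAt ℝ 1 (fun p => C.co a x₀ (m (g1 p))) ((0 : En n), (0 : En n)) := by
    have h1 : ContDiffAt ℝ 1 (fun p => m (g1 p)) ((0 : En n), (0 : En n)) :=
      ContDiffAt.comp (g := m) (f := g1) _ hms hg1s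
    exact ContDiffAt.comp (g := C.co a x₀) (f := fun p => m (g1 p)) _ has h1
  obtain ⟨K, t, ht, hL⟩ := hF.exists_lipschitzOnWith
  have hr : ball (0 : En n) C.r ∈ 𝓝 (0 : En n) := ball_mem_nhds _ C.r_pos
  -- the formula near `(0, 0)`
  have hE : ∀ᶠ p : En n × En n in 𝓝 ((0 : En n), (0 : En n)), p ∈ t ∧
      C.co a x₀ (m (g1 p)) = a ((C.ψ p.1)⁻¹ * (x₀ * C.ψ p.2)) := by
    have e1 : ∀ᶠ z in 𝓝 (0 : En n), κ (ι z) ∈ ball (0 : En n) C.r := by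
      have h1 : ContinuousAt (fun z => κ (ι z)) 0 := hs.continuousAt
      have h2 : ball (0 : En n) C.r ∈ 𝓝 (κ (ι 0)) := by
        rw [hs0]
        exact hr
      exact h1 h2
    have e2 : ∀ᶠ z in 𝓝 (0 : En n), C.ψ (κ (ι z)) = x₀⁻¹ * C.ψ (ι z) * x₀ := by
      have h1 : Tendsto ι (𝓝 0) (𝓝 0) := by
        have h2 := hιs.continuousAt.tendsto
        rwa [hι0] at h2
      exact h1.eventually (me7l_conj_eq C x₀)
    have e3 := me7l_inv_eq C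
    have e4 : ∀ᶠ z in 𝓝 (0 : En n), z ∈ ball (0 : En n) C.r := hr
    have f1 : Tendsto (Prod.fst : En n × En n → En n) (𝓝 ((0 : En n), (0 : En n))) (𝓝 0) :=
      continuousAt_fst
    have f2 : Tendsto (Prod.snd : En n × En n → En n) (𝓝 ((0 : En n), (0 : En n))) (𝓝 0) :=
      continuousAt_snd
    filter_upwards [ht, f1.eventually e1, f1.eventually e2, f1.eventually e3, f2.eventually e4]
      with p h1 h2 h3 h4 h5
    refine ⟨h1, ?_⟩
    have h6 : C.ψ (κ (ι p.1)) * C.ψ p.2 ∈ C.ψ.target := C.mul_mem _ h2 _ h5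
    have h7 : C.ψ (m (g1 p)) = C.ψ (κ (ι p.1)) * C.ψ p.2 := C.ψ.right_inv h6
    simp only [CLG.co]
    rw [h7, h3]
    have h8 : C.ψ (ι p.1) = (C.ψ p.1)⁻¹ := h4
    rw [h8]
    congr 1
    group
  have hE' : ∀ᶠ p : En n × En n in 𝓝 ((0 : En n), (0 : En n)), ((0 : En n), p.2) ∈ t ∧
      C.co a x₀ (m (g1 ((0 : En n), p.2))) = a ((C.ψ 0)⁻¹ * (x₀ * C.ψ p.2)) := by
    have h1 : Tendsto (fun p : En n × En n => ((0 : En n), p.2)) (𝓝 ((0 : En n), (0 : En n)))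
        (𝓝 ((0 : En n), (0 : En n))) := by
      have h2 : Continuous (fun p : En n × En n => ((0 : En n), p.2)) := by fun_prop
      exact h2.tendsto' _ _ rfl
    exact h1.eventually hE
  refine ⟨K, K.2, ?_⟩
  have hmap : 𝓝 ((1 : G), x₀) = Filter.map (fun p : En n × En n => (C.ψ p.1, x₀ * C.ψ p.2))
      (𝓝 ((0 : En n), (0 : En n))) := by
    have h1 := C.map_nhds (1 : G)
    simp only [one_mul] at h1
    rw [nhds_prod_eq, nhds_prod_eq, ← h1, ← C.map_nhds x₀, Filter.prod_map_map_eq]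
  rw [hmap, Filter.eventually_map]
  have e4 : ∀ᶠ p : En n × En n in 𝓝 ((0 : En n), (0 : En n)), p.1 ∈ C.ψ.source := by
    have f1 : Tendsto (Prod.fst : En n × En n → En n) (𝓝 ((0 : En n), (0 : En n))) (𝓝 0) :=
      continuousAt_fst
    exact f1.eventually (C.ψ.open_source.mem_nhds (me7l_zero_mem C))
  filter_upwards [hE, hE', e4] with p h1 h2 h3
  rw [C.ψ.left_inv h3]
  have h4 := hL.dist_le_mul _ h2.1 _ h1.1
  rw [h1.2, h2.2, C.map_zero, inv_one, one_mul, dist_eq_norm, Prod.dist_eq] at h4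
  refine h4.trans (le_of_eq ?_)
  simp

omit [T2Space G] [LocallyCompactSpace G] in
/-- the Lipschitz bound near `(y₀, x₀)`, `y₀ ≠ 1` -/
private lemma me7l_lip_ne {a : G → ℂ} (hac : Continuous a) {y₀ : G} (hy : y₀ ∈ C.ψ.target)
    (hne : y₀ ≠ 1) (x₀ : G) :
    ∃ B : ℝ, 0 ≤ B ∧ ∀ᶠ p : G × G in 𝓝 (y₀, x₀),
      ‖a p.2 - a (p.1⁻¹ * p.2)‖ ≤ B * ‖C.ψ.symm p.1‖ := by
  have hz : C.ψ.symm y₀ ≠ 0 := by
    intro h
    apply hne
    rw [← C.ψ.right_inv hy, h, C.map_zero]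
  have hc0 : 0 < ‖C.ψ.symm y₀‖ := norm_pos_iff.2 hz
  have h1 : Tendsto (fun p : G × G => ‖C.ψ.symm p.1‖) (𝓝 (y₀, x₀)) (𝓝 ‖C.ψ.symm y₀‖) := by
    have h2 : Tendsto (Prod.fst : G × G → G) (𝓝 (y₀, x₀)) (𝓝 y₀) := continuousAt_fst
    exact ((C.ψ.continuousAt_symm hy).tendsto.comp h2).norm
  have h2 : Continuous (fun p : G × G => ‖a p.2 - a (p.1⁻¹ * p.2)‖) := by fun_prop
  have h3 := h2.tendsto (y₀, x₀)
  refine ⟨(‖a x₀ - a (y₀⁻¹ * x₀)‖ + 1) * (2 / ‖C.ψ.symm y₀‖), by positivity, ?_⟩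
  have e1 : ∀ᶠ p : G × G in 𝓝 (y₀, x₀), ‖C.ψ.symm y₀‖ / 2 < ‖C.ψ.symm p.1‖ :=
    h1.eventually (lt_mem_nhds (half_lt_self hc0))
  have e2 : ∀ᶠ p : G × G in 𝓝 (y₀, x₀), ‖a p.2 - a (p.1⁻¹ * p.2)‖ <
      ‖a x₀ - a (y₀⁻¹ * x₀)‖ + 1 := h3.eventually (gt_mem_nhds (lt_add_one _))
  filter_upwards [e1, e2] with p h4 h5
  have h6 : (‖a x₀ - a (y₀⁻¹ * x₀)‖ + 1) * (2 / ‖C.ψ.symm y₀‖) * (‖C.ψ.symm y₀‖ / 2) ≤
      (‖a x₀ - a (y₀⁻¹ * x₀)‖ + 1) * (2 / ‖C.ψ.symm y₀‖) * ‖C.ψ.symm p.1‖ :=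
    mul_le_mul_of_nonneg_left h4.le (by positivity)
  have h7 : (‖a x₀ - a (y₀⁻¹ * x₀)‖ + 1) * (2 / ‖C.ψ.symm y₀‖) * (‖C.ψ.symm y₀‖ / 2) =
      ‖a x₀ - a (y₀⁻¹ * x₀)‖ + 1 := by
    field_simp
  linarith

omit [T2Space G] [LocallyCompactSpace G] in
/-- the bound of the adjoint map near `x₀` -/
private lemma me7l_ad_local (x₀ : G) :
    ∃ B : ℝ, 0 ≤ B ∧ ∀ᶠ x in 𝓝 x₀,
      ‖fderiv ℝ (fun z => C.ψ.symm (x * C.ψ z * x⁻¹)) 0‖ ≤ B := by
  set ι : En n → En n := fun z => C.ψ.symm (C.ψ z)⁻¹ with hι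
  set κ : En n → En n := fun z => C.ψ.symm ((x₀⁻¹)⁻¹ * C.ψ z * x₀⁻¹) with hκ
  set m : En n × En n → En n := fun p => C.ψ.symm (C.ψ p.1 * C.ψ p.2) with hm
  have hι0 : ι 0 = 0 := me7l_inv_zero C
  have hκ0 : κ 0 = 0 := me7l_conj_zero C x₀⁻¹
  have hm0 : m ((0 : En n), (0 : En n)) = 0 := me7l_mul_zero C
  have hιs : ContDiffAt ℝ 1 ι 0 := me7l_inv C
  have hms : ContDiffAt ℝ 1 m ((0 : En n), (0 : En n)) := me7l_mul C
  set g1 : En n × En n → En n × En n := fun p => (m p, ι p.1) with hg1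
  have hg10 : g1 ((0 : En n), (0 : En n)) = (0, 0) := by simp only [hg1, hm0, hι0]
  have hιs' : ContDiffAt ℝ 1 (fun p : En n × En n => ι p.1) ((0 : En n), (0 : En n)) :=
    ContDiffAt.comp (g := ι) (f := Prod.fst) ((0 : En n), (0 : En n)) hιs contDiffAt_fst
  have hg1s : ContDiffAt ℝ 1 g1 ((0 : En n), (0 : En n)) := hms.prodMk hιs'
  have hms2 : ContDiffAt ℝ 1 m (g1 ((0 : En n), (0 : En n))) := by
    rw [hg10]
    exact hms
  have hκs : ContDiffAt ℝ 1 κ (m (g1 ((0 : En n), (0 : En n)))) := by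
    rw [hg10, hm0]
    exact me7l_conj C x₀⁻¹
  have hmg : ContDiffAt ℝ 1 (fun p => m (g1 p)) ((0 : En n), (0 : En n)) :=
    ContDiffAt.comp (g := m) (f := g1) _ hms2 hg1s
  have hF : ContDiffAt ℝ 1 (fun p => κ (m (g1 p))) ((0 : En n), (0 : En n)) :=
    ContDiffAt.comp (g := κ) (f := fun p => m (g1 p)) _ hκs hmg
  obtain ⟨K, t, ht, hL⟩ := hF.exists_lipschitzOnWith
  have hr : ball (0 : En n) C.r ∈ 𝓝 (0 : En n) := ball_mem_nhds _ C.r_pos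
  have hE : ∀ᶠ p : En n × En n in 𝓝 ((0 : En n), (0 : En n)), p ∈ t ∧
      κ (m (g1 p)) = C.ψ.symm (x₀ * C.ψ p.1 * C.ψ p.2 * (x₀ * C.ψ p.1)⁻¹) := by
    have e1 : ∀ᶠ p : En n × En n in 𝓝 ((0 : En n), (0 : En n)), m p ∈ ball (0 : En n) C.r := by
      have h2 : ball (0 : En n) C.r ∈ 𝓝 (m ((0 : En n), (0 : En n))) := by
        rw [hm0]
        exact hr
      exact hms.continuousAt h2
    have e2 : ∀ᶠ z in 𝓝 (0 : En n), ι z ∈ ball (0 : En n) C.r := by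
      have h2 : ball (0 : En n) C.r ∈ 𝓝 (ι 0) := by
        rw [hι0]
        exact hr
      exact hιs.continuousAt h2
    have e3 := me7l_inv_eq C
    have e4 : ∀ᶠ z in 𝓝 (0 : En n), z ∈ ball (0 : En n) C.r := hr
    have f1 : Tendsto (Prod.fst : En n × En n → En n) (𝓝 ((0 : En n), (0 : En n))) (𝓝 0) :=
      continuousAt_fst
    have f2 : Tendsto (Prod.snd : En n × En n → En n) (𝓝 ((0 : En n), (0 : En n))) (𝓝 0) :=
      continuousAt_snd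
    filter_upwards [ht, e1, f1.eventually e2, f1.eventually e3, f1.eventually e4,
      f2.eventually e4] with p h1 h2 h3 h4 h5 h6
    refine ⟨h1, ?_⟩
    have h7 : C.ψ (m p) = C.ψ p.1 * C.ψ p.2 := C.ψ.right_inv (C.mul_mem _ h5 _ h6)
    have h8 : C.ψ (m (g1 p)) = C.ψ (m p) * C.ψ (ι p.1) := C.ψ.right_inv (C.mul_mem _ h2 _ h3)
    have h9 : C.ψ (ι p.1) = (C.ψ p.1)⁻¹ := h4
    simp only [hκ]
    rw [h8, h7, h9]
    congr 1
    group
  refine ⟨K, K.2, ?_⟩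
  rw [← C.map_nhds x₀, Filter.eventually_map]
  rw [nhds_prod_eq] at hE
  filter_upwards [hE.curry] with w hw
  refine norm_fderiv_le_of_lipschitzOn ℝ hw (LipschitzOnWith.of_dist_le_mul ?_)
  intro z hz z' hz'
  have h1 := hL.dist_le_mul _ hz.1 _ hz'.1
  rw [hz.2, hz'.2, Prod.dist_eq] at h1
  simpa using h1

/-- Proof: compactness of `K ×ˢ M`; near `(y₀, x₀)` with `y₀ ≠ 1` both sides are comparable
(`‖C.ψ.symm y‖` is bounded below, `a` is bounded on compact sets). Near `(1, x₀)` write `y = ψ z`,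
`x = x₀ * ψ w`: `a (ψ z⁻¹ * x₀ * ψ w) = co a x₀ (m (σ z, w))`, `σ z = ψ.symm (x₀⁻¹ * (ψ z)⁻¹ * x₀)`
(`inv_smooth`, `conj_smooth x₀`), `m (z, w) = ψ.symm (ψ z * ψ w)` (`mul_smooth`), is `C¹` in `(z, w)`
near `(0, 0)`, so Lipschitz (`ContDiffAt.exists_lipschitzOnWith`, compare `me1_local` in ME1). -/
theorem ME7_lip {a : G → ℂ} (ha : C.Sm a) {K M : Set G} (hK : IsCompact K)
    (hKr : K ⊆ C.ψ '' Metric.ball 0 C.r) (hM : IsCompact M) :
    ∃ B : ℝ, 0 ≤ B ∧ ∀ y ∈ K, ∀ x ∈ M, ‖a x - a (y⁻¹ * x)‖ ≤ B * ‖C.ψ.symm y‖ := by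
  have hac : Continuous a := C.sm_continuous ha
  have key : ∃ B : ℝ, 0 ≤ B ∧ ∀ p ∈ K ×ˢ M,
      ‖a p.2 - a (p.1⁻¹ * p.2)‖ ≤ B * ‖C.ψ.symm p.1‖ := by
    refine (hK.prod hM).induction_on (p := fun s => ∃ B : ℝ, 0 ≤ B ∧ ∀ p ∈ s,
      ‖a p.2 - a (p.1⁻¹ * p.2)‖ ≤ B * ‖C.ψ.symm p.1‖) ?_ ?_ ?_ ?_
    · exact ⟨0, le_rfl, fun p hp => absurd hp (notMem_empty p)⟩
    · rintro s t hst ⟨B, hB, h⟩
      exact ⟨B, hB, fun p hp => h p (hst hp)⟩
    · rintro s t ⟨B, hB, h⟩ ⟨B', hB', h'⟩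
      refine ⟨max B B', le_max_of_le_left hB, fun p hp => ?_⟩
      rcases hp with hp | hp
      · exact (h p hp).trans (mul_le_mul_of_nonneg_right (le_max_left _ _) (norm_nonneg _))
      · exact (h' p hp).trans (mul_le_mul_of_nonneg_right (le_max_right _ _) (norm_nonneg _))
    · rintro ⟨y₀, x₀⟩ hp
      have h0 : ∃ B : ℝ, 0 ≤ B ∧ ∀ᶠ p : G × G in 𝓝 (y₀, x₀),
          ‖a p.2 - a (p.1⁻¹ * p.2)‖ ≤ B * ‖C.ψ.symm p.1‖ := by
        by_cases h1 : y₀ = 1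
        · subst h1
          exact me7l_lip_one C ha x₀
        · refine me7l_lip_ne C hac ?_ h1 x₀
          obtain ⟨z, hz, hzy⟩ := hKr hp.1
          have h2 : C.ψ z = y₀ := hzy
          rw [← h2]
          exact C.ψ.map_source (C.ball_sub hz)
      obtain ⟨B, hB, h⟩ := h0
      exact ⟨{p | ‖a p.2 - a (p.1⁻¹ * p.2)‖ ≤ B * ‖C.ψ.symm p.1‖},
        mem_nhdsWithin_of_mem_nhds h, B, hB, fun p hp => hp⟩
  obtain ⟨B, hB, h⟩ := key
  exact ⟨B, hB, fun y hy x hx => h (y, x) ⟨hy, hx⟩⟩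

/-- Proof: near `x₀` write `x = x₀ * ψ w`:
`ψ.symm (x * ψ z * x⁻¹) = ψ.symm (x₀ * ψ (ψ.symm (ψ w * ψ z * (ψ w)⁻¹)) * x₀⁻¹)` for `w, z` near `0`;
`(w, z) ↦ ψ.symm (ψ w * ψ z * (ψ w)⁻¹)` is smooth near `(0, 0)` (`mul_smooth`, `inv_smooth`), so the
composition with the smooth map `ψ.symm (x₀ * ψ · * x₀⁻¹)` (`conj_smooth x₀⁻¹`) is Lipschitz in
`z` uniformly in `w` near `(0, 0)`, and the derivative is bounded by the Lipschitz constant;
compactness of `M`. -/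
theorem ME7_ad {M : Set G} (hM : IsCompact M) :
    ∃ B : ℝ, 0 ≤ B ∧ ∀ x ∈ M, ‖fderiv ℝ (fun z => C.ψ.symm (x * C.ψ z * x⁻¹)) 0‖ ≤ B := by
  refine hM.induction_on (p := fun s => ∃ B : ℝ, 0 ≤ B ∧ ∀ x ∈ s,
      ‖fderiv ℝ (fun z => C.ψ.symm (x * C.ψ z * x⁻¹)) 0‖ ≤ B) ?_ ?_ ?_ ?_
  · exact ⟨0, le_rfl, fun p hp => absurd hp (notMem_empty p)⟩
  · rintro s t hst ⟨B, hB, h⟩
    exact ⟨B, hB, fun p hp => h p (hst hp)⟩
  · rintro s t ⟨B, hB, h⟩ ⟨B', hB', h'⟩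
    refine ⟨max B B', le_max_of_le_left hB, fun p hp => ?_⟩
    rcases hp with hp | hp
    · exact (h p hp).trans (le_max_left _ _)
    · exact (h' p hp).trans (le_max_right _ _)
  · intro x₀ _
    obtain ⟨B, hB, h⟩ := me7l_ad_local C x₀
    exact ⟨{x | ‖fderiv ℝ (fun z => C.ψ.symm (x * C.ψ z * x⁻¹)) 0‖ ≤ B},
      mem_nhdsWithin_of_mem_nhds h, B, hB, fun p hp => hp⟩

end CLG

end HR
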