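import Pool.Agent.W_06f097_h43.ME7D
import Pool.Agent.W_06f097_h43.ME7C
import Pool.Agent.W_06f097_h43.ME7L
import Pool.Agent.W_06f097_h43.ME5

/-! MP_06f097_an blueprint, block ME: the uniform bound of Friedrichs. -/

open scoped Topology ContDiff Pointwise
open MeasureTheory Set Filter Metric

noncomputable section

namespace HR

namespace CLG

section basic

variable {n : ℕ} {G : Type*} [Group G] [TopologicalSpace G] (C : CLG n G) [IsTopologicalGroup G]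

theorem ME7F_tendsto (x : G) : Tendsto (fun z => x * C.ψ z) (𝓝 0) (𝓝 x) := by
  rw [← C.map_nhds x]
  exact tendsto_map

theorem ME7F_D_zero {F : Type*} [NormedAddCommGroup F] [NormedSpace ℝ F] {u : G → F} {L : Set G}
    (hL : IsClosed L) (hu : ∀ x, x ∉ L → u x = 0) {x : G} (hx : x ∉ L) : C.D u x = 0 := by
  have h1 : C.co u x =ᶠ[𝓝 0] fun _ => (0 : F) := by
    filter_upwards [(C.ME7F_tendsto x).eventually (hL.isOpen_compl.mem_nhds hx)] with z hz
    exact hu _ hz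
  unfold D
  rw [h1.fderiv_eq]
  simp

theorem ME7F_symm_one : C.ψ.symm 1 = 0 := by
  rw [← C.map_zero]
  exact C.ψ.left_inv (C.ball_sub (mem_ball_self C.r_pos))

theorem ME7F_ev {φ : En n → G} (hc : ContinuousAt φ 0) (h1 : φ 0 = 1) :
    ∀ᶠ z in 𝓝 (0 : En n), C.ψ (C.ψ.symm (φ z)) = φ z := by
  have h0 : (0 : En n) ∈ C.ψ.source := C.ball_sub (mem_ball_self C.r_pos)
  have ht : C.ψ.target ∈ 𝓝 (φ 0) := by
    rw [h1, ← C.map_zero]
    exact C.ψ.open_target.mem_nhds (C.ψ.map_source h0)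
  filter_upwards [hc.preimage_mem_nhds ht] with z hz
  rw [C.ψ.right_inv hz]

/-- the derivative of `s ↦ ρ (x s⁻¹)` at `s = y⁻¹ x` -/
theorem ME7F_DR {ρ : G → ℝ} (hρ : C.Sm ρ) (x y : G) (v : En n) :
    C.D (fun s => ρ (x * s⁻¹)) (y⁻¹ * x) v =
      C.Dl ρ y ((fderiv ℝ (fun z => C.ψ.symm (x * C.ψ z * x⁻¹)) 0)
        ((fderiv ℝ (fun z => C.ψ.symm (C.ψ z)⁻¹) 0) v)) := by
  have hψ : ContinuousAt C.ψ (0 : En n) :=
    C.ψ.continuousAt (C.ball_sub (mem_ball_self C.r_pos))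
  have hι : DifferentiableAt ℝ (fun z => C.ψ.symm (C.ψ z)⁻¹) (0 : En n) :=
    (C.inv_smooth.restrict_scalars ℝ).differentiableAt (by simp)
  have hσ : DifferentiableAt ℝ (fun z => C.ψ.symm (x * C.ψ z * x⁻¹)) (0 : En n) := by
    have h1 := (C.conj_smooth x⁻¹).restrict_scalars ℝ
    rw [inv_inv] at h1
    exact h1.differentiableAt (by simp)
  have hg := (C.ME7_diff_Dl hρ y).hasFDerivAt
  have hι0 : C.ψ.symm (C.ψ (0 : En n))⁻¹ = 0 := by
    rw [C.map_zero, inv_one]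
    exact C.ME7F_symm_one
  have hσ0 : C.ψ.symm (x * C.ψ (0 : En n) * x⁻¹) = 0 := by
    rw [C.map_zero, mul_one, mul_inv_cancel]
    exact C.ME7F_symm_one
  have hev : C.co (fun s => ρ (x * s⁻¹)) (y⁻¹ * x) =ᶠ[𝓝 0] ((fun w => ρ (C.ψ w * y)) ∘
      (fun z => C.ψ.symm (x * C.ψ z * x⁻¹))) ∘ (fun z => C.ψ.symm (C.ψ z)⁻¹) := by
    have e1 := C.ME7F_ev (φ := fun z => (C.ψ z)⁻¹) hψ.inv (by simp [C.map_zero])
    have e2 := C.ME7F_ev (φ := fun z => x * C.ψ z * x⁻¹)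
      ((continuousAt_const.mul hψ).mul continuousAt_const) (by simp [C.map_zero])
    have e3 : Tendsto (fun z => C.ψ.symm (C.ψ z)⁻¹) (𝓝 (0 : En n)) (𝓝 0) := by
      have := hι.continuousAt.tendsto
      rwa [show C.ψ.symm (C.ψ (0 : En n))⁻¹ = 0 from hι0] at this
    filter_upwards [e1, e3.eventually e2] with z h1 h2
    simp only [co, Function.comp]
    rw [h2, h1]
    congr 1
    group
  have hg' : HasFDerivAt (fun w => ρ (C.ψ w * y)) (C.Dl ρ y)
      ((fun z => C.ψ.symm (x * C.ψ z * x⁻¹)) (0 : En n)) := by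
    show HasFDerivAt (fun w => ρ (C.ψ w * y)) (C.Dl ρ y) (C.ψ.symm (x * C.ψ (0 : En n) * x⁻¹))
    rw [hσ0]
    exact hg
  have h1 := hg'.comp (0 : En n) hσ.hasFDerivAt
  have h1' : HasFDerivAt ((fun w => ρ (C.ψ w * y)) ∘ (fun z => C.ψ.symm (x * C.ψ z * x⁻¹)))
      ((C.Dl ρ y).comp (fderiv ℝ (fun z => C.ψ.symm (x * C.ψ z * x⁻¹)) 0))
      ((fun z => C.ψ.symm (C.ψ z)⁻¹) (0 : En n)) := by
    show HasFDerivAt _ _ (C.ψ.symm (C.ψ (0 : En n))⁻¹)
    rw [hι0]
    exact h1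
  have h2 := h1'.comp (0 : En n) hι.hasFDerivAt
  unfold D
  rw [hev.fderiv_eq, h2.fderiv]
  rfl

theorem ME7F_D_ofReal {f : G → ℝ} (hf : C.Sm f) (x : G) (v : En n) :
    C.D (fun y => (f y : ℂ)) x v = ((C.D f x v : ℝ) : ℂ) := by
  have h1 : DifferentiableAt ℝ (C.co f x) 0 := (hf x).differentiableAt (by simp)
  have h2 : C.co (fun y => (f y : ℂ)) x = Complex.ofRealCLM ∘ C.co f x := rfl
  have h3 := (Complex.ofRealCLM.hasFDerivAt (x := C.co f x 0)).comp (0 : En n) h1.hasFDerivAt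
  unfold D
  rw [h2, h3.fderiv]
  rfl

end basic

variable {n : ℕ} {G : Type*} [Group G] [TopologicalSpace G] (C : CLG n G)

variable [IsTopologicalGroup G] [T2Space G]
  [LocallyCompactSpace G] [SecondCountableTopology G] [MeasurableSpace G] [BorelSpace G]
  (μ : Measure G) [μ.IsHaarMeasure]

/-- the integral of a left invariant derivative against the right Haar measure is zero -/
theorem ME7F_int_zero {f : G → ℂ} (hf : C.Sm f) (hc : HasCompactSupport f) (v : En n) (x : G) :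
    ∫ y, C.D f (y⁻¹ * x) v ∂μ = 0 := by
  have hr2 : closedBall (0 : En n) (C.r / 2) ⊆ ball (0 : En n) C.r :=
    closedBall_subset_ball (by linarith [C.r_pos])
  have hcomp : IsCompact (C.ψ '' closedBall (0 : En n) (C.r / 2)) :=
    (isCompact_closedBall _ _).image_of_continuousOn
      (C.ψ.continuousOn.mono (hr2.trans C.ball_sub))
  set K' : Set G := {x} * (C.ψ '' closedBall (0 : En n) (C.r / 2)) * (tsupport f)⁻¹ with hK'
  have hK'c : IsCompact K' := (isCompact_singleton.mul hcomp).mul hc.isCompact.inv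
  obtain ⟨θ, hθs, hθc, -, -, -, V, hV, hKV, hθ1⟩ := C.exists_cutoff hK'c isOpen_univ (subset_univ _)
  have hθ : Continuous θ := C.sm_continuous hθs
  have key : ∀ z ∈ closedBall (0 : En n) (C.r / 2), ∀ y, f (y⁻¹ * (x * C.ψ z)) ≠ 0 → θ y = 1 := by
    intro z hz y hy
    apply hθ1 y (hKV _)
    refine ⟨x * C.ψ z, ⟨x, rfl, C.ψ z, ⟨z, hz, rfl⟩, rfl⟩, (y⁻¹ * (x * C.ψ z))⁻¹, ?_, ?_⟩
    · rw [Set.inv_mem_inv]
      exact subset_tsupport f hy
    · simp only
      group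
  have hconst : ∀ z ∈ closedBall (0 : En n) (C.r / 2),
      Mol μ θ f (x * C.ψ z) = ∫ y, f y⁻¹ ∂μ := by
    intro z hz
    have h1 : Mol μ θ f (x * C.ψ z) = ∫ y, f (y⁻¹ * (x * C.ψ z)) ∂μ := by
      unfold Mol
      congr 1
      funext y
      by_cases hy : f (y⁻¹ * (x * C.ψ z)) = 0
      · rw [hy, mul_zero]
      · rw [key z hz y hy]
        simp
    rw [h1, ← integral_mul_left_eq_self (μ := μ) (fun y => f y⁻¹) ((x * C.ψ z)⁻¹)]
    congr 1
    funext y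
    congr 1
    group
  have hD : C.D (Mol μ θ f) x v = 0 := by
    have h1 : C.co (Mol μ θ f) x =ᶠ[𝓝 0] fun _ => ∫ y, f y⁻¹ ∂μ := by
      filter_upwards [closedBall_mem_nhds (0 : En n) (by linarith [C.r_pos] : 0 < C.r / 2)]
        with z hz
      exact hconst z hz
    unfold D
    rw [h1.fderiv_eq]
    simp
  rw [C.mol_D μ hθ hθc hf v x] at hD
  rw [← hD]
  unfold Mol
  congr 1
  funext y
  by_cases hy : y⁻¹ * x ∈ tsupport f
  · have h2 : θ y = 1 := by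
      apply hθ1 y (hKV _)
      refine ⟨x * C.ψ 0, ⟨x, rfl, C.ψ 0, ⟨0, mem_closedBall_self (by linarith [C.r_pos]), rfl⟩, rfl⟩,
        (y⁻¹ * x)⁻¹, ?_, ?_⟩
      · rw [Set.inv_mem_inv]
        exact hy
      · simp only [C.map_zero]
        group
    rw [h2]
    simp
  · have h3 : C.D f (y⁻¹ * x) = 0 :=
      C.ME7F_D_zero (isClosed_tsupport f) (fun z hz => image_eq_zero_of_notMem_tsupport hz) hy
    have h4 : C.D f (y⁻¹ * x) v = 0 := by rw [h3]; rfl
    show C.D f (y⁻¹ * x) v = (θ y : ℂ) * C.D f (y⁻¹ * x) v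
    rw [h4, mul_zero]

theorem ME7F_cs {E : Type*} [Zero E] {g : G → E} (hg : HasCompactSupport g) (x : G) :
    HasCompactSupport (fun y => g (y⁻¹ * x)) :=
  hg.comp_homeomorph ((Homeomorph.inv G).trans (Homeomorph.mulRight x))

/-- continuity of the derivative in a fixed direction -/
theorem ME7F_Dcont {u : G → ℂ} (hu : C.Sm u) (v : En n) : Continuous (fun y => C.D u y v) :=
  C.sm_continuous (C.sm_D hu v)

/-- the commutator as an integral -/
theorem ME7F_formula {ρ : G → ℝ} (hρ : C.Sm ρ) (hc : HasCompactSupport ρ) {a u : G → ℂ}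
    (ha : C.Sm a) (hu : C.Sm u) (huc : HasCompactSupport u) (v : En n) (x : G) :
    a x * C.D (Mol μ ρ u) x v - Mol μ ρ (fun y => a y * C.D u y v) x =
      ∫ y, (-((C.D (fun s => ρ (x * s⁻¹)) (y⁻¹ * x) v : ℝ) : ℂ) * (a x - a (y⁻¹ * x)) +
        (ρ y : ℂ) * C.D a (y⁻¹ * x) v) * u (y⁻¹ * x) ∂μ := by
  have hρc : Continuous ρ := C.sm_continuous hρ
  have huc' : Continuous u := C.sm_continuous hu
  have hac : Continuous a := C.sm_continuous ha
  have hDu := C.ME7F_Dcont hu v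
  have hDa := C.ME7F_Dcont ha v
  -- the function `f`
  have hR : C.Sm (fun s => ρ (x * s⁻¹)) := C.sm_invFun (C.sm_left hρ x)
  have hRC : C.Sm (fun s => ((ρ (x * s⁻¹) : ℝ) : ℂ)) := C.sm_ofReal.2 hR
  have hA : C.Sm (fun s => a x - a s) := C.sm_sub (C.sm_const (a x)) ha
  have hAu : C.Sm (fun s => (a x - a s) * u s) := C.sm_mul hA hu
  have hf : C.Sm (fun s => ((ρ (x * s⁻¹) : ℝ) : ℂ) * ((a x - a s) * u s)) := C.sm_mul hRC hAu
  have hfc : HasCompactSupport (fun s => ((ρ (x * s⁻¹) : ℝ) : ℂ) * ((a x - a s) * u s)) := by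
    refine huc.mono ?_
    intro s hs
    rw [Function.mem_support] at hs ⊢
    intro h0
    apply hs
    rw [h0, mul_zero, mul_zero]
  have h0 := C.ME7F_int_zero μ hf hfc v x
  have hDf : ∀ y, C.D (fun s => ((ρ (x * s⁻¹) : ℝ) : ℂ) * ((a x - a s) * u s)) (y⁻¹ * x) v =
      ((C.D (fun s => ρ (x * s⁻¹)) (y⁻¹ * x) v : ℝ) : ℂ) * ((a x - a (y⁻¹ * x)) * u (y⁻¹ * x)) +
        (ρ y : ℂ) * (- C.D a (y⁻¹ * x) v * u (y⁻¹ * x) +
          (a x - a (y⁻¹ * x)) * C.D u (y⁻¹ * x) v) := by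
    intro y
    rw [C.CA3_D_mul hRC hAu, C.CA3_D_mul hA hu, C.ME7F_D_ofReal hR, C.CA3_D_sub (C.sm_const _) ha,
      C.CA3_D_const]
    have h1 : x * (y⁻¹ * x)⁻¹ = y := by group
    rw [h1]
    simp
  simp_rw [hDf] at h0
  -- integrability
  have hcy : Continuous (fun y : G => y⁻¹ * x) := by fun_prop
  have hucy : HasCompactSupport (fun y : G => u (y⁻¹ * x)) := ME7F_cs huc x
  have hDu0 : HasCompactSupport (fun s : G => C.D u s v) := by
    refine huc.mono' ?_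
    intro s hs
    by_contra h
    apply hs
    have h1 := C.ME7F_D_zero (isClosed_tsupport u)
      (fun z hz => image_eq_zero_of_notMem_tsupport hz) h
    show C.D u s v = 0
    rw [h1]
    rfl
  have hDucy : HasCompactSupport (fun y : G => C.D u (y⁻¹ * x) v) := ME7F_cs hDu0 x
  have hDRc : Continuous (fun y => ((C.D (fun s => ρ (x * s⁻¹)) (y⁻¹ * x) v : ℝ) : ℂ)) :=
    Complex.continuous_ofReal.comp ((C.sm_continuous (C.sm_D hR v)).comp hcy)
  have hρC : Continuous (fun y => (ρ y : ℂ)) := Complex.continuous_ofReal.comp hρc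
  have hAc : Continuous (fun y => a x - a (y⁻¹ * x)) := continuous_const.sub (hac.comp hcy)
  have i1 : Integrable (fun y => (-((C.D (fun s => ρ (x * s⁻¹)) (y⁻¹ * x) v : ℝ) : ℂ) *
      (a x - a (y⁻¹ * x)) + (ρ y : ℂ) * C.D a (y⁻¹ * x) v) * u (y⁻¹ * x)) μ := by
    refine Continuous.integrable_of_hasCompactSupport ?_ ?_
    · exact ((hDRc.neg.mul hAc).add (hρC.mul (hDa.comp hcy))).mul (huc'.comp hcy)
    · exact hucy.mul_left
  have i2 : Integrable (fun y => (ρ y : ℂ) * ((a x - a (y⁻¹ * x)) * C.D u (y⁻¹ * x) v)) μ := by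
    refine Continuous.integrable_of_hasCompactSupport ?_ ?_
    · exact hρC.mul (hAc.mul (hDu.comp hcy))
    · exact (hDucy.mul_left).mul_left
  have i3 : Integrable (fun y => (ρ y : ℂ) * C.D u (y⁻¹ * x) v) μ := by
    refine Continuous.integrable_of_hasCompactSupport ?_ ?_
    · exact hρC.mul (hDu.comp hcy)
    · exact hDucy.mul_left
  have i4 : Integrable (fun y => (ρ y : ℂ) * (a (y⁻¹ * x) * C.D u (y⁻¹ * x) v)) μ := by
    refine Continuous.integrable_of_hasCompactSupport ?_ ?_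
    · exact hρC.mul ((hac.comp hcy).mul (hDu.comp hcy))
    · exact (hDucy.mul_left).mul_left
  have e1 : a x * C.D (Mol μ ρ u) x v - Mol μ ρ (fun y => a y * C.D u y v) x =
      ∫ y, (ρ y : ℂ) * ((a x - a (y⁻¹ * x)) * C.D u (y⁻¹ * x) v) ∂μ := by
    rw [C.mol_D μ hρc hc hu v x]
    unfold Mol
    rw [← integral_const_mul, ← integral_sub (i3.const_mul (a x)) i4]
    congr 1
    funext y
    ring
  have e2 : ∫ y, (((C.D (fun s => ρ (x * s⁻¹)) (y⁻¹ * x) v : ℝ) : ℂ) *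
      ((a x - a (y⁻¹ * x)) * u (y⁻¹ * x)) +
        (ρ y : ℂ) * (- C.D a (y⁻¹ * x) v * u (y⁻¹ * x) +
          (a x - a (y⁻¹ * x)) * C.D u (y⁻¹ * x) v)) ∂μ =
      (∫ y, (ρ y : ℂ) * ((a x - a (y⁻¹ * x)) * C.D u (y⁻¹ * x) v) ∂μ) -
      ∫ y, (-((C.D (fun s => ρ (x * s⁻¹)) (y⁻¹ * x) v : ℝ) : ℂ) * (a x - a (y⁻¹ * x)) +
        (ρ y : ℂ) * C.D a (y⁻¹ * x) v) * u (y⁻¹ * x) ∂μ := by
    rw [← integral_sub i2 i1]
    congr 1
    funext y
    ring
  rw [e1]
  rw [e2] at h0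
  exact sub_eq_zero.1 h0

/-- Friedrichs bound. -/
theorem friedrichs_bound {ρ : ℕ → G → ℝ} (hρ : C.GoodMoll μ ρ) {a : G → ℂ} (ha : C.Sm a)
    (v : En n) {L : Set G} (hL : IsCompact L) :
    ∃ B : ℝ, 0 ≤ B ∧ ∀ k, ∀ u : G → ℂ, C.Sm u → (∀ x, x ∉ L → u x = 0) →
      ∫ x, ‖a x * C.D (Mol μ (ρ k) u) x v - Mol μ (ρ k) (fun y => a y * C.D u y v) x‖ ^ 2 ∂μ ≤
        B * ∫ x, ‖u x‖ ^ 2 ∂μ := by
  obtain ⟨K, hK, hKr, hρK⟩ := hρ.comp
  obtain ⟨Bs, hBs⟩ := hρ.scale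
  have hM : IsCompact (K * L) := hK.mul hL
  obtain ⟨B₁, hB₁, hlip⟩ := C.ME7_lip ha hK hKr hM
  obtain ⟨B₂, hB₂, had⟩ := C.ME7_ad hM
  -- bound of `D a` on `K⁻¹ * (K * L)`
  have hDa := C.ME7F_Dcont ha v
  obtain ⟨B₃, hB₃⟩ := (hK.inv.mul hM).exists_bound_of_continuousOn hDa.continuousOn
  obtain ⟨c₁, hc₁⟩ : ∃ c₁ : ℝ, c₁ = B₂ * ‖(fderiv ℝ (fun z => C.ψ.symm (C.ψ z)⁻¹) 0) v‖ * B₁ :=
    ⟨_, rfl⟩
  obtain ⟨c₂, hc₂⟩ : ∃ c₂ : ℝ, c₂ = max B₃ 0 := ⟨_, rfl⟩
  have hc₁0 : 0 ≤ c₁ := by rw [hc₁]; positivity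
  have hc₂0 : 0 ≤ c₂ := by rw [hc₂]; exact le_max_right _ _
  refine ⟨(c₁ * max Bs 0 + c₂) ^ 2, by positivity, fun k u hu hu0 => ?_⟩
  have hρs := hρ.sm k
  have hρc : Continuous (ρ k) := C.sm_continuous hρs
  have hρcs : HasCompactSupport (ρ k) := hK.of_isClosed_subset isClosed_closure (hρK k)
  have hucs : HasCompactSupport u := HasCompactSupport.intro hL hu0
  have huc : Continuous u := C.sm_continuous hu
  -- the kernel
  obtain ⟨κ, hκ⟩ : ∃ κ : G → ℝ, κ = fun y => c₁ * (‖C.Dl (ρ k) y‖ * ‖C.ψ.symm y‖) + c₂ * ρ k y :=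
    ⟨_, rfl⟩
  have hκ1c : Continuous (fun y => ‖C.Dl (ρ k) y‖ * ‖C.ψ.symm y‖) :=
    C.ME7_cont_scale hρs ((hρK k).trans hKr)
  have hκ1s : HasCompactSupport (fun y => ‖C.Dl (ρ k) y‖ * ‖C.ψ.symm y‖) := by
    refine hρcs.mono' ?_
    intro y hy
    by_contra h
    apply hy
    show ‖C.Dl (ρ k) y‖ * ‖C.ψ.symm y‖ = 0
    rw [C.ME7_Dl_zero h, norm_zero, zero_mul]
  have hκc : Continuous κ := by
    rw [hκ]
    exact (continuous_const.mul hκ1c).add (continuous_const.mul hρc)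
  have hκs : HasCompactSupport κ := by
    rw [hκ]
    exact (hκ1s.mul_left).add (hρcs.mul_left)
  have hκ0 : ∀ y, 0 ≤ κ y := by
    intro y
    rw [hκ]
    have := hρ.nonneg k y
    positivity
  have hκI : ∫ y, κ y ∂μ ≤ c₁ * max Bs 0 + c₂ := by
    rw [hκ, integral_add ((hκ1c.integrable_of_hasCompactSupport hκ1s).const_mul c₁)
      ((hρc.integrable_of_hasCompactSupport hρcs).const_mul c₂), integral_const_mul,
      integral_const_mul, hρ.mass k, mul_one]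
    gcongr
    exact (hBs k).trans (le_max_left _ _)
  have hκI0 : 0 ≤ ∫ y, κ y ∂μ := integral_nonneg hκ0
  -- pointwise bound
  have hpt : ∀ x, ‖a x * C.D (Mol μ (ρ k) u) x v - Mol μ (ρ k) (fun y => a y * C.D u y v) x‖ ≤
      ‖Mol μ κ (fun s => ((‖u s‖ : ℝ) : ℂ)) x‖ := by
    intro x
    by_cases hx : x ∈ K * L
    · rw [C.ME7F_formula μ hρs hρcs ha hu hucs v x]
      have hint : Integrable (fun y => κ y * ‖u (y⁻¹ * x)‖) μ := by
        refine Continuous.integrable_of_hasCompactSupport ?_ ?_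
        · exact hκc.mul (huc.comp (by fun_prop)).norm
        · exact hκs.mul_right
      have h1 : ‖Mol μ κ (fun s => ((‖u s‖ : ℝ) : ℂ)) x‖ = ∫ y, κ y * ‖u (y⁻¹ * x)‖ ∂μ := by
        have h2 : Mol μ κ (fun s => ((‖u s‖ : ℝ) : ℂ)) x =
            ((∫ y, κ y * ‖u (y⁻¹ * x)‖ ∂μ : ℝ) : ℂ) := by
          refine Eq.trans ?_ (integral_ofReal (𝕜 := ℂ) (μ := μ)
            (f := fun y => κ y * ‖u (y⁻¹ * x)‖))
          unfold Mol
          congr 1
          funext y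
          push_cast
          rfl
        rw [h2, Complex.norm_real, Real.norm_eq_abs,
          abs_of_nonneg (integral_nonneg fun y => mul_nonneg (hκ0 y) (norm_nonneg _))]
      rw [h1]
      refine norm_integral_le_of_norm_le hint (Eventually.of_forall fun y => ?_)
      rw [norm_mul]
      refine mul_le_mul_of_nonneg_right ?_ (norm_nonneg _)
      by_cases hy : y ∈ tsupport (ρ k)
      · have hyK : y ∈ K := hρK k hy
        have b1 := hlip y hyK x hx
        have b2 : ‖C.D a (y⁻¹ * x) v‖ ≤ c₂ := by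
          rw [hc₂]
          refine (hB₃ _ ?_).trans (le_max_left _ _)
          exact Set.mul_mem_mul (Set.inv_mem_inv.2 hyK) hx
        have b3 : |C.D (fun s => ρ k (x * s⁻¹)) (y⁻¹ * x) v| ≤
            ‖C.Dl (ρ k) y‖ * (B₂ * ‖(fderiv ℝ (fun z => C.ψ.symm (C.ψ z)⁻¹) 0) v‖) := by
          rw [C.ME7F_DR hρs x y v, ← Real.norm_eq_abs]
          refine (ContinuousLinearMap.le_opNorm _ _).trans ?_
          gcongr
          refine (ContinuousLinearMap.le_opNorm _ _).trans ?_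
          gcongr
          exact had x hx
        have b4 := hρ.nonneg k y
        refine (norm_add_le _ _).trans ?_
        rw [norm_mul, norm_mul, norm_neg, Complex.norm_real, Complex.norm_real, Real.norm_eq_abs,
          Real.norm_eq_abs, abs_of_nonneg b4, hκ]
        have b5 : |C.D (fun s => ρ k (x * s⁻¹)) (y⁻¹ * x) v| * ‖a x - a (y⁻¹ * x)‖ ≤
            (‖C.Dl (ρ k) y‖ * (B₂ * ‖(fderiv ℝ (fun z => C.ψ.symm (C.ψ z)⁻¹) 0) v‖)) *
              (B₁ * ‖C.ψ.symm y‖) :=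
          mul_le_mul b3 b1 (norm_nonneg _) (by positivity)
        have b6 : ρ k y * ‖C.D a (y⁻¹ * x) v‖ ≤ c₂ * ρ k y := by
          rw [mul_comm c₂]
          exact mul_le_mul_of_nonneg_left b2 b4
        refine (add_le_add b5 b6).trans (le_of_eq ?_)
        rw [hc₁]
        ring
      · have h2 : ρ k y = 0 := image_eq_zero_of_notMem_tsupport hy
        rw [C.ME7F_DR hρs x y v, C.ME7_Dl_zero hy, h2]
        simp only [_root_.zero_apply, Complex.ofReal_zero, neg_zero, zero_mul, add_zero, norm_zero]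
        exact hκ0 y
    · have hρ0 : ∀ y, y ∉ K → ρ k y = 0 := fun y hy =>
        image_eq_zero_of_notMem_tsupport fun h => hy (hρK k h)
      have hDu0 : ∀ y, y ∉ L → C.D u y v = 0 := by
        intro y hy
        rw [C.ME7F_D_zero hL.isClosed hu0 hy]
        rfl
      have h1 : C.D (Mol μ (ρ k) u) x v = 0 := by
        rw [C.mol_D μ hρc hρcs hu v x]
        exact mol_support μ hρ0 hDu0 x hx
      have h2 : Mol μ (ρ k) (fun y => a y * C.D u y v) x = 0 := by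
        refine mol_support μ hρ0 (fun y hy => ?_) x hx
        rw [hDu0 y hy, mul_zero]
      rw [h1, h2, mul_zero, sub_zero, norm_zero]
      exact norm_nonneg _
  -- conclusion
  have hui : Integrable (fun s => ‖((‖u s‖ : ℝ) : ℂ)‖ ^ 2) μ := by
    refine Continuous.integrable_of_hasCompactSupport ?_ ?_
    · exact ((Complex.continuous_ofReal.comp huc.norm).norm).pow 2
    · refine HasCompactSupport.intro hL fun s hs => ?_
      rw [hu0 s hs]
      simp
  have hum : AEStronglyMeasurable (fun s => ((‖u s‖ : ℝ) : ℂ)) μ :=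
    (Complex.continuous_ofReal.comp huc.norm).aestronglyMeasurable
  obtain ⟨hi, hle⟩ := mol_L2 μ hκc hκs hκ0 hum hui
  calc ∫ x, ‖a x * C.D (Mol μ (ρ k) u) x v - Mol μ (ρ k) (fun y => a y * C.D u y v) x‖ ^ 2 ∂μ
      ≤ ∫ x, ‖Mol μ κ (fun s => ((‖u s‖ : ℝ) : ℂ)) x‖ ^ 2 ∂μ := by
        refine integral_mono_of_nonneg (Eventually.of_forall fun x => by positivity) hi
          (Eventually.of_forall fun x => ?_)
        exact pow_le_pow_left₀ (norm_nonneg _) (hpt x) 2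
    _ ≤ (∫ y, κ y ∂μ) ^ 2 * ∫ s, ‖((‖u s‖ : ℝ) : ℂ)‖ ^ 2 ∂μ := hle
    _ ≤ (c₁ * max Bs 0 + c₂) ^ 2 * ∫ s, ‖u s‖ ^ 2 ∂μ := by
        have h1 : (fun s => ‖((‖u s‖ : ℝ) : ℂ)‖ ^ 2) = fun s => ‖u s‖ ^ 2 := by
          funext s
          rw [Complex.norm_real, norm_norm]
        rw [h1]
        refine mul_le_mul_of_nonneg_right (pow_le_pow_left₀ hκI0 hκI 2) ?_
        exact integral_nonneg fun s => by positivity

end CLG

end HR
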