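import Pool.Agent.W_06f097_h43.ME7G
import Pool.Agent.W_06f097_h43.ME7F

/-! MP_06f097_an blueprint, block ME: good mollifiers and the bound of Friedrichs (see ME7D, ME7G, ME7F). -/
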