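import Pool.Agent.W_06f097_h43.ME1
import Pool.Agent.W_06f097_h43.ME3
import Pool.Agent.W_06f097_h43.ME4
import Pool.Agent.W_06f097_h43.CA5

/-! MP_06f097_an blueprint, block ME: good mollifiers (definitions). -/

open scoped Topology ContDiff Pointwise
open MeasureTheory Set Filter Metric

noncomputable section

namespace HR

namespace CLG

variable {n : ℕ} {G : Type*} [Group G] [TopologicalSpace G] (C : CLG n G)

/-- right invariant derivative of `ρ` at `z`: derivative of `w ↦ ρ (ψ w * z)` at `0` -/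
def Dl (ρ : G → ℝ) (z : G) : En n →L[ℝ] ℝ := fderiv ℝ (fun w => ρ (C.ψ w * z)) 0

/-- mollifiers with the natural scaling -/
structure GoodMoll [MeasurableSpace G] (μ : Measure G) (ρ : ℕ → G → ℝ) : Prop where
  sm : ∀ k, C.Sm (ρ k)
  nonneg : ∀ k x, 0 ≤ ρ k x
  mass : ∀ k, ∫ x, ρ k x ∂μ = 1
  comp : ∃ K : Set G, IsCompact K ∧ K ⊆ C.ψ '' Metric.ball 0 C.r ∧ ∀ k, tsupport (ρ k) ⊆ K
  shrink : ∀ U ∈ 𝓝 (1 : G), ∀ᶠ k in atTop, tsupport (ρ k) ⊆ U
  scale : ∃ B : ℝ, ∀ k, ∫ z, ‖C.Dl (ρ k) z‖ * ‖C.ψ.symm z‖ ∂μ ≤ B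


end CLG

end HR
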