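import Pool.Agent.W_06f097_h43.ME7D
import Pool.Agent.W_06f097_h43.ME2

/-! MP_06f097_an blueprint, block ME: existence of good mollifiers. -/

open scoped Topology ContDiff Pointwise
open MeasureTheory Set Filter Metric

noncomputable section

namespace HR

namespace CLG

variable {n : ℕ} {G : Type*} [Group G] [TopologicalSpace G] (C : CLG n G)

variable [IsTopologicalGroup G] [T2Space G]
  [LocallyCompactSpace G] [SecondCountableTopology G] [MeasurableSpace G] [BorelSpace G]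
  (μ : Measure G) [μ.IsHaarMeasure]

omit [T2Space G] [LocallyCompactSpace G] [SecondCountableTopology G] [MeasurableSpace G]
  [BorelSpace G] [IsTopologicalGroup G] in
/-- the slices of the multiplication are uniformly differentiable -/
theorem ME7G_slice {R : ℝ} (hR : R < C.r) : ∃ M : ℝ, 0 ≤ M ∧
    ∀ ζ ∈ closedBall (0 : En n) R, ∃ T : En n →L[ℝ] En n, ‖T‖ ≤ M ∧
      HasFDerivAt (fun w => C.ψ.symm (C.ψ w * C.ψ ζ)) T 0 := by
  obtain ⟨m, hm⟩ : ∃ m : En n × En n → En n,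
      m = fun p => C.ψ.symm (C.ψ p.1 * C.ψ p.2) := ⟨_, rfl⟩
  have hopen : IsOpen (ball (0 : En n) C.r ×ˢ ball (0 : En n) C.r) := isOpen_ball.prod isOpen_ball
  have h0 : (0 : En n) ∈ ball (0 : En n) C.r := mem_ball_self C.r_pos
  have hsm : ContDiffOn ℝ ∞ m (ball (0 : En n) C.r ×ˢ ball (0 : En n) C.r) := by
    rw [hm]
    exact C.mul_smooth.restrict_scalars ℝ
  have hc : ContinuousOn (fderiv ℝ m) (ball (0 : En n) C.r ×ˢ ball (0 : En n) C.r) :=
    hsm.continuousOn_fderiv_of_isOpen hopen (by simp)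
  have hsub : ({0} : Set (En n)) ×ˢ closedBall (0 : En n) R ⊆
      ball (0 : En n) C.r ×ˢ ball (0 : En n) C.r :=
    prod_mono (singleton_subset_iff.2 h0) (closedBall_subset_ball hR)
  obtain ⟨M, hM⟩ := (isCompact_singleton.prod
    (isCompact_closedBall (0 : En n) R)).exists_bound_of_continuousOn (hc.mono hsub)
  refine ⟨max M 0, le_max_right _ _, fun ζ hζ => ?_⟩
  have hmem : ((0 : En n), ζ) ∈ ({0} : Set (En n)) ×ˢ closedBall (0 : En n) R := ⟨rfl, hζ⟩
  refine ⟨(fderiv ℝ m (0, ζ)).comp (ContinuousLinearMap.inl ℝ (En n) (En n)), ?_, ?_⟩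
  · refine (ContinuousLinearMap.opNorm_comp_le _ _).trans ?_
    calc ‖fderiv ℝ m (0, ζ)‖ * ‖ContinuousLinearMap.inl ℝ (En n) (En n)‖
        ≤ max M 0 * 1 := by
          refine mul_le_mul ((hM _ hmem).trans (le_max_left _ _))
            (ContinuousLinearMap.norm_inl_le_one ℝ (En n) (En n)) (norm_nonneg _)
            (le_max_right _ _)
      _ = max M 0 := mul_one _
  · have q6 : HasFDerivAt m (fderiv ℝ m (0, ζ)) (0, ζ) :=
      ((hsm.contDiffAt (hopen.mem_nhds (hsub hmem))).differentiableAt (by simp)).hasFDerivAt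
    have q5 : HasFDerivAt (fun w : En n => ((w, ζ) : En n × En n))
        (ContinuousLinearMap.inl ℝ (En n) (En n)) 0 := by
      simpa [ContinuousLinearMap.inl] using (hasFDerivAt_prodMk_left (𝕜 := ℝ) (0 : En n) ζ)
    have q7 := q6.comp (0 : En n) q5
    rw [hm] at q7 ⊢
    exact q7

omit [T2Space G] [LocallyCompactSpace G] [SecondCountableTopology G] [MeasurableSpace G]
  [BorelSpace G] [IsTopologicalGroup G] in
/-- right invariant derivatives in the chart -/
theorem ME7G_Dl {β : En n → ℝ} {b : G → ℝ} (hb : ∀ z ∈ ball (0 : En n) C.r, b (C.ψ z) = β z)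
    {ζ : En n} (hζ : ζ ∈ ball (0 : En n) C.r) {β' : En n →L[ℝ] ℝ} (hβ : HasFDerivAt β β' ζ)
    {T : En n →L[ℝ] En n} (hT : HasFDerivAt (fun w => C.ψ.symm (C.ψ w * C.ψ ζ)) T 0) :
    C.Dl b (C.ψ ζ) = β'.comp T := by
  have h0 : C.ψ.symm (C.ψ 0 * C.ψ ζ) = ζ := by
    rw [C.map_zero, one_mul]
    exact C.ψ.left_inv (C.ball_sub hζ)
  have h1 : HasFDerivAt β β' (C.ψ.symm (C.ψ 0 * C.ψ ζ)) := by
    rw [h0]
    exact hβ
  have h2 := HasFDerivAt.comp (0 : En n) h1 hT
  have h3 : (fun w => b (C.ψ w * C.ψ ζ)) =ᶠ[𝓝 0]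
      (β ∘ fun w => C.ψ.symm (C.ψ w * C.ψ ζ)) := by
    have h4 : ∀ᶠ w in 𝓝 (0 : En n), C.ψ.symm (C.ψ w * C.ψ ζ) ∈ ball (0 : En n) C.r :=
      hT.continuousAt.eventually (p := fun y => y ∈ ball (0 : En n) C.r)
        (by beta_reduce; rw [h0]; exact isOpen_ball.mem_nhds hζ)
    filter_upwards [h4, ball_mem_nhds (0 : En n) C.r_pos] with w hw hw2
    rw [Function.comp_apply, ← hb _ hw, C.ψ.right_inv (C.mul_mem w hw2 ζ hζ)]
  rw [Dl, (h2.congr_of_eventuallyEq h3).fderiv]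

omit [T2Space G] [LocallyCompactSpace G] [SecondCountableTopology G] [MeasurableSpace G]
  [BorelSpace G] in
theorem ME7G_Dl_zero {b : G → ℝ} {z : G} (hz : z ∉ tsupport b) : C.Dl b z = 0 := by
  have h1 : b =ᶠ[𝓝 z] 0 := notMem_tsupport_iff_eventuallyEq.1 hz
  have h2 : ContinuousAt (fun w : En n => C.ψ w * z) 0 :=
    (C.ψ.continuousAt (C.ball_sub (mem_ball_self C.r_pos))).mul continuousAt_const
  have h3 : (fun w : En n => b (C.ψ w * z)) =ᶠ[𝓝 0] fun _ => (0 : ℝ) := by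
    have h4 : Tendsto (fun w : En n => C.ψ w * z) (𝓝 0) (𝓝 z) := by
      have h5 := h2.tendsto
      rwa [C.map_zero, one_mul] at h5
    exact h4.eventually h1
  rw [Dl, h3.fderiv_eq, fderiv_fun_const]
  rfl

/-- Proof: `ρ_k (ψ z) = κ_k β ((k+1) z / δ)` with a fixed bump `β` supported in the unit ball,
`exists_transport`, `κ_k` the normalising constant. The right invariant derivative at `ψ z` in the
direction `w` is a derivative of `β` in the chart (bounded by `C (k+1)` uniformly: the map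
`(w, z) ↦ ψ.symm (ψ w * ψ z)` is smooth near `(0, 0)`), it is supported in `ψ '' ball 0 (δ/(k+1))`
where `‖ψ.symm z‖ ≤ δ / (k+1)`, and `κ_k μ (ψ '' ball 0 (δ/(k+1)))` is bounded (`haar_comparison`,
ME2, which you may import: `β ≥ 1/2` on a ball of half the size). -/
theorem exists_good : ∃ ρ : ℕ → G → ℝ, C.GoodMoll μ ρ := by
  obtain ⟨δ, hδ, hδr, K, hK1, hK0, hK⟩ := C.haar_comparison μ
  obtain ⟨R, hR, hRδ⟩ : ∃ R : ℝ, 0 < R ∧ R < δ := ⟨δ / 2, by positivity, by linarith⟩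
  have hRr : R < C.r := hRδ.trans_le hδr
  obtain ⟨M, hM0, hM⟩ := C.ME7G_slice hRr
  -- the fixed bump
  obtain ⟨β, hβi, hβo⟩ : ∃ β : ContDiffBump (0 : En n), β.rIn = 1 / 2 ∧ β.rOut = 1 :=
    ⟨⟨1 / 2, 1, by norm_num, by norm_num⟩, rfl, rfl⟩
  obtain ⟨N, hN⟩ : ∃ N : ℝ, ∀ z, ‖fderiv ℝ β z‖ ≤ N :=
    (β.hasCompactSupport.fderiv (𝕜 := ℝ)).exists_bound_of_continuous
      (β.contDiff (n := 1) |>.continuous_fderiv (by norm_num))
  have hN0 : 0 ≤ N := (norm_nonneg _).trans (hN 0)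
  -- radii
  have hk1 : ∀ k : ℕ, (0 : ℝ) < (k : ℝ) + 1 := fun k => by positivity
  have hRk : ∀ k : ℕ, R / ((k : ℝ) + 1) ≤ R := fun k =>
    div_le_self hR.le (by linarith [(Nat.cast_nonneg k : (0 : ℝ) ≤ (k : ℝ))])
  have hRk0 : ∀ k : ℕ, 0 < R / ((k : ℝ) + 1) := fun k => div_pos hR (hk1 k)
  have hs0 : ∀ k : ℕ, 0 < ((k : ℝ) + 1) / R := fun k => div_pos (hk1 k) hR
  have hsR : ∀ k : ℕ, ((k : ℝ) + 1) / R * (R / ((k : ℝ) + 1)) = 1 := fun k => by
    have := (hk1 k).ne'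
    field_simp
  have hcb : ∀ k : ℕ, closedBall (0 : En n) (R / ((k : ℝ) + 1)) ⊆ closedBall 0 R :=
    fun k => closedBall_subset_closedBall (hRk k)
  have hts : ∀ k : ℕ, tsupport (fun z : En n => β ((((k : ℝ) + 1) / R) • z)) ⊆
      closedBall (0 : En n) (R / ((k : ℝ) + 1)) := by
    intro k
    refine closure_minimal ?_ isClosed_closedBall
    intro z hz
    rw [Function.mem_support] at hz
    by_contra hz2
    apply hz
    apply β.zero_of_le_dist
    rw [hβo, dist_zero_right, norm_smul, Real.norm_eq_abs, abs_of_pos (hs0 k)]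
    rw [mem_closedBall_zero_iff, not_le] at hz2
    have h8 := mul_le_mul_of_nonneg_left hz2.le (hs0 k).le
    rwa [hsR k] at h8
  have hone : ∀ (k : ℕ) (z : En n), z ∈ ball (0 : En n) (R / ((k : ℝ) + 1) / 2) →
      β ((((k : ℝ) + 1) / R) • z) = 1 := by
    intro k z hz
    apply β.one_of_mem_closedBall
    rw [hβi, mem_closedBall_zero_iff, norm_smul, Real.norm_eq_abs, abs_of_pos (hs0 k)]
    rw [mem_ball_zero_iff] at hz
    calc ((k : ℝ) + 1) / R * ‖z‖ ≤ ((k : ℝ) + 1) / R * (R / ((k : ℝ) + 1) / 2) :=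
          mul_le_mul_of_nonneg_left hz.le (hs0 k).le
      _ = 1 / 2 := by rw [← mul_div_assoc, hsR k]
  have hcd : ∀ k : ℕ, ContDiff ℝ ∞ (fun z : En n => β ((((k : ℝ) + 1) / R) • z)) := fun k =>
    β.contDiff.comp (contDiff_const_smul _)
  have hcs : ∀ k : ℕ, HasCompactSupport (fun z : En n => β ((((k : ℝ) + 1) / R) • z)) := fun k =>
    (isCompact_closedBall (0 : En n) (R / ((k : ℝ) + 1))).of_isClosed_subset
      (isClosed_tsupport _) (hts k)
  have htr : ∀ k : ℕ, ∃ b : G → ℝ, C.Sm b ∧ HasCompactSupport b ∧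
      tsupport b ⊆ C.ψ '' closedBall (0 : En n) (R / ((k : ℝ) + 1)) ∧
      (∀ z ∈ ball (0 : En n) C.r, b (C.ψ z) = β ((((k : ℝ) + 1) / R) • z)) ∧
      ∀ x, 0 ≤ b x := by
    intro k
    obtain ⟨b, b1, b2, b3, b4, b5⟩ := C.exists_transport (hcd k) (hcs k)
      (((hts k).trans (hcb k)).trans (closedBall_subset_ball hRr))
    refine ⟨b, b1, b2, ?_, b4, fun x => ?_⟩
    · rw [b3]
      exact image_mono (hts k)
    · by_cases hx : x ∈ C.ψ '' tsupport (fun z : En n => β ((((k : ℝ) + 1) / R) • z))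
      · obtain ⟨z, hz, rfl⟩ := hx
        rw [b4 z ((((hts k).trans (hcb k)).trans (closedBall_subset_ball hRr)) hz)]
        exact β.nonneg
      · rw [b5 x hx]
  choose b hb1 hb2 hb3 hb4 hb5 using htr
  -- measures
  have hS : ∀ k : ℕ, IsCompact (C.ψ '' closedBall (0 : En n) (R / ((k : ℝ) + 1))) := fun k =>
    (isCompact_closedBall _ _).image_of_continuousOn (C.ψ.continuousOn.mono
      (((hcb k).trans (closedBall_subset_ball hRr)).trans C.ball_sub))
  have hTsub : ∀ k : ℕ, ball (0 : En n) (R / ((k : ℝ) + 1) / 2) ⊆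
      closedBall (0 : En n) (R / ((k : ℝ) + 1)) := fun k =>
    (ball_subset_ball (by linarith [hRk0 k])).trans ball_subset_closedBall
  have hTr : ∀ k : ℕ, ball (0 : En n) (R / ((k : ℝ) + 1) / 2) ⊆ ball (0 : En n) C.r := fun k =>
    ((hTsub k).trans (hcb k)).trans (closedBall_subset_ball hRr)
  have hT : ∀ k : ℕ, IsOpen (C.ψ '' ball (0 : En n) (R / ((k : ℝ) + 1) / 2)) := fun k =>
    C.ψ.isOpen_image_of_subset_source isOpen_ball ((hTr k).trans C.ball_sub)
  have hTpos : ∀ k : ℕ, 0 < μ (C.ψ '' ball (0 : En n) (R / ((k : ℝ) + 1) / 2)) := fun k =>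
    (hT k).measure_pos μ ⟨1, 0, mem_ball_self (by have := hRk0 k; positivity), C.map_zero⟩
  have hTfin : ∀ k : ℕ, μ (C.ψ '' ball (0 : En n) (R / ((k : ℝ) + 1) / 2)) ≠ ⊤ := fun k =>
    ((measure_mono (image_mono (hTsub k))).trans_lt (hS k).measure_lt_top).ne
  have hcmp : ∀ k : ℕ, μ (C.ψ '' closedBall (0 : En n) (R / ((k : ℝ) + 1))) ≤
      (K * ENNReal.ofReal (2 ^ Module.finrank ℝ (En n)) * K) *
        μ (C.ψ '' ball (0 : En n) (R / ((k : ℝ) + 1) / 2)) := by
    intro k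
    have e1 := (hK _ (measurableSet_closedBall (x := (0 : En n)) (ε := R / ((k : ℝ) + 1)))
      ((hcb k).trans (closedBall_subset_ball hRδ))).2
    have e2 := (hK _ (measurableSet_ball (x := (0 : En n)) (ε := R / ((k : ℝ) + 1) / 2))
      (((hTsub k).trans (hcb k)).trans (closedBall_subset_ball hRδ))).1
    have e3 : volume (closedBall (0 : En n) (R / ((k : ℝ) + 1))) =
        ENNReal.ofReal (2 ^ Module.finrank ℝ (En n)) *
          volume (ball (0 : En n) (R / ((k : ℝ) + 1) / 2)) := by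
      rw [Measure.addHaar_closedBall volume (0 : En n) (hRk0 k).le,
        Measure.addHaar_ball_of_pos volume (0 : En n) (half_pos (hRk0 k)), ← mul_assoc,
        ← ENNReal.ofReal_mul (by positivity), ← mul_pow]
      congr 3
      ring
    calc μ (C.ψ '' closedBall (0 : En n) (R / ((k : ℝ) + 1)))
        ≤ K * (ENNReal.ofReal (2 ^ Module.finrank ℝ (En n)) *
          volume (ball (0 : En n) (R / ((k : ℝ) + 1) / 2))) := by rw [← e3]; exact e1
      _ ≤ K * (ENNReal.ofReal (2 ^ Module.finrank ℝ (En n)) *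
          (K * μ (C.ψ '' ball (0 : En n) (R / ((k : ℝ) + 1) / 2)))) := by gcongr
      _ = _ := by ring
  have hbc : ∀ k, Continuous (b k) := fun k => C.sm_continuous (hb1 k)
  have hbi : ∀ k, Integrable (b k) μ := fun k =>
    (hbc k).integrable_of_hasCompactSupport (hb2 k)
  have hI : ∀ k : ℕ, (μ (C.ψ '' ball (0 : En n) (R / ((k : ℝ) + 1) / 2))).toReal ≤
      ∫ x, b k x ∂μ := by
    intro k
    have e1 : ∫ x, (C.ψ '' ball (0 : En n) (R / ((k : ℝ) + 1) / 2)).indicator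
        (1 : G → ℝ) x ∂μ = (μ (C.ψ '' ball (0 : En n) (R / ((k : ℝ) + 1) / 2))).toReal :=
      integral_indicator_one (hT k).measurableSet
    rw [← e1]
    refine integral_mono ?_ (hbi k) fun x => ?_
    · exact (integrable_indicator_iff (hT k).measurableSet).2
        (integrableOn_const (hTfin k))
    · by_cases hx : x ∈ C.ψ '' ball (0 : En n) (R / ((k : ℝ) + 1) / 2)
      · rw [indicator_of_mem hx]
        obtain ⟨z, hz, rfl⟩ := hx
        rw [hb4 k z (hTr k hz), hone k z hz]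
        rfl
      · rw [indicator_of_notMem hx]
        exact hb5 k x
  have hIpos : ∀ k : ℕ, 0 < ∫ x, b k x ∂μ := fun k =>
    (ENNReal.toReal_pos (hTpos k).ne' (hTfin k)).trans_le (hI k)
  obtain ⟨Q, hQ0, hQ⟩ : ∃ Q : ℝ, 0 ≤ Q ∧ ∀ k : ℕ,
      (μ (C.ψ '' closedBall (0 : En n) (R / ((k : ℝ) + 1)))).toReal ≤
        Q * ∫ x, b k x ∂μ := by
    refine ⟨(K * ENNReal.ofReal (2 ^ Module.finrank ℝ (En n)) * K).toReal,
      ENNReal.toReal_nonneg, fun k => ?_⟩
    have hne : K * ENNReal.ofReal (2 ^ Module.finrank ℝ (En n)) * K ≠ ⊤ :=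
      ENNReal.mul_ne_top (ENNReal.mul_ne_top hK1 ENNReal.ofReal_ne_top) hK1
    have e1 := ENNReal.toReal_mono (ENNReal.mul_ne_top hne (hTfin k)) (hcmp k)
    rw [ENNReal.toReal_mul] at e1
    exact e1.trans (mul_le_mul_of_nonneg_left (hI k) ENNReal.toReal_nonneg)
  have htsρ : ∀ k : ℕ, tsupport (fun x => (∫ x, b k x ∂μ)⁻¹ * b k x) ⊆
      C.ψ '' closedBall (0 : En n) (R / ((k : ℝ) + 1)) := fun k =>
    (tsupport_mul_subset_right (f := fun _ => (∫ x, b k x ∂μ)⁻¹) (g := b k)).trans (hb3 k)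
  refine ⟨fun k x => (∫ x, b k x ∂μ)⁻¹ * b k x, ?_, ?_, ?_, ?_, ?_, ?_⟩
  · exact fun k x => contDiffAt_const.mul (hb1 k x)
  · exact fun k x => mul_nonneg (inv_nonneg.2 (hIpos k).le) (hb5 k x)
  · intro k
    rw [integral_const_mul, inv_mul_cancel₀ (hIpos k).ne']
  · refine ⟨C.ψ '' closedBall (0 : En n) R, ?_, ?_, fun k => ?_⟩
    · exact (isCompact_closedBall _ _).image_of_continuousOn (C.ψ.continuousOn.mono
        ((closedBall_subset_ball hRr).trans C.ball_sub))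
    · exact image_mono (closedBall_subset_ball hRr)
    · exact (htsρ k).trans (image_mono (hcb k))
  · intro U hU
    have h1 : C.ψ ⁻¹' U ∈ 𝓝 (0 : En n) := by
      refine (C.ψ.continuousAt (C.ball_sub (mem_ball_self C.r_pos))).preimage_mem_nhds ?_
      rw [C.map_zero]
      exact hU
    obtain ⟨ε, hε, hεU⟩ := Metric.mem_nhds_iff.1 h1
    have h2 : Tendsto (fun k : ℕ => R / ((k : ℝ) + 1)) atTop (𝓝 0) := by
      refine Tendsto.const_div_atTop ?_ R
      exact tendsto_atTop_add_const_right _ _ tendsto_natCast_atTop_atTop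
    filter_upwards [h2.eventually (gt_mem_nhds hε)] with k hk
    refine (htsρ k).trans ?_
    rintro _ ⟨z, hz, rfl⟩
    exact hεU (closedBall_subset_ball hk hz)
  · refine ⟨N * M * Q, fun k => ?_⟩
    have hκ : 0 ≤ (∫ x, b k x ∂μ)⁻¹ := inv_nonneg.2 (hIpos k).le
    have hpt : ∀ z, ‖C.Dl (fun x => (∫ x, b k x ∂μ)⁻¹ * b k x) z‖ * ‖C.ψ.symm z‖ ≤
        (C.ψ '' closedBall (0 : En n) (R / ((k : ℝ) + 1))).indicator
          (fun _ => (∫ x, b k x ∂μ)⁻¹ * (N * M)) z := by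
      intro z
      by_cases hz : z ∈ C.ψ '' closedBall (0 : En n) (R / ((k : ℝ) + 1))
      · rw [indicator_of_mem hz]
        obtain ⟨ζ, hζ, rfl⟩ := hz
        have hζR := hcb k hζ
        have hζr := closedBall_subset_ball hRr hζR
        obtain ⟨T, hT1, hT2⟩ := hM ζ hζR
        have hder : HasFDerivAt (fun z : En n => (∫ x, b k x ∂μ)⁻¹ *
            β ((((k : ℝ) + 1) / R) • z)) ((∫ x, b k x ∂μ)⁻¹ •
              ((fderiv ℝ β ((((k : ℝ) + 1) / R) • ζ)).comp
                ((((k : ℝ) + 1) / R) • ContinuousLinearMap.id ℝ (En n)))) ζ := by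
          have e1 : HasFDerivAt β (fderiv ℝ β ((((k : ℝ) + 1) / R) • ζ))
              ((((k : ℝ) + 1) / R) • ζ) :=
            ((β.contDiff (n := 1)).differentiable (by norm_num) _).hasFDerivAt
          have e2 : HasFDerivAt (fun z : En n => (((k : ℝ) + 1) / R) • z)
              ((((k : ℝ) + 1) / R) • ContinuousLinearMap.id ℝ (En n)) ζ :=
            (hasFDerivAt_id (𝕜 := ℝ) ζ).fun_const_smul (((k : ℝ) + 1) / R)
          exact (e1.comp ζ e2).const_mul _
        have hD := C.ME7G_Dl (β := fun z : En n => (∫ x, b k x ∂μ)⁻¹ *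
            β ((((k : ℝ) + 1) / R) • z)) (b := fun x => (∫ x, b k x ∂μ)⁻¹ * b k x)
          (fun z hz => by rw [hb4 k z hz]) hζr hder hT2
        rw [hD, C.ψ.left_inv (C.ball_sub hζr)]
        have n1 : ‖(fderiv ℝ β ((((k : ℝ) + 1) / R) • ζ)).comp
            ((((k : ℝ) + 1) / R) • ContinuousLinearMap.id ℝ (En n))‖ ≤
              N * (((k : ℝ) + 1) / R) := by
          refine (ContinuousLinearMap.opNorm_comp_le _ _).trans ?_
          refine mul_le_mul (hN _) ?_ (norm_nonneg _) hN0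
          rw [norm_smul, Real.norm_eq_abs, abs_of_pos (hs0 k)]
          exact mul_le_of_le_one_right (hs0 k).le ContinuousLinearMap.norm_id_le
        have n2 : ‖((∫ x, b k x ∂μ)⁻¹ • ((fderiv ℝ β ((((k : ℝ) + 1) / R) • ζ)).comp
            ((((k : ℝ) + 1) / R) • ContinuousLinearMap.id ℝ (En n)))).comp T‖ ≤
              (∫ x, b k x ∂μ)⁻¹ * (N * (((k : ℝ) + 1) / R)) * M := by
          refine (ContinuousLinearMap.opNorm_comp_le _ _).trans ?_
          refine mul_le_mul ?_ hT1 (norm_nonneg _) (by have := hs0 k; positivity)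
          rw [norm_smul, Real.norm_eq_abs, abs_of_nonneg hκ]
          exact mul_le_mul_of_nonneg_left n1 hκ
        have n3 : ‖ζ‖ ≤ R / ((k : ℝ) + 1) := mem_closedBall_zero_iff.1 hζ
        calc _ ≤ (∫ x, b k x ∂μ)⁻¹ * (N * (((k : ℝ) + 1) / R)) * M * (R / ((k : ℝ) + 1)) :=
              mul_le_mul n2 n3 (norm_nonneg _) (by have := hs0 k; positivity)
          _ = (∫ x, b k x ∂μ)⁻¹ * (N * M) * (((k : ℝ) + 1) / R * (R / ((k : ℝ) + 1))) := by ring
          _ = (∫ x, b k x ∂μ)⁻¹ * (N * M) := by rw [hsR k, mul_one]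
      · rw [indicator_of_notMem hz, C.ME7G_Dl_zero (fun h => hz (htsρ k h)), norm_zero, zero_mul]
    have hmeas : MeasurableSet (C.ψ '' closedBall (0 : En n) (R / ((k : ℝ) + 1))) :=
      (hS k).isClosed.measurableSet
    have hint : Integrable ((C.ψ '' closedBall (0 : En n) (R / ((k : ℝ) + 1))).indicator
        (fun _ => (∫ x, b k x ∂μ)⁻¹ * (N * M))) μ :=
      (integrable_indicator_iff hmeas).2 (integrableOn_const (hS k).measure_lt_top.ne)
    calc ∫ z, ‖C.Dl (fun x => (∫ x, b k x ∂μ)⁻¹ * b k x) z‖ * ‖C.ψ.symm z‖ ∂μ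
        ≤ ∫ z, (C.ψ '' closedBall (0 : En n) (R / ((k : ℝ) + 1))).indicator
          (fun _ => (∫ x, b k x ∂μ)⁻¹ * (N * M)) z ∂μ :=
          integral_mono_of_nonneg (Eventually.of_forall fun z => by positivity) hint
            (Eventually.of_forall hpt)
      _ = (μ (C.ψ '' closedBall (0 : En n) (R / ((k : ℝ) + 1)))).toReal *
          ((∫ x, b k x ∂μ)⁻¹ * (N * M)) := by
          rw [integral_indicator_const _ hmeas, smul_eq_mul]
          rfl
      _ ≤ (Q * ∫ x, b k x ∂μ) * ((∫ x, b k x ∂μ)⁻¹ * (N * M)) :=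
          mul_le_mul_of_nonneg_right (hQ k) (by positivity)
      _ = N * M * Q * ((∫ x, b k x ∂μ) * (∫ x, b k x ∂μ)⁻¹) := by ring
      _ = N * M * Q := by rw [mul_inv_cancel₀ (hIpos k).ne', mul_one]


end CLG

end HR
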