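import Pool.Agent.W_06f097_h43.LE3
import Pool.Agent.W_06f097_h43.HP2
import Pool.Agent.W_06f097_h43.CA5

/-! MP_06f097_an blueprint, block ST: expansions of kernels, characters. -/

open scoped Topology ContDiff
open MeasureTheory Set Filter Metric

noncomputable section

namespace HR

variable {n : ℕ} {G : Type*} [Group G] [TopologicalSpace G] [IsTopologicalGroup G] [T2Space G]
  [LocallyCompactSpace G] [SecondCountableTopology G] [MeasurableSpace G] [BorelSpace G]
  (C : CLG n G) (μ : Measure G) [μ.IsHaarMeasure] {l : G → ℝ} (hl : Len μ l)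

omit [Group G] [TopologicalSpace G] [IsTopologicalGroup G] [SecondCountableTopology G]
  [BorelSpace G] [LocallyCompactSpace G] [μ.IsHaarMeasure] [T2Space G] in
/-- measurability of a parametric derivative -/
private theorem ST2_meas {F : En n → G → ℂ} (hF : ∀ z, AEStronglyMeasurable (F z) μ)
    (hd : ∀ y, DifferentiableAt ℂ (fun z => F z y) 0) :
    AEStronglyMeasurable (fun y => fderiv ℂ (fun z => F z y) 0) μ := by
  have h1 : ∀ j : Fin n, AEStronglyMeasurable
      (fun y => fderiv ℂ (fun z => F z y) 0 (Pi.single j 1)) μ := by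
    intro j
    refine aestronglyMeasurable_of_tendsto_ae (𝓝[≠] (0 : ℂ))
      (f := fun (t : ℂ) y => t⁻¹ • (F (0 + t • Pi.single j 1) y - F 0 y))
      (fun t => by
        have := ((hF (0 + t • Pi.single j 1)).sub (hF 0)).const_smul t⁻¹
        exact this) ?_
    refine Filter.Eventually.of_forall fun y => ?_
    exact ((hd y).hasFDerivAt.hasLineDerivAt (Pi.single j 1)).tendsto_slope_zero
  have h2 : (fun y => fderiv ℂ (fun z => F z y) 0) = fun y =>
      ∑ j : Fin n, (fderiv ℂ (fun z => F z y) 0 (Pi.single j 1)) •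
        (ContinuousLinearMap.proj j : En n →L[ℂ] ℂ) := by
    funext y
    ext v
    rw [_root_.sum_apply]
    simp only [_root_.smul_apply, ContinuousLinearMap.proj_apply]
    conv_lhs => rw [show v = ∑ j, v j • (Pi.single j (1 : ℂ) : En n) from by
      funext i
      simp [Finset.sum_apply, Pi.single_apply]]
    rw [map_sum]
    refine Finset.sum_congr rfl fun j _ => ?_
    rw [map_smul, smul_eq_mul, smul_eq_mul, mul_comm]
  rw [h2]
  exact Finset.aestronglyMeasurable_fun_sum _ fun j _ => (h1 j).smul_const _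

include hl in
omit [T2Space G] [LocallyCompactSpace G] [μ.IsHaarMeasure] in
/-- differentiation under the integral -/
private theorem ST2_hol {K : G → G → ℂ} (hc : Continuous (fun p : G × G => K p.1 p.2))
    (h2 : ∀ y, C.Hol (fun x => K x y)) {M R : ℝ} (hM : 0 ≤ M)
    (hR : 0 ≤ R) (hb : ∀ x y, ‖K x y‖ ≤ M * Real.exp (R * (l x + l y)))
    {w : G → ℂ} (hw : AEStronglyMeasurable w μ)
    (hwi : Integrable (fun y => Real.exp (R * l y) * ‖w y‖) μ) :
    C.Hol (fun x => ∫ y, K x y * w y ∂μ) := by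
  intro x
  have hr := C.r_pos
  -- a bound of the length on a small compact set
  obtain ⟨L, hL⟩ : ∃ L : ℝ, ∀ z ∈ closedBall (0 : En n) (C.r / 2), l (x * C.ψ z) ≤ L := by
    have hcp : IsCompact ((fun z => x * C.ψ z) '' closedBall (0 : En n) (C.r / 2)) := by
      refine (isCompact_closedBall (0 : En n) (C.r / 2)).image_of_continuousOn ?_
      refine continuousOn_const.mul (C.ψ.continuousOn.mono (fun z hz => C.ball_sub ?_))
      exact closedBall_subset_ball (by linarith) hz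
    obtain ⟨L, hL⟩ := hl.bdd _ hcp
    exact ⟨L, fun z hz => hL _ ⟨z, hz, rfl⟩⟩
  have hKz : ∀ z : En n, Continuous (fun y => K (x * C.ψ z) y) := fun z =>
    hc.comp (by fun_prop : Continuous fun y : G => ((x * C.ψ z, y) : G × G))
  have hFm : ∀ z : En n, AEStronglyMeasurable (fun y => K (x * C.ψ z) y * w y) μ := fun z =>
    (hKz z).aestronglyMeasurable.mul hw
  set b : G → ℝ := fun y => M * Real.exp (R * L) * (Real.exp (R * l y) * ‖w y‖) with hbdef
  have hbi : Integrable b μ := hwi.const_mul _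
  have hb0 : ∀ y, 0 ≤ b y := fun y => by positivity
  have hbd : ∀ y, ∀ z ∈ closedBall (0 : En n) (C.r / 2), ‖K (x * C.ψ z) y * w y‖ ≤ b y := by
    intro y z hz
    rw [norm_mul]
    have h1 := hb (x * C.ψ z) y
    have h3 : Real.exp (R * (l (x * C.ψ z) + l y)) ≤ Real.exp (R * L) * Real.exp (R * l y) := by
      rw [← Real.exp_add, ← mul_add]
      apply Real.exp_le_exp.2
      exact mul_le_mul_of_nonneg_left (by linarith [hL z hz]) hR
    calc ‖K (x * C.ψ z) y‖ * ‖w y‖
        ≤ (M * Real.exp (R * (l (x * C.ψ z) + l y))) * ‖w y‖ :=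
          mul_le_mul_of_nonneg_right h1 (norm_nonneg _)
      _ ≤ (M * (Real.exp (R * L) * Real.exp (R * l y))) * ‖w y‖ := by gcongr
      _ = b y := by rw [hbdef]; ring
  have hdiff : ∀ y, DifferentiableOn ℂ (fun z => K (x * C.ψ z) y * w y) (ball 0 C.r) := by
    intro y
    exact (C.hol_differentiableOn (h2 y) x).mul_const (w y)
  have hFi : Integrable (fun y => K (x * C.ψ 0) y * w y) μ := by
    refine Integrable.mono' hbi (hFm 0) (Filter.Eventually.of_forall fun y => ?_)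
    exact hbd y 0 (mem_closedBall_self (by linarith))
  have key := hasFDerivAt_integral_of_dominated_of_fderiv_le (μ := μ) (𝕜 := ℂ)
    (F := fun (z : En n) y => K (x * C.ψ z) y * w y)
    (F' := fun z y => fderiv ℂ (fun z => K (x * C.ψ z) y * w y) z) (x₀ := (0 : En n))
    (s := ball (0 : En n) (C.r / 4)) (bound := fun y => b y / (C.r / 4))
    (ball_mem_nhds _ (by linarith)) (Filter.Eventually.of_forall hFm) hFi
    (ST2_meas μ hFm fun y => (hdiff y).differentiableAt (ball_mem_nhds _ hr))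
    (Filter.Eventually.of_forall fun y z hz => by
      refine norm_fderiv_le_of_ball (by linarith) (hb0 y)
        ((hdiff y).mono fun z' hz' => ?_) fun z' hz' => hbd y z' ?_
      · rw [mem_ball_zero_iff] at hz ⊢
        rw [mem_ball_iff_norm] at hz'
        calc ‖z'‖ = ‖(z' - z) + z‖ := by rw [sub_add_cancel]
          _ ≤ ‖z' - z‖ + ‖z‖ := norm_add_le _ _
          _ < C.r := by linarith
      · rw [mem_ball_zero_iff] at hz
        rw [mem_closedBall_zero_iff]
        rw [mem_ball_iff_norm] at hz'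
        calc ‖z'‖ = ‖(z' - z) + z‖ := by rw [sub_add_cancel]
          _ ≤ ‖z' - z‖ + ‖z‖ := norm_add_le _ _
          _ ≤ C.r / 2 := by linarith)
    (hbi.div_const _)
    (Filter.Eventually.of_forall fun y z hz =>
      ((hdiff y).differentiableAt (isOpen_ball.mem_nhds
        (ball_subset_ball (by linarith) hz))).hasFDerivAt)
  exact key.differentiableAt

include hl in
/-- the expansion, with the square integrability of the kernel -/
private theorem ST2_exp {K : G → G → ℂ} (hc : Continuous (fun p : G × G => K p.1 p.2))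
    (h1 : ∀ x, C.Hol (K x)) (h2 : ∀ y, C.Hol (fun x => K x y)) {M R : ℝ} (hM : 0 ≤ M)
    (hR : 0 ≤ R) (hb : ∀ x y, ‖K x y‖ ≤ M * Real.exp (R * (l x + l y))) :
    ∃ R' B : ℝ, R ≤ R' ∧ 0 ≤ B ∧ ∃ e a : ℕ → G → ℂ, (∀ x, C.MemH μ (ew l R') (K x)) ∧
      (∀ j, C.MemH μ (ew l R') (e j)) ∧
      (∀ (J : ℕ) (c : ℕ → ℂ), nH μ (ew l R') (fun x => ∑ j ∈ Finset.range J, c j * e j x) ≤
        ∑ j ∈ Finset.range J, ‖c j‖ ^ 2) ∧
      (∀ j, C.Hol (a j)) ∧
      (∀ x, Summable (fun j => ‖a j x‖ ^ 2) ∧ ∑' j, ‖a j x‖ ^ 2 ≤ B * Real.exp (2 * R * l x)) ∧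
      (∀ x, Summable (fun j => ‖e j x‖ ^ 2) ∧ ∑' j, ‖e j x‖ ^ 2 ≤ B * Real.exp (2 * R' * l x)) ∧
      ∀ x, Tendsto (fun J => nH μ (ew l R') (fun y => K x y -
        ∑ j ∈ Finset.range J, a j x * e j y)) atTop (𝓝 0) := by
  obtain ⟨c₀, hc0, hint⟩ := hl.integ
  have hR' : 0 ≤ R + c₀ := by linarith
  have hW : AdmW (ew l (R + c₀)) := ew_adm μ hl (R + c₀) hR'
  obtain ⟨B₂, hB₂, hgr⟩ := memH_gr C μ hl (R + c₀) hR'
  -- the kernel
  have hKc : ∀ x, Continuous (K x) := fun x => hc.comp (by fun_prop : Continuous fun y : G => (x, y))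
  have hKb : ∀ x y, ‖K x y‖ ^ 2 / ew l (R + c₀) y ≤
      (M * Real.exp (R * l x)) ^ 2 * Real.exp (-(c₀ * l y)) := by
    intro x y
    rw [div_le_iff₀ (hW.pos y)]
    have e1 : Real.exp (R * (l x + l y)) = Real.exp (R * l x) * Real.exp (R * l y) := by
      rw [← Real.exp_add]; ring_nf
    have e2 : (M * Real.exp (R * l x)) ^ 2 * Real.exp (-(c₀ * l y)) * ew l (R + c₀) y =
        (M * Real.exp (R * l x) * Real.exp (R * l y)) ^ 2 * Real.exp (c₀ * l y) := by
      have : Real.exp (-(c₀ * l y)) * ew l (R + c₀) y =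
          (Real.exp (R * l y)) ^ 2 * Real.exp (c₀ * l y) := by
        rw [ew, ← Real.exp_add, sq, ← Real.exp_add, ← Real.exp_add]
        ring_nf
      rw [mul_assoc, this]
      ring
    rw [e2]
    have h3 : 1 ≤ Real.exp (c₀ * l y) := Real.one_le_exp (mul_nonneg hc0 (hl.nonneg y))
    have h4 : ‖K x y‖ ^ 2 ≤ (M * Real.exp (R * l x) * Real.exp (R * l y)) ^ 2 := by
      have := hb x y
      rw [e1, ← mul_assoc] at this
      exact pow_le_pow_left₀ (norm_nonneg _) this 2
    calc ‖K x y‖ ^ 2 ≤ (M * Real.exp (R * l x) * Real.exp (R * l y)) ^ 2 * 1 := by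
          rw [mul_one]; exact h4
      _ ≤ _ := mul_le_mul_of_nonneg_left h3 (by positivity)
  have hKi : ∀ x, Integrable (fun y => ‖K x y‖ ^ 2 / ew l (R + c₀) y) μ := by
    intro x
    refine Integrable.mono' (hint.const_mul ((M * Real.exp (R * l x)) ^ 2))
      (((hKc x).measurable.norm.pow_const 2).div hW.meas).aestronglyMeasurable
      (Filter.Eventually.of_forall fun y => ?_)
    rw [Real.norm_of_nonneg (div_nonneg (by positivity) (hW.pos y).le)]
    exact hKb x y
  have hKW : ∀ x, C.MemH μ (ew l (R + c₀)) (K x) := fun x => ⟨h1 x, hKi x⟩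
  have hKn : ∀ x, nH μ (ew l (R + c₀)) (K x) ≤
      (M * Real.exp (R * l x)) ^ 2 * ∫ y, Real.exp (-(c₀ * l y)) ∂μ := by
    intro x
    rw [← integral_const_mul]
    exact integral_mono (hKi x) (hint.const_mul _) (hKb x)
  -- orthonormal basis
  obtain ⟨e, he, hon, hexp, hes, -, hev⟩ := C.exists_onb μ hW
    {g | C.MemH μ (ew l (R + c₀)) g} (fun g hg => hg)
    ⟨C.hol_const 0, by simp⟩
    (fun f hf g hg => C.memH_add μ hW hf hg)
    (fun t f hf => C.memH_smul μ hW hf t)
    (fun _ _ _ hg _ => hg)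
  refine ⟨R + c₀, M ^ 2 * (∫ y, Real.exp (-(c₀ * l y)) ∂μ) + B₂, by linarith, ?_, e,
    fun j x => ∫ y, K x y * (starRingEnd ℂ) (e j y) / (ew l (R + c₀) y : ℂ) ∂μ, hKW, he, hon,
    ?_, ?_, ?_, ?_⟩
  · have : 0 ≤ ∫ y, Real.exp (-(c₀ * l y)) ∂μ := integral_nonneg fun y => (Real.exp_pos _).le
    positivity
  · -- holomorphy of the coefficients
    intro j
    have hem : Measurable (fun y => (starRingEnd ℂ) (e j y)) :=
      (Complex.continuous_conj.comp (C.hol_continuous (he j).1)).measurable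
    have hwm : Measurable (fun y => (starRingEnd ℂ) (e j y) / (ew l (R + c₀) y : ℂ)) :=
      hem.div (Complex.measurable_ofReal.comp hW.meas)
    have hlm : Measurable (fun y => Real.exp (R * l y)) :=
      Real.measurable_exp.comp (hl.meas.const_mul R)
    have h3 : Integrable (fun y => Real.exp (R * l y) *
        ‖(starRingEnd ℂ) (e j y) / (ew l (R + c₀) y : ℂ)‖) μ := by
      refine Integrable.mono' (hint.add (he j).2) (hlm.mul hwm.norm).aestronglyMeasurable
        (Filter.Eventually.of_forall fun y => ?_)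
      have hWp := hW.pos y
      rw [Real.norm_of_nonneg (by positivity), norm_div, RCLike.norm_conj, Complex.norm_real,
        Real.norm_of_nonneg hWp.le]
      show _ ≤ Real.exp (-(c₀ * l y)) + ‖e j y‖ ^ 2 / ew l (R + c₀) y
      have h5 : Real.exp (R * l y) ^ 2 / ew l (R + c₀) y ≤ Real.exp (-(c₀ * l y)) := by
        rw [div_le_iff₀ hWp, ew, ← Real.exp_add, sq, ← Real.exp_add]
        apply Real.exp_le_exp.2
        have := mul_nonneg hc0 (hl.nonneg y)
        nlinarith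
      have h6 : Real.exp (R * l y) * (‖e j y‖ / ew l (R + c₀) y) ≤
          Real.exp (R * l y) ^ 2 / ew l (R + c₀) y + ‖e j y‖ ^ 2 / ew l (R + c₀) y := by
        rw [← mul_div_assoc, ← add_div]
        apply div_le_div_of_nonneg_right _ hWp.le
        nlinarith [sq_nonneg (Real.exp (R * l y) - ‖e j y‖), Real.exp_pos (R * l y),
          norm_nonneg (e j y), mul_nonneg (Real.exp_pos (R * l y)).le (norm_nonneg (e j y))]
      linarith
    have h4 := ST2_hol C μ hl hc h2 hM hR hb hwm.aestronglyMeasurable h3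
    have e5 : (fun x => ∫ y, K x y * (starRingEnd ℂ) (e j y) / (ew l (R + c₀) y : ℂ) ∂μ) =
        fun x => ∫ y, K x y * ((starRingEnd ℂ) (e j y) / (ew l (R + c₀) y : ℂ)) ∂μ := by
      funext x
      simp only [mul_div_assoc]
    show C.Hol (fun x => ∫ y, K x y * (starRingEnd ℂ) (e j y) / (ew l (R + c₀) y : ℂ) ∂μ)
    rw [e5]
    exact h4
  · intro x
    obtain ⟨h3, h4, -⟩ := hexp (K x) (hKW x)
    refine ⟨h3, ?_⟩
    rw [h4]
    refine (hKn x).trans ?_
    have e6 : Real.exp (2 * R * l x) = Real.exp (R * l x) ^ 2 := by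
      rw [sq, ← Real.exp_add]; ring_nf
    rw [e6]
    have h7 : 0 ≤ B₂ * Real.exp (R * l x) ^ 2 := by positivity
    nlinarith
  · intro x
    refine ⟨hes x, ?_⟩
    refine (hev x (B₂ * ew l (R + c₀) x) (mul_nonneg hB₂ (hW.pos x).le) fun g hg => ?_).trans ?_
    · have := hgr g hg x
      linarith
    · have : 0 ≤ ∫ y, Real.exp (-(c₀ * l y)) ∂μ := integral_nonneg fun y => (Real.exp_pos _).le
      have h8 : 0 ≤ M ^ 2 * (∫ y, Real.exp (-(c₀ * l y)) ∂μ) * ew l (R + c₀) x :=
        mul_nonneg (by positivity) (hW.pos x).le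
      show B₂ * ew l (R + c₀) x ≤ (M ^ 2 * (∫ y, Real.exp (-(c₀ * l y)) ∂μ) + B₂) *
        ew l (R + c₀) x
      linarith
  · intro x
    exact (hexp (K x) (hKW x)).2.2

include hl in
/-- Expansion of a separately holomorphic kernel of exponential growth. Take `e` from `exists_onb`
for the whole space of `ew l R'` (`R'` from `gr_memH`) and
`a_j x = ∫ K x y conj(e_j y) / ew l R' y dμ(y)`: holomorphic in `x` by differentiation under the
integral (or: continuous and weakly holomorphic; or `hol_limit'` of integrals over compact sets),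
`Σ |a_j x|² = nH (K x) ≤ B exp (2 R l x)`. -/
theorem kernel_expansion {K : G → G → ℂ} (hc : Continuous (fun p : G × G => K p.1 p.2))
    (h1 : ∀ x, C.Hol (K x)) (h2 : ∀ y, C.Hol (fun x => K x y)) {M R : ℝ} (hM : 0 ≤ M)
    (hR : 0 ≤ R) (hb : ∀ x y, ‖K x y‖ ≤ M * Real.exp (R * (l x + l y))) :
    ∃ R' B : ℝ, R ≤ R' ∧ 0 ≤ B ∧ ∃ e a : ℕ → G → ℂ, (∀ j, C.MemH μ (ew l R') (e j)) ∧
      (∀ (J : ℕ) (c : ℕ → ℂ), nH μ (ew l R') (fun x => ∑ j ∈ Finset.range J, c j * e j x) ≤
        ∑ j ∈ Finset.range J, ‖c j‖ ^ 2) ∧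
      (∀ j, C.Hol (a j)) ∧
      (∀ x, Summable (fun j => ‖a j x‖ ^ 2) ∧ ∑' j, ‖a j x‖ ^ 2 ≤ B * Real.exp (2 * R * l x)) ∧
      (∀ x, Summable (fun j => ‖e j x‖ ^ 2) ∧ ∑' j, ‖e j x‖ ^ 2 ≤ B * Real.exp (2 * R' * l x)) ∧
      ∀ x, Tendsto (fun J => nH μ (ew l R') (fun y => K x y -
        ∑ j ∈ Finset.range J, a j x * e j y)) atTop (𝓝 0) := by
  obtain ⟨R', B, hRR, hB, e, a, -, h⟩ := ST2_exp C μ hl hc h1 h2 hM hR hb
  exact ⟨R', B, hRR, hB, e, a, h⟩

/-- partial sums are square integrable -/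
private theorem ST2_memsum {W : G → ℝ} (hW : AdmW W) {e : ℕ → G → ℂ}
    (he : ∀ j, C.MemH μ W (e j)) (c : ℕ → ℂ) (J : ℕ) :
    C.MemH μ W (fun x => ∑ j ∈ Finset.range J, c j * e j x) := by
  induction J with
  | zero => exact ⟨by simpa using C.hol_const 0, by simp⟩
  | succ J ih =>
    have h := C.memH_add μ hW ih (C.memH_smul μ hW (he J) (c J))
    have e1 : (fun x => ∑ j ∈ Finset.range (J + 1), c j * e j x) =
        fun x => ∑ j ∈ Finset.range J, c j * e j x + c J * e J x := by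
      funext x
      rw [Finset.sum_range_succ]
    rw [e1]
    exact h

omit [IsTopologicalGroup G] [T2Space G] [LocallyCompactSpace G] [SecondCountableTopology G]
  [BorelSpace G] [μ.IsHaarMeasure] in
private theorem ST2_coe (E : ℕ → Aexp C hl) (c : ℕ → ℂ) (J : ℕ) (y : G) :
    ((∑ j ∈ Finset.range J, c j • E j : Aexp C hl) : G → ℂ) y =
      ∑ j ∈ Finset.range J, c j * (E j : G → ℂ) y := by
  rw [AddSubmonoidClass.coe_finsetSum, Finset.sum_apply]
  rfl

omit [IsTopologicalGroup G] [T2Space G] [LocallyCompactSpace G] [SecondCountableTopology G]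
  [BorelSpace G] [μ.IsHaarMeasure] in
private theorem ST2_coe' (A E : ℕ → Aexp C hl) (J : ℕ) (y : G) :
    ((∑ j ∈ Finset.range J, A j * E j : Aexp C hl) : G → ℂ) y =
      ∑ j ∈ Finset.range J, (A j : G → ℂ) y * (E j : G → ℂ) y := by
  rw [AddSubmonoidClass.coe_finsetSum, Finset.sum_apply]
  rfl

/-- Bessel inequality for a functional -/
private theorem ST2_bessel {R' : ℝ} (hR' : 0 ≤ R') {e : ℕ → G → ℂ}
    (he : ∀ j, C.MemH μ (ew l R') (e j))
    (hon : ∀ (J : ℕ) (c : ℕ → ℂ), nH μ (ew l R') (fun x => ∑ j ∈ Finset.range J, c j * e j x) ≤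
        ∑ j ∈ Finset.range J, ‖c j‖ ^ 2)
    (L : Aexp C hl →ₗ[ℂ] ℂ) (hL : Cts C hl L) (E : ℕ → Aexp C hl)
    (hE : ∀ j, (E j : G → ℂ) = e j) : Summable (fun j => ‖L (E j)‖ ^ 2) := by
  obtain ⟨Kc, hK0, hK⟩ := cts_bound C μ hl L hL R' hR'
  refine summable_of_sum_range_le (c := Kc) (fun j => by positivity) fun J => ?_
  set s : ℝ := ∑ j ∈ Finset.range J, ‖L (E j)‖ ^ 2 with hs
  have hs0 : 0 ≤ s := Finset.sum_nonneg fun j _ => by positivity
  set f : Aexp C hl := ∑ j ∈ Finset.range J, (starRingEnd ℂ) (L (E j)) • E j with hf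
  have hfe : (f : G → ℂ) = fun x => ∑ j ∈ Finset.range J, (starRingEnd ℂ) (L (E j)) * e j x := by
    funext x
    rw [hf, ST2_coe]
    simp only [hE]
  have hLf : L f = (s : ℂ) := by
    rw [hf, map_sum, hs]
    push_cast
    refine Finset.sum_congr rfl fun j _ => ?_
    rw [map_smul, smul_eq_mul, mul_comm, Complex.mul_conj, Complex.normSq_eq_norm_sq]
    push_cast
    rfl
  have hfm : C.MemH μ (ew l R') (f : G → ℂ) := by
    rw [hfe]
    exact ST2_memsum C μ (ew_adm μ hl R' hR') he _ J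
  have h1 := hK f hfm
  have h2 : nH μ (ew l R') (f : G → ℂ) ≤ s := by
    rw [hfe]
    refine (hon J _).trans (le_of_eq ?_)
    rw [hs]
    refine Finset.sum_congr rfl fun j _ => ?_
    rw [RCLike.norm_conj]
  rw [hLf, Complex.norm_real, Real.norm_of_nonneg hs0] at h1
  have h3 : s ^ 2 ≤ Kc * s := h1.trans (mul_le_mul_of_nonneg_left h2 hK0)
  by_contra hcon
  push Not at hcon
  have : 0 < s := lt_of_le_of_lt hK0 hcon
  nlinarith

/-- convergence of the expansion under a functional -/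
private theorem ST2_conv {K : G → G → ℂ} {R' : ℝ} (hR' : 0 ≤ R') {e a : ℕ → G → ℂ}
    (hKW : ∀ x, C.MemH μ (ew l R') (K x)) (he : ∀ j, C.MemH μ (ew l R') (e j))
    (ht : ∀ x, Tendsto (fun J => nH μ (ew l R') (fun y => K x y -
        ∑ j ∈ Finset.range J, a j x * e j y)) atTop (𝓝 0))
    (P : G → Aexp C hl) (hP : ∀ x y, (P x : G → ℂ) y = K x y)
    (L : Aexp C hl →ₗ[ℂ] ℂ) (hL : Cts C hl L) (E : ℕ → Aexp C hl)
    (hE : ∀ j, (E j : G → ℂ) = e j) (x : G) :
    Tendsto (fun J => ∑ j ∈ Finset.range J, a j x * L (E j)) atTop (𝓝 (L (P x))) := by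
  obtain ⟨Kc, hK0, hK⟩ := cts_bound C μ hl L hL R' hR'
  rw [tendsto_iff_norm_sub_tendsto_zero]
  have hlim : Tendsto (fun J => Real.sqrt (Kc * nH μ (ew l R') (fun y => K x y -
        ∑ j ∈ Finset.range J, a j x * e j y))) atTop (𝓝 0) := by
    have h := ((ht x).const_mul Kc).sqrt
    rwa [mul_zero, Real.sqrt_zero] at h
  refine squeeze_zero (fun J => norm_nonneg _) (fun J => ?_) hlim
  set f : Aexp C hl := P x - ∑ j ∈ Finset.range J, a j x • E j with hf
  have hfe : (f : G → ℂ) = fun y => K x y - ∑ j ∈ Finset.range J, a j x * e j y := by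
    funext y
    have : (f : G → ℂ) y = (P x : G → ℂ) y -
        ((∑ j ∈ Finset.range J, a j x • E j : Aexp C hl) : G → ℂ) y := rfl
    rw [this, hP, ST2_coe C μ hl E (fun j => a j x) J y]
    simp only [hE]
  have hLf : L f = L (P x) - ∑ j ∈ Finset.range J, a j x * L (E j) := by
    rw [hf, map_sub, map_sum]
    simp only [map_smul, smul_eq_mul]
  have hW := ew_adm μ hl R' hR'
  have hfm : C.MemH μ (ew l R') (f : G → ℂ) := by
    rw [hfe]
    exact C.memH_sub μ hW (hKW x) (ST2_memsum C μ hW he (fun j => a j x) J)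
  have h1 := hK f hfm
  rw [hLf, hfe] at h1
  rw [norm_sub_rev]
  have := Real.abs_le_sqrt h1
  rwa [abs_of_nonneg (norm_nonneg _)] at this

omit [Group G] [TopologicalSpace G] [IsTopologicalGroup G] [T2Space G] [LocallyCompactSpace G]
  [SecondCountableTopology G] [MeasurableSpace G] [BorelSpace G] [μ.IsHaarMeasure] in
/-- Cauchy-Schwarz for blocks -/
private theorem ST2_cs (s : Finset ℕ) (a b : ℕ → ℂ) :
    ‖∑ j ∈ s, a j * b j‖ ^ 2 ≤ (∑ j ∈ s, ‖a j‖ ^ 2) * ∑ j ∈ s, ‖b j‖ ^ 2 := by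
  have h1 : ‖∑ j ∈ s, a j * b j‖ ≤ ∑ j ∈ s, ‖a j‖ * ‖b j‖ :=
    (norm_sum_le _ _).trans (le_of_eq (Finset.sum_congr rfl fun j _ => norm_mul _ _))
  exact (pow_le_pow_left₀ (norm_nonneg _) h1 2).trans (Finset.sum_mul_sq_le_sq_mul_sq s _ _)

omit [IsTopologicalGroup G] [T2Space G] [LocallyCompactSpace G] [SecondCountableTopology G]
  [BorelSpace G] [μ.IsHaarMeasure] in
private theorem ST2_scale {R m : ℝ} (L : Aexp C hl →ₗ[ℂ] ℂ)
    (hm : ∀ f : Aexp C hl, (∀ x, ‖(f : G → ℂ) x‖ ≤ Real.exp (R * l x)) → ‖L f‖ ≤ m)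
    (f : Aexp C hl) {t : ℝ} (ht : 0 < t) (hf : ∀ x, ‖(f : G → ℂ) x‖ ≤ t * Real.exp (R * l x)) :
    ‖L f‖ ≤ m * t := by
  have h := hm (((t⁻¹ : ℝ) : ℂ) • f) (fun x => by
    show ‖((t⁻¹ : ℝ) : ℂ) * (f : G → ℂ) x‖ ≤ _
    rw [norm_mul, Complex.norm_real, Real.norm_of_nonneg (by positivity)]
    calc t⁻¹ * ‖(f : G → ℂ) x‖ ≤ t⁻¹ * (t * Real.exp (R * l x)) := by gcongr; exact hf x
      _ = Real.exp (R * l x) := by field_simp)
  rw [map_smul, norm_smul, Complex.norm_real, Real.norm_of_nonneg (by positivity),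
    inv_mul_le_iff₀ ht] at h
  linarith [mul_comm t m]

/-- A continuous functional applied to a kernel in the second variable gives a function of the
algebra. `L (K x) = Σ_j a_j(x) L(e_j)` with `Σ |L(e_j)|² < ∞` (Bessel from the orthonormality),
locally uniformly in `x`. -/
theorem apply_kernel {K : G → G → ℂ} (hc : Continuous (fun p : G × G => K p.1 p.2))
    (h2 : ∀ y, C.Hol (fun x => K x y)) {M R : ℝ} (hM : 0 ≤ M)
    (hR : 0 ≤ R) (hb : ∀ x y, ‖K x y‖ ≤ M * Real.exp (R * (l x + l y)))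
    (P : G → Aexp C hl) (hP : ∀ x y, (P x : G → ℂ) y = K x y)
    (L : Aexp C hl →ₗ[ℂ] ℂ) (hL : Cts C hl L) :
    (fun x => L (P x)) ∈ Aexp C hl := by
  have h1 : ∀ x, C.Hol (K x) := fun x => by
    have : (P x : G → ℂ) = K x := funext (hP x)
    rw [← this]
    exact (P x).2.1
  obtain ⟨R', B, hRR, hB, e, a, hKW, he, hon, ha, has, hes, ht⟩ :=
    ST2_exp C μ hl hc h1 h2 hM hR hb
  have hR' : 0 ≤ R' := hR.trans hRR
  let E : ℕ → Aexp C hl := fun j => ⟨e j, memH_mem_Aexp C μ hl R' hR' (he j)⟩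
  have hE : ∀ j, (E j : G → ℂ) = e j := fun j => rfl
  have hsum := ST2_bessel C μ hl hR' he hon L hL E hE
  have hconv := ST2_conv C μ hl hR' hKW he ht P hP L hL E hE
  refine ⟨?_, ?_⟩
  · refine C.hol_limit' (f := fun J x => ∑ j ∈ Finset.range J, a j x * L (E j)) (fun J => ?_)
      (fun S hS => ?_)
    · exact C.hol_sum _ fun j _ => C.hol_mul (ha j) (C.hol_const _)
    · rw [Metric.tendstoUniformlyOn_iff]
      intro ε hε
      obtain ⟨L₀, hL₀⟩ := hl.bdd S hS
      have htail : Tendsto (fun J => ∑' j, ‖L (E (j + J))‖ ^ 2) atTop (𝓝 0) :=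
        tendsto_sum_nat_add (fun j => ‖L (E j)‖ ^ 2)
      have hlim : Tendsto (fun J => B * Real.exp (2 * R * L₀) * ∑' j, ‖L (E (j + J))‖ ^ 2) atTop
          (𝓝 0) := by
        have := htail.const_mul (B * Real.exp (2 * R * L₀))
        rwa [mul_zero] at this
      filter_upwards [hlim.eventually (gt_mem_nhds (show (0 : ℝ) < ε ^ 2 by positivity))]
        with J hJ x hx
      have hsq : ‖L (P x) - ∑ j ∈ Finset.range J, a j x * L (E j)‖ ^ 2 ≤
          B * Real.exp (2 * R * L₀) * ∑' j, ‖L (E (j + J))‖ ^ 2 := by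
        have hlim2 : Tendsto (fun N => ‖∑ j ∈ Finset.range N, a j x * L (E j) -
            ∑ j ∈ Finset.range J, a j x * L (E j)‖ ^ 2) atTop
            (𝓝 (‖L (P x) - ∑ j ∈ Finset.range J, a j x * L (E j)‖ ^ 2)) :=
          (((hconv x).sub_const _).norm).pow 2
        refine le_of_tendsto hlim2 ?_
        filter_upwards [eventually_ge_atTop J] with N hN
        rw [← Finset.sum_Ico_eq_sub _ hN]
        refine (ST2_cs _ _ _).trans ?_
        have k1 : ∑ j ∈ Finset.Ico J N, ‖a j x‖ ^ 2 ≤ B * Real.exp (2 * R * L₀) := by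
          refine ((has x).1.sum_le_tsum _ fun j _ => by positivity).trans ?_
          refine (has x).2.trans ?_
          apply mul_le_mul_of_nonneg_left _ hB
          apply Real.exp_le_exp.2
          exact mul_le_mul_of_nonneg_left (hL₀ x hx) (by positivity)
        have k2 : ∑ j ∈ Finset.Ico J N, ‖L (E j)‖ ^ 2 ≤ ∑' j, ‖L (E (j + J))‖ ^ 2 := by
          rw [Finset.sum_Ico_eq_sum_range]
          have hs' : Summable (fun j => ‖L (E (j + J))‖ ^ 2) :=
            (summable_nat_add_iff J (f := fun j => ‖L (E j)‖ ^ 2)).2 hsum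
          have := hs'.sum_le_tsum (Finset.range (N - J)) (fun j _ => by positivity)
          simpa only [add_comm] using this
        exact mul_le_mul k1 k2 (Finset.sum_nonneg fun j _ => by positivity) (by positivity)
      rw [dist_eq_norm]
      have h5 : ‖L (P x) - ∑ j ∈ Finset.range J, a j x * L (E j)‖ ^ 2 < ε ^ 2 :=
        lt_of_le_of_lt hsq hJ
      exact lt_of_pow_lt_pow_left₀ 2 hε.le h5
  · obtain ⟨m, hm0, hm⟩ := hL R hR
    refine ⟨m * (M + 1), R, by positivity, hR, fun x => ?_⟩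
    have h3 := ST2_scale C μ hl L hm (P x) (t := (M + 1) * Real.exp (R * l x)) (by positivity)
      (fun y => ?_)
    · calc ‖L (P x)‖ ≤ m * ((M + 1) * Real.exp (R * l x)) := h3
        _ = m * (M + 1) * Real.exp (R * l x) := by ring
    · rw [hP]
      refine (hb x y).trans ?_
      rw [mul_add, Real.exp_add, ← mul_assoc]
      gcongr
      linarith

/-- Multiplicativity on kernels: `χ_x (χ_y K(x, y)) = χ (K(x, x))`. By the expansion both sides are
`Σ χ(a_j) χ(e_j)` (`cts_tendsto` for the partial sums `Σ_{j<J} a_j(x) χ(e_j)` and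
`Σ_{j<J} a_j(x) e_j(x)`). -/
theorem char_kernel {K : G → G → ℂ} (hc : Continuous (fun p : G × G => K p.1 p.2))
    (h2 : ∀ y, C.Hol (fun x => K x y)) {M R : ℝ} (hM : 0 ≤ M)
    (hR : 0 ≤ R) (hb : ∀ x y, ‖K x y‖ ≤ M * Real.exp (R * (l x + l y)))
    (P : G → Aexp C hl) (hP : ∀ x y, (P x : G → ℂ) y = K x y)
    (χ : Aexp C hl →ₐ[ℂ] ℂ) (hχ : Cts C hl χ)
    (Q : Aexp C hl) (hQ : ∀ x, (Q : G → ℂ) x = χ (P x))
    (Dg : Aexp C hl) (hD : ∀ x, (Dg : G → ℂ) x = K x x) : χ Q = χ Dg := by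
  have h1 : ∀ x, C.Hol (K x) := fun x => by
    have : (P x : G → ℂ) = K x := funext (hP x)
    rw [← this]
    exact (P x).2.1
  obtain ⟨R', B, hRR, hB, e, a, hKW, he, hon, ha, has, hes, ht⟩ :=
    ST2_exp C μ hl hc h1 h2 hM hR hb
  have hR' : 0 ≤ R' := hR.trans hRR
  have hW := ew_adm μ hl R' hR'
  let E : ℕ → Aexp C hl := fun j => ⟨e j, memH_mem_Aexp C μ hl R' hR' (he j)⟩
  have hE : ∀ j, (E j : G → ℂ) = e j := fun j => rfl
  have hexp2 : ∀ (S : ℝ) (x : G), Real.exp (2 * S * l x) = Real.exp (S * l x) ^ 2 := by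
    intro S x
    rw [sq, ← Real.exp_add]; ring_nf
  have hag : ∀ j, Gr l (a j) := by
    intro j
    refine ⟨Real.sqrt B, R, Real.sqrt_nonneg _, hR, fun x => ?_⟩
    have k1 : ‖a j x‖ ^ 2 ≤ (Real.sqrt B * Real.exp (R * l x)) ^ 2 := by
      rw [mul_pow, Real.sq_sqrt hB, ← hexp2]
      exact ((has x).1.le_tsum j fun i _ => by positivity).trans (has x).2
    exact (pow_le_pow_iff_left₀ (norm_nonneg _) (by positivity) two_ne_zero).1 k1
  let A : ℕ → Aexp C hl := fun j => ⟨a j, ha j, hag j⟩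
  have hχL : Cts C hl χ.toLinearMap := hχ
  have hsum : Summable (fun j => ‖χ (E j)‖ ^ 2) :=
    ST2_bessel C μ hl hR' he hon χ.toLinearMap hχL E hE
  have hconv : ∀ x, Tendsto (fun J => ∑ j ∈ Finset.range J, a j x * χ (E j)) atTop
      (𝓝 (χ (P x))) :=
    fun x => ST2_conv C μ hl hR' hKW he ht P hP χ.toLinearMap hχL E hE x
  set T : ℝ := ∑' j, ‖χ (E j)‖ ^ 2 with hT
  have hT0 : 0 ≤ T := tsum_nonneg fun j => by positivity
  have hQ' : Tendsto (fun J => χ (∑ j ∈ Finset.range J, χ (E j) • A j)) atTop (𝓝 (χ Q)) := by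
    refine cts_tendsto C μ hl χ.toLinearMap hχL (M := Real.sqrt (T * B)) (R := R) hR
      (f := fun J => ∑ j ∈ Finset.range J, χ (E j) • A j) (g := Q) (fun J x => ?_) (fun x => ?_)
    · rw [ST2_coe C μ hl A (fun j => χ (E j)) J x]
      have k1 : ‖∑ j ∈ Finset.range J, χ (E j) * (A j : G → ℂ) x‖ ^ 2 ≤
          (Real.sqrt (T * B) * Real.exp (R * l x)) ^ 2 := by
        refine (ST2_cs _ _ _).trans ?_
        rw [mul_pow, Real.sq_sqrt (by positivity), ← hexp2, mul_assoc]
        refine mul_le_mul (hsum.sum_le_tsum _ fun j _ => by positivity) ?_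
          (Finset.sum_nonneg fun j _ => by positivity) hT0
        exact ((has x).1.sum_le_tsum _ fun j _ => by positivity).trans (has x).2
      exact (pow_le_pow_iff_left₀ (norm_nonneg _) (by positivity) two_ne_zero).1 k1
    · rw [hQ]
      refine (hconv x).congr fun J => ?_
      rw [ST2_coe C μ hl A (fun j => χ (E j)) J x]
      exact Finset.sum_congr rfl fun j _ => mul_comm _ _
  have hD' : Tendsto (fun J => χ (∑ j ∈ Finset.range J, A j * E j)) atTop (𝓝 (χ Dg)) := by
    refine cts_tendsto C μ hl χ.toLinearMap hχL (M := B) (R := R + R') (by linarith)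
      (f := fun J => ∑ j ∈ Finset.range J, A j * E j) (g := Dg) (fun J x => ?_) (fun x => ?_)
    · rw [ST2_coe' C μ hl A E J x]
      have k1 : ‖∑ j ∈ Finset.range J, (A j : G → ℂ) x * (E j : G → ℂ) x‖ ^ 2 ≤
          (B * Real.exp ((R + R') * l x)) ^ 2 := by
        refine (ST2_cs _ _ _).trans ?_
        have e3 : (B * Real.exp ((R + R') * l x)) ^ 2 =
            (B * Real.exp (2 * R * l x)) * (B * Real.exp (2 * R' * l x)) := by
          rw [hexp2, hexp2, add_mul, Real.exp_add]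
          ring
        rw [e3]
        refine mul_le_mul ?_ ?_ (Finset.sum_nonneg fun j _ => by positivity) (by positivity)
        · exact ((has x).1.sum_le_tsum _ fun j _ => by positivity).trans (has x).2
        · exact ((hes x).1.sum_le_tsum _ fun j _ => by positivity).trans (hes x).2
      exact (pow_le_pow_iff_left₀ (norm_nonneg _) (by positivity) two_ne_zero).1 k1
    · rw [hD]
      obtain ⟨B₂, hB₂, hgr⟩ := memH_gr C μ hl R' hR'
      rw [tendsto_iff_norm_sub_tendsto_zero]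
      have hlim : Tendsto (fun J => Real.sqrt (B₂ * nH μ (ew l R') (fun y => K x y -
          ∑ j ∈ Finset.range J, a j x * e j y) * ew l R' x)) atTop (𝓝 0) := by
        have h := (((ht x).const_mul B₂).mul_const (ew l R' x)).sqrt
        rwa [mul_zero, zero_mul, Real.sqrt_zero] at h
      refine squeeze_zero (fun J => norm_nonneg _) (fun J => ?_) hlim
      have k2 := hgr _ (C.memH_sub μ hW (hKW x) (ST2_memsum C μ hW he (fun j => a j x) J)) x
      have k3 := Real.abs_le_sqrt k2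
      rw [abs_of_nonneg (norm_nonneg _), norm_sub_rev] at k3
      rw [ST2_coe' C μ hl A E J x]
      exact k3
  have heq : ∀ J, χ (∑ j ∈ Finset.range J, χ (E j) • A j) =
      χ (∑ j ∈ Finset.range J, A j * E j) := by
    intro J
    rw [map_sum, map_sum]
    refine Finset.sum_congr rfl fun j _ => ?_
    rw [map_smul, map_mul, smul_eq_mul, mul_comm]
  exact tendsto_nhds_unique (hQ'.congr heq) hD'

/-- `(invA f) x = f x⁻¹` on the algebra -/
theorem exists_inv (f : Aexp C hl) : ∃ g : Aexp C hl, ∀ x, (g : G → ℂ) x = (f : G → ℂ) x⁻¹ := by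
  refine ⟨⟨fun x => (f : G → ℂ) x⁻¹, C.hol_inv f.2.1, ?_⟩, fun x => rfl⟩
  obtain ⟨M, R, hM, hR, h⟩ := f.2.2
  exact ⟨M, R, hM, hR, fun x => by rw [← hl.inv x]; exact h _⟩

/-- the kernels `(y, z) ↦ g (x y z⁻¹)` -/
private theorem ST2_ker (g : Aexp C hl) (y : G) : (fun z => (g : G → ℂ) (y * z⁻¹)) ∈ Aexp C hl := by
  obtain ⟨g', hg'⟩ := exists_inv C μ hl (Lt C hl y g)
  have : (fun z => (g : G → ℂ) (y * z⁻¹)) = (g' : G → ℂ) := by
    funext z
    rw [hg']
    rfl
  rw [this]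
  exact g'.2

/-- Surjectivity of `f ↦ (x ↦ χ (L_x f))` with bounds: for every `g` bounded by `exp (R l)` there is
`f` bounded by `B exp (R l)` with `χ (L_x f) = g x` for all `x`, namely
`f y = χ (z ↦ g (y z⁻¹))` (`apply_kernel`, `char_kernel` for the kernel
`(y, z) ↦ g (x y z⁻¹)`, whose diagonal is the constant `g x`). -/
theorem char_surj (χ : Aexp C hl →ₐ[ℂ] ℂ) (hχ : Cts C hl χ) (R : ℝ) (hR : 0 ≤ R) :
    ∃ B : ℝ, 0 ≤ B ∧ ∀ g : Aexp C hl, (∀ x, ‖(g : G → ℂ) x‖ ≤ Real.exp (R * l x)) →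
      ∃ f : Aexp C hl, (∀ x, ‖(f : G → ℂ) x‖ ≤ B * Real.exp (R * l x)) ∧
        ∀ x, χ (Lt C hl x f) = (g : G → ℂ) x := by
  obtain ⟨B, hB, hBb⟩ := hχ R hR
  refine ⟨B, hB, fun g hg => ?_⟩
  have hgc : Continuous (g : G → ℂ) := C.hol_continuous g.2.1
  let P : G → Aexp C hl := fun y => ⟨fun z => (g : G → ℂ) (y * z⁻¹), ST2_ker C μ hl g y⟩
  -- bound of the kernels
  have hkb : ∀ x y z, ‖(g : G → ℂ) (x * y * z⁻¹)‖ ≤ Real.exp (R * l x) *
      Real.exp (R * (l y + l z)) := by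
    intro x y z
    refine (hg _).trans ?_
    rw [← Real.exp_add, ← mul_add]
    apply Real.exp_le_exp.2
    have k1 := hl.mul (x * y) z⁻¹
    have k2 := hl.mul x y
    rw [hl.inv] at k1
    exact mul_le_mul_of_nonneg_left (by linarith) hR
  have hkc : ∀ x, Continuous (fun p : G × G => (g : G → ℂ) (x * p.1 * p.2⁻¹)) := fun x =>
    hgc.comp (by fun_prop)
  have hkh : ∀ x z, C.Hol (fun y => (g : G → ℂ) (x * y * z⁻¹)) := fun x z =>
    C.hol_left (C.hol_right g.2.1 z⁻¹) x
  have hfA : (fun y => χ.toLinearMap (P y)) ∈ Aexp C hl := by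
    refine apply_kernel C μ hl (K := fun y z => (g : G → ℂ) (1 * y * z⁻¹)) (hkc 1) (hkh 1)
      (Real.exp_pos _).le hR (hkb 1) P (fun y z => ?_) χ.toLinearMap hχ
    show (g : G → ℂ) (y * z⁻¹) = (g : G → ℂ) (1 * y * z⁻¹)
    rw [one_mul]
  refine ⟨⟨_, hfA⟩, fun y => ?_, fun x => ?_⟩
  · have h3 := ST2_scale C μ hl χ.toLinearMap (R := R) (m := B) hBb (P y)
      (t := Real.exp (R * l y)) (Real.exp_pos _) (fun z => ?_)
    · exact h3
    · show ‖(g : G → ℂ) (y * z⁻¹)‖ ≤ _
      refine (hg _).trans ?_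
      rw [← Real.exp_add, ← mul_add]
      apply Real.exp_le_exp.2
      have k1 := hl.mul y z⁻¹
      rw [hl.inv] at k1
      exact mul_le_mul_of_nonneg_left (by linarith) hR
  · have h4 := char_kernel C μ hl (K := fun y z => (g : G → ℂ) (x * y * z⁻¹)) (hkc x) (hkh x)
      (Real.exp_pos _).le hR (hkb x) (fun y => P (x * y)) (fun y z => rfl) χ hχ
      (Lt C hl x ⟨_, hfA⟩) (fun y => rfl) (algebraMap ℂ (Aexp C hl) ((g : G → ℂ) x)) (fun y => ?_)
    · rw [h4, AlgHom.commutes]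
      rfl
    · show (g : G → ℂ) x = (g : G → ℂ) (x * y * y⁻¹)
      rw [mul_inv_cancel_right]

/-- Statement (T): injectivity. `f ↦ χ (f ∘ inv)` is again a continuous character `χ'`; with
`q x = χ (L_x h) = 0`, `h x = χ'_y (χ_z (h (x y z)))`-type identity: apply `char_kernel` to `χ'` and
the kernel `(y, z) ↦ h (x y z⁻¹)`; `χ' (z ↦ h (x y z⁻¹)) = χ (z ↦ h (x y z)) = q (x y) = 0`, so
`0 = h x`. -/
theorem char_inj (χ : Aexp C hl →ₐ[ℂ] ℂ) (hχ : Cts C hl χ) (h : Aexp C hl)
    (h0 : ∀ x, χ (Lt C hl x h) = 0) : h = 0 := by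
  choose inv hinv using exists_inv C μ hl
  let invA : Aexp C hl →ₐ[ℂ] Aexp C hl :=
    { toFun := inv
      map_one' := by
        apply Subtype.ext
        funext x
        rw [hinv]
        rfl
      map_mul' := fun f g => by
        apply Subtype.ext
        funext x
        have e1 : ((inv f * inv g : Aexp C hl) : G → ℂ) x = (inv f : G → ℂ) x * (inv g : G → ℂ) x := rfl
        rw [hinv, e1, hinv, hinv]
        rfl
      map_zero' := by
        apply Subtype.ext
        funext x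
        rw [hinv]
        rfl
      map_add' := fun f g => by
        apply Subtype.ext
        funext x
        have e1 : ((inv f + inv g : Aexp C hl) : G → ℂ) x = (inv f : G → ℂ) x + (inv g : G → ℂ) x := rfl
        rw [hinv, e1, hinv, hinv]
        rfl
      commutes' := fun c => by
        apply Subtype.ext
        funext x
        rw [hinv]
        rfl }
  have hinvA : ∀ f x, (invA f : G → ℂ) x = (f : G → ℂ) x⁻¹ := hinv
  let χ' : Aexp C hl →ₐ[ℂ] ℂ := χ.comp invA
  have hχ' : Cts C hl χ' := by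
    intro R hR
    obtain ⟨m, hm0, hm⟩ := hχ R hR
    refine ⟨m, hm0, fun f hf => ?_⟩
    refine hm (invA f) fun x => ?_
    rw [hinvA, ← hl.inv x]
    exact hf _
  obtain ⟨M, R, hM, hR, hb⟩ := h.2.2
  have hhc : Continuous (h : G → ℂ) := C.hol_continuous h.2.1
  apply Subtype.ext
  funext x
  let P : G → Aexp C hl := fun y => ⟨fun z => (h : G → ℂ) (x * y * z⁻¹), ST2_ker C μ hl h (x * y)⟩
  have hPχ : ∀ y, χ' (P y) = 0 := by
    intro y
    have e1 : invA (P y) = Lt C hl (x * y) h := by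
      apply Subtype.ext
      funext z
      rw [hinvA]
      show (h : G → ℂ) (x * y * z⁻¹⁻¹) = (h : G → ℂ) (x * y * z)
      rw [inv_inv]
    show χ (invA (P y)) = 0
    rw [e1]
    exact h0 _
  have hkb : ∀ y z, ‖(h : G → ℂ) (x * y * z⁻¹)‖ ≤ (M * Real.exp (R * l x)) *
      Real.exp (R * (l y + l z)) := by
    intro y z
    refine (hb _).trans ?_
    rw [mul_assoc M, ← Real.exp_add, ← mul_add]
    apply mul_le_mul_of_nonneg_left _ hM
    apply Real.exp_le_exp.2
    have k1 := hl.mul (x * y) z⁻¹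
    have k2 := hl.mul x y
    rw [hl.inv] at k1
    exact mul_le_mul_of_nonneg_left (by linarith) hR
  have h4 := char_kernel C μ hl (K := fun y z => (h : G → ℂ) (x * y * z⁻¹))
    (hhc.comp (by fun_prop)) (fun z => C.hol_left (C.hol_right h.2.1 z⁻¹) x)
    (by positivity) hR hkb P (fun y z => rfl) χ' hχ' 0 (fun y => by rw [hPχ]; rfl)
    (algebraMap ℂ (Aexp C hl) ((h : G → ℂ) x)) (fun y => ?_)
  · rw [map_zero, AlgHom.commutes] at h4
    exact h4.symm
  · show (h : G → ℂ) x = (h : G → ℂ) (x * y * y⁻¹)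
    rw [mul_inv_cancel_right]

end HR
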