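import Pool.Agent.W_06f097_h43.ST1
import Pool.Agent.W_06f097_h43.ST2

/-! MP_06f097_an blueprint, block ST: compactness of bounded sets, first claim of step (A). -/

open scoped Topology ContDiff
open MeasureTheory Set Filter Metric

set_option linter.unusedSectionVars false

noncomputable section

namespace HR

variable {n : ℕ} {G : Type*} [Group G] [TopologicalSpace G] [IsTopologicalGroup G] [T2Space G]
  [LocallyCompactSpace G] [SecondCountableTopology G] [MeasurableSpace G] [BorelSpace G]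
  (C : CLG n G) (μ : Measure G) [μ.IsHaarMeasure] {l : G → ℝ} (hl : Len μ l)

/-- limits along an ultrafilter on which all functions of the algebra are bounded -/
theorem ST3_char {S : Set G} (hS : ∀ R : ℝ, 0 ≤ R → ∃ B : ℝ, ∀ x ∈ S, om C hl R x ≤ B)
    (U : Ultrafilter G) (hU : S ∈ U) :
    ∃ χ : Aexp C hl →ₐ[ℂ] ℂ, Cts C hl χ ∧
      ∀ f : Aexp C hl, Tendsto (fun x => (f : G → ℂ) x) U (𝓝 (χ f)) := by
  have hlim : ∀ (f : Aexp C hl) (M R : ℝ), 0 ≤ M → 0 ≤ R →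
      (∀ x, ‖(f : G → ℂ) x‖ ≤ M * Real.exp (R * l x)) →
      ∀ B : ℝ, (∀ x ∈ S, om C hl R x ≤ B) →
      ∃ a ∈ closedBall (0 : ℂ) (M * B), Tendsto (fun x => (f : G → ℂ) x) U (𝓝 a) := by
    intro f M R hM hR hf B hB
    have h1 : ((U.map (fun x => (f : G → ℂ) x) : Ultrafilter ℂ) : Filter ℂ) ≤
        𝓟 (closedBall (0 : ℂ) (M * B)) := by
      rw [Ultrafilter.coe_map, le_principal_iff, mem_map]
      refine mem_of_superset (Ultrafilter.mem_coe.2 hU) ?_
      intro x hx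
      simp only [mem_preimage, mem_closedBall, dist_zero_right]
      exact (le_om C μ hl hM f hf x).trans (mul_le_mul_of_nonneg_left (hB x hx) hM)
    obtain ⟨a, ha, ha'⟩ := (isCompact_closedBall (0 : ℂ) (M * B)).ultrafilter_le_nhds _ h1
    exact ⟨a, ha, ha'⟩
  have hex : ∀ f : Aexp C hl, ∃ a : ℂ, Tendsto (fun x => (f : G → ℂ) x) U (𝓝 a) := by
    intro f
    obtain ⟨M, R, hM, hR, hf⟩ := f.2.2
    obtain ⟨B, hB⟩ := hS R hR
    obtain ⟨a, _, ha⟩ := hlim f M R hM hR hf B hB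
    exact ⟨a, ha⟩
  choose c hc using hex
  have huniq : ∀ (f : Aexp C hl) (a : ℂ), Tendsto (fun x => (f : G → ℂ) x) U (𝓝 a) → c f = a :=
    fun f a ha => tendsto_nhds_unique (hc f) ha
  refine ⟨AlgHom.ofLinearMap
    { toFun := c
      map_add' := fun f g => huniq _ _ ((hc f).add (hc g))
      map_smul' := fun t f => huniq _ _ ((hc f).const_mul t) } ?_ ?_, ?_, fun f => hc f⟩
  · exact huniq _ _ tendsto_const_nhds
  · intro f g
    exact huniq _ _ ((hc f).mul (hc g))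
  · intro R hR
    obtain ⟨B, hB⟩ := hS R hR
    refine ⟨max B 0, le_max_right _ _, fun f hf => ?_⟩
    obtain ⟨a, ha, ha'⟩ := hlim f 1 R zero_le_one hR (fun x => by rw [one_mul]; exact hf x) B hB
    have e : c f = a := huniq f a ha'
    show ‖c f‖ ≤ _
    rw [e]
    rw [mem_closedBall, dist_zero_right, one_mul] at ha
    exact ha.trans (le_max_left _ _)

/-- Step (1). If `S` is not relatively compact there is an ultrafilter `U` with `S ∈ U` and
`U ≤ cocompact G`. `χ f = lim_U f` is a continuous character (all limits exist because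
`|f x| ≤ M om_R(x)` is bounded on `S`). For every `y`, `χ (L_y h) = lim_U h (y x) = 0`, as
`|h (y x)| ≤ ε(y x) om(y) om(x)` and `y x → ∞`. By `char_inj` `h = 0`. -/
theorem rel_compact {h : Aexp C hl} {W₀ : G → ℝ} (hW : IsWA C hl W₀)
    (hh : C.MemH μ W₀ (h : G → ℂ)) (h0 : (h : G → ℂ) ≠ 0) {S : Set G}
    (hS : ∀ R : ℝ, 0 ≤ R → ∃ B : ℝ, ∀ x ∈ S, om C hl R x ≤ B) :
    ∃ K : Set G, IsCompact K ∧ S ⊆ K := by
  by_contra hcon
  push Not at hcon
  have hne : (cocompact G ⊓ 𝓟 S).NeBot := by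
    rw [← frequently_mem_iff_neBot]
    intro hev
    rw [Filter.Eventually, mem_cocompact] at hev
    obtain ⟨K, hK, hK'⟩ := hev
    obtain ⟨x, hx, hxK⟩ := not_subset.1 (hcon K hK)
    exact hK' hxK hx
  obtain ⟨U, hU⟩ := Ultrafilter.exists_le (cocompact G ⊓ 𝓟 S)
  have hUc : (U : Filter G) ≤ cocompact G := hU.trans inf_le_left
  have hUS : S ∈ U := hU (mem_inf_of_right (mem_principal_self S))
  obtain ⟨χ, hχ, hlim⟩ := ST3_char C μ hl hS U hUS
  obtain ⟨R, hR, ε, hε0, hε, hdec⟩ := loc_decay C μ hl hW hh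
  obtain ⟨B, hB⟩ := hS R hR
  apply h0
  have h1 : h = 0 := by
    apply char_inj C μ hl χ hχ h
    intro y
    have h2 := hlim (Lt C hl y h)
    have h3 : Tendsto (fun x => y * x) (cocompact G) (cocompact G) :=
      (Homeomorph.mulLeft y).isClosedEmbedding.tendsto_cocompact
    have h4 : Tendsto (fun x => ε (y * x) * (om C hl R y * B)) U (𝓝 (0 * (om C hl R y * B))) :=
      ((hε.comp h3).mono_left hUc).mul_const _
    rw [zero_mul] at h4
    have h5 : Tendsto (fun x => ((Lt C hl y h : Aexp C hl) : G → ℂ) x) U (𝓝 0) := by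
      apply squeeze_zero_norm' _ h4
      filter_upwards [hUS] with x hx
      have e1 : ((Lt C hl y h : Aexp C hl) : G → ℂ) x = (h : G → ℂ) (y * x) := rfl
      rw [e1]
      refine (hdec (y * x)).trans ?_
      apply mul_le_mul_of_nonneg_left _ (hε0 _)
      refine (om_mul C μ hl R hR y x).trans ?_
      exact mul_le_mul_of_nonneg_left (hB x hx) (zero_le_one.trans (one_le_om C μ hl hR y))
    exact tendsto_nhds_unique h2 h5
  rw [h1]
  rfl

theorem ST3_cont (χ : Aexp C hl →ₐ[ℂ] ℂ) (hχ : Cts C hl χ) (f : Aexp C hl) :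
    Continuous (fun y => χ (Lt C hl y f)) := by
  obtain ⟨M, R, hM, hR, hf⟩ := f.2.2
  have hfc : Continuous (f : G → ℂ) := C.hol_continuous f.2.1
  have h1 := apply_kernel C μ hl (K := fun x y => (f : G → ℂ) (x * y))
    (hfc.comp (continuous_fst.mul continuous_snd)) (fun y => C.hol_right f.2.1 y) hM hR
    (fun x y => (hf (x * y)).trans (by
      have := hl.mul x y
      gcongr)) (fun x => Lt C hl x f) (fun x y => rfl) χ.toLinearMap hχ
  exact C.hol_continuous h1.1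

/-- Step (A), first claim. If for every `R` and `c₁ > 0` there is a bad `x`, choose `x_k` bad for
`R = k`, `c₁ = 1/(k+1)`. By `char_surj` every `g` with `|g| ≤ exp (R l)` satisfies
`|g (x_k⁻¹)| = |χ (L_{x_k⁻¹} f)| ≤ |f 1| + B/(k+1) ≤ 2 B` for `k ≥ R`, so `om_R(x_k)` is bounded
(`om_inv`); by `rel_compact` the `x_k` have a cluster point `x`, and `χ (L_{x⁻¹} f) = f 1` for all
`f`, i.e. `χ = δ_x` (replace `f` by `L_x f`). (`y ↦ χ (L_y f)` is continuous: `apply_kernel`.) -/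
theorem char_far {h : Aexp C hl} {W₀ : G → ℝ} (hW : IsWA C hl W₀)
    (hh : C.MemH μ W₀ (h : G → ℂ)) (h0 : (h : G → ℂ) ≠ 0)
    (χ : Aexp C hl →ₐ[ℂ] ℂ) (hχ : Cts C hl χ)
    (hne : ∀ x, ∃ f : Aexp C hl, χ f ≠ (f : G → ℂ) x) :
    ∃ R c₁ : ℝ, 0 ≤ R ∧ 0 < c₁ ∧ ∀ x, ∃ f : Aexp C hl,
      (∀ y, ‖(f : G → ℂ) y‖ ≤ Real.exp (R * l y)) ∧
      c₁ ≤ ‖(f : G → ℂ) 1 - χ (Lt C hl x⁻¹ f)‖ := by
  by_contra hcon
  push Not at hcon
  have hk : ∀ k : ℕ, ∃ x : G, ∀ f : Aexp C hl,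
      (∀ y, ‖(f : G → ℂ) y‖ ≤ Real.exp ((k : ℝ) * l y)) →
      ‖(f : G → ℂ) 1 - χ (Lt C hl x⁻¹ f)‖ < 1 / ((k : ℝ) + 1) := fun k =>
    hcon k (1 / ((k : ℝ) + 1)) (by positivity) (by positivity)
  choose x hx using hk
  have hexp : ∀ {R R' : ℝ}, R ≤ R' → ∀ y, Real.exp (R * l y) ≤ Real.exp (R' * l y) := by
    intro R R' h y
    apply Real.exp_le_exp.2
    exact mul_le_mul_of_nonneg_right h (hl.nonneg y)
  -- scaling
  have hscale : ∀ (f : Aexp C hl) (M R : ℝ), 0 ≤ M →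
      (∀ y, ‖(f : G → ℂ) y‖ ≤ M * Real.exp (R * l y)) → ∀ k : ℕ, R ≤ k →
      ‖(f : G → ℂ) 1 - χ (Lt C hl (x k)⁻¹ f)‖ ≤ (M + 1) * (1 / ((k : ℝ) + 1)) := by
    intro f M R hM hf k hRk
    have hM1 : (0 : ℝ) < M + 1 := by positivity
    set g : Aexp C hl := ((M + 1 : ℝ) : ℂ)⁻¹ • f with hg
    have hg1 : ∀ y, (g : G → ℂ) y = ((M + 1 : ℝ) : ℂ)⁻¹ * (f : G → ℂ) y := fun y => rfl
    have hgb : ∀ y, ‖(g : G → ℂ) y‖ ≤ Real.exp ((k : ℝ) * l y) := by
      intro y
      rw [hg1, norm_mul, norm_inv, Complex.norm_real, Real.norm_eq_abs, abs_of_pos hM1,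
        inv_mul_le_iff₀ hM1]
      calc ‖(f : G → ℂ) y‖ ≤ M * Real.exp (R * l y) := hf y
        _ ≤ (M + 1) * Real.exp ((k : ℝ) * l y) := by
            have := hexp hRk y
            gcongr
            linarith
    have h1 := hx k g hgb
    have h2 : Lt C hl (x k)⁻¹ g = ((M + 1 : ℝ) : ℂ)⁻¹ • Lt C hl (x k)⁻¹ f := rfl
    rw [h2, map_smul, hg1, smul_eq_mul, ← mul_sub, norm_mul, norm_inv, Complex.norm_real,
      Real.norm_eq_abs, abs_of_pos hM1, inv_mul_lt_iff₀ hM1] at h1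
    exact h1.le
  -- boundedness
  have hbdd : ∀ R : ℝ, 0 ≤ R → ∃ B : ℝ, ∀ y ∈ range x, om C hl R y ≤ B := by
    intro R hR
    obtain ⟨B, hB0, hB⟩ := char_surj C μ hl χ hχ R hR
    have hev : ∀ k : ℕ, R ≤ k → om C hl R (x k) ≤ B * Real.exp (R * l 1) + (B + 1) := by
      intro k hk
      rw [← om_inv C μ hl R (x k)]
      apply csSup_le
      · refine ⟨_, (0 : Aexp C hl), fun y => ?_, rfl⟩
        have : ((0 : Aexp C hl) : G → ℂ) y = 0 := rfl
        rw [this, norm_zero]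
        positivity
      · rintro _ ⟨g, hg, rfl⟩
        obtain ⟨f, hf1, hf2⟩ := hB g hg
        rw [← hf2]
        have h1 := hscale f B R hB0 hf1 k hk
        have h2 : (1 : ℝ) / ((k : ℝ) + 1) ≤ 1 := by
          rw [div_le_one (by positivity)]
          have : (0 : ℝ) ≤ k := by positivity
          linarith
        calc ‖χ (Lt C hl (x k)⁻¹ f)‖ = ‖(f : G → ℂ) 1 - ((f : G → ℂ) 1 -
              χ (Lt C hl (x k)⁻¹ f))‖ := by rw [sub_sub_cancel]
          _ ≤ ‖(f : G → ℂ) 1‖ + ‖(f : G → ℂ) 1 - χ (Lt C hl (x k)⁻¹ f)‖ := norm_sub_le _ _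
          _ ≤ B * Real.exp (R * l 1) + (B + 1) * 1 := by
              refine add_le_add (hf1 1) (h1.trans ?_)
              gcongr
          _ = _ := by rw [mul_one]
    have hbu : IsBoundedUnder (· ≤ ·) atTop (fun k => om C hl R (x k)) := by
      refine ⟨B * Real.exp (R * l 1) + (B + 1), ?_⟩
      rw [eventually_map]
      obtain ⟨N, hN⟩ := exists_nat_ge R
      filter_upwards [eventually_ge_atTop N] with k hk
      exact hev k (hN.trans (by exact_mod_cast hk))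
    obtain ⟨B', hB'⟩ := hbu.bddAbove_range
    refine ⟨B', ?_⟩
    rintro _ ⟨k, rfl⟩
    exact hB' ⟨k, rfl⟩
  obtain ⟨K, hK, hxK⟩ := rel_compact C μ hl hW hh h0 hbdd
  obtain ⟨a, _, φ, hφ, hlim⟩ := hK.tendsto_subseq (fun k => hxK ⟨k, rfl⟩)
  have hfin : ∀ f : Aexp C hl, χ (Lt C hl a⁻¹ f) = (f : G → ℂ) 1 := by
    intro f
    have h1 : Tendsto (fun k => χ (Lt C hl (x (φ k))⁻¹ f)) atTop (𝓝 (χ (Lt C hl a⁻¹ f))) :=
      ((ST3_cont C μ hl χ hχ f).tendsto (a⁻¹)).comp hlim.inv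
    obtain ⟨M, R, hM, hR, hf⟩ := f.2.2
    have h2 : Tendsto (fun k => (M + 1) * (1 / (((φ k : ℕ) : ℝ) + 1))) atTop (𝓝 0) := by
      have := (tendsto_one_div_add_atTop_nhds_zero_nat (𝕜 := ℝ)).comp hφ.tendsto_atTop
      simpa using this.const_mul (M + 1)
    have h3 : Tendsto (fun k => (f : G → ℂ) 1 - χ (Lt C hl (x (φ k))⁻¹ f)) atTop (𝓝 0) := by
      apply squeeze_zero_norm' _ h2
      obtain ⟨N, hN⟩ := exists_nat_ge R
      filter_upwards [eventually_ge_atTop N] with k hk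
      exact hscale f M R hM hf (φ k) (hN.trans (by exact_mod_cast hk.trans (hφ.id_le k)))
    have h4 := tendsto_nhds_unique h3 (tendsto_const_nhds.sub h1)
    exact (sub_eq_zero.1 h4.symm).symm
  obtain ⟨f, hf⟩ := hne a
  apply hf
  have h1 := hfin (Lt C hl a f)
  have h2 : Lt C hl a⁻¹ (Lt C hl a f) = f := by
    apply Subtype.ext
    funext y
    show (f : G → ℂ) (a * (a⁻¹ * y)) = (f : G → ℂ) y
    rw [mul_inv_cancel_left]
  rw [h2] at h1
  rw [h1]
  show (f : G → ℂ) (a * 1) = _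
  rw [mul_one]

end HR
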