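import Pool.Agent.W_06f097_h43.ST3
import Pool.Agent.W_06f097_h43.SK4

/-! MP_06f097_an blueprint, block ST: step (A), characters are points. -/

open scoped Topology ContDiff
open MeasureTheory Set Filter Metric

noncomputable section

namespace HR

variable {n : ℕ} {G : Type*} [Group G] [TopologicalSpace G] [IsTopologicalGroup G] [T2Space G]
  [LocallyCompactSpace G] [SecondCountableTopology G] [MeasurableSpace G] [BorelSpace G]
  (C : CLG n G) (μ : Measure G) [μ.IsHaarMeasure] {l : G → ℝ} (hl : Len μ l)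

/-- the constant functions -/
theorem ST4_const_apply (t : ℂ) (x : G) : ((algebraMap ℂ (Aexp C hl) t : Aexp C hl) : G → ℂ) x = t :=
  rfl

theorem ST4_zero_memH {W : G → ℝ} : C.MemH μ W (fun _ => (0 : ℂ)) := by
  refine ⟨C.hol_const 0, ?_⟩
  simp

theorem ST4_one_le_ew {l : G → ℝ} (hl0 : ∀ x, 0 ≤ l x) {R : ℝ} (hR : 0 ≤ R) (x : G) :
    1 ≤ ew l R x := by
  unfold ew
  apply Real.one_le_exp
  have := hl0 x
  positivity

theorem ST4_ew_mono {l : G → ℝ} (hl0 : ∀ x, 0 ≤ l x) {R R' : ℝ} (h : R ≤ R') (x : G) :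
    ew l R x ≤ ew l R' x := by
  unfold ew
  apply Real.exp_le_exp.2
  nlinarith [hl0 x, mul_nonneg (sub_nonneg.2 h) (hl0 x)]

theorem ST4_ew_pow (l : G → ℝ) (R : ℝ) (k : ℕ) (x : G) : ew l R x ^ k = ew l (k * R) x := by
  unfold ew
  rw [← Real.exp_nat_mul]
  congr 1
  ring

/-- `om² ≤ B` from bounds of the functions -/
theorem ST4_om_sq_le {R : ℝ} (hR : 0 ≤ R) (x : G) {T : ℝ}
    (h : ∀ f : Aexp C hl, (∀ y, ‖(f : G → ℂ) y‖ ≤ Real.exp (R * l y)) →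
      ‖(f : G → ℂ) x‖ ^ 2 ≤ T) : om C hl R x ^ 2 ≤ T := by
  have hT : 0 ≤ T := by
    have h0 := h 0 (fun y => by
      have : ((0 : Aexp C hl) : G → ℂ) y = 0 := rfl
      rw [this, norm_zero]
      positivity)
    exact le_trans (by positivity) h0
  have h1 : om C hl R x ≤ Real.sqrt T := by
    unfold om
    apply csSup_le
    · refine ⟨_, 0, fun y => ?_, rfl⟩
      have : ((0 : Aexp C hl) : G → ℂ) y = 0 := rfl
      rw [this, norm_zero]
      positivity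
    · rintro t ⟨f, hf, rfl⟩
      exact Real.le_sqrt_of_sq_le (h f hf)
  have h2 : 0 ≤ om C hl R x := le_trans zero_le_one (one_le_om C μ hl hR x)
  calc om C hl R x ^ 2 ≤ Real.sqrt T ^ 2 := pow_le_pow_left₀ h2 h1 2
    _ = T := Real.sq_sqrt hT

/-- The kernel functions. `R'` from `gr_memH`; `e` an orthonormal sequence (`exists_onb`) of
`{g : χ g = 0}` in the space of `ew l R'`, `e'` of the whole space. Lower bound of
`κ = Σ |e_j|²`: with `f` from `char_far`, `f_x = L_{x⁻¹} f - χ (L_{x⁻¹} f)` satisfies `χ f_x = 0`,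
`|f_x x| ≥ c₁`, and `nH f_x ≤ B om_R(x)²`. Lower bound of `K = Σ |e'_j|²`: `K ≥ c om_R²`. -/
theorem exists_kernels (χ : Aexp C hl →ₐ[ℂ] ℂ) (hχ : Cts C hl χ) {R c₁ : ℝ} (hR : 0 ≤ R)
    (hc₁ : 0 < c₁) (hfar : ∀ x, ∃ f : Aexp C hl,
      (∀ y, ‖(f : G → ℂ) y‖ ≤ Real.exp (R * l y)) ∧
      c₁ ≤ ‖(f : G → ℂ) 1 - χ (Lt C hl x⁻¹ f)‖) :
    ∃ (e e' : ℕ → Aexp C hl) (R' B c : ℝ), 0 ≤ R' ∧ 0 ≤ B ∧ 0 < c ∧ (∀ j, χ (e j) = 0) ∧
      (∀ x, Summable (fun j => ‖(e j : G → ℂ) x‖ ^ 2) ∧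
        Summable (fun j => ‖(e' j : G → ℂ) x‖ ^ 2)) ∧
      (∀ x, ∑' j, ‖(e j : G → ℂ) x‖ ^ 2 ≤ B * ew l R' x) ∧
      (∀ x, ∑' j, ‖(e' j : G → ℂ) x‖ ^ 2 ≤ B * ew l R' x) ∧
      (∀ x, c * om C hl R x ^ 2 ≤ ∑' j, ‖(e' j : G → ℂ) x‖ ^ 2) ∧
      (∀ x, c ≤ (∑' j, ‖(e j : G → ℂ) x‖ ^ 2) * om C hl R x ^ 2) := by
  obtain ⟨R1, B1, hR1, hB1, hgr⟩ := gr_memH C μ hl R hR
  have hR1' : 0 ≤ R1 := hR.trans hR1
  have hW : AdmW (ew l R1) := ew_adm μ hl R1 hR1'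
  obtain ⟨B2, hB2, hmg⟩ := memH_gr C μ hl R1 hR1'
  obtain ⟨K, hK, hcb⟩ := cts_bound C μ hl χ.toLinearMap hχ R1 hR1'
  obtain ⟨M, hM, hχM⟩ := hχ R hR
  have hmem : ∀ {g : G → ℂ}, C.MemH μ (ew l R1) g → g ∈ Aexp C hl := fun {g} hg =>
    memH_mem_Aexp C μ hl R1 hR1' hg
  -- the kernel of the whole space
  obtain ⟨e₂, he₂, -, -, hs₂, hlow₂, hup₂⟩ := C.exists_onb μ hW {g | C.MemH μ (ew l R1) g}
    (fun g hg => hg) (ST4_zero_memH C μ) (fun f hf g hg => C.memH_add μ hW hf hg)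
    (fun t f hf => C.memH_smul μ hW hf t) (fun u g _ hg _ => hg)
  -- the kernel of the kernel of `χ`
  obtain ⟨e₁, he₁, -, -, hs₁, hlow₁, hup₁⟩ := C.exists_onb μ hW
    {g | C.MemH μ (ew l R1) g ∧ ∃ h : g ∈ Aexp C hl, χ ⟨g, h⟩ = 0}
    (fun g hg => hg.1)
    ⟨ST4_zero_memH C μ, (hmem (ST4_zero_memH C μ)), by
      have : (⟨fun _ => 0, hmem (ST4_zero_memH C μ)⟩ : Aexp C hl) = 0 := rfl
      rw [this, map_zero]⟩
    (by
      rintro f ⟨hf, hf1, hf2⟩ g ⟨hg, hg1, hg2⟩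
      refine ⟨C.memH_add μ hW hf hg, hmem (C.memH_add μ hW hf hg), ?_⟩
      have : (⟨fun x => f x + g x, hmem (C.memH_add μ hW hf hg)⟩ : Aexp C hl) =
        ⟨f, hf1⟩ + ⟨g, hg1⟩ := rfl
      rw [this, map_add, hf2, hg2, add_zero])
    (by
      rintro t f ⟨hf, hf1, hf2⟩
      refine ⟨C.memH_smul μ hW hf t, hmem (C.memH_smul μ hW hf t), ?_⟩
      have : (⟨fun x => t * f x, hmem (C.memH_smul μ hW hf t)⟩ : Aexp C hl) =
        t • ⟨f, hf1⟩ := rfl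
      rw [this, map_smul, hf2, smul_zero])
    (by
      intro u g hu hg hlim
      refine ⟨hg, hmem hg, ?_⟩
      have h1 : ∀ k, ‖χ ⟨g, hmem hg⟩‖ ^ 2 ≤ K * nH μ (ew l R1) (fun x => u k x - g x) := by
        intro k
        obtain ⟨hk1, hk2, hk3⟩ := hu k
        have hd := C.memH_sub μ hW hk1 hg
        have h2 := hcb ⟨fun x => u k x - g x, hmem hd⟩ hd
        have h3 : (⟨fun x => u k x - g x, hmem hd⟩ : Aexp C hl) = ⟨u k, hk2⟩ - ⟨g, hmem hg⟩ := rfl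
        have h4 : χ.toLinearMap (⟨fun x => u k x - g x, hmem hd⟩ : Aexp C hl) =
            - χ ⟨g, hmem hg⟩ := by
          rw [AlgHom.toLinearMap_apply, h3, map_sub, hk3, zero_sub]
        rw [h4, norm_neg] at h2
        exact h2
      have h5 : Tendsto (fun k => K * nH μ (ew l R1) (fun x => u k x - g x)) atTop (𝓝 (K * 0)) :=
        hlim.const_mul K
      rw [mul_zero] at h5
      have h6 : ‖χ ⟨g, hmem hg⟩‖ ^ 2 ≤ 0 := ge_of_tendsto' h5 h1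
      have h7 : ‖χ ⟨g, hmem hg⟩‖ = 0 := by
        have := sq_nonneg ‖χ ⟨g, hmem hg⟩‖
        exact pow_eq_zero_iff (two_ne_zero) |>.1 (le_antisymm h6 this)
      exact norm_eq_zero.1 h7)
  choose hm₁ ha₁ hz₁ using he₁
  refine ⟨fun j => ⟨e₁ j, ha₁ j⟩, fun j => ⟨e₂ j, hmem (he₂ j)⟩, R1, B2,
    min (1 / (B1 + 1)) (c₁ ^ 2 / ((1 + M) ^ 2 * (B1 + 1))), hR1', hB2, by positivity, hz₁,
    fun x => ⟨hs₁ x, hs₂ x⟩, fun x => ?_, fun x => ?_, fun x => ?_, fun x => ?_⟩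
  · refine hup₁ x _ (by unfold ew; positivity) fun g hg => ?_
    have := hmg g hg.1 x
    linarith [mul_right_comm B2 (nH μ (ew l R1) g) (ew l R1 x)]
  · refine hup₂ x _ (by unfold ew; positivity) fun g hg => ?_
    have := hmg g hg x
    linarith [mul_right_comm B2 (nH μ (ew l R1) g) (ew l R1 x)]
  · have h1 : om C hl R x ^ 2 ≤ (∑' j, ‖e₂ j x‖ ^ 2) * B1 := by
      refine ST4_om_sq_le C μ hl hR x fun f hf => ?_
      obtain ⟨h2, h3⟩ := hgr f f.2.1 hf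
      have h4 := hlow₂ x f h2
      have h5 : 0 ≤ ∑' j, ‖e₂ j x‖ ^ 2 := tsum_nonneg fun j => by positivity
      exact h4.trans (mul_le_mul_of_nonneg_left h3 h5)
    have h5 : 0 ≤ ∑' j, ‖e₂ j x‖ ^ 2 := tsum_nonneg fun j => by positivity
    have h6 : min (1 / (B1 + 1)) (c₁ ^ 2 / ((1 + M) ^ 2 * (B1 + 1))) * om C hl R x ^ 2 ≤
        1 / (B1 + 1) * om C hl R x ^ 2 :=
      mul_le_mul_of_nonneg_right (min_le_left _ _) (by positivity)
    refine h6.trans ?_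
    rw [one_div, inv_mul_le_iff₀ (by positivity)]
    calc om C hl R x ^ 2 ≤ (∑' j, ‖e₂ j x‖ ^ 2) * B1 := h1
      _ ≤ (∑' j, ‖e₂ j x‖ ^ 2) * (B1 + 1) := by
          apply mul_le_mul_of_nonneg_left _ h5
          linarith
      _ = (B1 + 1) * ∑' j, ‖e₂ j x‖ ^ 2 := mul_comm _ _
  · obtain ⟨f, hf, hf1⟩ := hfar x
    obtain ⟨o, ho⟩ : ∃ o, o = om C hl R x := ⟨_, rfl⟩
    have ho1 : 1 ≤ o := by
      rw [ho]
      exact one_le_om C μ hl hR x
    have ho0 : 0 < o := by linarith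
    -- the translate
    obtain ⟨g0, hg0⟩ : ∃ g0 : Aexp C hl, g0 = Lt C hl x⁻¹ f := ⟨_, rfl⟩
    have hg0b : ∀ y, ‖(g0 : G → ℂ) y‖ ≤ o * Real.exp (R * l y) := by
      intro y
      have h1 := left_le C μ hl R hR x⁻¹ y f hf
      rw [om_inv, ← ho] at h1
      rw [hg0]
      exact h1
    have hg0c : ‖χ g0‖ ≤ M * o := by
      have h1 := hχM ((o : ℂ)⁻¹ • g0) (fun y => by
        have h2 : (((o : ℂ)⁻¹ • g0 : Aexp C hl) : G → ℂ) y = (o : ℂ)⁻¹ * (g0 : G → ℂ) y := rfl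
        rw [h2, norm_mul, norm_inv, Complex.norm_real, Real.norm_eq_abs, abs_of_pos ho0,
          inv_mul_le_iff₀ ho0]
        exact hg0b y)
      rw [map_smul, smul_eq_mul, norm_mul, norm_inv, Complex.norm_real, Real.norm_eq_abs,
        abs_of_pos ho0, inv_mul_le_iff₀ ho0] at h1
      linarith [mul_comm M o]
    obtain ⟨q, hq⟩ : ∃ q : ℝ, q = o * (1 + M) := ⟨_, rfl⟩
    have hq0 : 0 < q := by
      rw [hq]
      positivity
    obtain ⟨g, hg⟩ : ∃ g : Aexp C hl, g = (q : ℂ)⁻¹ • (g0 - algebraMap ℂ (Aexp C hl) (χ g0)) :=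
      ⟨_, rfl⟩
    have hgy : ∀ y, (g : G → ℂ) y = (q : ℂ)⁻¹ * ((g0 : G → ℂ) y - χ g0) := by
      intro y
      rw [hg]
      rfl
    have hgb : ∀ y, ‖(g : G → ℂ) y‖ ≤ Real.exp (R * l y) := by
      intro y
      rw [hgy, norm_mul, norm_inv, Complex.norm_real, Real.norm_eq_abs, abs_of_pos hq0,
        inv_mul_le_iff₀ hq0, hq]
      have h1 := norm_sub_le ((g0 : G → ℂ) y) (χ g0)
      have h2 : 1 ≤ Real.exp (R * l y) := Real.one_le_exp (mul_nonneg hR (hl.nonneg y))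
      have h3 := hg0b y
      have h4 : M * o ≤ M * o * Real.exp (R * l y) := le_mul_of_one_le_right (by positivity) h2
      nlinarith [h1, h3, h4, hg0c]
    have hgχ : χ g = 0 := by
      rw [hg, map_smul, map_sub, AlgHom.commutes, Algebra.algebraMap_self, RingHom.id_apply,
        sub_self, smul_zero]
    have hgx : ‖(g : G → ℂ) x‖ = q⁻¹ * ‖(f : G → ℂ) 1 - χ (Lt C hl x⁻¹ f)‖ := by
      rw [hgy, norm_mul, norm_inv, Complex.norm_real, Real.norm_eq_abs, abs_of_pos hq0, hg0]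
      have h1 : ((Lt C hl x⁻¹ f : Aexp C hl) : G → ℂ) x = (f : G → ℂ) 1 := by
        show (f : G → ℂ) (x⁻¹ * x) = (f : G → ℂ) 1
        rw [inv_mul_cancel]
      rw [h1]
    obtain ⟨hg2, hg3⟩ := hgr g g.2.1 hgb
    have h4 := hlow₁ x g ⟨hg2, g.2, hgχ⟩
    have h5 : 0 ≤ ∑' j, ‖e₁ j x‖ ^ 2 := tsum_nonneg fun j => by positivity
    have h6 : (q⁻¹ * c₁) ^ 2 ≤ (∑' j, ‖e₁ j x‖ ^ 2) * (B1 + 1) := by
      have h7 : (q⁻¹ * c₁) ^ 2 ≤ ‖(g : G → ℂ) x‖ ^ 2 := by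
        rw [hgx]
        apply pow_le_pow_left₀ (by positivity)
        exact mul_le_mul_of_nonneg_left hf1 (by positivity)
      refine h7.trans (h4.trans ?_)
      apply mul_le_mul_of_nonneg_left _ h5
      linarith
    refine (min_le_right _ _).trans ?_
    rw [div_le_iff₀ (by positivity), ← ho]
    rw [inv_mul_eq_div, div_pow, div_le_iff₀ (by positivity), hq] at h6
    calc c₁ ^ 2 ≤ (∑' j, ‖e₁ j x‖ ^ 2) * (B1 + 1) * (o * (1 + M)) ^ 2 := h6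
      _ = (∑' j, ‖e₁ j x‖ ^ 2) * o ^ 2 * ((1 + M) ^ 2 * (B1 + 1)) := by ring

/-- the family `(ε, e_0, .., e_(J-1))` -/
theorem ST4_sum (t : ℝ) (e : ℕ → Aexp C hl) (J : ℕ) (x : G) :
    ∑ i, ‖((Fin.cons (algebraMap ℂ (Aexp C hl) (t : ℂ)) (fun i : Fin J => e i) :
      Fin (J + 1) → Aexp C hl) i : G → ℂ) x‖ ^ 2 =
      t ^ 2 + ∑ j ∈ Finset.range J, ‖(e j : G → ℂ) x‖ ^ 2 := by
  rw [Fin.sum_univ_succ]
  simp only [Fin.cons_zero, Fin.cons_succ]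
  rw [ST4_const_apply, Complex.norm_real, Real.norm_eq_abs, sq_abs,
    Fin.sum_univ_eq_sum_range (fun j => ‖(e j : G → ℂ) x‖ ^ 2) J]

/-- the analytic core of step (A) -/
theorem ST4_zero {s : G → ℝ} (hs : C.Kah s) (χ : Aexp C hl →ₐ[ℂ] ℂ) (hχ : Cts C hl χ)
    {e e' : ℕ → Aexp C hl} {R R' B c : ℝ} (hR : 0 ≤ R) (hR' : 0 ≤ R') (hB : 0 ≤ B) (hc : 0 < c)
    (he : ∀ j, χ (e j) = 0)
    (hsum : ∀ x, Summable (fun j => ‖(e j : G → ℂ) x‖ ^ 2) ∧
      Summable (fun j => ‖(e' j : G → ℂ) x‖ ^ 2))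
    (hu : ∀ x, ∑' j, ‖(e j : G → ℂ) x‖ ^ 2 ≤ B * ew l R' x)
    (hu' : ∀ x, ∑' j, ‖(e' j : G → ℂ) x‖ ^ 2 ≤ B * ew l R' x)
    (hl1 : ∀ x, c * om C hl R x ^ 2 ≤ ∑' j, ‖(e' j : G → ℂ) x‖ ^ 2)
    (hl2 : ∀ x, c ≤ (∑' j, ‖(e j : G → ℂ) x‖ ^ 2) * om C hl R x ^ 2)
    {h : Aexp C hl} {W₀ : G → ℝ} (hW : IsWA C hl W₀) (hh : C.MemH μ W₀ (h : G → ℂ)) :
    χ h = 0 := by
  obtain ⟨R0, B0, hR0, hB0, hgr⟩ := isWA_growth C μ hl hW
  obtain ⟨c0, hc0, hWc⟩ := hW.choose_spec.choose_spec.2.2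
  have hl0 := hl.nonneg
  -- the partial sums
  obtain ⟨k1, hk1⟩ : ∃ k1 : ℕ → G → ℝ, k1 = fun J x =>
    ∑ j ∈ Finset.range J, ‖(e j : G → ℂ) x‖ ^ 2 := ⟨_, rfl⟩
  obtain ⟨k2, hk2⟩ : ∃ k2 : ℕ → G → ℝ, k2 = fun J x =>
    ∑ j ∈ Finset.range J, ‖(e' j : G → ℂ) x‖ ^ 2 := ⟨_, rfl⟩
  obtain ⟨κ, hκ⟩ : ∃ κ : G → ℝ, κ = fun x => ∑' j, ‖(e j : G → ℂ) x‖ ^ 2 := ⟨_, rfl⟩
  obtain ⟨L, hL⟩ : ∃ L : G → ℝ, L = fun x => ∑' j, ‖(e' j : G → ℂ) x‖ ^ 2 := ⟨_, rfl⟩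
  have hk1n : ∀ J x, 0 ≤ k1 J x := fun J x => by
    rw [hk1]
    exact Finset.sum_nonneg fun j _ => by positivity
  have hk2n : ∀ J x, 0 ≤ k2 J x := fun J x => by
    rw [hk2]
    exact Finset.sum_nonneg fun j _ => by positivity
  have hk1l : ∀ J x, k1 J x ≤ κ x := fun J x => by
    rw [hk1, hκ]
    exact (hsum x).1.sum_le_tsum _ fun j _ => by positivity
  have hk2l : ∀ J x, k2 J x ≤ L x := fun J x => by
    rw [hk2, hL]
    exact (hsum x).2.sum_le_tsum _ fun j _ => by positivity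
  have hk1t : ∀ x, Tendsto (fun J => k1 J x) atTop (𝓝 (κ x)) := fun x => by
    rw [hk1, hκ]
    exact (hsum x).1.hasSum.tendsto_sum_nat
  have hk2t : ∀ x, Tendsto (fun J => k2 J x) atTop (𝓝 (L x)) := fun x => by
    rw [hk2, hL]
    exact (hsum x).2.hasSum.tendsto_sum_nat
  have hW0 : ∀ x, 0 < W₀ x := fun x => hc0.trans_le (hWc x)
  -- growth
  obtain ⟨P, hP⟩ : ∃ P, P = B0 + B + 1 := ⟨_, rfl⟩
  obtain ⟨Q, hQ⟩ : ∃ Q, Q = R0 + R' := ⟨_, rfl⟩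
  have hQ0 : 0 ≤ Q := by
    rw [hQ]
    positivity
  have hP0 : 0 ≤ P := by
    rw [hP]
    positivity
  have hewR0 : ∀ x, ew l R0 x ≤ ew l Q x := fun x => ST4_ew_mono hl0 (by rw [hQ]; linarith) x
  have hewR' : ∀ x, ew l R' x ≤ ew l Q x := fun x => ST4_ew_mono hl0 (by rw [hQ]; linarith) x
  have hew1 : ∀ x, 1 ≤ ew l Q x := fun x => ST4_one_le_ew hl0 hQ0 x
  have hg2 : ∀ J x, W₀ x + k2 J x ≤ P * ew l Q x := by
    intro J x
    have h1 := (hgr x).trans (mul_le_mul_of_nonneg_left (hewR0 x) hB0.le)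
    have h2 := ((hk2l J x).trans (by rw [hL]; exact hu' x)).trans
      (mul_le_mul_of_nonneg_left (hewR' x) hB)
    have h3 := hew1 x
    rw [hP]
    linarith
  have hg1 : ∀ (t : ℝ), 0 < t → t ≤ 1 → ∀ J x, t ^ 2 + k1 J x ≤ P * ew l Q x := by
    intro t ht0 ht1 J x
    have h2 := ((hk1l J x).trans (by rw [hκ]; exact hu x)).trans
      (mul_le_mul_of_nonneg_left (hewR' x) hB)
    have h3 := hew1 x
    have h4 : t ^ 2 ≤ 1 := by nlinarith
    have h5 : 0 ≤ B0 * ew l Q x := by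
      have := h3
      positivity
    rw [hP]
    linarith
  -- the bound of `χ`
  obtain ⟨K, hK, hcb⟩ := cts_bound C μ hl χ.toLinearMap hχ ((2 * (n + 3) : ℕ) * Q) (by positivity)
  obtain ⟨T, hT⟩ : ∃ T, T = K * P ^ (2 * (n + 3)) := ⟨_, rfl⟩
  have hT0 : 0 ≤ T := by
    rw [hT]
    positivity
  -- the main inequality
  have hmain : ∀ (t : ℝ), 0 < t → t ≤ 1 → ∀ J : ℕ,
      Integrable (fun x => ‖(h : G → ℂ) x‖ ^ 2 /
        ((W₀ x + k2 J x) ^ (n + 4) * (t ^ 2 + k1 J x) ^ (n + 3))) μ ∧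
      ‖χ h‖ ^ 2 ≤ (((n : ℝ) + 2) / 2) * (t ^ 2 * T) *
        ∫ x, ‖(h : G → ℂ) x‖ ^ 2 /
          ((W₀ x + k2 J x) ^ (n + 4) * (t ^ 2 + k1 J x) ^ (n + 3)) ∂μ := by
    intro t ht0 ht1 J
    obtain ⟨F, hF⟩ : ∃ F : Fin (J + 1) → Aexp C hl,
      F = Fin.cons (algebraMap ℂ (Aexp C hl) (t : ℂ)) (fun i : Fin J => e i) := ⟨_, rfl⟩
    have hFs : ∀ x, ∑ i, ‖(F i : G → ℂ) x‖ ^ 2 = t ^ 2 + k1 J x := by
      intro x
      rw [hF, hk1]
      exact ST4_sum C μ hl t e J x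
    have hFc : ∃ c : ℝ, 0 < c ∧ ∀ x, c ≤ ∑ i, ‖(F i : G → ℂ) x‖ ^ 2 := by
      refine ⟨t ^ 2, by positivity, fun x => ?_⟩
      rw [hFs]
      linarith [hk1n J x]
    have hFW : IsWA C hl (fun x => ∑ i, ‖(F i : G → ℂ) x‖ ^ 2) :=
      ⟨J + 1, fun i => F i, fun i => (F i).2, fun x => rfl, hFc⟩
    have hW1 : IsWA C hl (fun x => (W₀ x + k2 J x) ^ (n + 4)) := by
      have h1 := isWA_add_sq C μ hl hW (N := J) (F := fun i => (e' i : G → ℂ)) fun i => (e' i).2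
      have h2 := isWA_pow C μ hl h1 (n + 4)
      have h3 : (fun x => (W₀ x + k2 J x) ^ (n + 4)) =
          fun x => (W₀ x + ∑ i : Fin J, ‖(e' i : G → ℂ) x‖ ^ 2) ^ (n + 4) := by
        funext x
        rw [hk2, Fin.sum_univ_eq_sum_range (fun j => ‖(e' j : G → ℂ) x‖ ^ 2) J]
      rw [h3]
      exact h2
    have hV' : IsWA C hl (fun x => (W₀ x + k2 J x) ^ (n + 4) *
        (∑ i, ‖(F i : G → ℂ) x‖ ^ 2) ^ (n + 3 - 1)) :=
      isWA_mul C μ hl hW1 (isWA_pow C μ hl hFW _)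
    have hV : IsWA C hl (fun x => (W₀ x + k2 J x) ^ (n + 4) *
        (∑ i, ‖(F i : G → ℂ) x‖ ^ 2) ^ (n + 3)) :=
      isWA_mul C μ hl hW1 (isWA_pow C μ hl hFW _)
    have hVb : ∀ x, (W₀ x + k2 J x) ^ (n + 4) * (∑ i, ‖(F i : G → ℂ) x‖ ^ 2) ^ (n + 3 - 1) ≤
        P ^ (2 * (n + 3)) * ew l ((2 * (n + 3) : ℕ) * Q) x := by
      intro x
      rw [hFs, ← ST4_ew_pow]
      have h1 : 0 ≤ W₀ x + k2 J x := add_nonneg (hW0 x).le (hk2n J x)
      have h2 : 0 ≤ t ^ 2 + k1 J x := add_nonneg (by positivity) (hk1n J x)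
      calc (W₀ x + k2 J x) ^ (n + 4) * (t ^ 2 + k1 J x) ^ (n + 3 - 1)
          ≤ (P * ew l Q x) ^ (n + 4) * (P * ew l Q x) ^ (n + 3 - 1) := by
            apply mul_le_mul (pow_le_pow_left₀ h1 (hg2 J x) _)
              (pow_le_pow_left₀ h2 (hg1 t ht0 ht1 J x) _) (by positivity)
            have := hew1 x
            positivity
        _ = (P * ew l Q x) ^ (2 * (n + 3)) := by
            rw [← pow_add]
            congr 1
            omega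
        _ = P ^ (2 * (n + 3)) * ew l Q x ^ (2 * (n + 3)) := mul_pow _ _ _
    -- comparison of `W₀` with the weight
    obtain ⟨D, hD⟩ : ∃ D, D = (c0 ^ (n + 3) * (t ^ 2) ^ (n + 3))⁻¹ := ⟨_, rfl⟩
    have hD0 : 0 < D := by
      rw [hD]
      positivity
    have hcomp : ∀ x, W₀ x ≤ D * ((W₀ x + k2 J x) ^ (n + 4) *
        (∑ i, ‖(F i : G → ℂ) x‖ ^ 2) ^ (n + 3)) := by
      intro x
      rw [hFs, hD, ← div_eq_inv_mul, le_div_iff₀ (by positivity)]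
      have h1 : c0 ^ (n + 3) * W₀ x ≤ (W₀ x + k2 J x) ^ (n + 4) := by
        rw [pow_succ (W₀ x + k2 J x) (n + 3)]
        apply mul_le_mul (pow_le_pow_left₀ hc0.le _ _) _ (hW0 x).le
          (pow_nonneg (add_nonneg (hW0 x).le (hk2n J x)) _)
        · linarith [hWc x, hk2n J x]
        · linarith [hk2n J x]
      have h2 : (t ^ 2) ^ (n + 3) ≤ (t ^ 2 + k1 J x) ^ (n + 3) :=
        pow_le_pow_left₀ (by positivity) (by linarith [hk1n J x]) _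
      calc W₀ x * (c0 ^ (n + 3) * (t ^ 2) ^ (n + 3))
          = (c0 ^ (n + 3) * W₀ x) * (t ^ 2) ^ (n + 3) := by ring
        _ ≤ (W₀ x + k2 J x) ^ (n + 4) * (t ^ 2 + k1 J x) ^ (n + 3) := by
            apply mul_le_mul h1 h2 (by positivity)
            exact pow_nonneg (add_nonneg (hW0 x).le (hk2n J x)) _
    obtain ⟨hmem, -⟩ := memH_mono C μ (isWA_adm C μ hl hW) (isWA_adm C μ hl hV) hD0.le hcomp hh
    have hsk := skoda C μ hl hs (F := F) hFc hW1 (M := n + 3) (by omega) χ.toLinearMap hχ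
      (K := Fin.cons (t ^ 2 * T) fun _ => 0) (by
        intro i
        refine Fin.cases ?_ (fun i => ?_) i
        · simp only [Fin.cons_zero]
          positivity
        · simp only [Fin.cons_succ]
          exact le_rfl) (by
        intro i g hg
        refine Fin.cases ?_ (fun i => ?_) i
        · simp only [Fin.cons_zero]
          have h1 : (F 0 : Aexp C hl) = algebraMap ℂ (Aexp C hl) (t : ℂ) := by
            rw [hF, Fin.cons_zero]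
          have h2 : χ.toLinearMap (F 0 * g) = (t : ℂ) * χ g := by
            rw [AlgHom.toLinearMap_apply, map_mul, h1, AlgHom.commutes]
            rfl
          rw [h2, norm_mul, Complex.norm_real, Real.norm_eq_abs, mul_pow, sq_abs, mul_assoc]
          refine mul_le_mul_of_nonneg_left ?_ (by positivity)
          obtain ⟨h3, h4⟩ := memH_mono C μ (isWA_adm C μ hl hV')
            (ew_adm μ hl ((2 * (n + 3) : ℕ) * Q) (by positivity)) (by positivity) hVb hg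
          have h5 := hcb g h3
          rw [AlgHom.toLinearMap_apply] at h5
          refine h5.trans ?_
          rw [hT, mul_assoc]
          exact mul_le_mul_of_nonneg_left h4 hK
        · simp only [Fin.cons_succ, zero_mul]
          have h1 : (F i.succ : Aexp C hl) = e i := by
            rw [hF, Fin.cons_succ]
          rw [AlgHom.toLinearMap_apply, map_mul, h1, he, zero_mul, norm_zero]
          norm_num) h hmem
    have hcoe : (((n + 3 : ℕ) : ℝ) - 1) / (((n + 3 : ℕ) : ℝ) - 1 - n) = ((n : ℝ) + 2) / 2 := by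
      push_cast
      congr 1 <;> ring
    have hKs : ∑ i, (Fin.cons (t ^ 2 * T) (fun _ => 0) : Fin (J + 1) → ℝ) i = t ^ 2 * T := by
      rw [Fin.sum_univ_succ]
      simp
    rw [hcoe, hKs, AlgHom.toLinearMap_apply] at hsk
    unfold nH at hsk
    have hint := hmem.2
    simp only [hFs] at hsk hint
    exact ⟨hint, hsk⟩
  -- the limit `J → ∞`
  obtain ⟨D, hD⟩ : ∃ D, D = (c ^ 2)⁻¹ ^ (n + 3) * ∫ x, ‖(h : G → ℂ) x‖ ^ 2 / W₀ x ∂μ := ⟨_, rfl⟩
  have hfin : ∀ (t : ℝ), 0 < t → t ≤ 1 →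
      ‖χ h‖ ^ 2 ≤ (((n : ℝ) + 2) / 2) * (t ^ 2 * T) * D := by
    intro t ht0 ht1
    have hlim : Tendsto (fun J => ∫ x, ‖(h : G → ℂ) x‖ ^ 2 /
          ((W₀ x + k2 J x) ^ (n + 4) * (t ^ 2 + k1 J x) ^ (n + 3)) ∂μ) atTop
        (𝓝 (∫ x, ‖(h : G → ℂ) x‖ ^ 2 /
          ((W₀ x + L x) ^ (n + 4) * (t ^ 2 + κ x) ^ (n + 3)) ∂μ)) := by
      refine tendsto_integral_of_dominated_convergence
        (fun x => (c0 ^ (n + 3) * (t ^ 2) ^ (n + 3))⁻¹ * (‖(h : G → ℂ) x‖ ^ 2 / W₀ x))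
        (fun J => (hmain t ht0 ht1 J).1.aestronglyMeasurable) (hh.2.const_mul _) ?_ ?_
      · intro J
        refine Eventually.of_forall fun x => ?_
        have h1 : 0 < W₀ x + k2 J x := by linarith [hW0 x, hk2n J x]
        have h2 : 0 < t ^ 2 + k1 J x := by
          have := hk1n J x
          positivity
        rw [Real.norm_of_nonneg (by positivity)]
        have h3 : c0 ^ (n + 3) * W₀ x ≤ (W₀ x + k2 J x) ^ (n + 4) := by
          rw [pow_succ (W₀ x + k2 J x) (n + 3)]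
          apply mul_le_mul (pow_le_pow_left₀ hc0.le _ _) _ (hW0 x).le (by positivity)
          · linarith [hWc x, hk2n J x]
          · linarith [hk2n J x]
        have h4 : (t ^ 2) ^ (n + 3) ≤ (t ^ 2 + k1 J x) ^ (n + 3) :=
          pow_le_pow_left₀ (by positivity) (by linarith [hk1n J x]) _
        have h5 := hW0 x
        rw [← div_eq_inv_mul, div_div]
        apply div_le_div_of_nonneg_left (by positivity) (by positivity)
        calc W₀ x * (c0 ^ (n + 3) * (t ^ 2) ^ (n + 3))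
            = (c0 ^ (n + 3) * W₀ x) * (t ^ 2) ^ (n + 3) := by ring
          _ ≤ (W₀ x + k2 J x) ^ (n + 4) * (t ^ 2 + k1 J x) ^ (n + 3) := by
              apply mul_le_mul h3 h4 (by positivity) (by positivity)
      · refine Eventually.of_forall fun x => ?_
        have h5 := hW0 x
        have h6 : 0 ≤ L x := (hk2n 0 x).trans (hk2l 0 x)
        have h7 : 0 ≤ κ x := (hk1n 0 x).trans (hk1l 0 x)
        refine Tendsto.div tendsto_const_nhds ?_ (by positivity)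
        exact ((tendsto_const_nhds.add (hk2t x)).pow _).mul
          ((tendsto_const_nhds.add (hk1t x)).pow _)
    have hle : ‖χ h‖ ^ 2 ≤ (((n : ℝ) + 2) / 2) * (t ^ 2 * T) *
        ∫ x, ‖(h : G → ℂ) x‖ ^ 2 / ((W₀ x + L x) ^ (n + 4) * (t ^ 2 + κ x) ^ (n + 3)) ∂μ :=
      ge_of_tendsto' (hlim.const_mul _) fun J => (hmain t ht0 ht1 J).2
    refine hle.trans ?_
    apply mul_le_mul_of_nonneg_left _ (by positivity)
    rw [hD, ← integral_const_mul]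
    refine integral_mono_of_nonneg (Eventually.of_forall fun x => ?_) (hh.2.const_mul _)
      (Eventually.of_forall fun x => ?_)
    · have h5 := hW0 x
      have h6 : 0 ≤ L x := (hk2n 0 x).trans (hk2l 0 x)
      have h7 : 0 ≤ κ x := (hk1n 0 x).trans (hk1l 0 x)
      show 0 ≤ ‖(h : G → ℂ) x‖ ^ 2 / ((W₀ x + L x) ^ (n + 4) * (t ^ 2 + κ x) ^ (n + 3))
      positivity
    · show ‖(h : G → ℂ) x‖ ^ 2 / ((W₀ x + L x) ^ (n + 4) * (t ^ 2 + κ x) ^ (n + 3)) ≤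
        (c ^ 2)⁻¹ ^ (n + 3) * (‖(h : G → ℂ) x‖ ^ 2 / W₀ x)
      have h5 := hW0 x
      have h6 : 0 ≤ L x := (hk2n 0 x).trans (hk2l 0 x)
      have h7 : 0 ≤ κ x := (hk1n 0 x).trans (hk1l 0 x)
      -- `c² ≤ κ L`
      have h8 : c ^ 2 ≤ κ x * L x := by
        have h9 : c * om C hl R x ^ 2 ≤ L x := by
          rw [hL]
          exact hl1 x
        have h10 : c ≤ κ x * om C hl R x ^ 2 := by
          rw [hκ]
          exact hl2 x
        have h11 : c * c ≤ c * (κ x * om C hl R x ^ 2) := mul_le_mul_of_nonneg_left h10 hc.le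
        have h12 : κ x * (c * om C hl R x ^ 2) ≤ κ x * L x := mul_le_mul_of_nonneg_left h9 h7
        nlinarith [h11, h12]
      have h9 : c ^ 2 ≤ (t ^ 2 + κ x) * (W₀ x + L x) := by
        refine h8.trans ?_
        apply mul_le_mul _ _ h6 (by positivity)
        · linarith [sq_nonneg t]
        · linarith
      have h10 : (c ^ 2) ^ (n + 3) * W₀ x ≤
          (W₀ x + L x) ^ (n + 4) * (t ^ 2 + κ x) ^ (n + 3) := by
        calc (c ^ 2) ^ (n + 3) * W₀ x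
            ≤ ((t ^ 2 + κ x) * (W₀ x + L x)) ^ (n + 3) * (W₀ x + L x) := by
              apply mul_le_mul (pow_le_pow_left₀ (by positivity) h9 _) _ h5.le (by positivity)
              linarith
          _ = (W₀ x + L x) ^ (n + 4) * (t ^ 2 + κ x) ^ (n + 3) := by
              rw [mul_pow, pow_succ (W₀ x + L x) (n + 3)]
              ring
      rw [inv_pow, ← div_eq_inv_mul, div_div]
      apply div_le_div_of_nonneg_left (by positivity) (by positivity)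
      calc W₀ x * (c ^ 2) ^ (n + 3) = (c ^ 2) ^ (n + 3) * W₀ x := mul_comm _ _
        _ ≤ _ := h10
  -- `t → 0`
  have hlim : Tendsto (fun k : ℕ => (((n : ℝ) + 2) / 2) * ((1 / ((k : ℝ) + 1)) ^ 2 * T) * D) atTop
      (𝓝 ((((n : ℝ) + 2) / 2) * (0 ^ 2 * T) * D)) :=
    (((tendsto_one_div_add_atTop_nhds_zero_nat.pow 2).mul_const T).const_mul _).mul_const D
  have h1 : ‖χ h‖ ^ 2 ≤ (((n : ℝ) + 2) / 2) * (0 ^ 2 * T) * D := by
    refine ge_of_tendsto' hlim fun k => hfin _ (by positivity) ?_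
    rw [div_le_one (by positivity)]
    linarith [(Nat.cast_nonneg k : (0 : ℝ) ≤ k)]
  have h2 : ‖χ h‖ ^ 2 ≤ 0 := by simpa using h1
  have h3 : ‖χ h‖ = 0 :=
    pow_eq_zero_iff (two_ne_zero) |>.1 (le_antisymm h2 (sq_nonneg _))
  exact norm_eq_zero.1 h3

/-- Step (A). Suppose `χ` is not a point; `char_far`, `exists_kernels`. Let `h, W₀` be a localised
function. For `0 < ε ≤ 1` and `J` use `skoda` with `L = χ`, `F = (ε, e_0, .., e_{J-1})`,
`W₁ = (W₀ + Σ_{j<J} |e'_j|²)^(M+1)`, `M = n + 3`; `K_0 = ε² T`, `K_i = 0` otherwise, where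
`|χ g|² ≤ T ∫ |g|² / (W₁ |F|^(2(M-1)))` with `T` independent of `J` and `ε`
(`W₁ |F|^(2(M-1)) ≤ B' ew l R''` and `cts_bound`). So
`|χ h|² ≤ ((M-1)/(M-1-n)) ε² T ∫ |h|² / (W₁ (ε² + Σ_{j<J}|e_j|²)^M)`. Let `J → ∞` (dominated by
`ε^(-2M) |h|² / W₁ ≤ B |h|²/W₀`), then the integral is at most
`∫ |h|² (W₀+K)^(-M-1) κ^(-M) ≤ B ∫ |h|² (W₀ + K)^(-1) ≤ B ∫ |h|² / W₀` since
`κ⁻¹ ≤ om²/c ≤ K/c²`. With `ε → 0`, `χ h = 0`. The same for all left translates (`loc_left`,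
`isWA_left`), so `h = 0` by `char_inj`, contradiction. -/
theorem char_is_point {s : G → ℝ} (hs : C.Kah s) {h : Aexp C hl} {W₀ : G → ℝ}
    (hW : IsWA C hl W₀) (hh : C.MemH μ W₀ (h : G → ℂ)) (h0 : (h : G → ℂ) ≠ 0)
    (χ : Aexp C hl →ₐ[ℂ] ℂ) (hχ : Cts C hl χ) :
    ∃ x : G, ∀ f : Aexp C hl, χ f = (f : G → ℂ) x := by
  by_contra hcon
  push Not at hcon
  obtain ⟨R, c₁, hR, hc₁, hfar⟩ := char_far C μ hl hW hh h0 χ hχ hcon
  obtain ⟨e, e', R', B, c, hR', hB, hc, he, hsum, hu, hu', hl1, hl2⟩ :=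
    exists_kernels C μ hl χ hχ hR hc₁ hfar
  have h1 : h = 0 := by
    refine char_inj C μ hl χ hχ h fun x => ?_
    exact ST4_zero C μ hl hs χ hχ hR hR' hB hc he hsum hu hu' hl1 hl2
      (isWA_left C μ hl hW x) (loc_left C μ hl hh x)
  apply h0
  rw [h1]
  rfl

end HR
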